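import Pool.Agent.Work.MP_b0c12c_chain.InterfaceY

/-! # Consequences of `Stmt_JGX` (helper73) -/

set_option autoImplicit false

namespace Pool.LGC

open Filter

theorem COR_log_ratio {α : Type} {l : Filter α} {u v : α → ℝ} (hv : Tendsto v l atTop)
    (h : Tendsto (fun a => u a / v a) l (nhds 1)) :
    Tendsto (fun a => Real.log (u a) / Real.log (v a)) l (nhds 1) := by
  have h1 : Tendsto (fun a => Real.log (u a / v a)) l (nhds 0) := by
    have := (Real.continuousAt_log (one_ne_zero)).tendsto.comp h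
    simpa [Function.comp_def] using this
  have h2 : Tendsto (fun a => Real.log (v a)) l atTop := Real.tendsto_log_atTop.comp hv
  have h3 : Tendsto (fun a => Real.log (u a / v a) / Real.log (v a) + 1) l (nhds 1) := by
    have := (h1.div_atTop h2).add_const 1
    simpa using this
  refine h3.congr' ?_
  filter_upwards [hv.eventually_gt_atTop 1, h.eventually (lt_mem_nhds (zero_lt_one))]
    with a h4 h5
  have h6 : 0 < Real.log (v a) := Real.log_pos h4
  have h7 : u a = (u a / v a) * v a := by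
    have : v a ≠ 0 := by linarith
    field_simp
  have h8 : Real.log (u a) = Real.log (u a / v a) + Real.log (v a) := by
    conv_lhs => rw [h7]
    exact Real.log_mul (ne_of_gt h5) (by linarith)
  rw [h8]
  field_simp

theorem COR_ff_ratio (δ : ℝ) (hδ : 0 < δ) : ∀ᶠ X : ℝ in atTop, 0 < ff X ∧
    ∀ p : ℝ, X / 4 ≤ p → p ≤ X → |ff p - ff X| ≤ δ * ff X := by
  set S : Set (ℝ × ℝ) := {x | x.1 / 4 ≤ x.2 ∧ x.2 ≤ x.1} with hS
  set l : Filter (ℝ × ℝ) := (atTop.comap Prod.fst) ⊓ 𝓟 S with hl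
  have e1 : Tendsto (fun x : ℝ × ℝ => x.1) l atTop := tendsto_comap.mono_left inf_le_left
  have eS : ∀ᶠ x in l, x ∈ S := mem_inf_of_right (mem_principal_self S)
  have q1 : Tendsto (fun x : ℝ × ℝ => Real.log x.2 / Real.log x.1) l (nhds 1) := by
    have e2 : Tendsto (fun x : ℝ × ℝ => Real.log x.1) l atTop := Real.tendsto_log_atTop.comp e1
    have e3 : Tendsto (fun x : ℝ × ℝ => 1 - Real.log 4 / Real.log x.1) l (nhds 1) := by
      have := (tendsto_const_nhds (x := Real.log 4)).div_atTop e2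
      simpa using (tendsto_const_nhds (x := (1 : ℝ))).sub this
    refine tendsto_of_tendsto_of_tendsto_of_le_of_le' e3 tendsto_const_nhds ?_ ?_
    · filter_upwards [eS, e1.eventually_gt_atTop 4] with x h1 h2
      have h3 : 0 < Real.log x.1 := Real.log_pos (by linarith)
      have h4 : Real.log (x.1 / 4) ≤ Real.log x.2 := Real.log_le_log (by linarith) h1.1
      rw [Real.log_div (by linarith) (by norm_num)] at h4
      rw [le_div_iff₀ h3, sub_mul, div_mul_cancel₀ _ h3.ne']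
      linarith
    · filter_upwards [eS, e1.eventually_gt_atTop 4] with x h1 h2
      have h3 : 0 < Real.log x.1 := Real.log_pos (by linarith)
      have h5 : x.1 / 4 ≤ x.2 := h1.1
      have h4 : Real.log x.2 ≤ Real.log x.1 := Real.log_le_log (by linarith) h1.2
      rw [div_le_one h3]
      exact h4
  have v1 : Tendsto (fun x : ℝ × ℝ => Real.log x.1) l atTop := Real.tendsto_log_atTop.comp e1
  have v2 : Tendsto (fun x : ℝ × ℝ => Real.log (Real.log x.1)) l atTop :=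
    Real.tendsto_log_atTop.comp v1
  have v3 : Tendsto (fun x : ℝ × ℝ => Real.log (Real.log (Real.log x.1))) l atTop :=
    Real.tendsto_log_atTop.comp v2
  have q2 := COR_log_ratio v1 q1
  have q3 := COR_log_ratio v2 q2
  have q4 := COR_log_ratio v3 q3
  have q : Tendsto (fun x : ℝ × ℝ => ff x.2 / ff x.1) l (nhds 1) := by
    have := ((q1.mul (q2.pow 2)).mul q4).div (q3.pow 2) (by norm_num)
    simp only [one_pow, mul_one, div_one] at this
    refine this.congr fun x => ?_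
    simp only [Pi.div_apply, ff, div_pow]
    simp only [div_eq_mul_inv, mul_inv, inv_inv]
    ring
  have q' : ∀ᶠ x in l, |ff x.2 / ff x.1 - 1| < δ := by
    have := Metric.tendsto_nhds.1 q δ hδ
    simpa [Real.dist_eq] using this
  have w1 : ∀ᶠ X : ℝ in atTop, ∀ x : ℝ × ℝ, x.1 = X → x ∈ S → |ff x.2 / ff x.1 - 1| < δ := by
    have := eventually_comap.1 (eventually_inf_principal.1 q')
    exact this
  have t1 : Tendsto (fun x : ℝ => Real.log x) atTop atTop := Real.tendsto_log_atTop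
  have t2 : Tendsto (fun x : ℝ => Real.log (Real.log x)) atTop atTop :=
    Real.tendsto_log_atTop.comp t1
  have t3 : Tendsto (fun x : ℝ => Real.log (Real.log (Real.log x))) atTop atTop :=
    Real.tendsto_log_atTop.comp t2
  have t4 : Tendsto (fun x : ℝ => Real.log (Real.log (Real.log (Real.log x)))) atTop atTop :=
    Real.tendsto_log_atTop.comp t3
  filter_upwards [w1, t1.eventually_gt_atTop 0, t2.eventually_gt_atTop 0,
    t3.eventually_gt_atTop 0, t4.eventually_gt_atTop 0] with X h1 h2 h3 h4 h5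
  have hf : 0 < ff X := by
    simp only [ff]
    positivity
  refine ⟨hf, fun p hp hp' => ?_⟩
  have h6 := h1 (X, p) rfl ⟨hp, hp'⟩
  simp only [] at h6
  have h7 : ff p - ff X = (ff p / ff X - 1) * ff X := by
    field_simp
  rw [h7, abs_mul, abs_of_pos hf]
  exact mul_le_mul_of_nonneg_right h6.le hf.le

/-- Equally spaced points: `k` consecutive gaps of size at least `(c / k ^ 2) f(X)` below every
large `X`. -/
theorem cor_chains (h : Stmt_JGX) : ∃ c : ℝ, 0 < c ∧ ∀ k : ℕ, 1 ≤ k → ∀ᶠ X : ℕ in atTop, ∃ n : ℕ,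
    (X : ℝ) / 4 ≤ Nat.nth Nat.Prime n ∧ Nat.nth Nat.Prime (n + k) ≤ X ∧
    ∀ j < k, c / k ^ 2 * ff X ≤
      (Nat.nth Nat.Prime (n + j + 1) : ℝ) - Nat.nth Nat.Prime (n + j) := by
  obtain ⟨C, κ, hκ, h⟩ := h
  set D : ℝ := max C 1 with hD
  have hD1 : 1 ≤ D := le_max_right _ _
  refine ⟨κ / (4 * D), by positivity, fun k hk => ?_⟩
  have hk1 : (1 : ℝ) ≤ k := by exact_mod_cast hk
  have hk2 : (1 : ℝ) ≤ (k : ℝ) ^ 2 := one_le_pow₀ hk1
  have hDk : 1 ≤ D * (k : ℝ) ^ 2 := by nlinarith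
  set J : ℕ := ⌈D * (k : ℝ) ^ 2⌉₊ with hJ
  have hJ1 : D * (k : ℝ) ^ 2 ≤ J := Nat.le_ceil _
  have hJ2 : (J : ℝ) ≤ 2 * (D * (k : ℝ) ^ 2) := by
    have := Nat.ceil_lt_add_one (a := D * (k : ℝ) ^ 2) (by positivity)
    linarith
  have hJ0 : (0 : ℝ) < J := by linarith
  have hCJ : C * (k : ℝ) ^ 2 ≤ J :=
    le_trans (mul_le_mul_of_nonneg_right (le_max_left _ _) (by positivity)) hJ1
  have hb : StrictMono (fun i : Fin J => κ / J * ((i : ℕ) : ℝ)) := by
    intro i i' hi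
    have : ((i : ℕ) : ℝ) < ((i' : ℕ) : ℝ) := by exact_mod_cast hi
    exact mul_lt_mul_of_pos_left this (by positivity)
  have hb' : ∀ i : Fin J, 0 ≤ κ / J * ((i : ℕ) : ℝ) ∧ κ / J * ((i : ℕ) : ℝ) ≤ κ := by
    intro i
    refine ⟨by positivity, ?_⟩
    have : ((i : ℕ) : ℝ) ≤ J := by exact_mod_cast i.2.le
    calc κ / J * ((i : ℕ) : ℝ) ≤ κ / J * J := mul_le_mul_of_nonneg_left this (by positivity)
      _ = κ := by field_simp
  filter_upwards [h k J hk hCJ _ hb hb' (κ / (2 * J)) (by positivity)] with X hX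
  obtain ⟨n, i, hi, h1, h2, h3⟩ := hX
  refine ⟨n, h1, h2, fun j hj => ?_⟩
  have h4 := h3 ⟨j, hj⟩
  have hF0 : 0 ≤ ff X := by
    have h5 := (abs_nonneg _).trans h4
    by_contra hneg
    have : κ / (2 * J) * ff X < 0 := mul_neg_of_pos_of_neg (by positivity) (not_le.1 hneg)
    linarith
  have h6 : ((i (Fin.castSucc ⟨j, hj⟩) : Fin J) : ℕ) + 1 ≤
      ((i (Fin.succ ⟨j, hj⟩) : Fin J) : ℕ) := by
    have : i (Fin.castSucc ⟨j, hj⟩) < i (Fin.succ ⟨j, hj⟩) := hi (Fin.castSucc_lt_succ)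
    exact this
  have h7 : (((i (Fin.castSucc ⟨j, hj⟩) : Fin J) : ℕ) : ℝ) + 1 ≤
      (((i (Fin.succ ⟨j, hj⟩) : Fin J) : ℕ) : ℝ) := by exact_mod_cast h6
  have h8 : κ / J ≤ κ / J * (((i (Fin.succ ⟨j, hj⟩) : Fin J) : ℕ) : ℝ) -
      κ / J * (((i (Fin.castSucc ⟨j, hj⟩) : Fin J) : ℕ) : ℝ) := by
    have : κ / J * 1 ≤ κ / J * ((((i (Fin.succ ⟨j, hj⟩) : Fin J) : ℕ) : ℝ) -
      (((i (Fin.castSucc ⟨j, hj⟩) : Fin J) : ℕ) : ℝ)) :=
      mul_le_mul_of_nonneg_left (by linarith) (by positivity)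
    linarith
  have h9 : κ / J * ff X ≤ (κ / J * (((i (Fin.succ ⟨j, hj⟩) : Fin J) : ℕ) : ℝ) -
      κ / J * (((i (Fin.castSucc ⟨j, hj⟩) : Fin J) : ℕ) : ℝ)) * ff X :=
    mul_le_mul_of_nonneg_right h8 hF0
  have h10 : κ / (4 * D) / (k : ℝ) ^ 2 ≤ κ / (2 * J) := by
    rw [div_div, div_le_div_iff_of_pos_left hκ (by positivity) (by positivity)]
    linarith
  have h11 : κ / (4 * D) / (k : ℝ) ^ 2 * ff X ≤ κ / (2 * J) * ff X :=
    mul_le_mul_of_nonneg_right h10 hF0
  have h12 : κ / (2 * J) * ff X = κ / J * ff X - κ / (2 * J) * ff X := by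
    field_simp
    ring
  have h13 := (abs_le.1 h4).1
  simp only [] at h13
  linarith

/-- Limit points: among `J ≥ C k ^ 2` points of `[0, κ]` there are `k + 1` whose consecutive
differences form a limit point of the `k`-tuples of consecutive gaps divided by `f(p_n)`. -/
theorem cor_limit (h : Stmt_JGX) : ∃ C κ : ℝ, 0 < κ ∧ ∀ k J : ℕ, 1 ≤ k → C * k ^ 2 ≤ J →
    ∀ b : Fin J → ℝ, StrictMono b → (∀ i, 0 ≤ b i ∧ b i ≤ κ) →
    ∃ i : Fin (k + 1) → Fin J, StrictMono i ∧ ∀ ε : ℝ, 0 < ε → ∃ᶠ n in atTop, ∀ j : Fin k,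
      |((Nat.nth Nat.Prime (n + j + 1) : ℝ) - Nat.nth Nat.Prime (n + j)) /
        ff (Nat.nth Nat.Prime n) - (b (i j.succ) - b (i j.castSucc))| ≤ ε := by
  obtain ⟨C, κ, hκ, h⟩ := h
  refine ⟨C, κ, hκ, fun k J hk hJ b hb hb' => ?_⟩
  by_contra hcon
  push Not at hcon
  have hch : ∀ i : Fin (k + 1) → Fin J, ∃ ε : ℝ, 0 < ε ∧ (StrictMono i → ∃ N : ℕ, ∀ n ≥ N,
      ¬ ∀ j : Fin k, |((Nat.nth Nat.Prime (n + j + 1) : ℝ) - Nat.nth Nat.Prime (n + j)) /
        ff (Nat.nth Nat.Prime n) - (b (i j.succ) - b (i j.castSucc))| ≤ ε) := by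
    intro i
    by_cases hi : StrictMono i
    · obtain ⟨ε, hε, hh⟩ := hcon i hi
      refine ⟨ε, hε, fun _ => ?_⟩
      refine eventually_atTop.1 (hh.mono fun n hn h => ?_)
      obtain ⟨j, hj⟩ := hn
      exact absurd (h j) (not_le.2 hj)
    · exact ⟨1, one_pos, fun h => absurd h hi⟩
  choose e he hN using hch
  obtain ⟨ε, hε, hεe⟩ : ∃ ε : ℝ, 0 < ε ∧ ∀ i, ε ≤ e i := by
    rcases isEmpty_or_nonempty (Fin (k + 1) → Fin J) with hem | hne
    · exact ⟨1, one_pos, fun i => (hem.false i).elim⟩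
    · obtain ⟨i₀, hi₀⟩ := Finite.exists_min e
      exact ⟨e i₀, he i₀, hi₀⟩
  have hN' : ∃ N : ℕ, ∀ i : Fin (k + 1) → Fin J, StrictMono i → ∀ n ≥ N,
      ¬ ∀ j : Fin k, |((Nat.nth Nat.Prime (n + j + 1) : ℝ) - Nat.nth Nat.Prime (n + j)) /
        ff (Nat.nth Nat.Prime n) - (b (i j.succ) - b (i j.castSucc))| ≤ e i := by
    have : ∀ᶠ N : ℕ in atTop, ∀ i : Fin (k + 1) → Fin J, StrictMono i → ∀ n ≥ N,
      ¬ ∀ j : Fin k, |((Nat.nth Nat.Prime (n + j + 1) : ℝ) - Nat.nth Nat.Prime (n + j)) /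
        ff (Nat.nth Nat.Prime n) - (b (i j.succ) - b (i j.castSucc))| ≤ e i := by
      rw [eventually_all]
      intro i
      by_cases hi : StrictMono i
      · obtain ⟨N, hN1⟩ := hN i hi
        filter_upwards [eventually_ge_atTop N] with M hM _ n hn
        exact hN1 n (le_trans hM hn)
      · exact Eventually.of_forall fun N h => absurd h hi
    exact this.exists
  obtain ⟨N, hN1⟩ := hN'
  have hδ : 0 < ε / (4 * (κ + 1)) := by positivity
  have hδ1 : 0 < min (ε / (4 * (κ + 1))) (1 / 2) := lt_min hδ (by norm_num)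
  have hr := (tendsto_natCast_atTop_atTop (R := ℝ)).eventually (COR_ff_ratio _ hδ1)
  obtain ⟨X, hX, ⟨hF, hr⟩, hXN⟩ := ((h k J hk hJ b hb hb' (ε / 4) (by positivity)).and
    (hr.and ((tendsto_natCast_atTop_atTop (R := ℝ)).eventually_gt_atTop
      (4 * (Nat.nth Nat.Prime N : ℝ))))).exists
  obtain ⟨n, i, hi, h1, h2, h3⟩ := hX
  have hnN : N ≤ n := by
    have h4 : (Nat.nth Nat.Prime N : ℝ) < Nat.nth Nat.Prime n := by linarith
    have h5 : Nat.nth Nat.Prime N < Nat.nth Nat.Prime n := by exact_mod_cast h4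
    exact ((Nat.nth_lt_nth Nat.infinite_setOfPred_prime).1 h5).le
  refine hN1 i hi n hnN fun j => le_trans ?_ (hεe i)
  have h6 : (Nat.nth Nat.Prime n : ℝ) ≤ X := by
    have : Nat.nth Nat.Prime n ≤ Nat.nth Nat.Prime (n + k) :=
      (Nat.nth_strictMono Nat.infinite_setOfPred_prime).monotone (Nat.le_add_right n k)
    exact_mod_cast this.trans h2
  have h7 := hr _ h1 h6
  set p : ℝ := (Nat.nth Nat.Prime n : ℝ) with hp
  set g : ℝ := (Nat.nth Nat.Prime (n + j + 1) : ℝ) - Nat.nth Nat.Prime (n + j) with hg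
  set d : ℝ := b (i j.succ) - b (i j.castSucc) with hd
  have hd0 : 0 ≤ d := by
    have : b (i j.castSucc) < b (i j.succ) := hb (hi Fin.castSucc_lt_succ)
    linarith
  have hdκ : d ≤ κ := by
    have := (hb' (i j.succ)).2
    have := (hb' (i j.castSucc)).1
    linarith
  have h8 : |g - d * ff X| ≤ ε / 4 * ff X := h3 j
  have h9 : |ff p - ff X| ≤ 1 / 2 * ff X :=
    le_trans h7 (mul_le_mul_of_nonneg_right (min_le_right _ _) hF.le)
  have h10 : |ff p - ff X| ≤ ε / (4 * (κ + 1)) * ff X :=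
    le_trans h7 (mul_le_mul_of_nonneg_right (min_le_left _ _) hF.le)
  have h11 : ff X / 2 ≤ ff p := by
    have := (abs_le.1 h9).1
    linarith
  have h12 : 0 < ff p := by linarith
  have h13 : g / ff p - d = (g - d * ff X - d * (ff p - ff X)) / ff p := by
    field_simp
    ring
  rw [h13, abs_div, abs_of_pos h12, div_le_iff₀ h12]
  have h14 : |g - d * ff X - d * (ff p - ff X)| ≤ ε / 4 * ff X + d * |ff p - ff X| := by
    refine le_trans (abs_sub _ _) ?_
    rw [abs_mul, abs_of_nonneg hd0]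
    exact add_le_add h8 le_rfl
  have h15 : d * |ff p - ff X| ≤ ε / 4 * ff X := by
    calc d * |ff p - ff X| ≤ (κ + 1) * (ε / (4 * (κ + 1)) * ff X) :=
          mul_le_mul (by linarith) h10 (abs_nonneg _) (by linarith)
      _ = ε / 4 * ff X := by
          have : κ + 1 ≠ 0 := by linarith
          field_simp
  have h16 : ε * (ff X / 2) ≤ ε * ff p := mul_le_mul_of_nonneg_left h11 hε.le
  linarith

end Pool.LGC
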