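import Pool.Agent.Work.MP_b0c12c_chain.Interface
import Pool.Agent.Work.MP_3a3367_nt_log.SAP
import Pool.Agent.Work.MP_3a3367_nt_log.FL
import Pool.Agent.Work.MP_3a3367_nt_log.MER

/-! # Block BTQ (helper19): Brun-Titchmarsh with small moduli -/

set_option autoImplicit false

namespace Pool.LGC

open Finset

namespace BTQ

open Pool.Agent.Work.MP_3a3367_nt_log

/-- The product over the primes not dividing `d`. -/
lemma VV_le {d : ℕ} (hd : 0 < d) (z : ℝ) :
    VV (UP d.primeFactors z) ≤ VV (UP ∅ z) * (d / d.totient) := by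
  have hφ : 0 < d.totient := Nat.totient_pos.mpr hd
  have hφ' : (0 : ℝ) < d.totient := by exact_mod_cast hφ
  have hd' : (0 : ℝ) < d := by exact_mod_cast hd
  have hfac : ∀ p : ℕ, p.Prime → 0 < 1 - 1 / (p : ℝ) ∧ 1 - 1 / (p : ℝ) ≤ 1 := by
    intro p hp
    have h2 : (1 : ℝ) < p := by exact_mod_cast hp.one_lt
    have h3 : 1 / (p : ℝ) < 1 := by rw [div_lt_one (by linarith)]; exact h2
    have h4 : 0 ≤ 1 / (p : ℝ) := by positivity
    constructor <;> linarith
  have hUP : ∀ M : Finset ℕ, ∀ p ∈ UP M z, p.Prime := by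
    intro M p hp
    unfold UP at hp
    rw [mem_sdiff, mem_filter] at hp
    exact hp.1.2
  have htot : ((d.totient : ℕ) : ℝ) = d * ∏ p ∈ d.primeFactors, (1 - 1 / (p : ℝ)) := by
    have := Nat.totient_eq_mul_prod_factors d
    have h2 : ((d.totient : ℚ) : ℝ) = ((d * ∏ p ∈ d.primeFactors, (1 - (p : ℚ)⁻¹) : ℚ) : ℝ) := by
      rw [this]
    push_cast at h2
    rw [h2]
    simp [one_div]
  have hdis : Disjoint (UP d.primeFactors z) d.primeFactors := by
    unfold UP
    exact sdiff_disjoint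
  have hsub : UP ∅ z ⊆ UP d.primeFactors z ∪ d.primeFactors := by
    intro p hp
    unfold UP at hp ⊢
    simp only [sdiff_empty] at hp
    rw [mem_union, mem_sdiff]
    by_cases h : p ∈ d.primeFactors
    · exact Or.inr h
    · exact Or.inl ⟨hp, h⟩
  have hprod : VV (UP d.primeFactors z) * ∏ p ∈ d.primeFactors, (1 - 1 / (p : ℝ)) ≤
      VV (UP ∅ z) := by
    unfold VV
    rw [← prod_union hdis]
    rw [← prod_sdiff hsub]
    have h1 : ∏ p ∈ (UP d.primeFactors z ∪ d.primeFactors) \ UP ∅ z, (1 - 1 / (p : ℝ)) ≤ 1 := by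
      refine prod_le_one (fun p hp => ?_) (fun p hp => ?_)
      · have hp' : p.Prime := by
          rcases mem_union.mp (mem_sdiff.mp hp).1 with h | h
          · exact hUP _ p h
          · exact Nat.prime_of_mem_primeFactors h
        exact (hfac p hp').1.le
      · have hp' : p.Prime := by
          rcases mem_union.mp (mem_sdiff.mp hp).1 with h | h
          · exact hUP _ p h
          · exact Nat.prime_of_mem_primeFactors h
        exact (hfac p hp').2
    have h2 : 0 ≤ ∏ p ∈ UP ∅ z, (1 - 1 / (p : ℝ)) :=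
      prod_nonneg fun p hp => (hfac p (hUP _ p hp)).1.le
    calc _ ≤ 1 * ∏ p ∈ UP ∅ z, (1 - 1 / (p : ℝ)) := mul_le_mul_of_nonneg_right h1 h2
      _ = _ := one_mul _
  have hq : ∏ p ∈ d.primeFactors, (1 - 1 / (p : ℝ)) = d.totient / d := by
    rw [htot]; field_simp
  rw [hq] at hprod
  have h3 : VV (UP d.primeFactors z) = VV (UP d.primeFactors z) * ((d.totient : ℝ) / d) *
      (d / d.totient) := by
    field_simp
  rw [h3]
  exact mul_le_mul_of_nonneg_right hprod (by positivity)

end BTQ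

open BTQ Pool.Agent.Work.MP_3a3367_nt_log in
theorem p_BTQ : Stmt_BTQ := by
  classical
  obtain ⟨s, hs, hSAP⟩ := stmt_SAP stmt_FL 1 one_pos
  obtain ⟨C, c', hC, -, hM⟩ := stmt_MER
  set h₀ : ℝ := (2 : ℝ) ^ (4 * s) with hh₀
  have hh₀1 : 1 ≤ h₀ := Real.one_le_rpow (by norm_num) (by linarith)
  set A : ℝ := 8 + 8 * s * C + h₀ * h₀ with hA
  have hA0 : 0 < A := by positivity
  refine ⟨A, hA0, ?_⟩
  intro d x h c hd hdh hh2
  have hφ : 0 < d.totient := Nat.totient_pos.mpr hd
  have hφ' : (0 : ℝ) < d.totient := by exact_mod_cast hφ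
  have hd' : (0 : ℝ) < d := by exact_mod_cast hd
  have hφd : (d.totient : ℝ) ≤ d := by exact_mod_cast Nat.totient_le d
  have hh' : (2 : ℝ) ≤ h := by exact_mod_cast hh2
  have hh0 : (0 : ℝ) < h := by linarith
  have hlog : 0 < Real.log h := Real.log_pos (by linarith)
  have hdh' : (d : ℝ) ^ 2 ≤ h := by exact_mod_cast hdh
  have hdle : (d : ℝ) ≤ h := by
    have h1 : (1 : ℝ) ≤ d := by exact_mod_cast hd
    nlinarith
  set N : ℕ := ((Ioc x (x + h)).filter (fun q => q.Prime ∧ q ≡ c [MOD d])).card with hN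
  have hNh : (N : ℝ) ≤ h := by
    have : N ≤ (Ioc x (x + h)).card := card_filter_le _ _
    rw [Nat.card_Ioc] at this
    have h2 : N ≤ h := by omega
    exact_mod_cast h2
  by_cases hsmall : (h : ℝ) < h₀
  · -- small `h`
    have hlh : Real.log h ≤ h₀ := by
      have := Real.log_le_sub_one_of_pos hh0
      linarith
    have h1 : (d.totient : ℝ) * Real.log h ≤ h₀ * h₀ := by
      have : (d.totient : ℝ) ≤ h₀ := by linarith
      exact mul_le_mul this hlh hlog.le (by linarith)
    have h2 : (h : ℝ) ≤ h₀ * h₀ * (h / (d.totient * Real.log h)) := by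
      rw [← mul_div_assoc, le_div_iff₀ (by positivity)]
      nlinarith
    refine hNh.trans (h2.trans ?_)
    refine mul_le_mul_of_nonneg_right ?_ (by positivity)
    have : 0 ≤ 8 * s * C := by positivity
    linarith
  · push_neg at hsmall
    set z : ℝ := (h : ℝ) ^ (1 / (4 * s)) with hz
    have hs0 : 0 < s := by linarith
    have hz2 : 2 ≤ z := by
      have : (2 : ℝ) = h₀ ^ (1 / (4 * s)) := by
        rw [hh₀, ← Real.rpow_mul (by norm_num)]
        rw [mul_one_div_cancel (by positivity), Real.rpow_one]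
      rw [this, hz]
      exact Real.rpow_le_rpow (by positivity) hsmall (by positivity)
    have hzs : z ^ s = (h : ℝ) ^ (1 / 4 : ℝ) := by
      rw [hz, ← Real.rpow_mul hh0.le]
      congr 1
      field_simp
    have hzle : z ≤ (h : ℝ) ^ (1 / 4 : ℝ) := by
      rw [hz]
      refine Real.rpow_le_rpow_of_exponent_le (by linarith) ?_
      rw [div_le_div_iff₀ (by positivity) (by norm_num)]
      linarith
    have hlogz : Real.log z = Real.log h / (4 * s) := by
      rw [hz, Real.log_rpow hh0]; ring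
    set P : Finset ℕ := UP d.primeFactors z with hP
    have hPp : ∀ p ∈ P, p.Prime ∧ (p : ℝ) ≤ z := by
      intro p hp
      rw [hP] at hp
      unfold UP at hp
      rw [mem_sdiff, mem_filter, mem_range] at hp
      refine ⟨hp.1.2, ?_⟩
      have : p ≤ ⌊z⌋₊ := by omega
      exact (Nat.le_floor_iff (by linarith)).mp this
    have hPd : ∀ p ∈ P, Nat.Coprime d p := by
      intro p hp
      have hpp := (hPp p hp).1
      rw [hP] at hp
      unfold UP at hp
      rw [mem_sdiff] at hp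
      rw [Nat.coprime_comm]
      refine (Nat.Prime.coprime_iff_not_dvd hpp).mpr fun hdv => ?_
      exact hp.2 (Nat.mem_primeFactors.mpr ⟨hpp, hdv, hd.ne'⟩)
    obtain ⟨-, hup⟩ := hSAP P z hz2 hPp x h d c hd hPd
    -- counting
    have hcount : (N : ℝ) ≤ z + (#((Rg P x h).filter (fun m => m ≡ c [MOD d])) : ℝ) := by
      have hsub : (Ioc x (x + h)).filter (fun q => q.Prime ∧ q ≡ c [MOD d]) ⊆
          Ioc 0 ⌊z⌋₊ ∪ (Rg P x h).filter (fun m => m ≡ c [MOD d]) := by
        intro q hq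
        rw [mem_filter] at hq
        obtain ⟨hq1, hq2, hq3⟩ := hq
        rw [mem_union]
        by_cases hqz : q ≤ ⌊z⌋₊
        · exact Or.inl (mem_Ioc.mpr ⟨hq2.pos, hqz⟩)
        · refine Or.inr ?_
          rw [mem_filter]
          refine ⟨?_, hq3⟩
          unfold Rg
          rw [mem_filter]
          refine ⟨hq1, fun p hp hpq => ?_⟩
          have hpp := hPp p hp
          rcases (Nat.dvd_prime hq2).mp hpq with h1 | h1
          · exact hpp.1.one_lt.ne' h1
          · apply hqz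
            rw [← h1]
            exact Nat.le_floor hpp.2
      have h1 := (card_le_card hsub).trans (card_union_le _ _)
      rw [Nat.card_Ioc, Nat.sub_zero] at h1
      have h2 : (N : ℝ) ≤ (⌊z⌋₊ : ℝ) + (#((Rg P x h).filter (fun m => m ≡ c [MOD d])) : ℝ) := by
        exact_mod_cast h1
      have h3 : (⌊z⌋₊ : ℝ) ≤ z := Nat.floor_le (by linarith)
      linarith
    have hV : VV P ≤ C / Real.log z * (d / d.totient) := by
      refine (VV_le hd z).trans ?_
      exact mul_le_mul_of_nonneg_right (hM z hz2).2.2.2.2.1 (by positivity)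
    have hmain : (h : ℝ) / d * VV P ≤ 4 * s * C * (h / (d.totient * Real.log h)) := by
      have h1 : (h : ℝ) / d * VV P ≤ h / d * (C / Real.log z * (d / d.totient)) :=
        mul_le_mul_of_nonneg_left hV (by positivity)
      refine h1.trans (le_of_eq ?_)
      rw [hlogz]
      field_simp
    -- the small power
    have h4 : (h : ℝ) ^ (1 / 4 : ℝ) ≤ 4 * (h / (d.totient * Real.log h)) := by
      have hl : Real.log h ≤ 4 * (h : ℝ) ^ (1 / 4 : ℝ) := by
        have := Real.log_le_rpow_div hh0.le (by norm_num : (0 : ℝ) < 1 / 4)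
        linarith
      have hq : (h : ℝ) ^ (1 / 4 : ℝ) * (h : ℝ) ^ (1 / 4 : ℝ) = (h : ℝ) ^ (1 / 2 : ℝ) := by
        rw [← Real.rpow_add hh0]; norm_num
      have hsq : (d : ℝ) ≤ (h : ℝ) ^ (1 / 2 : ℝ) := by
        rw [← Real.sqrt_eq_rpow]
        exact Real.le_sqrt_of_sq_le hdh'
      have hq2 : (h : ℝ) ^ (1 / 2 : ℝ) * (h : ℝ) ^ (1 / 2 : ℝ) = h := by
        rw [← Real.rpow_add hh0]; norm_num
      have hp4 : 0 < (h : ℝ) ^ (1 / 4 : ℝ) := Real.rpow_pos_of_pos hh0 _
      have hp2 : 0 < (h : ℝ) ^ (1 / 2 : ℝ) := Real.rpow_pos_of_pos hh0 _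
      rw [← mul_div_assoc, le_div_iff₀ (by positivity)]
      calc (h : ℝ) ^ (1 / 4 : ℝ) * (d.totient * Real.log h)
          ≤ (h : ℝ) ^ (1 / 4 : ℝ) * ((h : ℝ) ^ (1 / 2 : ℝ) * (4 * (h : ℝ) ^ (1 / 4 : ℝ))) := by
            refine mul_le_mul_of_nonneg_left ?_ hp4.le
            exact mul_le_mul (hφd.trans hsq) hl hlog.le hp2.le
        _ = 4 * (((h : ℝ) ^ (1 / 4 : ℝ) * (h : ℝ) ^ (1 / 4 : ℝ)) * (h : ℝ) ^ (1 / 2 : ℝ)) := by ring
        _ = 4 * h := by rw [hq, hq2]
    have hfin : (N : ℝ) ≤ 2 * (h : ℝ) ^ (1 / 4 : ℝ) + 2 * (h / d * VV P) := by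
      have h5 : (1 + 1 : ℝ) * (h / d * VV P) + z ^ s = 2 * (h / d * VV P) +
          (h : ℝ) ^ (1 / 4 : ℝ) := by rw [hzs]; ring
      rw [h5] at hup
      linarith
    have hX : 0 ≤ (h : ℝ) / (d.totient * Real.log h) := by positivity
    calc (N : ℝ) ≤ 2 * (h : ℝ) ^ (1 / 4 : ℝ) + 2 * (h / d * VV P) := hfin
      _ ≤ 2 * (4 * (h / (d.totient * Real.log h))) +
          2 * (4 * s * C * (h / (d.totient * Real.log h))) := by linarith
      _ = (8 + 8 * s * C) * (h / (d.totient * Real.log h)) := by ring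
      _ ≤ A * (h / (d.totient * Real.log h)) := by
          refine mul_le_mul_of_nonneg_right ?_ hX
          rw [hA]
          nlinarith

end Pool.LGC
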