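import Pool.Agent.Work.MP_b0c12c_chain.InterfaceX

/-! Block ACTX (helper7). -/

set_option autoImplicit false

namespace Pool.LGC

open Finset Filter
open Pool.LGP

theorem ACTX_fib_injective {π ι : Type} [Fintype π] [DecidableEq ι] :
    Function.Injective (fun ρ : π → Option ι => fib ρ) := by
  intro ρ σ h
  funext x
  have key : ∀ i : ι, ρ x = some i ↔ σ x = some i := by
    intro i
    have h1 := congrFun h i
    have h2 : x ∈ fib ρ i ↔ x ∈ fib σ i := by
      have h3 : fib ρ i = fib σ i := h1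
      rw [h3]
    simpa [fib] using h2
  cases hx : ρ x with
  | none =>
    cases hy : σ x with
    | none => rfl
    | some j =>
      have := (key j).2 hy
      rw [hx] at this
      cases this
  | some i =>
    exact ((key i).1 hx).symm

theorem ACTX_inj {π ι : Type} [Fintype π] [DecidableEq π] [Fintype ι] [DecidableEq ι]
    (f : ι → Finset π → ℝ) (hf : ∀ h T, 0 ≤ f h T) :
    ∑ ρ : π → Option ι, ∏ h, f h (fib ρ h) ≤ ∏ h, ∑ T, f h T := by
  classical
  have h1 : ∑ ρ : π → Option ι, ∏ h, f h (fib ρ h) =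
      ∑ t ∈ (univ : Finset (π → Option ι)).image (fun ρ => fib ρ), ∏ h, f h (t h) := by
    rw [Finset.sum_image]
    intro a _ b _ hab
    exact ACTX_fib_injective hab
  have h2 : ∑ t ∈ (univ : Finset (π → Option ι)).image (fun ρ => fib ρ), ∏ h, f h (t h) ≤
      ∑ t : ι → Finset π, ∏ h, f h (t h) :=
    Finset.sum_le_sum_of_subset_of_nonneg (Finset.subset_univ _)
      (fun t _ _ => Finset.prod_nonneg (fun h _ => hf _ _))
  have h3 : ∑ t : ι → Finset π, ∏ h, f h (t h) = ∏ h, ∑ T, f h T := by
    have h4 := Finset.prod_univ_sum (fun _ : ι => (univ : Finset (Finset π)))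
      (fun h T => f h T)
    rw [Fintype.piFinset_univ] at h4
    exact h4.symm
  rw [h1, ← h3]
  exact h2

theorem p_ACTX (_h1 : LGP.Stmt_QLO) (_h2 : LGP.Stmt_QSM) (_h3 : LGP.Stmt_WTF)
    (_h4 : LGP.Stmt_INJ) : Stmt_ACTX := by
  intro π ι _ _ _ _ S u g a b C K D z s G Y Q hd x₀
  classical
  have hpos : ∀ x, 0 < S.pr x := fun x => (hd.good.prime x).pos
  obtain ⟨q1, q2, q3⟩ := _h2 π ι S u a b C K hd.uok hpos
  have hb := hd.b1
  have hbD := hd.bD
  have hD1 : 1 ≤ D := by linarith
  have hb0 : 0 < b := by linarith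
  have hD0 : 0 < D := by linarith
  have hlb : 0 < Real.log b := Real.log_pos hb
  have hlog : Real.log (D / b) ≤ Real.log D := by
    rw [Real.log_div hD0.ne' hb0.ne']
    linarith
  have hQLO := _h1 π ι S hd.good u a b C K D z hd.uok hd.z3 hd.z_le hd.K0 hd.C0 hb hD1
    (by have := hd.hC; linarith)
    (by
      have h5 : Real.exp (-(Real.log D / Real.log b)) ≤
          Real.exp (-(Real.log (D / b) / Real.log b)) := by
        apply Real.exp_le_exp.mpr
        have : Real.log (D / b) / Real.log b ≤ Real.log D / Real.log b :=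
          div_le_div_of_nonneg_right hlog hlb.le
        linarith
      have h6 := hd.heta
      have h7 : 0 ≤ (Real.log D * K / z) ^ 2 := sq_nonneg _
      linarith)
    hd.hK
  have hMM : S.Q1 u ^ Fintype.card ι / 2 ≤ MM S (S.aa u D) := hQLO
  have hQ1 : S.Q1 u = ∑ T, S.qq u T := rfl
  -- pointwise bound
  have hpt : ∀ ρ : π → Option ι, (if ρ x₀ = none then 0 else S.aa u D ρ ^ 2 * S.szn ρ) ≤
      ∑ j : ι, if ρ x₀ = some j then ∏ h, S.qq u (fib ρ h) else 0 := by
    intro ρ
    have hprod : 0 ≤ ∏ h, S.qq u (fib ρ h) := Finset.prod_nonneg fun h _ => q1 _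
    have haa : S.aa u D ρ ^ 2 * S.szn ρ ≤ ∏ h, S.qq u (fib ρ h) := by
      have h2 := (_h3 π ι S ρ).2 u
      unfold Sys.aa
      by_cases h : (S.szn ρ : ℝ) ≤ D
      · rw [if_pos h, h2]
      · rw [if_neg h]
        simpa using hprod
    cases hx : ρ x₀ with
    | none => simp
    | some j =>
      have h8 : ∑ i : ι, (if (some j : Option ι) = some i then ∏ h, S.qq u (fib ρ h) else 0) =
          ∏ h, S.qq u (fib ρ h) := by
        rw [Finset.sum_eq_single j]
        · simp
        · intro i _ hi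
          rw [if_neg]
          intro h
          exact hi (Option.some.inj h).symm
        · intro h
          exact absurd (mem_univ _) h
      rw [h8, if_neg (by simp)]
      exact haa
  -- the sum for one label
  have hj : ∀ j : ι, ∑ ρ : π → Option ι, (if ρ x₀ = some j then ∏ h, S.qq u (fib ρ h) else 0) ≤
      K / S.pr x₀ * S.Q1 u ^ Fintype.card ι := by
    intro j
    set f : ι → Finset π → ℝ := fun h T =>
      if h = j then (if x₀ ∈ T then S.qq u T else 0) else S.qq u T with hf
    have hf0 : ∀ h T, 0 ≤ f h T := by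
      intro h T
      rw [hf]
      simp only
      split_ifs
      · exact q1 T
      · exact le_rfl
      · exact q1 T
    have h9 : ∀ ρ : π → Option ι, (if ρ x₀ = some j then ∏ h, S.qq u (fib ρ h) else 0) ≤
        ∏ h, f h (fib ρ h) := by
      intro ρ
      by_cases hx : ρ x₀ = some j
      · rw [if_pos hx]
        apply le_of_eq
        refine Finset.prod_congr rfl fun h _ => ?_
        rw [hf]
        simp only
        by_cases hh : h = j
        · subst hh
          have : x₀ ∈ fib ρ h := by simp [fib, hx]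
          rw [if_pos rfl, if_pos this]
        · rw [if_neg hh]
      · rw [if_neg hx]
        exact Finset.prod_nonneg fun h _ => hf0 _ _
    have h10 := ACTX_inj f hf0
    have h11 : ∏ h, ∑ T, f h T = (∑ T, f j T) * ∏ h ∈ univ.erase j, ∑ T, f h T := by
      rw [Finset.mul_prod_erase univ (fun h => ∑ T, f h T) (mem_univ j)]
    have h12 : ∏ h ∈ univ.erase j, ∑ T, f h T = S.Q1 u ^ (Fintype.card ι - 1) := by
      have : ∀ h ∈ univ.erase j, ∑ T, f h T = S.Q1 u := by
        intro h hh
        have hne : h ≠ j := Finset.ne_of_mem_erase hh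
        rw [hQ1]
        refine Finset.sum_congr rfl fun T _ => ?_
        rw [hf]
        simp only
        rw [if_neg hne]
      rw [Finset.prod_congr rfl this, Finset.prod_const, Finset.card_erase_of_mem (mem_univ j),
        Finset.card_univ]
    have h13 : ∑ T, f j T ≤ K / S.pr x₀ := by
      have : ∑ T, f j T = ∑ T, (if x₀ ∈ T then S.qq u T else 0) := by
        refine Finset.sum_congr rfl fun T _ => ?_
        rw [hf]
        simp
      rw [this]
      exact q3 x₀
    have hKp : 0 ≤ K / S.pr x₀ := div_nonneg hd.K0 (Nat.cast_nonneg _)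
    calc ∑ ρ : π → Option ι, (if ρ x₀ = some j then ∏ h, S.qq u (fib ρ h) else 0)
        ≤ ∑ ρ : π → Option ι, ∏ h, f h (fib ρ h) := Finset.sum_le_sum fun ρ _ => h9 ρ
      _ ≤ ∏ h, ∑ T, f h T := h10
      _ = (∑ T, f j T) * S.Q1 u ^ (Fintype.card ι - 1) := by rw [h11, h12]
      _ ≤ K / S.pr x₀ * S.Q1 u ^ (Fintype.card ι - 1) :=
          mul_le_mul_of_nonneg_right h13 (pow_nonneg (by linarith) _)
      _ ≤ K / S.pr x₀ * S.Q1 u ^ Fintype.card ι :=
          mul_le_mul_of_nonneg_left (pow_le_pow_right₀ q2 (Nat.sub_le _ _)) hKp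
  have hKp : 0 ≤ K / S.pr x₀ := div_nonneg hd.K0 (Nat.cast_nonneg _)
  have hfin : ∑ ρ : π → Option ι, (if ρ x₀ = none then 0 else S.aa u D ρ ^ 2 * S.szn ρ) ≤
      2 * Fintype.card ι * K / S.pr x₀ * MM S (S.aa u D) := by
    calc ∑ ρ : π → Option ι, (if ρ x₀ = none then 0 else S.aa u D ρ ^ 2 * S.szn ρ)
        ≤ ∑ ρ : π → Option ι, ∑ j : ι, (if ρ x₀ = some j then ∏ h, S.qq u (fib ρ h) else 0) :=
          Finset.sum_le_sum fun ρ _ => hpt ρ
      _ = ∑ j : ι, ∑ ρ : π → Option ι, (if ρ x₀ = some j then ∏ h, S.qq u (fib ρ h) else 0) :=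
          Finset.sum_comm
      _ ≤ ∑ _j : ι, K / S.pr x₀ * S.Q1 u ^ Fintype.card ι := Finset.sum_le_sum fun j _ => hj j
      _ = Fintype.card ι * (K / S.pr x₀ * S.Q1 u ^ Fintype.card ι) := by
          rw [Finset.sum_const, Finset.card_univ, nsmul_eq_mul]
      _ ≤ Fintype.card ι * (K / S.pr x₀ * (2 * MM S (S.aa u D))) := by
          apply mul_le_mul_of_nonneg_left _ (Nat.cast_nonneg _)
          apply mul_le_mul_of_nonneg_left _ hKp
          linarith
      _ = 2 * Fintype.card ι * K / S.pr x₀ * MM S (S.aa u D) := by ring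
  convert hfin using 1

end Pool.LGC
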