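import Pool.Agent.Work.MP_b0c12c_chain.InterfaceAN
import Pool.Agent.Work.PS.WS3

/-! # AN: arbitrarily large good scales -/

set_option autoImplicit false

namespace Pool.LGC

open Finset Filter

theorem Fam_eq (Q : ℕ) : Fam Q = Pool.Agent.PS.Fam Q := rfl

theorem p_AN (h1 : Stmt_GSC) (h2 : Stmt_EFT) : Stmt_AN := by
  intro ε hε
  obtain ⟨κ₁, hκ0, hκ1, hG⟩ := h1 (ε / 12) (by linarith)
  obtain ⟨C, hC, hE⟩ := h2
  refine ⟨κ₁ / 20, by linarith, ?_⟩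
  intro X₀
  -- large scales
  have ev : ∀ᶠ X : ℝ in atTop, (2 * C ≤ X ^ κ₁ ∧ X ^ (-(κ₁ / 5)) ≤ ε / (6 * C) ∧
      8 / κ₁ ^ 2 ≤ Real.log X ∧ 1 ≤ X) := by
    have e1 : ∀ᶠ X : ℝ in atTop, 2 * C ≤ X ^ κ₁ :=
      (tendsto_rpow_atTop hκ0).eventually_ge_atTop _
    have e2 : ∀ᶠ X : ℝ in atTop, X ^ (-(κ₁ / 5)) ≤ ε / (6 * C) := by
      have h3 : Tendsto (fun X : ℝ => X ^ (-(κ₁ / 5))) atTop (nhds 0) :=
        tendsto_rpow_neg_atTop (by linarith)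
      have h4 : 0 < ε / (6 * C) := by positivity
      exact (h3.eventually (gt_mem_nhds h4)).mono fun X hX => hX.le
    have e3 : ∀ᶠ X : ℝ in atTop, 8 / κ₁ ^ 2 ≤ Real.log X :=
      Real.tendsto_log_atTop.eventually_ge_atTop _
    filter_upwards [e1, e2, e3, eventually_ge_atTop (1 : ℝ)] with X a b c d
    exact ⟨a, b, c, d⟩
  obtain ⟨N, hN⟩ := eventually_atTop.1 ev
  obtain ⟨X, hX, hX1, hsum⟩ := hG (max X₀ N)
  obtain ⟨hp, he, hl, _⟩ := hN X ((le_max_right _ _).trans hX)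
  refine ⟨X, (le_max_left _ _).trans hX, ?_⟩
  intro Q u v hQ hu huv hv
  have hX0 : 0 < X := by linarith
  set Z : ℕ := ⌊X ^ κ₁⌋₊ with hZ
  have hpow0 : 0 < X ^ κ₁ := Real.rpow_pos_of_pos hX0 _
  have hZle : (Z : ℝ) ≤ X ^ κ₁ := Nat.floor_le hpow0.le
  have hZge : X ^ κ₁ / 2 ≤ Z := by
    have := Nat.lt_floor_add_one (X ^ κ₁)
    rw [← hZ] at this
    linarith
  have hZC : C ≤ Z := by linarith
  have hZ1 : (1 : ℝ) ≤ Z := by linarith
  have hlX : 0 ≤ Real.log X := Real.log_nonneg hX1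
  have hk2 : 8 ≤ κ₁ ^ 2 * Real.log X := by
    rw [div_le_iff₀ (by positivity)] at hl
    linarith
  -- the logarithm of `Z`
  have hlogZ : κ₁ / 2 * Real.log X ≤ Real.log Z := by
    have a1 : Real.log (X ^ κ₁ / 2) ≤ Real.log Z := Real.log_le_log (by positivity) hZge
    rw [Real.log_div hpow0.ne' (by norm_num), Real.log_rpow hX0] at a1
    have a2 : Real.log 2 ≤ 1 := by linarith [Real.log_two_lt_d9]
    have a3 : 1 ≤ κ₁ / 2 * Real.log X := by nlinarith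
    linarith
  have hexp : 4 * X ≤ Real.exp (Real.log Z ^ 2) := by
    have b1 : Real.log (4 * X) ≤ Real.log Z ^ 2 := by
      rw [Real.log_mul (by norm_num) hX0.ne']
      have b2 : Real.log 4 ≤ 2 := by
        have : Real.log 4 = 2 * Real.log 2 := by
          rw [show (4 : ℝ) = 2 ^ 2 by norm_num, Real.log_pow]
          norm_num
        linarith [Real.log_two_lt_d9]
      have b3 : (κ₁ / 2 * Real.log X) ^ 2 ≤ Real.log Z ^ 2 := by
        have : 0 ≤ κ₁ / 2 * Real.log X := by positivity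
        nlinarith
      have b4 : 2 * Real.log X ≤ (κ₁ / 2 * Real.log X) ^ 2 := by nlinarith
      have b5 : 2 ≤ Real.log X := by nlinarith
      linarith
    calc 4 * X = Real.exp (Real.log (4 * X)) := (Real.exp_log (by positivity)).symm
      _ ≤ _ := Real.exp_le_exp.2 b1
  -- `Q` is small
  have hQpow : (Q : ℝ) ≤ X ^ (κ₁ / 20) := hQ
  have hQ2 : (Q : ℝ) ^ 2 ≤ X ^ (κ₁ / 10) := by
    have : (X ^ (κ₁ / 20)) ^ 2 = X ^ (κ₁ / 10) := by
      rw [← Real.rpow_natCast, ← Real.rpow_mul hX0.le]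
      congr 1
      push_cast
      ring
    rw [← this]
    exact pow_le_pow_left₀ (Nat.cast_nonneg _) hQpow 2
  have hQZ : Q ≤ Z := by
    apply Nat.le_floor
    exact hQpow.trans (Real.rpow_le_rpow_of_exponent_le hX1 (by linarith))
  -- the sum
  set T : ℝ := C * (X * (Z : ℝ) ^ (-(1 / 3) : ℝ) + (Z : ℝ) ^ 5 * X ^ (19 / 20 : ℝ)) with hT
  have hT0 : 0 ≤ T := by positivity
  have hcard : ((Pool.Agent.PS.Fam Q).card : ℝ) ≤ (Q : ℝ) ^ 2 := by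
    exact_mod_cast Pool.Agent.PS.card_Fam_le Q
  have hmom : Mom Q u v ≤ 6 * X * (ε / 12) + (Q : ℝ) ^ 2 * T := by
    unfold Mom
    rw [Fam_eq]
    calc ∑ x ∈ Pool.Agent.PS.Fam Q, ‖∑ n ∈ Ioc u v, (th n : ℂ) * x.2 (n : ZMod x.1) -
          (open Classical in if x.2 = 1 then ((v : ℂ) - u) else 0)‖
        ≤ ∑ x ∈ Pool.Agent.PS.Fam Q,
          (6 * X * Pool.Agent.PS.zs (Pool.Agent.PS.zl x Z) X + T) :=
          sum_le_sum fun x hx =>
            hE Z hZC x (Pool.Agent.PS.Fam_mono hQZ hx) X u v hX1 hu huv hv hexp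
      _ = 6 * X * ∑ x ∈ Pool.Agent.PS.Fam Q, Pool.Agent.PS.zs (Pool.Agent.PS.zl x Z) X +
          ((Pool.Agent.PS.Fam Q).card : ℝ) * T := by
          rw [sum_add_distrib, ← mul_sum, sum_const, nsmul_eq_mul]
      _ ≤ 6 * X * ∑ x ∈ Pool.Agent.PS.Fam Z, Pool.Agent.PS.zs (Pool.Agent.PS.zl x Z) X +
          (Q : ℝ) ^ 2 * T := by
          apply add_le_add
          · apply mul_le_mul_of_nonneg_left _ (by positivity)
            exact sum_le_sum_of_subset_of_nonneg (Pool.Agent.PS.Fam_mono hQZ)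
              fun x _ _ => Pool.Agent.PS.zs_nonneg _ _ hX0.le
          · exact mul_le_mul_of_nonneg_right hcard hT0
      _ ≤ 6 * X * (ε / 12) + (Q : ℝ) ^ 2 * T := by
          have := mul_le_mul_of_nonneg_left hsum (by positivity : 0 ≤ 6 * X)
          linarith
  -- the error
  have g1 : (Z : ℝ) ^ (-(1 / 3) : ℝ) ≤ 2 * X ^ (-(κ₁ / 3)) := by
    have c1 : (Z : ℝ) ^ (-(1 / 3) : ℝ) ≤ (X ^ κ₁ / 2) ^ (-(1 / 3) : ℝ) :=
      Real.rpow_le_rpow_of_nonpos (by positivity) hZge (by norm_num)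
    rw [Real.div_rpow hpow0.le (by norm_num), ← Real.rpow_mul hX0.le] at c1
    have c2 : (2 : ℝ) ^ (-(1 / 3) : ℝ) = 1 / (2 : ℝ) ^ (1 / 3 : ℝ) := by
      rw [Real.rpow_neg (by norm_num : (0 : ℝ) ≤ 2)]
      exact (one_div _).symm
    have c3 : (2 : ℝ) ^ (1 / 3 : ℝ) ≤ 2 ^ (1 : ℝ) :=
      Real.rpow_le_rpow_of_exponent_le (by norm_num) (by norm_num)
    rw [Real.rpow_one] at c3
    rw [c2, div_div_eq_mul_div, div_one, show κ₁ * -(1 / 3) = -(κ₁ / 3) by ring] at c1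
    have c4 : 0 ≤ X ^ (-(κ₁ / 3)) := Real.rpow_nonneg hX0.le _
    nlinarith
  have g2 : (Z : ℝ) ^ 5 ≤ X ^ (5 * κ₁) := by
    have : (X ^ κ₁) ^ 5 = X ^ (5 * κ₁) := by
      rw [← Real.rpow_natCast, ← Real.rpow_mul hX0.le]
      congr 1
      push_cast
      ring
    rw [← this]
    exact pow_le_pow_left₀ (Nat.cast_nonneg _) hZle 5
  have g3 : (Q : ℝ) ^ 2 * (X * (Z : ℝ) ^ (-(1 / 3) : ℝ)) ≤ 2 * (X * X ^ (-(κ₁ / 5))) := by
    have d1 : X ^ (κ₁ / 10) * (X * (2 * X ^ (-(κ₁ / 3)))) = 2 * (X * X ^ (κ₁ / 10 - κ₁ / 3)) := by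
      rw [sub_eq_add_neg, Real.rpow_add hX0]
      ring
    have d2 : X ^ (κ₁ / 10 - κ₁ / 3) ≤ X ^ (-(κ₁ / 5)) :=
      Real.rpow_le_rpow_of_exponent_le hX1 (by linarith)
    calc (Q : ℝ) ^ 2 * (X * (Z : ℝ) ^ (-(1 / 3) : ℝ))
        ≤ X ^ (κ₁ / 10) * (X * (2 * X ^ (-(κ₁ / 3)))) := by
          apply mul_le_mul hQ2 _ (by positivity) (by positivity)
          exact mul_le_mul_of_nonneg_left g1 hX0.le
      _ = 2 * (X * X ^ (κ₁ / 10 - κ₁ / 3)) := d1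
      _ ≤ _ := by
          have := mul_le_mul_of_nonneg_left d2 hX0.le
          linarith
  have g4 : (Q : ℝ) ^ 2 * ((Z : ℝ) ^ 5 * X ^ (19 / 20 : ℝ)) ≤ X * X ^ (-(κ₁ / 5)) := by
    calc (Q : ℝ) ^ 2 * ((Z : ℝ) ^ 5 * X ^ (19 / 20 : ℝ))
        ≤ X ^ (κ₁ / 10) * (X ^ (5 * κ₁) * X ^ (19 / 20 : ℝ)) := by
          apply mul_le_mul hQ2 _ (by positivity) (by positivity)
          exact mul_le_mul_of_nonneg_right g2 (by positivity)
      _ = X ^ (κ₁ / 10 + (5 * κ₁ + 19 / 20)) := by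
          rw [Real.rpow_add hX0, Real.rpow_add hX0]
      _ ≤ X ^ (1 + -(κ₁ / 5)) := Real.rpow_le_rpow_of_exponent_le hX1 (by linarith)
      _ = X * X ^ (-(κ₁ / 5)) := by rw [Real.rpow_add hX0, Real.rpow_one]
  have g5 : (Q : ℝ) ^ 2 * T ≤ 3 * C * (X * X ^ (-(κ₁ / 5))) := by
    rw [hT]
    have : (Q : ℝ) ^ 2 * (C * (X * (Z : ℝ) ^ (-(1 / 3) : ℝ) + (Z : ℝ) ^ 5 * X ^ (19 / 20 : ℝ))) =
      C * ((Q : ℝ) ^ 2 * (X * (Z : ℝ) ^ (-(1 / 3) : ℝ)) +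
        (Q : ℝ) ^ 2 * ((Z : ℝ) ^ 5 * X ^ (19 / 20 : ℝ))) := by ring
    rw [this]
    have := mul_le_mul_of_nonneg_left (add_le_add g3 g4) (by linarith : 0 ≤ C)
    linarith
  have g6 : 3 * C * (X * X ^ (-(κ₁ / 5))) ≤ ε / 2 * X := by
    have f1 : X * X ^ (-(κ₁ / 5)) ≤ X * (ε / (6 * C)) := mul_le_mul_of_nonneg_left he hX0.le
    have f2 : 3 * C * (X * (ε / (6 * C))) = ε / 2 * X := by
      field_simp
      ring
    have f3 := mul_le_mul_of_nonneg_left f1 (by positivity : 0 ≤ 3 * C)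
    linarith
  linarith

end Pool.LGC
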