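import Pool.Agent.Work.MP_b0c12c_chain.InterfaceY
import Pool.Agent.Work.MP_b0c12c_chain.B_ANE

/-! # ANF: every large scale is good apart from one real primitive character of large modulus -/

set_option autoImplicit false

namespace Pool.LGC

open Finset Filter

theorem ANF_prim {Z : ℕ} {y : Ch} (h : y ∈ Pool.Agent.PS.Fam Z) : y.2.IsPrimitive := by
  unfold Pool.Agent.PS.Fam at h
  rw [mem_sigma] at h
  have h2 := h.2
  unfold Pool.Agent.BV.PC at h2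
  simpa using h2

/-- **ANF** -/
theorem p_ANF (h1 : Stmt_EFE) (h2 : Stmt_EFT) (h3 : Pool.Agent.PS.Stmt_ZS)
    (h4 : Pool.Agent.PS.Stmt_SIEG) : Stmt_ANF := by
  intro ε hε
  obtain ⟨κ₀, hκ₀, Z0, hZS⟩ := h3 (ε / 12) (by linarith)
  obtain ⟨C₁, hC₁, hE1⟩ := h1
  obtain ⟨C₂, hC₂, hE2⟩ := h2
  obtain ⟨c, hc, hS⟩ := h4 (1 / 2) (by norm_num)
  set κ₁ : ℝ := min κ₀ (1 / 1000) with hκ₁
  have hκ0 : 0 < κ₁ := lt_min hκ₀ (by norm_num)
  have hκ1 : κ₁ ≤ 1 / 1000 := min_le_right _ _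
  set C : ℝ := max C₁ C₂ with hCdef
  have hC : 1 ≤ C := hC₁.trans (le_max_left _ _)
  refine ⟨κ₁ / 20, by linarith, ?_⟩
  intro D
  have ev := (ANE_ev ε κ₁ C hε hκ0 hC).and
    ((tendsto_rpow_atTop hκ0).eventually_ge_atTop
      (2 * (max (max (Z0 : ℝ) (Real.exp 10)) (Real.exp (√D / c)))))
  obtain ⟨X₀, hX₀⟩ := eventually_atTop.1 ev
  refine ⟨X₀, ?_⟩
  intro X hX
  obtain ⟨hb, hbig⟩ := hX₀ X hX
  obtain ⟨hZC, hZge, hZle, hexp⟩ := ANE_Z ε κ₁ C X hκ0 (by linarith) hC hb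
  have hX1 : 1 ≤ X := hb.2.2.2
  have hX0 : 0 < X := by linarith
  set Z : ℕ := ⌊X ^ κ₁⌋₊ with hZ
  have hmax : max (max (Z0 : ℝ) (Real.exp 10)) (Real.exp (√D / c)) ≤ Z := by linarith
  have hZZ0 : Z0 ≤ Z := by
    have h4 : (Z0 : ℝ) ≤ Z := (le_max_left _ _).trans ((le_max_left _ _).trans hmax)
    exact_mod_cast h4
  have hZe : Real.exp 10 ≤ (Z : ℝ) := (le_max_right _ _).trans ((le_max_left _ _).trans hmax)
  have hZD : Real.exp (√D / c) ≤ (Z : ℝ) := (le_max_right _ _).trans hmax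
  have hZκ : (Z : ℝ) ≤ X ^ κ₀ :=
    hZle.trans (Real.rpow_le_rpow_of_exponent_le hX1 (min_le_left _ _))
  have hT : ∀ c : ℝ, c ≤ C →
      c * (X * (Z : ℝ) ^ (-(1 / 3) : ℝ) + (Z : ℝ) ^ 5 * X ^ (19 / 20 : ℝ)) ≤
      C * (X * (Z : ℝ) ^ (-(1 / 3) : ℝ) + (Z : ℝ) ^ 5 * X ^ (19 / 20 : ℝ)) :=
    fun c hc => mul_le_mul_of_nonneg_right hc (by positivity)
  rcases hZS Z hZZ0 X hX1 hZκ with h | ⟨y, δ, hexc, hδ, hsum⟩
  · refine ⟨⟨1, 1⟩, one_pos, one_pow 2, DirichletCharacter.isPrimitive_one_level_one,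
      Or.inl rfl, ?_⟩
    intro u v hu huv hv
    have huvr : (u : ℝ) ≤ v := by exact_mod_cast huv
    refine ⟨0, le_rfl, by linarith, ?_⟩
    intro Q hQ
    unfold MomE
    rw [ANE_Fam_eq]
    refine ANE_mom ε κ₁ C X hκ0 hκ1 hC hb (fun x => Pool.Agent.PS.zl x Z) _ _ h ?_ Q hQ
    intro x hx
    have h5 := hE2 Z ((le_max_right _ _).trans hZC) x hx X u v hX1 hu huv hv hexp
    have h6 : (open Classical in if x.2 = 1 then ((v : ℂ) - u) else
        if x = (⟨1, 1⟩ : Ch) then -((0 : ℝ) : ℂ) else 0) =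
        (open Classical in if x.2 = 1 then ((v : ℂ) - u) else 0) := by
      by_cases hx1 : x.2 = 1
      · simp [hx1]
      · rw [if_neg hx1, if_neg hx1]
        simp
    rw [h6]
    exact h5.trans (add_le_add_right (hT C₂ (le_max_right _ _)) _)
  · have hlog10 : 10 ≤ Real.log Z := by
      rw [Real.le_log_iff_exp_le (lt_of_lt_of_le (Real.exp_pos _) hZe)]
      exact hZe
    have hδ10 : δ ≤ 1 / 10 := by
      refine hδ.trans ?_
      exact one_div_le_one_div_of_le (by norm_num) hlog10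
    have hsum' : ∑ x ∈ Pool.Agent.PS.Fam Z, Pool.Agent.PS.zs (Pool.Agent.PS.zx Z y δ x) X ≤
        ε / 12 := by
      refine hsum.trans ?_
      calc ε / 12 * min 1 (δ * Real.log X) ≤ ε / 12 * 1 :=
            mul_le_mul_of_nonneg_left (min_le_left _ _) (by linarith)
        _ = ε / 12 := mul_one _
    have hy0 : 0 < y.1 := (Pool.Agent.PS.Fam_pos hexc.mem).1
    have hyr : (0 : ℝ) < y.1 := by exact_mod_cast hy0
    have hDy : D ≤ y.1 := by
      have s1 : c * (y.1 : ℝ) ^ (-(1 / 2) : ℝ) ≤ 1 / Real.log Z := (hS Z y δ hexc).trans hδ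
      rw [Real.rpow_neg hyr.le, ← Real.sqrt_eq_rpow] at s1
      have hsq : 0 < √(y.1 : ℝ) := Real.sqrt_pos.2 hyr
      have s2 : c * Real.log Z ≤ √(y.1 : ℝ) := by
        rw [← div_eq_mul_inv, div_le_div_iff₀ hsq (by linarith)] at s1
        linarith
      have s3 : √D / c ≤ Real.log Z := by
        rw [Real.le_log_iff_exp_le (lt_of_lt_of_le (Real.exp_pos _) hZe)]
        exact hZD
      have s4 : √D ≤ c * Real.log Z := by
        rw [div_le_iff₀ hc] at s3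
        linarith
      have s5 : √(D : ℝ) ≤ √(y.1 : ℝ) := s4.trans s2
      have s6 : (D : ℝ) ≤ y.1 := (Real.sqrt_le_sqrt_iff hyr.le).1 s5
      exact_mod_cast s6
    refine ⟨y, hy0, hexc.sq, ANF_prim hexc.mem, Or.inr hDy, ?_⟩
    intro u v hu huv hv
    obtain ⟨R, hR0, hR1, hR⟩ := hE1 Z ((le_max_left _ _).trans hZC) y δ hexc hδ10 X u v hX1 hu huv
      hv hexp
    refine ⟨R, hR0, hR1, ?_⟩
    intro Q hQ
    unfold MomE
    rw [ANE_Fam_eq]
    refine ANE_mom ε κ₁ C X hκ0 hκ1 hC hb (fun x => Pool.Agent.PS.zx Z y δ x) _ _ hsum' ?_ Q hQ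
    intro x hx
    exact (hR x hx).trans (add_le_add_right (hT C₁ (le_max_left _ _)) _)

end Pool.LGC
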