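import Pool.Agent.Work.MP_b0c12c_chain.Interface

set_option autoImplicit false

/-! Chains of large gaps, block ASL: averaging, many good indices and a small total at once. -/

namespace Pool.LGC

open Finset

theorem p_ASL : Stmt_ASL := by
  intro N J good _ tot T c hN hJ hc hT htot hsum hgood
  classical
  have hNR : (0 : ℝ) < N := by exact_mod_cast hN
  have hJR : (0 : ℝ) < J := by exact_mod_cast hJ
  set A : Finset ℕ := (range N).filter (fun v => c / 2 * tot v ≤ T) with hA
  set B : Finset ℕ := (range N).filter (fun v => ¬ c / 2 * tot v ≤ T) with hB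
  have hBcard : (B.card : ℝ) ≤ c / 2 * N := by
    by_contra hcon
    push Not at hcon
    have hBne : B.Nonempty := by
      rw [← Finset.card_pos]
      have : (0 : ℝ) < (B.card : ℝ) := lt_trans (by positivity) hcon
      exact_mod_cast this
    have h1 : (∑ v ∈ B, T) < ∑ v ∈ B, c / 2 * tot v := by
      apply Finset.sum_lt_sum_of_nonempty hBne
      intro v hv
      have := (Finset.mem_filter.mp hv).2
      push Not at this
      exact this
    have h2 : ∑ v ∈ B, c / 2 * tot v ≤ ∑ v ∈ range N, c / 2 * tot v :=
      Finset.sum_le_sum_of_subset_of_nonneg (Finset.filter_subset _ _)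
        (fun v _ _ => mul_nonneg (by positivity) (htot v))
    have h5 : ∑ v ∈ range N, c / 2 * tot v = c / 2 * ∑ v ∈ range N, tot v :=
      (Finset.mul_sum _ _ _).symm
    rw [h5] at h2
    rw [Finset.sum_const, nsmul_eq_mul] at h1
    have h3 : c / 2 * ∑ v ∈ range N, tot v ≤ c / 2 * (N * T) :=
      mul_le_mul_of_nonneg_left hsum (by positivity)
    have h4 : c / 2 * N * T ≤ B.card * T := mul_le_mul_of_nonneg_right hcon.le hT
    linarith [h1, h2, h3, h4, (by ring : c / 2 * (N * T) = c / 2 * N * T)]
  have hi : ∀ i < J, c / 2 * N ≤ ((A.filter (fun v => good i v)).card : ℝ) := by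
    intro i hiJ
    have h1 := hgood i hiJ
    have h2 : (range N).filter (fun v => good i v) ⊆ A.filter (fun v => good i v) ∪ B := by
      intro v hv
      rw [Finset.mem_filter] at hv
      rw [Finset.mem_union]
      by_cases h : c / 2 * tot v ≤ T
      · left
        exact Finset.mem_filter.mpr ⟨Finset.mem_filter.mpr ⟨hv.1, h⟩, hv.2⟩
      · right
        exact Finset.mem_filter.mpr ⟨hv.1, h⟩
    have h3 : ((range N).filter (fun v => good i v)).card ≤
        (A.filter (fun v => good i v)).card + B.card :=
      (Finset.card_le_card h2).trans (Finset.card_union_le _ _)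
    have h4 : (((range N).filter (fun v => good i v)).card : ℝ) ≤
        ((A.filter (fun v => good i v)).card : ℝ) + B.card := by exact_mod_cast h3
    linarith
  have hdouble : ∑ v ∈ A, (((range J).filter (fun i => good i v)).card : ℝ) =
      ∑ i ∈ range J, ((A.filter (fun v => good i v)).card : ℝ) := by
    have := Finset.sum_card_bipartiteAbove_eq_sum_card_bipartiteBelow
      (s := range J) (t := A) (fun i v => good i v)
    unfold Finset.bipartiteAbove Finset.bipartiteBelow at this
    exact_mod_cast this.symm
  have hlow : c / 2 * N * J ≤ ∑ v ∈ A, (((range J).filter (fun i => good i v)).card : ℝ) := by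
    rw [hdouble]
    calc c / 2 * N * J = ∑ i ∈ range J, c / 2 * (N : ℝ) := by
          rw [Finset.sum_const, nsmul_eq_mul, Finset.card_range]; ring
      _ ≤ _ := Finset.sum_le_sum (fun i hi' => hi i (Finset.mem_range.mp hi'))
  have hAne : A.Nonempty := by
    by_contra hcon
    rw [Finset.not_nonempty_iff_eq_empty] at hcon
    rw [hcon, Finset.sum_empty] at hlow
    have : 0 < c / 2 * N * J := by positivity
    linarith
  have hAcard : (A.card : ℝ) ≤ N := by
    have := Finset.card_filter_le (range N) (fun v => c / 2 * tot v ≤ T)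
    rw [Finset.card_range] at this
    exact_mod_cast this
  obtain ⟨v, hvA, hv⟩ : ∃ v ∈ A, c / 2 * J ≤ (((range J).filter (fun i => good i v)).card : ℝ) := by
    apply Finset.exists_le_of_sum_le hAne
    rw [Finset.sum_const, nsmul_eq_mul]
    refine le_trans ?_ hlow
    have : (A.card : ℝ) * (c / 2 * J) ≤ N * (c / 2 * J) :=
      mul_le_mul_of_nonneg_right hAcard (by positivity)
    linarith [this, (by ring : (N : ℝ) * (c / 2 * J) = c / 2 * N * J)]
  have hv' := Finset.mem_filter.mp hvA
  exact ⟨v, Finset.mem_range.mp hv'.1, hv, hv'.2⟩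

end Pool.LGC
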