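import Pool.Agent.Work.MP_b0c12c_chain.Interface

/-! # Chains of large gaps between primes: block AVG (helper60) -/

set_option autoImplicit false

namespace Pool.LGC

open Finset Filter
open Pool.LGP

theorem AVG_gen (R : Finset ℕ) (hR : ∀ p ∈ R, p.Prime) (Q : ℕ → ℕ → Prop)
    [∀ p v, Decidable (Q p v)]
    (hQ : ∀ p v w : ℕ, v ≡ w [MOD p] → (Q p v ↔ Q p w)) :
    ((range (∏ p ∈ R, p)).filter (fun v => ∀ p ∈ R, Q p v)).card =
      ∏ p ∈ R, ((range p).filter (Q p)).card := by
  classical
  induction R using Finset.induction_on with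
  | empty => simp
  | insert q R hq ih =>
    have hR' : ∀ p ∈ R, p.Prime := fun p hp => hR p (Finset.mem_insert_of_mem hp)
    have hqp : q.Prime := hR q (Finset.mem_insert_self q R)
    rw [Finset.prod_insert hq, Finset.prod_insert hq, ← ih hR', ← Finset.card_product]
    set M := ∏ p ∈ R, p with hM
    have hM0 : 0 < M := Finset.prod_pos (fun p hp => (hR' p hp).pos)
    have hcop : Nat.Coprime q M := by
      rw [hM]
      apply Nat.Coprime.prod_right
      intro p hp
      rw [Nat.coprime_primes hqp (hR' p hp)]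
      intro h
      exact hq (h ▸ hp)
    apply Finset.card_bij (fun v _ => (v % q, v % M))
    · intro v hv
      obtain ⟨hv1, hv2⟩ := Finset.mem_filter.mp hv
      rw [Finset.mem_product]
      refine ⟨Finset.mem_filter.mpr ⟨Finset.mem_range.mpr (Nat.mod_lt _ hqp.pos), ?_⟩,
        Finset.mem_filter.mpr ⟨Finset.mem_range.mpr (Nat.mod_lt _ hM0), ?_⟩⟩
      · exact (hQ q v (v % q) (Nat.mod_modEq v q).symm).mp (hv2 q (Finset.mem_insert_self q R))
      · intro p hp
        have hpM : p ∣ M := Finset.dvd_prod_of_mem _ hp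
        exact (hQ p v (v % M) ((Nat.mod_modEq v M).symm.of_dvd hpM)).mp
          (hv2 p (Finset.mem_insert_of_mem hp))
    · intro v hv w hw hvw
      simp only [Prod.mk.injEq] at hvw
      obtain ⟨hv1, -⟩ := Finset.mem_filter.mp hv
      obtain ⟨hw1, -⟩ := Finset.mem_filter.mp hw
      have h1 : v ≡ w [MOD q] := hvw.1
      have h2 : v ≡ w [MOD M] := hvw.2
      have h3 : v ≡ w [MOD q * M] := (Nat.modEq_and_modEq_iff_modEq_mul hcop).mp ⟨h1, h2⟩
      exact h3.eq_of_lt_of_lt (Finset.mem_range.mp hv1) (Finset.mem_range.mp hw1)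
    · intro ab hab
      rw [Finset.mem_product] at hab
      obtain ⟨ha, hb⟩ := hab
      obtain ⟨ha1, ha2⟩ := Finset.mem_filter.mp ha
      obtain ⟨hb1, hb2⟩ := Finset.mem_filter.mp hb
      obtain ⟨k, hk1, hk2⟩ := Nat.chineseRemainder hcop ab.1 ab.2
      refine ⟨k % (q * M), ?_, ?_⟩
      · apply Finset.mem_filter.mpr
        refine ⟨Finset.mem_range.mpr (Nat.mod_lt _ (Nat.mul_pos hqp.pos hM0)), ?_⟩
        intro p hp
        rcases Finset.mem_insert.mp hp with h | h
        · subst h
          have e1 : k % (p * M) ≡ k [MOD p] := (Nat.mod_modEq k (p * M)).of_dvd (dvd_mul_right p M)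
          exact (hQ p _ _ (e1.trans hk1)).mpr ha2
        · have hpM : p ∣ q * M := dvd_mul_of_dvd_right (Finset.dvd_prod_of_mem _ h) q
          have e1 : k % (q * M) ≡ k [MOD p] := (Nat.mod_modEq k (q * M)).of_dvd hpM
          have e2 : k ≡ ab.2 [MOD p] := hk2.of_dvd (Finset.dvd_prod_of_mem _ h)
          exact (hQ p _ _ (e1.trans e2)).mpr (hb2 p h)
      · have e1 : k % (q * M) % q = ab.1 := by
          have : k % (q * M) ≡ ab.1 [MOD q] :=
            ((Nat.mod_modEq k (q * M)).of_dvd (dvd_mul_right q M)).trans hk1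
          rw [Nat.ModEq, Nat.mod_eq_of_lt (Finset.mem_range.mp ha1)] at this
          exact this
        have e2 : k % (q * M) % M = ab.2 := by
          have : k % (q * M) ≡ ab.2 [MOD M] :=
            ((Nat.mod_modEq k (q * M)).of_dvd (dvd_mul_left M q)).trans hk2
          rw [Nat.ModEq, Nat.mod_eq_of_lt (Finset.mem_range.mp hb1)] at this
          exact this
        rw [e1, e2]

theorem AVG_one {p : ℕ} (hp : 0 < p) (n : ℕ) :
    (range p).filter (fun v => p ∣ v + n) = {(p - n % p) % p} := by
  ext v
  rw [Finset.mem_filter, Finset.mem_range, Finset.mem_singleton]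
  have hr : n % p < p := Nat.mod_lt _ hp
  have key : p ∣ v + n ↔ p ∣ v + n % p := by
    constructor
    · intro h
      have h1 := Nat.div_add_mod n p
      have h2 : v + n = p * (n / p) + (v + n % p) := by omega
      rw [h2] at h
      exact (Nat.dvd_add_right (dvd_mul_right p _)).mp h
    · intro h
      have h1 := Nat.div_add_mod n p
      have h2 : v + n = p * (n / p) + (v + n % p) := by omega
      rw [h2]
      exact dvd_add (dvd_mul_right p _) h
  rw [key]
  constructor
  · rintro ⟨h1, h2⟩
    obtain ⟨c, hc⟩ := h2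
    rcases Nat.eq_zero_or_pos (n % p) with h0 | h0
    · rw [h0, Nat.sub_zero, Nat.mod_self]
      rw [h0, add_zero] at hc
      rcases Nat.eq_zero_or_pos c with hc0 | hc0
      · rw [hc0, mul_zero] at hc
        exact hc
      · exfalso
        have : p * 1 ≤ p * c := Nat.mul_le_mul_left p hc0
        omega
    · rw [Nat.mod_eq_of_lt (by omega)]
      have hc1 : c = 1 := by
        rcases Nat.lt_or_ge c 1 with h3 | h3
        · have : c = 0 := by omega
          rw [this, mul_zero] at hc
          omega
        · rcases Nat.lt_or_ge c 2 with h4 | h4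
          · omega
          · exfalso
            have : p * 2 ≤ p * c := Nat.mul_le_mul_left p h4
            omega
      rw [hc1, mul_one] at hc
      omega
  · intro h
    rcases Nat.eq_zero_or_pos (n % p) with h0 | h0
    · rw [h0, Nat.sub_zero, Nat.mod_self] at h
      rw [h, h0]
      exact ⟨hp, dvd_zero p⟩
    · rw [Nat.mod_eq_of_lt (by omega)] at h
      refine ⟨by omega, ?_⟩
      have : v + n % p = p := by omega
      rw [this]

theorem AVG_modEq {p : ℕ} (n v w : ℕ) (h : v ≡ w [MOD p]) : (p ∣ v + n ↔ p ∣ w + n) := by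
  have h1 : v + n ≡ w + n [MOD p] := Nat.ModEq.add_right n h
  constructor
  · intro h2
    exact (h1.dvd_iff dvd_rfl).mp h2
  · intro h2
    exact (h1.dvd_iff dvd_rfl).mpr h2

theorem p_AVG : Stmt_AVG := by
  intro R hR n n'
  constructor
  · rw [AVG_gen R hR (fun p v => ¬ p ∣ v + n)
      (fun p v w h => not_congr (AVG_modEq n v w h))]
    apply Finset.prod_congr rfl
    intro p hp
    have hp0 := (hR p hp).pos
    rw [Finset.filter_not, Finset.card_sdiff_of_subset (Finset.filter_subset _ _), AVG_one hp0 n,
      Finset.card_singleton, Finset.card_range]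
  · have h1 : ((range (∏ p ∈ R, p)).filter (fun v => (∀ p ∈ R, ¬ p ∣ v + n) ∧
        ∀ p ∈ R, ¬ p ∣ v + n')) = (range (∏ p ∈ R, p)).filter
          (fun v => ∀ p ∈ R, (¬ p ∣ v + n ∧ ¬ p ∣ v + n')) := by
      apply Finset.filter_congr
      intro v _
      constructor
      · rintro ⟨h1, h2⟩ p hp
        exact ⟨h1 p hp, h2 p hp⟩
      · intro h
        exact ⟨fun p hp => (h p hp).1, fun p hp => (h p hp).2⟩
    rw [h1, AVG_gen R hR (fun p v => (¬ p ∣ v + n ∧ ¬ p ∣ v + n'))
      (fun p v w h => and_congr (not_congr (AVG_modEq n v w h)) (not_congr (AVG_modEq n' v w h)))]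
    apply Finset.prod_congr rfl
    intro p hp
    have hp0 := (hR p hp).pos
    have h2 : (range p).filter (fun v => ¬ p ∣ v + n ∧ ¬ p ∣ v + n') =
        range p \ ((range p).filter (fun v => p ∣ v + n) ∪
          (range p).filter (fun v => p ∣ v + n')) := by
      ext v
      simp only [Finset.mem_filter, Finset.mem_sdiff, Finset.mem_union, Finset.mem_range]
      tauto
    rw [h2, Finset.card_sdiff_of_subset (Finset.union_subset (Finset.filter_subset _ _)
      (Finset.filter_subset _ _)), Finset.card_range]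
    congr 1
    by_cases h3 : n ≡ n' [MOD p]
    · rw [if_pos h3]
      have h4 : (range p).filter (fun v => p ∣ v + n) = (range p).filter (fun v => p ∣ v + n') := by
        apply Finset.filter_congr
        intro v _
        have h5 : v + n ≡ v + n' [MOD p] := Nat.ModEq.add_left v h3
        exact h5.dvd_iff dvd_rfl
      rw [h4, Finset.union_self, AVG_one hp0 n', Finset.card_singleton]
    · rw [if_neg h3]
      rw [Finset.card_union_of_disjoint, AVG_one hp0 n, AVG_one hp0 n', Finset.card_singleton,
        Finset.card_singleton]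
      rw [Finset.disjoint_left]
      intro v hv1 hv2
      obtain ⟨-, hv1⟩ := Finset.mem_filter.mp hv1
      obtain ⟨-, hv2⟩ := Finset.mem_filter.mp hv2
      apply h3
      have h5 : v + n ≡ v + n' [MOD p] :=
        ((Nat.modEq_zero_iff_dvd).mpr hv1).trans ((Nat.modEq_zero_iff_dvd).mpr hv2).symm
      exact Nat.ModEq.add_left_cancel' v h5

end Pool.LGC
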