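import Pool.Agent.Work.MP_b0c12c_chain.Interface

/-! # Block CDT: total mass and mass of the rough values of the labels (helper59) -/

set_option autoImplicit false

namespace Pool.LGC

open Finset
open Pool.LGP

theorem p_CDT (hL2 : Pool.LGP.Stmt_L2) (hRGH : Pool.LGP.Stmt_RGH) (hPEZ : Pool.LGP.Stmt_PEZ)
    (hQLO : Pool.LGP.Stmt_QLO) (hBUP : Pool.LGP.Stmt_BUP) (hERR : Pool.LGP.Stmt_ERR)
    (hBBD : Pool.LGP.Stmt_BBD) (hACT : Pool.LGP.Stmt_ACT) (hQSM : Pool.LGP.Stmt_QSM) :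
    Stmt_CDT := by
  intro π ι _ _ _ _ S hS u a b C K D z s Y hu hz hpr hK hC hs ha hb hbD hz1 hz2 hkC hη hka
  have hD1 : 1 ≤ D := by linarith
  have hD0 : 0 < D := by linarith
  have hb0 : 0 < b := by linarith
  have hlb : 0 < Real.log b := Real.log_pos hb
  have hprpos : ∀ x, 0 < S.pr x := fun x => (hS.prime x).pos
  have hpr3 : ∀ x, (3 : ℝ) ≤ S.pr x := fun x => hz.trans (hpr x)
  obtain ⟨k, hk⟩ : ∃ k : ℝ, k = (Fintype.card ι : ℝ) := ⟨_, rfl⟩
  have hk0 : 0 ≤ k := by rw [hk]; positivity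
  rw [← hk] at hz1 hz2 hkC hka
  obtain ⟨η, hηdef⟩ : ∃ η : ℝ, η = (Real.log D * K / z) ^ 2 +
      Real.exp (-(Real.log (D / b) / Real.log b)) := ⟨_, rfl⟩
  rw [← hηdef] at hη ⊢
  obtain ⟨Q, hQdef⟩ : ∃ Q : ℝ, Q = S.Q1 u ^ Fintype.card ι := ⟨_, rfl⟩
  have hez0 : ∀ ρ : π → Option ι, 0 ≤ S.ez ρ := by
    intro ρ
    unfold Sys.ez
    refine Finset.prod_nonneg (fun x _ => ?_)
    rcases ρ x with _ | h
    · simp [Sys.el]
    · simp only [Sys.el]
      positivity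
  have hη0 : 0 ≤ η := by rw [hηdef]; positivity
  have hQ1 : 1 ≤ S.Q1 u := (hQSM π ι S u a b C K hu hprpos).2.1
  have hQ : 1 ≤ Q := by rw [hQdef]; exact one_le_pow₀ hQ1
  -- supports
  have hsupp : ∀ ρ : π → Option ι, (S.szn ρ : ℝ) ≤ D →
      8 * (act ρ : ℝ) * (Fintype.card ι + 1) ≤ z := by
    intro ρ hρ
    have h1 := hACT π ι S D hpr3 ρ hρ
    refine le_trans ?_ hz1
    rw [← hk]
    have h2 : 8 * (act ρ : ℝ) ≤ 8 * Real.log D := by linarith
    exact mul_le_mul_of_nonneg_right h2 (by linarith)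
  have hsa : ∀ ρ : π → Option ι, S.aa u D ρ ≠ 0 →
      8 * (act ρ : ℝ) * (Fintype.card ι + 1) ≤ z := by
    intro ρ hρ
    apply hsupp
    by_contra hlt
    exact hρ (by unfold Sys.aa; rw [if_neg hlt])
  have hsb : ∀ (m : ι) (σ : π → Option ι), push m (S.aa u D) σ ≠ 0 →
      8 * (act σ : ℝ) * (Fintype.card ι + 1) ≤ z := by
    intro m σ hσ
    apply hsupp
    exact (hBBD π ι S u a b C K D z hu hz hpr hK hb.le hbD m σ).2 hσ
  have hlogDb : Real.log (D / b) ≤ Real.log D := by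
    rw [Real.log_div hD0.ne' hb0.ne']
    linarith
  have hηexp : Real.exp (-(Real.log (D / b) / Real.log b)) ≤ 1 / 32 := by
    have h1 : Real.exp (-(Real.log (D / b) / Real.log b)) ≤ η := by
      rw [hηdef]
      have := sq_nonneg (Real.log D * K / z)
      linarith
    linarith
  have hexpD : Real.exp (-(Real.log D / Real.log b)) ≤ 1 / 4 := by
    have h1 : Real.exp (-(Real.log D / Real.log b)) ≤
        Real.exp (-(Real.log (D / b) / Real.log b)) := by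
      apply Real.exp_le_exp.mpr
      apply neg_le_neg
      exact div_le_div_of_nonneg_right hlogDb hlb.le
    linarith
  have hlow := hQLO π ι S hS u a b C K D z hu hz hpr hK hC hb hD1
    (by rw [← hk]; linarith) hexpD (by rw [← hk]; exact hz2)
  rw [← hQdef] at hlow
  have hlow' : Q / 2 ≤ MM S (S.aa u D) := hlow
  have hL2a := (hL2 π ι S hS z hz hpr (S.aa u D) hsa Y).1
  have hE := hERR π ι S hS u a b C K D z s hu hz hpr hs ha hD1 (by rw [← hk]; exact hka)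
    (by rw [← hk]; exact hz1)
  refine ⟨by linarith, hE, hL2a, ?_⟩
  intro m
  have h1 := (hL2 π ι S hS z hz hpr (push m (S.aa u D)) (hsb m) Y).1
  have h2 := hBUP π ι S u a b C K D z hu hz hpr hK hC hb hbD (by rw [← hk]; exact hkC) m
  rw [← hQdef, ← hηdef] at h2
  have h3 := hPEZ π ι S (S.aa u D) m
  have h4 : 0 ≤ ∑ σ, |push m (S.aa u D) σ| * S.ez σ :=
    Finset.sum_nonneg (fun σ _ => mul_nonneg (abs_nonneg _) (hez0 σ))
  have h5 : (∑ σ, |push m (S.aa u D) σ| * S.ez σ) ^ 2 ≤ EE S (S.aa u D) ^ 2 :=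
    pow_le_pow_left₀ h4 h3 2
  have h6 : 2 * (Y : ℝ) * ∑ σ, push m (S.aa u D) σ ^ 2 * S.szn σ ≤ 2 * Y * (2 * η * Q) :=
    mul_le_mul_of_nonneg_left h2 (by positivity)
  have h7 : 2 * (Y : ℝ) * (2 * η * Q) ≤ 8 * Y * η * MM S (S.aa u D) := by
    have h8 : 0 ≤ 8 * (Y : ℝ) * η := by positivity
    have h9 := mul_le_mul_of_nonneg_left hlow' h8
    calc 2 * (Y : ℝ) * (2 * η * Q) = 8 * Y * η * (Q / 2) := by ring
      _ ≤ 8 * Y * η * MM S (S.aa u D) := h9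
  have hpoint : ∀ y ∈ Ioc Y (2 * Y),
      (if ∀ x, ¬ S.pr x ∣ S.N m y then FF S (S.aa u D) y ^ 2 else 0) ≤
      (∑ σ, push m (S.aa u D) σ * S.psi σ y) ^ 2 := by
    intro y _
    split_ifs with hr
    · unfold FF
      rw [hRGH π ι S (S.aa u D) m y hr]
    · positivity
  calc ∑ y ∈ Ioc Y (2 * Y), (if ∀ x, ¬ S.pr x ∣ S.N m y then FF S (S.aa u D) y ^ 2 else 0)
      ≤ ∑ y ∈ Ioc Y (2 * Y), (∑ σ, push m (S.aa u D) σ * S.psi σ y) ^ 2 :=
        Finset.sum_le_sum hpoint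
    _ ≤ 8 * Y * η * MM S (S.aa u D) + EE S (S.aa u D) ^ 2 := by linarith

end Pool.LGC
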