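import Pool.Agent.Work.MP_b0c12c_chain.InterfaceY

/-! # Block CHC: the conductor of the character modulo `W` which agrees with `y` (helper65) -/

set_option autoImplicit false

namespace Pool.LGC

open Finset Filter
open Pool.LGP

theorem p_CHC : Stmt_CHC := by
  intro y W hy hW hprim χ hχ
  have hm : 0 < W * y.1 := Nat.mul_pos hW hy
  have hWm : W ∣ W * y.1 := Nat.dvd_mul_right _ _
  have hym : y.1 ∣ W * y.1 := Nat.dvd_mul_left _ _
  have hN : NeZero (W * y.1) := ⟨hm.ne'⟩
  have h : DirichletCharacter.changeLevel hym y.2 = DirichletCharacter.changeLevel hWm χ := by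
    refine MulChar.ext (fun u => ?_)
    rw [DirichletCharacter.changeLevel_eq_cast_of_dvd, DirichletCharacter.changeLevel_eq_cast_of_dvd]
    have h1 := hχ (u : ZMod (W * y.1)).val (ZMod.val_coe_unit_coprime u)
    rwa [ZMod.natCast_val, ZMod.natCast_val] at h1
  have h2 : y.2.conductor = χ.conductor := by
    rw [← DirichletCharacter.conductor_changeLevel (χ := y.2) hym, h,
      DirichletCharacter.conductor_changeLevel]
  have h3 : y.2.conductor = y.1 := hprim
  rw [← h2, h3]

end Pool.LGC
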