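import Pool.Agent.Work.MP_b0c12c_chain.InterfaceL

/-! # CHL: consecutive primes and the indices of their clusters (helper52) -/

set_option autoImplicit false

namespace Pool.LGC

open Finset Filter
open Pool.LGP

theorem p_CHL : Stmt_CHL := by
  intro a H k J d x E hE hx hH hcov hone hcard
  set n : ℕ := Nat.count Nat.Prime (a + 1) with hn
  have hinf : {p | Nat.Prime p}.Infinite := Nat.infinite_setOfPred_prime
  have hna : a < Nat.nth Nat.Prime n := by
    have h0 : a + 1 ≤ Nat.nth Nat.Prime (Nat.count Nat.Prime (a + 1)) :=
      Nat.le_nth_count hinf (a + 1)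
    rw [hn]
    exact h0
  -- the number of primes up to a + H
  have hcount : n + (k + 1) ≤ Nat.count Nat.Prime (a + H + 1) := by
    have hsub : (((univ.biUnion E).filter (fun h => (a + h).Prime)).image (fun h => a + h)) ∪
        ((range (a + 1)).filter Nat.Prime) ⊆ (range (a + H + 1)).filter Nat.Prime := by
      intro m hm
      rw [Finset.mem_union] at hm
      rcases hm with hm | hm
      · rw [Finset.mem_image] at hm
        obtain ⟨h, hh, rfl⟩ := hm
        rw [Finset.mem_filter, Finset.mem_biUnion] at hh
        obtain ⟨⟨i, _, hi⟩, hp⟩ := hh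
        have h1 := Finset.mem_Ioc.1 (hE i hi)
        have h2 := hH i
        rw [Finset.mem_filter, Finset.mem_range]
        exact ⟨by omega, hp⟩
      · rw [Finset.mem_filter, Finset.mem_range] at hm ⊢
        exact ⟨by omega, hm.2⟩
    have hdis : Disjoint (((univ.biUnion E).filter (fun h => (a + h).Prime)).image
        (fun h => a + h)) ((range (a + 1)).filter Nat.Prime) := by
      rw [Finset.disjoint_left]
      intro m hm hm'
      rw [Finset.mem_image] at hm
      obtain ⟨h, hh, rfl⟩ := hm
      rw [Finset.mem_filter, Finset.mem_biUnion] at hh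
      obtain ⟨⟨i, _, hi⟩, hp⟩ := hh
      have h1 := Finset.mem_Ioc.1 (hE i hi)
      rw [Finset.mem_filter, Finset.mem_range] at hm'
      omega
    have hc := Finset.card_le_card hsub
    rw [Finset.card_union_of_disjoint hdis,
      Finset.card_image_of_injective _ (fun u v huv => by simpa using huv)] at hc
    have c1 : n = ((range (a + 1)).filter Nat.Prime).card := by
      rw [hn, Nat.count_eq_card_filter_range]
    have c2 : Nat.count Nat.Prime (a + H + 1) =
        ((range (a + H + 1)).filter Nat.Prime).card := by
      rw [Nat.count_eq_card_filter_range]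
    rw [c2]
    omega
  have hle : ∀ j : ℕ, j ≤ k → Nat.nth Nat.Prime (n + j) ≤ a + H := by
    intro j hj
    have : Nat.nth Nat.Prime (n + j) < a + H + 1 := Nat.nth_lt_of_lt_count (by omega)
    omega
  have hgt : ∀ j : ℕ, a < Nat.nth Nat.Prime (n + j) := by
    intro j
    have : Nat.nth Nat.Prime n ≤ Nat.nth Nat.Prime (n + j) :=
      Nat.nth_monotone hinf (by omega)
    omega
  have hex : ∀ j : Fin (k + 1), ∃ i : Fin J, ∃ h ∈ E i, Nat.nth Nat.Prime (n + j) = a + h := by
    intro j
    refine hcov _ (Finset.mem_Ioc.2 ⟨hgt j, hle j (by have := j.2; omega)⟩)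
      (Nat.prime_nth_prime _)
  choose i h hh heq using hex
  have hloc : ∀ j : Fin (k + 1), a + x (i j) < Nat.nth Nat.Prime (n + j) ∧
      Nat.nth Nat.Prime (n + j) ≤ a + x (i j) + d := by
    intro j
    have h1 := Finset.mem_Ioc.1 (hE (i j) (hh j))
    have h2 := heq j
    omega
  refine ⟨n, i, ?_, hna, hle k le_rfl, hloc⟩
  intro j j' hjj
  have hlt : Nat.nth Nat.Prime (n + j) < Nat.nth Nat.Prime (n + j') := by
    apply Nat.nth_strictMono hinf
    have : (j : ℕ) < j' := hjj
    omega
  rcases lt_trichotomy (i j) (i j') with hlt' | heq' | hgt'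
  · exact hlt'
  · exfalso
    have hone' := hone (i j)
    rw [Finset.card_le_one] at hone'
    have e1 : h j ∈ (E (i j)).filter (fun h => (a + h).Prime) := by
      rw [Finset.mem_filter]
      refine ⟨hh j, ?_⟩
      rw [← heq j]
      exact Nat.prime_nth_prime _
    have e2 : h j' ∈ (E (i j)).filter (fun h => (a + h).Prime) := by
      rw [Finset.mem_filter]
      refine ⟨by rw [heq']; exact hh j', ?_⟩
      rw [← heq j']
      exact Nat.prime_nth_prime _
    have e3 := hone' _ e1 _ e2
    have e4 := heq j
    have e5 := heq j'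
    omega
  · exfalso
    have h1 := hx (i j') (i j) hgt'
    have h2 := hloc j
    have h3 := hloc j'
    omega

end Pool.LGC
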