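import Pool.Agent.Work.MP_b0c12c_chain.Interface

set_option autoImplicit false

namespace Pool.LGC

open Finset Filter
open Pool.LGP

theorem p_CHN : Stmt_CHN := by
  intro a H k d hk hd
  have hinf := Nat.infinite_setOf_prime
  have hmono := Nat.nth_strictMono hinf
  set n := Nat.count Nat.Prime (a + 1) with hn
  have h1 : ∀ j, a < Nat.nth Nat.Prime (n + j) := by
    intro j
    have : a + 1 ≤ Nat.nth Nat.Prime (n + j) :=
      (Nat.count_le_iff_le_nth hinf).1 (by rw [← hn]; exact Nat.le_add_right _ _)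
    omega
  have h2 : Nat.count Nat.Prime (a + H + 1) =
      n + ((Ioc a (a + H)).filter Nat.Prime).card := by
    rw [hn, Nat.count_eq_card_filter_range, Nat.count_eq_card_filter_range, ← card_union_of_disjoint]
    · congr 1
      ext m
      simp only [mem_filter, mem_range, mem_union, mem_Ioc]
      constructor
      · rintro ⟨h, hp⟩
        by_cases hm : m < a + 1
        · exact Or.inl ⟨hm, hp⟩
        · exact Or.inr ⟨by omega, hp⟩
      · rintro (⟨h, hp⟩ | ⟨h, hp⟩)
        · exact ⟨by omega, hp⟩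
        · exact ⟨by omega, hp⟩
    · rw [disjoint_left]
      intro m hm hm'
      simp only [mem_filter, mem_range, mem_Ioc] at hm hm'
      omega
  have h3 : ∀ j, j ≤ k → Nat.nth Nat.Prime (n + j) ≤ a + H := by
    intro j hj
    have : Nat.nth Nat.Prime (n + j) < a + H + 1 :=
      (Nat.lt_nth_iff_count_lt hinf).1 (by rw [h2]; omega)
    omega
  have h4 : ∀ j, j ≤ k → Nat.nth Nat.Prime (n + j) ∈ (Ioc a (a + H)).filter Nat.Prime := by
    intro j hj
    rw [mem_filter, mem_Ioc]
    exact ⟨⟨h1 j, h3 j hj⟩, Nat.prime_nth_prime _⟩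
  refine ⟨n, h1 0, h3 k le_rfl, fun i hi => ?_⟩
  exact hd _ (h4 i hi.le) _ (h4 (i + 1) hi) (hmono (by omega))

end Pool.LGC
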