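import Pool.Agent.Work.MP_b0c12c_chain.InterfaceX

/-! # Block CHX: the character modulo `W` which agrees with `y` (helper43) -/

set_option autoImplicit false

namespace Pool.LGC

open Finset Filter
open Pool.LGP

theorem CHX_rep {a m : ℕ} (h : a ∣ m) (hm : 0 < m) (u : (ZMod a)ˣ) :
    ∃ n : ℕ, n.Coprime m ∧ ((n : ℕ) : ZMod a) = (u : ZMod a) := by
  have : NeZero m := ⟨hm.ne'⟩
  obtain ⟨t, ht⟩ := ZMod.unitsMap_surjective h u
  refine ⟨(t : ZMod m).val, ZMod.val_coe_unit_coprime t, ?_⟩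
  rw [← ht, ZMod.unitsMap_def, Units.coe_map]
  show (((t : ZMod m).val : ℕ) : ZMod a) = ZMod.castHom h (ZMod a) (t : ZMod m)
  rw [ZMod.castHom_apply, ZMod.natCast_val]

theorem p_CHX : Stmt_CHX := by
  intro y W hy hW hy2 hy1 χ hχ
  have hm : 0 < W * y.1 := Nat.mul_pos hW hy
  have hWm : W ∣ W * y.1 := Nat.dvd_mul_right _ _
  have hym : y.1 ∣ W * y.1 := Nat.dvd_mul_left _ _
  refine ⟨?_, ?_, ?_⟩
  · refine MulChar.ext (fun u => ?_)
    obtain ⟨n, hn, hnu⟩ := CHX_rep hWm hm u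
    have hun : IsUnit ((n : ℕ) : ZMod y.1) :=
      (ZMod.isUnit_iff_coprime n y.1).2 (Nat.Coprime.coprime_mul_left_right hn)
    rw [MulChar.pow_apply_coe, ← hnu, ← hχ n hn]
    have h1 : (y.2 ^ 2) (n : ZMod y.1) = 1 := by
      rw [hy2, MulChar.one_apply hun]
    rw [MulChar.pow_apply' _ (by norm_num)] at h1
    rw [h1, hnu, MulChar.one_apply_coe]
  · intro h1
    apply hy1
    refine MulChar.ext (fun u => ?_)
    obtain ⟨n, hn, hnu⟩ := CHX_rep hym hm u
    have hun : IsUnit ((n : ℕ) : ZMod W) :=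
      (ZMod.isUnit_iff_coprime n W).2 (Nat.Coprime.coprime_mul_right_right hn)
    rw [← hnu, hχ n hn, h1, MulChar.one_apply hun, hnu, MulChar.one_apply_coe]
  · intro χ' hχ'
    refine MulChar.ext (fun u => ?_)
    obtain ⟨n, hn, hnu⟩ := CHX_rep hWm hm u
    rw [← hnu, ← hχ' n hn, hχ n hn]

end Pool.LGC
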