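import Pool.Agent.Work.MP_b0c12c_chain.Interface

/-! # HRW: weighted row sums of the local coefficients (helper9) -/

set_option autoImplicit false

namespace Pool.LGC

open Finset Filter
open Pool.LGP

namespace HRW

variable {ι : Type}

theorem norm_inv_le {p : ℕ} (hp : p.Prime) (χ : DirichletCharacter ℂ p) {c : ZMod p}
    (hc : c ≠ 0) : ‖(χ c)⁻¹‖ = 1 := by
  have : Fact p.Prime := ⟨hp⟩
  have hu : IsUnit c := isUnit_iff_ne_zero.mpr hc
  obtain ⟨u, rfl⟩ := hu
  rw [norm_inv, DirichletCharacter.unit_norm_eq_one]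
  simp

theorem norm_frac {p : ℕ} (hp3 : (3 : ℝ) ≤ p) :
    ‖((p : ℂ) / ((p : ℂ) - 1))‖ = (p : ℝ) / ((p : ℝ) - 1) := by
  have h : ((p : ℂ) / ((p : ℂ) - 1)) = (((p : ℝ) / ((p : ℝ) - 1) : ℝ) : ℂ) := by
    push_cast; ring
  rw [h, Complex.norm_real, Real.norm_eq_abs, abs_of_nonneg]
  exact div_nonneg (by linarith) (by linarith)

theorem norm_frac2 {p : ℕ} (hp3 : (3 : ℝ) ≤ p) :
    ‖(((p : ℂ) ^ 2 - 2 * p) / ((p : ℂ) - 1))‖ = ((p : ℝ) ^ 2 - 2 * p) / ((p : ℝ) - 1) := by
  have h : (((p : ℂ) ^ 2 - 2 * p) / ((p : ℂ) - 1)) =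
      ((((p : ℝ) ^ 2 - 2 * p) / ((p : ℝ) - 1) : ℝ) : ℂ) := by
    push_cast; ring
  rw [h, Complex.norm_real, Real.norm_eq_abs, abs_of_nonneg]
  exact div_nonneg (by nlinarith) (by linarith)

end HRW

open HRW in
theorem p_HRW : Stmt_HRW := by
  intro ι _ p c χ hp hp3 hc
  classical
  have hp3' : (3 : ℝ) ≤ p := by exact_mod_cast hp3
  have hp0 : (0 : ℝ) < p := by linarith
  have hp1 : (0 : ℝ) < (p : ℝ) - 1 := by linarith
  have hpc : ((p : ℂ) - 1) ≠ 0 := by
    have : ((p : ℂ) - 1) = (((p : ℝ) - 1 : ℝ) : ℂ) := by push_cast; ring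
    rw [this]
    exact_mod_cast hp1.ne'
  set m : ℝ := (Fintype.card ι : ℝ) with hm
  have hm0 : 0 ≤ m := Nat.cast_nonneg _
  have hsq : 0 < √(p : ℝ) := Real.sqrt_pos.mpr hp0
  have hinv : ∀ j, ‖(χ (c j))⁻¹‖ = 1 := fun j => norm_inv_le hp χ (hc j)
  by_cases hχ : χ = 1
  · -- principal character
    subst hχ
    have : Fact p.Prime := ⟨hp⟩
    have hone : ∀ j, (1 : DirichletCharacter ℂ p) (c j) = 1 := by
      intro j
      exact MulChar.one_apply (isUnit_iff_ne_zero.mpr (hc j))
    have e00 : hat c (1 : DirichletCharacter ℂ p) none none = 1 := by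
      simp [hat]
    have e0j : ∀ j, hat c (1 : DirichletCharacter ℂ p) none (some j) =
        ((-(1 / ((p : ℝ) - 1)) : ℝ) : ℂ) := by
      intro j
      simp only [hat, hone, if_true]
      push_cast
      field_simp
      ring
    have ej0 : ∀ j, hat c (1 : DirichletCharacter ℂ p) (some j) none =
        ((-(1 / ((p : ℝ) - 1)) : ℝ) : ℂ) := by
      intro j
      simp only [hat, hone, if_true]
      push_cast
      field_simp
      ring
    have ejj : ∀ j, hat c (1 : DirichletCharacter ℂ p) (some j) (some j) =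
        (((p : ℝ) - 1 / ((p : ℝ) - 1) : ℝ) : ℂ) := by
      intro j
      simp only [hat, hone, if_true]
      push_cast
      field_simp
      ring
    have eij : ∀ i j, i ≠ j → hat c (1 : DirichletCharacter ℂ p) (some i) (some j) =
        ((-(1 + 2 / ((p : ℝ) - 1)) : ℝ) : ℂ) := by
      intro i j hij
      simp only [hat, hone, if_true, if_neg hij]
      push_cast
      field_simp
      ring
    have n0j : ∀ j, ‖hat c (1 : DirichletCharacter ℂ p) none (some j)‖ = 1 / ((p : ℝ) - 1) := by
      intro j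
      rw [e0j, Complex.norm_real, Real.norm_eq_abs, abs_neg, abs_of_nonneg (by positivity)]
    have nj0 : ∀ j, ‖hat c (1 : DirichletCharacter ℂ p) (some j) none‖ = 1 / ((p : ℝ) - 1) := by
      intro j
      rw [ej0, Complex.norm_real, Real.norm_eq_abs, abs_neg, abs_of_nonneg (by positivity)]
    have h1p : 1 / ((p : ℝ) - 1) ≤ 1 / 2 := by
      apply one_div_le_one_div_of_le <;> linarith
    have njj : ∀ j, ‖hat c (1 : DirichletCharacter ℂ p) (some j) (some j)‖ ≤ p := by
      intro j
      rw [ejj, Complex.norm_real, Real.norm_eq_abs, abs_of_nonneg (by linarith)]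
      have : 0 < 1 / ((p : ℝ) - 1) := by positivity
      linarith
    have nij : ∀ i j, i ≠ j → ‖hat c (1 : DirichletCharacter ℂ p) (some i) (some j)‖ ≤ 2 := by
      intro i j hij
      rw [eij i j hij, Complex.norm_real, Real.norm_eq_abs, abs_neg, abs_of_nonneg (by positivity)]
      have : 2 / ((p : ℝ) - 1) ≤ 1 := by
        rw [div_le_one hp1]; linarith
      linarith
    refine ⟨fun o => match o with
      | none => 1
      | some _ => 1 / √(p : ℝ), ?_, ?_, ?_⟩
    · intro o
      rcases o with _ | j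
      · exact one_pos
      · exact one_div_pos.mpr hsq
    · rw [Fintype.sum_option, e00]
      simp only [n0j]
      rw [Finset.sum_const, Finset.card_univ, nsmul_eq_mul, ← hm]
      simp only [norm_one]
      apply le_of_eq
      field_simp
    · intro j
      rw [Fintype.sum_option, nj0]
      have hs : ∑ i : ι, ‖hat c (1 : DirichletCharacter ℂ p) (some j) (some i)‖ *
          (1 / √(p : ℝ)) / (1 / √(p : ℝ)) ≤ p + 2 * m := by
        have h1 : ∀ i : ι, ‖hat c (1 : DirichletCharacter ℂ p) (some j) (some i)‖ *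
          (1 / √(p : ℝ)) / (1 / √(p : ℝ)) ≤ (if i = j then (p : ℝ) else 0) + 2 := by
          intro i
          rw [mul_div_assoc, div_self (one_div_pos.mpr hsq).ne', mul_one]
          by_cases hij : i = j
          · subst hij
            rw [if_pos rfl]
            linarith [njj i]
          · rw [if_neg hij]
            linarith [nij j i (fun h => hij h.symm)]
        refine (Finset.sum_le_sum fun i _ => h1 i).trans ?_
        rw [Finset.sum_add_distrib, Finset.sum_ite_eq' Finset.univ j, if_pos (Finset.mem_univ j),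
          Finset.sum_const, Finset.card_univ, nsmul_eq_mul, ← hm]
        linarith
      have h2 : 1 / ((p : ℝ) - 1) * 1 / (1 / √(p : ℝ)) ≤ 2 := by
        have h3 : √(p : ℝ) ≤ p := by
          rw [Real.sqrt_le_left hp0.le]
          nlinarith
        have h4 : 1 / ((p : ℝ) - 1) * 1 / (1 / √(p : ℝ)) = √(p : ℝ) / ((p : ℝ) - 1) := by
          field_simp
        rw [h4, div_le_iff₀ hp1]
        linarith
      refine (add_le_add h2 hs).trans ?_
      linarith
  · -- other characters
    have e00 : hat c χ none none = 0 := by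
      simp [hat, hχ]
    have n0j : ∀ j, ‖hat c χ none (some j)‖ = (p : ℝ) / ((p : ℝ) - 1) := by
      intro j
      simp only [hat, if_neg hχ, zero_sub, norm_neg, norm_mul, hinv, mul_one]
      exact norm_frac hp3'
    have nj0 : ∀ j, ‖hat c χ (some j) none‖ = (p : ℝ) / ((p : ℝ) - 1) := by
      intro j
      simp only [hat, if_neg hχ, zero_sub, norm_neg, norm_mul, hinv, mul_one]
      exact norm_frac hp3'
    have njj : ∀ j, ‖hat c χ (some j) (some j)‖ ≤ p := by
      intro j
      simp only [hat, if_neg hχ, if_true, zero_add, norm_mul, hinv, mul_one]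
      rw [norm_frac2 hp3', div_le_iff₀ hp1]
      nlinarith
    have hfr : (p : ℝ) / ((p : ℝ) - 1) ≤ 3 / 2 := by
      rw [div_le_iff₀ hp1]; linarith
    have nij : ∀ i j, i ≠ j → ‖hat c χ (some i) (some j)‖ ≤ 3 := by
      intro i j hij
      simp only [hat, if_neg hχ, if_neg hij, zero_add, norm_neg, norm_mul]
      rw [norm_frac hp3']
      have h1 : ‖(χ (c i))⁻¹ + (χ (c j))⁻¹‖ ≤ 2 := by
        refine (norm_add_le _ _).trans ?_
        rw [hinv, hinv]; norm_num
      have h0 : 0 ≤ (p : ℝ) / ((p : ℝ) - 1) := div_nonneg hp0.le hp1.le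
      nlinarith [norm_nonneg ((χ (c i))⁻¹ + (χ (c j))⁻¹)]
    refine ⟨fun o => match o with
      | none => 1
      | some _ => 1 / (2 * (m + 1)), ?_, ?_, ?_⟩
    · intro o
      rcases o with _ | j
      · exact one_pos
      · exact one_div_pos.mpr (by positivity)
    · rw [Fintype.sum_option, e00]
      simp only [n0j]
      rw [Finset.sum_const, Finset.card_univ, nsmul_eq_mul, ← hm]
      simp only [norm_zero, zero_mul, zero_add, div_one]
      have h1 : m * ((p : ℝ) / ((p : ℝ) - 1) * (1 / (2 * (m + 1)))) ≤ 1 := by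
        rw [← mul_div_assoc, mul_one, ← mul_div_assoc, div_le_one (by positivity)]
        nlinarith
      have h2 : 0 ≤ m / (((p : ℝ) - 1) * √(p : ℝ)) := by positivity
      linarith
    · intro j
      rw [Fintype.sum_option, nj0]
      have hs : ∑ i : ι, ‖hat c χ (some j) (some i)‖ *
          (1 / (2 * (m + 1))) / (1 / (2 * (m + 1))) ≤ p + 3 * m := by
        have h1 : ∀ i : ι, ‖hat c χ (some j) (some i)‖ *
          (1 / (2 * (m + 1))) / (1 / (2 * (m + 1))) ≤ (if i = j then (p : ℝ) else 0) + 3 := by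
          intro i
          rw [mul_div_assoc, div_self (one_div_pos.mpr (by positivity : 0 < 2 * (m + 1))).ne',
            mul_one]
          by_cases hij : i = j
          · subst hij
            rw [if_pos rfl]
            linarith [njj i]
          · rw [if_neg hij]
            linarith [nij j i (fun h => hij h.symm)]
        refine (Finset.sum_le_sum fun i _ => h1 i).trans ?_
        rw [Finset.sum_add_distrib, Finset.sum_ite_eq' Finset.univ j, if_pos (Finset.mem_univ j),
          Finset.sum_const, Finset.card_univ, nsmul_eq_mul, ← hm]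
        linarith
      have h2 : (p : ℝ) / ((p : ℝ) - 1) * 1 / (1 / (2 * (m + 1))) ≤ 3 * (m + 1) := by
        rw [mul_one, div_div_eq_mul_div, div_one]
        nlinarith
      refine (add_le_add h2 hs).trans ?_
      linarith

end Pool.LGC
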