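import Pool.Agent.Work.MP_b0c12c_chain.InterfaceX
import Pool.Agent.Work.MP_b0c12c_chain.B_HRW
import Pool.Agent.Work.MP_b0c12c_gaps.B_ACT

/-! # Block COE: coefficients with a ramified prime of the family are small (helper65) -/

set_option autoImplicit false

namespace Pool.LGC

open Finset
open Pool.LGP

theorem COE_symm {ι : Type} {p : ℕ} (c : ι → ZMod p) (χ : DirichletCharacter ℂ p)
    (o o' : Option ι) : hat c χ o o' = hat c χ o' o := by
  rcases o with _ | i <;> rcases o' with _ | j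
  · rfl
  · rfl
  · rfl
  · simp only [hat]
    by_cases h : i = j
    · subst h; rfl
    · have h2 : ¬ j = i := fun h' => h h'.symm
      simp only [if_neg h, if_neg h2]
      rw [add_comm ((χ (c i))⁻¹)]

/-- row sums of a nonprincipal character for the weights `1`, `1 / √p` -/
theorem COE_row {ι : Type} [Fintype ι] {p : ℕ} (hp : p.Prime) (hp3 : 3 ≤ p) (c : ι → ZMod p)
    (hc : ∀ j, c j ≠ 0) (χ : DirichletCharacter ℂ p) (hχ : χ ≠ 1) (t : Option ι → ℝ)
    (ht0 : t none = 1) (ht1 : ∀ j, t (some j) = 1 / √(p : ℝ)) :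
    ∑ o', ‖hat c χ none o'‖ * t o' / t none ≤ 3 / 2 * (Fintype.card ι : ℝ) / √(p : ℝ) ∧
    ∀ j, 64 * ((Fintype.card ι : ℝ) + 1) ≤ p →
      ∑ o', ‖hat c χ (some j) o'‖ * t o' / t (some j) ≤ 4 * p := by
  classical
  have hp3' : (3 : ℝ) ≤ p := by exact_mod_cast hp3
  have hp0 : (0 : ℝ) < p := by linarith
  have hp1 : (0 : ℝ) < (p : ℝ) - 1 := by linarith
  have hm0 : (0 : ℝ) ≤ (Fintype.card ι : ℝ) := Nat.cast_nonneg _
  have hsq : 0 < √(p : ℝ) := Real.sqrt_pos.mpr hp0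
  have hinv : ∀ j, ‖(χ (c j))⁻¹‖ = 1 := fun j => HRW.norm_inv_le hp χ (hc j)
  have hfr : (p : ℝ) / ((p : ℝ) - 1) ≤ 3 / 2 := by
    rw [div_le_iff₀ hp1]; linarith
  have hfr0 : 0 ≤ (p : ℝ) / ((p : ℝ) - 1) := by positivity
  have e00 : hat c χ none none = 0 := by
    simp only [hat, if_neg hχ]
  have n0j : ∀ j, ‖hat c χ none (some j)‖ = (p : ℝ) / ((p : ℝ) - 1) := by
    intro j
    simp only [hat, if_neg hχ]
    rw [zero_sub, norm_neg, norm_mul, HRW.norm_frac hp3', hinv, mul_one]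
  have nj0 : ∀ j, ‖hat c χ (some j) none‖ = (p : ℝ) / ((p : ℝ) - 1) := by
    intro j
    rw [COE_symm, n0j]
  have njj : ∀ j, ‖hat c χ (some j) (some j)‖ ≤ p := by
    intro j
    simp only [hat, if_neg hχ, if_true]
    rw [zero_add, norm_mul, HRW.norm_frac2 hp3', hinv, mul_one, div_le_iff₀ hp1]
    nlinarith
  have nij : ∀ i j, i ≠ j → ‖hat c χ (some i) (some j)‖ ≤ 3 := by
    intro i j hij
    simp only [hat, if_neg hχ, if_neg hij]
    rw [zero_add, norm_neg, norm_mul, HRW.norm_frac hp3']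
    have h1 : ‖(χ (c i))⁻¹ + (χ (c j))⁻¹‖ ≤ 2 := by
      refine (norm_add_le _ _).trans ?_
      rw [hinv, hinv]; norm_num
    calc (p : ℝ) / ((p : ℝ) - 1) * ‖(χ (c i))⁻¹ + (χ (c j))⁻¹‖ ≤ 3 / 2 * 2 :=
          mul_le_mul hfr h1 (norm_nonneg _) (by norm_num)
      _ = 3 := by norm_num
  constructor
  · rw [Fintype.sum_option, e00, ht0]
    simp only [n0j, ht1, norm_zero, zero_mul, zero_div, zero_add, div_one]
    rw [Finset.sum_const, Finset.card_univ, nsmul_eq_mul]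
    calc (Fintype.card ι : ℝ) * ((p : ℝ) / ((p : ℝ) - 1) * (1 / √(p : ℝ)))
        ≤ (Fintype.card ι : ℝ) * (3 / 2 * (1 / √(p : ℝ))) := by gcongr
      _ = 3 / 2 * (Fintype.card ι : ℝ) / √(p : ℝ) := by ring
  · intro j hj
    rw [Fintype.sum_option, nj0, ht0, ht1]
    have hs : ∑ i : ι, ‖hat c χ (some j) (some i)‖ * t (some i) / (1 / √(p : ℝ)) ≤
        p + 3 * (Fintype.card ι : ℝ) := by
      have h1 : ∀ i : ι, ‖hat c χ (some j) (some i)‖ * t (some i) / (1 / √(p : ℝ)) ≤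
          (if i = j then (p : ℝ) else 0) + 3 := by
        intro i
        rw [ht1, mul_div_assoc, div_self (one_div_pos.mpr hsq).ne', mul_one]
        by_cases hij : i = j
        · subst hij
          rw [if_pos rfl]
          linarith [njj i]
        · rw [if_neg hij]
          linarith [nij j i (fun h => hij h.symm)]
      refine (Finset.sum_le_sum fun i _ => h1 i).trans ?_
      rw [Finset.sum_add_distrib, Finset.sum_ite_eq' Finset.univ j, if_pos (Finset.mem_univ j),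
        Finset.sum_const, Finset.card_univ, nsmul_eq_mul]
      linarith
    have h2 : (p : ℝ) / ((p : ℝ) - 1) * 1 / (1 / √(p : ℝ)) ≤ 3 / 2 * p := by
      have h3 : √(p : ℝ) ≤ p := by
        rw [Real.sqrt_le_left hp0.le]
        nlinarith
      have h4 : (p : ℝ) / ((p : ℝ) - 1) * 1 / (1 / √(p : ℝ)) =
          (p : ℝ) / ((p : ℝ) - 1) * √(p : ℝ) := by
        field_simp
      rw [h4]
      exact mul_le_mul hfr h3 hsq.le (by norm_num)
    linarith

theorem p_COE (hSCP : Stmt_SCP) (hHRW : Stmt_HRW) (hPRB : Stmt_PRB) (hACTX : Stmt_ACTX) :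
    Stmt_COE := by
  classical
  intro π ι _ _ _ _ S u g a b C K D z s G Y Q hD e hE X hX
  obtain ⟨x₀, hx₀⟩ := hX
  have hgood := hD.good
  have hz3 := hD.z3
  have hz := hD.z_le
  have hz0 : 0 < z := by linarith
  have hm0 : (0 : ℝ) ≤ (Fintype.card ι : ℝ) := Nat.cast_nonneg _
  have hD1 : 1 < D := lt_of_lt_of_le hD.b1 hD.bD
  have hlogD : 0 ≤ Real.log D := Real.log_nonneg hD1.le
  have h3x : ∀ x, (3 : ℝ) ≤ S.pr x := fun x => hz3.trans (hz x)
  have hp3 : ∀ x, 3 ≤ S.pr x := fun x => by exact_mod_cast h3x x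
  have ha : ∀ ρ, S.aa u D ρ ≠ 0 →
      64 * (act ρ : ℝ) * ((Fintype.card ι : ℝ) + 1) ≤ z := by
    intro ρ hρ
    have hs : (S.szn ρ : ℝ) ≤ D := by
      by_contra h
      apply hρ
      unfold Sys.aa
      rw [if_neg h]
    have h1 := p_ACT π ι S D h3x ρ hs
    have h2 : (act ρ : ℝ) * ((Fintype.card ι : ℝ) + 1) ≤
        Real.log D * ((Fintype.card ι : ℝ) + 1) := mul_le_mul_of_nonneg_right h1 (by linarith)
    have h3 := hD.h64
    nlinarith [mul_nonneg hlogD hm0]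
  -- the weights
  choose t₁ ht₁0 ht₁1 ht₁2 using
    fun x => hHRW ι (S.pr x) (cl S e x) (X x) (hgood.prime x) (hp3 x) (hE x)
  obtain ⟨t, ht⟩ : ∃ t : π → Option ι → ℝ, t = fun x o => if x = x₀ then
      (match o with
        | none => 1
        | some _ => 1 / √(S.pr x₀ : ℝ)) else t₁ x o := ⟨_, rfl⟩
  have hsq0 : 0 < √(S.pr x₀ : ℝ) := Real.sqrt_pos.mpr (by linarith [h3x x₀])
  have ht0 : ∀ x o, 0 < t x o := by
    intro x o
    rw [ht]
    by_cases h : x = x₀
    · simp only [if_pos h]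
      rcases o with _ | j
      · exact one_pos
      · exact one_div_pos.mpr hsq0
    · simp only [if_neg h]
      exact ht₁0 x o
  have htn : t x₀ none = 1 := by rw [ht]; simp
  have hts : ∀ j, t x₀ (some j) = 1 / √(S.pr x₀ : ℝ) := by intro j; rw [ht]; simp
  have htx : ∀ x, x ≠ x₀ → t x = t₁ x := by
    intro x hx
    rw [ht]
    funext o
    simp only [if_neg hx]
  obtain ⟨R, hR⟩ : ∃ R : π → Option ι → ℝ, R = fun x o =>
      ∑ c, ‖hat (cl S e x) (X x) o c‖ * t x c / t x o := ⟨_, rfl⟩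
  have hR0 : ∀ x o, 0 ≤ R x o := by
    intro x o
    rw [hR]
    exact Finset.sum_nonneg fun c _ => div_nonneg (mul_nonneg (norm_nonneg _) (ht0 x c).le)
      (ht0 x o).le
  obtain ⟨hrow0, hrow1⟩ := COE_row (hgood.prime x₀) (hp3 x₀) (cl S e x₀) (hE x₀) (X x₀) hx₀
    (t x₀) htn hts
  -- reduction to the diagonal
  have h1 : ‖cX S e (S.aa u D) X‖ ≤ ∑ ρ : π → Option ι, ∑ σ : π → Option ι,
      |S.aa u D ρ| * |S.aa u D σ| * ∏ x, ‖hat (cl S e x) (X x) (ρ x) (σ x)‖ := by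
    unfold cX
    refine (norm_sum_le _ _).trans (Finset.sum_le_sum fun ρ _ => (norm_sum_le _ _).trans
      (Finset.sum_le_sum fun σ _ => le_of_eq ?_))
    rw [norm_mul, norm_mul, norm_prod, Complex.norm_real, Complex.norm_real, Real.norm_eq_abs,
      Real.norm_eq_abs]
  have h2 := hSCP π (Option ι) (fun x b c => ‖hat (cl S e x) (X x) b c‖) t (S.aa u D)
    (fun _ _ _ => norm_nonneg _) (fun x b c => by rw [COE_symm]) ht0
  have h2' : ∑ ρ : π → Option ι, S.aa u D ρ ^ 2 * ∏ x, ∑ c,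
      ‖hat (cl S e x) (X x) (ρ x) c‖ * t x c / t x (ρ x) =
      ∑ ρ : π → Option ι, S.aa u D ρ ^ 2 * ∏ x, R x (ρ x) := by
    rw [hR]
  -- the auxiliary rows
  obtain ⟨R', hR'⟩ : ∃ R' : π → Option ι → ℝ, R' = fun x o => if x = x₀ then
      (match o with
        | none => 1
        | some _ => (S.pr x₀ : ℝ)) else R x o := ⟨_, rfl⟩
  have hR'n : R' x₀ none = 1 := by rw [hR']; simp
  have hR's : ∀ j, R' x₀ (some j) = S.pr x₀ := by intro j; rw [hR']; simp
  have hR'x : ∀ x, x ≠ x₀ → R' x = R x := by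
    intro x hx
    rw [hR']
    funext o
    simp only [if_neg hx]
  have hR'0 : ∀ x o, 0 ≤ R' x o := by
    intro x o
    by_cases h : x = x₀
    · subst h
      rcases o with _ | j
      · rw [hR'n]; exact zero_le_one
      · rw [hR's]; exact Nat.cast_nonneg _
    · rw [hR'x x h]; exact hR0 x o
  have hR'1 : ∀ x, R' x none ≤ 1 + (Fintype.card ι : ℝ) / (((S.pr x : ℝ) - 1) * √(S.pr x)) := by
    intro x
    by_cases h : x = x₀
    · subst h
      rw [hR'n]
      have : 0 ≤ (Fintype.card ι : ℝ) / (((S.pr x : ℝ) - 1) * √(S.pr x)) :=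
        div_nonneg hm0 (mul_nonneg (by linarith [h3x x]) (Real.sqrt_nonneg _))
      linarith
    · rw [hR'x x h, hR]
      simp only [htx x h]
      exact ht₁1 x
  have hR'2 : ∀ x j, R' x (some j) ≤ S.pr x + 6 * ((Fintype.card ι : ℝ) + 1) := by
    intro x j
    by_cases h : x = x₀
    · subst h
      rw [hR's]
      linarith
    · rw [hR'x x h, hR]
      simp only [htx x h]
      exact ht₁2 x j
  -- each product
  have hkey : ∀ ρ : π → Option ι, S.aa u D ρ ^ 2 * ∏ x, R x (ρ x) ≤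
      15 / 8 * ((Fintype.card ι : ℝ) / √z) * (S.aa u D ρ ^ 2 * S.szn ρ) +
      5 * (if ρ x₀ = none then 0 else S.aa u D ρ ^ 2 * S.szn ρ) := by
    intro ρ
    by_cases h0 : S.aa u D ρ = 0
    · simp [h0]
    have hP := hPRB π ι S (Fintype.card ι) z ρ hz3 hz (ha ρ h0) hD.tau R' hR'0 hR'1 hR'2
    have hsp : ∏ x, R x (ρ x) = R x₀ (ρ x₀) * ∏ x ∈ univ.erase x₀, R x (ρ x) :=
      (Finset.mul_prod_erase _ _ (Finset.mem_univ x₀)).symm
    have hsp' : ∏ x, R' x (ρ x) = R' x₀ (ρ x₀) * ∏ x ∈ univ.erase x₀, R x (ρ x) := by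
      rw [← Finset.mul_prod_erase _ _ (Finset.mem_univ x₀)]
      congr 1
      refine Finset.prod_congr rfl fun x hx => ?_
      rw [hR'x x (Finset.ne_of_mem_erase hx)]
    have hq0 : 0 ≤ ∏ x ∈ univ.erase x₀, R x (ρ x) := Finset.prod_nonneg fun x _ => hR0 x _
    have hszn : (0 : ℝ) ≤ S.szn ρ := Nat.cast_nonneg _
    have hkz : 0 ≤ (Fintype.card ι : ℝ) / √z := div_nonneg hm0 (Real.sqrt_nonneg _)
    have ha2 : 0 ≤ S.aa u D ρ ^ 2 := sq_nonneg _
    rcases hρ : ρ x₀ with _ | j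
    · rw [if_pos rfl, mul_zero, add_zero]
      have hr : R x₀ none ≤ 3 / 2 * ((Fintype.card ι : ℝ) / √z) := by
        have hr1 : R x₀ none ≤ 3 / 2 * (Fintype.card ι : ℝ) / √(S.pr x₀ : ℝ) := by
          rw [hR]; exact hrow0
        refine hr1.trans ?_
        rw [mul_div_assoc]
        refine mul_le_mul_of_nonneg_left ?_ (by norm_num)
        exact div_le_div_of_nonneg_left hm0 (Real.sqrt_pos.mpr hz0) (Real.sqrt_le_sqrt (hz x₀))
      rw [hρ] at hsp hsp'
      rw [hsp', hR'n, one_mul] at hP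
      have h3 : ∏ x, R x (ρ x) ≤ 3 / 2 * ((Fintype.card ι : ℝ) / √z) * (5 / 4 * S.szn ρ) := by
        rw [hsp]
        exact mul_le_mul hr hP hq0 (by positivity)
      calc S.aa u D ρ ^ 2 * ∏ x, R x (ρ x)
          ≤ S.aa u D ρ ^ 2 * (3 / 2 * ((Fintype.card ι : ℝ) / √z) * (5 / 4 * S.szn ρ)) :=
            mul_le_mul_of_nonneg_left h3 ha2
        _ = 15 / 8 * ((Fintype.card ι : ℝ) / √z) * (S.aa u D ρ ^ 2 * S.szn ρ) := by ring
    · rw [if_neg (by simp)]
      have hact : (1 : ℝ) ≤ act ρ := by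
        have h4 : 1 ≤ act ρ := by
          unfold act
          calc 1 = al (ρ x₀) := by rw [hρ]; rfl
            _ ≤ ∑ x, al (ρ x) := Finset.single_le_sum (f := fun x => al (ρ x))
                (fun x _ => Nat.zero_le _) (Finset.mem_univ x₀)
        exact_mod_cast h4
      have h64 : 64 * ((Fintype.card ι : ℝ) + 1) ≤ S.pr x₀ := by
        have h5 := ha ρ h0
        have h6 := hz x₀
        nlinarith
      have hr : R x₀ (some j) ≤ 4 * S.pr x₀ := by
        rw [hR]; exact hrow1 j h64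
      rw [hρ] at hsp hsp'
      rw [hsp', hR's] at hP
      have h3 : ∏ x, R x (ρ x) ≤ 5 * S.szn ρ := by
        rw [hsp]
        calc R x₀ (some j) * ∏ x ∈ univ.erase x₀, R x (ρ x)
            ≤ 4 * S.pr x₀ * ∏ x ∈ univ.erase x₀, R x (ρ x) := mul_le_mul_of_nonneg_right hr hq0
          _ = 4 * (S.pr x₀ * ∏ x ∈ univ.erase x₀, R x (ρ x)) := by ring
          _ ≤ 4 * (5 / 4 * S.szn ρ) := mul_le_mul_of_nonneg_left hP (by norm_num)
          _ = 5 * S.szn ρ := by ring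
      have h4 : S.aa u D ρ ^ 2 * ∏ x, R x (ρ x) ≤ 5 * (S.aa u D ρ ^ 2 * S.szn ρ) := by
        calc S.aa u D ρ ^ 2 * ∏ x, R x (ρ x) ≤ S.aa u D ρ ^ 2 * (5 * S.szn ρ) :=
              mul_le_mul_of_nonneg_left h3 ha2
          _ = 5 * (S.aa u D ρ ^ 2 * S.szn ρ) := by ring
      have h5 : 0 ≤ 15 / 8 * ((Fintype.card ι : ℝ) / √z) * (S.aa u D ρ ^ 2 * S.szn ρ) := by
        positivity
      linarith
  have hM0 : 0 ≤ MM S (S.aa u D) := Finset.sum_nonneg fun ρ _ => by positivity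
  have hX2 := hACTX π ι S u g a b C K D z s G Y Q hD x₀
  have hX3 : 2 * (Fintype.card ι : ℝ) * K / S.pr x₀ * MM S (S.aa u D) ≤
      2 * (Fintype.card ι : ℝ) * K / z * MM S (S.aa u D) := by
    refine mul_le_mul_of_nonneg_right ?_ hM0
    refine div_le_div_of_nonneg_left ?_ hz0 (hz x₀)
    have := hD.K0
    positivity
  have hkz : 0 ≤ (Fintype.card ι : ℝ) / √z := div_nonneg hm0 (Real.sqrt_nonneg _)
  calc ‖cX S e (S.aa u D) X‖ ≤ _ := h1
    _ ≤ _ := h2
    _ = _ := h2'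
    _ ≤ ∑ ρ : π → Option ι, (15 / 8 * ((Fintype.card ι : ℝ) / √z) *
          (S.aa u D ρ ^ 2 * S.szn ρ) +
          5 * (if ρ x₀ = none then 0 else S.aa u D ρ ^ 2 * S.szn ρ)) :=
        Finset.sum_le_sum fun ρ _ => hkey ρ
    _ = 15 / 8 * ((Fintype.card ι : ℝ) / √z) * MM S (S.aa u D) +
          5 * ∑ ρ : π → Option ι, (if ρ x₀ = none then 0 else S.aa u D ρ ^ 2 * S.szn ρ) := by
        rw [Finset.sum_add_distrib, ← Finset.mul_sum, ← Finset.mul_sum]
        rfl
    _ ≤ 15 / 8 * ((Fintype.card ι : ℝ) / √z) * MM S (S.aa u D) +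
          5 * (2 * (Fintype.card ι : ℝ) * K / z * MM S (S.aa u D)) := by
        have h6 := hX2.trans hX3
        linarith
    _ ≤ (3 * (Fintype.card ι : ℝ) / √z + 10 * (Fintype.card ι : ℝ) * K / z) *
          MM S (S.aa u D) := by
        have h7 : 0 ≤ (Fintype.card ι : ℝ) / √z * MM S (S.aa u D) := mul_nonneg hkz hM0
        have h8 : (3 * (Fintype.card ι : ℝ) / √z + 10 * (Fintype.card ι : ℝ) * K / z) *
            MM S (S.aa u D) = 3 * ((Fintype.card ι : ℝ) / √z * MM S (S.aa u D)) +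
            5 * (2 * (Fintype.card ι : ℝ) * K / z * MM S (S.aa u D)) := by ring
        rw [h8]
        linarith

end Pool.LGC
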