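import Pool.Agent.Work.MP_b0c12c_chain.Interface

/-! # Block CON: the main coefficient (helper7) -/

set_option autoImplicit false

namespace Pool.LGC

open Finset Filter
open Pool.LGP

/-- The coefficients of a product of two local factors for the trivial character. -/
noncomputable def hr {ι : Type} (p : ℕ) : Option ι → Option ι → ℝ
  | none, none => 1
  | none, some _ => -(1 / ((p : ℝ) - 1))
  | some _, none => -(1 / ((p : ℝ) - 1))
  | some i, some j => open Classical in
      if i = j then (p : ℝ) - 1 / ((p : ℝ) - 1) else -(((p : ℝ) + 1) / ((p : ℝ) - 1))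

theorem hat_one {ι : Type} {p : ℕ} (hp : p.Prime) (c : ι → ZMod p) (hc : ∀ j, c j ≠ 0)
    (o o' : Option ι) : hat c 1 o o' = ((hr p o o' : ℝ) : ℂ) := by
  have : Fact p.Prime := ⟨hp⟩
  have hp1 : ((p : ℂ) - 1) ≠ 0 := by
    have : (p : ℂ) ≠ 1 := by exact_mod_cast hp.one_lt.ne'
    exact sub_ne_zero.mpr this
  have hu : ∀ j, (1 : DirichletCharacter ℂ p) (c j) = 1 := fun j =>
    MulChar.one_apply (isUnit_iff_ne_zero.mpr (hc j))
  rcases o with _ | i <;> rcases o' with _ | j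
  · simp [hat, hr]
  · simp only [hat, hr, if_true, hu]
    push_cast
    field_simp
    ring
  · simp only [hat, hr, if_true, hu]
    push_cast
    field_simp
    ring
  · simp only [hat, hr, if_true, hu]
    by_cases hij : i = j
    · simp only [hij, if_true]
      push_cast
      field_simp
      ring
    · simp only [hij, if_false]
      push_cast
      field_simp
      ring

theorem hat_symm {ι : Type} {p : ℕ} (c : ι → ZMod p) (χ : DirichletCharacter ℂ p)
    (o o' : Option ι) : hat c χ o o' = hat c χ o' o := by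
  rcases o with _ | i <;> rcases o' with _ | j
  · rfl
  · rfl
  · rfl
  · simp only [hat]
    by_cases hij : i = j
    · subst hij
      rfl
    · have hji : ¬ j = i := fun h => hij h.symm
      simp only [hij, hji, if_false]
      ring

theorem hr_diag {ι π : Type} (S : Sys π ι) (x : π) (z : ℝ) (hz : 3 ≤ z) (hx : z ≤ S.pr x)
    (o : Option ι) : (S.zl x o : ℝ) * (1 - 1 / z) ^ al o ≤ hr (S.pr x) o o := by
  rcases o with _ | i
  · simp [Sys.zl, al, hr]
  · have hp : (3 : ℝ) ≤ S.pr x := hz.trans hx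
    have h1 : 1 / ((S.pr x : ℝ) - 1) ≤ 1 := by
      rw [div_le_one (by linarith)]
      linarith
    have h2 : 1 ≤ (S.pr x : ℝ) / z := by
      rw [le_div_iff₀ (by linarith)]
      linarith
    simp only [Sys.zl, al, hr, pow_one, if_true]
    have h3 : (S.pr x : ℝ) * (1 - 1 / z) = S.pr x - S.pr x / z := by ring
    rw [h3]
    linarith

theorem p_CON (h1 : Stmt_SCP) (h2 : Stmt_HRW) (h3 : Stmt_PRB) : Stmt_CON := by
  intro π ι _ _ _ S hS a z e hz hzx hext hact htau
  classical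
  set kk : ℝ := (Fintype.card ι : ℝ) with hkk
  have hprime := hS.prime
  have hp3 : ∀ x, 3 ≤ S.pr x := fun x => by
    have : (3 : ℝ) ≤ S.pr x := hz.trans (hzx x)
    exact_mod_cast this
  -- weights of the rows
  have hrow : ∀ x, ∃ t : Option ι → ℝ, (∀ o, 0 < t o) ∧
      ∑ o', ‖hat (cl S e x) 1 none o'‖ * t o' / t none ≤
        1 + (Fintype.card ι : ℝ) / (((S.pr x : ℝ) - 1) * √(S.pr x)) ∧
      ∀ j, ∑ o', ‖hat (cl S e x) 1 (some j) o'‖ * t o' / t (some j) ≤
        S.pr x + 6 * ((Fintype.card ι : ℝ) + 1) := fun x =>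
    h2 ι (S.pr x) (cl S e x) 1 (hprime x) (hp3 x) (fun j => hext x j)
  choose t ht0 htn htj using hrow
  have hhat : ∀ x (o o' : Option ι), hat (cl S e x) 1 o o' = ((hr (S.pr x) o o' : ℝ) : ℂ) :=
    fun x o o' => hat_one (hprime x) (cl S e x) (fun j => hext x j) o o'
  have hK : ∀ x (o o' : Option ι), ‖hat (cl S e x) 1 o o'‖ = |hr (S.pr x) o o'| := by
    intro x o o'
    rw [hhat, Complex.norm_real, Real.norm_eq_abs]
  -- the Schur test
  have hscp := h1 π (Option ι) (fun x o o' => ‖hat (cl S e x) 1 o o'‖) t a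
    (fun _ _ _ => norm_nonneg _) (fun x o o' => by rw [hat_symm]) ht0
  -- the row sums
  have hR : ∀ ρ, a ρ ≠ 0 →
      ∏ x, ∑ c, ‖hat (cl S e x) 1 (ρ x) c‖ * t x c / t x (ρ x) ≤ 5 / 4 * S.szn ρ := by
    intro ρ hρ
    exact h3 π ι S (Fintype.card ι) z ρ hz hzx (hact ρ hρ) htau
      (fun x o => ∑ c, ‖hat (cl S e x) 1 o c‖ * t x c / t x o)
      (fun x o => Finset.sum_nonneg fun c _ => div_nonneg
        (mul_nonneg (norm_nonneg _) (ht0 x c).le) (ht0 x o).le) htn htj
  have hup : ∑ ρ : π → Option ι, ∑ σ : π → Option ι,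
      |a ρ| * |a σ| * ∏ x, |hr (S.pr x) (ρ x) (σ x)| ≤ 5 / 4 * MM S a := by
    have h4 : ∑ ρ : π → Option ι, ∑ σ : π → Option ι,
        |a ρ| * |a σ| * ∏ x, |hr (S.pr x) (ρ x) (σ x)| ≤
        ∑ ρ : π → Option ι, a ρ ^ 2 *
          ∏ x, ∑ c, ‖hat (cl S e x) 1 (ρ x) c‖ * t x c / t x (ρ x) := by
      simpa only [hK] using hscp
    refine h4.trans ?_
    rw [MM, Finset.mul_sum]
    apply Finset.sum_le_sum
    intro ρ _
    by_cases hρ : a ρ = 0
    · simp [hρ]
    · calc a ρ ^ 2 * ∏ x, ∑ c, ‖hat (cl S e x) 1 (ρ x) c‖ * t x c / t x (ρ x)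
          ≤ a ρ ^ 2 * (5 / 4 * S.szn ρ) :=
            mul_le_mul_of_nonneg_left (hR ρ hρ) (sq_nonneg _)
        _ = 5 / 4 * (a ρ ^ 2 * S.szn ρ) := by ring
  -- the diagonal
  have hdiag0 : ∀ x (o : Option ι), 0 ≤ hr (S.pr x) o o := by
    intro x o
    refine le_trans ?_ (hr_diag S x z hz (hzx x) o)
    apply mul_nonneg (Nat.cast_nonneg _)
    apply pow_nonneg
    have : 1 / z ≤ 1 := by
      rw [div_le_one (by linarith)]
      linarith
    linarith
  have hz1 : 0 ≤ 1 - 1 / z := by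
    have : 1 / z ≤ 1 := by
      rw [div_le_one (by linarith)]
      linarith
    linarith
  have hdiag : ∀ ρ, a ρ ≠ 0 → 63 / 64 * (S.szn ρ : ℝ) ≤ ∏ x, hr (S.pr x) (ρ x) (ρ x) := by
    intro ρ hρ
    have h5 : ∏ x, ((S.zl x (ρ x) : ℝ) * (1 - 1 / z) ^ al (ρ x)) ≤
        ∏ x, hr (S.pr x) (ρ x) (ρ x) := by
      apply Finset.prod_le_prod
      · intro x _
        exact mul_nonneg (Nat.cast_nonneg _) (pow_nonneg hz1 _)
      · intro x _
        exact hr_diag S x z hz (hzx x) (ρ x)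
    refine le_trans ?_ h5
    rw [Finset.prod_mul_distrib, Finset.prod_pow_eq_pow_sum]
    have h6 : (∏ x, (S.zl x (ρ x) : ℝ)) = (S.szn ρ : ℝ) := by
      rw [Sys.szn]; push_cast; rfl
    have h7 : ∑ x, al (ρ x) = act ρ := rfl
    rw [h6, h7]
    have h8 : 1 + (act ρ : ℝ) * (-(1 / z)) ≤ (1 + -(1 / z)) ^ act ρ := by
      apply one_add_mul_le_pow
      linarith
    have h9 : (act ρ : ℝ) * (1 / z) ≤ 1 / 64 := by
      have h10 := hact ρ hρ
      have h11 : 64 * (act ρ : ℝ) ≤ z := by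
        have : 0 ≤ 64 * (act ρ : ℝ) * (Fintype.card ι : ℝ) := by positivity
        linarith
      rw [mul_one_div, div_le_iff₀ (by linarith)]
      linarith
    have h12 : (63 : ℝ) / 64 ≤ (1 - 1 / z) ^ act ρ := by
      have : (1 : ℝ) - 1 / z = 1 + -(1 / z) := by ring
      rw [this]
      linarith
    have h13 : (0 : ℝ) ≤ (S.szn ρ : ℝ) := Nat.cast_nonneg _
    nlinarith
  -- the coefficient
  refine ⟨∑ ρ : π → Option ι, ∑ σ : π → Option ι,
    a ρ * a σ * ∏ x, hr (S.pr x) (ρ x) (σ x), ?_, ?_⟩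
  · rw [cX]
    push_cast
    apply Finset.sum_congr rfl
    intro ρ _
    apply Finset.sum_congr rfl
    intro σ _
    congr 1
    apply Finset.prod_congr rfl
    intro x _
    exact hhat x (ρ x) (σ x)
  · have hlow : ∑ ρ : π → Option ι, (2 * (a ρ ^ 2 * ∏ x, hr (S.pr x) (ρ x) (ρ x)) -
        ∑ σ : π → Option ι, |a ρ| * |a σ| * ∏ x, |hr (S.pr x) (ρ x) (σ x)|) ≤
        ∑ ρ : π → Option ι, ∑ σ : π → Option ι,
          a ρ * a σ * ∏ x, hr (S.pr x) (ρ x) (σ x) := by
      apply Finset.sum_le_sum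
      intro ρ _
      have h14 : 2 * (a ρ ^ 2 * ∏ x, hr (S.pr x) (ρ x) (ρ x)) =
          ∑ σ : π → Option ι, if σ = ρ then
            2 * (a ρ ^ 2 * ∏ x, hr (S.pr x) (ρ x) (ρ x)) else 0 := by
        rw [Finset.sum_ite_eq' Finset.univ ρ]
        simp
      rw [h14, ← Finset.sum_sub_distrib]
      apply Finset.sum_le_sum
      intro σ _
      by_cases hσ : σ = ρ
      · subst hσ
        simp only [if_true]
        have h15 : ∏ x, |hr (S.pr x) (σ x) (σ x)| = ∏ x, hr (S.pr x) (σ x) (σ x) :=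
          Finset.prod_congr rfl fun x _ => abs_of_nonneg (hdiag0 x (σ x))
        rw [h15, abs_mul_abs_self]
        apply le_of_eq
        ring
      · simp only [hσ, if_false]
        rw [zero_sub, ← Finset.abs_prod, ← abs_mul, ← abs_mul]
        exact neg_abs_le _
    refine le_trans ?_ hlow
    rw [Finset.sum_sub_distrib]
    have h16 : 63 / 32 * MM S a ≤
        ∑ ρ : π → Option ι, 2 * (a ρ ^ 2 * ∏ x, hr (S.pr x) (ρ x) (ρ x)) := by
      rw [MM, Finset.mul_sum]
      apply Finset.sum_le_sum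
      intro ρ _
      by_cases hρ : a ρ = 0
      · simp [hρ]
      · have := mul_le_mul_of_nonneg_left (hdiag ρ hρ) (sq_nonneg (a ρ))
        linarith
    have hM0 : 0 ≤ MM S a := by
      rw [MM]
      exact Finset.sum_nonneg fun ρ _ => mul_nonneg (sq_nonneg _) (Nat.cast_nonneg _)
    linarith

end Pool.LGC
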