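import Pool.Agent.Work.MP_b0c12c_chain.Interface

/-! # Block CRV: lifting of the residue (helper17) -/

set_option autoImplicit false

namespace Pool.LGC

open Finset Filter

theorem p_CRV : Stmt_CRV := by
  classical
  intro w y v₀
  set t : Finset ℕ := (range (w + 1)).filter Nat.Prime with ht
  have hprim : primorial w = ∏ p ∈ t, p := rfl
  have hs : ∀ p ∈ t, p ≠ 0 := fun p hp => (mem_filter.mp hp).2.ne_zero
  have pp : Set.Pairwise (t : Set ℕ) (Function.onFun Nat.Coprime (fun p : ℕ => p)) := by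
    intro p hp q hq hne
    exact (Nat.coprime_primes (mem_filter.mp (mem_coe.mp hp)).2
      (mem_filter.mp (mem_coe.mp hq)).2).mpr hne
  obtain ⟨k, hk⟩ := Nat.chineseRemainderOfFinset (fun p : ℕ => if (p : ℝ) ≤ y then v₀ else 0)
    (fun p : ℕ => p) t hs pp
  have hpos : 0 < primorial w := primorial_pos w
  have hdvd : ∀ p : ℕ, p.Prime → p ≤ w → p ∣ primorial w := by
    intro p hp hpw
    rw [hprim]
    exact Finset.dvd_prod_of_mem (fun p : ℕ => p)
      (mem_filter.mpr ⟨mem_range.mpr (Nat.lt_succ_of_le hpw), hp⟩)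
  have hmem : ∀ p : ℕ, p.Prime → p ≤ w → p ∈ t := fun p hp hpw =>
    mem_filter.mpr ⟨mem_range.mpr (Nat.lt_succ_of_le hpw), hp⟩
  have hmod : ∀ p : ℕ, p.Prime → p ≤ w → k % primorial w ≡ k [MOD p] := by
    intro p hp hpw
    exact (Nat.mod_modEq k (primorial w)).of_dvd (hdvd p hp hpw)
  refine ⟨k % primorial w, Nat.mod_lt _ hpos, ?_, ?_⟩
  · intro p hp hpw hpy
    have h1 := hk p (hmem p hp hpw)
    simp only [hpy, if_true] at h1
    exact (hmod p hp hpw).trans h1
  · intro p hp hpw hpy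
    have h1 := hk p (hmem p hp hpw)
    simp only [not_le.mpr hpy, if_false] at h1
    exact (Nat.modEq_zero_iff_dvd).mp ((hmod p hp hpw).trans h1)

end Pool.LGC
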