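import Pool.Agent.Work.MP_b0c12c_chain.Interface

/-! # Block DATX (helper98), part a: the elementary inequalities -/

set_option autoImplicit false

namespace Pool.LGC

open Finset Filter
open Pool.LGP

/-- A power is smaller than a multiple of an exponential. -/
theorem DATX_pow (n : ℕ) (A c : ℝ) (hA : 0 ≤ A) (hc : 0 < c) :
    ∀ᶠ L : ℝ in atTop, A * L ^ n ≤ Real.exp (c * L) := by
  have h := (isLittleO_pow_exp_pos_mul_atTop (b := c) n hc).bound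
    (c := 1 / (A + 1)) (by positivity)
  filter_upwards [h, eventually_ge_atTop 0] with L hL h0
  rw [Real.norm_eq_abs, Real.norm_eq_abs, abs_of_nonneg (by positivity),
    abs_of_nonneg (Real.exp_pos _).le] at hL
  have hA1 : 0 < A + 1 := by linarith
  have h1 : (A + 1) * L ^ n ≤ Real.exp (c * L) := by
    calc (A + 1) * L ^ n ≤ (A + 1) * (1 / (A + 1) * Real.exp (c * L)) := by gcongr
      _ = Real.exp (c * L) := by field_simp
  have h2 : 0 ≤ L ^ n := by positivity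
  nlinarith

/-- The elementary inequalities for large `L`. -/
theorem DATX_large (κA δ K Ku C₂ : ℝ) (hδ : 0 < δ) (hKu : 1 ≤ Ku)
    (hC : 0 < C₂) :
    ∀ᶠ L : ℝ in atTop, 5184 ≤ L ∧ 16 * K ^ 2 ≤ L ∧ L ≤ Real.exp (Real.sqrt L / Ku) ∧
      (2 * K + 2 * K ^ 2) / C₂ ≤ L ∧ C₂ * (Real.log L / L) ≤ 1 ∧
      32 * Real.exp 1 ^ 2 / C₂ ^ 2 * L ^ 2 ≤ Real.exp (38 / 100 * L) ∧
      64 / δ ≤ L ∧ 16 * Real.exp 1 ^ 2 / δ * L ^ 1 ≤ Real.exp (46 / 100 * L) ∧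
      2 / κA ≤ L := by
  have hK0 : 0 < Ku := by linarith
  have h3 : ∀ᶠ L : ℝ in atTop, L ≤ Real.exp (Real.sqrt L / Ku) := by
    have h := (isLittleO_pow_exp_pos_mul_atTop (b := 1 / Ku) 2 (by positivity)).bound
      (c := 1) one_pos
    have h' := Real.tendsto_sqrt_atTop.eventually h
    filter_upwards [h', eventually_ge_atTop 0] with L hL h0
    rw [Real.norm_eq_abs, Real.norm_eq_abs, abs_of_nonneg (by positivity),
      abs_of_nonneg (Real.exp_pos _).le, Real.sq_sqrt h0, one_mul] at hL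
    rw [show Real.sqrt L / Ku = 1 / Ku * Real.sqrt L by ring]
    exact hL
  have h5 : ∀ᶠ L : ℝ in atTop, C₂ * (Real.log L / L) ≤ 1 := by
    have h := Real.isLittleO_log_id_atTop.bound (c := 1 / C₂) (by positivity)
    filter_upwards [h, eventually_ge_atTop 1] with L hL h0
    simp only [id, Real.norm_eq_abs] at hL
    rw [abs_of_nonneg (Real.log_nonneg h0), abs_of_nonneg (by linarith)] at hL
    have hL0 : 0 < L := by linarith
    rw [← mul_div_assoc, div_le_one hL0]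
    calc C₂ * Real.log L ≤ C₂ * (1 / C₂ * L) := by gcongr
      _ = L := by field_simp
  filter_upwards [eventually_ge_atTop (5184 : ℝ), eventually_ge_atTop (16 * K ^ 2), h3,
    eventually_ge_atTop ((2 * K + 2 * K ^ 2) / C₂), h5,
    DATX_pow 2 (32 * Real.exp 1 ^ 2 / C₂ ^ 2) (38 / 100) (by positivity) (by norm_num),
    eventually_ge_atTop (64 / δ),
    DATX_pow 1 (16 * Real.exp 1 ^ 2 / δ) (46 / 100) (by positivity) (by norm_num),
    eventually_ge_atTop (2 / κA)] with L a1 a2 a3 a4 a5 a6 a7 a8 a9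
  exact ⟨a1, a2, a3, a4, a5, a6, a7, a8, a9⟩

/-- The bound for `log (D / b) / log b`. -/
theorem DATX_ratio (L η M : ℝ) (hL : 0 < L) (hlog : 1 ≤ Real.log L)
    (hM : 0 < M) (hηM : 3 ≤ η * M) :
    Real.exp (-(Real.log (Real.exp (η * L) / Real.exp (L / (M * Real.log L))) /
      Real.log (Real.exp (L / (M * Real.log L))))) ≤ 3 / L ^ 3 := by
  have hl0 : 0 < Real.log L := by linarith
  rw [Real.log_div (Real.exp_pos _).ne' (Real.exp_pos _).ne', Real.log_exp, Real.log_exp]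
  have hq : (η * L - L / (M * Real.log L)) / (L / (M * Real.log L)) =
      η * M * Real.log L - 1 := by
    field_simp
  rw [hq]
  have e3 : Real.exp 1 < 2.7182818286 := Real.exp_one_lt_d9
  have e1 : Real.exp (-(3 * Real.log L - 1)) = Real.exp 1 / L ^ 3 := by
    rw [show -(3 * Real.log L - 1) = 1 - 3 * Real.log L by ring, Real.exp_sub,
      show 3 * Real.log L = ((3 : ℕ) : ℝ) * Real.log L by norm_num, Real.exp_nat_mul,
      Real.exp_log hL]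
  calc Real.exp (-(η * M * Real.log L - 1)) ≤ Real.exp (-(3 * Real.log L - 1)) := by
        apply Real.exp_le_exp.2
        nlinarith
    _ = Real.exp 1 / L ^ 3 := e1
    _ ≤ 3 / L ^ 3 := by
        gcongr
        linarith

/-- `exp (1 / 9) ≤ 9 / 8`. -/
theorem DATX_exp {t : ℝ} (ht : t ≤ 1 / 9) : Real.exp t ≤ 9 / 8 := by
  have h1 : Real.exp t ≤ Real.exp (1 / 9) := Real.exp_le_exp.2 ht
  have h2 := Real.add_one_le_exp (-(1 / 9 : ℝ))
  rw [Real.exp_neg] at h2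
  have h3 : 0 < Real.exp (1 / 9) := Real.exp_pos _
  have h4 : (8 / 9 : ℝ) ≤ (Real.exp (1 / 9))⁻¹ := by linarith
  have h5 : Real.exp (1 / 9) ≤ 9 / 8 := by
    rw [show (9 / 8 : ℝ) = (8 / 9)⁻¹ by norm_num]
    exact le_inv_of_le_inv₀ (by norm_num) h4
  linarith

/-- The size of the modulus. -/
theorem DATX_hQ (κA κ₀ η L Q : ℝ) (hA : 0 < κA) (hκ₀0 : 0 < κ₀) (hκ₀2 : κ₀ ≤ κA / 8)
    (hη2 : η ≤ κA / 8) (hL0 : 0 < L) (b9 : 2 / κA ≤ L) (hQ : Real.exp (κA * L) ≤ Q + 1) :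
    (primorial ⌊κ₀ * L⌋₊ : ℝ) * Real.exp (η * L) ^ 2 ≤ Q := by
  have hpr : (primorial ⌊κ₀ * L⌋₊ : ℝ) ≤ Real.exp (κA * L / 4) := by
    have h1 : (primorial ⌊κ₀ * L⌋₊ : ℝ) ≤ (4 : ℝ) ^ ⌊κ₀ * L⌋₊ := by
      exact_mod_cast primorial_le_four_pow _
    have h2 : (4 : ℝ) ^ ⌊κ₀ * L⌋₊ = Real.exp (⌊κ₀ * L⌋₊ * Real.log 4) := by
      rw [Real.exp_nat_mul, Real.exp_log (by norm_num)]
    have h3 : (⌊κ₀ * L⌋₊ : ℝ) ≤ κ₀ * L := Nat.floor_le (by positivity)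
    have h4 : Real.log 4 ≤ 2 := by
      rw [show (4 : ℝ) = 2 ^ 2 by norm_num, Real.log_pow]
      have := Real.log_two_lt_d9
      push_cast
      linarith
    have h5 : (0 : ℝ) ≤ Real.log 4 := Real.log_nonneg (by norm_num)
    refine h1.trans (h2.le.trans (Real.exp_le_exp.2 ?_))
    calc (⌊κ₀ * L⌋₊ : ℝ) * Real.log 4 ≤ κ₀ * L * 2 := by gcongr
      _ ≤ κA / 8 * L * 2 := by gcongr
      _ = κA * L / 4 := by ring
  have hD2 : Real.exp (η * L) ^ 2 ≤ Real.exp (κA * L / 4) := by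
    rw [← Real.exp_nat_mul]
    apply Real.exp_le_exp.2
    calc ((2 : ℕ) : ℝ) * (η * L) ≤ ((2 : ℕ) : ℝ) * (κA / 8 * L) := by gcongr
      _ = κA * L / 4 := by push_cast; ring
  have h6 : (primorial ⌊κ₀ * L⌋₊ : ℝ) * Real.exp (η * L) ^ 2 ≤ Real.exp (κA * L / 2) := by
    calc (primorial ⌊κ₀ * L⌋₊ : ℝ) * Real.exp (η * L) ^ 2 ≤
        Real.exp (κA * L / 4) * Real.exp (κA * L / 4) := by gcongr
      _ = Real.exp (κA * L / 2) := by rw [← Real.exp_add]; congr 1; ring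
  have h7 : 1 ≤ κA * L / 2 := by
    have := (div_le_iff₀ hA).1 b9
    linarith
  have h8 : 2 ≤ Real.exp (κA * L / 2) := by
    have := Real.add_one_le_exp (κA * L / 2)
    linarith
  have h9 : Real.exp (κA * L) = Real.exp (κA * L / 2) * Real.exp (κA * L / 2) := by
    rw [← Real.exp_add]; congr 1; ring
  nlinarith

/-- The defect `d`. -/
theorem DATX_hd (η L K Cg : ℝ) (hη0 : 0 < η) (hη1 : η ≤ 1 / 100) (hL0 : 1 ≤ L) (hK0 : 0 < K)
    (hCg : 0 < Cg) (hlog1 : 1 ≤ Real.log L) (b4 : (2 * K + 2 * K ^ 2) / Cg ≤ L) :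
    2 * (η * L) * K / L ^ 3 + 2 * K ^ 2 / L ^ 3 ≤ Cg * (Real.log L / L) := by
  have hL : 0 < L := by linarith
  have h1 : 2 * K + 2 * K ^ 2 ≤ L * Cg := by
    rwa [div_le_iff₀ hCg] at b4
  have h2 : 2 * (η * L) * K / L ^ 3 + 2 * K ^ 2 / L ^ 3 =
      (2 * (η * L) * K + 2 * K ^ 2) / L ^ 3 := by ring
  rw [h2]
  have h3 : 2 * (η * L) * K + 2 * K ^ 2 ≤ (2 * K + 2 * K ^ 2) * L := by
    have e1 : 2 * (η * L) * K ≤ 2 * K * L := by nlinarith [mul_pos hK0 hL]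
    have e2 : 2 * K ^ 2 ≤ 2 * K ^ 2 * L := by nlinarith [sq_nonneg K]
    linarith
  have h4 : (2 * K + 2 * K ^ 2) * L ≤ L * Cg * L := by gcongr
  have h5 : Cg * (Real.log L / L) = Cg * Real.log L * L ^ 2 / L ^ 3 := by
    field_simp
  rw [h5]
  gcongr
  have h6 : Cg * 1 * L ^ 2 ≤ Cg * Real.log L * L ^ 2 := by gcongr
  nlinarith

/-- The error term against `Y`. -/
theorem DATX_hY (η L Cg Y : ℝ) (hη1 : η * L ≤ L / 100) (hL : 1 ≤ L)
    (hCg : 0 < Cg) (hlog1 : 1 ≤ Real.log L)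
    (b6 : 32 * Real.exp 1 ^ 2 / Cg ^ 2 * L ^ 2 ≤ Real.exp (38 / 100 * L))
    (hY : Real.exp (L / 2) ≤ Y) :
    8 * (4 * Real.exp 1 ^ 2 * Real.exp (4 * (η * L))) * Real.exp (η * L) ^ 8 ≤
      (Cg * (Real.log L / L)) ^ 2 * Y := by
  have hL0 : 0 < L := by linarith
  have h8 : Real.exp (η * L) ^ 8 = Real.exp (8 * (η * L)) := by
    rw [← Real.exp_nat_mul]; norm_num
  rw [h8]
  have h12 : Real.exp (4 * (η * L)) * Real.exp (8 * (η * L)) ≤ Real.exp (12 / 100 * L) := by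
    rw [← Real.exp_add]
    exact Real.exp_le_exp.2 (by linarith)
  have hGG : (Cg * (1 / L)) ^ 2 ≤ (Cg * (Real.log L / L)) ^ 2 := by gcongr
  have h13 : 32 * Real.exp 1 ^ 2 * L ^ 2 ≤ Cg ^ 2 * Real.exp (38 / 100 * L) := by
    have := mul_le_mul_of_nonneg_left b6 (sq_nonneg Cg)
    have e1 : Cg ^ 2 * (32 * Real.exp 1 ^ 2 / Cg ^ 2 * L ^ 2) =
        32 * Real.exp 1 ^ 2 * L ^ 2 := by field_simp
    linarith
  have h14 : Real.exp (L / 2) = Real.exp (38 / 100 * L) * Real.exp (12 / 100 * L) := by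
    rw [← Real.exp_add]; congr 1; ring
  have hX := Real.exp_pos (12 / 100 * L)
  calc 8 * (4 * Real.exp 1 ^ 2 * Real.exp (4 * (η * L))) * Real.exp (8 * (η * L))
      = 32 * Real.exp 1 ^ 2 * (Real.exp (4 * (η * L)) * Real.exp (8 * (η * L))) := by ring
    _ ≤ 32 * Real.exp 1 ^ 2 * Real.exp (12 / 100 * L) := by gcongr
    _ = (32 * Real.exp 1 ^ 2 * L ^ 2) * Real.exp (12 / 100 * L) / L ^ 2 := by
        field_simp
    _ ≤ (Cg ^ 2 * Real.exp (38 / 100 * L)) * Real.exp (12 / 100 * L) / L ^ 2 := by gcongr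
    _ = (Cg * (1 / L)) ^ 2 * Real.exp (L / 2) := by rw [h14]; field_simp
    _ ≤ (Cg * (Real.log L / L)) ^ 2 * Y := by gcongr

/-- The mass of the bad labels. -/
theorem DATX_last (L δ : ℝ) (hL1 : 1 ≤ L) (hδ : 0 < δ) (b7 : 64 / δ ≤ L)
    (b8 : 16 * Real.exp 1 ^ 2 / δ * L ^ 1 ≤ Real.exp (46 / 100 * L)) :
    L * (8 * (4 / L ^ 3) + 2 * (4 * Real.exp 1 ^ 2 * Real.exp (4 / 100 * L)) /
      Real.exp (L / 2)) ≤ δ := by
  have hL0 : 0 < L := by linarith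
  have h2 : L * (8 * (4 / L ^ 3)) ≤ δ / 2 := by
    have e1 : L * (8 * (4 / L ^ 3)) = 32 / L ^ 2 := by field_simp; ring
    rw [e1, div_le_iff₀ (by positivity)]
    have e2 : 64 ≤ L * δ := by rwa [div_le_iff₀ hδ] at b7
    nlinarith [mul_pos hL0 hδ]
  have h3 : L * (2 * (4 * Real.exp 1 ^ 2 * Real.exp (4 / 100 * L)) / Real.exp (L / 2)) ≤
      δ / 2 := by
    have e1 : Real.exp (L / 2) = Real.exp (46 / 100 * L) * Real.exp (4 / 100 * L) := by
      rw [← Real.exp_add]; congr 1; ring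
    have e2 : L * (2 * (4 * Real.exp 1 ^ 2 * Real.exp (4 / 100 * L)) / Real.exp (L / 2)) =
        8 * Real.exp 1 ^ 2 * L / Real.exp (46 / 100 * L) := by
      rw [e1]; field_simp; ring
    rw [e2, div_le_iff₀ (Real.exp_pos _)]
    have e3 := mul_le_mul_of_nonneg_left b8 hδ.le
    have e4 : δ * (16 * Real.exp 1 ^ 2 / δ * L ^ 1) = 16 * Real.exp 1 ^ 2 * L := by
      field_simp
    linarith
  linarith [mul_add L (8 * (4 / L ^ 3)) (2 * (4 * Real.exp 1 ^ 2 * Real.exp (4 / 100 * L)) /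
    Real.exp (L / 2))]

/-- The product over the primes. -/
theorem DATX_tau (h3 : Stmt_TAB) (L k : ℝ) (P : Finset ℕ) (hL : 5184 ≤ L) (hk0 : 0 ≤ k)
    (hkL : k ≤ L) (hP : ∀ p ∈ P, ⌈L ^ 3⌉₊ < p) :
    ∏ p ∈ P, (1 + k / (((p : ℝ) - 1) * √p)) ≤ 9 / 8 ∧ ∑ p ∈ P, 1 / (p : ℝ) ^ 2 ≤ 2 / L ^ 3 := by
  have hL0 : 0 < L := by linarith
  have hc : L ^ 3 ≤ (⌈L ^ 3⌉₊ : ℝ) := Nat.le_ceil _
  have hL3 : L ≤ L ^ 3 := by
    have : L ^ 3 = L * (L * L) := by ring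
    rw [this]
    nlinarith
  obtain ⟨hT1, hT2⟩ := h3 P ⌈L ^ 3⌉₊ k (by
    have : ((2 : ℕ) : ℝ) ≤ (⌈L ^ 3⌉₊ : ℝ) := by push_cast; linarith
    exact_mod_cast this) hk0 hP
  constructor
  · refine hT1.trans (DATX_exp ?_)
    have hs1 : √(L ^ 3) ≤ √(⌈L ^ 3⌉₊ : ℝ) := Real.sqrt_le_sqrt hc
    have hs2 : √(L ^ 3) = L * √L := by
      rw [show L ^ 3 = L ^ 2 * L by ring, Real.sqrt_mul (by positivity),
        Real.sqrt_sq hL0.le]
    have hs3 : 72 ≤ √L := by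
      rw [show (72 : ℝ) = √(72 ^ 2) by rw [Real.sqrt_sq (by norm_num)]]
      exact Real.sqrt_le_sqrt (by linarith)
    rw [hs2] at hs1
    have hpos : 0 < L * √L := by positivity
    calc 8 * k / √(⌈L ^ 3⌉₊ : ℝ) ≤ 8 * L / (L * √L) := by gcongr
      _ = 8 / √L := by field_simp
      _ ≤ 1 / 9 := by
        rw [div_le_div_iff₀ (by linarith) (by norm_num)]
        linarith
  · refine hT2.trans ?_
    calc 1 / (⌈L ^ 3⌉₊ : ℝ) ≤ 1 / L ^ 3 := by gcongr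
      _ ≤ 2 / L ^ 3 := by gcongr; norm_num

end Pool.LGC
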