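import Pool.Agent.Work.MP_b0c12c_chain.InterfaceX
import Pool.Agent.Work.MP_b0c12c_chain.B_DATXa

/-! # Block DATE (helper52, after B_DATX of helper98): the data exist, with one more inequality -/

set_option autoImplicit false

namespace Pool.LGC

open Finset Filter
open Pool.LGP

/-- The additional inequality. -/
theorem DATE_small (L K k : ℝ) (hL : 5184 ≤ L) (hK2 : 16 * K ^ 2 ≤ L) (hK : 0 < K)
    (hk0 : 0 ≤ k) (hk : k ≤ L) : 3 * k / √(L ^ 3) + 10 * k * K / L ^ 3 ≤ 1 / 8 := by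
  have hL0 : 0 < L := by linarith
  have hs2 : √(L ^ 3) = L * √L := by
    rw [show L ^ 3 = L ^ 2 * L by ring, Real.sqrt_mul (by positivity), Real.sqrt_sq hL0.le]
  have hs3 : 72 ≤ √L := by
    rw [show (72 : ℝ) = √(72 ^ 2) by rw [Real.sqrt_sq (by norm_num)]]
    exact Real.sqrt_le_sqrt (by linarith)
  have hs4 : 0 < √L := by linarith
  have h1 : 3 * k / √(L ^ 3) ≤ 1 / 24 := by
    rw [hs2]
    calc 3 * k / (L * √L) ≤ 3 * L / (L * √L) := by gcongr
      _ = 3 / √L := by field_simp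
      _ ≤ 1 / 24 := by
        rw [div_le_div_iff₀ hs4 (by norm_num)]
        linarith
  have hKL : K ≤ L := by nlinarith
  have h2 : 10 * k * K / L ^ 3 ≤ 1 / 24 := by
    calc 10 * k * K / L ^ 3 ≤ 10 * L * L / L ^ 3 := by gcongr
      _ = 10 / L := by field_simp
      _ ≤ 1 / 24 := by
        rw [div_le_div_iff₀ hL0 (by norm_num)]
        linarith
  linarith

theorem p_DATE (h1 : Stmt_UEP) (h2 : Stmt_GEX) (h3 : Stmt_TAB) : Stmt_DATE := by
  intro κA hA
  set η : ℝ := min (κA / 8) (1 / 100) with hη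
  have hη0 : 0 < η := lt_min (by positivity) (by norm_num)
  have hη1 : η ≤ 1 / 100 := min_le_right _ _
  have hη2 : η ≤ κA / 8 := min_le_left _ _
  set κ₀ : ℝ := min (κA / 8) (1 / 8) with hκ₀
  have hκ₀0 : 0 < κ₀ := lt_min (by positivity) (by norm_num)
  have hκ₀1 : κ₀ ≤ 1 / 8 := min_le_right _ _
  have hκ₀2 : κ₀ ≤ κA / 8 := min_le_left _ _
  set M : ℝ := 3 / η with hM
  have hM1 : 1 ≤ M := by
    rw [hM, le_div_iff₀ hη0]; linarith
  have hM0 : 0 < M := by linarith
  have hηM : η * M = 3 := by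
    rw [hM]; field_simp
  obtain ⟨Cu, Ku, L₁, hCu, hKu, HU⟩ := h1 M η hM1 hη0
  obtain ⟨Cg, Kg, L₂, hCg, hKg, HG⟩ := h2 η hη0 (by linarith)
  set κ : ℝ := min 1 (η / (16 * Real.exp 2 * Cu)) with hκ
  have he2 : 0 < Real.exp 2 := Real.exp_pos 2
  have hκ0 : 0 < κ := lt_min one_pos (by positivity)
  have hκ1 : κ ≤ 1 := min_le_left _ _
  have hκ2 : κ ≤ η / (16 * Real.exp 2 * Cu) := min_le_right _ _
  refine ⟨κ₀, κ, η, Cg, hκ₀0, hκ₀1, hκ0, hη0, by linarith, hCg, ?_⟩
  intro δ hδ
  set K : ℝ := max Ku Kg with hK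
  have hK1 : 1 ≤ K := hKu.trans (le_max_left _ _)
  have hK0 : 0 < K := by linarith
  obtain ⟨L₃, HL₃⟩ := eventually_atTop.1 (DATX_large κA δ K Ku Cg hδ hKu hCg)
  refine ⟨max (max L₁ L₂) L₃, ?_⟩
  intro L hL P hP ι _ _ S hS hgood hW hcard Y Q hY hQ
  have hL1 : L₁ ≤ L := ((le_max_left _ _).trans (le_max_left _ _)).trans hL
  have hL2 : L₂ ≤ L := ((le_max_right _ _).trans (le_max_left _ _)).trans hL
  obtain ⟨b1, b2, b3, b4, b5, b6, b7, b8, b9⟩ := HL₃ L ((le_max_right _ _).trans hL)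
  have hL0 : 0 < L := by linarith
  have hlog1 : 1 ≤ Real.log L := by
    rw [Real.le_log_iff_exp_le hL0]
    have : Real.exp 1 < 2.7182818286 := Real.exp_one_lt_d9
    linarith
  have hlog0 : 0 < Real.log L := by linarith
  obtain ⟨u, hu⟩ := HU L hL1 P hP ι S hS
  obtain ⟨g, g0, g1, gG, gK, gD, gE⟩ := HG L hL2 P hP
  have hlarge : ∀ x : P, L ^ 3 ≤ S.pr x := by
    intro x
    have h1 := ((hP x).1 x.2).2.1
    have h2 : L ^ 3 ≤ (⌈L ^ 3⌉₊ : ℝ) := Nat.le_ceil _
    have h3 : (⌈L ^ 3⌉₊ : ℝ) < (x : ℕ) := by exact_mod_cast h1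
    rw [hS x]
    linarith
  have hprpos : ∀ x : P, (0 : ℝ) < S.pr x := fun x => lt_of_lt_of_le (by positivity) (hlarge x)
  have hkL : (Fintype.card ι : ℝ) ≤ L := by
    calc (Fintype.card ι : ℝ) ≤ κ * L := hcard
      _ ≤ 1 * L := by gcongr
      _ = L := one_mul _
  have hk0 : (0 : ℝ) ≤ Fintype.card ι := Nat.cast_nonneg _
  have hwt : ∀ T : Finset P, S.wt T = ∏ x ∈ T, ((x : ℕ) : ℝ) := by
    intro T
    unfold Sys.wt
    exact Finset.prod_congr rfl fun x _ => by rw [hS x]
  have hlogD : Real.log (Real.exp (η * L)) = η * L := Real.log_exp _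
  have hbpos : 0 < L / (M * Real.log L) := by positivity
  have hble : L / (M * Real.log L) ≤ η * L / 3 := by
    rw [div_le_div_iff₀ (by positivity) (by norm_num)]
    have : η * L * (M * Real.log L) = η * M * L * Real.log L := by ring
    rw [this, hηM]
    have h0 := mul_le_mul_of_nonneg_left hlog1 (by positivity : 0 ≤ 3 * L)
    linarith only [h0]
  have hηL : 0 < η * L := by positivity
  have hL3 : L ^ 3 = L * L * L := by ring
  have hLL : 5184 * L ≤ L * L := mul_le_mul_of_nonneg_right b1 hL0.le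
  have hLLL : 5184 * (L * L) ≤ L ^ 3 := by
    rw [hL3, mul_assoc]
    exact mul_le_mul_of_nonneg_right b1 (mul_nonneg hL0.le hL0.le)
  have hLL1 : 1 ≤ L * L := by linarith only [hLL, b1]
  have hTAU := DATX_tau h3 L (Fintype.card ι : ℝ) P b1 hk0 hkL (fun p hp => ((hP p).1 hp).2.1)
  have hηL2 : η * L ≤ L / 100 := by
    have h0 := mul_le_mul_of_nonneg_right hη1 hL0.le
    linarith only [h0]
  have hratio := DATX_ratio L η M hL0 hlog1 hM0 hηM.ge
  have hsq : (Real.log (Real.exp (η * L)) * K / L ^ 3) ^ 2 ≤ 1 / L ^ 3 := by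
    rw [hlogD]
    have h1 : η * L * K / L ^ 3 = η * K / L ^ 2 := by field_simp
    rw [h1, div_pow, div_le_div_iff₀ (by positivity) (by positivity)]
    have h2 : (η * K) ^ 2 ≤ K ^ 2 := by
      have : (η * K) ^ 2 = η ^ 2 * K ^ 2 := by ring
      rw [this]
      have h0 : η ^ 2 ≤ 1 := pow_le_one₀ hη0.le (by linarith only [hη1])
      exact mul_le_of_le_one_left (sq_nonneg K) h0
    have h3 : (η * K) ^ 2 ≤ L := by linarith only [h2, b2, sq_nonneg K]
    have h4 : (η * K) ^ 2 * L ^ 3 ≤ L * L ^ 3 :=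
      mul_le_mul_of_nonneg_right h3 (by positivity)
    refine h4.trans (le_of_eq ?_)
    ring
  have hη3 : (Real.log (Real.exp (η * L)) * K / L ^ 3) ^ 2 +
      Real.exp (-(Real.log (Real.exp (η * L) / Real.exp (L / (M * Real.log L))) /
      Real.log (Real.exp (L / (M * Real.log L))))) ≤ 4 / L ^ 3 := by
    calc _ ≤ 1 / L ^ 3 + 3 / L ^ 3 := add_le_add hsq hratio
      _ = 4 / L ^ 3 := by ring
  have hpow2 : Real.exp (η * L) ^ ((1 : ℝ) + 1) = Real.exp (2 * (η * L)) := by
    rw [← Real.exp_mul]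
    congr 1; ring
  have hsq2 : (2 * Real.exp 1 * Real.exp (η * L) ^ ((1 : ℝ) + 1)) ^ 2 =
      4 * Real.exp 1 ^ 2 * Real.exp (4 * (η * L)) := by
    rw [hpow2, mul_pow, mul_pow, ← Real.exp_nat_mul (2 * (η * L)) 2]
    norm_num
    ring_nf
  have hY0 : (0 : ℝ) < Y := lt_of_lt_of_le (Real.exp_pos _) hY
  refine ⟨u, g, Real.exp (Real.sqrt L / Ku), Real.exp (L / (M * Real.log L)), Cu, K,
    Real.exp (η * L), L ^ 3, 1, ?_, DATE_small L K (Fintype.card ι : ℝ) b1 b2 hK0 hk0 hkL, ?_⟩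
  · refine
    { good := hgood
      W_pos := ?_
      uok := ?_
      z3 := by linarith only [hLLL, hLL1]
      z_le := hlarge
      K0 := hK0.le
      C0 := hCu.le
      s0 := one_pos
      a1 := Real.one_le_exp (by positivity)
      b1 := Real.one_lt_exp_iff.2 hbpos
      bD := Real.exp_le_exp.2 (by linarith)
      h64 := ?_
      hK := ?_
      hC := ?_
      heta := ?_
      hs := ?_
      tau := ?_
      tau2 := ?_
      hQ := ?_
      g0 := g0
      g1 := g1
      gG := ?_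
      G1 := b5
      gK := ?_
      gD := ?_
      gE := ?_
      hd := ?_
      hY := ?_ }
    · rw [hW]; exact primorial_pos _
    · exact ⟨hu.nonneg, hu.empty, hu.mass, hu.lo, hu.hi, hu.le_one, hu.cost, fun x =>
        (hu.div x).trans (by
          have := hprpos x
          gcongr
          exact le_max_left _ _)⟩
    · rw [hlogD]
      calc 192 * (η * L) * ((Fintype.card ι : ℝ) + 3) ≤ 192 * (L / 100) * (L + 3) := by gcongr
        _ = 192 / 100 * (L * L) + 576 / 100 * L := by ring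
        _ ≤ L ^ 3 := by linarith only [hLL, hLLL, hL0]
    · calc 16 * (Fintype.card ι : ℝ) ^ 2 * K ^ 2 ≤ 16 * L ^ 2 * K ^ 2 := by gcongr
        _ = 16 * K ^ 2 * L ^ 2 := by ring
        _ ≤ L * L ^ 2 := by gcongr
        _ = L ^ 3 := by ring
    · rw [Real.log_div (Real.exp_pos _).ne' (Real.exp_pos _).ne', Real.log_exp, Real.log_exp]
      have h1 : (Fintype.card ι : ℝ) ≤ η / (16 * Real.exp 2 * Cu) * L :=
        hcard.trans (by gcongr)
      have h2 : (Fintype.card ι : ℝ) * Real.exp 2 * Cu ≤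
          η / (16 * Real.exp 2 * Cu) * L * Real.exp 2 * Cu := by gcongr
      have h3 : η / (16 * Real.exp 2 * Cu) * L * Real.exp 2 * Cu = η * L / 16 := by
        field_simp
      linarith
    · refine hη3.trans ?_
      rw [div_le_div_iff₀ (by positivity) (by norm_num)]
      linarith only [hLLL, hLL1]
    · rw [Real.rpow_one]
      exact hkL.trans b3
    · have hprod : ∏ x : P, (1 + (Fintype.card ι : ℝ) / (((S.pr x : ℝ) - 1) * √(S.pr x))) =
          ∏ p ∈ P, (1 + (Fintype.card ι : ℝ) / (((p : ℝ) - 1) * √p)) := by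
        rw [← Finset.prod_coe_sort P]
        exact Finset.prod_congr rfl fun x _ => by rw [hS x]
      rw [hprod]
      exact hTAU.1
    · have hsum : ∑ x : P, 1 / (S.pr x : ℝ) ^ 2 = ∑ p ∈ P, 1 / (p : ℝ) ^ 2 := by
        rw [← Finset.sum_coe_sort P]
        exact Finset.sum_congr rfl fun x _ => by rw [hS x]
      rw [hsum]
      exact hTAU.2
    · rw [hW]
      exact DATX_hQ κA κ₀ η L Q hA hκ₀0 hκ₀2 hη2 hL0 b9 hQ
    · refine le_trans (le_of_eq ?_) gG
      exact Finset.sum_congr rfl fun T _ => by rw [hwt T]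
    · intro x
      refine (gK x).trans ?_
      rw [hS x]
      have := hprpos x
      rw [hS x] at this
      gcongr
      exact le_max_right _ _
    · intro T hT
      rw [hwt T]
      exact gD T hT
    · have : Real.exp (η * L) ^ 2 = Real.exp (2 * (η * L)) := by
        rw [← Real.exp_nat_mul]; norm_num
      rw [this]
      refine le_trans (le_of_eq ?_) gE
      refine Finset.sum_congr rfl fun T _ => ?_
      congr 1
      exact Finset.prod_congr rfl fun x _ => by rw [hS x]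
    · rw [hlogD]
      exact DATX_hd η L K Cg hη0 hη1 (by linarith) hK0 hCg hlog1 b4
    · rw [hsq2]
      exact DATX_hY η L Cg Y hηL2 (by linarith) hCg hlog1 b6 hY
  · rw [hsq2]
    have h1 : (Fintype.card ι : ℝ) * (8 * ((Real.log (Real.exp (η * L)) * K / L ^ 3) ^ 2 +
        Real.exp (-(Real.log (Real.exp (η * L) / Real.exp (L / (M * Real.log L))) /
        Real.log (Real.exp (L / (M * Real.log L)))))) +
        2 * (4 * Real.exp 1 ^ 2 * Real.exp (4 * (η * L))) / Y) ≤
        L * (8 * (4 / L ^ 3) + 2 * (4 * Real.exp 1 ^ 2 * Real.exp (4 / 100 * L)) /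
          Real.exp (L / 2)) := by
      have e1 : Real.exp (4 * (η * L)) ≤ Real.exp (4 / 100 * L) :=
        Real.exp_le_exp.2 (by linarith)
      gcongr
    exact h1.trans (DATX_last L δ (by linarith) hδ b7 b8)

end Pool.LGC
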