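import Pool.Agent.Work.MP_b0c12c_chain.Interface

/-! # Block E2C: the mass of the weights compatible with a configuration (helper74) -/

set_option autoImplicit false
set_option linter.unusedSectionVars false

namespace Pool.LGC

open Finset Filter
open Pool.LGP

section

variable {π ι : Type} [Fintype π] [DecidableEq π] [Fintype ι] [DecidableEq ι]

/-- Two sets which are disjoint from each other and from the support of `σ`. -/
def E2Cok (σ : π → Option ι) (p : Finset π × Finset π) : Prop :=
  (∀ x, ¬ (x ∈ p.1 ∧ x ∈ p.2)) ∧ ∀ x, σ x ≠ none → x ∉ p.1 ∧ x ∉ p.2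

/-- The configuration of a pair. -/
def E2Cmk (σ : π → Option ι) (p : Finset π × Finset π) : π → Option (Option (Option ι)) :=
  fun x => match σ x with
    | some h => some (some (some h))
    | none => if x ∈ p.1 then some none else if x ∈ p.2 then some (some none) else none

theorem E2C_drop_mk (σ : π → Option ι) (p : Finset π × Finset π) :
    drop (E2Cmk σ p) = σ := by
  funext x
  unfold drop E2Cmk
  cases hx : σ x with
  | some h => simp
  | none =>
    by_cases h1 : x ∈ p.1
    · simp [h1]
    · by_cases h2 : x ∈ p.2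
      · simp [h1, h2]
      · simp [h1, h2]

theorem E2C_fib_none (σ : π → Option ι) (p : Finset π × Finset π) (hp : E2Cok σ p) :
    fib (E2Cmk σ p) none = p.1 := by
  ext x
  unfold fib E2Cmk
  simp only [mem_filter, mem_univ, true_and]
  cases hx : σ x with
  | some h =>
    have := (hp.2 x (by rw [hx]; simp)).1
    simp [this]
  | none =>
    by_cases h1 : x ∈ p.1
    · simp [h1]
    · by_cases h2 : x ∈ p.2
      · simp [h1, h2]
      · simp [h1, h2]

theorem E2C_fib_some (σ : π → Option ι) (p : Finset π × Finset π) (hp : E2Cok σ p) :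
    fib (E2Cmk σ p) (some none) = p.2 := by
  ext x
  unfold fib E2Cmk
  simp only [mem_filter, mem_univ, true_and]
  cases hx : σ x with
  | some h =>
    have := (hp.2 x (by rw [hx]; simp)).2
    simp [this]
  | none =>
    by_cases h1 : x ∈ p.1
    · have : x ∉ p.2 := fun h => hp.1 x ⟨h1, h⟩
      simp [h1, this]
    · by_cases h2 : x ∈ p.2
      · simp [h1, h2]
      · simp [h1, h2]

theorem E2C_ok_fib (σ : π → Option ι) (ρ : π → Option (Option (Option ι))) (hρ : drop ρ = σ) :
    E2Cok σ (fib ρ none, fib ρ (some none)) := by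
  refine ⟨?_, ?_⟩
  · intro x ⟨h1, h2⟩
    simp only [fib, mem_filter, mem_univ, true_and] at h1 h2
    rw [h1] at h2
    simp at h2
  · intro x hx
    rw [← hρ] at hx
    simp only [fib, mem_filter, mem_univ, true_and]
    refine ⟨fun h => hx ?_, fun h => hx ?_⟩
    · unfold drop; rw [h]; rfl
    · unfold drop; rw [h]; rfl

theorem E2C_mk_fib (σ : π → Option ι) (ρ : π → Option (Option (Option ι))) (hρ : drop ρ = σ) :
    E2Cmk σ (fib ρ none, fib ρ (some none)) = ρ := by
  subst hρ
  funext x
  unfold E2Cmk
  simp only [fib, mem_filter, mem_univ, true_and]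
  have key : ∀ o : Option (Option (Option ι)),
      (match o.join.join with
        | some h => some (some (some h))
        | none => if o = some none then some none else if o = some (some none) then
            some (some none) else none) = o := by
    intro o
    rcases o with _ | _ | _ | h
    · simp
    · simp
    · simp
    · simp
  exact key (ρ x)

theorem E2C_cs (g : Finset π → ℝ) (σ : π → Option ι) :
    cs g σ = ∑ p : Finset π × Finset π,
      open Classical in if E2Cok σ p then g p.1 * g p.2 else 0 := by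
  classical
  unfold cs
  rw [← Finset.sum_filter, ← Finset.sum_filter]
  refine Finset.sum_bij' (fun ρ _ => (fib ρ none, fib ρ (some none))) (fun p _ => E2Cmk σ p)
    ?_ ?_ ?_ ?_ ?_
  · intro ρ hρ
    simp only [mem_filter, mem_univ, true_and] at hρ ⊢
    exact E2C_ok_fib σ ρ hρ
  · intro p hp
    simp only [mem_filter, mem_univ, true_and] at hp ⊢
    exact E2C_drop_mk σ p
  · intro ρ hρ
    simp only [mem_filter, mem_univ, true_and] at hρ
    exact E2C_mk_fib σ ρ hρ
  · intro p hp
    simp only [mem_filter, mem_univ, true_and] at hp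
    rw [E2C_fib_none σ p hp, E2C_fib_some σ p hp]
  · intro ρ hρ
    rfl

theorem E2C_total (g : Finset π → ℝ) (h1 : ∑ T, g T = 1) :
    ∑ p : Finset π × Finset π, g p.1 * g p.2 = 1 := by
  rw [Fintype.sum_prod_type]
  simp only [← Finset.mul_sum, h1, mul_one]

/-- Pointwise bound for the pairs which are not compatible. -/
theorem E2C_point (σ : π → Option ι) (p : Finset π × Finset π) :
    1 - (open Classical in if E2Cok σ p then (1 : ℝ) else 0) ≤
      ∑ x, ((al (σ x) : ℝ) * ((if x ∈ p.1 then 1 else 0) + (if x ∈ p.2 then 1 else 0)) +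
        (if x ∈ p.1 then 1 else 0) * (if x ∈ p.2 then 1 else 0)) := by
  classical
  have hnn : ∀ x : π, 0 ≤ ((al (σ x) : ℝ) * ((if x ∈ p.1 then 1 else 0) +
      (if x ∈ p.2 then 1 else 0)) +
        (if x ∈ p.1 then 1 else 0) * (if x ∈ p.2 then 1 else 0)) := by
    intro x
    by_cases h1 : x ∈ p.1 <;> by_cases h2 : x ∈ p.2 <;> simp [h1, h2] <;> positivity
  by_cases hok : E2Cok σ p
  · simp only [hok, if_true, sub_self]
    exact Finset.sum_nonneg (fun x _ => hnn x)
  · simp only [hok, if_false, sub_zero]
    have hex : ∃ x, (1 : ℝ) ≤ ((al (σ x) : ℝ) * ((if x ∈ p.1 then 1 else 0) +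
        (if x ∈ p.2 then 1 else 0)) +
        (if x ∈ p.1 then 1 else 0) * (if x ∈ p.2 then 1 else 0)) := by
      unfold E2Cok at hok
      rw [not_and_or] at hok
      rcases hok with hok | hok
      · push Not at hok
        obtain ⟨x, hx1, hx2⟩ := hok
        refine ⟨x, ?_⟩
        simp only [hx1, hx2, if_true]
        have : (0 : ℝ) ≤ (al (σ x) : ℝ) := by positivity
        nlinarith
      · push Not at hok
        obtain ⟨x, hx1, hx2⟩ := hok
        refine ⟨x, ?_⟩
        have hal : (al (σ x) : ℝ) = 1 := by
          cases hs : σ x with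
          | none => exact absurd hs hx1
          | some h => simp [al]
        rw [hal]
        by_cases h1 : x ∈ p.1
        · by_cases h2 : x ∈ p.2 <;> simp [h1, h2]
        · have h2 := hx2 h1
          simp [h1, h2]
    obtain ⟨x, hx⟩ := hex
    exact hx.trans (Finset.single_le_sum (fun y _ => hnn y) (mem_univ x))

end

theorem p_E2C : Stmt_E2C := by
  intro π ι _ _ _ _ S g K z hg h1 hz hpr hK hdiv hsum σ
  classical
  set G : π → ℝ := fun x => ∑ T, (if x ∈ T then g T else 0) with hG
  have hG0 : ∀ x, 0 ≤ G x := fun x => Finset.sum_nonneg (fun T _ => by split_ifs <;> simp [hg])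
  have hcs : cs g σ = ∑ p : Finset π × Finset π,
      (g p.1 * g p.2) * (if E2Cok σ p then (1 : ℝ) else 0) := by
    rw [E2C_cs]
    refine Finset.sum_congr rfl (fun p _ => ?_)
    split_ifs <;> simp
  have htot := E2C_total g h1
  refine ⟨?_, ?_⟩
  · rw [hcs]
    refine le_trans (Finset.sum_le_sum (g := fun p => g p.1 * g p.2) (fun p _ => ?_)) htot.le
    have : 0 ≤ g p.1 * g p.2 := mul_nonneg (hg _) (hg _)
    split_ifs <;> simp [this]
  · have hstep : 1 - cs g σ ≤ ∑ p : Finset π × Finset π, (g p.1 * g p.2) *
        ∑ x, ((al (σ x) : ℝ) * ((if x ∈ p.1 then 1 else 0) + (if x ∈ p.2 then 1 else 0)) +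
          (if x ∈ p.1 then 1 else 0) * (if x ∈ p.2 then 1 else 0)) := by
      have hsub : 1 - cs g σ = ∑ p : Finset π × Finset π,
          (g p.1 * g p.2 - (g p.1 * g p.2) * (if E2Cok σ p then (1 : ℝ) else 0)) := by
        rw [Finset.sum_sub_distrib, htot, hcs]
      rw [hsub]
      refine Finset.sum_le_sum (fun p _ => ?_)
      have h0 : 0 ≤ g p.1 * g p.2 := mul_nonneg (hg _) (hg _)
      have := E2C_point σ p
      have h2 := mul_le_mul_of_nonneg_left this h0
      rw [mul_sub, mul_one] at h2
      exact h2
    have hswap : ∑ p : Finset π × Finset π, (g p.1 * g p.2) *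
        ∑ x, ((al (σ x) : ℝ) * ((if x ∈ p.1 then 1 else 0) + (if x ∈ p.2 then 1 else 0)) +
          (if x ∈ p.1 then 1 else 0) * (if x ∈ p.2 then 1 else 0)) =
        ∑ x, ((al (σ x) : ℝ) * (2 * G x) + G x ^ 2) := by
      simp only [Finset.mul_sum]
      rw [Finset.sum_comm]
      refine Finset.sum_congr rfl (fun x _ => ?_)
      have e1 : ∑ p : Finset π × Finset π, (g p.1 * g p.2) * (if x ∈ p.1 then (1 : ℝ) else 0) =
          G x := by
        rw [Fintype.sum_prod_type, hG]
        refine Finset.sum_congr rfl (fun T _ => ?_)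
        have e0 : ∀ T' : Finset π, g T * g T' * (if x ∈ T then (1 : ℝ) else 0) =
            g T' * (g T * (if x ∈ T then (1 : ℝ) else 0)) := fun T' => by ring
        simp only [e0]
        rw [← Finset.sum_mul, h1]
        split_ifs <;> simp
      have e2 : ∑ p : Finset π × Finset π, (g p.1 * g p.2) * (if x ∈ p.2 then (1 : ℝ) else 0) =
          G x := by
        rw [Fintype.sum_prod_type, Finset.sum_comm, hG]
        refine Finset.sum_congr rfl (fun T _ => ?_)
        have e0 : ∀ T' : Finset π, g T' * g T * (if x ∈ T then (1 : ℝ) else 0) =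
            g T' * (g T * (if x ∈ T then (1 : ℝ) else 0)) := fun T' => by ring
        simp only [e0]
        rw [← Finset.sum_mul, h1]
        split_ifs <;> simp
      have e3 : ∑ p : Finset π × Finset π, (g p.1 * g p.2) *
          ((if x ∈ p.1 then (1 : ℝ) else 0) * (if x ∈ p.2 then (1 : ℝ) else 0)) = G x ^ 2 := by
        rw [Fintype.sum_prod_type, hG, sq]
        simp only
        rw [Finset.sum_mul_sum]
        refine Finset.sum_congr rfl (fun T _ => Finset.sum_congr rfl (fun T' _ => ?_))
        split_ifs <;> simp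
      calc ∑ p : Finset π × Finset π, (g p.1 * g p.2) *
            ((al (σ x) : ℝ) * ((if x ∈ p.1 then 1 else 0) + (if x ∈ p.2 then 1 else 0)) +
              (if x ∈ p.1 then 1 else 0) * (if x ∈ p.2 then 1 else 0))
          = ∑ p : Finset π × Finset π,
            ((al (σ x) : ℝ) * ((g p.1 * g p.2) * (if x ∈ p.1 then (1 : ℝ) else 0)) +
              (al (σ x) : ℝ) * ((g p.1 * g p.2) * (if x ∈ p.2 then (1 : ℝ) else 0)) +
              (g p.1 * g p.2) *
                ((if x ∈ p.1 then (1 : ℝ) else 0) * (if x ∈ p.2 then (1 : ℝ) else 0))) := by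
            refine Finset.sum_congr rfl (fun p _ => ?_)
            ring
        _ = (al (σ x) : ℝ) * (2 * G x) + G x ^ 2 := by
            rw [Finset.sum_add_distrib, Finset.sum_add_distrib, ← Finset.mul_sum,
              ← Finset.mul_sum, e1, e2, e3]
            ring
    have hprpos : ∀ x, 0 < (S.pr x : ℝ) := fun x => hz.trans_le (hpr x)
    have hGz : ∀ x, G x ≤ K / z := fun x =>
      (hdiv x).trans (div_le_div_of_nonneg_left hK hz (hpr x))
    have hGsq : ∀ x, G x ^ 2 ≤ K ^ 2 * (1 / (S.pr x : ℝ) ^ 2) := by
      intro x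
      have := pow_le_pow_left₀ (hG0 x) (hdiv x) 2
      rw [div_pow] at this
      rw [mul_one_div]
      exact this
    calc 1 - cs g σ ≤ ∑ x, ((al (σ x) : ℝ) * (2 * G x) + G x ^ 2) := by rw [← hswap]; exact hstep
      _ ≤ ∑ x, ((al (σ x) : ℝ) * (2 * (K / z)) + K ^ 2 * (1 / (S.pr x : ℝ) ^ 2)) := by
          refine Finset.sum_le_sum (fun x _ => add_le_add ?_ (hGsq x))
          have : (0 : ℝ) ≤ (al (σ x) : ℝ) := by positivity
          exact mul_le_mul_of_nonneg_left (by linarith [hGz x]) this
      _ = (act σ : ℝ) * (2 * (K / z)) + K ^ 2 * ∑ x, 1 / (S.pr x : ℝ) ^ 2 := by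
          rw [Finset.sum_add_distrib, ← Finset.sum_mul, ← Finset.mul_sum]
          congr 2
          unfold act
          push_cast
          rfl
      _ ≤ 2 * (act σ : ℝ) * K / z + 2 * K ^ 2 / z := by
          have h3 := mul_le_mul_of_nonneg_left hsum (sq_nonneg K)
          have e4 : (act σ : ℝ) * (2 * (K / z)) = 2 * (act σ : ℝ) * K / z := by ring
          have e5 : K ^ 2 * (2 / z) = 2 * K ^ 2 / z := by ring
          rw [e4]
          rw [e5] at h3
          linarith

end Pool.LGC
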