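import Pool.Agent.Work.MP_b0c12c_chain.Interface

/-! # Block E2I: configurations with two further labels are among the triples (helper36) -/

set_option autoImplicit false

namespace Pool.LGC

open Finset Filter
open Pool.LGP

theorem p_E2I : Stmt_E2I := by
  classical
  intro π ι _ _ _ _ f g₁ g₂ hf hg₁ hg₂
  set φ : (π → Option (Option (Option ι))) → (π → Option ι) × (Finset π × Finset π) :=
    fun ρ => (drop ρ, (fib ρ none, fib ρ (some none))) with hφ
  have hinj : Function.Injective φ := by
    intro ρ σ h
    simp only [hφ, Prod.mk.injEq] at h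
    obtain ⟨h1, h2, h3⟩ := h
    funext x
    have a1 : drop ρ x = drop σ x := congrFun h1 x
    have a2 : x ∈ fib ρ none ↔ x ∈ fib σ none := by rw [h2]
    have a3 : x ∈ fib ρ (some none) ↔ x ∈ fib σ (some none) := by rw [h3]
    simp only [fib, mem_filter, mem_univ, true_and] at a2 a3
    simp only [drop] at a1
    rcases hr : ρ x with _ | _ | _ | j <;> rcases hs : σ x with _ | _ | _ | i <;>
      simp_all
  set F : (π → Option ι) × (Finset π × Finset π) → ℝ :=
    fun z => f z.1 * (g₁ z.2.1 * g₂ z.2.2) with hF
  have hF0 : ∀ z, 0 ≤ F z := fun z => mul_nonneg (hf _) (mul_nonneg (hg₁ _) (hg₂ _))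
  calc ∑ ρ : π → Option (Option (Option ι)),
        f (drop ρ) * (g₁ (fib ρ none) * g₂ (fib ρ (some none)))
      = ∑ ρ : π → Option (Option (Option ι)), F (φ ρ) := rfl
    _ = ∑ z ∈ univ.image φ, F z := by
        rw [Finset.sum_image]
        intro a _ b _ hab
        exact hinj hab
    _ ≤ ∑ z, F z := Finset.sum_le_univ_sum_of_nonneg hF0
    _ = (∑ σ, f σ) * ((∑ T, g₁ T) * ∑ T, g₂ T) := by
        simp only [hF]
        rw [Fintype.sum_prod_type, Finset.sum_mul]
        refine Finset.sum_congr rfl fun σ _ => ?_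
        rw [Fintype.sum_prod_type, Finset.sum_mul_sum, Finset.mul_sum]
        refine Finset.sum_congr rfl fun T _ => ?_
        rw [Finset.mul_sum]

end Pool.LGC
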