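import Pool.Agent.Work.MP_b0c12c_chain.Interface

/-! # Block E2R: the function with two further labels at rough values (helper36) -/

set_option autoImplicit false

namespace Pool.LGC

open Finset Filter
open Pool.LGP

theorem p_E2R : Stmt_E2R := by
  classical
  intro π ι _ _ _ _ S e₁ e₂ a g y h₁ h₂
  have hpsi : ∀ ρ : π → Option (Option (Option ι)),
      (ext2 S e₁ e₂).psi ρ y = S.psi (drop ρ) y := by
    intro ρ
    unfold Sys.psi
    refine Finset.prod_congr rfl fun x _ => ?_
    have b1 := h₁ x
    have b2 := h₂ x
    rcases h : ρ x with _ | _ | _ | j <;>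
      simp [drop, h, Sys.loc, ext2, Sys.N, b1, b2]
  unfold FF
  calc ∑ ρ : π → Option (Option (Option ι)), at2 g a ρ * (ext2 S e₁ e₂).psi ρ y
      = ∑ ρ : π → Option (Option (Option ι)), ∑ σ : π → Option ι,
          (if drop ρ = σ then
            a σ * (g (fib ρ none) * g (fib ρ (some none))) * S.psi σ y else 0) := by
        refine Finset.sum_congr rfl fun ρ _ => ?_
        rw [Finset.sum_ite_eq]
        simp only [mem_univ, if_true]
        rw [hpsi ρ]
        rfl
    _ = ∑ σ : π → Option ι, ∑ ρ : π → Option (Option (Option ι)),
          (if drop ρ = σ then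
            a σ * (g (fib ρ none) * g (fib ρ (some none))) * S.psi σ y else 0) :=
        Finset.sum_comm
    _ = ∑ σ, a σ * cs g σ * S.psi σ y := by
        refine Finset.sum_congr rfl fun σ _ => ?_
        unfold cs
        rw [Finset.mul_sum, Finset.sum_mul]
        refine Finset.sum_congr rfl fun ρ _ => ?_
        by_cases hd : drop ρ = σ
        · simp [hd]
        · simp [hd]

end Pool.LGC
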