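import Pool.Agent.Work.MP_b0c12c_chain.Interface

/-! # Block E2S: sizes for the system with two further labels (helper84) -/

set_option autoImplicit false

namespace Pool.LGC

open Finset Filter
open Pool.LGP

theorem p_E2S : Stmt_E2S := by
  intro π ι _ _ _ S e₁ e₂ ρ
  refine ⟨?_, ?_, ?_⟩
  · unfold Sys.szn Sys.wt fib
    rw [Finset.prod_filter, Finset.prod_filter, ← Finset.prod_mul_distrib]
    push_cast
    rw [← Finset.prod_mul_distrib]
    refine Finset.prod_congr rfl fun x _ => ?_
    rcases h : ρ x with _ | _ | _ | j <;> simp [drop, h, Sys.zl, ext2]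
  · unfold Sys.ez fib
    rw [Finset.prod_filter, Finset.prod_filter, ← Finset.prod_mul_distrib,
      ← Finset.prod_mul_distrib]
    refine Finset.prod_congr rfl fun x _ => ?_
    rcases h : ρ x with _ | _ | _ | j <;> simp [drop, h, Sys.el, ext2]
  · unfold act fib
    rw [Finset.card_filter, Finset.card_filter, ← Finset.sum_add_distrib,
      ← Finset.sum_add_distrib]
    refine Finset.sum_congr rfl fun x _ => ?_
    rcases h : ρ x with _ | _ | _ | j <;> simp [drop, h, al]

end Pool.LGC
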