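import Pool.Agent.Work.MP_b0c12c_chain.B_EFE0
import Pool.Agent.Work.PS.Main

/-! # EFE: the explicit formula with the exceptional zero -/

set_option autoImplicit false

namespace Pool.LGC

theorem p_EFE : Stmt_EFE := efe Pool.Agent.PS.main_ef Pool.Agent.PS.stmt_ZSPEC

end Pool.LGC
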