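import Pool.Agent.Work.MP_b0c12c_chain.InterfaceAN
import Pool.Agent.Work.PS.WS3

/-! # EFT: the explicit formula for one character and the weight `th` -/

set_option autoImplicit false

namespace Pool.LGC

open Finset Filter ArithmeticFunction
open Pool.Agent.PS (zs zl Stmt_EF Stmt_ZSPEC zterm_bound sum_map_le list_sum_mul lam_th_sum
  zs_nonneg)

theorem th_eq (n : ℕ) : th n = Pool.Agent.PS.th n := rfl

/-- The sum over the zeros, weights `X ^ (re ρ - 1)`. -/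
theorem zsum6 (L : List ℂ) (hL : ∀ ρ ∈ L, 9 / 10 ≤ ρ.re ∧ ρ.re ≤ 1) (Z u v X : ℝ) (hZ : 1 ≤ Z)
    (hX : 1 ≤ X) (hXu : X ≤ u) (huv : u ≤ v) (hv : v ≤ 4 * X) :
    ‖(L.map fun ρ => Complex.exp (ρ ^ 2 / (2 * Z)) * (((v : ℂ) ^ ρ - (u : ℂ) ^ ρ) / ρ)).sum‖
      ≤ 6 * X * zs L X := by
  refine (sum_map_le (g := fun ρ => (6 * X) * X ^ (ρ.re - 1)) ?_).trans ?_
  · intro ρ hρ
    obtain ⟨h1, h2⟩ := hL ρ hρ
    refine (zterm_bound ρ h1 h2 Z u v hZ (by linarith) huv).trans ?_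
    have e1 : u ^ (ρ.re - 1) ≤ X ^ (ρ.re - 1) :=
      Real.rpow_le_rpow_of_nonpos (by linarith) hXu (by linarith)
    have e2 : 0 ≤ X ^ (ρ.re - 1) := Real.rpow_nonneg (by linarith) _
    calc 2 * (v - u) * u ^ (ρ.re - 1) ≤ 2 * (v - u) * X ^ (ρ.re - 1) :=
          mul_le_mul_of_nonneg_left e1 (by linarith)
      _ ≤ 6 * X * X ^ (ρ.re - 1) := mul_le_mul_of_nonneg_right (by linarith) e2
  · rw [list_sum_mul]
    exact le_of_eq rfl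

theorem log4 (X : ℝ) (hX : 1 ≤ X) (v : ℝ) (hv1 : 1 ≤ v) (hv : v ≤ 4 * X) :
    2 * √v * Real.log v ≤ 18 * X ^ (19 / 20 : ℝ) := by
  have h1 : Real.log v ≤ v ^ (9 / 20 : ℝ) / (9 / 20) :=
    Real.log_le_rpow_div (by linarith) (by norm_num)
  have h2 : √v = v ^ (1 / 2 : ℝ) := Real.sqrt_eq_rpow v
  have h3 : 0 ≤ Real.log v := Real.log_nonneg hv1
  have h4 : 2 * √v * Real.log v ≤ 2 * v ^ (1 / 2 : ℝ) * (v ^ (9 / 20 : ℝ) / (9 / 20)) := by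
    rw [h2]
    exact mul_le_mul_of_nonneg_left h1 (by positivity)
  have h5 : v ^ (1 / 2 : ℝ) * v ^ (9 / 20 : ℝ) = v ^ (19 / 20 : ℝ) := by
    rw [← Real.rpow_add (by linarith)]
    norm_num
  have h6 : v ^ (19 / 20 : ℝ) ≤ 4 * X ^ (19 / 20 : ℝ) := by
    have e1 : v ^ (19 / 20 : ℝ) ≤ (4 * X) ^ (19 / 20 : ℝ) :=
      Real.rpow_le_rpow (by linarith) hv (by norm_num)
    rw [Real.mul_rpow (by norm_num) (by linarith)] at e1
    have e2 : (4 : ℝ) ^ (19 / 20 : ℝ) ≤ 4 ^ (1 : ℝ) :=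
      Real.rpow_le_rpow_of_exponent_le (by norm_num) (by norm_num)
    rw [Real.rpow_one] at e2
    exact e1.trans (mul_le_mul_of_nonneg_right e2 (Real.rpow_nonneg (by linarith) _))
  have h7 : 2 * v ^ (1 / 2 : ℝ) * (v ^ (9 / 20 : ℝ) / (9 / 20)) = 40 / 9 * v ^ (19 / 20 : ℝ) := by
    rw [← h5]
    ring
  rw [h7] at h4
  have h8 : 0 ≤ X ^ (19 / 20 : ℝ) := Real.rpow_nonneg (by linarith) _
  nlinarith

theorem eft (hEF : Stmt_EF) (hSP : Stmt_ZSPEC) : Stmt_EFT := by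
  obtain ⟨C, hC, h⟩ := hEF
  refine ⟨4 * C + 18, by linarith, ?_⟩
  intro Z hZ x hx X u v hX hXu huv hv hexp
  have hZ1 : (1 : ℝ) ≤ Z := by linarith
  have hur : (1 : ℝ) ≤ u := by linarith
  have huvr : (u : ℝ) ≤ v := by exact_mod_cast huv
  have hv1 : 1 ≤ v := by
    have : (1 : ℝ) ≤ v := by linarith
    exact_mod_cast this
  have h1 := h Z (by linarith) x hx u v hur huvr (hv.trans hexp)
  rw [Nat.floor_natCast, Nat.floor_natCast] at h1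
  have h2 := lam_th_sum x.2 u v hv1
  obtain ⟨_, _, hzl⟩ := hSP Z x (Pool.Agent.PS.Fam_pos hx).1.ne'
  have h3 := zsum6 (zl x Z) (fun ρ hρ => ⟨(hzl ρ hρ).2.1, (hzl ρ hρ).2.2.1.le⟩) Z u v X hZ1 hX hXu
    huvr hv
  have h4 := log4 X hX v (by linarith) hv
  set S : ℂ := ∑ n ∈ Ioc u v, (Λ n : ℂ) * x.2 (n : ZMod x.1) with hS
  set T : ℂ := ∑ n ∈ Ioc u v, (Pool.Agent.PS.th n : ℂ) * x.2 (n : ZMod x.1) with hT
  have hT' : ∑ n ∈ Ioc u v, (th n : ℂ) * x.2 (n : ZMod x.1) = T := rfl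
  rw [hT']
  set M : ℂ := (open Classical in if x.2 = 1 then (((v : ℝ) : ℂ) - ((u : ℝ) : ℂ)) else 0) with hM
  have hM1 : (open Classical in if x.2 = 1 then ((v : ℂ) - u) else 0) = M := by
    rw [hM]
    by_cases hx1 : x.2 = 1
    · simp [hx1]
    · simp [hx1]
  have hM2 : (open Classical in if x.2 = 1 then (((v : ℝ) - (u : ℝ) : ℝ) : ℂ) else 0) = M := by
    rw [hM]
    by_cases hx1 : x.2 = 1
    · simp [hx1]
    · simp [hx1]
  rw [hM1]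
  rw [hM2] at h1
  set U : ℂ := ((zl x Z).map fun ρ => Complex.exp (ρ ^ 2 / (2 * Z)) *
      ((((v : ℝ) : ℂ) ^ ρ - ((u : ℝ) : ℂ) ^ ρ) / ρ)).sum with hU
  have h3' : ‖U‖ ≤ 6 * X * zs (zl x Z) X := by
    have := h3
    rw [Complex.ofReal_natCast Z] at this
    exact this
  have h6 : T - M = (S - M + U) - (S - T) - U := by ring
  rw [h6]
  have n1 : ‖(S - M + U) - (S - T) - U‖ ≤ ‖S - M + U‖ + ‖S - T‖ + ‖U‖ :=
    (norm_sub_le _ _).trans (add_le_add_left (norm_sub_le _ _) _)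
  have hv20 : (v : ℝ) ^ (19 / 20 : ℝ) ≤ 4 * X ^ (19 / 20 : ℝ) := by
    have e1 : (v : ℝ) ^ (19 / 20 : ℝ) ≤ (4 * X) ^ (19 / 20 : ℝ) :=
      Real.rpow_le_rpow (by linarith) hv (by norm_num)
    rw [Real.mul_rpow (by norm_num) (by linarith)] at e1
    have e2 : (4 : ℝ) ^ (19 / 20 : ℝ) ≤ 4 ^ (1 : ℝ) :=
      Real.rpow_le_rpow_of_exponent_le (by norm_num) (by norm_num)
    rw [Real.rpow_one] at e2
    exact e1.trans (mul_le_mul_of_nonneg_right e2 (Real.rpow_nonneg (by linarith) _))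
  set A : ℝ := (Z : ℝ) ^ (-(1 / 3) : ℝ) with hA
  have hA0 : 0 ≤ A := Real.rpow_nonneg (by linarith) _
  set P : ℝ := X ^ (19 / 20 : ℝ) with hP
  have hP0 : 0 ≤ P := Real.rpow_nonneg (by linarith) _
  have hZ5 : 1 ≤ (Z : ℝ) ^ 5 := one_le_pow₀ hZ1
  have h7 : (v : ℝ) * A ≤ 4 * (X * A) := by nlinarith
  have h8 : (Z : ℝ) ^ 5 * (v : ℝ) ^ (19 / 20 : ℝ) ≤ 4 * ((Z : ℝ) ^ 5 * P) := by nlinarith
  have h9 : C * (v * A + (Z : ℝ) ^ 5 * (v : ℝ) ^ (19 / 20 : ℝ)) ≤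
      4 * C * (X * A + (Z : ℝ) ^ 5 * P) := by
    have := mul_le_mul_of_nonneg_left (add_le_add h7 h8) (by linarith : 0 ≤ C)
    linarith
  have h10 : 18 * P ≤ 18 * (X * A + (Z : ℝ) ^ 5 * P) := by
    have : P ≤ (Z : ℝ) ^ 5 * P := by nlinarith
    have h0 : 0 ≤ X * A := by positivity
    linarith
  have h11 : (4 * C + 18) * (X * A + (Z : ℝ) ^ 5 * P) =
    4 * C * (X * A + (Z : ℝ) ^ 5 * P) + 18 * (X * A + (Z : ℝ) ^ 5 * P) := by ring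
  rw [h11]
  linarith

end Pool.LGC
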