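import Pool.Agent.Work.MP_b0c12c_chain.InterfaceXA
import Pool.Agent.Work.MP_b0c12c_chain.B_EFT0

/-! # EFE: the explicit formula with the exceptional zero -/

set_option autoImplicit false

namespace Pool.LGC

open Finset Filter ArithmeticFunction
open Pool.Agent.PS (zs zl zx Exc Stmt_EF Stmt_ZSPEC lam_th_sum zs_nonneg exc_mem_zl exc_term
  erase_sum)

theorem efe (hEF : Stmt_EF) (hSP : Stmt_ZSPEC) : Stmt_EFE := by
  obtain ⟨C₁, hC₁, h₁⟩ := eft hEF hSP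
  obtain ⟨C, hC, h⟩ := hEF
  refine ⟨max C₁ (4 * C + 23), hC₁.trans (le_max_left _ _), ?_⟩
  intro Z hZ y δ hexc hδ X u v hX hXu huv hv hexp
  have hZC₁ : C₁ ≤ Z := (le_max_left _ _).trans hZ
  have hZC : 4 * C + 23 ≤ Z := (le_max_right _ _).trans hZ
  have hZ1 : (1 : ℝ) ≤ Z := by linarith
  have hur : (1 : ℝ) ≤ u := by linarith
  have huvr : (u : ℝ) ≤ v := by exact_mod_cast huv
  have hu1 : 1 ≤ u := by exact_mod_cast hur
  have hv1 : 1 ≤ v := hu1.trans huv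
  set R : ℝ := ∑ n ∈ Ioc u v, (n : ℝ) ^ (-δ) with hR
  have hR0 : 0 ≤ R := sum_nonneg fun n _ => Real.rpow_nonneg (Nat.cast_nonneg n) _
  have hRle : R ≤ (v : ℝ) - u := by
    have e1 : R ≤ ∑ n ∈ Ioc u v, (1 : ℝ) := by
      apply sum_le_sum
      intro n hn
      have hn1 : 1 ≤ n := by
        have := (mem_Ioc.1 hn).1
        omega
      exact Real.rpow_le_one_of_one_le_of_nonpos (by exact_mod_cast hn1) (by
        have := hexc.pos
        linarith)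
    rw [sum_const, Nat.card_Ioc, nsmul_eq_mul, mul_one, Nat.cast_sub huv] at e1
    exact e1
  refine ⟨R, hR0, hRle, ?_⟩
  intro x hx
  set A : ℝ := (Z : ℝ) ^ (-(1 / 3) : ℝ) with hA
  have hA0 : 0 ≤ A := Real.rpow_nonneg (by linarith) _
  set P : ℝ := X ^ (19 / 20 : ℝ) with hP
  have hP0 : 0 ≤ P := Real.rpow_nonneg (by linarith) _
  have hP1 : 1 ≤ P := Real.one_le_rpow hX (by norm_num)
  have hZ5 : 1 ≤ (Z : ℝ) ^ 5 := one_le_pow₀ hZ1
  have hT0 : 0 ≤ X * A + (Z : ℝ) ^ 5 * P := by positivity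
  by_cases hxy : x = y
  · subst hxy
    have hx1 : x.2 ≠ 1 := hexc.ne
    have hmem := exc_mem_zl hSP hexc hδ
    have h1 := h Z (by linarith) x hx u v hur huvr (hv.trans hexp)
    rw [Nat.floor_natCast, Nat.floor_natCast, if_neg hx1] at h1
    have h2 := lam_th_sum x.2 u v hv1
    obtain ⟨_, _, hzl⟩ := hSP Z x (Pool.Agent.PS.Fam_pos hx).1.ne'
    have hzx : zx Z x δ x = (zl x Z).erase ((1 - δ : ℝ) : ℂ) := by
      unfold Pool.Agent.PS.zx
      rw [if_pos rfl]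
    have h3 := zsum6 (zx Z x δ x) (fun ρ hρ => by
      rw [hzx] at hρ
      have := hzl ρ (List.mem_of_mem_erase hρ)
      exact ⟨this.2.1, this.2.2.1.le⟩) Z u v X hZ1 hX hXu huvr hv
    have h4 := log4 X hX v (by linarith) hv
    have h5 := exc_term δ hexc.pos.le hδ Z hZ1 u v hu1 huv
    set S : ℂ := ∑ n ∈ Ioc u v, (Λ n : ℂ) * x.2 (n : ZMod x.1) with hS
    set T : ℂ := ∑ n ∈ Ioc u v, (Pool.Agent.PS.th n : ℂ) * x.2 (n : ZMod x.1) with hT
    have hT' : ∑ n ∈ Ioc u v, (th n : ℂ) * x.2 (n : ZMod x.1) = T := rfl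
    rw [hT', if_neg hx1, if_pos rfl]
    set f : ℂ → ℂ := fun ρ => Complex.exp (ρ ^ 2 / (2 * Z)) *
      ((((v : ℝ) : ℂ) ^ ρ - ((u : ℝ) : ℂ) ^ ρ) / ρ) with hf
    have h6 := erase_sum (zl x Z) ((1 - δ : ℝ) : ℂ) hmem f
    rw [← hzx] at h6
    have h7 : T - -(R : ℂ) = (S - 0 + ((zl x Z).map f).sum) - (S - T)
        - ((zx Z x δ x).map f).sum + ((R : ℂ) - f ((1 - δ : ℝ) : ℂ)) := by
      rw [h6]
      ring
    rw [h7]
    refine (norm_add_le _ _).trans ?_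
    refine (add_le_add_left (norm_sub_le _ _) _).trans ?_
    refine (add_le_add_left (add_le_add_left (norm_sub_le _ _) _) _).trans ?_
    have h1' : ‖S - 0 + ((zl x Z).map f).sum‖ ≤
        C * (v * (Z : ℝ) ^ (-(1 / 3) : ℝ) + (Z : ℝ) ^ 5 * (v : ℝ) ^ (19 / 20 : ℝ)) := h1
    have h3' : ‖((zx Z x δ x).map f).sum‖ ≤ 6 * X * zs (zx Z x δ x) X := by
      have := h3
      rw [Complex.ofReal_natCast Z] at this
      exact this
    have h5' : ‖(R : ℂ) - f ((1 - δ : ℝ) : ℂ)‖ ≤ 1 + v / Z := by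
      have h5'' := h5
      rw [Complex.ofReal_natCast Z, ← Complex.ofReal_sum] at h5''
      exact h5''
    have hv20 : (v : ℝ) ^ (19 / 20 : ℝ) ≤ 4 * X ^ (19 / 20 : ℝ) := by
      have e1 : (v : ℝ) ^ (19 / 20 : ℝ) ≤ (4 * X) ^ (19 / 20 : ℝ) :=
        Real.rpow_le_rpow (by linarith) hv (by norm_num)
      rw [Real.mul_rpow (by norm_num) (by linarith)] at e1
      have e2 : (4 : ℝ) ^ (19 / 20 : ℝ) ≤ 4 ^ (1 : ℝ) :=
        Real.rpow_le_rpow_of_exponent_le (by norm_num) (by norm_num)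
      rw [Real.rpow_one] at e2
      exact e1.trans (mul_le_mul_of_nonneg_right e2 (Real.rpow_nonneg (by linarith) _))
    have k1 : (v : ℝ) * A ≤ 4 * (X * A) := by nlinarith
    have k2 : (Z : ℝ) ^ 5 * (v : ℝ) ^ (19 / 20 : ℝ) ≤ 4 * ((Z : ℝ) ^ 5 * P) := by nlinarith
    have k3 : C * (v * A + (Z : ℝ) ^ 5 * (v : ℝ) ^ (19 / 20 : ℝ)) ≤
        4 * C * (X * A + (Z : ℝ) ^ 5 * P) := by
      have := mul_le_mul_of_nonneg_left (add_le_add k1 k2) (by linarith : 0 ≤ C)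
      linarith
    have k4 : P ≤ (Z : ℝ) ^ 5 * P := by nlinarith
    have hXA : 0 ≤ X * A := by positivity
    have k5 : 18 * P ≤ 18 * (X * A + (Z : ℝ) ^ 5 * P) := by linarith
    have k6 : (v : ℝ) / Z ≤ 4 * (X * A) := by
      have e1 : 1 / (Z : ℝ) ≤ A := by
        rw [hA, one_div, ← Real.rpow_neg_one]
        exact Real.rpow_le_rpow_of_exponent_le hZ1 (by norm_num)
      calc (v : ℝ) / Z = v * (1 / Z) := by ring
        _ ≤ v * A := mul_le_mul_of_nonneg_left e1 (Nat.cast_nonneg v)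
        _ ≤ _ := k1
    have k7 : (1 : ℝ) + v / Z ≤ 5 * (X * A + (Z : ℝ) ^ 5 * P) := by linarith
    have k8 : (4 * C + 23) * (X * A + (Z : ℝ) ^ 5 * P) ≤
        max C₁ (4 * C + 23) * (X * A + (Z : ℝ) ^ 5 * P) :=
      mul_le_mul_of_nonneg_right (le_max_right _ _) hT0
    have k9 : (4 * C + 23) * (X * A + (Z : ℝ) ^ 5 * P) =
      4 * C * (X * A + (Z : ℝ) ^ 5 * P) + 18 * (X * A + (Z : ℝ) ^ 5 * P) +
        5 * (X * A + (Z : ℝ) ^ 5 * P) := by ring
    linarith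
  · have h2 := h₁ Z hZC₁ x hx X u v hX hXu huv hv hexp
    have hzx : zx Z y δ x = zl x Z := by
      unfold Pool.Agent.PS.zx
      rw [if_neg hxy]
    rw [hzx, if_neg hxy]
    refine h2.trans ?_
    have k8 : C₁ * (X * A + (Z : ℝ) ^ 5 * P) ≤
        max C₁ (4 * C + 23) * (X * A + (Z : ℝ) ^ 5 * P) :=
      mul_le_mul_of_nonneg_right (le_max_left _ _) hT0
    linarith

end Pool.LGC
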