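import Pool.Agent.Work.MP_b0c12c_chain.B_EFT0
import Pool.Agent.Work.PS.Main

/-! # EFT: the explicit formula for one character and the weight `th` -/

set_option autoImplicit false

namespace Pool.LGC

theorem p_EFT : Stmt_EFT := eft Pool.Agent.PS.main_ef Pool.Agent.PS.stmt_ZSPEC

end Pool.LGC
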