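import Pool.Agent.Work.MP_b0c12c_chain.Interface

/-! # Block FINK: the final theorem (helper73) -/

set_option autoImplicit false

namespace Pool.LGC

open Finset Filter

theorem FINK_tl : Tendsto (fun w : ℕ => Real.log w) atTop atTop :=
  Real.tendsto_log_atTop.comp tendsto_natCast_atTop_atTop

theorem FINK_tll : Tendsto (fun w : ℕ => Real.log (Real.log w)) atTop atTop :=
  Real.tendsto_log_atTop.comp FINK_tl

theorem FINK_tlll : Tendsto (fun w : ℕ => Real.log (Real.log (Real.log w))) atTop atTop :=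
  Real.tendsto_log_atTop.comp FINK_tll

/-- `A log t ≤ t` for large `t`. -/
theorem FINK_log (A : ℝ) : ∀ᶠ t : ℝ in atTop, A * Real.log t ≤ t := by
  have h := Real.isLittleO_log_id_atTop.bound (show (0 : ℝ) < 1 / (|A| + 1) by positivity)
  filter_upwards [h, eventually_ge_atTop (1 : ℝ)] with t ht ht1
  have hlog : 0 ≤ Real.log t := Real.log_nonneg ht1
  simp only [id, Real.norm_eq_abs, abs_of_nonneg hlog, abs_of_nonneg (by linarith : (0:ℝ) ≤ t)] at ht
  have h2 : (|A| + 1) * Real.log t ≤ t := by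
    have := mul_le_mul_of_nonneg_left ht (show 0 ≤ |A| + 1 by positivity)
    rwa [← mul_assoc, mul_one_div_cancel (by positivity), one_mul] at this
  have h3 : A * Real.log t ≤ (|A| + 1) * Real.log t :=
    mul_le_mul_of_nonneg_right (by linarith [le_abs_self A]) hlog
  linarith

/-- The factor of the length. -/
theorem FINK_G (κ' : ℝ) (hκ' : 0 < κ') : ∀ᶠ w : ℕ in atTop,
    5 ≤ κ' * (Real.log w ^ 2 * Real.log (Real.log (Real.log w)) / Real.log (Real.log w) ^ 2) ∧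
    κ' * (Real.log w ^ 2 * Real.log (Real.log (Real.log w)) / Real.log (Real.log w) ^ 2) ≤
      Real.log w ^ 2 := by
  have h1 : ∀ᶠ t : ℝ in atTop, 2 * Real.log t ≤ t := FINK_log 2
  have h2 : ∀ᶠ w : ℕ in atTop, 4 * Real.log (Real.log w) ≤ Real.log w := FINK_tl.eventually (FINK_log 4)
  have h3 : ∀ᶠ w : ℕ in atTop, Real.log (Real.log (Real.log w)) ≤ Real.log (Real.log w) := by
    filter_upwards [FINK_tll.eventually (FINK_log 1)] with w hw
    linarith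
  have h4 : ∀ᶠ t : ℝ in atTop, Real.log t ^ 2 ≤ t := by
    have h := Real.isLittleO_pow_log_id_atTop (n := 2)
    have h := h.bound (show (0 : ℝ) < 1 by norm_num)
    filter_upwards [h, eventually_ge_atTop (1 : ℝ)] with t ht ht1
    simp only [id, Real.norm_eq_abs, one_mul, abs_of_nonneg (by linarith : (0:ℝ) ≤ t)] at ht
    exact (le_abs_self _).trans ht
  filter_upwards [h2, h3, FINK_tl.eventually h4, FINK_tl.eventually (eventually_ge_atTop (5 / κ')),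
    FINK_tl.eventually (eventually_ge_atTop (1 : ℝ)), FINK_tll.eventually (eventually_ge_atTop κ'),
    FINK_tll.eventually (eventually_ge_atTop (1 : ℝ)),
    FINK_tlll.eventually (eventually_ge_atTop (1 : ℝ))] with w a2 a3 a4 a5 a6 a7 a8 a9
  set l1 := Real.log w with hl1
  set l2 := Real.log l1 with hl2
  set l3 := Real.log l2 with hl3
  have hl2p : 0 < l2 := by linarith
  have hl1p : 0 < l1 := by linarith
  constructor
  · have e1 : l1 ≤ l1 ^ 2 * l3 / l2 ^ 2 := by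
      rw [le_div_iff₀ (by positivity)]
      calc l1 * l2 ^ 2 ≤ l1 * l1 := mul_le_mul_of_nonneg_left a4 hl1p.le
        _ = l1 ^ 2 * 1 := by ring
        _ ≤ l1 ^ 2 * l3 := mul_le_mul_of_nonneg_left a9 (by positivity)
    have e2 := mul_le_mul_of_nonneg_left (a5.trans e1) hκ'.le
    rwa [mul_div_cancel₀ _ hκ'.ne'] at e2
  · rw [← mul_div_assoc, div_le_iff₀ (by positivity)]
    have e1 : κ' * l3 ≤ l2 * l2 := mul_le_mul a7 a3 (by linarith) (by linarith)
    nlinarith [mul_le_mul_of_nonneg_left e1 (sq_nonneg l1)]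

theorem p_FINK (h1 : Stmt_AN) (h2 : Stmt_SCK) (h3 : Stmt_RES) (h4 : Stmt_CHN)
    (h5 : Stmt_NUF) : Stmt_CHAIN := by
  obtain ⟨κA, hκA, hAN⟩ := h1 (1 / 8) (by norm_num)
  obtain ⟨κ₀, κ, C₁, hκ₀, hκ, hC₁, hS⟩ := h2 κA hκA
  obtain ⟨C, c, hC, hc, hR⟩ := h3
  obtain ⟨κ', hκ'def⟩ : ∃ κ' : ℝ, κ' = κ / (C * κ₀) := ⟨_, rfl⟩
  have hκ' : 0 < κ' := by rw [hκ'def]; positivity
  obtain ⟨c₅, X₅, hc₅, hN⟩ := h5 κ₀ κ' hκ₀ hκ'
  refine ⟨c * c₅ / (C₁ + 1), by positivity, fun k hk => ?_⟩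
  rw [frequently_atTop]
  intro N
  obtain ⟨J, hJdef⟩ : ∃ J : ℕ, J = ⌈C₁ * (k : ℝ) ^ 2⌉₊ := ⟨_, rfl⟩
  have hk1 : (1 : ℝ) ≤ k := by exact_mod_cast hk
  have hJ1 : C₁ * (k : ℝ) ^ 2 ≤ J := by rw [hJdef]; exact Nat.le_ceil _
  have hJ2 : (J : ℝ) ≤ (C₁ + 1) * (k : ℝ) ^ 2 := by
    have := Nat.ceil_lt_add_one (show 0 ≤ C₁ * (k : ℝ) ^ 2 by positivity)
    rw [← hJdef] at this
    nlinarith
  have hJ0 : (0 : ℝ) < J := lt_of_lt_of_le (by positivity) hJ1
  have hJn : 0 < J := by exact_mod_cast hJ0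
  obtain ⟨K₁, X₀, hK₁, hS'⟩ := hS k J hk hJ1
  -- eventual facts in `w`
  have hRw := hR J hJn
  have hw : ∀ᶠ w : ℕ in atTop, 4 * w ≤ HH κ' w ∧ (HH κ' w : ℝ) ≤ w * Real.log w ^ 2 ∧
      C * (HH κ' w * Real.log (Real.log w) ^ 2 /
        (Real.log w ^ 2 * Real.log (Real.log (Real.log w)))) ≤ C * κ' * w ∧
      κ' / 2 * (w / Real.log (Real.log w)) ≤ HH κ' w * Real.log (Real.log w) /
        (Real.log w ^ 2 * Real.log (Real.log (Real.log w))) := by
    filter_upwards [FINK_G κ' hκ', FINK_tl.eventually (eventually_ge_atTop (1 : ℝ)),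
      FINK_tll.eventually (eventually_ge_atTop (1 : ℝ)),
      FINK_tlll.eventually (eventually_ge_atTop (1 : ℝ)), eventually_ge_atTop 2] with
      w hG a6 a8 a9 a10
    set l1 := Real.log w with hl1
    set l2 := Real.log l1 with hl2
    set l3 := Real.log l2 with hl3
    have hw2 : (2 : ℝ) ≤ w := by exact_mod_cast a10
    obtain ⟨G, hG'⟩ : ∃ G : ℝ, G = l1 ^ 2 * l3 / l2 ^ 2 := ⟨_, rfl⟩
    rw [← hG'] at hG
    have hHdef : HH κ' w = ⌊κ' * (w * G)⌋₊ := by rw [hG']; rfl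
    have hG0 : 0 < G := by rw [hG']; positivity
    have e1 : (HH κ' w : ℝ) ≤ κ' * (w * G) := by rw [hHdef]; exact Nat.floor_le (by positivity)
    have e2 : κ' * (w * G) - 1 < HH κ' w := by
      rw [hHdef]; have := Nat.lt_floor_add_one (κ' * (w * G)); linarith
    have e3 : 5 * (w : ℝ) ≤ κ' * (w * G) := by nlinarith [hG.1]
    have e4 : κ' / 2 * (w * G) ≤ HH κ' w := by linarith
    refine ⟨?_, ?_, ?_, ?_⟩
    · have : (4 * w : ℝ) ≤ HH κ' w := by linarith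
      exact_mod_cast this
    · refine e1.trans ?_
      calc κ' * (w * G) = w * (κ' * G) := by ring
        _ ≤ w * l1 ^ 2 := mul_le_mul_of_nonneg_left hG.2 (by positivity)
    · have e5 : (HH κ' w : ℝ) * l2 ^ 2 / (l1 ^ 2 * l3) ≤ κ' * w := by
        rw [div_le_iff₀ (by positivity)]
        calc (HH κ' w : ℝ) * l2 ^ 2 ≤ κ' * (w * G) * l2 ^ 2 :=
              mul_le_mul_of_nonneg_right e1 (by positivity)
          _ = κ' * w * (l1 ^ 2 * l3) := by rw [hG']; field_simp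
      calc C * ((HH κ' w : ℝ) * l2 ^ 2 / (l1 ^ 2 * l3)) ≤ C * (κ' * w) :=
            mul_le_mul_of_nonneg_left e5 hC.le
        _ = C * κ' * w := by ring
    · rw [le_div_iff₀ (by positivity)]
      calc κ' / 2 * (w / l2) * (l1 ^ 2 * l3) = κ' / 2 * (w * G) * l2 := by
            rw [hG']; field_simp
        _ ≤ (HH κ' w : ℝ) * l2 := mul_le_mul_of_nonneg_right e4 (by positivity)
  -- transfer to the variable `L`
  have htw : Tendsto (fun L : ℝ => ⌊κ₀ * L⌋₊) atTop atTop :=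
    tendsto_nat_floor_atTop.comp (Tendsto.const_mul_atTop hκ₀ tendsto_id)
  have hL : ∀ᶠ L : ℝ in atTop, κ₀ * L / 2 ≤ (⌊κ₀ * L⌋₊ : ℝ) ∧ (⌊κ₀ * L⌋₊ : ℝ) ≤ κ₀ * L := by
    filter_upwards [eventually_ge_atTop (2 / κ₀), eventually_ge_atTop (0 : ℝ)] with L a1 a2
    have a3 : 2 ≤ κ₀ * L := by rw [div_le_iff₀ hκ₀] at a1; linarith
    have a4 := Nat.lt_floor_add_one (κ₀ * L)
    exact ⟨by linarith, Nat.floor_le (by positivity)⟩
  have hL2 : ∀ᶠ L : ℝ in atTop, Real.log κ₀ + Real.log L ≤ 2 * Real.log L :=  by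
    filter_upwards [Real.tendsto_log_atTop.eventually (eventually_ge_atTop (Real.log κ₀))] with L a1
    linarith
  obtain ⟨A, hA⟩ : ∃ A : ℝ, A = 4 * (K₁ + 1) / (c * κ' * κ₀) := ⟨_, rfl⟩
  have hL3 : ∀ᶠ L : ℝ in atTop, A * Real.log (2 * Real.log L) ≤ Real.log L := by
    have e := (Tendsto.const_mul_atTop (show (0 : ℝ) < 2 by norm_num)
      Real.tendsto_log_atTop).eventually (FINK_log (2 * A))
    filter_upwards [e] with L a1
    linarith
  have hL4 : ∀ᶠ L : ℝ in atTop, ((J : ℝ) / K₁ + J) * Real.log L ≤ L := FINK_log _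
  have hL5 : ∀ᶠ L : ℝ in atTop, κ₀ * L * (2 * Real.log L) ^ 2 ≤ L ^ 2 := by
    have h := (Real.isLittleO_pow_log_id_atTop (n := 2)).bound
      (show (0 : ℝ) < 1 / (4 * κ₀) by positivity)
    filter_upwards [h, eventually_ge_atTop (1 : ℝ)] with L a1 a2
    simp only [id, Real.norm_eq_abs, abs_of_nonneg (by linarith : (0:ℝ) ≤ L)] at a1
    have a3 : Real.log L ^ 2 ≤ 1 / (4 * κ₀) * L := (le_abs_self _).trans a1
    have a4 : κ₀ * L * (2 * Real.log L) ^ 2 = (4 * κ₀ * L) * Real.log L ^ 2 := by ring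
    rw [a4]
    calc (4 * κ₀ * L) * Real.log L ^ 2 ≤ (4 * κ₀ * L) * (1 / (4 * κ₀) * L) :=
          mul_le_mul_of_nonneg_left a3 (by positivity)
      _ = L ^ 2 := by field_simp
  have hall : ∀ᶠ X : ℝ in atTop, X₀ ≤ X ∧ X₅ ≤ X ∧ (Nat.nth Nat.Prime N : ℝ) ≤ X ∧
      1 ≤ Real.log X ∧ 1 ≤ Real.log (Real.log X) ∧
      (∀ H : ℕ, 4 * ⌊κ₀ * Real.log X⌋₊ ≤ H →
        (H : ℝ) ≤ (⌊κ₀ * Real.log X⌋₊ : ℝ) * Real.log (⌊κ₀ * Real.log X⌋₊ : ℝ) ^ 2 →
        ∃ v < primorial ⌊κ₀ * Real.log X⌋₊, ∃ E : Fin J → Finset ℕ, (∀ i, E i ⊆ Icc 1 H) ∧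
          (∀ i, ∀ h ∈ E i, (v + h).Coprime (primorial ⌊κ₀ * Real.log X⌋₊)) ∧
          (∀ i j, i ≠ j → ∀ h ∈ E i, ∀ h' ∈ E j, c / J * H ≤ |(h : ℝ) - h'|) ∧
          (∀ i, c / J * (H * Real.log (Real.log (⌊κ₀ * Real.log X⌋₊ : ℝ)) /
            (Real.log (⌊κ₀ * Real.log X⌋₊ : ℝ) ^ 2 *
              Real.log (Real.log (Real.log (⌊κ₀ * Real.log X⌋₊ : ℝ))))) ≤ ((E i).card : ℝ)) ∧
          (((Icc 1 H).filter
            (fun h => (v + h).Coprime (primorial ⌊κ₀ * Real.log X⌋₊))).card : ℝ) ≤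
            C * (H * Real.log (Real.log (⌊κ₀ * Real.log X⌋₊ : ℝ)) ^ 2 /
              (Real.log (⌊κ₀ * Real.log X⌋₊ : ℝ) ^ 2 *
                Real.log (Real.log (Real.log (⌊κ₀ * Real.log X⌋₊ : ℝ)))))) ∧
      (4 * ⌊κ₀ * Real.log X⌋₊ ≤ HH κ' ⌊κ₀ * Real.log X⌋₊ ∧
        (HH κ' ⌊κ₀ * Real.log X⌋₊ : ℝ) ≤
          (⌊κ₀ * Real.log X⌋₊ : ℝ) * Real.log (⌊κ₀ * Real.log X⌋₊ : ℝ) ^ 2 ∧
        C * (HH κ' ⌊κ₀ * Real.log X⌋₊ * Real.log (Real.log (⌊κ₀ * Real.log X⌋₊ : ℝ)) ^ 2 /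
          (Real.log (⌊κ₀ * Real.log X⌋₊ : ℝ) ^ 2 *
            Real.log (Real.log (Real.log (⌊κ₀ * Real.log X⌋₊ : ℝ))))) ≤
          C * κ' * (⌊κ₀ * Real.log X⌋₊ : ℝ) ∧
        κ' / 2 * ((⌊κ₀ * Real.log X⌋₊ : ℝ) / Real.log (Real.log (⌊κ₀ * Real.log X⌋₊ : ℝ))) ≤
          HH κ' ⌊κ₀ * Real.log X⌋₊ * Real.log (Real.log (⌊κ₀ * Real.log X⌋₊ : ℝ)) /
          (Real.log (⌊κ₀ * Real.log X⌋₊ : ℝ) ^ 2 *
            Real.log (Real.log (Real.log (⌊κ₀ * Real.log X⌋₊ : ℝ))))) ∧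
      (κ₀ * Real.log X / 2 ≤ (⌊κ₀ * Real.log X⌋₊ : ℝ) ∧
        (⌊κ₀ * Real.log X⌋₊ : ℝ) ≤ κ₀ * Real.log X) ∧
      Real.log κ₀ + Real.log (Real.log X) ≤ 2 * Real.log (Real.log X) ∧
      A * Real.log (2 * Real.log (Real.log X)) ≤ Real.log (Real.log X) ∧
      ((J : ℝ) / K₁ + J) * Real.log (Real.log X) ≤ Real.log X ∧
      κ₀ * Real.log X * (2 * Real.log (Real.log X)) ^ 2 ≤ Real.log X ^ 2 ∧
      3 ≤ (⌊κ₀ * Real.log X⌋₊ : ℝ) ∧ 1 ≤ Real.log (Real.log (⌊κ₀ * Real.log X⌋₊ : ℝ)) := by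
    have tl := Real.tendsto_log_atTop
    have t2 := htw.comp tl
    refine (eventually_ge_atTop X₀).and ((eventually_ge_atTop X₅).and
      ((eventually_ge_atTop _).and ((tl.eventually (eventually_ge_atTop 1)).and
      (((tl.comp tl).eventually (eventually_ge_atTop 1)).and
      ((t2.eventually hRw).and ((t2.eventually hw).and ((tl.eventually hL).and
      ((tl.eventually hL2).and ((tl.eventually hL3).and ((tl.eventually hL4).and
      ((tl.eventually hL5).and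
      ((t2.eventually ((tendsto_natCast_atTop_atTop (R := ℝ)).eventually
        (eventually_ge_atTop 3))).and
        (t2.eventually (FINK_tll.eventually (eventually_ge_atTop 1)))))))))))))))
  obtain ⟨X₁, hX₁⟩ := eventually_atTop.1 hall
  obtain ⟨X, hXX₁, hXgood⟩ := hAN X₁
  obtain ⟨b1, b2, b3, b4, b5, b6, ⟨b71, b72, b73, b74⟩, ⟨b81, b82⟩, b9, b10, b11, b12, b13, b14⟩ :=
    hX₁ X hXX₁
  clear hall hL hL2 hL3 hL4 hL5 hw hRw htw hX₁
  obtain ⟨L, hLdef⟩ : ∃ L : ℝ, L = Real.log X := ⟨_, rfl⟩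
  obtain ⟨w, hwdef⟩ : ∃ w : ℕ, w = ⌊κ₀ * Real.log X⌋₊ := ⟨_, rfl⟩
  rw [← hwdef] at b6 b71 b72 b73 b74 b81 b82 b13 b14
  rw [← hLdef] at b4 b5 b81 b82 b9 b10 b11 b12
  obtain ⟨v, hv, E', hE1, hE2, hE3, hE4, hE5⟩ := b6 (HH κ' w) b71 b72
  obtain ⟨H, hHdef⟩ : ∃ H : ℕ, H = HH κ' w := ⟨_, rfl⟩
  rw [← hHdef] at b71 b72 b73 b74 hE1 hE3 hE4 hE5
  have hL0 : 0 < L := by linarith
  have hlL0 : 0 < Real.log L := by linarith
  have hw0 : (0 : ℝ) < w := by linarith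
  -- the size of the clusters
  obtain ⟨n, hn⟩ : ∃ n : ℕ, n = ⌈K₁ * (L / Real.log L) / J⌉₊ := ⟨_, rfl⟩
  have hn1 : K₁ * (L / Real.log L) / J ≤ n := by rw [hn]; exact Nat.le_ceil _
  have hn2 : (n : ℝ) < K₁ * (L / Real.log L) / J + 1 := by
    rw [hn]; exact Nat.ceil_lt_add_one (by positivity)
  have hJL' : (J : ℝ) / K₁ + J ≤ L / Real.log L := by rw [le_div_iff₀ hlL0]; exact b11
  have hJL : (J : ℝ) ≤ L / Real.log L := by
    have : 0 ≤ (J : ℝ) / K₁ := by positivity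
    linarith
  have hJK : (J : ℝ) ≤ K₁ * (L / Real.log L) := by
    have h : (J : ℝ) / K₁ ≤ L / Real.log L := by linarith
    rw [div_le_iff₀ hK₁] at h
    linarith
  have hlw0 : 0 ≤ Real.log w := Real.log_nonneg (by linarith)
  have hlw : Real.log w ≤ 2 * Real.log L := by
    have e1 : Real.log w ≤ Real.log (κ₀ * L) := Real.log_le_log hw0 b82
    rw [Real.log_mul hκ₀.ne' hL0.ne'] at e1
    linarith
  have hlw1 : 0 < Real.log w := Real.log_pos (by linarith)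
  have hllw : Real.log (Real.log w) ≤ Real.log (2 * Real.log L) := Real.log_le_log hlw1 hlw
  have hl2 : 0 < Real.log (2 * Real.log L) := by linarith
  have hcard : ∀ i, n ≤ (E' i).card := by
    intro i
    have e0 := hE4 i
    have e1 : c / J * (κ' / 2 * (w / Real.log (Real.log w))) ≤ ((E' i).card : ℝ) :=
      (mul_le_mul_of_nonneg_left b74 (by positivity)).trans e0
    have e2 : κ₀ * L / 2 / Real.log (2 * Real.log L) ≤ w / Real.log (Real.log w) :=
      div_le_div₀ hw0.le b81 (by linarith) hllw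
    have e3 : A / Real.log L ≤ 1 / Real.log (2 * Real.log L) := by
      rw [div_le_div_iff₀ hlL0 hl2]
      linarith
    have e4 : K₁ * (L / Real.log L) / J + 1 ≤ c / J * (κ' / 2 * (w / Real.log (Real.log w))) := by
      calc K₁ * (L / Real.log L) / J + 1 ≤ K₁ * (L / Real.log L) / J + (L / Real.log L) / J := by
            have : 1 ≤ (L / Real.log L) / J := by rw [le_div_iff₀ hJ0]; linarith
            linarith
        _ = c / J * (κ' / 2 * (κ₀ * L / 2 * (A / Real.log L))) := by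
            rw [hA]; field_simp; ring
        _ ≤ c / J * (κ' / 2 * (κ₀ * L / 2 * (1 / Real.log (2 * Real.log L)))) := by gcongr
        _ = c / J * (κ' / 2 * (κ₀ * L / 2 / Real.log (2 * Real.log L))) := by ring
        _ ≤ _ := by gcongr
    have e5 : (n : ℝ) < ((E' i).card : ℝ) := by linarith
    exact_mod_cast e5.le
  choose E hEs hEc using fun i => Finset.exists_subset_card_eq (hcard i)
  have hH0 : (0 : ℝ) < H := by
    have : (4 * w : ℝ) ≤ H := by exact_mod_cast b71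
    linarith
  have hdisj : ∀ i j, i ≠ j → Disjoint (E i) (E j) := by
    intro i j hij
    rw [Finset.disjoint_left]
    intro h hi hj
    have e := hE3 i j hij h (hEs i hi) h (hEs j hj)
    rw [sub_self, abs_zero] at e
    have : 0 < c / J * (H : ℝ) := by positivity
    linarith
  have hHL : (H : ℝ) ≤ Real.log X ^ 2 := by
    rw [← hLdef]
    refine b72.trans (le_trans ?_ b12)
    exact mul_le_mul b82 (pow_le_pow_left₀ hlw0 hlw 2) (by positivity) (by positivity)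
  have htot : (((Icc 1 H).filter (fun h => (v + h).Coprime (primorial w))).card : ℝ) ≤
      κ * Real.log X := by
    rw [← hLdef]
    refine hE5.trans (b73.trans ?_)
    calc C * κ' * w ≤ C * κ' * (κ₀ * L) := mul_le_mul_of_nonneg_left b82 (by positivity)
      _ = κ * L := by rw [hκ'def]; field_simp
  have hJn1 : K₁ * (Real.log X / Real.log (Real.log X)) ≤ (J : ℝ) * n := by
    rw [← hLdef]
    rw [div_le_iff₀ hJ0] at hn1
    linarith
  have hJn2 : (J : ℝ) * n ≤ 2 * K₁ * (Real.log X / Real.log (Real.log X)) := by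
    rw [← hLdef]
    have e := mul_le_mul_of_nonneg_left hn2.le hJ0.le
    have e' : (J : ℝ) * (K₁ * (L / Real.log L) / J + 1) = K₁ * (L / Real.log L) + J := by
      field_simp
    rw [e'] at e
    linarith
  obtain ⟨a, ha1, ha2, ha3, ha4, ha5⟩ := hS' X b1 hXgood w v H n E hwdef hv hHL
    (fun i => (hEs i).trans (hE1 i)) (fun i h hh => hE2 i h (hEs i hh)) hdisj hEc hJn1 hJn2 htot
  have hcnt : k + 1 ≤ ((Ioc a (a + H)).filter Nat.Prime).card := by
    refine ha5.trans ?_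
    refine Finset.card_le_card_of_injOn (fun h => a + h) ?_ ?_
    · intro h hh
      rw [Finset.mem_coe, Finset.mem_filter, Finset.mem_biUnion] at hh
      obtain ⟨⟨i, -, hi⟩, hp⟩ := hh
      have := Finset.mem_Icc.1 (hE1 i (hEs i hi))
      rw [Finset.mem_coe, Finset.mem_filter, Finset.mem_Ioc]
      refine ⟨⟨?_, ?_⟩, hp⟩
      · show a < a + h
        omega
      · show a + h ≤ a + H
        omega
    · intro h _ h' _ he
      simpa using he
  obtain ⟨n', hn'1, hn'2, hn'3⟩ := h4 a H k (c / J * H) hcnt (by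
    intro p hp q hq hpq
    rw [Finset.mem_filter] at hp hq
    obtain ⟨i, h, hi, rfl⟩ := ha3 p hp.1 hp.2
    obtain ⟨j, h', hj, rfl⟩ := ha3 q hq.1 hq.2
    have hij : i ≠ j := by
      rintro rfl
      have e := Finset.card_le_one.1 (ha4 i) h (Finset.mem_filter.2 ⟨hi, hp.2⟩) h'
        (Finset.mem_filter.2 ⟨hj, hq.2⟩)
      omega
    have e := hE3 i j hij h (hEs i hi) h' (hEs j hj)
    have hlt : (h : ℝ) < h' := by exact_mod_cast (by omega : h < h')
    rw [abs_of_neg (by linarith)] at e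
    push_cast
    linarith)
  have hinf := Nat.infinite_setOfPred_prime
  refine ⟨n', ?_, fun i hi => ?_⟩
  · have e : Nat.nth Nat.Prime N < Nat.nth Nat.Prime n' := by
      have e1 : (Nat.nth Nat.Prime N : ℝ) ≤ a := b3.trans ha1
      have e2 : Nat.nth Nat.Prime N ≤ a := by exact_mod_cast e1
      omega
    exact ((Nat.nth_lt_nth hinf).1 e).le
  · refine le_trans ?_ (hn'3 i hi)
    have e1 : X ≤ (Nat.nth Nat.Prime n' : ℝ) := by
      have : (a : ℝ) ≤ (Nat.nth Nat.Prime n' : ℝ) := by exact_mod_cast hn'1.le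
      linarith
    have e2 : (Nat.nth Nat.Prime n' : ℝ) ≤ 4 * X := by
      have h1 : Nat.nth Nat.Prime n' ≤ Nat.nth Nat.Prime (n' + k) :=
        (Nat.nth_le_nth hinf).2 (by omega)
      have h2 : (Nat.nth Nat.Prime n' : ℝ) ≤ ((a + H : ℕ) : ℝ) := by
        exact_mod_cast h1.trans hn'2
      linarith
    have e3 := hN X b2 _ e1 e2
    rw [← hwdef, ← hHdef] at e3
    calc c * c₅ / (C₁ + 1) / (k : ℝ) ^ 2 * ff (Nat.nth Nat.Prime n')
        = c / ((C₁ + 1) * (k : ℝ) ^ 2) * (c₅ * ff (Nat.nth Nat.Prime n')) := by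
          field_simp
      _ ≤ c / ((C₁ + 1) * (k : ℝ) ^ 2) * H := mul_le_mul_of_nonneg_left e3 (by positivity)
      _ ≤ c / J * H := by gcongr

end Pool.LGC
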