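import Pool.Agent.Work.MP_b0c12c_chain.InterfaceY
import Pool.Agent.Work.MP_b0c12c_chain.B_FINK

/-! # Block FINJ: the joint theorem for all large `X` (helper73, after FINL of helper41) -/

set_option autoImplicit false

namespace Pool.LGC

open Finset Filter

/-- Eventual facts in `w`. -/
theorem FINJ_w (C κ' : ℝ) (hC : 0 < C) (hκ' : 0 < κ') : ∀ᶠ w : ℕ in atTop,
    4 * w ≤ HH κ' w ∧ (HH κ' w : ℝ) ≤ w * Real.log w ^ 2 ∧
      C * (HH κ' w * Real.log (Real.log w) ^ 2 /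
        (Real.log w ^ 2 * Real.log (Real.log (Real.log w)))) ≤ C * κ' * w ∧
      κ' / 2 * (w / Real.log (Real.log w)) ≤ HH κ' w * Real.log (Real.log w) /
        (Real.log w ^ 2 * Real.log (Real.log (Real.log w))) ∧
      (w : ℝ) + 2 ≤ HH κ' w / 8 := by
  filter_upwards [FINK_G (κ' / 10) (by positivity), FINK_G κ' hκ',
    FINK_tl.eventually (eventually_ge_atTop (1 : ℝ)),
    FINK_tll.eventually (eventually_ge_atTop (1 : ℝ)),
    FINK_tlll.eventually (eventually_ge_atTop (1 : ℝ)), eventually_ge_atTop 2] with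
    w hG1 hG a6 a8 a9 a10
  set l1 := Real.log w with hl1
  set l2 := Real.log l1 with hl2
  set l3 := Real.log l2 with hl3
  have hw2 : (2 : ℝ) ≤ w := by exact_mod_cast a10
  obtain ⟨G, hG'⟩ : ∃ G : ℝ, G = l1 ^ 2 * l3 / l2 ^ 2 := ⟨_, rfl⟩
  rw [← hG'] at hG hG1
  have hHdef : HH κ' w = ⌊κ' * (w * G)⌋₊ := by rw [hG']; rfl
  have hG0 : 0 < G := by rw [hG']; positivity
  have e1 : (HH κ' w : ℝ) ≤ κ' * (w * G) := by rw [hHdef]; exact Nat.floor_le (by positivity)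
  have e2 : κ' * (w * G) - 1 < HH κ' w := by
    rw [hHdef]; have := Nat.lt_floor_add_one (κ' * (w * G)); linarith
  have e3 : 50 * (w : ℝ) ≤ κ' * (w * G) := by nlinarith [hG1.1]
  have e4 : κ' / 2 * (w * G) ≤ HH κ' w := by linarith
  refine ⟨?_, ?_, ?_, ?_, ?_⟩
  · have : (4 * w : ℝ) ≤ HH κ' w := by linarith
    exact_mod_cast this
  · refine e1.trans ?_
    calc κ' * (w * G) = w * (κ' * G) := by ring
      _ ≤ w * l1 ^ 2 := mul_le_mul_of_nonneg_left hG.2 (by positivity)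
  · have e5 : (HH κ' w : ℝ) * l2 ^ 2 / (l1 ^ 2 * l3) ≤ κ' * w := by
      rw [div_le_iff₀ (by positivity)]
      calc (HH κ' w : ℝ) * l2 ^ 2 ≤ κ' * (w * G) * l2 ^ 2 :=
            mul_le_mul_of_nonneg_right e1 (by positivity)
        _ = κ' * w * (l1 ^ 2 * l3) := by rw [hG']; field_simp
    calc C * ((HH κ' w : ℝ) * l2 ^ 2 / (l1 ^ 2 * l3)) ≤ C * (κ' * w) :=
          mul_le_mul_of_nonneg_left e5 hC.le
      _ = C * κ' * w := by ring
  · rw [le_div_iff₀ (by positivity)]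
    calc κ' / 2 * (w / l2) * (l1 ^ 2 * l3) = κ' / 2 * (w * G) * l2 := by
          rw [hG']; field_simp
      _ ≤ (HH κ' w : ℝ) * l2 := mul_le_mul_of_nonneg_right e4 (by positivity)
  · linarith

/-- The smallest gap. -/
theorem FINJ_gap (J : ℕ) (hJ : 0 < J) (b : Fin J → ℝ) (hb : StrictMono b) :
    ∃ g : ℝ, 0 < g ∧ ∀ i j, i < j → g ≤ b j - b i := by
  have : Nonempty (Fin J × Fin J) := ⟨(⟨0, hJ⟩, ⟨0, hJ⟩)⟩
  obtain ⟨p, hp⟩ := Finite.exists_min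
    (fun p : Fin J × Fin J => if p.1 < p.2 then b p.2 - b p.1 else 1)
  refine ⟨if p.1 < p.2 then b p.2 - b p.1 else 1, ?_, ?_⟩
  · split_ifs with h
    · have := hb h; linarith
    · norm_num
  · intro i j hij
    have := hp (i, j)
    simp only [if_pos hij] at this
    exact this

/-- The intervals. -/
theorem FINJ_pos {J : ℕ} (b : Fin J → ℝ) (g η δ CU c₅ F : ℝ) (w H d : ℕ)
    (hδ : 0 < δ) (hδ1 : δ ≤ 1 / 8) (hδ2 : δ * CU ≤ g / 4) (hδ3 : δ * CU ≤ η / 4)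
    (hgap : ∀ i j, i < j → g ≤ b j - b i) (hb2 : ∀ i, 0 ≤ b i ∧ b i ≤ c₅ / 2) (hF0 : 0 < F)
    (hUX : (H : ℝ) ≤ CU * F) (hNX : c₅ * F ≤ H) (hdR : (d : ℝ) ≤ δ * H) (hgF : 8 ≤ g * F)
    (b75 : (w : ℝ) + 2 ≤ H / 8) :
    (d : ℝ) ≤ η / 4 * F ∧ ∃ x : Fin J → ℕ, (∀ i, w ≤ x i) ∧ (∀ i, (w : ℝ) + b i * F ≤ x i) ∧
      (∀ i, (x i : ℝ) ≤ w + b i * F + 1) ∧ (∀ i, x i + d ≤ H) ∧
      ∀ i j, i < j → x i + d < x j := by
  have hH0 : (0 : ℝ) ≤ H := Nat.cast_nonneg H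
  have hdg : (d : ℝ) ≤ g / 4 * F := by
    calc (d : ℝ) ≤ δ * (CU * F) := hdR.trans (mul_le_mul_of_nonneg_left hUX hδ.le)
      _ = (δ * CU) * F := by ring
      _ ≤ g / 4 * F := mul_le_mul_of_nonneg_right hδ2 hF0.le
  have hdη : (d : ℝ) ≤ η / 4 * F := by
    calc (d : ℝ) ≤ δ * (CU * F) := hdR.trans (mul_le_mul_of_nonneg_left hUX hδ.le)
      _ = (δ * CU) * F := by ring
      _ ≤ η / 4 * F := mul_le_mul_of_nonneg_right hδ3 hF0.le
  refine ⟨hdη, ?_⟩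
  obtain ⟨x, hx⟩ : ∃ x : Fin J → ℕ, ∀ i, x i = w + ⌈b i * F⌉₊ := ⟨_, fun i => rfl⟩
  have hxl : ∀ i, (w : ℝ) + b i * F ≤ x i := by
    intro i; rw [hx i]; push_cast
    have := Nat.le_ceil (b i * F)
    linarith
  have hxu : ∀ i, (x i : ℝ) ≤ (w : ℝ) + b i * F + 1 := by
    intro i; rw [hx i]; push_cast
    have := Nat.ceil_lt_add_one (show 0 ≤ b i * F from mul_nonneg (hb2 i).1 hF0.le)
    linarith
  refine ⟨x, fun i => by rw [hx i]; omega, hxl, hxu, fun i => ?_, fun i j hij => ?_⟩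
  · have e1 : b i * F ≤ H / 2 := by
      calc b i * F ≤ c₅ / 2 * F := mul_le_mul_of_nonneg_right (hb2 i).2 hF0.le
        _ = c₅ * F / 2 := by ring
        _ ≤ H / 2 := by linarith
    have e2 : δ * H ≤ 1 / 8 * H := mul_le_mul_of_nonneg_right hδ1 hH0
    have e3 : ((x i + d : ℕ) : ℝ) ≤ H := by
      push_cast
      have := hxu i
      linarith
    exact_mod_cast e3
  · have e1 := hgap i j hij
    have e2 : g * F ≤ (b j - b i) * F := mul_le_mul_of_nonneg_right e1 hF0.le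
    have e3 : ((x i + d : ℕ) : ℝ) < x j := by
      push_cast
      have h1 := hxu i
      have h2 := hxl j
      linarith
    exact_mod_cast e3

/-- The clusters are large enough. -/
theorem FINJ_card {c κ' κ₀ K₁ A L lw w J : ℝ} (hc : 0 < c) (hκ' : 0 < κ') (hκ₀ : 0 < κ₀)
    (hK₁ : 0 < K₁) (hJ0 : 0 < J) (hw0 : 0 < w) (hL0 : 0 < L) (hlL0 : 0 < Real.log L)
    (hA : A = 4 * (K₁ + 1) / (c * J * κ' * κ₀)) (hJL : J ≤ L / Real.log L)
    (b81 : κ₀ * L / 2 ≤ w) (hlw1 : 1 ≤ lw) (hllw : lw ≤ Real.log (2 * Real.log L))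
    (b10 : A * Real.log (2 * Real.log L) ≤ Real.log L) :
    K₁ * (L / Real.log L) / J + 1 ≤ c * (κ' / 2 * (w / lw)) := by
  have hl2 : 0 < Real.log (2 * Real.log L) := by linarith
  have e2 : κ₀ * L / 2 / Real.log (2 * Real.log L) ≤ w / lw :=
    div_le_div₀ hw0.le b81 (by linarith) hllw
  have e3 : A / Real.log L ≤ 1 / Real.log (2 * Real.log L) := by
    rw [div_le_div_iff₀ hlL0 hl2]
    linarith
  calc K₁ * (L / Real.log L) / J + 1 ≤ K₁ * (L / Real.log L) / J + (L / Real.log L) / J := by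
        have : 1 ≤ (L / Real.log L) / J := by rw [le_div_iff₀ hJ0]; linarith
        linarith
    _ = c * (κ' / 2 * (κ₀ * L / 2 * (A / Real.log L))) := by
        rw [hA]; field_simp; ring
    _ ≤ c * (κ' / 2 * (κ₀ * L / 2 * (1 / Real.log (2 * Real.log L)))) := by gcongr
    _ = c * (κ' / 2 * (κ₀ * L / 2 / Real.log (2 * Real.log L))) := by ring
    _ ≤ _ := by gcongr

/-- The statement of RESQ at `w`. -/
def RQ (C c δ : ℝ) (J D₁ w : ℕ) : Prop :=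
  ∀ H : ℕ, 4 * w ≤ H → (H : ℝ) ≤ w * Real.log w ^ 2 →
    ∀ χ : DirichletCharacter ℂ (primorial w), χ ^ 2 = 1 → (χ = 1 ∨ D₁ ≤ χ.conductor) →
    ∀ x : Fin J → ℕ, (∀ i, w ≤ x i ∧ x i + ⌊δ * H⌋₊ ≤ H) →
    ∃ v < primorial w, ∃ E : Fin J → Finset ℕ, (∀ i, E i ⊆ Ioc (x i) (x i + ⌊δ * H⌋₊)) ∧
      (∀ i, ∀ h ∈ E i, (v + h).Coprime (primorial w)) ∧
      (χ ≠ 1 → ∀ i, ∀ h ∈ E i, χ ((v + h : ℕ) : ZMod (primorial w)) = -1) ∧
      (∀ i, c * (H * Real.log (Real.log w) /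
        (Real.log w ^ 2 * Real.log (Real.log (Real.log w)))) ≤ ((E i).card : ℝ)) ∧
      (((Icc 1 H).filter (fun h => (v + h).Coprime (primorial w))).card : ℝ) ≤
        C * (H * Real.log (Real.log w) ^ 2 /
          (Real.log w ^ 2 * Real.log (Real.log (Real.log w))))

/-- The real character modulo `W` attached to the exceptional character. -/
theorem FINJ_chi (h8 : Stmt_CHX) (h9 : Stmt_CHC) (y : Ch) (W D₁ : ℕ) (hy0 : 0 < y.1)
    (hW : 0 < W) (hy2 : y.2 ^ 2 = 1) (hyp : y.2.IsPrimitive) (hyD : y.2 = 1 ∨ D₁ ≤ y.1) :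
    ∃ χ : DirichletCharacter ℂ W, χ ^ 2 = 1 ∧ (χ = 1 ∨ D₁ ≤ χ.conductor) ∧
      (y.2 ≠ 1 → ∀ χ' : DirichletCharacter ℂ W,
        (∀ n : ℕ, n.Coprime (W * y.1) → y.2 (n : ZMod y.1) = χ' (n : ZMod W)) →
        χ' = χ ∧ χ ≠ 1) := by
  by_cases hy : y.2 = 1
  · exact ⟨1, one_pow 2, Or.inl rfl, fun h => absurd hy h⟩
  · by_cases hex : ∃ χ : DirichletCharacter ℂ W,
      ∀ n : ℕ, n.Coprime (W * y.1) → y.2 (n : ZMod y.1) = χ (n : ZMod W)
    · obtain ⟨χ, hχ⟩ := hex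
      obtain ⟨a1, a2, a3⟩ := h8 y W hy0 hW hy2 hy χ hχ
      have a4 := h9 y W hy0 hW hyp χ hχ
      exact ⟨χ, a1, Or.inr ((hyD.resolve_left hy).trans a4), fun _ χ' hχ' => ⟨a3 χ' hχ', a2⟩⟩
    · exact ⟨1, one_pow 2, Or.inl rfl, fun _ χ' hχ' => absurd ⟨χ', hχ'⟩ hex⟩

theorem FINJ_scale (h1 : Stmt_ANF) (h2 : Stmt_SCKE) (h3 : Stmt_RESQ) (h4 : Stmt_CHL)
    (h5 : Stmt_NUF) (h6 : Stmt_NUG) (h8 : Stmt_CHX) (h9 : Stmt_CHC) :
    ∃ C₁ κf : ℝ, 0 < κf ∧ ∀ k J : ℕ, 1 ≤ k → C₁ * k ^ 2 ≤ J → ∀ b : Fin J → ℝ, StrictMono b →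
      (∀ i, 0 ≤ b i ∧ b i ≤ κf) → ∀ η : ℝ, 0 < η → ∀ᶠ X : ℝ in atTop,
      ∃ (n : ℕ) (i : Fin (k + 1) → Fin J), StrictMono i ∧
        X ≤ Nat.nth Nat.Prime n ∧ (Nat.nth Nat.Prime (n + k) : ℝ) ≤ 4 * X ∧
        ∀ j : Fin k, |((Nat.nth Nat.Prime (n + j + 1) : ℝ) - Nat.nth Nat.Prime (n + j)) -
          (b (i j.succ) - b (i j.castSucc)) * ff X| ≤ η * ff X := by
  obtain ⟨κA, hκA, hAN⟩ := h1 (1 / 8) (by norm_num)
  obtain ⟨κ₀, κ, C₁, hκ₀, hκ, hC₁, hS⟩ := h2 κA hκA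
  obtain ⟨C, hC, hR⟩ := h3
  obtain ⟨κ', hκ'def⟩ : ∃ κ' : ℝ, κ' = κ / (C * κ₀) := ⟨_, rfl⟩
  have hκ' : 0 < κ' := by rw [hκ'def]; positivity
  obtain ⟨c₅, X₅, hc₅, hN⟩ := h5 κ₀ κ' hκ₀ hκ'
  obtain ⟨CU, X₆, hCU, hU⟩ := h6 κ₀ κ' hκ₀ hκ'
  refine ⟨C₁, c₅ / 2, by positivity, fun k J hk hJ1 b hb hb2 η hη => ?_⟩
  have hk1 : (1 : ℝ) ≤ k := by exact_mod_cast hk
  have hJ0 : (0 : ℝ) < J := lt_of_lt_of_le (by positivity) hJ1
  have hJn : 0 < J := by exact_mod_cast hJ0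
  obtain ⟨K₁, X₀, hK₁, hS'⟩ := hS k J hk hJ1
  obtain ⟨D₁, hR'⟩ := hR J hJn
  obtain ⟨XA, hXA⟩ := hAN D₁
  obtain ⟨g, hg, hgap⟩ := FINJ_gap J hJn b hb
  obtain ⟨δ, hδdef⟩ : ∃ δ : ℝ, δ = min (1 / 8) (min (g / (4 * CU)) (η / (4 * CU))) := ⟨_, rfl⟩
  have hδ : 0 < δ := by rw [hδdef]; positivity
  have hδ1 : δ ≤ 1 / 8 := by rw [hδdef]; exact min_le_left _ _
  have hδ2 : δ * CU ≤ g / 4 := by
    have : δ ≤ g / (4 * CU) := by
      rw [hδdef]; exact (min_le_right _ _).trans (min_le_left _ _)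
    calc δ * CU ≤ g / (4 * CU) * CU := mul_le_mul_of_nonneg_right this hCU.le
      _ = g / 4 := by field_simp
  have hδ3 : δ * CU ≤ η / 4 := by
    have : δ ≤ η / (4 * CU) := by
      rw [hδdef]; exact (min_le_right _ _).trans (min_le_right _ _)
    calc δ * CU ≤ η / (4 * CU) * CU := mul_le_mul_of_nonneg_right this hCU.le
      _ = η / 4 := by field_simp
  obtain ⟨c, hc, hRw⟩ := hR' δ hδ
  have hRw' : ∀ᶠ w : ℕ in atTop, RQ C c δ J D₁ w := hRw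
  have hw := FINJ_w C κ' hC hκ'
  obtain ⟨M, hMdef⟩ : ∃ M : ℝ, M = (8 / g + 8 / η) * CU := ⟨_, rfl⟩
  -- transfer to the variable `L`
  have htw : Tendsto (fun L : ℝ => ⌊κ₀ * L⌋₊) atTop atTop :=
    tendsto_nat_floor_atTop.comp (Tendsto.const_mul_atTop hκ₀ tendsto_id)
  have hL : ∀ᶠ L : ℝ in atTop, κ₀ * L / 2 ≤ (⌊κ₀ * L⌋₊ : ℝ) ∧ (⌊κ₀ * L⌋₊ : ℝ) ≤ κ₀ * L := by
    filter_upwards [eventually_ge_atTop (2 / κ₀), eventually_ge_atTop (0 : ℝ)] with L a1 a2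
    have a3 : 2 ≤ κ₀ * L := by rw [div_le_iff₀ hκ₀] at a1; linarith
    have a4 := Nat.lt_floor_add_one (κ₀ * L)
    exact ⟨by linarith, Nat.floor_le (by positivity)⟩
  have hL2 : ∀ᶠ L : ℝ in atTop, Real.log κ₀ + Real.log L ≤ 2 * Real.log L :=  by
    filter_upwards [Real.tendsto_log_atTop.eventually (eventually_ge_atTop (Real.log κ₀))] with L a1
    linarith
  obtain ⟨A, hA⟩ : ∃ A : ℝ, A = 4 * (K₁ + 1) / (c * J * κ' * κ₀) := ⟨_, rfl⟩
  have hL3 : ∀ᶠ L : ℝ in atTop, A * Real.log (2 * Real.log L) ≤ Real.log L := by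
    have e := (Tendsto.const_mul_atTop (show (0 : ℝ) < 2 by norm_num)
      Real.tendsto_log_atTop).eventually (FINK_log (2 * A))
    filter_upwards [e] with L a1
    linarith
  have hL4 : ∀ᶠ L : ℝ in atTop, ((J : ℝ) / K₁ + J) * Real.log L ≤ L := FINK_log _
  have hL5 : ∀ᶠ L : ℝ in atTop, κ₀ * L * (2 * Real.log L) ^ 2 ≤ L ^ 2 := by
    have h := (Real.isLittleO_pow_log_id_atTop (n := 2)).bound
      (show (0 : ℝ) < 1 / (4 * κ₀) by positivity)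
    filter_upwards [h, eventually_ge_atTop (1 : ℝ)] with L a1 a2
    simp only [id, Real.norm_eq_abs, abs_of_nonneg (by linarith : (0:ℝ) ≤ L)] at a1
    have a3 : Real.log L ^ 2 ≤ 1 / (4 * κ₀) * L := (le_abs_self _).trans a1
    have a4 : κ₀ * L * (2 * Real.log L) ^ 2 = (4 * κ₀ * L) * Real.log L ^ 2 := by ring
    rw [a4]
    calc (4 * κ₀ * L) * Real.log L ^ 2 ≤ (4 * κ₀ * L) * (1 / (4 * κ₀) * L) :=
          mul_le_mul_of_nonneg_left a3 (by positivity)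
      _ = L ^ 2 := by field_simp
  have tl := Real.tendsto_log_atTop
  have t2 := htw.comp tl
  filter_upwards [eventually_ge_atTop X₀, eventually_ge_atTop X₅, eventually_ge_atTop X₆,
    eventually_ge_atTop XA, eventually_ge_atTop (0 : ℝ), tl.eventually (eventually_ge_atTop 1),
    (tl.comp tl).eventually (eventually_ge_atTop 1), t2.eventually hRw', t2.eventually hw,
    tl.eventually hL, tl.eventually hL2, tl.eventually hL3, tl.eventually hL4,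
    tl.eventually hL5, t2.eventually ((tendsto_natCast_atTop_atTop (R := ℝ)).eventually
      (eventually_ge_atTop 3)), t2.eventually ((tendsto_natCast_atTop_atTop (R := ℝ)).eventually
      (eventually_ge_atTop M)), t2.eventually (FINK_tll.eventually (eventually_ge_atTop 1))]
    with X b1 b2 b2' bA hX0 b4 b5 b6 b7 b8 b9 b10 b11 b12 b13 b13' b14
  clear hL hL2 hL3 hL4 hL5 hw hRw hRw' htw tl t2
  simp only [Function.comp_apply] at b5 b6 b7 b8 b13 b13' b14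
  obtain ⟨b71, b72, b73, b74, b75⟩ := b7
  obtain ⟨b81, b82⟩ := b8
  obtain ⟨y, hy0, hy2, hyp, hyD, hXgood⟩ := hXA X bA
  obtain ⟨L, hLdef⟩ : ∃ L : ℝ, L = Real.log X := ⟨_, rfl⟩
  obtain ⟨w, hwdef⟩ : ∃ w : ℕ, w = ⌊κ₀ * Real.log X⌋₊ := ⟨_, rfl⟩
  have hNX := hN X b2 X le_rfl (by linarith)
  have hUX := hU X b2'
  rw [← hwdef] at b6 b71 b72 b73 b74 b75 b81 b82 b13 b13' b14 hNX hUX
  rw [← hLdef] at b4 b5 b81 b82 b9 b10 b11 b12
  obtain ⟨H, hHdef⟩ : ∃ H : ℕ, H = HH κ' w := ⟨_, rfl⟩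
  rw [← hHdef] at b71 b72 b73 b74 b75 hNX hUX
  obtain ⟨F, hFdef⟩ : ∃ F : ℝ, F = ff X := ⟨_, rfl⟩
  rw [← hFdef] at hNX hUX
  obtain ⟨d, hddef⟩ : ∃ d : ℕ, d = ⌊δ * H⌋₊ := ⟨_, rfl⟩
  have hL0 : 0 < L := by linarith
  have hlL0 : 0 < Real.log L := by linarith
  have hw0 : (0 : ℝ) < w := by linarith
  have hH0 : (0 : ℝ) < H := by linarith
  have hwH : (w : ℝ) ≤ H := by linarith
  have hF0 : 0 < F := by
    by_contra hneg
    push Not at hneg
    have := mul_nonpos_of_nonneg_of_nonpos hCU.le hneg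
    linarith
  have hMF : 8 / g + 8 / η ≤ F := by
    have e1 : (8 / g + 8 / η) * CU ≤ F * CU := by
      rw [← hMdef]; linarith
    exact le_of_mul_le_mul_right e1 hCU
  have hgF : 8 ≤ g * F := by
    have : 8 / g ≤ F := by
      have : 0 < 8 / η := by positivity
      linarith
    rw [div_le_iff₀ hg] at this; linarith
  have hηF : 8 ≤ η * F := by
    have : 8 / η ≤ F := by
      have : 0 < 8 / g := by positivity
      linarith
    rw [div_le_iff₀ hη] at this; linarith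
  have hdR : (d : ℝ) ≤ δ * H := by rw [hddef]; exact Nat.floor_le (by positivity)
  obtain ⟨hdη, x, hxw, hxl, hxu, hxH, hxx⟩ := FINJ_pos b g η δ CU c₅ F w H d hδ hδ1 hδ2 hδ3
    hgap hb2 hF0 hUX hNX hdR hgF b75
  obtain ⟨χ, hχ2, hχD, hχy⟩ := FINJ_chi h8 h9 y (primorial w) D₁ hy0 (primorial_pos w) hy2 hyp hyD
  obtain ⟨v, hv, E', hEx', hEco', hEs', hE4, hE5⟩ := b6 H b71 b72 χ hχ2 hχD x
    (fun i => ⟨hxw i, by rw [← hddef]; exact hxH i⟩)
  rw [← hddef] at hEx'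
  -- the size of the clusters
  obtain ⟨n, hn⟩ : ∃ n : ℕ, n = ⌈K₁ * (L / Real.log L) / J⌉₊ := ⟨_, rfl⟩
  have hn1 : K₁ * (L / Real.log L) / J ≤ n := by rw [hn]; exact Nat.le_ceil _
  have hn2 : (n : ℝ) < K₁ * (L / Real.log L) / J + 1 := by
    rw [hn]; exact Nat.ceil_lt_add_one (by positivity)
  have hJL' : (J : ℝ) / K₁ + J ≤ L / Real.log L := by rw [le_div_iff₀ hlL0]; exact b11
  have hJL : (J : ℝ) ≤ L / Real.log L := by
    have : 0 ≤ (J : ℝ) / K₁ := by positivity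
    linarith
  have hJK : (J : ℝ) ≤ K₁ * (L / Real.log L) := by
    have h : (J : ℝ) / K₁ ≤ L / Real.log L := by linarith
    rw [div_le_iff₀ hK₁] at h
    linarith
  have hlw0 : 0 ≤ Real.log w := Real.log_nonneg (by linarith)
  have hlw : Real.log w ≤ 2 * Real.log L := by
    have e1 : Real.log w ≤ Real.log (κ₀ * L) := Real.log_le_log hw0 b82
    rw [Real.log_mul hκ₀.ne' hL0.ne'] at e1
    linarith
  have hlw1 : 0 < Real.log w := Real.log_pos (by linarith)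
  have hllw : Real.log (Real.log w) ≤ Real.log (2 * Real.log L) := Real.log_le_log hlw1 hlw
  have e4 := FINJ_card hc hκ' hκ₀ hK₁ hJ0 hw0 hL0 hlL0 hA hJL b81 b14 hllw b10
  have hcard : ∀ i, n ≤ (E' i).card := by
    intro i
    have e1 : c * (κ' / 2 * (w / Real.log (Real.log w))) ≤ ((E' i).card : ℝ) :=
      (mul_le_mul_of_nonneg_left b74 hc.le).trans (hE4 i)
    have e5 : (n : ℝ) < ((E' i).card : ℝ) := by linarith
    exact_mod_cast e5.le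
  choose E hEs hEc using fun i => Finset.exists_subset_card_eq (hcard i)
  have hEx : ∀ i, E i ⊆ Ioc (x i) (x i + d) := fun i => (hEs i).trans (hEx' i)
  have hEI : ∀ i, E i ⊆ Icc 1 H := by
    intro i h hh
    have h1 := Finset.mem_Ioc.1 (hEx i hh)
    have h2 := hxH i
    rw [Finset.mem_Icc]
    omega
  have hdisj : ∀ i j, i ≠ j → Disjoint (E i) (E j) := by
    intro i j hij
    rw [Finset.disjoint_left]
    intro h hi hj
    have h1 := Finset.mem_Ioc.1 (hEx i hi)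
    have h2 := Finset.mem_Ioc.1 (hEx j hj)
    rcases lt_or_gt_of_ne hij with h3 | h3
    · have := hxx i j h3; omega
    · have := hxx j i h3; omega
  have hHL : (H : ℝ) ≤ Real.log X ^ 2 := by
    rw [← hLdef]
    refine b72.trans (le_trans ?_ b12)
    exact mul_le_mul b82 (pow_le_pow_left₀ hlw0 hlw 2) (by positivity) (by positivity)
  have htot : (((Icc 1 H).filter (fun h => (v + h).Coprime (primorial w))).card : ℝ) ≤
      κ * Real.log X := by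
    rw [← hLdef]
    refine hE5.trans (b73.trans ?_)
    calc C * κ' * w ≤ C * κ' * (κ₀ * L) := mul_le_mul_of_nonneg_left b82 (by positivity)
      _ = κ * L := by rw [hκ'def]; field_simp
  have hJn1 : K₁ * (Real.log X / Real.log (Real.log X)) ≤ (J : ℝ) * n := by
    rw [← hLdef]
    rw [div_le_iff₀ hJ0] at hn1
    linarith
  have hJn2 : (J : ℝ) * n ≤ 2 * K₁ * (Real.log X / Real.log (Real.log X)) := by
    rw [← hLdef]
    have e := mul_le_mul_of_nonneg_left hn2.le hJ0.le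
    have e' : (J : ℝ) * (K₁ * (L / Real.log L) / J + 1) = K₁ * (L / Real.log L) + J := by
      field_simp
    rw [e'] at e
    linarith
  obtain ⟨a, ha1, ha2, ha3, ha4, ha5⟩ := hS' X b1 y hy0 hXgood w v H n E hwdef hv hHL
    hEI (fun i h hh => hEco' i h (hEs i hh)) hdisj hEc hJn1 hJn2 htot
    (fun hy1 χ' hχ' i h hh => by
      obtain ⟨e, e1⟩ := hχy hy1 χ' hχ'
      rw [e]
      exact hEs' e1 i h (hEs i hh))
  obtain ⟨m, i, hi, hm1, hm2, hm3⟩ := h4 a H k J d x E hEx hxx hxH ha3 ha4 ha5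
  refine ⟨m, i, hi, ?_, ?_, ?_⟩
  · have : (a : ℝ) ≤ (Nat.nth Nat.Prime m : ℝ) := by exact_mod_cast hm1.le
    linarith
  · have h2 : (Nat.nth Nat.Prime (m + k) : ℝ) ≤ ((a + H : ℕ) : ℝ) := by
      exact_mod_cast hm2
    linarith
  · intro j
    rw [← hFdef]
    have q1 := hm3 j.succ
    have q2 := hm3 j.castSucc
    rw [Fin.val_succ, ← add_assoc] at q1
    rw [Fin.val_castSucc] at q2
    have q3 : ((a : ℝ) + x (i j.succ)) < (Nat.nth Nat.Prime (m + j + 1) : ℝ) := by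
      exact_mod_cast q1.1
    have q4 : (Nat.nth Nat.Prime (m + j + 1) : ℝ) ≤ (a : ℝ) + x (i j.succ) + d := by
      exact_mod_cast q1.2
    have q5 : ((a : ℝ) + x (i j.castSucc)) < (Nat.nth Nat.Prime (m + j) : ℝ) := by
      exact_mod_cast q2.1
    have q6 : (Nat.nth Nat.Prime (m + j) : ℝ) ≤ (a : ℝ) + x (i j.castSucc) + d := by
      exact_mod_cast q2.2
    have r1 := hxl (i j.succ)
    have r2 := hxu (i j.succ)
    have r3 := hxl (i j.castSucc)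
    have r4 := hxu (i j.castSucc)
    rw [abs_le, sub_mul]
    constructor
    · linarith
    · linarith

theorem p_FINJ (h1 : Stmt_ANF) (h2 : Stmt_SCKE) (h3 : Stmt_RESQ) (h4 : Stmt_CHL)
    (h5 : Stmt_NUF) (h6 : Stmt_NUG) (h7 : Stmt_SLV) (h8 : Stmt_CHX) (h9 : Stmt_CHC) :
    Stmt_JGX := by
  obtain ⟨C₁, κf, hκf, hsc⟩ := FINJ_scale h1 h2 h3 h4 h5 h6 h8 h9
  refine ⟨C₁, κf, hκf, fun k J hk hJ b hb hb2 ε hε => ?_⟩
  obtain ⟨ζ, hζ⟩ : ∃ ζ : ℝ, ζ = min (1 / 2) (ε / (4 * (κf + 1))) := ⟨_, rfl⟩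
  have hζ0 : 0 < ζ := by rw [hζ]; positivity
  have hζ1 : ζ ≤ 1 / 2 := by rw [hζ]; exact min_le_left _ _
  have hζ2 : ζ * κf ≤ ε / 4 := by
    have : ζ ≤ ε / (4 * (κf + 1)) := by rw [hζ]; exact min_le_right _ _
    calc ζ * κf ≤ ε / (4 * (κf + 1)) * (κf + 1) :=
          mul_le_mul this (by linarith) hκf.le (by positivity)
      _ = ε / 4 := by field_simp
  obtain ⟨X₀, hX₀⟩ := h7 ζ hζ0
  have hsc' := hsc k J hk hJ b hb hb2 (ε / 4) (by positivity)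
  have ht : Tendsto (fun X : ℕ => (X : ℝ) / 4) atTop atTop :=
    tendsto_natCast_atTop_atTop.atTop_div_const (by norm_num)
  filter_upwards [ht.eventually hsc', ht.eventually (eventually_ge_atTop X₀)] with X hX hXX₀
  obtain ⟨n, i, hi, hn1, hn2, hn3⟩ := hX
  obtain ⟨hF0, hFs⟩ := hX₀ ((X : ℝ) / 4) hXX₀
  have hX0 : (0 : ℝ) ≤ X := Nat.cast_nonneg X
  have hFn := hFs (X : ℝ) (by linarith) (by linarith)
  obtain ⟨F, hF⟩ : ∃ F : ℝ, F = ff ((X : ℝ) / 4) := ⟨_, rfl⟩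
  obtain ⟨F', hF'⟩ : ∃ F' : ℝ, F' = ff (X : ℝ) := ⟨_, rfl⟩
  rw [← hF] at hF0 hFn
  rw [← hF'] at hFn
  rw [abs_le] at hFn
  have hFF' : F ≤ 2 * F' := by nlinarith
  refine ⟨n, i, hi, hn1, ?_, fun j => ?_⟩
  · have : (Nat.nth Nat.Prime (n + k) : ℝ) ≤ X := by linarith
    exact_mod_cast this
  · have q := hn3 j
    rw [← hF] at q
    rw [← hF']
    have u1 : b (i j.succ) - b (i j.castSucc) ≤ κf := by
      have := (hb2 (i j.succ)).2
      have := (hb2 (i j.castSucc)).1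
      linarith
    have u2 : 0 ≤ b (i j.succ) - b (i j.castSucc) := by
      have := hb (hi (Fin.castSucc_lt_succ (i := j)))
      linarith
    obtain ⟨D, hD⟩ : ∃ D : ℝ, D = b (i j.succ) - b (i j.castSucc) := ⟨_, rfl⟩
    rw [← hD] at u1 u2 q ⊢
    have v1 : |D * F - D * F'| ≤ ε / 4 * F := by
      rw [← mul_sub, abs_mul, abs_of_nonneg u2]
      have : |F - F'| ≤ ζ * F := by rw [abs_le]; constructor <;> linarith
      calc D * |F - F'| ≤ κf * (ζ * F) :=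
            mul_le_mul u1 this (abs_nonneg _) hκf.le
        _ = (ζ * κf) * F := by ring
        _ ≤ ε / 4 * F := mul_le_mul_of_nonneg_right hζ2 hF0.le
    rw [abs_le] at q v1 ⊢
    constructor <;> nlinarith

end Pool.LGC
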