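import Pool.Agent.Work.MP_b0c12c_chain.InterfaceL
import Pool.Agent.Work.MP_b0c12c_chain.B_FINK

/-! # Block FINL: joint limit points (helper41) -/

set_option autoImplicit false

namespace Pool.LGC

open Finset Filter

/-- Eventual facts in `w`. -/
theorem FINL_w (C κ' : ℝ) (hC : 0 < C) (hκ' : 0 < κ') : ∀ᶠ w : ℕ in atTop,
    4 * w ≤ HH κ' w ∧ (HH κ' w : ℝ) ≤ w * Real.log w ^ 2 ∧
      C * (HH κ' w * Real.log (Real.log w) ^ 2 /
        (Real.log w ^ 2 * Real.log (Real.log (Real.log w)))) ≤ C * κ' * w ∧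
      κ' / 2 * (w / Real.log (Real.log w)) ≤ HH κ' w * Real.log (Real.log w) /
        (Real.log w ^ 2 * Real.log (Real.log (Real.log w))) ∧
      (w : ℝ) + 2 ≤ HH κ' w / 8 := by
  filter_upwards [FINK_G (κ' / 10) (by positivity), FINK_G κ' hκ',
    FINK_tl.eventually (eventually_ge_atTop (1 : ℝ)),
    FINK_tll.eventually (eventually_ge_atTop (1 : ℝ)),
    FINK_tlll.eventually (eventually_ge_atTop (1 : ℝ)), eventually_ge_atTop 2] with
    w hG1 hG a6 a8 a9 a10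
  set l1 := Real.log w with hl1
  set l2 := Real.log l1 with hl2
  set l3 := Real.log l2 with hl3
  have hw2 : (2 : ℝ) ≤ w := by exact_mod_cast a10
  obtain ⟨G, hG'⟩ : ∃ G : ℝ, G = l1 ^ 2 * l3 / l2 ^ 2 := ⟨_, rfl⟩
  rw [← hG'] at hG hG1
  have hHdef : HH κ' w = ⌊κ' * (w * G)⌋₊ := by rw [hG']; rfl
  have hG0 : 0 < G := by rw [hG']; positivity
  have e1 : (HH κ' w : ℝ) ≤ κ' * (w * G) := by rw [hHdef]; exact Nat.floor_le (by positivity)
  have e2 : κ' * (w * G) - 1 < HH κ' w := by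
    rw [hHdef]; have := Nat.lt_floor_add_one (κ' * (w * G)); linarith
  have e3 : 50 * (w : ℝ) ≤ κ' * (w * G) := by nlinarith [hG1.1]
  have e4 : κ' / 2 * (w * G) ≤ HH κ' w := by linarith
  refine ⟨?_, ?_, ?_, ?_, ?_⟩
  · have : (4 * w : ℝ) ≤ HH κ' w := by linarith
    exact_mod_cast this
  · refine e1.trans ?_
    calc κ' * (w * G) = w * (κ' * G) := by ring
      _ ≤ w * l1 ^ 2 := mul_le_mul_of_nonneg_left hG.2 (by positivity)
  · have e5 : (HH κ' w : ℝ) * l2 ^ 2 / (l1 ^ 2 * l3) ≤ κ' * w := by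
      rw [div_le_iff₀ (by positivity)]
      calc (HH κ' w : ℝ) * l2 ^ 2 ≤ κ' * (w * G) * l2 ^ 2 :=
            mul_le_mul_of_nonneg_right e1 (by positivity)
        _ = κ' * w * (l1 ^ 2 * l3) := by rw [hG']; field_simp
    calc C * ((HH κ' w : ℝ) * l2 ^ 2 / (l1 ^ 2 * l3)) ≤ C * (κ' * w) :=
          mul_le_mul_of_nonneg_left e5 hC.le
      _ = C * κ' * w := by ring
  · rw [le_div_iff₀ (by positivity)]
    calc κ' / 2 * (w / l2) * (l1 ^ 2 * l3) = κ' / 2 * (w * G) * l2 := by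
          rw [hG']; field_simp
      _ ≤ (HH κ' w : ℝ) * l2 := mul_le_mul_of_nonneg_right e4 (by positivity)
  · linarith

/-- The smallest gap. -/
theorem FINL_gap (J : ℕ) (hJ : 0 < J) (b : Fin J → ℝ) (hb : StrictMono b) :
    ∃ g : ℝ, 0 < g ∧ ∀ i j, i < j → g ≤ b j - b i := by
  have : Nonempty (Fin J × Fin J) := ⟨(⟨0, hJ⟩, ⟨0, hJ⟩)⟩
  obtain ⟨p, hp⟩ := Finite.exists_min
    (fun p : Fin J × Fin J => if p.1 < p.2 then b p.2 - b p.1 else 1)
  refine ⟨if p.1 < p.2 then b p.2 - b p.1 else 1, ?_, ?_⟩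
  · split_ifs with h
    · have := hb h; linarith
    · norm_num
  · intro i j hij
    have := hp (i, j)
    simp only [if_pos hij] at this
    exact this

theorem FINL_abs {p p' a x x' w b b' F d η : ℝ} (q3 : a + x' < p') (q4 : p' ≤ a + x' + d)
    (q5 : a + x < p) (q6 : p ≤ a + x + d) (r1 : w + b' * F ≤ x') (r2 : x' ≤ w + b' * F + 1)
    (r3 : w + b * F ≤ x) (r4 : x ≤ w + b * F + 1) (hd : d ≤ η / 4 * F) (hη : 8 ≤ η * F) :
    |p' - p - (b' - b) * F| ≤ η * F := by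
  rw [abs_le, sub_mul]
  constructor <;> linarith

theorem FINL_scale (h1 : Stmt_AN) (h2 : Stmt_SCK) (h3 : Stmt_RESP) (h4 : Stmt_CHL)
    (h5 : Stmt_NUF) (h6 : Stmt_NUG) (k : ℕ) (hk : 1 ≤ k) :
    ∃ (κf : ℝ) (J : ℕ), 0 < κf ∧ k < J ∧ ∀ b : Fin J → ℝ, StrictMono b →
      (∀ i, 0 ≤ b i ∧ b i ≤ κf) → ∀ η : ℝ, 0 < η → ∀ X₁ : ℝ, ∃ X : ℝ, X₁ ≤ X ∧
      ∃ (n : ℕ) (i : Fin (k + 1) → Fin J), StrictMono i ∧
        X ≤ Nat.nth Nat.Prime n ∧ (Nat.nth Nat.Prime n : ℝ) ≤ 4 * X ∧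
        ∀ j : Fin k, |((Nat.nth Nat.Prime (n + j + 1) : ℝ) - Nat.nth Nat.Prime (n + j)) -
          (b (i j.succ) - b (i j.castSucc)) * ff X| ≤ η * ff X := by
  obtain ⟨κA, hκA, hAN⟩ := h1 (1 / 8) (by norm_num)
  obtain ⟨κ₀, κ, C₁, hκ₀, hκ, hC₁, hS⟩ := h2 κA hκA
  obtain ⟨J, hJdef⟩ : ∃ J : ℕ, J = max (k + 1) ⌈C₁ * (k : ℝ) ^ 2⌉₊ := ⟨_, rfl⟩
  have hkJ : k < J := by rw [hJdef]; exact lt_of_lt_of_le (Nat.lt_succ_self k) (le_max_left _ _)
  have hJn : 0 < J := by omega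
  have hJ0 : (0 : ℝ) < J := by exact_mod_cast hJn
  have hJ1 : C₁ * (k : ℝ) ^ 2 ≤ J := by
    rw [hJdef]; exact (Nat.le_ceil _).trans (by exact_mod_cast le_max_right _ _)
  obtain ⟨C, hC, hR⟩ := h3 J hJn
  obtain ⟨κ', hκ'def⟩ : ∃ κ' : ℝ, κ' = κ / (C * κ₀) := ⟨_, rfl⟩
  have hκ' : 0 < κ' := by rw [hκ'def]; positivity
  obtain ⟨c₅, X₅, hc₅, hN⟩ := h5 κ₀ κ' hκ₀ hκ'
  obtain ⟨CU, X₆, hCU, hU⟩ := h6 κ₀ κ' hκ₀ hκ'
  obtain ⟨K₁, X₀, hK₁, hS'⟩ := hS k J hk hJ1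
  refine ⟨c₅ / 2, J, by positivity, hkJ, fun b hb hb2 η hη X₁ => ?_⟩
  obtain ⟨g, hg, hgap⟩ := FINL_gap J hJn b hb
  obtain ⟨δ, hδdef⟩ : ∃ δ : ℝ, δ = min (1 / 8) (min (g / (4 * CU)) (η / (4 * CU))) := ⟨_, rfl⟩
  have hδ : 0 < δ := by rw [hδdef]; positivity
  have hδ1 : δ ≤ 1 / 8 := by rw [hδdef]; exact min_le_left _ _
  have hδ2 : δ * CU ≤ g / 4 := by
    have : δ ≤ g / (4 * CU) := by
      rw [hδdef]; exact (min_le_right _ _).trans (min_le_left _ _)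
    calc δ * CU ≤ g / (4 * CU) * CU := mul_le_mul_of_nonneg_right this hCU.le
      _ = g / 4 := by field_simp
  have hδ3 : δ * CU ≤ η / 4 := by
    have : δ ≤ η / (4 * CU) := by
      rw [hδdef]; exact (min_le_right _ _).trans (min_le_right _ _)
    calc δ * CU ≤ η / (4 * CU) * CU := mul_le_mul_of_nonneg_right this hCU.le
      _ = η / 4 := by field_simp
  obtain ⟨c, hc, hRw⟩ := hR δ hδ
  have hw := FINL_w C κ' hC hκ'
  obtain ⟨M, hMdef⟩ : ∃ M : ℝ, M = (8 / g + 8 / η) * CU := ⟨_, rfl⟩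
  -- transfer to the variable `L`
  have htw : Tendsto (fun L : ℝ => ⌊κ₀ * L⌋₊) atTop atTop :=
    tendsto_nat_floor_atTop.comp (Tendsto.const_mul_atTop hκ₀ tendsto_id)
  have hL : ∀ᶠ L : ℝ in atTop, κ₀ * L / 2 ≤ (⌊κ₀ * L⌋₊ : ℝ) ∧ (⌊κ₀ * L⌋₊ : ℝ) ≤ κ₀ * L := by
    filter_upwards [eventually_ge_atTop (2 / κ₀), eventually_ge_atTop (0 : ℝ)] with L a1 a2
    have a3 : 2 ≤ κ₀ * L := by rw [div_le_iff₀ hκ₀] at a1; linarith
    have a4 := Nat.lt_floor_add_one (κ₀ * L)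
    exact ⟨by linarith, Nat.floor_le (by positivity)⟩
  have hL2 : ∀ᶠ L : ℝ in atTop, Real.log κ₀ + Real.log L ≤ 2 * Real.log L :=  by
    filter_upwards [Real.tendsto_log_atTop.eventually (eventually_ge_atTop (Real.log κ₀))] with L a1
    linarith
  obtain ⟨A, hA⟩ : ∃ A : ℝ, A = 4 * (K₁ + 1) / (c * J * κ' * κ₀) := ⟨_, rfl⟩
  have hL3 : ∀ᶠ L : ℝ in atTop, A * Real.log (2 * Real.log L) ≤ Real.log L := by
    have e := (Tendsto.const_mul_atTop (show (0 : ℝ) < 2 by norm_num)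
      Real.tendsto_log_atTop).eventually (FINK_log (2 * A))
    filter_upwards [e] with L a1
    linarith
  have hL4 : ∀ᶠ L : ℝ in atTop, ((J : ℝ) / K₁ + J) * Real.log L ≤ L := FINK_log _
  have hL5 : ∀ᶠ L : ℝ in atTop, κ₀ * L * (2 * Real.log L) ^ 2 ≤ L ^ 2 := by
    have h := (Real.isLittleO_pow_log_id_atTop (n := 2)).bound
      (show (0 : ℝ) < 1 / (4 * κ₀) by positivity)
    filter_upwards [h, eventually_ge_atTop (1 : ℝ)] with L a1 a2
    simp only [id, Real.norm_eq_abs, abs_of_nonneg (by linarith : (0:ℝ) ≤ L)] at a1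
    have a3 : Real.log L ^ 2 ≤ 1 / (4 * κ₀) * L := (le_abs_self _).trans a1
    have a4 : κ₀ * L * (2 * Real.log L) ^ 2 = (4 * κ₀ * L) * Real.log L ^ 2 := by ring
    rw [a4]
    calc (4 * κ₀ * L) * Real.log L ^ 2 ≤ (4 * κ₀ * L) * (1 / (4 * κ₀) * L) :=
          mul_le_mul_of_nonneg_left a3 (by positivity)
      _ = L ^ 2 := by field_simp
  have hall : ∀ᶠ X : ℝ in atTop, X₀ ≤ X ∧ X₅ ≤ X ∧ X₆ ≤ X ∧ max X₁ 0 ≤ X ∧
      1 ≤ Real.log X ∧ 1 ≤ Real.log (Real.log X) ∧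
      (∀ H : ℕ, 4 * ⌊κ₀ * Real.log X⌋₊ ≤ H →
        (H : ℝ) ≤ (⌊κ₀ * Real.log X⌋₊ : ℝ) * Real.log (⌊κ₀ * Real.log X⌋₊ : ℝ) ^ 2 →
        ∀ x : Fin J → ℕ, (∀ i, ⌊κ₀ * Real.log X⌋₊ ≤ x i ∧ x i + ⌊δ * H⌋₊ ≤ H) →
        ∃ v < primorial ⌊κ₀ * Real.log X⌋₊,
          (∀ i, c * (H * Real.log (Real.log (⌊κ₀ * Real.log X⌋₊ : ℝ)) /
            (Real.log (⌊κ₀ * Real.log X⌋₊ : ℝ) ^ 2 *
              Real.log (Real.log (Real.log (⌊κ₀ * Real.log X⌋₊ : ℝ))))) ≤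
            (((Ioc (x i) (x i + ⌊δ * H⌋₊)).filter
              (fun h => (v + h).Coprime (primorial ⌊κ₀ * Real.log X⌋₊))).card : ℝ)) ∧
          (((Icc 1 H).filter
            (fun h => (v + h).Coprime (primorial ⌊κ₀ * Real.log X⌋₊))).card : ℝ) ≤
            C * (H * Real.log (Real.log (⌊κ₀ * Real.log X⌋₊ : ℝ)) ^ 2 /
              (Real.log (⌊κ₀ * Real.log X⌋₊ : ℝ) ^ 2 *
                Real.log (Real.log (Real.log (⌊κ₀ * Real.log X⌋₊ : ℝ)))))) ∧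
      (4 * ⌊κ₀ * Real.log X⌋₊ ≤ HH κ' ⌊κ₀ * Real.log X⌋₊ ∧
        (HH κ' ⌊κ₀ * Real.log X⌋₊ : ℝ) ≤
          (⌊κ₀ * Real.log X⌋₊ : ℝ) * Real.log (⌊κ₀ * Real.log X⌋₊ : ℝ) ^ 2 ∧
        C * (HH κ' ⌊κ₀ * Real.log X⌋₊ * Real.log (Real.log (⌊κ₀ * Real.log X⌋₊ : ℝ)) ^ 2 /
          (Real.log (⌊κ₀ * Real.log X⌋₊ : ℝ) ^ 2 *
            Real.log (Real.log (Real.log (⌊κ₀ * Real.log X⌋₊ : ℝ))))) ≤
          C * κ' * (⌊κ₀ * Real.log X⌋₊ : ℝ) ∧
        κ' / 2 * ((⌊κ₀ * Real.log X⌋₊ : ℝ) / Real.log (Real.log (⌊κ₀ * Real.log X⌋₊ : ℝ))) ≤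
          HH κ' ⌊κ₀ * Real.log X⌋₊ * Real.log (Real.log (⌊κ₀ * Real.log X⌋₊ : ℝ)) /
          (Real.log (⌊κ₀ * Real.log X⌋₊ : ℝ) ^ 2 *
            Real.log (Real.log (Real.log (⌊κ₀ * Real.log X⌋₊ : ℝ)))) ∧
        (⌊κ₀ * Real.log X⌋₊ : ℝ) + 2 ≤ HH κ' ⌊κ₀ * Real.log X⌋₊ / 8) ∧
      (κ₀ * Real.log X / 2 ≤ (⌊κ₀ * Real.log X⌋₊ : ℝ) ∧
        (⌊κ₀ * Real.log X⌋₊ : ℝ) ≤ κ₀ * Real.log X) ∧
      Real.log κ₀ + Real.log (Real.log X) ≤ 2 * Real.log (Real.log X) ∧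
      A * Real.log (2 * Real.log (Real.log X)) ≤ Real.log (Real.log X) ∧
      ((J : ℝ) / K₁ + J) * Real.log (Real.log X) ≤ Real.log X ∧
      κ₀ * Real.log X * (2 * Real.log (Real.log X)) ^ 2 ≤ Real.log X ^ 2 ∧
      3 ≤ (⌊κ₀ * Real.log X⌋₊ : ℝ) ∧ M ≤ (⌊κ₀ * Real.log X⌋₊ : ℝ) ∧
      1 ≤ Real.log (Real.log (⌊κ₀ * Real.log X⌋₊ : ℝ)) := by
    have tl := Real.tendsto_log_atTop
    have t2 := htw.comp tl
    refine (eventually_ge_atTop X₀).and ((eventually_ge_atTop X₅).and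
      ((eventually_ge_atTop X₆).and ((eventually_ge_atTop (max X₁ 0)).and
      ((tl.eventually (eventually_ge_atTop 1)).and
      (((tl.comp tl).eventually (eventually_ge_atTop 1)).and
      ((t2.eventually hRw).and ((t2.eventually hw).and ((tl.eventually hL).and
      ((tl.eventually hL2).and ((tl.eventually hL3).and ((tl.eventually hL4).and
      ((tl.eventually hL5).and
      ((t2.eventually ((tendsto_natCast_atTop_atTop (R := ℝ)).eventually
        (eventually_ge_atTop 3))).and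
      ((t2.eventually ((tendsto_natCast_atTop_atTop (R := ℝ)).eventually
        (eventually_ge_atTop M))).and
        (t2.eventually (FINK_tll.eventually (eventually_ge_atTop 1)))))))))))))))))
  obtain ⟨X₂, hX₂⟩ := eventually_atTop.1 hall
  obtain ⟨X, hXX₂, hXgood⟩ := hAN X₂
  obtain ⟨b1, b2, b2', b3, b4, b5, b6, ⟨b71, b72, b73, b74, b75⟩, ⟨b81, b82⟩, b9, b10, b11, b12,
    b13, b13', b14⟩ := hX₂ X hXX₂
  clear hall hL hL2 hL3 hL4 hL5 hw hRw htw hX₂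
  obtain ⟨L, hLdef⟩ : ∃ L : ℝ, L = Real.log X := ⟨_, rfl⟩
  obtain ⟨w, hwdef⟩ : ∃ w : ℕ, w = ⌊κ₀ * Real.log X⌋₊ := ⟨_, rfl⟩
  have hX0 : 0 ≤ X := (le_max_right _ _).trans b3
  have hNX := hN X b2 X le_rfl (by linarith)
  have hUX := hU X b2'
  rw [← hwdef] at b6 b71 b72 b73 b74 b75 b81 b82 b13 b13' b14 hNX hUX
  rw [← hLdef] at b4 b5 b81 b82 b9 b10 b11 b12
  obtain ⟨H, hHdef⟩ : ∃ H : ℕ, H = HH κ' w := ⟨_, rfl⟩
  rw [← hHdef] at b71 b72 b73 b74 b75 hNX hUX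
  obtain ⟨F, hFdef⟩ : ∃ F : ℝ, F = ff X := ⟨_, rfl⟩
  rw [← hFdef] at hNX hUX
  obtain ⟨d, hddef⟩ : ∃ d : ℕ, d = ⌊δ * H⌋₊ := ⟨_, rfl⟩
  have hL0 : 0 < L := by linarith
  have hlL0 : 0 < Real.log L := by linarith
  have hw0 : (0 : ℝ) < w := by linarith
  have hH0 : (0 : ℝ) < H := by linarith
  have hwH : (w : ℝ) ≤ H := by linarith
  have hF0 : 0 < F := (mul_pos_iff_of_pos_left hCU).mp (lt_of_lt_of_le hH0 hUX)
  have hMF : 8 / g + 8 / η ≤ F := by
    have e1 : (8 / g + 8 / η) * CU ≤ F * CU := by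
      rw [← hMdef]; linarith
    exact le_of_mul_le_mul_right e1 hCU
  have hgF : 8 ≤ g * F := by
    have : 8 / g ≤ F := by
      have : 0 < 8 / η := by positivity
      linarith
    rw [div_le_iff₀ hg] at this; linarith
  have hηF : 8 ≤ η * F := by
    have : 8 / η ≤ F := by
      have : 0 < 8 / g := by positivity
      linarith
    rw [div_le_iff₀ hη] at this; linarith
  have hdR : (d : ℝ) ≤ δ * H := by rw [hddef]; exact Nat.floor_le (by positivity)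
  have hdg : (d : ℝ) ≤ g / 4 * F := by
    calc (d : ℝ) ≤ δ * (CU * F) := hdR.trans (mul_le_mul_of_nonneg_left hUX hδ.le)
      _ = (δ * CU) * F := by ring
      _ ≤ g / 4 * F := mul_le_mul_of_nonneg_right hδ2 hF0.le
  have hdη : (d : ℝ) ≤ η / 4 * F := by
    calc (d : ℝ) ≤ δ * (CU * F) := hdR.trans (mul_le_mul_of_nonneg_left hUX hδ.le)
      _ = (δ * CU) * F := by ring
      _ ≤ η / 4 * F := mul_le_mul_of_nonneg_right hδ3 hF0.le
  -- the intervals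
  obtain ⟨x, hx⟩ : ∃ x : Fin J → ℕ, ∀ i, x i = w + ⌈b i * F⌉₊ := ⟨_, fun i => rfl⟩
  have hxl : ∀ i, (w : ℝ) + b i * F ≤ x i := by
    intro i; rw [hx i]; push_cast
    have := Nat.le_ceil (b i * F)
    linarith
  have hxu : ∀ i, (x i : ℝ) ≤ (w : ℝ) + b i * F + 1 := by
    intro i; rw [hx i]; push_cast
    have := Nat.ceil_lt_add_one (show 0 ≤ b i * F from mul_nonneg (hb2 i).1 hF0.le)
    linarith
  have hxH : ∀ i, x i + d ≤ H := by
    intro i
    have e1 : b i * F ≤ H / 2 := by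
      calc b i * F ≤ c₅ / 2 * F := mul_le_mul_of_nonneg_right (hb2 i).2 hF0.le
        _ = c₅ * F / 2 := by ring
        _ ≤ H / 2 := by linarith
    have e2 : δ * H ≤ 1 / 8 * H := mul_le_mul_of_nonneg_right hδ1 hH0.le
    have e3 : ((x i + d : ℕ) : ℝ) ≤ H := by
      push_cast
      have := hxu i
      linarith
    exact_mod_cast e3
  have hxx : ∀ i j : Fin J, i < j → x i + d < x j := by
    intro i j hij
    have e1 := hgap i j hij
    have e2 : g * F ≤ (b j - b i) * F := mul_le_mul_of_nonneg_right e1 hF0.le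
    have e3 : ((x i + d : ℕ) : ℝ) < x j := by
      push_cast
      have h1 := hxu i
      have h2 := hxl j
      linarith
    exact_mod_cast e3
  obtain ⟨v, hv, hE4, hE5⟩ := b6 H b71 b72 x (fun i => ⟨by rw [hx i]; omega, by
    rw [← hddef]; exact hxH i⟩)
  rw [← hddef] at hE4
  -- the size of the clusters
  obtain ⟨n, hn⟩ : ∃ n : ℕ, n = ⌈K₁ * (L / Real.log L) / J⌉₊ := ⟨_, rfl⟩
  have hn1 : K₁ * (L / Real.log L) / J ≤ n := by rw [hn]; exact Nat.le_ceil _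
  have hn2 : (n : ℝ) < K₁ * (L / Real.log L) / J + 1 := by
    rw [hn]; exact Nat.ceil_lt_add_one (by positivity)
  have hJL' : (J : ℝ) / K₁ + J ≤ L / Real.log L := by rw [le_div_iff₀ hlL0]; exact b11
  have hJL : (J : ℝ) ≤ L / Real.log L := by
    have : 0 ≤ (J : ℝ) / K₁ := by positivity
    linarith
  have hJK : (J : ℝ) ≤ K₁ * (L / Real.log L) := by
    have h : (J : ℝ) / K₁ ≤ L / Real.log L := by linarith
    rw [div_le_iff₀ hK₁] at h
    linarith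
  have hlw0 : 0 ≤ Real.log w := Real.log_nonneg (by linarith)
  have hlw : Real.log w ≤ 2 * Real.log L := by
    have e1 : Real.log w ≤ Real.log (κ₀ * L) := Real.log_le_log hw0 b82
    rw [Real.log_mul hκ₀.ne' hL0.ne'] at e1
    linarith
  have hlw1 : 0 < Real.log w := Real.log_pos (by linarith)
  have hllw : Real.log (Real.log w) ≤ Real.log (2 * Real.log L) := Real.log_le_log hlw1 hlw
  have hl2 : 0 < Real.log (2 * Real.log L) := by linarith
  obtain ⟨E', hE'⟩ : ∃ E' : Fin J → Finset ℕ, ∀ i, E' i = (Ioc (x i) (x i + d)).filter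
    (fun h => (v + h).Coprime (primorial w)) := ⟨_, fun i => rfl⟩
  have hcard : ∀ i, n ≤ (E' i).card := by
    intro i
    have e0 := hE4 i
    rw [← hE' i] at e0
    have e1 : c * (κ' / 2 * (w / Real.log (Real.log w))) ≤ ((E' i).card : ℝ) :=
      (mul_le_mul_of_nonneg_left b74 (by positivity)).trans e0
    have e2 : κ₀ * L / 2 / Real.log (2 * Real.log L) ≤ w / Real.log (Real.log w) :=
      div_le_div₀ hw0.le b81 (by linarith) hllw
    have e3 : A / Real.log L ≤ 1 / Real.log (2 * Real.log L) := by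
      rw [div_le_div_iff₀ hlL0 hl2]
      linarith
    have e4 : K₁ * (L / Real.log L) / J + 1 ≤ c * (κ' / 2 * (w / Real.log (Real.log w))) := by
      calc K₁ * (L / Real.log L) / J + 1 ≤ K₁ * (L / Real.log L) / J + (L / Real.log L) / J := by
            have : 1 ≤ (L / Real.log L) / J := by rw [le_div_iff₀ hJ0]; linarith
            linarith
        _ = c * (κ' / 2 * (κ₀ * L / 2 * (A / Real.log L))) := by
            rw [hA]; field_simp; ring
        _ ≤ c * (κ' / 2 * (κ₀ * L / 2 * (1 / Real.log (2 * Real.log L)))) := by gcongr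
        _ = c * (κ' / 2 * (κ₀ * L / 2 / Real.log (2 * Real.log L))) := by ring
        _ ≤ _ := by gcongr
    have e5 : (n : ℝ) < ((E' i).card : ℝ) := by linarith
    exact_mod_cast e5.le
  choose E hEs hEc using fun i => Finset.exists_subset_card_eq (hcard i)
  have hEx : ∀ i, E i ⊆ Ioc (x i) (x i + d) := by
    intro i h hh
    have := hEs i hh
    rw [hE' i, Finset.mem_filter] at this
    exact this.1
  have hEco : ∀ i, ∀ h ∈ E i, (v + h).Coprime (primorial w) := by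
    intro i h hh
    have := hEs i hh
    rw [hE' i, Finset.mem_filter] at this
    exact this.2
  have hEI : ∀ i, E i ⊆ Icc 1 H := by
    intro i h hh
    have h1 := Finset.mem_Ioc.1 (hEx i hh)
    have h2 := hxH i
    rw [Finset.mem_Icc]
    omega
  have hdisj : ∀ i j, i ≠ j → Disjoint (E i) (E j) := by
    intro i j hij
    rw [Finset.disjoint_left]
    intro h hi hj
    have h1 := Finset.mem_Ioc.1 (hEx i hi)
    have h2 := Finset.mem_Ioc.1 (hEx j hj)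
    rcases lt_or_gt_of_ne hij with h3 | h3
    · have := hxx i j h3; omega
    · have := hxx j i h3; omega
  have hHL : (H : ℝ) ≤ Real.log X ^ 2 := by
    rw [← hLdef]
    refine b72.trans (le_trans ?_ b12)
    exact mul_le_mul b82 (pow_le_pow_left₀ hlw0 hlw 2) (by positivity) (by positivity)
  have htot : (((Icc 1 H).filter (fun h => (v + h).Coprime (primorial w))).card : ℝ) ≤
      κ * Real.log X := by
    rw [← hLdef]
    refine hE5.trans (b73.trans ?_)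
    calc C * κ' * w ≤ C * κ' * (κ₀ * L) := mul_le_mul_of_nonneg_left b82 (by positivity)
      _ = κ * L := by rw [hκ'def]; field_simp
  have hJn1 : K₁ * (Real.log X / Real.log (Real.log X)) ≤ (J : ℝ) * n := by
    rw [← hLdef]
    rw [div_le_iff₀ hJ0] at hn1
    linarith
  have hJn2 : (J : ℝ) * n ≤ 2 * K₁ * (Real.log X / Real.log (Real.log X)) := by
    rw [← hLdef]
    have e := mul_le_mul_of_nonneg_left hn2.le hJ0.le
    have e' : (J : ℝ) * (K₁ * (L / Real.log L) / J + 1) = K₁ * (L / Real.log L) + J := by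
      field_simp
    rw [e'] at e
    linarith
  obtain ⟨a, ha1, ha2, ha3, ha4, ha5⟩ := hS' X b1 hXgood w v H n E hwdef hv hHL
    hEI hEco hdisj hEc hJn1 hJn2 htot
  obtain ⟨m, i, hi, hm1, hm2, hm3⟩ := h4 a H k J d x E hEx hxx hxH ha3 ha4 ha5
  have hinf := Nat.infinite_setOfPred_prime
  refine ⟨X, (le_max_left _ _).trans b3, m, i, hi, ?_, ?_, ?_⟩
  · have : (a : ℝ) ≤ (Nat.nth Nat.Prime m : ℝ) := by exact_mod_cast hm1.le
    linarith
  · have h1 : Nat.nth Nat.Prime m ≤ Nat.nth Nat.Prime (m + k) :=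
      (Nat.nth_le_nth hinf).2 (by omega)
    have h2 : (Nat.nth Nat.Prime m : ℝ) ≤ ((a + H : ℕ) : ℝ) := by
      exact_mod_cast h1.trans hm2
    linarith
  · intro j
    rw [← hFdef]
    have q1 := hm3 j.succ
    have q2 := hm3 j.castSucc
    rw [Fin.val_succ, ← add_assoc] at q1
    rw [Fin.val_castSucc] at q2
    have q3 : ((a : ℝ) + x (i j.succ)) < (Nat.nth Nat.Prime (m + j + 1) : ℝ) := by
      exact_mod_cast q1.1
    have q4 : (Nat.nth Nat.Prime (m + j + 1) : ℝ) ≤ (a : ℝ) + x (i j.succ) + d := by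
      exact_mod_cast q1.2
    have q5 : ((a : ℝ) + x (i j.castSucc)) < (Nat.nth Nat.Prime (m + j) : ℝ) := by
      exact_mod_cast q2.1
    have q6 : (Nat.nth Nat.Prime (m + j) : ℝ) ≤ (a : ℝ) + x (i j.castSucc) + d := by
      exact_mod_cast q2.2
    have r1 := hxl (i j.succ)
    have r2 := hxu (i j.succ)
    have r3 := hxl (i j.castSucc)
    have r4 := hxu (i j.castSucc)
    exact FINL_abs q3 q4 q5 q6 r1 r2 r3 r4 hdη hηF

theorem p_FINL (h1 : Stmt_AN) (h2 : Stmt_SCK) (h3 : Stmt_RESP) (h4 : Stmt_CHL)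
    (h5 : Stmt_NUF) (h6 : Stmt_NUG) (h7 : Stmt_SLV) : Stmt_LIM := by
  intro k hk
  obtain ⟨κf, J, hκf, hkJ, hsc⟩ := FINL_scale h1 h2 h3 h4 h5 h6 k hk
  refine ⟨κf, J, hκf, hkJ, fun b hb hb2 => ?_⟩
  have hinf := Nat.infinite_setOfPred_prime
  -- one epsilon
  have core : ∀ ε : ℝ, 0 < ε → ∀ N : ℕ, ∃ n ≥ N, ∃ i : Fin (k + 1) → Fin J, StrictMono i ∧
      0 < ff (Nat.nth Nat.Prime n) ∧ ∀ j : Fin k,
        |((Nat.nth Nat.Prime (n + j + 1) : ℝ) - Nat.nth Nat.Prime (n + j)) -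
          (b (i j.succ) - b (i j.castSucc)) * ff (Nat.nth Nat.Prime n)| ≤
            ε * ff (Nat.nth Nat.Prime n) := by
    intro ε hε N
    obtain ⟨ζ, hζ⟩ : ∃ ζ : ℝ, ζ = min (1 / 2) (ε / (4 * (κf + 1))) := ⟨_, rfl⟩
    have hζ0 : 0 < ζ := by rw [hζ]; positivity
    have hζ1 : ζ ≤ 1 / 2 := by rw [hζ]; exact min_le_left _ _
    have hζ2 : ζ * κf ≤ ε / 4 := by
      have : ζ ≤ ε / (4 * (κf + 1)) := by rw [hζ]; exact min_le_right _ _
      calc ζ * κf ≤ ε / (4 * (κf + 1)) * (κf + 1) :=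
            mul_le_mul this (by linarith) hκf.le (by positivity)
        _ = ε / 4 := by field_simp
    obtain ⟨X₀, hX₀⟩ := h7 ζ hζ0
    obtain ⟨X, hX1, n, i, hi, hn1, hn2, hn3⟩ := hsc b hb hb2 (ε / 4) (by positivity)
      (max X₀ (Nat.nth Nat.Prime N))
    obtain ⟨hF0, hFs⟩ := hX₀ X ((le_max_left _ _).trans hX1)
    have hFn := hFs _ hn1 hn2
    obtain ⟨F, hF⟩ : ∃ F : ℝ, F = ff X := ⟨_, rfl⟩
    obtain ⟨F', hF'⟩ : ∃ F' : ℝ, F' = ff (Nat.nth Nat.Prime n : ℝ) := ⟨_, rfl⟩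
    rw [← hF] at hF0 hFn
    rw [← hF'] at hFn
    rw [abs_le] at hFn
    have hFF' : F ≤ 2 * F' := by nlinarith
    refine ⟨n, ?_, i, hi, ?_, fun j => ?_⟩
    · have e : (Nat.nth Nat.Prime N : ℝ) ≤ (Nat.nth Nat.Prime n : ℝ) :=
        (le_max_right _ _).trans (hX1.trans hn1)
      have e' : Nat.nth Nat.Prime N ≤ Nat.nth Nat.Prime n := by exact_mod_cast e
      exact (Nat.nth_le_nth hinf).1 e'
    · rw [← hF']; linarith
    · have q := hn3 j
      rw [← hF] at q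
      rw [← hF']
      have u1 : b (i j.succ) - b (i j.castSucc) ≤ κf := by
        have := (hb2 (i j.succ)).2
        have := (hb2 (i j.castSucc)).1
        linarith
      have u2 : 0 ≤ b (i j.succ) - b (i j.castSucc) := by
        have := hb (hi (Fin.castSucc_lt_succ (i := j)))
        linarith
      obtain ⟨D, hD⟩ : ∃ D : ℝ, D = b (i j.succ) - b (i j.castSucc) := ⟨_, rfl⟩
      rw [← hD] at u1 u2 q ⊢
      have v1 : |D * F - D * F'| ≤ ε / 4 * F := by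
        rw [← mul_sub, abs_mul, abs_of_nonneg u2]
        have : |F - F'| ≤ ζ * F := by rw [abs_le]; constructor <;> linarith
        calc D * |F - F'| ≤ κf * (ζ * F) :=
              mul_le_mul u1 this (abs_nonneg _) hκf.le
          _ = (ζ * κf) * F := by ring
          _ ≤ ε / 4 * F := mul_le_mul_of_nonneg_right hζ2 hF0.le
      rw [abs_le] at q v1 ⊢
      constructor <;> nlinarith
  -- pigeonhole
  by_contra hcon
  push Not at hcon
  have hcon' : ∀ i : Fin (k + 1) → Fin J, ∃ ε : ℝ, 0 < ε ∧ (StrictMono i → ∃ N : ℕ, ∀ n ≥ N,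
      ∃ j : Fin k, ε * ff (Nat.nth Nat.Prime n) <
        |((Nat.nth Nat.Prime (n + j + 1) : ℝ) - Nat.nth Nat.Prime (n + j)) -
          (b (i j.succ) - b (i j.castSucc)) * ff (Nat.nth Nat.Prime n)|) := by
    intro i
    by_cases hi : StrictMono i
    · obtain ⟨ε, hε, h⟩ := hcon i hi
      exact ⟨ε, hε, fun _ => eventually_atTop.mp h⟩
    · exact ⟨1, one_pos, fun h => absurd h hi⟩
  choose e he hN using hcon'
  have : Nonempty (Fin J) := ⟨⟨0, by omega⟩⟩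
  obtain ⟨i₀, hi₀⟩ := Finite.exists_min e
  choose N' hN' using hN
  classical
  obtain ⟨M, hM⟩ : ∃ M : ℕ, ∀ (i : Fin (k + 1) → Fin J) (h : StrictMono i), N' i h ≤ M := by
    refine ⟨Finset.univ.sup (fun i : Fin (k + 1) → Fin J =>
      if h : StrictMono i then N' i h else 0), fun i h => ?_⟩
    have := Finset.le_sup (f := fun i : Fin (k + 1) → Fin J =>
      if h : StrictMono i then N' i h else 0) (Finset.mem_univ i)
    simpa only [dif_pos h] using this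
  obtain ⟨n, hn, i, hi, hpos, hj⟩ := core (e i₀) (he i₀) M
  obtain ⟨j, hj'⟩ := hN' i hi n ((hM i hi).trans hn)
  have h1 := hj j
  have h2 : e i₀ * ff (Nat.nth Nat.Prime n) ≤ e i * ff (Nat.nth Nat.Prime n) :=
    mul_le_mul_of_nonneg_right (hi₀ i) hpos.le
  linarith

end Pool.LGC
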