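import Pool.Agent.Work.MP_b0c12c_chain.Interface

set_option autoImplicit false

namespace Pool.LGC

open Finset Filter
open Pool.LGP

theorem p_FM1 (hAVG : Stmt_AVG) : Stmt_FM1 := by
  intro R A hR
  have h1 : ∑ v ∈ range (∏ p ∈ R, p), (Xv R A v : ℝ) =
      ∑ q ∈ A, (((range (∏ p ∈ R, p)).filter (fun v => ∀ p ∈ R, ¬ p ∣ v + q)).card : ℝ) := by
    unfold Xv
    simp only [Finset.card_filter, Nat.cast_sum]
    exact Finset.sum_comm
  rw [h1]
  have h2 : ∀ q ∈ A,
      (((range (∏ p ∈ R, p)).filter (fun v => ∀ p ∈ R, ¬ p ∣ v + q)).card : ℝ) =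
        ((∏ p ∈ R, p : ℕ) : ℝ) * Pi' R := by
    intro q _
    rw [(hAVG R hR q q).1]
    unfold Pi'
    rw [Nat.cast_prod, Nat.cast_prod, ← Finset.prod_mul_distrib]
    refine Finset.prod_congr rfl fun p hp => ?_
    have hp1 : 1 ≤ p := (hR p hp).one_lt.le
    have hp0 : (p : ℝ) ≠ 0 := by
      have := (hR p hp).pos
      positivity
    rw [Nat.cast_sub hp1]
    field_simp
    simp
  rw [Finset.sum_congr rfl h2, Finset.sum_const, nsmul_eq_mul]
  ring

end Pool.LGC
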