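import Pool.Agent.Work.MP_b0c12c_chain.Interface

set_option autoImplicit false

namespace Pool.LGC

open Finset Filter
open Pool.LGP

theorem GEX_sum (P : Finset ℕ) (g : Finset ℕ → ℝ) :
    ∑ T : Finset P, g (T.map (Function.Embedding.subtype _)) = ∑ T ∈ P.powerset, g T := by
  refine Finset.sum_bij (fun T _ => T.map (Function.Embedding.subtype _)) ?_ ?_ ?_ ?_
  · intro T _
    rw [Finset.mem_powerset]
    intro x hx
    rw [Finset.mem_map] at hx
    obtain ⟨y, _, rfl⟩ := hx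
    exact y.2
  · intro T _ T' _ h
    exact Finset.map_injective _ h
  · intro T hT
    exact ⟨T.subtype (· ∈ P), Finset.mem_univ _,
      Finset.subtype_map_of_mem (fun x hx => Finset.mem_powerset.mp hT hx)⟩
  · intro T _
    rfl

theorem GEX_prod {P : Finset ℕ} (T : Finset P) :
    ∏ x ∈ T, ((x : ℕ) : ℝ) = ∏ p ∈ T.map (Function.Embedding.subtype _), (p : ℝ) := by
  rw [Finset.prod_map]
  rfl

theorem GEX_mem {P : Finset ℕ} (T : Finset P) (x : P) :
    ((x : ℕ) ∈ T.map (Function.Embedding.subtype _)) ↔ x ∈ T := by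
  constructor
  · intro hx
    rw [Finset.mem_map] at hx
    obtain ⟨y, hy, hyx⟩ := hx
    have : y = x := Subtype.ext hyx
    rwa [this] at hy
  · intro hx
    exact Finset.mem_map.mpr ⟨x, hx, rfl⟩

/-- the number of square free products below `R` -/
theorem GEX_card (P : Finset ℕ) (hP : ∀ p ∈ P, p.Prime) (R : ℝ) (hR : 0 ≤ R) :
    ∑ T ∈ P.powerset, (open Classical in if (∏ p ∈ T, (p : ℝ)) ≤ R then (1 : ℝ) else 0) ≤ R := by
  classical
  have h1 : ∑ T ∈ P.powerset, (open Classical in if (∏ p ∈ T, (p : ℝ)) ≤ R then (1 : ℝ) else 0)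
      = ((P.powerset.filter (fun T : Finset ℕ => (∏ p ∈ T, (p : ℝ)) ≤ R)).card : ℝ) := by
    rw [Finset.sum_boole]
  rw [h1]
  have h2 : (P.powerset.filter (fun T : Finset ℕ => (∏ p ∈ T, (p : ℝ)) ≤ R)).card ≤ (Icc 1 ⌊R⌋₊).card := by
    apply Finset.card_le_card_of_injOn (fun T => ∏ p ∈ T, p)
    · intro T hT
      rw [Finset.mem_coe, Finset.mem_filter, Finset.mem_powerset] at hT
      rw [Finset.mem_coe, Finset.mem_Icc]
      refine ⟨Finset.prod_pos (fun p hp => (hP p (hT.1 hp)).pos), ?_⟩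
      apply Nat.le_floor
      rw [Nat.cast_prod]
      exact hT.2
    · intro T hT T' hT' h
      rw [Finset.mem_coe, Finset.mem_filter, Finset.mem_powerset] at hT hT'
      have e1 := Nat.primeFactors_prod (s := T) (fun p hp => hP p (hT.1 hp))
      have e2 := Nat.primeFactors_prod (s := T') (fun p hp => hP p (hT'.1 hp))
      have h' : (∏ p ∈ T, p) = ∏ p ∈ T', p := h
      rw [← e1, ← e2, h']
  calc ((P.powerset.filter (fun T : Finset ℕ => (∏ p ∈ T, (p : ℝ)) ≤ R)).card : ℝ)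
      ≤ ((Icc 1 ⌊R⌋₊).card : ℝ) := by exact_mod_cast h2
    _ = (⌊R⌋₊ : ℝ) := by rw [Nat.card_Icc]; norm_num
    _ ≤ R := Nat.floor_le hR

/-- elementary inequalities for large `L` -/
theorem GEX_large (η R₀ : ℝ) (hη : 0 < η) : ∃ L₀ : ℝ, ∀ L : ℝ, L₀ ≤ L →
    1 ≤ Real.log L ∧ 64 * Real.log L ≤ η * L ∧ R₀ ≤ Real.exp (η * L) ∧ 2 ≤ L := by
  have h1 : ∀ᶠ L : ℝ in atTop, 1 ≤ Real.log L := Real.tendsto_log_atTop.eventually_ge_atTop 1
  have h3 : ∀ᶠ L : ℝ in atTop, ‖Real.log L‖ ≤ (η / 64) * ‖L‖ :=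
    Real.isLittleO_log_id_atTop.bound (by positivity)
  have h4 : ∀ᶠ L : ℝ in atTop, R₀ ≤ Real.exp (η * L) :=
    (Real.tendsto_exp_atTop.comp (tendsto_id.const_mul_atTop hη)).eventually_ge_atTop R₀
  have h5 : ∀ᶠ L : ℝ in atTop, (2 : ℝ) ≤ L := eventually_ge_atTop 2
  obtain ⟨L₀, h⟩ := eventually_atTop.1 (h1.and (h3.and (h4.and h5)))
  refine ⟨L₀, fun L hL => ?_⟩
  obtain ⟨g1, g3, g4, g5⟩ := h L hL
  have hl0 : 0 ≤ Real.log L := by linarith
  rw [Real.norm_of_nonneg hl0, Real.norm_of_nonneg (by linarith)] at g3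
  refine ⟨g1, by linarith, g4, g5⟩

theorem p_GEX (h1 : Pool.LGP.Stmt_VLO) (h2 : Pool.LGP.Stmt_VUP) : Stmt_GEX := by
  classical
  intro η hη hη1
  obtain ⟨c, R₀, hc, hlo⟩ := h1
  obtain ⟨C, hC, hup⟩ := h2
  obtain ⟨L₀, hL₀⟩ := GEX_large η R₀ hη
  refine ⟨4 / (c * η), max 1 (C / c), L₀, by positivity, le_max_left _ _, ?_⟩
  intro L hL P hP
  obtain ⟨g1, g2, g3, g4⟩ := hL₀ L hL
  have hLpos : 0 < L := by linarith
  have hl : 0 < Real.log L := by linarith
  set z : ℕ := ⌈L ^ 3⌉₊ with hz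
  have hL3 : (8 : ℝ) ≤ L ^ 3 := by
    have : (2 : ℝ) ^ 3 ≤ L ^ 3 := by gcongr
    linarith
  have hz1 : L ^ 3 ≤ z := Nat.le_ceil _
  have hz2 : (z : ℝ) ≤ L ^ 3 + 1 := (Nat.ceil_lt_add_one (by positivity)).le
  have hz8 : (8 : ℝ) ≤ z := hL3.trans hz1
  have hzN : 2 ≤ z := by
    have : (2 : ℝ) ≤ z := by linarith
    exact_mod_cast this
  have hzpos : (0 : ℝ) < z := by linarith
  have hz4 : (z : ℝ) ≤ L ^ 4 := by
    have : L ^ 4 = L ^ 3 * L := by ring
    nlinarith
  have hlogz : Real.log z ≤ 4 * Real.log L := by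
    have h1 := Real.log_le_log hzpos hz4
    rw [Real.log_pow] at h1
    exact_mod_cast h1
  have hlogz0 : 0 < Real.log z := Real.log_pos (by linarith)
  set R : ℝ := Real.exp (η * L) with hR
  have hRpos : 0 < R := Real.exp_pos _
  have hlogR : Real.log R = η * L := Real.log_exp _
  have hηL : 0 < η * L := by positivity
  have hR1 : 1 ≤ R := Real.one_le_exp hηL.le
  have hPz : ∀ p ∈ P, p.Prime ∧ z < p := fun p hp => ⟨((hP p).1 hp).1, ((hP p).1 hp).2.1⟩
  have hz16 : (z : ℝ) ^ 16 ≤ R := by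
    have e1 : (z : ℝ) ^ 16 = Real.exp (16 * Real.log z) := by
      rw [show (16 : ℝ) * Real.log z = Real.log ((z : ℝ) ^ 16) by rw [Real.log_pow]; norm_num,
        Real.exp_log (by positivity)]
    rw [e1, hR]
    apply Real.exp_le_exp.2
    linarith
  have hzR : (z : ℝ) ≤ R := by
    refine le_trans ?_ hz16
    have h1z : (1 : ℝ) ≤ z := by linarith
    calc (z : ℝ) = z ^ 1 := (pow_one _).symm
      _ ≤ z ^ 16 := pow_le_pow_right₀ h1z (by norm_num)
  -- the products
  have hpos : ∀ T : Finset P, 0 < ∏ x ∈ T, ((x : ℕ) : ℝ) := fun T =>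
    Finset.prod_pos (fun x _ => by exact_mod_cast (hPz x x.2).1.pos)
  set f : Finset P → ℝ := fun T => if ∏ x ∈ T, ((x : ℕ) : ℝ) ≤ R then
    1 / ∏ x ∈ T, ((x : ℕ) : ℝ) else 0 with hf
  have hf0 : ∀ T, 0 ≤ f T := by
    intro T
    simp only [hf]
    split_ifs
    · exact one_div_nonneg.mpr (hpos T).le
    · exact le_rfl
  set V : ℝ := ∑ T, f T with hV
  have hV1 : 1 ≤ V := by
    have h0 : f ∅ = 1 := by
      simp only [hf, Finset.prod_empty]
      rw [if_pos hR1]
      norm_num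
    calc (1 : ℝ) = f ∅ := h0.symm
      _ ≤ V := Finset.single_le_sum (fun T _ => hf0 T) (Finset.mem_univ _)
  have hVpos : 0 < V := by linarith
  have hVlo : c * (Real.log R / Real.log z) ≤ V := by
    refine (hlo z R P hzN hz16 g3 (fun p hp hzp hpR => (hP p).2 ⟨hp, hzp, hpR⟩) hPz).trans ?_
    have e1 : V = ∑ T ∈ P.powerset, (if (∏ p ∈ T, (p : ℝ)) ≤ R then
        1 / (∏ p ∈ T, (p : ℝ)) else 0) := by
      rw [← GEX_sum P (fun T => if (∏ p ∈ T, (p : ℝ)) ≤ R then 1 / (∏ p ∈ T, (p : ℝ)) else 0)]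
      rw [hV]
      refine Finset.sum_congr rfl (fun T _ => ?_)
      simp only [hf, GEX_prod T]
    rw [e1]
    refine Finset.sum_le_sum (fun T hT => ?_)
    have hTpos : 0 ≤ 1 / (∏ p ∈ T, (p : ℝ)) :=
      one_div_nonneg.mpr (Finset.prod_nonneg (fun p _ => Nat.cast_nonneg p))
    by_cases h : (∏ p ∈ T, (p : ℝ)) ≤ R
    · rw [if_pos h]
      split_ifs
      · exact le_rfl
      · exact hTpos
    · rw [if_neg h, if_neg (fun h' => h h'.2)]
  have hVup : ∀ x : P, ∑ T, (if x ∈ T then f T else 0) ≤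
      C / ((x : ℕ) : ℝ) * (Real.log R / Real.log z) := by
    intro x
    refine le_trans (le_of_eq ?_) (hup z R P hzN hzR hPz x x.2)
    rw [← GEX_sum P (fun T => if (x : ℕ) ∈ T ∧ (∏ p ∈ T, (p : ℝ)) ≤ R then
      1 / (∏ p ∈ T, (p : ℝ)) else 0)]
    refine Finset.sum_congr rfl (fun T _ => ?_)
    simp only [hf, GEX_prod T, GEX_mem T x]
    by_cases hx : x ∈ T
    · simp [hx]
    · simp [hx]
  refine ⟨fun T => f T / V, fun T => div_nonneg (hf0 T) hVpos.le, ?_, ?_, ?_, ?_, ?_⟩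
  · rw [← Finset.sum_div]
    exact div_self hVpos.ne'
  · have e1 : ∀ T, (f T / V) ^ 2 * ∏ x ∈ T, ((x : ℕ) : ℝ) = f T / V ^ 2 := by
      intro T
      simp only [hf]
      have := (hpos T).ne'
      split_ifs
      · field_simp
      · simp
    rw [Finset.sum_congr rfl (fun T _ => e1 T), ← Finset.sum_div]
    have e2 : (∑ T, f T) / V ^ 2 = 1 / V := by
      rw [← hV]
      field_simp
    rw [e2]
    have hlow : 0 < c * (Real.log R / Real.log z) := by
      rw [hlogR]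
      positivity
    calc 1 / V ≤ 1 / (c * (Real.log R / Real.log z)) := one_div_le_one_div_of_le hlow hVlo
      _ = Real.log z / (c * (η * L)) := by
          rw [hlogR]
          field_simp
      _ ≤ 4 * Real.log L / (c * (η * L)) := by
          gcongr
      _ = 4 / (c * η) * (Real.log L / L) := by
          field_simp
  · intro x
    have e1 : ∀ T : Finset P, (if x ∈ T then f T / V else 0) = (if x ∈ T then f T else 0) / V := by
      intro T
      split_ifs
      · rfl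
      · simp
    rw [Finset.sum_congr rfl (fun T _ => e1 T), ← Finset.sum_div, div_le_iff₀ hVpos]
    have hx : (0 : ℝ) < ((x : ℕ) : ℝ) := by exact_mod_cast (hPz x x.2).1.pos
    refine (hVup x).trans ?_
    have hlow : 0 < Real.log R / Real.log z := by
      rw [hlogR]
      positivity
    calc C / ((x : ℕ) : ℝ) * (Real.log R / Real.log z)
        = (C / c) / ((x : ℕ) : ℝ) * (c * (Real.log R / Real.log z)) := by
          field_simp
      _ ≤ (C / c) / ((x : ℕ) : ℝ) * V := by gcongr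
      _ ≤ max 1 (C / c) / ((x : ℕ) : ℝ) * V := by
          gcongr
          exact le_max_right _ _
  · intro T hT
    by_contra h
    apply hT
    simp only [hf]
    rw [if_neg h]
    simp
  · have e1 : ∀ T, f T / V * ∏ x ∈ T, (((x : ℕ) : ℝ) + 1) ≤
        R * (if ∏ x ∈ T, ((x : ℕ) : ℝ) ≤ R then (1 : ℝ) else 0) := by
      intro T
      have hfV : f T / V ≤ f T := div_le_self (hf0 T) hV1
      have hp1 : ∏ x ∈ T, (((x : ℕ) : ℝ) + 1) ≤ (∏ x ∈ T, ((x : ℕ) : ℝ)) ^ 2 := by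
        rw [← Finset.prod_pow]
        refine Finset.prod_le_prod (fun x _ => by positivity) (fun x _ => ?_)
        have hx : (2 : ℝ) ≤ ((x : ℕ) : ℝ) := by exact_mod_cast (hPz x x.2).1.two_le
        nlinarith
      have hp0 : 0 ≤ ∏ x ∈ T, (((x : ℕ) : ℝ) + 1) :=
        Finset.prod_nonneg (fun x _ => by positivity)
      calc f T / V * ∏ x ∈ T, (((x : ℕ) : ℝ) + 1)
          ≤ f T * (∏ x ∈ T, ((x : ℕ) : ℝ)) ^ 2 :=
            mul_le_mul hfV hp1 hp0 (hf0 T)
        _ ≤ R * (if ∏ x ∈ T, ((x : ℕ) : ℝ) ≤ R then (1 : ℝ) else 0) := by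
            simp only [hf]
            by_cases h : ∏ x ∈ T, ((x : ℕ) : ℝ) ≤ R
            · rw [if_pos h, if_pos h]
              have := (hpos T).ne'
              have e : 1 / (∏ x ∈ T, ((x : ℕ) : ℝ)) * (∏ x ∈ T, ((x : ℕ) : ℝ)) ^ 2 =
                  ∏ x ∈ T, ((x : ℕ) : ℝ) := by
                field_simp
              rw [e, mul_one]
              exact h
            · rw [if_neg h, if_neg h]
              simp
    calc ∑ T, f T / V * ∏ x ∈ T, (((x : ℕ) : ℝ) + 1)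
        ≤ ∑ T : Finset P, R * (if ∏ x ∈ T, ((x : ℕ) : ℝ) ≤ R then (1 : ℝ) else 0) :=
          Finset.sum_le_sum (fun T _ => e1 T)
      _ = R * ∑ T : Finset P, (if ∏ x ∈ T, ((x : ℕ) : ℝ) ≤ R then (1 : ℝ) else 0) := by
          rw [Finset.mul_sum]
      _ ≤ R * R := by
          refine mul_le_mul_of_nonneg_left ?_ hRpos.le
          refine le_trans (le_of_eq ?_) (GEX_card P (fun p hp => (hPz p hp).1) R hRpos.le)
          rw [← GEX_sum P (fun T => if (∏ p ∈ T, (p : ℝ)) ≤ R then (1 : ℝ) else 0)]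
          refine Finset.sum_congr rfl (fun T _ => ?_)
          rw [GEX_prod T]
      _ = Real.exp (2 * (η * L)) := by
          rw [hR, ← Real.exp_add]
          congr 1
          ring

end Pool.LGC
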