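import Pool.Agent.Work.MP_b0c12c_chain.Interface

/-! GLX: global expansion of the prime weighted sum (helper85). -/

set_option autoImplicit false

namespace Pool.LGC

open Finset Filter
open Pool.LGP

theorem p_GLX (h1 : Stmt_SQX) (h2 : Stmt_WOR) : Stmt_GLX := by
  intro π ι _ _ _ S hS hW a e Y hE heW hpr
  classical
  -- F² th as a sum over X
  have hF : ∀ y ∈ Ioc Y (2 * Y), ((FF S a y ^ 2 * th (S.W * y + e) : ℝ) : ℂ) =
      ∑ X : (∀ x : π, DirichletCharacter ℂ (S.pr x)),
        cX S e a X * ((th (S.W * y + e) : ℂ) *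
          ∏ x, X x ((S.W * y + e : ℕ) : ZMod (S.pr x))) := by
    intro y hy
    by_cases hp : (S.W * y + e).Prime
    · have hgt : S.W * Y + e < S.W * y + e := by
        have := (Finset.mem_Ioc.mp hy).1
        have := Nat.mul_lt_mul_of_pos_left this hW
        omega
      have hc := hpr _ hp hgt
      have := h1 π ι S hS a e y hE (fun x => by
        rw [Nat.coprime_primes hp (hS.prime x)]
        exact (hc.2 x).ne')
      rw [Complex.ofReal_mul, this, Finset.sum_mul]
      refine Finset.sum_congr rfl fun X _ => ?_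
      ring
    · have : th (S.W * y + e) = 0 := by simp [th, hp]
      simp [this]
  rw [Complex.ofReal_sum, Finset.sum_congr rfl hF, Finset.sum_comm, Finset.mul_sum]
  rw [Finset.sum_comm]
  refine Finset.sum_congr rfl fun X _ => ?_
  rw [← Finset.mul_sum, mul_left_comm]
  have hw := h2 S.W e Y (fun n => (th n : ℂ) * ∏ x, X x (n : ZMod (S.pr x))) hW heW (by
    intro n hn hne
    have hp : n.Prime := by
      by_contra hp
      apply hne
      simp [th, hp]
    exact (hpr n hp hn).1)
  rw [hw, Finset.mul_sum]
  refine Finset.sum_congr rfl fun χ _ => ?_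
  rw [← mul_assoc, mul_comm (cX S e a X)]
  congr 1
  refine Finset.sum_congr rfl fun n _ => ?_
  ring

end Pool.LGC
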