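import Pool.Agent.Work.MP_b0c12c_chain.B_GSC0
import Pool.Agent.Work.PS.Main

/-! # GSC: arbitrarily large scales where the sum over the zeros is small -/

set_option autoImplicit false

namespace Pool.LGC

theorem p_GSC : Stmt_GSC := gsc Pool.Agent.PS.main_zs Pool.Agent.PS.stmt_ZSPEC

end Pool.LGC
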