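import Pool.Agent.Work.MP_b0c12c_chain.InterfaceAN
import Pool.Agent.Work.PS.WS3

/-! # GSC: arbitrarily large scales where the sum over the zeros is small (from ZS) -/

set_option autoImplicit false

namespace Pool.LGC

open Finset Filter
open Pool.Agent.PS (zs zl zx Exc Stmt_ZS Stmt_ZSPEC zs_nonneg Fam_mono exc_mem_zl)

abbrev PCh := Pool.Agent.PS.Ch

/-- One term of the sum over a list. -/
theorem term_le_zs {L : List ℂ} {Y : ℝ} (hY : 0 ≤ Y) {ρ : ℂ} (h : ρ ∈ L) :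
    Y ^ (ρ.re - 1) ≤ zs L Y := by
  unfold Pool.Agent.PS.zs
  exact List.single_le_sum (fun x hx => by
    rw [List.mem_map] at hx
    obtain ⟨σ, _, rfl⟩ := hx
    exact Real.rpow_nonneg hY _) _ (List.mem_map.2 ⟨ρ, h, rfl⟩)

/-- Removing one term. -/
theorem zs_erase {L : List ℂ} {Y : ℝ} (hY : 0 ≤ Y) (ρ : ℂ) :
    zs L Y ≤ Y ^ (ρ.re - 1) + zs (L.erase ρ) Y := by
  by_cases h : ρ ∈ L
  · unfold Pool.Agent.PS.zs
    have h1 := (List.perm_cons_erase h).map (fun ρ : ℂ => Y ^ (ρ.re - 1))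
    rw [h1.sum_eq, List.map_cons, List.sum_cons]
  · rw [List.erase_of_not_mem h]
    linarith [Real.rpow_nonneg hY (ρ.re - 1)]

/-- The full sum is at most the reduced sum and the exceptional term. -/
theorem full_le (Z : ℕ) (y : PCh) (δ Y : ℝ) (hY : 0 ≤ Y) :
    ∑ x ∈ Pool.Agent.PS.Fam Z, zs (zl x Z) Y ≤ Y ^ (-δ) + ∑ x ∈ Pool.Agent.PS.Fam Z, zs (zx Z y δ x) Y := by
  classical
  have h1 : ∀ x ∈ Pool.Agent.PS.Fam Z, zs (zl x Z) Y ≤ (if x = y then Y ^ (-δ) else 0) + zs (zx Z y δ x) Y := by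
    intro x _
    by_cases hxy : x = y
    · rw [if_pos hxy]
      unfold Pool.Agent.PS.zx
      rw [if_pos hxy]
      have := zs_erase (L := zl x Z) hY ((1 - δ : ℝ) : ℂ)
      rw [Complex.ofReal_re] at this
      rw [show (-δ : ℝ) = 1 - δ - 1 by ring]
      exact this
    · rw [if_neg hxy, zero_add]
      unfold Pool.Agent.PS.zx
      rw [if_neg hxy]
  refine (sum_le_sum h1).trans ?_
  rw [sum_add_distrib]
  have h2 : ∑ x ∈ Pool.Agent.PS.Fam Z, (if x = y then Y ^ (-δ) else 0) ≤ Y ^ (-δ) := by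
    rw [Finset.sum_ite_eq' (Pool.Agent.PS.Fam Z) y (fun _ => Y ^ (-δ))]
    split_ifs
    · exact le_rfl
    · exact Real.rpow_nonneg hY _
  linarith

/-- A second exceptional pair would be too heavy. -/
theorem other_ge (hSP : Stmt_ZSPEC) (Z : ℕ) (y y' : PCh) (δ δ' Y : ℝ) (hY : 0 ≤ Y)
    (h : Exc Z y δ) (hδ : δ ≤ 1 / 10) (hne : ¬ (y' = y ∧ δ' = δ)) :
    Y ^ (-δ) ≤ ∑ x ∈ Pool.Agent.PS.Fam Z, zs (zx Z y' δ' x) Y := by
  have hmem := exc_mem_zl hSP h hδ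
  have h1 : ((1 - δ : ℝ) : ℂ) ∈ zx Z y' δ' y := by
    unfold Pool.Agent.PS.zx
    by_cases hy : y = y'
    · rw [if_pos hy]
      refine (List.mem_erase_of_ne ?_).2 hmem
      intro hc
      have hc' : (1 - δ : ℝ) = 1 - δ' := Complex.ofReal_injective hc
      exact hne ⟨hy.symm, by linarith⟩
    · rw [if_neg hy]
      exact hmem
  have h2 := term_le_zs hY h1
  rw [Complex.ofReal_re, show (1 - δ - 1 : ℝ) = -δ by ring] at h2
  refine h2.trans ?_
  exact Finset.single_le_sum (f := fun x => zs (zx Z y' δ' x) Y)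
    (fun x _ => zs_nonneg _ _ hY) h.mem

theorem gsc (hZS : Stmt_ZS) (hSP : Stmt_ZSPEC) : Stmt_GSC := by
  intro ε hε
  set ε₁ : ℝ := min ε (1 / 2) / 4 with hε₁
  have he0 : 0 < ε₁ := by
    rw [hε₁]
    have : 0 < min ε (1 / 2) := lt_min hε (by norm_num)
    linarith
  have he1 : 4 * ε₁ ≤ ε := by
    rw [hε₁]
    have := min_le_left ε (1 / 2)
    linarith
  have he2 : ε₁ ≤ 1 / 8 := by
    rw [hε₁]
    have := min_le_right ε (1 / 2)
    linarith
  obtain ⟨κ₁, hκ₁, Z0, hZ⟩ := hZS ε₁ he0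
  set κ : ℝ := min κ₁ (1 / 1000) with hκ
  have hκ0 : 0 < κ := lt_min hκ₁ (by norm_num)
  refine ⟨κ, hκ0, min_le_right _ _, ?_⟩
  intro X₀
  -- a large starting scale
  set B : ℝ := max (Z0 : ℝ) (Real.exp 10) + 1 with hB
  have hB1 : 1 ≤ B := by
    rw [hB]
    have : 0 ≤ max (Z0 : ℝ) (Real.exp 10) := le_max_of_le_left (Nat.cast_nonneg _)
    linarith
  set X₁ : ℝ := max (max X₀ 1) (B ^ (1 / κ)) with hX₁
  have hX₁1 : 1 ≤ X₁ := (le_max_right _ _).trans (le_max_left _ _)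
  have hX₁0 : X₀ ≤ X₁ := (le_max_left _ _).trans (le_max_left _ _)
  have hbig : ∀ X : ℝ, X₁ ≤ X → Z0 ≤ ⌊X ^ κ⌋₊ ∧ Real.exp 10 ≤ (⌊X ^ κ⌋₊ : ℝ) ∧
      ((⌊X ^ κ⌋₊ : ℕ) : ℝ) ≤ X ^ κ₁ := by
    intro X hX
    have hX1 : 1 ≤ X := hX₁1.trans hX
    have h1 : B ≤ X ^ κ := by
      have h2 : (B ^ (1 / κ)) ^ κ ≤ X ^ κ :=
        Real.rpow_le_rpow (Real.rpow_nonneg (by linarith) _) ((le_max_right _ _).trans hX) hκ0.le
      rwa [← Real.rpow_mul (by linarith), one_div_mul_cancel hκ0.ne', Real.rpow_one] at h2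
    have h3 : B - 1 < (⌊X ^ κ⌋₊ : ℝ) := by
      have := Nat.lt_floor_add_one (X ^ κ)
      linarith
    have h4 : max (Z0 : ℝ) (Real.exp 10) < (⌊X ^ κ⌋₊ : ℝ) := by
      rw [hB] at h3
      linarith
    refine ⟨?_, ?_, ?_⟩
    · have : (Z0 : ℝ) < (⌊X ^ κ⌋₊ : ℝ) := lt_of_le_of_lt (le_max_left _ _) h4
      exact_mod_cast this.le
    · exact (lt_of_le_of_lt (le_max_right _ _) h4).le
    · have h5 : ((⌊X ^ κ⌋₊ : ℕ) : ℝ) ≤ X ^ κ :=
        Nat.floor_le (Real.rpow_nonneg (by linarith) _)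
      exact h5.trans (Real.rpow_le_rpow_of_exponent_le hX1 (min_le_left _ _))
  -- apply ZS at the starting scale
  obtain ⟨ha, hb, hc⟩ := hbig X₁ le_rfl
  rcases hZ _ ha X₁ hX₁1 hc with h | ⟨y, δ, hexc, hδ, hsum⟩
  · exact ⟨X₁, hX₁0, hX₁1, by linarith⟩
  · have hlog : ∀ Z : ℕ, Real.exp 10 ≤ (Z : ℝ) → 10 ≤ Real.log Z := by
      intro Z h
      rw [Real.le_log_iff_exp_le (lt_of_lt_of_le (Real.exp_pos _) h)]
      exact h
    have hδ10 : δ ≤ 1 / 10 := by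
      refine hδ.trans ?_
      have := hlog _ hb
      exact one_div_le_one_div_of_le (by norm_num) this
    have hδ0 := hexc.pos
    by_cases hX : X₁ ^ (-δ) ≤ 2 * ε₁
    · refine ⟨X₁, hX₁0, hX₁1, ?_⟩
      have h1 := full_le ⌊X₁ ^ κ⌋₊ y δ X₁ (by linarith)
      have h2 : ε₁ * min 1 (δ * Real.log X₁) ≤ ε₁ * 1 :=
        mul_le_mul_of_nonneg_left (min_le_left _ _) he0.le
      linarith
    · push Not at hX
      set X : ℝ := (2 * ε₁) ^ (-(1 / δ)) with hXd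
      have h2e : 0 < 2 * ε₁ := by linarith
      have hXpow : X ^ (-δ) = 2 * ε₁ := by
        rw [hXd, ← Real.rpow_mul h2e.le, neg_mul_neg, one_div_mul_cancel hδ0.ne', Real.rpow_one]
      have hXX : X₁ ≤ X := by
        have h1 : (X₁ ^ (-δ)) ^ (-(1 / δ)) ≤ (2 * ε₁) ^ (-(1 / δ)) := by
          apply Real.rpow_le_rpow_of_nonpos h2e hX.le
          have : 0 < 1 / δ := by positivity
          linarith
        rwa [← Real.rpow_mul (by linarith), neg_mul_neg, mul_one_div_cancel hδ0.ne',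
          Real.rpow_one] at h1
      have hX1 : 1 ≤ X := hX₁1.trans hXX
      obtain ⟨ha', hb', hc'⟩ := hbig X hXX
      refine ⟨X, hX₁0.trans hXX, hX1, ?_⟩
      have hexc' : Exc ⌊X ^ κ⌋₊ y δ := by
        refine ⟨Fam_mono ?_ hexc.mem, hexc.sq, hexc.ne, hexc.pos, hexc.zero⟩
        exact Nat.floor_le_floor (Real.rpow_le_rpow (by linarith) hXX hκ0.le)
      rcases hZ _ ha' X hX1 hc' with h | ⟨y', δ', _, _, hsum'⟩
      · linarith
      · have h2 : ε₁ * min 1 (δ' * Real.log X) ≤ ε₁ * 1 :=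
          mul_le_mul_of_nonneg_left (min_le_left _ _) he0.le
        by_cases hne : y' = y ∧ δ' = δ
        · obtain ⟨rfl, rfl⟩ := hne
          have h1 := full_le ⌊X ^ κ⌋₊ y' δ' X (by linarith)
          rw [hXpow] at h1
          linarith
        · have h3 := other_ge hSP ⌊X ^ κ⌋₊ y y' δ δ' X (by linarith) hexc' hδ10 hne
          rw [hXpow] at h3
          exfalso
          linarith

end Pool.LGC
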