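import Pool.Agent.Work.MP_b0c12c_chain.Interface

/-! # Block IND (helper19): the primitive characters inducing the products -/

set_option autoImplicit false

namespace Pool.LGC

open Finset DirichletCharacter

set_option linter.unusedSectionVars false

namespace IND

variable {π : Type} [Fintype π] [DecidableEq π]

/-- The common modulus. -/
def NN (p : π → ℕ) (W : ℕ) : ℕ := W * ∏ x, p x

lemma W_dvd (p : π → ℕ) (W : ℕ) : W ∣ NN p W := Dvd.intro _ rfl

lemma p_dvd (p : π → ℕ) (W : ℕ) (x : π) : p x ∣ NN p W :=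
  Dvd.dvd.mul_left (Finset.dvd_prod_of_mem p (mem_univ x)) W

/-- The product character modulo the common modulus. -/
noncomputable def Chi (p : π → ℕ) (W : ℕ)
    (z : DirichletCharacter ℂ W × (∀ x : π, DirichletCharacter ℂ (p x))) :
    DirichletCharacter ℂ (NN p W) :=
  changeLevel (W_dvd p W) z.1 * ∏ x, changeLevel (p_dvd p W x) (z.2 x)

lemma coprime_NN {p : π → ℕ} {W n : ℕ} (hW : n.Coprime W) (hp : ∀ x, n.Coprime (p x)) :
    n.Coprime (NN p W) :=
  Nat.Coprime.mul_right hW (Nat.Coprime.prod_right fun x _ => hp x)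

lemma prod_char_apply {N : ℕ} (s : Finset π) (X : π → DirichletCharacter ℂ N) (a : ZMod N)
    (ha : IsUnit a) : (∏ x ∈ s, X x) a = ∏ x ∈ s, X x a := by
  classical
  induction s using Finset.induction_on with
  | empty => simp [MulChar.one_apply ha]
  | insert i s hi ih => rw [prod_insert hi, prod_insert hi, MulChar.mul_apply, ih]

lemma Chi_apply {p : π → ℕ} {W : ℕ}
    (z : DirichletCharacter ℂ W × (∀ x : π, DirichletCharacter ℂ (p x))) {n : ℕ}
    (hW : n.Coprime W) (hp : ∀ x, n.Coprime (p x)) :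
    Chi p W z (n : ZMod (NN p W)) = z.1 (n : ZMod W) * ∏ x, z.2 x (n : ZMod (p x)) := by
  have hc : n.Coprime (NN p W) := coprime_NN hW hp
  have hu : IsUnit (n : ZMod (NN p W)) := (ZMod.isUnit_iff_coprime n _).mpr hc
  have hco : IsCoprime (n : ℤ) ((NN p W : ℕ) : ℤ) := Nat.isCoprime_iff_coprime.mpr hc
  unfold Chi
  rw [MulChar.mul_apply, prod_char_apply _ _ _ hu]
  congr 1
  · have := changeLevel_eq_cast_of_dvd' z.1 (W_dvd p W) hco
    simpa using this
  · refine prod_congr rfl fun x _ => ?_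
    have := changeLevel_eq_cast_of_dvd' (z.2 x) (p_dvd p W x) hco
    simpa using this

/-- The primitive character. -/
noncomputable def pc (p : π → ℕ) (W : ℕ)
    (z : DirichletCharacter ℂ W × (∀ x : π, DirichletCharacter ℂ (p x))) : Ch :=
  ⟨(Chi p W z).conductor, (Chi p W z).primitiveCharacter⟩

lemma pc_apply {p : π → ℕ} {W : ℕ}
    (z : DirichletCharacter ℂ W × (∀ x : π, DirichletCharacter ℂ (p x))) {n : ℕ}
    (hW : n.Coprime W) (hp : ∀ x, n.Coprime (p x)) :
    (pc p W z).2 (n : ZMod (pc p W z).1) = z.1 (n : ZMod W) * ∏ x, z.2 x (n : ZMod (p x)) := by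
  have hc : n.Coprime (NN p W) := coprime_NN hW hp
  have hco : IsCoprime (n : ℤ) ((NN p W : ℕ) : ℤ) := Nat.isCoprime_iff_coprime.mpr hc
  have h1 := primitiveCharacter_apply_of_isCoprime (Chi p W z) hco
  rw [← Chi_apply z hW hp]
  unfold pc
  simpa using h1

/-- The values determine the characters. -/
lemma det {p : π → ℕ} {W : ℕ} (hW : 0 < W) (hpr : ∀ x, (p x).Prime)
    (hinj : Function.Injective p) (hcop : ∀ x, (p x).Coprime W)
    (z z' : DirichletCharacter ℂ W × (∀ x : π, DirichletCharacter ℂ (p x)))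
    (h : ∀ n : ℕ, n.Coprime W → (∀ x, n.Coprime (p x)) →
      z.1 (n : ZMod W) * ∏ x, z.2 x (n : ZMod (p x)) =
        z'.1 (n : ZMod W) * ∏ x, z'.2 x (n : ZMod (p x))) : z = z' := by
  have hNW : NeZero W := ⟨hW.ne'⟩
  -- the case of `W`
  have e1 : z.1 = z'.1 := by
    refine MulChar.ext fun a => ?_
    have hcP : W.Coprime (∏ x, p x) := Nat.Coprime.prod_right fun x _ => (hcop x).symm
    obtain ⟨n, hn1, hn2⟩ := Nat.chineseRemainder hcP (a : ZMod W).val 1
    have hnx : ∀ x, n ≡ 1 [MOD p x] := fun x =>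
      hn2.of_dvd (Finset.dvd_prod_of_mem p (mem_univ x))
    have hnW : (n : ZMod W) = a := by
      rw [(ZMod.natCast_eq_natCast_iff _ _ _).mpr hn1, ZMod.natCast_zmod_val]
    have c1 : n.Coprime W := by
      rw [← ZMod.isUnit_iff_coprime, hnW]; exact a.isUnit
    have cast1 : ∀ x, (n : ZMod (p x)) = 1 := fun x => by
      rw [(ZMod.natCast_eq_natCast_iff _ _ _).mpr (hnx x), Nat.cast_one]
    have c2 : ∀ x, n.Coprime (p x) := fun x => by
      rw [← ZMod.isUnit_iff_coprime, cast1]; exact isUnit_one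
    have := h n c1 c2
    simpa [hnW, cast1] using this
  have e2 : z.2 = z'.2 := by
    funext x₀
    have hNp : NeZero (p x₀) := ⟨(hpr x₀).ne_zero⟩
    refine MulChar.ext fun a => ?_
    have hcQ : (p x₀).Coprime (W * ∏ x ∈ univ.erase x₀, p x) := by
      refine Nat.Coprime.mul_right (hcop x₀) (Nat.Coprime.prod_right fun x hx => ?_)
      refine (Nat.coprime_primes (hpr x₀) (hpr x)).mpr fun hh => ?_
      exact (Finset.ne_of_mem_erase hx) (hinj hh).symm
    obtain ⟨n, hn1, hn2⟩ := Nat.chineseRemainder hcQ (a : ZMod (p x₀)).val 1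
    have hnW : (n : ZMod W) = 1 := by
      rw [(ZMod.natCast_eq_natCast_iff _ _ _).mpr (hn2.of_dvd (Dvd.intro _ rfl)), Nat.cast_one]
    have hn0 : (n : ZMod (p x₀)) = a := by
      rw [(ZMod.natCast_eq_natCast_iff _ _ _).mpr hn1, ZMod.natCast_zmod_val]
    have cast1 : ∀ x, x ≠ x₀ → (n : ZMod (p x)) = 1 := fun x hx => by
      have hd : p x ∣ W * ∏ x ∈ univ.erase x₀, p x :=
        Dvd.dvd.mul_left (Finset.dvd_prod_of_mem p (mem_erase.mpr ⟨hx, mem_univ x⟩)) W
      rw [(ZMod.natCast_eq_natCast_iff _ _ _).mpr (hn2.of_dvd hd), Nat.cast_one]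
    have c1 : n.Coprime W := by
      rw [← ZMod.isUnit_iff_coprime, hnW]; exact isUnit_one
    have c2 : ∀ x, n.Coprime (p x) := fun x => by
      rw [← ZMod.isUnit_iff_coprime]
      rcases eq_or_ne x x₀ with rfl | hx
      · rw [hn0]; exact a.isUnit
      · rw [cast1 x hx]; exact isUnit_one
    have h1 := h n c1 c2
    have key : ∀ X : ∀ x : π, DirichletCharacter ℂ (p x),
        ∏ x, X x (n : ZMod (p x)) = X x₀ (a : ZMod (p x₀)) := by
      intro X
      rw [Finset.prod_eq_single x₀, hn0]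
      · intro x _ hx
        rw [cast1 x hx, map_one]
      · intro hx; exact absurd (mem_univ x₀) hx
    rw [key, key, hnW, map_one, map_one, one_mul, one_mul] at h1
    exact h1
  exact Prod.ext e1 e2

lemma NN_ne {p : π → ℕ} {W : ℕ} (hW : 0 < W) (hpr : ∀ x, (p x).Prime) : NN p W ≠ 0 :=
  Nat.mul_ne_zero hW.ne' (Finset.prod_ne_zero_iff.mpr fun x _ => (hpr x).ne_zero)

open Classical in
lemma fac {p : π → ℕ} {W : ℕ}
    (z : DirichletCharacter ℂ W × (∀ x : π, DirichletCharacter ℂ (p x))) :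
    FactorsThrough (Chi p W z) (W * ∏ x, (if z.2 x = 1 then 1 else p x)) := by
  set M : ℕ := W * ∏ x, (if z.2 x = 1 then 1 else p x) with hM
  have hMN : M ∣ NN p W := by
    refine Nat.mul_dvd_mul_left W (Finset.prod_dvd_prod_of_dvd _ _ fun x _ => ?_)
    split
    · exact one_dvd _
    · exact dvd_rfl
  have hWM : W ∣ M := Dvd.intro _ rfl
  have hpM : ∀ x, z.2 x ≠ 1 → p x ∣ M := fun x hx => by
    refine Dvd.dvd.mul_left ?_ W
    have h1 := Finset.dvd_prod_of_mem (fun x => if z.2 x = 1 then 1 else p x) (mem_univ x)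
    simpa [hx] using h1
  refine ⟨hMN, changeLevel hWM z.1 *
    ∏ x, (if h : z.2 x = 1 then 1 else changeLevel (hpM x h) (z.2 x)), ?_⟩
  rw [map_mul, map_prod, ← changeLevel_trans]
  unfold Chi
  congr 1
  refine prod_congr rfl fun x _ => ?_
  by_cases h : z.2 x = 1
  · rw [dif_pos h, h, map_one, map_one]
  · rw [dif_neg h, ← changeLevel_trans]

end IND

open IND in
theorem p_IND : Stmt_IND := by
  intro π _ _ p W hW hpr hinj hcop
  have hN : NeZero (NN p W) := ⟨NN_ne hW hpr⟩
  refine ⟨pc p W, ?_, ?_, ?_, ?_⟩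
  · intro z z' hzz
    refine det hW hpr hinj hcop z z' fun n h1 h2 => ?_
    rw [← pc_apply z h1 h2, ← pc_apply z' h1 h2, hzz]
  · intro z
    have hle : (pc p W z).1 ≤ W * ∏ x, (open Classical in if z.2 x = 1 then 1 else p x) := by
      classical
      refine Nat.le_of_dvd (Nat.pos_of_ne_zero ?_)
        (conductor_dvd_of_mem_conductorSet (Chi p W z) (fac z))
      intro h0
      have := (fac z).dvd
      rw [h0] at this
      exact NN_ne hW hpr (Nat.eq_zero_of_zero_dvd this)
    simp only [Fam, Finset.mem_sigma, Finset.mem_filter, Finset.mem_Ioc]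
    exact ⟨⟨Nat.pos_of_ne_zero (conductor_ne_zero _), hle⟩, mem_univ _,
      primitiveCharacter_isPrimitive _⟩
  · intro z
    constructor
    · intro h
      refine det hW hpr hinj hcop z _ fun n h1 h2 => ?_
      rw [← pc_apply z h1 h2, h]
      have hd : (pc p W z).1 ∣ NN p W := conductor_dvd_level _
      have hc : n.Coprime (pc p W z).1 := (coprime_NN h1 h2).coprime_dvd_right hd
      have hu : IsUnit (n : ZMod (pc p W z).1) := (ZMod.isUnit_iff_coprime n _).mpr hc
      rw [MulChar.one_apply hu]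
      have hu1 : IsUnit (n : ZMod W) := (ZMod.isUnit_iff_coprime n _).mpr h1
      have hu2 : ∀ x, IsUnit (n : ZMod (p x)) := fun x => (ZMod.isUnit_iff_coprime n _).mpr (h2 x)
      simp only [MulChar.one_apply hu1, MulChar.one_apply (hu2 _), prod_const_one, mul_one]
    · intro h
      have hC : Chi p W z = 1 := by
        rw [h]; unfold Chi; simp
      have : ∀ χ : DirichletCharacter ℂ (NN p W), χ = 1 → χ.primitiveCharacter = 1 := by
        rintro χ rfl; exact primitiveCharacter_one
      exact this _ hC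
  · intro z n h1 h2
    exact pc_apply z h1 h2

end Pool.LGC
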