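import Pool.Agent.Work.MP_b0c12c_chain.InterfaceL

/-! # Block LAM: the limit points have positive lower density at zero (helper68) -/

set_option autoImplicit false

namespace Pool.LGC

open Finset Filter
open Pool.LGP

theorem LAM_ff_pos (h3 : Stmt_SLV) : ∀ᶠ n : ℕ in atTop, 0 < ff (Nat.nth Nat.Prime n) := by
  obtain ⟨X₀, hX⟩ := h3 1 one_pos
  have ht : Tendsto (fun n : ℕ => ((Nat.nth Nat.Prime n : ℕ) : ℝ)) atTop atTop :=
    tendsto_natCast_atTop_atTop.comp
      (Nat.nth_strictMono Nat.infinite_setOfPred_prime).tendsto_atTop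
  filter_upwards [ht.eventually (eventually_ge_atTop X₀)] with n hn
  exact (hX _ hn).1

theorem p_LAM (h1 : Stmt_LIM) (h2 : Stmt_MEG) (h3 : Stmt_SLV) : Stmt_LAM := by
  obtain ⟨κ, J, hκ, hkJ, hb⟩ := h1 1 le_rfl
  have hJ : 2 ≤ J := hkJ
  have hJ0 : (0 : ℝ) < J := by
    have : 0 < J := by omega
    exact_mod_cast this
  refine ⟨κ, 1 / (J : ℝ) ^ 2, hκ, by positivity, ?_⟩
  intro T hT hTκ
  have hmain := h2 Lam J κ hJ hκ ?_ T hT hTκ
  · have he : 1 / (J : ℝ) ^ 2 * T = T / (J : ℝ) ^ 2 := by ring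
    rw [he]
    exact hmain
  · intro b hb1 hb2
    obtain ⟨i, hi, hε⟩ := hb b hb1 hb2
    refine ⟨i 0, i 1, hi (by decide), ?_⟩
    intro ε hε0
    refine ((hε ε hε0).and_eventually (LAM_ff_pos h3)).mono ?_
    rintro n ⟨hn, hpos⟩
    have hn0 := hn 0
    simp only [Fin.val_zero, add_zero, Fin.succ_zero_eq_one, Fin.castSucc_zero] at hn0
    have he : ((Nat.nth Nat.Prime (n + 1) : ℝ) - Nat.nth Nat.Prime n) /
        ff (Nat.nth Nat.Prime n) - (b (i 1) - b (i 0)) =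
        (((Nat.nth Nat.Prime (n + 1) : ℝ) - Nat.nth Nat.Prime n) -
          (b (i 1) - b (i 0)) * ff (Nat.nth Nat.Prime n)) / ff (Nat.nth Nat.Prime n) := by
      field_simp
    rw [he, abs_div, abs_of_pos hpos, div_le_iff₀ hpos]
    exact hn0

end Pool.LGC
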