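import Pool.Agent.Work.MP_b0c12c_chain.Interface

/-! # Block LOC: local expansion (helper73) -/

set_option autoImplicit false

namespace Pool.LGC

open Finset

theorem LOC_one {p : ℕ} (n : ZMod p) (hn : IsUnit n) :
    ∑ χ : DirichletCharacter ℂ p, (open Classical in if χ = 1 then (1 : ℂ) else 0) * χ n = 1 := by
  classical
  rw [Finset.sum_eq_single (1 : DirichletCharacter ℂ p)]
  · rw [if_pos rfl, MulChar.one_apply hn, one_mul]
  · intro χ _ h
    rw [if_neg h, zero_mul]
  · intro h
    exact absurd (Finset.mem_univ _) h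

theorem LOC_inv {p : ℕ} (hp : p.Prime) (b n : ZMod p) (hb : b ≠ 0) :
    ∑ χ : DirichletCharacter ℂ p, (χ b)⁻¹ * χ n = if b = n then ((p : ℂ) - 1) else 0 := by
  have : Fact p.Prime := ⟨hp⟩
  have : NeZero p := ⟨hp.ne_zero⟩
  have h := DirichletCharacter.sum_char_inv_mul_char_eq ℂ (IsUnit.mk0 b hb) n
  have e : ∀ χ : DirichletCharacter ℂ p, χ b⁻¹ = (χ b)⁻¹ := by
    intro χ
    refine eq_inv_of_mul_eq_one_left ?_
    rw [← map_mul, inv_mul_cancel₀ hb, map_one]
  simp_rw [e] at h
  rw [h, Nat.totient_prime hp, Nat.cast_sub hp.one_le, Nat.cast_one]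

theorem p_LOC : Stmt_LOC := by
  classical
  intro ι p c hp hc hinj o o' n hn
  have hp1 : (p : ℂ) - 1 ≠ 0 := by
    intro h
    have h1 : (p : ℂ) = ((1 : ℕ) : ℂ) := by rw [Nat.cast_one]; linear_combination h
    have h2 : p = 1 := by exact_mod_cast h1
    exact hp.one_lt.ne' h2
  have k0 := LOC_one n hn
  have k1 := fun j => LOC_inv hp (c j) n (hc j)
  rcases o with _ | i <;> rcases o' with _ | j
  · simp only [lm, hat, mul_one, Complex.ofReal_one]
    exact k0.symm
  · simp only [lm, hat, one_mul, sub_mul, Finset.sum_sub_distrib, mul_assoc]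
    rw [k0, ← Finset.mul_sum, k1 j]
    by_cases h : n = c j
    · rw [if_pos h, if_pos h.symm, div_mul_cancel₀ _ hp1]
      push_cast
      ring
    · rw [if_neg h, if_neg (Ne.symm h)]
      push_cast
      ring
  · simp only [lm, hat, mul_one, sub_mul, Finset.sum_sub_distrib, mul_assoc]
    rw [k0, ← Finset.mul_sum, k1 i]
    by_cases h : n = c i
    · rw [if_pos h, if_pos h.symm, div_mul_cancel₀ _ hp1]
      push_cast
      ring
    · rw [if_neg h, if_neg (Ne.symm h)]
      push_cast
      ring
  · by_cases hij : i = j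
    · subst hij
      simp only [lm, hat, if_true, add_mul, Finset.sum_add_distrib, mul_assoc]
      rw [k0, ← Finset.mul_sum, k1 i]
      by_cases h : n = c i
      · rw [if_pos h, if_pos h.symm, div_mul_cancel₀ _ hp1]
        push_cast
        ring
      · rw [if_neg h, if_neg (Ne.symm h)]
        push_cast
        ring
    · have hs : ∀ χ : DirichletCharacter ℂ p, hat c χ (some i) (some j) * χ n =
          (if χ = 1 then (1 : ℂ) else 0) * χ n - (p : ℂ) / ((p : ℂ) - 1) * ((χ (c i))⁻¹ * χ n) -
            (p : ℂ) / ((p : ℂ) - 1) * ((χ (c j))⁻¹ * χ n) := by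
        intro χ
        simp only [hat, if_neg hij]
        ring
      simp_rw [hs]
      rw [Finset.sum_sub_distrib, Finset.sum_sub_distrib, k0, ← Finset.mul_sum,
        ← Finset.mul_sum, k1 i, k1 j]
      simp only [lm]
      by_cases h : n = c i
      · have h' : n ≠ c j := by
          intro h2
          exact hij (hinj (h.symm.trans h2))
        rw [if_pos h, if_neg h', if_pos h.symm, if_neg (Ne.symm h'), div_mul_cancel₀ _ hp1]
        push_cast
        ring
      · by_cases h' : n = c j
        · rw [if_neg h, if_pos h', if_neg (Ne.symm h), if_pos h'.symm, div_mul_cancel₀ _ hp1]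
          push_cast
          ring
        · rw [if_neg h, if_neg h', if_neg (Ne.symm h), if_neg (Ne.symm h')]
          push_cast
          ring

end Pool.LGC
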