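import Pool.Agent.Work.MP_b0c12c_chain.InterfaceL

/-! # Chains of large gaps, block MEG: the greedy measure lemma (helper33) -/

set_option autoImplicit false

namespace Pool.LGC

open Finset Filter
open Pool.LGP

namespace MEG

open MeasureTheory

/-- One greedy step. -/
theorem step (A : Set ℝ) (J m : ℕ) (T : ℝ) (hJ : 2 ≤ J) (hm : m + 1 < J) (hT : 0 < T)
    (hA : volume (A ∩ Set.Icc 0 T) < ENNReal.ofReal (T / J ^ 2)) (b : ℕ → ℝ) :
    ∃ x, b m < x ∧ x ≤ b m + T / J ∧ ∀ i ≤ m, x - b i ∉ A ∩ Set.Icc 0 T := by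
  by_contra hcon
  push Not at hcon
  have hJ0 : (0 : ℝ) < J := by positivity
  have hsub : Set.Ioc (b m) (b m + T / J) ⊆
      ⋃ i ∈ Finset.range (m + 1), (fun y => b i + y) '' (A ∩ Set.Icc 0 T) := by
    intro x hx
    obtain ⟨i, hi, hmem⟩ := hcon x hx.1 hx.2
    simp only [Set.mem_iUnion]
    refine ⟨i, Finset.mem_range.2 (by omega), x - b i, hmem, ?_⟩
    ring
  have h1 : ENNReal.ofReal (T / J) ≤ (J : ENNReal) * volume (A ∩ Set.Icc 0 T) := by
    calc ENNReal.ofReal (T / J) = volume (Set.Ioc (b m) (b m + T / J)) := by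
          rw [Real.volume_Ioc]
          congr 1
          ring
      _ ≤ volume (⋃ i ∈ Finset.range (m + 1), (fun y => b i + y) '' (A ∩ Set.Icc 0 T)) :=
          measure_mono hsub
      _ ≤ ∑ i ∈ Finset.range (m + 1), volume ((fun y => b i + y) '' (A ∩ Set.Icc 0 T)) :=
          measure_biUnion_finset_le _ _
      _ = ∑ _i ∈ Finset.range (m + 1), volume (A ∩ Set.Icc 0 T) := by
          refine Finset.sum_congr rfl fun i _ => ?_
          rw [Set.image_add_left, measure_preimage_add]
      _ = ((m + 1 : ℕ) : ENNReal) * volume (A ∩ Set.Icc 0 T) := by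
          rw [Finset.sum_const, Finset.card_range, nsmul_eq_mul]
      _ ≤ (J : ENNReal) * volume (A ∩ Set.Icc 0 T) := by
          gcongr
  have h2 : (J : ENNReal) * volume (A ∩ Set.Icc 0 T) <
      (J : ENNReal) * ENNReal.ofReal (T / J ^ 2) := by
    refine ENNReal.mul_lt_mul_right ?_ ?_ hA
    · exact_mod_cast (by omega : J ≠ 0)
    · exact ENNReal.natCast_ne_top J
  have h3 : (J : ENNReal) * ENNReal.ofReal (T / J ^ 2) = ENNReal.ofReal (T / J) := by
    rw [← ENNReal.ofReal_natCast J, ← ENNReal.ofReal_mul hJ0.le]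
    congr 1
    field_simp
  rw [h3] at h2
  exact absurd (lt_of_le_of_lt h1 h2) (lt_irrefl _)

/-- The greedy sequence. -/
theorem seq (A : Set ℝ) (J : ℕ) (T : ℝ) (hJ : 2 ≤ J) (hT : 0 < T)
    (hA : volume (A ∩ Set.Icc 0 T) < ENNReal.ofReal (T / J ^ 2)) (m : ℕ) (hm : m < J) :
    ∃ b : ℕ → ℝ, (∀ i ≤ m, 0 ≤ b i ∧ b i ≤ i * (T / J)) ∧
      ∀ i j, i < j → j ≤ m → b i < b j ∧ b j - b i ∉ A := by
  have hJ0 : (0 : ℝ) < J := by positivity
  induction m with
  | zero =>
    refine ⟨fun _ => 0, fun i hi => ?_, fun i j hij hj => ?_⟩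
    · obtain rfl : i = 0 := by omega
      simp
    · omega
  | succ m ih =>
    obtain ⟨b, hb, hb'⟩ := ih (by omega)
    obtain ⟨x, hx1, hx2, hx3⟩ := step A J m T hJ hm hT hA b
    refine ⟨fun i => if i = m + 1 then x else b i, fun i hi => ?_, fun i j hij hj => ?_⟩
    · by_cases h : i = m + 1
      · subst h
        simp only [if_true]
        have h1 := hb m le_rfl
        push_cast
        constructor
        · linarith
        · linarith
      · simp only [if_neg h]
        exact hb i (by omega)
    · have hi : i ≠ m + 1 := by omega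
      by_cases h : j = m + 1
      · subst h
        simp only [if_true, if_neg hi]
        have him : i ≤ m := by omega
        have h0 := hb m le_rfl
        have hbi : b i ≤ b m := by
          rcases Nat.lt_or_ge i m with h4 | h4
          · exact (hb' i m h4 le_rfl).1.le
          · obtain rfl : i = m := by omega
            exact le_rfl
        refine ⟨by linarith, fun hmem => hx3 i him ⟨hmem, ?_, ?_⟩⟩
        · linarith
        · have h5 : (m : ℝ) * (T / J) + T / J ≤ T := by
            have h6 : ((m : ℝ) + 1) ≤ J := by exact_mod_cast hm.le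
            calc (m : ℝ) * (T / J) + T / J = ((m : ℝ) + 1) * (T / J) := by ring
              _ ≤ J * (T / J) := by gcongr
              _ = T := by field_simp
          have h7 := (hb i him).1
          linarith
      · simp only [if_neg h, if_neg hi]
        exact hb' i j hij (by omega)

end MEG

open MEG in
theorem p_MEG : Stmt_MEG := by
  intro A J κ hJ hκ hA T hT hTκ
  by_contra hcon
  push Not at hcon
  have hJ0 : (0 : ℝ) < J := by positivity
  obtain ⟨b, hb, hb'⟩ := seq A J T hJ hT hcon (J - 1) (by omega)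
  obtain ⟨i, j, hij, hmem⟩ := hA (fun i : Fin J => b i)
    (fun i j hij => (hb' i j hij (by have := j.isLt; omega)).1)
    (fun i => by
      have hi : (i : ℕ) ≤ J - 1 := by have := i.isLt; omega
      refine ⟨(hb i hi).1, (hb i hi).2.trans ?_⟩
      have h6 : ((i : ℕ) : ℝ) ≤ J := by exact_mod_cast i.isLt.le
      calc ((i : ℕ) : ℝ) * (T / J) ≤ J * (T / J) := by gcongr
        _ = T := by field_simp
        _ ≤ κ := hTκ)
  exact (hb' i j hij (by have := j.isLt; omega)).2 hmem

end Pool.LGC
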