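import Pool.Agent.Work.MP_b0c12c_chain.Interface
import Pool.Agent.Work.MP_3a3367_nt_log.MER

/-! # Block MEL (helper54) -/

set_option autoImplicit false

namespace Pool.LGC

open Finset Filter
open Pool.LGP

theorem p_MEL : Stmt_MEL := by
  obtain ⟨C, c, hC, hc, hM⟩ := Pool.Agent.Work.MP_3a3367_nt_log.stmt_MER
  refine ⟨c, C, hc, by linarith, fun y hy => ?_⟩
  have h1 := (hM y hy).2.2.2.1
  have h2 := (hM y hy).2.2.2.2.1
  rw [Pool.Agent.Work.MP_3a3367_nt_log.MERaux.UP_eq] at h1 h2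
  exact ⟨h1, h2⟩

end Pool.LGC
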