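import Pool.Agent.Work.MP_b0c12c_chain.InterfaceX
import Pool.Agent.Work.MP_b0c12c_chain.B_MID

/-! # Block MIDE: the construction with an exceptional character (helper43) -/

set_option autoImplicit false

namespace Pool.LGC

open Finset Filter
open Pool.LGP

theorem p_MIDE (h1 : Stmt_P1E) (h2 : Stmt_P2) (h3 : Stmt_CDT) (h4 : Stmt_SEL)
    (h5 : Pool.LGP.Stmt_ACT) (h6 : Stmt_COE) : Stmt_MIDE := by
  classical
  intro π ι _ _ _ _ S u g a b C K D z s G Λ c Y Q k J n E y₁ hD hG hΛ hc hcW hτ hdis hcard hE hy₁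
    hE2 hpr hk hkc hfin
  have hgood := hD.good
  have hz0 : 0 < z := by linarith [hD.z3]
  have h3x : ∀ x, (3 : ℝ) ≤ S.pr x := fun x => hD.z3.trans (hD.z_le x)
  have hb0 : 0 < b := by linarith [hD.b1]
  have hD1 : 1 < D := lt_of_lt_of_le hD.b1 hD.bD
  have hD0 : 0 < D := by linarith
  have hlogD : 0 ≤ Real.log D := Real.log_nonneg hD1.le
  have hm0 : (0 : ℝ) ≤ (Fintype.card ι : ℝ) := Nat.cast_nonneg _
  have h64 := hD.h64
  have hlm : 0 ≤ Real.log D * (Fintype.card ι : ℝ) := mul_nonneg hlogD hm0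
  obtain ⟨c1, c2, c3, c4⟩ := h3 π ι S hgood u a b C K D z s Y hD.uok hD.z3 hD.z_le hD.K0 hD.C0
    hD.s0 hD.a1 hD.b1 hD.bD (by nlinarith) hD.hK hD.hC hD.heta hD.hs
  have hact : ∀ ρ, S.aa u D ρ ≠ 0 → (S.szn ρ : ℝ) ≤ D ∧ (act ρ : ℝ) ≤ Real.log D := by
    intro ρ hρ
    have hs : (S.szn ρ : ℝ) ≤ D := by
      by_contra h
      apply hρ
      unfold Sys.aa
      rw [if_neg h]
    exact ⟨hs, h5 π ι S D h3x ρ hs⟩
  set M : ℝ := MM S (S.aa u D) with hM
  set F : ℝ := EE S (S.aa u D) with hF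
  set B : ℝ := 2 * Real.exp 1 * D ^ (1 + s) with hB
  set η : ℝ := (Real.log D * K / z) ^ 2 + Real.exp (-(Real.log (D / b) / Real.log b)) with hη
  have hη0 : 0 ≤ η := by positivity
  have hBpos : 0 < B := by positivity
  have hF0 : 0 ≤ F := MID_EE S _
  have hFB : F ^ 2 ≤ B ^ 2 := pow_le_pow_left₀ hF0 c2 2
  have hD8 : 1 ≤ D ^ 8 := one_le_pow₀ hD1.le
  have hYG : 8 * B ^ 2 * D ^ 8 ≤ G ^ 2 * Y := hD.hY
  have hG2 : 0 < G ^ 2 := by positivity
  have hYpos : (0 : ℝ) < Y := by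
    have h : 0 < G ^ 2 * (Y : ℝ) := lt_of_lt_of_le (by positivity) hYG
    exact (mul_pos_iff_of_pos_left hG2).1 h
  have hMpos : 0 < M := by linarith
  have hG21 : G ^ 2 ≤ 1 := pow_le_one₀ hG.le hD.G1
  have hBD : B ^ 2 * 1 ≤ B ^ 2 * D ^ 8 := mul_le_mul_of_nonneg_left hD8 (by positivity)
  -- `8 B ^ 2 ≤ Y`
  have hBY : 8 * B ^ 2 ≤ Y := by
    have : G ^ 2 * (Y : ℝ) ≤ 1 * Y := mul_le_mul_of_nonneg_right hG21 hYpos.le
    linarith
  have hYM : (Y : ℝ) / 2 ≤ Y * M := by
    have := mul_le_mul_of_nonneg_left c1 hYpos.le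
    linarith
  have hYMpos : 0 < (Y : ℝ) * M := mul_pos hYpos hMpos
  have hrough : ∀ m : ℕ, m.Prime → S.W * Y < m → ∀ x, ¬ S.pr x ∣ m := fun m hm hlt x =>
    MID_rough (hgood.prime x) hm ((hpr m hm hlt).2 x)
  have hlt : ∀ y ∈ Ioc Y (2 * Y), ∀ e : ℕ, S.W * Y < S.W * y + e := by
    intro y hy e
    rw [Finset.mem_Ioc] at hy
    have := Nat.mul_lt_mul_of_pos_left hy.1 hD.W_pos
    omega
  obtain ⟨y, hy, y1, y2, y3⟩ := h4 Y k J n (fun y => FF S (S.aa u D) y ^ 2) E (univ.image S.v)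
    (fun e y => (S.W * y + e).Prime) c (9 * G ^ 2) (8 * η + 2 * B ^ 2 / Y) (Y * M) hk hYMpos hc
    (by positivity) (by positivity) (fun y => sq_nonneg _) hdis hcard
    (by
      refine c3.trans ?_
      linarith)
    (by
      intro i e he
      obtain ⟨e1, e2, ⟨R, hR0, hR1, e3⟩, e4⟩ := hE i e he
      obtain ⟨τ, hτd⟩ : ∃ τ : ℝ, τ = 3 * (Fintype.card ι : ℝ) / √z +
        10 * Fintype.card ι * K / z := ⟨_, rfl⟩
      have hK0 := hD.K0
      have hτ0 : 0 ≤ τ := by
        rw [hτd]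
        positivity
      rw [← hτd] at hτ
      have hP1 := h1 π ι S hgood hD.W_pos (S.aa u D) z D τ R e Y Q y₁ hD.z3 hD.z_le hD0.le e1 e2
        (by
          intro ρ hρ
          obtain ⟨r1, r2⟩ := hact ρ hρ
          refine ⟨?_, r1⟩
          have h7 : (act ρ : ℝ) * (Fintype.card ι + 1) ≤ Real.log D * (Fintype.card ι + 1) :=
            mul_le_mul_of_nonneg_right r2 (by linarith)
          nlinarith)
        hD.tau hD.hQ
        (fun m hm hlt' => hpr m hm (by omega)) hτ0 hR0 hR1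
        (fun hy χ hχ => hy₁ hy χ hχ i e he)
        (fun X hX => by
          rw [hτd]
          exact h6 π ι S u g a b C K D z s G Y Q hD e e1 X hX)
      have hth := MID_th (fun y => FF S (S.aa u D) y ^ 2) (fun y => sq_nonneg _) S.W Y e Λ e4
      have hφ : (0 : ℝ) < (S.W.totient : ℝ) := by
        exact_mod_cast Nat.totient_pos.2 hD.W_pos
      have hW : (0 : ℝ) < (S.W : ℝ) := by exact_mod_cast hD.W_pos
      have hlow : 1 / (S.W.totient : ℝ) * (M * (S.W * Y) / 8) ≤
          Λ * ∑ y ∈ Ioc Y (2 * Y), (if (S.W * y + e).Prime then FF S (S.aa u D) y ^ 2 else 0) := by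
        refine le_trans ?_ (hP1.trans hth)
        refine mul_le_mul_of_nonneg_left ?_ (by positivity)
        have t1 : 2 * M * MomE y₁ R Q (S.W * Y + e) (2 * (S.W * Y) + e) ≤
            2 * M * (S.W * Y / 8) := mul_le_mul_of_nonneg_left e3 (by positivity)
        have t2 : τ * M * ((S.W : ℝ) * Y) ≤ 1 / 8 * M * (S.W * Y) := by
          have t3 : 0 ≤ M * ((S.W : ℝ) * Y) := by positivity
          have := mul_le_mul_of_nonneg_right hτ t3
          linarith
        linarith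
      have hcl : c * (Y * M) * Λ ≤ 1 / (S.W.totient : ℝ) * (M * (S.W * Y) / 8) := by
        calc c * (Y * M) * Λ ≤ (S.W : ℝ) / (S.W.totient : ℝ) / (8 * Λ) * (Y * M) * Λ := by
              gcongr
          _ = 1 / (S.W.totient : ℝ) * (M * (S.W * Y) / 8) := by
              field_simp
      have := hcl.trans hlow
      rw [mul_comm Λ] at this
      exact le_of_mul_le_mul_right this hΛ)
    (by
      intro i e he j e' he' hne
      have hP2 := h2 π ι S hgood e e' (hE2 i e he j e' he' hne) (S.aa u D) g z (Real.log D) G K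
        (D ^ 2) G Y hD.z3 hD.z_le hlogD hD.K0 (fun ρ hρ => (hact ρ hρ).2)
        (fun T hT => MID_card S T D h3x (hD.gD T hT))
        (by nlinarith) hD.g0 hD.g1 hD.gG hD.gK hD.tau2 hD.gE hD.hd
      refine le_trans (Finset.sum_le_sum (fun y hy => ?_)) (hP2.trans ?_)
      · by_cases hp : (S.W * y + e).Prime ∧ (S.W * y + e').Prime
        · rw [if_pos hp, if_pos ⟨hrough _ hp.1 (hlt y hy e), hrough _ hp.2 (hlt y hy e')⟩]
        · rw [if_neg hp]
          split_ifs
          · exact sq_nonneg _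
          · exact le_rfl
      · have e1 : (EE S (S.aa u D) * (D ^ 2) ^ 2) ^ 2 = F ^ 2 * D ^ 8 := by
          rw [← hF]; ring
        rw [e1, ← hF, ← hM]
        have e2 : F ^ 2 * D ^ 8 ≤ B ^ 2 * D ^ 8 := mul_le_mul_of_nonneg_right hFB (by positivity)
        have e3 : G ^ 2 * ((Y : ℝ) / 2) ≤ G ^ 2 * (Y * M) := mul_le_mul_of_nonneg_left hYM hG2.le
        nlinarith)
    (by
      intro h hh
      rw [Finset.mem_image] at hh
      obtain ⟨m, _, rfl⟩ := hh
      refine le_trans (Finset.sum_le_sum (fun y hy => ?_)) ((c4 m).trans ?_)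
      · by_cases hp : (S.W * y + S.v m).Prime
        · have hr : ∀ x, ¬ S.pr x ∣ S.N m y := hrough _ hp (hlt y hy _)
          rw [if_pos hp, if_pos hr]
        · rw [if_neg hp]
          split_ifs
          · exact sq_nonneg _
          · exact le_rfl
      · have e1 : (8 * η + 2 * B ^ 2 / Y) * (Y * M) = 8 * Y * η * M + 2 * B ^ 2 * M := by
          field_simp
        rw [e1]
        have e2 : 2 * B ^ 2 * (1 / 2) ≤ 2 * B ^ 2 * M :=
          mul_le_mul_of_nonneg_left c1 (by positivity)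
        linarith)
    hkc
    (by
      have hc1 : ((univ.image S.v).card : ℝ) ≤ (Fintype.card ι : ℝ) := by
        have : (univ.image S.v).card ≤ Fintype.card ι := by
          refine Finset.card_image_le.trans ?_
          rw [Finset.card_univ]
        exact_mod_cast this
      have hp0 : 0 ≤ 8 * η + 2 * B ^ 2 / Y := by positivity
      have := mul_le_mul_of_nonneg_right hc1 hp0
      have e1 : c ^ 2 / (8 * (9 * G ^ 2)) = c ^ 2 / (72 * G ^ 2) := by
        congr 1
        ring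
      rw [e1]
      linarith)
  refine ⟨y, hy, fun h => y1 (S.v h) (Finset.mem_image_of_mem _ (Finset.mem_univ h)), y2, ?_⟩
  convert y3 using 3

end Pool.LGC
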