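import Pool.Agent.Work.MP_b0c12c_chain.Interface

/-! # Block NPH: product over the prime divisors (helper75) -/

set_option autoImplicit false

namespace Pool.LGC

open Finset Filter

namespace NPH

theorem prod_sq_le (N : ℕ) : ∀ R : Finset ℕ, R ⊆ Icc 2 (N + 1) →
    ∏ p ∈ R, (1 - 1 / (p : ℝ) ^ 2)⁻¹ ≤ 2 * ((N : ℝ) + 1) / (N + 2) := by
  induction N with
  | zero =>
    intro R hR
    have : R = ∅ := by
      rw [← subset_empty]
      refine hR.trans ?_
      simp
    subst this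
    simp
  | succ N ih =>
    intro R hR
    by_cases h : N + 2 ∈ R
    · have e : R = insert (N + 2) (R.erase (N + 2)) := (insert_erase h).symm
      have h1 : R.erase (N + 2) ⊆ Icc 2 (N + 1) := by
        intro x hx
        have := hR (mem_of_mem_erase hx)
        have h2 := ne_of_mem_erase hx
        rw [mem_Icc] at this ⊢
        omega
      rw [e, prod_insert (notMem_erase _ _)]
      have h3 := ih _ h1
      have hN : (0 : ℝ) ≤ N := Nat.cast_nonneg N
      have h4 : (1 - 1 / ((N + 2 : ℕ) : ℝ) ^ 2)⁻¹ =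
          ((N : ℝ) + 2) ^ 2 / (((N : ℝ) + 1) * (N + 3)) := by
        push_cast
        have : (1 - 1 / ((N : ℝ) + 2) ^ 2) = (((N : ℝ) + 1) * (N + 3)) / ((N : ℝ) + 2) ^ 2 := by
          field_simp
          ring
        rw [this, inv_div]
      rw [h4]
      calc ((N : ℝ) + 2) ^ 2 / (((N : ℝ) + 1) * (N + 3)) *
            ∏ p ∈ R.erase (N + 2), (1 - 1 / (p : ℝ) ^ 2)⁻¹
          ≤ ((N : ℝ) + 2) ^ 2 / (((N : ℝ) + 1) * (N + 3)) * (2 * ((N : ℝ) + 1) / (N + 2)) :=
            mul_le_mul_of_nonneg_left h3 (by positivity)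
        _ = 2 * (((N + 1 : ℕ) : ℝ) + 1) / (((N + 1 : ℕ) : ℝ) + 2) := by
            push_cast
            field_simp
            ring
    · have h1 : R ⊆ Icc 2 (N + 1) := by
        intro x hx
        have := hR hx
        have h2 : x ≠ N + 2 := fun h3 => h (h3 ▸ hx)
        rw [mem_Icc] at this ⊢
        omega
      refine (ih _ h1).trans ?_
      have hN : (0 : ℝ) ≤ N := Nat.cast_nonneg N
      push_cast
      rw [div_le_div_iff₀ (by positivity) (by positivity)]
      nlinarith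

theorem prod_sq_le_two (R : Finset ℕ) (hR : ∀ p ∈ R, 2 ≤ p) :
    ∏ p ∈ R, (1 - 1 / (p : ℝ) ^ 2)⁻¹ ≤ 2 := by
  have h : R ⊆ Icc 2 (R.sup id + 1) := by
    intro p hp
    rw [mem_Icc]
    refine ⟨hR p hp, ?_⟩
    have : p ≤ R.sup id := Finset.le_sup (f := id) hp
    omega
  refine (prod_sq_le _ R h).trans ?_
  have hN : (0 : ℝ) ≤ (R.sup id : ℕ) := Nat.cast_nonneg _
  rw [div_le_iff₀ (by positivity)]
  linarith

theorem prod_one_le (R : Finset ℕ) (hR : ∀ p ∈ R, p.Prime) (n : ℕ) (hn : 0 < n)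
    (hd : ∀ p ∈ R, p ∣ n) :
    ∏ p ∈ R, (1 + 1 / (p : ℝ)) ≤ ∑ d ∈ n.divisors.filter Squarefree, 1 / (d : ℝ) := by
  rw [Nat.sum_divisors_filter_squarefree hn.ne', prod_one_add]
  have h1 : R ⊆ (UniqueFactorizationMonoid.normalizedFactors n).toFinset := by
    intro p hp
    rw [Multiset.mem_toFinset, Nat.factors_eq]
    rw [Multiset.mem_coe, Nat.mem_primeFactorsList hn.ne']
    exact ⟨hR p hp, hd p hp⟩
  refine (sum_le_sum_of_subset_of_nonneg (powerset_mono.2 h1) (fun T _ _ =>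
    prod_nonneg fun p _ => by positivity)).trans (le_of_eq ?_)
  refine sum_congr rfl fun T _ => ?_
  have : (T.val.prod : ℕ) = ∏ p ∈ T, p := by
    rw [Finset.prod, Multiset.map_id']
  rw [this, prod_div_distrib]
  push_cast
  simp

end NPH

theorem p_NPH : Stmt_NPH := by
  intro R hR n hn
  rw [← prod_filter]
  have hR' : ∀ p ∈ R.filter (fun p => p ∣ n), p.Prime := fun p hp => hR p (mem_filter.1 hp).1
  have h1 : ∏ p ∈ R.filter (fun p => p ∣ n), (1 - 1 / (p : ℝ))⁻¹ =
      (∏ p ∈ R.filter (fun p => p ∣ n), (1 - 1 / (p : ℝ) ^ 2)⁻¹) *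
        ∏ p ∈ R.filter (fun p => p ∣ n), (1 + 1 / (p : ℝ)) := by
    rw [← prod_mul_distrib]
    refine prod_congr rfl fun p hp => ?_
    have hp2 : (2 : ℝ) ≤ p := by exact_mod_cast (hR' p hp).two_le
    have h3 : (1 - 1 / (p : ℝ) ^ 2) = (1 - 1 / (p : ℝ)) * (1 + 1 / (p : ℝ)) := by ring
    have h4 : (1 + 1 / (p : ℝ)) ≠ 0 := by positivity
    rw [h3, mul_inv, mul_assoc, inv_mul_cancel₀ h4, mul_one]
  rw [h1]
  refine mul_le_mul (NPH.prod_sq_le_two _ fun p hp => (hR' p hp).two_le)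
    (NPH.prod_one_le _ hR' n hn fun p hp => (mem_filter.1 hp).2)
    (prod_nonneg fun p _ => by positivity) (by norm_num)

end Pool.LGC
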