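import Pool.Agent.Work.MP_b0c12c_chain.Interface

/-! # Chains of large gaps between primes: block NUF (helper60) -/

set_option autoImplicit false

namespace Pool.LGC

open Finset Filter
open Pool.LGP

theorem NUF_half {x : ℝ} (hx : 2 ≤ x) : x / 2 ≤ (⌊x⌋₊ : ℝ) := by
  have := Nat.lt_floor_add_one x
  linarith

theorem NUF_log_double {x K : ℝ} (hx : 0 < x) (hK : Real.log 2 ≤ K) (h : K ≤ Real.log x) :
    Real.log (2 * x) ≤ 2 * Real.log x := by
  rw [Real.log_mul (by norm_num) hx.ne']
  linarith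

theorem NUF_log_half {x K : ℝ} (hx : 0 < x) (hK : 2 * Real.log 2 ≤ K) (h : K ≤ Real.log x) :
    Real.log x / 2 ≤ Real.log (x / 2) := by
  rw [Real.log_div hx.ne' (by norm_num)]
  linarith

theorem p_NUF : Stmt_NUF := by
  intro κ₀ κ' hκ₀ hκ'
  have t1 := Real.tendsto_log_atTop
  have t2 := t1.comp t1
  have t3 := t1.comp t2
  have t4 := t1.comp t3
  set K : ℝ := 10 + 2 / κ₀ + 2 * |Real.log (κ₀ / 2)| + |Real.log κ₀| + 128 / (κ' * κ₀) with hK
  have hK10 : 10 ≤ K := by
    have e1 : 0 < 2 / κ₀ := by positivity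
    have e2 : 0 < 128 / (κ' * κ₀) := by positivity
    have e3 := abs_nonneg (Real.log (κ₀ / 2))
    have e4 := abs_nonneg (Real.log κ₀)
    linarith
  have hKa : 2 / κ₀ ≤ K := by
    have e2 : 0 < 128 / (κ' * κ₀) := by positivity
    have e3 := abs_nonneg (Real.log (κ₀ / 2))
    have e4 := abs_nonneg (Real.log κ₀)
    linarith
  have hKb : -2 * Real.log (κ₀ / 2) ≤ K := by
    have e1 : 0 < 2 / κ₀ := by positivity
    have e2 : 0 < 128 / (κ' * κ₀) := by positivity
    have e3 := neg_abs_le (Real.log (κ₀ / 2))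
    have e4 := abs_nonneg (Real.log κ₀)
    linarith
  have hKc : Real.log κ₀ ≤ K := by
    have e1 : 0 < 2 / κ₀ := by positivity
    have e2 : 0 < 128 / (κ' * κ₀) := by positivity
    have e3 := abs_nonneg (Real.log (κ₀ / 2))
    have e4 := le_abs_self (Real.log κ₀)
    linarith
  have hKd : 128 / (κ' * κ₀) ≤ K := by
    have e1 : 0 < 2 / κ₀ := by positivity
    have e3 := abs_nonneg (Real.log (κ₀ / 2))
    have e4 := abs_nonneg (Real.log κ₀)
    linarith
  have hev : ∀ᶠ X : ℝ in atTop, K ≤ Real.log X ∧ K ≤ Real.log (Real.log X) ∧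
      K ≤ Real.log (Real.log (Real.log X)) ∧
      K ≤ Real.log (Real.log (Real.log (Real.log X))) ∧ 0 < X :=
    (t1.eventually_ge_atTop K).and ((t2.eventually_ge_atTop K).and
      ((t3.eventually_ge_atTop K).and ((t4.eventually_ge_atTop K).and (eventually_gt_atTop 0))))
  obtain ⟨X₀, hX₀⟩ := Filter.eventually_atTop.mp hev
  refine ⟨κ' * κ₀ / 2048, X₀, by positivity, ?_⟩
  intro X hX p hXp hp4
  obtain ⟨hL, hl1, hl2, hl3, hXpos⟩ := hX₀ X hX
  set L := Real.log X with hLdef
  set l1 := Real.log L with hl1def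
  set l2 := Real.log l1 with hl2def
  set l3 := Real.log l2 with hl3def
  have hlog2 : Real.log 2 ≤ 1 := by
    have := Real.log_two_lt_d9
    linarith
  have hlog2pos : 0 < Real.log 2 := Real.log_pos (by norm_num)
  have hL0 : 0 < L := by linarith
  have hl10 : 0 < l1 := by linarith
  have hl20 : 0 < l2 := by linarith
  have hl30 : 0 < l3 := by linarith
  have hppos : 0 < p := lt_of_lt_of_le hXpos hXp
  -- the size of `w`
  set w := ⌊κ₀ * L⌋₊ with hw
  have hκL : 2 ≤ κ₀ * L := by
    have : κ₀ * (2 / κ₀) ≤ κ₀ * L := mul_le_mul_of_nonneg_left (le_trans hKa hL) hκ₀.le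
    have e : κ₀ * (2 / κ₀) = 2 := by field_simp
    linarith
  have hw1 : κ₀ * L / 2 ≤ (w : ℝ) := NUF_half hκL
  have hw2 : (w : ℝ) ≤ κ₀ * L := Nat.floor_le (by positivity)
  have hwpos : (0 : ℝ) < w := by
    have : 0 < κ₀ * L / 2 := by positivity
    linarith
  have hlw1 : l1 / 2 ≤ Real.log w := by
    have e1 : Real.log (κ₀ / 2 * L) ≤ Real.log w := by
      apply Real.log_le_log (by positivity)
      linarith
    rw [Real.log_mul (by positivity) hL0.ne'] at e1
    have e2 : -2 * Real.log (κ₀ / 2) ≤ l1 := le_trans hKb hl1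
    rw [← hl1def] at e1
    linarith
  have hlw2 : Real.log w ≤ 2 * l1 := by
    have e1 : Real.log w ≤ Real.log (κ₀ * L) := Real.log_le_log hwpos hw2
    rw [Real.log_mul hκ₀.ne' hL0.ne'] at e1
    have e2 : Real.log κ₀ ≤ l1 := le_trans hKc hl1
    rw [← hl1def] at e1
    linarith
  have hlwpos : 0 < Real.log w := by linarith
  have hllw1 : l2 / 2 ≤ Real.log (Real.log w) := by
    have e1 : Real.log (l1 / 2) ≤ Real.log (Real.log w) := Real.log_le_log (by positivity) hlw1
    have e2 := NUF_log_half hl10 (K := K) (by linarith) hl2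
    rw [← hl2def] at e2
    linarith
  have hllw2 : Real.log (Real.log w) ≤ 2 * l2 := by
    have e1 : Real.log (Real.log w) ≤ Real.log (2 * l1) := Real.log_le_log hlwpos hlw2
    have e2 := NUF_log_double hl10 (K := K) (by linarith) hl2
    rw [← hl2def] at e2
    linarith
  have hllwpos : 0 < Real.log (Real.log w) := by linarith
  have hlllw1 : l3 / 2 ≤ Real.log (Real.log (Real.log w)) := by
    have e1 : Real.log (l2 / 2) ≤ Real.log (Real.log (Real.log w)) :=
      Real.log_le_log (by positivity) hllw1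
    have e2 := NUF_log_half hl20 (K := K) (by linarith) hl3
    rw [← hl3def] at e2
    linarith
  -- lower bound for `HH`
  set T := L * (l1 ^ 2 * l3 / l2 ^ 2) with hT
  have hT0 : 0 < T := by positivity
  have hTbig : K ≤ T := by
    have e1 : l2 ≤ l1 := by
      have := Real.log_le_sub_one_of_pos hl10
      rw [← hl2def] at this
      linarith
    have e2 : (1 : ℝ) ≤ l1 ^ 2 * l3 / l2 ^ 2 := by
      rw [le_div_iff₀ (by positivity)]
      have e3 : l2 ^ 2 ≤ l1 ^ 2 := pow_le_pow_left₀ hl20.le e1 2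
      nlinarith
    calc K ≤ L := hL
      _ = L * 1 := (mul_one _).symm
      _ ≤ T := mul_le_mul_of_nonneg_left e2 hL0.le
  have hmain : κ₀ / 64 * T ≤ w * (Real.log w ^ 2 * Real.log (Real.log (Real.log w)) /
      Real.log (Real.log w) ^ 2) := by
    have e1 : (l1 / 2) ^ 2 ≤ Real.log w ^ 2 := pow_le_pow_left₀ (by positivity) hlw1 2
    have e2 : Real.log (Real.log w) ^ 2 ≤ (2 * l2) ^ 2 := pow_le_pow_left₀ hllwpos.le hllw2 2
    have e3 : (l1 / 2) ^ 2 * (l3 / 2) ≤ Real.log w ^ 2 * Real.log (Real.log (Real.log w)) :=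
      mul_le_mul e1 hlllw1 (by positivity) (by positivity)
    have e4 : (l1 / 2) ^ 2 * (l3 / 2) / (2 * l2) ^ 2 ≤
        Real.log w ^ 2 * Real.log (Real.log (Real.log w)) / Real.log (Real.log w) ^ 2 := by
      apply div_le_div₀ _ e3 (by positivity) e2
      exact le_trans (by positivity) e3
    have e5 : κ₀ * L / 2 * ((l1 / 2) ^ 2 * (l3 / 2) / (2 * l2) ^ 2) ≤
        w * (Real.log w ^ 2 * Real.log (Real.log (Real.log w)) / Real.log (Real.log w) ^ 2) :=
      mul_le_mul hw1 e4 (by positivity) hwpos.le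
    refine le_trans (le_of_eq ?_) e5
    rw [hT]
    field_simp
    ring
  have hHH : κ' * κ₀ / 128 * T ≤ (HH κ' w : ℝ) := by
    unfold HH
    have e1 : κ' * (κ₀ / 64 * T) ≤ κ' * (w * (Real.log w ^ 2 *
        Real.log (Real.log (Real.log w)) / Real.log (Real.log w) ^ 2)) :=
      mul_le_mul_of_nonneg_left hmain hκ'.le
    have e2 : 2 ≤ κ' * (κ₀ / 64 * T) := by
      have e3 : κ' * κ₀ / 64 * (128 / (κ' * κ₀)) ≤ κ' * κ₀ / 64 * T :=
        mul_le_mul_of_nonneg_left (le_trans hKd hTbig) (by positivity)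
      have e4 : κ' * κ₀ / 64 * (128 / (κ' * κ₀)) = 2 := by
        field_simp
        norm_num
      linarith
    have e5 := NUF_half (le_trans e2 e1)
    linarith
  -- upper bound for `ff`
  have hlp : Real.log p ≤ 2 * L := by
    have e1 : Real.log p ≤ Real.log (4 * X) := Real.log_le_log hppos hp4
    rw [Real.log_mul (by norm_num) hXpos.ne'] at e1
    have e2 : Real.log 4 ≤ 2 := by
      have : (4 : ℝ) = 2 ^ 2 := by norm_num
      rw [this, Real.log_pow]
      push_cast
      linarith
    rw [← hLdef] at e1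
    linarith
  have hlp' : L ≤ Real.log p := Real.log_le_log hXpos hXp
  have hlppos : 0 < Real.log p := by linarith
  have hllp : Real.log (Real.log p) ≤ 2 * l1 := by
    have e1 : Real.log (Real.log p) ≤ Real.log (2 * L) := Real.log_le_log hlppos hlp
    have e2 := NUF_log_double hL0 (K := K) (by linarith) hl1
    rw [← hl1def] at e2
    linarith
  have hllp' : l1 ≤ Real.log (Real.log p) := Real.log_le_log hL0 hlp'
  have hllppos : 0 < Real.log (Real.log p) := by linarith
  have hlllp : Real.log (Real.log (Real.log p)) ≤ 2 * l2 := by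
    have e1 : Real.log (Real.log (Real.log p)) ≤ Real.log (2 * l1) :=
      Real.log_le_log hllppos hllp
    have e2 := NUF_log_double hl10 (K := K) (by linarith) hl2
    rw [← hl2def] at e2
    linarith
  have hlllp' : l2 ≤ Real.log (Real.log (Real.log p)) := Real.log_le_log hl10 hllp'
  have hlllppos : 0 < Real.log (Real.log (Real.log p)) := by linarith
  have hl4p : Real.log (Real.log (Real.log (Real.log p))) ≤ 2 * l3 := by
    have e1 : Real.log (Real.log (Real.log (Real.log p))) ≤ Real.log (2 * l2) :=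
      Real.log_le_log hlllppos hlllp
    have e2 := NUF_log_double hl20 (K := K) (by linarith) hl3
    rw [← hl3def] at e2
    linarith
  have hl4p' : l3 ≤ Real.log (Real.log (Real.log (Real.log p))) :=
    Real.log_le_log hl20 hlllp'
  have hff : ff p ≤ 16 * T := by
    unfold ff
    have e1 : Real.log p * Real.log (Real.log p) ^ 2 ≤ 2 * L * (2 * l1) ^ 2 :=
      mul_le_mul hlp (pow_le_pow_left₀ hllppos.le hllp 2) (by positivity) (by positivity)
    have e2 : Real.log p * Real.log (Real.log p) ^ 2 *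
        Real.log (Real.log (Real.log (Real.log p))) ≤ 2 * L * (2 * l1) ^ 2 * (2 * l3) :=
      mul_le_mul e1 hl4p (by linarith) (by positivity)
    have e3 : l2 ^ 2 ≤ Real.log (Real.log (Real.log p)) ^ 2 :=
      pow_le_pow_left₀ hl20.le hlllp' 2
    have e4 : Real.log p * Real.log (Real.log p) ^ 2 *
        Real.log (Real.log (Real.log (Real.log p))) / Real.log (Real.log (Real.log p)) ^ 2 ≤
        2 * L * (2 * l1) ^ 2 * (2 * l3) / l2 ^ 2 :=
      div_le_div₀ (by positivity) e2 (by positivity) e3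
    refine le_trans e4 (le_of_eq ?_)
    rw [hT]
    ring
  calc κ' * κ₀ / 2048 * ff p ≤ κ' * κ₀ / 2048 * (16 * T) :=
        mul_le_mul_of_nonneg_left hff (by positivity)
    _ = κ' * κ₀ / 128 * T := by ring
    _ ≤ (HH κ' w : ℝ) := hHH

end Pool.LGC
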