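import Pool.Agent.Work.MP_b0c12c_chain.InterfaceL
import Pool.Agent.Work.MP_b0c12c_chain.B_NUF

/-! # Chains of large gaps between primes: block NUG (helper63) -/

set_option autoImplicit false

namespace Pool.LGC

open Finset Filter
open Pool.LGP

theorem p_NUG : Stmt_NUG := by
  intro κ₀ κ' hκ₀ hκ'
  have t1 := Real.tendsto_log_atTop
  have t2 := t1.comp t1
  have t3 := t1.comp t2
  have t4 := t1.comp t3
  set K : ℝ := 10 + 2 / κ₀ + 2 * |Real.log (κ₀ / 2)| + |Real.log κ₀| with hK
  have hK10 : 10 ≤ K := by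
    have e1 : 0 < 2 / κ₀ := by positivity
    have e3 := abs_nonneg (Real.log (κ₀ / 2))
    have e4 := abs_nonneg (Real.log κ₀)
    linarith
  have hKa : 2 / κ₀ ≤ K := by
    have e3 := abs_nonneg (Real.log (κ₀ / 2))
    have e4 := abs_nonneg (Real.log κ₀)
    linarith
  have hKb : -2 * Real.log (κ₀ / 2) ≤ K := by
    have e1 : 0 < 2 / κ₀ := by positivity
    have e3 := neg_abs_le (Real.log (κ₀ / 2))
    have e4 := abs_nonneg (Real.log κ₀)
    linarith
  have hKc : Real.log κ₀ ≤ K := by
    have e1 : 0 < 2 / κ₀ := by positivity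
    have e3 := abs_nonneg (Real.log (κ₀ / 2))
    have e4 := le_abs_self (Real.log κ₀)
    linarith
  have hev : ∀ᶠ X : ℝ in atTop, K ≤ Real.log X ∧ K ≤ Real.log (Real.log X) ∧
      K ≤ Real.log (Real.log (Real.log X)) ∧
      K ≤ Real.log (Real.log (Real.log (Real.log X))) ∧ 0 < X :=
    (t1.eventually_ge_atTop K).and ((t2.eventually_ge_atTop K).and
      ((t3.eventually_ge_atTop K).and ((t4.eventually_ge_atTop K).and (eventually_gt_atTop 0))))
  obtain ⟨X₀, hX₀⟩ := Filter.eventually_atTop.mp hev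
  refine ⟨κ' * κ₀ * 32, X₀, by positivity, ?_⟩
  intro X hX
  obtain ⟨hL, hl1, hl2, hl3, hXpos⟩ := hX₀ X hX
  have hff : ff X = Real.log X * (Real.log (Real.log X) ^ 2 *
      Real.log (Real.log (Real.log (Real.log X))) / Real.log (Real.log (Real.log X)) ^ 2) := by
    unfold ff
    ring
  rw [hff]
  set L := Real.log X with hLdef
  set l1 := Real.log L with hl1def
  set l2 := Real.log l1 with hl2def
  set l3 := Real.log l2 with hl3def
  have hlog2 : Real.log 2 ≤ 1 := by
    have := Real.log_two_lt_d9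
    linarith
  have hlog2pos : 0 < Real.log 2 := Real.log_pos (by norm_num)
  have hL0 : 0 < L := by linarith
  have hl10 : 0 < l1 := by linarith
  have hl20 : 0 < l2 := by linarith
  have hl30 : 0 < l3 := by linarith
  -- the size of `w`
  set w := ⌊κ₀ * L⌋₊ with hw
  have hκL : 2 ≤ κ₀ * L := by
    have : κ₀ * (2 / κ₀) ≤ κ₀ * L := mul_le_mul_of_nonneg_left (le_trans hKa hL) hκ₀.le
    have e : κ₀ * (2 / κ₀) = 2 := by field_simp
    linarith
  have hw1 : κ₀ * L / 2 ≤ (w : ℝ) := NUF_half hκL
  have hw2 : (w : ℝ) ≤ κ₀ * L := Nat.floor_le (by positivity)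
  have hwpos : (0 : ℝ) < w := by
    have : 0 < κ₀ * L / 2 := by positivity
    linarith
  have hlw1 : l1 / 2 ≤ Real.log w := by
    have e1 : Real.log (κ₀ / 2 * L) ≤ Real.log w := by
      apply Real.log_le_log (by positivity)
      linarith
    rw [Real.log_mul (by positivity) hL0.ne'] at e1
    have e2 : -2 * Real.log (κ₀ / 2) ≤ l1 := le_trans hKb hl1
    rw [← hl1def] at e1
    linarith
  have hlw2 : Real.log w ≤ 2 * l1 := by
    have e1 : Real.log w ≤ Real.log (κ₀ * L) := Real.log_le_log hwpos hw2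
    rw [Real.log_mul hκ₀.ne' hL0.ne'] at e1
    have e2 : Real.log κ₀ ≤ l1 := le_trans hKc hl1
    rw [← hl1def] at e1
    linarith
  have hlwpos : 0 < Real.log w := by linarith
  have hllw1 : l2 / 2 ≤ Real.log (Real.log w) := by
    have e1 : Real.log (l1 / 2) ≤ Real.log (Real.log w) := Real.log_le_log (by positivity) hlw1
    have e2 := NUF_log_half hl10 (K := K) (by linarith) hl2
    rw [← hl2def] at e2
    linarith
  have hllw2 : Real.log (Real.log w) ≤ 2 * l2 := by
    have e1 : Real.log (Real.log w) ≤ Real.log (2 * l1) := Real.log_le_log hlwpos hlw2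
    have e2 := NUF_log_double hl10 (K := K) (by linarith) hl2
    rw [← hl2def] at e2
    linarith
  have hllwpos : 0 < Real.log (Real.log w) := by linarith
  have hlllw1 : l3 / 2 ≤ Real.log (Real.log (Real.log w)) := by
    have e1 : Real.log (l2 / 2) ≤ Real.log (Real.log (Real.log w)) :=
      Real.log_le_log (by positivity) hllw1
    have e2 := NUF_log_half hl20 (K := K) (by linarith) hl3
    rw [← hl3def] at e2
    linarith
  have hlllw2 : Real.log (Real.log (Real.log w)) ≤ 2 * l3 := by
    have e1 : Real.log (Real.log (Real.log w)) ≤ Real.log (2 * l2) :=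
      Real.log_le_log hllwpos hllw2
    have e2 := NUF_log_double hl20 (K := K) (by linarith) hl3
    rw [← hl3def] at e2
    linarith
  have hlllwpos : 0 < Real.log (Real.log (Real.log w)) := by linarith
  unfold HH
  have hmain : w * (Real.log w ^ 2 * Real.log (Real.log (Real.log w)) /
      Real.log (Real.log w) ^ 2) ≤
      κ₀ * L * ((2 * l1) ^ 2 * (2 * l3) / (l2 / 2) ^ 2) := by
    have e1 : Real.log w ^ 2 ≤ (2 * l1) ^ 2 := pow_le_pow_left₀ hlwpos.le hlw2 2
    have e2 : (l2 / 2) ^ 2 ≤ Real.log (Real.log w) ^ 2 :=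
      pow_le_pow_left₀ (by positivity) hllw1 2
    have e3 : Real.log w ^ 2 * Real.log (Real.log (Real.log w)) ≤ (2 * l1) ^ 2 * (2 * l3) :=
      mul_le_mul e1 hlllw2 hlllwpos.le (by positivity)
    have e4 : Real.log w ^ 2 * Real.log (Real.log (Real.log w)) / Real.log (Real.log w) ^ 2 ≤
        (2 * l1) ^ 2 * (2 * l3) / (l2 / 2) ^ 2 :=
      div_le_div₀ (by positivity) e3 (by positivity) e2
    exact mul_le_mul hw2 e4 (by positivity) (by positivity)
  have h0 : 0 ≤ κ' * (w * (Real.log w ^ 2 * Real.log (Real.log (Real.log w)) /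
      Real.log (Real.log w) ^ 2)) := by positivity
  refine le_trans (Nat.floor_le h0) ?_
  refine le_trans (mul_le_mul_of_nonneg_left hmain hκ'.le) (le_of_eq ?_)
  field_simp
  ring

end Pool.LGC
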