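import Pool.Agent.Work.MP_b0c12c_chain.InterfaceX

/-! # Block P1E: prime weighted lower bound with an exceptional character (helper7, after helper38's P1) -/

set_option autoImplicit false

namespace Pool.LGC

open Finset Filter
open Pool.LGP

theorem p1e_fam_mono {Q Q' : ℕ} (h : Q ≤ Q') {x : Ch} (hx : x ∈ Fam Q) : x ∈ Fam Q' := by
  classical
  unfold Fam at hx ⊢
  rw [Finset.mem_sigma] at hx ⊢
  refine ⟨?_, hx.2⟩
  have := hx.1
  rw [Finset.mem_Ioc] at this ⊢
  exact ⟨this.1, this.2.trans h⟩

theorem p_P1E (h1 : Stmt_GLX) (h2 : Stmt_IND) (h3 : Stmt_SPT) (h4 : Stmt_SUP) (h5 : Stmt_CON) :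
    Stmt_P1E := by
  classical
  intro π ι _ _ _ S hS hW a z D τ R e Y Q y₁ hz hzx hD hext he ha htau hQ hpr hτ hR hRW hy₁ hram
  have hglx := h1 π ι S hS hW a e Y hext he hpr
  obtain ⟨f, finj, fmem, fone, fval⟩ := h2 π S.pr S.W hW hS.prime hS.inj hS.cop
  have hspt := h3 π ι S hS a D e hD (fun ρ hρ => (ha ρ hρ).2)
  have hsup := h4 π ι S hS a z e hz hzx hext (fun ρ hρ => (ha ρ hρ).1) htau
  obtain ⟨r, hr1, hr2⟩ := h5 π ι S hS a z e hz hzx hext (fun ρ hρ => (ha ρ hρ).1) htau
  set u : ℕ := S.W * Y + e with hu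
  set v : ℕ := 2 * (S.W * Y) + e with hv
  have hMM : 0 ≤ MM S a := by
    have := (norm_nonneg _).trans (hsup (fun _ => 1))
    linarith
  have hΦ : (0 : ℝ) < (S.W.totient : ℝ) := by
    exact_mod_cast Nat.totient_pos.mpr hW
  -- the values
  let Θ : DirichletCharacter ℂ S.W × (∀ x : π, DirichletCharacter ℂ (S.pr x)) → ℂ :=
    fun t => ∑ n ∈ Ioc u v, (th n : ℂ) * (f t).2 (n : ZMod (f t).1)
  have hΘ : ∀ t : DirichletCharacter ℂ S.W × (∀ x : π, DirichletCharacter ℂ (S.pr x)),
      ∑ n ∈ Ioc u v, (th n : ℂ) * (t.1 (n : ZMod S.W) * ∏ x, t.2 x (n : ZMod (S.pr x))) =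
        Θ t := by
    intro t
    apply Finset.sum_congr rfl
    intro n hn
    rw [Finset.mem_Ioc] at hn
    by_cases hnp : n.Prime
    · obtain ⟨hc1, hc2⟩ := hpr n hnp hn.1
      rw [fval t n hc1 ?_]
      intro x
      exact (Nat.coprime_primes hnp (hS.prime x)).mpr (hc2 x).ne'
    · simp [th, hnp]
  let G : DirichletCharacter ℂ S.W × (∀ x : π, DirichletCharacter ℂ (S.pr x)) → ℂ :=
    fun t => Θ t - (if (f t).2 = 1 then ((v : ℂ) - u) else if f t = y₁ then -(R : ℂ) else 0)
  let B : DirichletCharacter ℂ S.W × (∀ x : π, DirichletCharacter ℂ (S.pr x)) → ℂ :=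
    fun t => if (f t).2 = 1 then 0 else if f t = y₁ then -(R : ℂ) else 0
  let A : DirichletCharacter ℂ S.W × (∀ x : π, DirichletCharacter ℂ (S.pr x)) → ℂ :=
    fun t => (t.1 (e : ZMod S.W))⁻¹ * cX S e a t.2
  have hunit : IsUnit (e : ZMod S.W) := (ZMod.isUnit_iff_coprime e S.W).mpr he
  have hA : ∀ t, ‖A t‖ ≤ 2 * MM S a := by
    intro t
    have h1' : ‖(t.1 (e : ZMod S.W))⁻¹‖ = 1 := by
      rw [norm_inv]
      have : ‖t.1 (e : ZMod S.W)‖ = 1 := by
        obtain ⟨w, hw⟩ := hunit
        rw [← hw]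
        exact t.1.unit_norm_eq_one w
      rw [this, inv_one]
    show ‖(t.1 (e : ZMod S.W))⁻¹ * cX S e a t.2‖ ≤ _
    rw [norm_mul, h1', one_mul]
    exact hsup t.2
  have hsum : (S.W.totient : ℂ) *
      ((∑ y ∈ Ioc Y (2 * Y), FF S a y ^ 2 * th (S.W * y + e) : ℝ) : ℂ) =
      (r : ℂ) * ((v : ℂ) - u) + (∑ t, A t * G t + ∑ t, A t * B t) := by
    rw [hglx, ← Fintype.sum_prod_type']
    have e1 : ∀ t : DirichletCharacter ℂ S.W × (∀ x : π, DirichletCharacter ℂ (S.pr x)),
        (t.1 (e : ZMod S.W))⁻¹ * cX S e a t.2 *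
          ∑ n ∈ Ioc u v, (th n : ℂ) * (t.1 (n : ZMod S.W) * ∏ x, t.2 x (n : ZMod (S.pr x))) =
        (A t * G t + A t * B t) + A t * (if t = (1, fun _ => 1) then ((v : ℂ) - u) else 0) := by
      intro t
      rw [hΘ t]
      show A t * Θ t = (A t * (Θ t - (if (f t).2 = 1 then ((v : ℂ) - u) else
        if f t = y₁ then -(R : ℂ) else 0)) + A t * (if (f t).2 = 1 then 0 else
        if f t = y₁ then -(R : ℂ) else 0)) + _
      by_cases ht : t = (1, fun _ => 1)
      · rw [if_pos ((fone t).mpr ht), if_pos ((fone t).mpr ht), if_pos ht]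
        ring
      · rw [if_neg (fun h => ht ((fone t).mp h)), if_neg (fun h => ht ((fone t).mp h)),
          if_neg ht]
        ring
    rw [Finset.sum_congr rfl (fun t _ => e1 t), Finset.sum_add_distrib, Finset.sum_add_distrib]
    have e2 : ∑ t, A t * (if t = (1, fun _ => 1) then ((v : ℂ) - u) else 0) =
        (r : ℂ) * ((v : ℂ) - u) := by
      rw [Finset.sum_eq_single (1, fun _ => 1)]
      · rw [if_pos rfl]
        show ((1 : DirichletCharacter ℂ S.W) (e : ZMod S.W))⁻¹ * cX S e a (fun _ => 1) *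
          ((v : ℂ) - u) = _
        rw [hr1, MulChar.one_apply hunit, inv_one, one_mul]
      · intro t _ ht
        rw [if_neg ht, mul_zero]
      · intro h
        exact absurd (Finset.mem_univ _) h
    rw [e2, add_comm]
  have hbd : ‖∑ t, A t * G t‖ ≤ 2 * MM S a * MomE y₁ R Q u v := by
    calc ‖∑ t, A t * G t‖ ≤ ∑ t, ‖A t * G t‖ := norm_sum_le _ _
      _ ≤ ∑ t ∈ Finset.univ.filter (fun t => A t ≠ 0), 2 * MM S a * ‖G t‖ := by
          rw [Finset.sum_filter]
          apply Finset.sum_le_sum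
          intro t _
          by_cases hAt : A t = 0
          · rw [if_neg (by simpa using hAt), hAt, zero_mul, norm_zero]
          · rw [if_pos hAt, norm_mul]
            exact mul_le_mul_of_nonneg_right (hA t) (norm_nonneg _)
      _ = 2 * MM S a * ∑ t ∈ Finset.univ.filter (fun t => A t ≠ 0), ‖G t‖ := by
          rw [Finset.mul_sum]
      _ ≤ 2 * MM S a * MomE y₁ R Q u v := by
          apply mul_le_mul_of_nonneg_left _ (by linarith)
          unfold MomE
          have himg : ∑ t ∈ Finset.univ.filter (fun t => A t ≠ 0), ‖G t‖ =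
              ∑ x ∈ (Finset.univ.filter (fun t => A t ≠ 0)).image f,
                ‖∑ n ∈ Ioc u v, (th n : ℂ) * x.2 (n : ZMod x.1) -
                  (if x.2 = 1 then ((v : ℂ) - u) else if x = y₁ then -(R : ℂ) else 0)‖ := by
            rw [Finset.sum_image (fun s _ t _ h => finj h)]
          rw [himg]
          apply Finset.sum_le_sum_of_subset_of_nonneg
          · intro x hx
            rw [Finset.mem_image] at hx
            obtain ⟨t, ht, rfl⟩ := hx
            rw [Finset.mem_filter] at ht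
            have hc : cX S e a t.2 ≠ 0 := by
              intro h0
              apply ht.2
              show (t.1 (e : ZMod S.W))⁻¹ * cX S e a t.2 = 0
              rw [h0, mul_zero]
            have hs := hspt t.2 hc
            apply p1e_fam_mono _ (fmem t)
            have hWr : (0 : ℝ) ≤ S.W := Nat.cast_nonneg _
            have : ((S.W * ∏ x, (if t.2 x = 1 then 1 else S.pr x) : ℕ) : ℝ) ≤ Q := by
              rw [Nat.cast_mul]
              exact (mul_le_mul_of_nonneg_left hs hWr).trans hQ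
            exact_mod_cast this
          · intro x _ _
            exact norm_nonneg _
  have hr0 : 0 ≤ r := by linarith
  have hWY : 0 ≤ (S.W : ℝ) * Y := by positivity
  -- the exceptional term
  have hexc : -(τ * MM S a * (S.W * Y)) ≤ (∑ t, A t * B t).re := by
    by_cases hex : ∃ t₁, f t₁ = y₁ ∧ y₁.2 ≠ 1
    · obtain ⟨t₁, ht₁, hy1⟩ := hex
      have hs : ∑ t, A t * B t = A t₁ * (-(R : ℂ)) := by
        rw [Finset.sum_eq_single t₁]
        · have hB : B t₁ = -(R : ℂ) := by
            show (if (f t₁).2 = 1 then 0 else if f t₁ = y₁ then -(R : ℂ) else 0) = -(R : ℂ)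
            rw [if_neg (by rw [ht₁]; exact hy1), if_pos ht₁]
          rw [hB]
        · intro t _ ht
          have hB : B t = 0 := by
            show (if (f t).2 = 1 then 0 else if f t = y₁ then -(R : ℂ) else 0) = 0
            by_cases h7 : (f t).2 = 1
            · rw [if_pos h7]
            · rw [if_neg h7, if_neg (fun h8 => ht (finj (h8.trans ht₁.symm)))]
          rw [hB, mul_zero]
        · intro h
          exact absurd (Finset.mem_univ _) h
      rw [hs]
      by_cases hx : ∃ x, t₁.2 x ≠ 1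
      · have h9 : ‖A t₁‖ ≤ τ * MM S a := by
          have h10 : ‖(t₁.1 (e : ZMod S.W))⁻¹‖ = 1 := by
            rw [norm_inv]
            have : ‖t₁.1 (e : ZMod S.W)‖ = 1 := by
              obtain ⟨w, hw⟩ := hunit
              rw [← hw]
              exact t₁.1.unit_norm_eq_one w
            rw [this, inv_one]
          show ‖(t₁.1 (e : ZMod S.W))⁻¹ * cX S e a t₁.2‖ ≤ _
          rw [norm_mul, h10, one_mul]
          exact hram t₁.2 hx
        have h11 : ‖A t₁ * (-(R : ℂ))‖ ≤ τ * MM S a * (S.W * Y) := by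
          rw [norm_mul, norm_neg, Complex.norm_real, Real.norm_eq_abs, abs_of_nonneg hR]
          exact mul_le_mul h9 hRW hR (mul_nonneg hτ hMM)
        have h12 := Complex.abs_re_le_norm (A t₁ * (-(R : ℂ)))
        exact (abs_le.mp (h12.trans h11)).1
      · have hall : t₁.2 = fun _ => 1 := by
          funext x
          by_contra h13
          exact hx ⟨x, h13⟩
        have h14 : t₁.1 (e : ZMod S.W) = -1 := by
          apply hy₁ hy1 t₁.1
          intro n hn1 hn2
          have h15 := fval t₁ n hn1 hn2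
          rw [← ht₁, h15, hall]
          have h16 : ∏ x, (1 : DirichletCharacter ℂ (S.pr x)) (n : ZMod (S.pr x)) = 1 := by
            apply Finset.prod_eq_one
            intro x _
            exact MulChar.one_apply ((ZMod.isUnit_iff_coprime n (S.pr x)).mpr (hn2 x))
          rw [h16, mul_one]
        have h17 : A t₁ * (-(R : ℂ)) = ((r * R : ℝ) : ℂ) := by
          show (t₁.1 (e : ZMod S.W))⁻¹ * cX S e a t₁.2 * (-(R : ℂ)) = _
          rw [h14, hall, hr1]
          push_cast
          norm_num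
        rw [h17, Complex.ofReal_re]
        have h18 : 0 ≤ r * R := mul_nonneg hr0 hR
        have h19 : 0 ≤ τ * MM S a * (S.W * Y) := mul_nonneg (mul_nonneg hτ hMM) hWY
        linarith
    · have hs : ∑ t, A t * B t = 0 := by
        apply Finset.sum_eq_zero
        intro t _
        have hB : B t = 0 := by
          show (if (f t).2 = 1 then 0 else if f t = y₁ then -(R : ℂ) else 0) = 0
          by_cases h7 : (f t).2 = 1
          · rw [if_pos h7]
          · rw [if_neg h7, if_neg]
            intro h8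
            apply hex
            refine ⟨t, h8, ?_⟩
            rw [← h8]
            exact h7
        rw [hB, mul_zero]
      rw [hs, Complex.zero_re]
      have h19 : 0 ≤ τ * MM S a * (S.W * Y) := mul_nonneg (mul_nonneg hτ hMM) hWY
      linarith
  have hre := congrArg Complex.re hsum
  have hvu : ((v : ℂ) - u) = (((S.W : ℝ) * Y : ℝ) : ℂ) := by
    rw [hu, hv]
    push_cast
    ring
  rw [hvu, Complex.add_re, Complex.add_re] at hre
  have hl : ((S.W.totient : ℂ) *
      ((∑ y ∈ Ioc Y (2 * Y), FF S a y ^ 2 * th (S.W * y + e) : ℝ) : ℂ)).re =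
      (S.W.totient : ℝ) * ∑ y ∈ Ioc Y (2 * Y), FF S a y ^ 2 * th (S.W * y + e) := by
    rw [← Complex.ofReal_natCast, ← Complex.ofReal_mul, Complex.ofReal_re]
  rw [hl, ← Complex.ofReal_mul, Complex.ofReal_re] at hre
  have hre2 : -(2 * MM S a * MomE y₁ R Q u v) ≤ (∑ t, A t * G t).re := by
    have := Complex.abs_re_le_norm (∑ t, A t * G t)
    have h' := (abs_le.mp (this.trans hbd)).1
    exact h'
  rw [div_mul_eq_mul_div, one_mul, div_le_iff₀ hΦ]
  have h6 : MM S a / 2 * (S.W * Y) ≤ r * (S.W * Y) := mul_le_mul_of_nonneg_right hr2 hWY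
  linarith

end Pool.LGC
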