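import Pool.Agent.Work.MP_b0c12c_chain.Interface

set_option autoImplicit false

namespace Pool.LGC

open Finset Filter
open Pool.LGP

theorem p_P2 (h1 : Stmt_E2S) (h2 : Stmt_E2I) (h3 : Stmt_E2R) (h4 : Stmt_E2C)
    (h5 : Pool.LGP.Stmt_L2) : Stmt_P2 := by
  intro π ι _ _ _ _ S hS e₁ e₂ hS2 a g z A G K R d Y hz hpr hA hK haA hgA hzA hg0 hg1 hgG hgK
    hp2 hgR hd
  have hcard : (Fintype.card (Option (Option ι)) : ℝ) = (Fintype.card ι : ℝ) + 2 := by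
    rw [Fintype.card_option, Fintype.card_option]; push_cast; ring
  have hc0 : (0 : ℝ) ≤ (Fintype.card ι : ℝ) := Nat.cast_nonneg _
  have hz0 : 0 < z := by linarith
  have hwt0 : ∀ T : Finset π, 0 ≤ S.wt T := fun T =>
    prod_nonneg fun x _ => Nat.cast_nonneg _
  have hez0 : ∀ σ : π → Option ι, 0 ≤ S.ez σ := fun σ => by
    refine prod_nonneg fun x _ => ?_
    cases σ x with
    | none => simp [Sys.el]
    | some j => simp only [Sys.el]; positivity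
  have hgw0 : 0 ≤ ∑ T, g T ^ 2 * S.wt T :=
    sum_nonneg fun T _ => mul_nonneg (sq_nonneg _) (hwt0 T)
  have hpp0 : ∀ T : Finset π, 0 ≤ ∏ x ∈ T, ((S.pr x : ℝ) + 1) := fun T =>
    prod_nonneg fun x _ => by positivity
  have hgR0 : 0 ≤ ∑ T, g T * ∏ x ∈ T, ((S.pr x : ℝ) + 1) :=
    sum_nonneg fun T _ => mul_nonneg (hg0 T) (hpp0 T)
  have hEE0 : 0 ≤ EE S a := sum_nonneg fun σ _ => mul_nonneg (abs_nonneg _) (hez0 σ)
  have hMM0 : 0 ≤ MM S a :=
    sum_nonneg fun σ _ => mul_nonneg (sq_nonneg _) (Nat.cast_nonneg _)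
  have hY0 : (0 : ℝ) ≤ (Y : ℝ) := Nat.cast_nonneg _
  -- the defect coefficients
  set b : (π → Option ι) → ℝ := fun σ => a σ * (1 - cs g σ) with hb
  have hcs0 : ∀ σ : π → Option ι, 0 ≤ cs g σ := by
    intro σ
    unfold cs
    refine sum_nonneg fun ρ _ => ?_
    split_ifs
    · exact mul_nonneg (hg0 _) (hg0 _)
    · exact le_rfl
  have hcs := h4 π ι S g K z hg0 hg1 hz0 hpr hK hgK hp2
  have hbd : ∀ σ : π → Option ι, b σ ^ 2 ≤ a σ ^ 2 * d ^ 2 := by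
    intro σ
    by_cases h : a σ = 0
    · simp [hb, h]
    · obtain ⟨hc1, hc2⟩ := hcs σ
      have hact := haA σ h
      have h6 : 1 - cs g σ ≤ d := by
        refine le_trans hc2 (le_trans ?_ hd)
        have : 2 * (act σ : ℝ) * K / z ≤ 2 * A * K / z := by
          apply div_le_div_of_nonneg_right _ hz0.le
          apply mul_le_mul_of_nonneg_right _ hK
          linarith
        linarith
      have h7 : 0 ≤ 1 - cs g σ := by linarith
      simp only [hb, mul_pow]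
      apply mul_le_mul_of_nonneg_left _ (sq_nonneg _)
      exact pow_le_pow_left₀ h7 h6 2
  have hba : ∀ σ : π → Option ι, |b σ| ≤ |a σ| := by
    intro σ
    obtain ⟨hc1, hc2⟩ := hcs σ
    simp only [hb, abs_mul]
    have h7 : |1 - cs g σ| ≤ 1 := by
      rw [abs_le]; constructor
      · linarith
      · linarith [hcs0 σ]
    calc |a σ| * |1 - cs g σ| ≤ |a σ| * 1 := mul_le_mul_of_nonneg_left h7 (abs_nonneg _)
      _ = |a σ| := mul_one _
  -- L2 for the extended system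
  have hL2a := (h5 π (Option (Option ι)) (ext2 S e₁ e₂) hS2 z hz hpr (at2 g a) (by
    intro ρ hρ
    have hs := (h1 π ι S e₁ e₂ ρ).2.2
    have ha : a (drop ρ) ≠ 0 := by
      intro h; exact hρ (by simp [at2, h])
    have hg1' : g (fib ρ none) ≠ 0 := by
      intro h; exact hρ (by simp [at2, h])
    have hg2' : g (fib ρ (some none)) ≠ 0 := by
      intro h; exact hρ (by simp [at2, h])
    have h8 := haA _ ha
    have h9 := hgA _ hg1'
    have h10 := hgA _ hg2'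
    have h11 : (act ρ : ℝ) ≤ 3 * A := by
      rw [hs]; push_cast; linarith
    rw [hcard]
    refine le_trans ?_ hzA
    have h12 : 0 ≤ (Fintype.card ι : ℝ) + 3 := by linarith
    nlinarith [mul_le_mul_of_nonneg_right h11 h12]) Y).1
  have hL2b := (h5 π ι S hS z hz hpr b (by
    intro σ hσ
    have ha : a σ ≠ 0 := by
      intro h; exact hσ (by simp [hb, h])
    have h8 := haA _ ha
    refine le_trans ?_ hzA
    have h12 : 0 ≤ (Fintype.card ι : ℝ) + 1 := by linarith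
    nlinarith [mul_le_mul_of_nonneg_right h8 h12, mul_nonneg hA hc0]) Y).1
  -- the main quadratic form
  have hQ1 : ∑ ρ, at2 g a ρ ^ 2 * ((ext2 S e₁ e₂).szn ρ : ℝ) ≤ MM S a * G ^ 2 := by
    have h6 := h2 π ι (fun σ => a σ ^ 2 * S.szn σ) (fun T => g T ^ 2 * S.wt T)
      (fun T => g T ^ 2 * S.wt T) (fun σ => mul_nonneg (sq_nonneg _) (Nat.cast_nonneg _))
      (fun T => mul_nonneg (sq_nonneg _) (hwt0 T)) (fun T => mul_nonneg (sq_nonneg _) (hwt0 T))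
    have h7 : ∑ ρ, at2 g a ρ ^ 2 * ((ext2 S e₁ e₂).szn ρ : ℝ) =
        ∑ ρ : π → Option (Option (Option ι)), (a (drop ρ) ^ 2 * S.szn (drop ρ)) *
          ((g (fib ρ none) ^ 2 * S.wt (fib ρ none)) *
            (g (fib ρ (some none)) ^ 2 * S.wt (fib ρ (some none)))) := by
      refine sum_congr rfl fun ρ _ => ?_
      rw [(h1 π ι S e₁ e₂ ρ).1]
      unfold at2
      ring
    rw [h7]
    refine le_trans h6 ?_
    refine mul_le_mul_of_nonneg_left ?_ hMM0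
    rw [pow_two]
    exact mul_le_mul hgG hgG hgw0 (le_trans hgw0 hgG)
  have hQ2 : ∑ ρ, |at2 g a ρ| * (ext2 S e₁ e₂).ez ρ ≤ EE S a * R ^ 2 := by
    have h6 := h2 π ι (fun σ => |a σ| * S.ez σ) (fun T => g T * ∏ x ∈ T, ((S.pr x : ℝ) + 1))
      (fun T => g T * ∏ x ∈ T, ((S.pr x : ℝ) + 1)) (fun σ => mul_nonneg (abs_nonneg _) (hez0 σ))
      (fun T => mul_nonneg (hg0 T) (hpp0 T)) (fun T => mul_nonneg (hg0 T) (hpp0 T))
    have h7 : ∑ ρ, |at2 g a ρ| * (ext2 S e₁ e₂).ez ρ =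
        ∑ ρ : π → Option (Option (Option ι)), (|a (drop ρ)| * S.ez (drop ρ)) *
          ((g (fib ρ none) * ∏ x ∈ fib ρ none, ((S.pr x : ℝ) + 1)) *
            (g (fib ρ (some none)) * ∏ x ∈ fib ρ (some none), ((S.pr x : ℝ) + 1))) := by
      refine sum_congr rfl fun ρ _ => ?_
      rw [(h1 π ι S e₁ e₂ ρ).2.1]
      unfold at2
      rw [abs_mul, abs_of_nonneg (mul_nonneg (hg0 _) (hg0 _))]
      ring
    rw [h7]
    refine le_trans h6 ?_
    refine mul_le_mul_of_nonneg_left ?_ hEE0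
    rw [pow_two]
    exact mul_le_mul hgR hgR hgR0 (le_trans hgR0 hgR)
  have hQ3 : ∑ σ, b σ ^ 2 * (S.szn σ : ℝ) ≤ MM S a * d ^ 2 := by
    unfold MM
    rw [sum_mul]
    refine sum_le_sum fun σ _ => ?_
    calc b σ ^ 2 * (S.szn σ : ℝ) ≤ (a σ ^ 2 * d ^ 2) * S.szn σ :=
          mul_le_mul_of_nonneg_right (hbd σ) (Nat.cast_nonneg _)
      _ = a σ ^ 2 * S.szn σ * d ^ 2 := by ring
  have hQ4 : ∑ σ, |b σ| * S.ez σ ≤ EE S a :=
    sum_le_sum fun σ _ => mul_le_mul_of_nonneg_right (hba σ) (hez0 σ)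
  have hQ20 : 0 ≤ ∑ ρ, |at2 g a ρ| * (ext2 S e₁ e₂).ez ρ := by
    refine sum_nonneg fun ρ _ => mul_nonneg (abs_nonneg _) ?_
    rw [(h1 π ι S e₁ e₂ ρ).2.1]
    exact mul_nonneg (hez0 _) (mul_nonneg (hpp0 _) (hpp0 _))
  have hQ40 : 0 ≤ ∑ σ, |b σ| * S.ez σ :=
    sum_nonneg fun σ _ => mul_nonneg (abs_nonneg _) (hez0 σ)
  -- pointwise
  have hpt : ∀ y, (if (∀ x, ¬ S.pr x ∣ S.W * y + e₁) ∧ (∀ x, ¬ S.pr x ∣ S.W * y + e₂) then
      FF S a y ^ 2 else 0) ≤ 2 * (∑ ρ, at2 g a ρ * (ext2 S e₁ e₂).psi ρ y) ^ 2 +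
        2 * (∑ σ, b σ * S.psi σ y) ^ 2 := by
    intro y
    split_ifs with h
    · have h6 := h3 π ι S e₁ e₂ a g y h.1 h.2
      have h7 : FF S a y = (∑ ρ, at2 g a ρ * (ext2 S e₁ e₂).psi ρ y) +
          ∑ σ, b σ * S.psi σ y := by
        have h8 : (∑ ρ, at2 g a ρ * (ext2 S e₁ e₂).psi ρ y) =
          ∑ σ, a σ * cs g σ * S.psi σ y := h6
        rw [h8, ← sum_add_distrib]
        unfold FF
        refine sum_congr rfl fun σ _ => ?_
        simp only [hb]; ring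
      rw [h7]
      nlinarith [sq_nonneg ((∑ ρ, at2 g a ρ * (ext2 S e₁ e₂).psi ρ y) -
        ∑ σ, b σ * S.psi σ y)]
    · positivity
  calc ∑ y ∈ Ioc Y (2 * Y), (if (∀ x, ¬ S.pr x ∣ S.W * y + e₁) ∧
        (∀ x, ¬ S.pr x ∣ S.W * y + e₂) then FF S a y ^ 2 else 0)
      ≤ ∑ y ∈ Ioc Y (2 * Y), (2 * (∑ ρ, at2 g a ρ * (ext2 S e₁ e₂).psi ρ y) ^ 2 +
        2 * (∑ σ, b σ * S.psi σ y) ^ 2) := sum_le_sum fun y _ => hpt y
    _ = 2 * ∑ y ∈ Ioc Y (2 * Y), (∑ ρ, at2 g a ρ * (ext2 S e₁ e₂).psi ρ y) ^ 2 +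
        2 * ∑ y ∈ Ioc Y (2 * Y), (∑ σ, b σ * S.psi σ y) ^ 2 := by
        rw [sum_add_distrib, mul_sum, mul_sum]
    _ ≤ 2 * (2 * Y * (MM S a * G ^ 2) + (EE S a * R ^ 2) ^ 2) +
        2 * (2 * Y * (MM S a * d ^ 2) + EE S a ^ 2) := by
        have h2Y : (0 : ℝ) ≤ 2 * Y := by positivity
        have h6 := mul_le_mul_of_nonneg_left hQ1 h2Y
        have h7 := mul_le_mul_of_nonneg_left hQ3 h2Y
        have h8 := pow_le_pow_left₀ hQ20 hQ2 2
        have h9 := pow_le_pow_left₀ hQ40 hQ4 2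
        linarith
    _ = 4 * Y * MM S a * (G ^ 2 + d ^ 2) + 2 * ((EE S a * R ^ 2) ^ 2 + EE S a ^ 2) := by
        ring

end Pool.LGC
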