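import Pool.Agent.Work.MP_b0c12c_chain.InterfaceL
import Pool.Agent.Work.SW.PNT

set_option autoImplicit false

namespace Pool.LGC

open Finset Filter
open Pool.LGP

theorem pig_theta_sub (x h : ℕ) :
    Chebyshev.theta ((x + h : ℕ) : ℝ) - Chebyshev.theta (x : ℝ) =
      ∑ p ∈ (Ioc x (x + h)).filter Nat.Prime, Real.log p := by
  unfold Chebyshev.theta
  rw [Nat.floor_natCast, Nat.floor_natCast, Finset.sum_filter, Finset.sum_filter,
    Finset.sum_filter, sub_eq_iff_eq_add]
  have h1 := Finset.sum_Ioc_consecutive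
    (fun a : ℕ => if a.Prime then Real.log (a : ℝ) else 0) (Nat.zero_le x) (Nat.le_add_right x h)
  rw [← h1]
  ring

/-- Uniform form of the prime number theorem. -/
theorem pig_unif (C B η ε : ℝ) (hC : 0 < C) (hη : 0 < η)
    (hpnt : ∀ X : ℝ, 2 ≤ X → |Chebyshev.psi X - X| ≤ C * (X / Real.log X)) (H y : ℝ)
    (h2 : 2 ≤ η * H) (h1 : 1 < η * H) (hy1 : η * H ≤ y) (hy2 : y ≤ B * H)
    (hL : C * B * H ≤ ε * H * Real.log (η * H)) :
    |Chebyshev.psi y - y| ≤ ε * H := by
  have hlog : 0 < Real.log (η * H) := Real.log_pos h1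
  refine (hpnt y (h2.trans hy1)).trans ?_
  have h3 : Real.log (η * H) ≤ Real.log y := Real.log_le_log (by linarith) hy1
  have h4 : y / Real.log y ≤ B * H / Real.log (η * H) := by
    have : 0 ≤ y := by linarith
    have : 0 ≤ B * H := by linarith
    gcongr
  calc C * (y / Real.log y) ≤ C * (B * H / Real.log (η * H)) := by gcongr
    _ = (C * B * H) / Real.log (η * H) := by ring
    _ ≤ ε * H := by
        rw [div_le_iff₀ hlog]
        exact hL

theorem p_PIG : Stmt_PIG := by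
  intro δ hδ
  obtain ⟨C, hC, hpnt'⟩ := Pool.Agent.SW.pnt 1
  have hpnt : ∀ X : ℝ, 2 ≤ X → |Chebyshev.psi X - X| ≤ C * (X / Real.log X) := by
    intro X hX
    have := hpnt' X hX
    rw [pow_one] at this
    exact this
  set η : ℝ := δ / 128 with hη
  have hη0 : 0 < η := by positivity
  have t0 : Tendsto (fun H : ℕ => η * (H : ℝ)) atTop atTop :=
    Tendsto.const_mul_atTop hη0 tendsto_natCast_atTop_atTop
  have t1 : Tendsto (fun H : ℕ => Real.log (η * (H : ℝ))) atTop atTop :=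
    Real.tendsto_log_atTop.comp t0
  have t2 : Tendsto (fun H : ℕ => (1 + δ) * (H : ℝ)) atTop atTop :=
    Tendsto.const_mul_atTop (by linarith) tendsto_natCast_atTop_atTop
  have t3 : Tendsto (fun H : ℕ => Real.log (H : ℝ)) atTop atTop :=
    Real.tendsto_log_atTop.comp tendsto_natCast_atTop_atTop
  have e2 : ∀ᶠ H : ℕ in atTop, ‖Real.log ((1 + δ) * (H : ℝ))‖ ≤
      δ / (64 * (1 + δ)) * ‖((1 + δ) * (H : ℝ)) ^ (1 / 2 : ℝ)‖ :=
    t2.eventually ((isLittleO_log_rpow_atTop (show (0 : ℝ) < 1 / 2 by norm_num)).def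
      (by positivity))
  obtain ⟨H₀, h₀⟩ := eventually_atTop.1 ((t0.eventually_ge_atTop 2).and
    ((t1.eventually_ge_atTop (32 * C * (1 + δ) / δ + C)).and
    ((t3.eventually_ge_atTop (2 * Real.log (1 + δ) + 1)).and e2)))
  refine ⟨H₀, fun H x hH hxH => ?_⟩
  obtain ⟨a0, a1, a3, a2⟩ := h₀ H hH
  have hHpos : (0 : ℝ) < H := by
    by_contra hcon
    push Not at hcon
    have : η * (H : ℝ) ≤ 0 := mul_nonpos_of_nonneg_of_nonpos hη0.le hcon
    linarith
  have hδH : 256 ≤ δ * H := by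
    rw [hη] at a0
    linarith
  set h : ℕ := ⌊δ * (H : ℝ)⌋₊ with hh
  have hx1 : (x : ℝ) ≤ H := by exact_mod_cast hxH
  have hx0 : (0 : ℝ) ≤ x := Nat.cast_nonneg x
  have hup : (h : ℝ) ≤ δ * H := Nat.floor_le (by positivity)
  have hlow : δ * H / 2 ≤ (h : ℝ) := by
    have := Nat.lt_floor_add_one (δ * (H : ℝ))
    rw [← hh] at this
    linarith
  have hyc : ((x + h : ℕ) : ℝ) = x + h := by push_cast; ring
  have hL : C * (1 + δ) * H ≤ δ / 32 * H * Real.log (η * H) := by
    have h1 : 32 * C * (1 + δ) / δ ≤ Real.log (η * H) := by linarith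
    rw [div_le_iff₀ hδ] at h1
    nlinarith
  -- psi at x + h
  have r2 := abs_le.1 (pig_unif C (1 + δ) η (δ / 32) hC hη0 hpnt H ((x + h : ℕ) : ℝ) a0
    (by linarith) (by rw [hyc, hη]; linarith) (by rw [hyc]; linarith) hL)
  -- psi at x
  have r1 : Chebyshev.psi (x : ℝ) ≤ x + δ / 32 * H := by
    rcases le_total (x : ℝ) (η * H) with hc | hc
    · have h1 : Chebyshev.psi (x : ℝ) ≤ Chebyshev.psi (η * H) := Chebyshev.psi_mono hc
      have h2 := abs_le.1 (hpnt (η * H) a0)
      have h3 : C * (η * H / Real.log (η * H)) ≤ η * H := by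
        have hlog : 0 < Real.log (η * H) := Real.log_pos (by linarith)
        rw [mul_div_assoc', div_le_iff₀ hlog, mul_comm C]
        have : C ≤ Real.log (η * H) := by
          have : 0 ≤ 32 * C * (1 + δ) / δ := by positivity
          linarith
        exact mul_le_mul_of_nonneg_left this (by linarith)
      have h4 : η * H = δ / 128 * H := by rw [hη]
      rw [h4] at h2 h3
      rw [h4] at h1
      linarith [h2.2]
    · have h1 := abs_le.1 (pig_unif C (1 + δ) η (δ / 32) hC hη0 hpnt H (x : ℝ) a0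
        (by linarith) hc (by nlinarith) hL)
      linarith [h1.2]
  -- theta
  have s1 : Chebyshev.theta (x : ℝ) ≤ Chebyshev.psi (x : ℝ) := Chebyshev.theta_le_psi _
  have hy1 : (1 : ℝ) ≤ ((x + h : ℕ) : ℝ) := by
    rw [hyc]
    linarith
  have hyB : ((x + h : ℕ) : ℝ) ≤ (1 + δ) * H := by
    rw [hyc]
    linarith
  have s2 := abs_le.1 (Chebyshev.abs_psi_sub_theta_le_sqrt_mul_log
    (x := ((x + h : ℕ) : ℝ)) hy1)
  have s3 : 2 * √((x + h : ℕ) : ℝ) * Real.log ((x + h : ℕ) : ℝ) ≤ δ / 32 * H := by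
    have h3 : Real.log ((x + h : ℕ) : ℝ) ≤ Real.log ((1 + δ) * H) :=
      Real.log_le_log (by linarith) hyB
    have h4 : 0 ≤ Real.log ((x + h : ℕ) : ℝ) := Real.log_nonneg hy1
    have h5 : Real.log ((1 + δ) * H) ≤ δ / (64 * (1 + δ)) * √((1 + δ) * H) := by
      have := a2
      rw [Real.norm_eq_abs, Real.norm_eq_abs, ← Real.sqrt_eq_rpow,
        abs_of_nonneg (h4.trans h3), abs_of_nonneg (Real.sqrt_nonneg _)] at this
      exact this
    calc 2 * √((x + h : ℕ) : ℝ) * Real.log ((x + h : ℕ) : ℝ)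
        ≤ 2 * √((1 + δ) * H) * (δ / (64 * (1 + δ)) * √((1 + δ) * H)) := by
          have h6 : √((x + h : ℕ) : ℝ) ≤ √((1 + δ) * H) := Real.sqrt_le_sqrt hyB
          have h7 : Real.log ((x + h : ℕ) : ℝ) ≤ δ / (64 * (1 + δ)) * √((1 + δ) * H) :=
            h3.trans h5
          gcongr
      _ = 2 * (δ / (64 * (1 + δ))) * (√((1 + δ) * H) * √((1 + δ) * H)) := by ring
      _ = 2 * (δ / (64 * (1 + δ))) * ((1 + δ) * H) := by rw [Real.mul_self_sqrt (by positivity)]
      _ = δ / 32 * H := by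
          field_simp
          ring
  have s4 := pig_theta_sub x h
  have s5 : ∑ p ∈ (Ioc x (x + h)).filter Nat.Prime, Real.log p ≤
      (((Ioc x (x + h)).filter Nat.Prime).card : ℝ) * Real.log ((1 + δ) * H) := by
    rw [← nsmul_eq_mul]
    refine Finset.sum_le_card_nsmul _ _ _ fun p hp => ?_
    rw [Finset.mem_filter, Finset.mem_Ioc] at hp
    have h1 : (p : ℝ) ≤ x + h := by exact_mod_cast hp.1.2
    have h2 : (0 : ℝ) < p := by exact_mod_cast hp.2.pos
    exact Real.log_le_log h2 (by linarith)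
  have s6 : Real.log ((1 + δ) * H) ≤ 3 / 2 * Real.log H := by
    rw [Real.log_mul (by linarith) hHpos.ne']
    linarith
  have hLH : 0 < Real.log (H : ℝ) := by
    have : 0 ≤ Real.log (1 + δ) := Real.log_nonneg (by linarith)
    linarith
  have s7 : 3 / 4 * (h : ℝ) ≤
      (((Ioc x (x + h)).filter Nat.Prime).card : ℝ) * Real.log ((1 + δ) * H) := by
    refine le_trans ?_ s5
    rw [← s4]
    rw [hyc] at r2 s2 s3 ⊢
    linarith [r2.1, r2.2, s2.1, s2.2]
  have s8 : 3 / 4 * (h : ℝ) ≤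
      (((Ioc x (x + h)).filter Nat.Prime).card : ℝ) * (3 / 2 * Real.log H) :=
    s7.trans (mul_le_mul_of_nonneg_left s6 (by positivity))
  rw [mul_div_assoc', div_le_iff₀ hLH]
  linarith

end Pool.LGC
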