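import Pool.Agent.Work.MP_b0c12c_chain.Interface
import Pool.Agent.Work.SW.PNT

set_option autoImplicit false

namespace Pool.LGC

open Finset Filter
open Pool.LGP

theorem theta_sub (x h : ℕ) : Chebyshev.theta ((x + h : ℕ) : ℝ) - Chebyshev.theta (x : ℝ) =
    ∑ p ∈ (Ioc x (x + h)).filter Nat.Prime, Real.log p := by
  unfold Chebyshev.theta
  rw [Nat.floor_natCast, Nat.floor_natCast, Finset.sum_filter, Finset.sum_filter,
    Finset.sum_filter, sub_eq_iff_eq_add]
  have h1 := Finset.sum_Ioc_consecutive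
    (fun a : ℕ => if a.Prime then Real.log (a : ℝ) else 0) (Nat.zero_le x) (Nat.le_add_right x h)
  rw [← h1]
  ring

theorem p_PIN : Stmt_PIN := by
  intro J hJ
  obtain ⟨C, hC, hpnt⟩ := Pool.Agent.SW.pnt 1
  have hJ' : (0 : ℝ) < J := by exact_mod_cast hJ
  have t1 : Tendsto (fun H : ℕ => Real.log ((H : ℝ) / 2)) atTop atTop :=
    Real.tendsto_log_atTop.comp
      (Tendsto.atTop_div_const (by norm_num) tendsto_natCast_atTop_atTop)
  have e1 : ∀ᶠ H : ℕ in atTop, 192 * J * C ≤ Real.log ((H : ℝ) / 2) :=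
    t1.eventually_ge_atTop _
  have t2 : Tendsto (fun H : ℕ => 2 * (H : ℝ)) atTop atTop :=
    Tendsto.const_mul_atTop (by norm_num) tendsto_natCast_atTop_atTop
  have e2 : ∀ᶠ H : ℕ in atTop, ‖Real.log (2 * (H : ℝ))‖ ≤
      1 / (256 * J) * ‖(2 * (H : ℝ)) ^ (1 / 2 : ℝ)‖ :=
    t2.eventually ((isLittleO_log_rpow_atTop (show (0 : ℝ) < 1 / 2 by norm_num)).def
      (by positivity))
  obtain ⟨H₀, h₀⟩ := eventually_atTop.1 (e1.and (e2.and (eventually_ge_atTop (8 + 8 * J))))
  refine ⟨H₀, fun H x hH hHx hxH => ?_⟩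
  obtain ⟨a1, a2, a3⟩ := h₀ H hH
  set h : ℕ := H / (4 * J) with hh
  have hHr : (8 : ℝ) + 8 * J ≤ H := by exact_mod_cast a3
  have hHpos : (0 : ℝ) < H := by linarith
  have hx2 : (H : ℝ) ≤ 2 * x := by exact_mod_cast hHx
  have hx1 : (x : ℝ) ≤ H := by exact_mod_cast hxH
  have hhH : (h : ℝ) ≤ H := by
    have : h ≤ H := Nat.div_le_self _ _
    exact_mod_cast this
  have hlow : (H : ℝ) / (8 * J) ≤ h := by
    have h1 : (H : ℝ) / (4 * J) - 1 < h := by
      have := Nat.lt_div_mul_add (a := H) (b := 4 * J) (by positivity)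
      rw [← hh] at this
      have h3 : (H : ℝ) < h * (4 * J) + 4 * J := by exact_mod_cast this
      rw [sub_lt_iff_lt_add, div_lt_iff₀ (by positivity)]
      nlinarith
    have h2 : (1 : ℝ) ≤ H / (8 * J) := by
      rw [le_div_iff₀ (by positivity)]
      linarith
    have h3 : (H : ℝ) / (4 * J) = 2 * (H / (8 * J)) := by
      field_simp
      ring
    linarith
  have hxl : (4 : ℝ) ≤ x := by linarith
  have hL2 : 0 < Real.log ((H : ℝ) / 2) := Real.log_pos (by linarith)
  -- psi at x and x + h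
  have p1 := hpnt (x : ℝ) (by linarith)
  have p2 := hpnt ((x + h : ℕ) : ℝ) (by push_cast; have : (0 : ℝ) ≤ h := by positivity
                                        linarith)
  rw [pow_one] at p1 p2
  have q1 : (x : ℝ) / Real.log x ≤ H / Real.log ((H : ℝ) / 2) := by
    have : Real.log ((H : ℝ) / 2) ≤ Real.log x := Real.log_le_log (by linarith) (by linarith)
    gcongr
  have q2 : ((x + h : ℕ) : ℝ) / Real.log ((x + h : ℕ) : ℝ) ≤
      2 * H / Real.log ((H : ℝ) / 2) := by
    have h1 : Real.log ((H : ℝ) / 2) ≤ Real.log ((x + h : ℕ) : ℝ) := by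
      apply Real.log_le_log (by linarith)
      push_cast
      have : (0 : ℝ) ≤ h := by positivity
      linarith
    have h2 : ((x + h : ℕ) : ℝ) ≤ 2 * H := by
      push_cast
      linarith
    gcongr
  have q3 : C * ((x : ℝ) / Real.log x) + C * (((x + h : ℕ) : ℝ) / Real.log ((x + h : ℕ) : ℝ)) ≤
      H / (64 * J) := by
    have h1 : C * ((x : ℝ) / Real.log x) + C * (((x + h : ℕ) : ℝ) /
        Real.log ((x + h : ℕ) : ℝ)) ≤ C * (H / Real.log ((H : ℝ) / 2)) +
          C * (2 * H / Real.log ((H : ℝ) / 2)) := by gcongr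
    refine h1.trans ?_
    have h2 : C * (H / Real.log ((H : ℝ) / 2)) + C * (2 * H / Real.log ((H : ℝ) / 2)) =
        3 * C * H / Real.log ((H : ℝ) / 2) := by ring
    rw [h2, div_le_div_iff₀ hL2 (by positivity)]
    nlinarith [mul_le_mul_of_nonneg_left a1 hHpos.le]
  have r1 := abs_le.1 p1
  have r2 := abs_le.1 p2
  -- theta
  have s1 : Chebyshev.theta (x : ℝ) ≤ Chebyshev.psi (x : ℝ) := Chebyshev.theta_le_psi _
  have s2 := abs_le.1 (Chebyshev.abs_psi_sub_theta_le_sqrt_mul_log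
    (x := ((x + h : ℕ) : ℝ)) (by push_cast; have : (0 : ℝ) ≤ h := by positivity
                                 linarith))
  have hpsi1 : Chebyshev.psi (x : ℝ) =
      ∑ n ∈ Ioc 0 ⌊(x : ℝ)⌋₊, ArithmeticFunction.vonMangoldt n := rfl
  have hpsi2 : Chebyshev.psi ((x + h : ℕ) : ℝ) =
      ∑ n ∈ Ioc 0 ⌊((x + h : ℕ) : ℝ)⌋₊, ArithmeticFunction.vonMangoldt n := rfl
  rw [← hpsi1] at r1
  rw [← hpsi2] at r2
  have s3 : 2 * √((x + h : ℕ) : ℝ) * Real.log ((x + h : ℕ) : ℝ) ≤ H / (64 * J) := by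
    have h2 : ((x + h : ℕ) : ℝ) ≤ 2 * H := by
      push_cast
      linarith
    have hpos : (1 : ℝ) ≤ ((x + h : ℕ) : ℝ) := by
      push_cast
      have : (0 : ℝ) ≤ h := by positivity
      linarith
    have h3 : Real.log ((x + h : ℕ) : ℝ) ≤ Real.log (2 * H) := Real.log_le_log (by linarith) h2
    have h4 : 0 ≤ Real.log ((x + h : ℕ) : ℝ) := Real.log_nonneg hpos
    have h5 : Real.log (2 * H) ≤ 1 / (256 * J) * √(2 * H) := by
      have := a2
      rw [Real.norm_eq_abs, Real.norm_eq_abs, ← Real.sqrt_eq_rpow,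
        abs_of_nonneg (h4.trans h3), abs_of_nonneg (Real.sqrt_nonneg _)] at this
      exact this
    calc 2 * √((x + h : ℕ) : ℝ) * Real.log ((x + h : ℕ) : ℝ)
        ≤ 2 * √(2 * H) * (1 / (256 * J) * √(2 * H)) := by
          have h6 : √((x + h : ℕ) : ℝ) ≤ √(2 * H) := Real.sqrt_le_sqrt h2
          have h7 : Real.log ((x + h : ℕ) : ℝ) ≤ 1 / (256 * J) * √(2 * H) := h3.trans h5
          gcongr
      _ = 2 * (1 / (256 * J)) * (√(2 * H) * √(2 * H)) := by ring
      _ = 2 * (1 / (256 * J)) * (2 * H) := by rw [Real.mul_self_sqrt (by positivity)]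
      _ = H / (64 * J) := by
          field_simp
          norm_num
  have s4 := theta_sub x h
  have s5 : ∑ p ∈ (Ioc x (x + h)).filter Nat.Prime, Real.log p ≤
      (((Ioc x (x + h)).filter Nat.Prime).card : ℝ) * Real.log (2 * H) := by
    rw [← nsmul_eq_mul]
    refine Finset.sum_le_card_nsmul _ _ _ fun p hp => ?_
    rw [Finset.mem_filter, Finset.mem_Ioc] at hp
    have h1 : (p : ℝ) ≤ x + h := by exact_mod_cast hp.1.2
    have h2 : (0 : ℝ) < p := by exact_mod_cast hp.2.pos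
    exact Real.log_le_log h2 (by linarith)
  have s6 : Real.log (2 * H) ≤ 3 / 2 * Real.log H := by
    rw [Real.log_mul (by norm_num) (by linarith)]
    have h1 : Real.log 4 ≤ Real.log H := Real.log_le_log (by norm_num) (by linarith)
    have h2 : Real.log 4 = 2 * Real.log 2 := by
      rw [show (4 : ℝ) = 2 ^ 2 by norm_num, Real.log_pow]
      norm_num
    linarith
  have hLH : 0 < Real.log H := Real.log_pos (by linarith)
  have s7 : 3 / 4 * (h : ℝ) ≤
      (((Ioc x (x + h)).filter Nat.Prime).card : ℝ) * Real.log (2 * H) := by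
    refine le_trans ?_ s5
    rw [← s4]
    have h1 : (H : ℝ) / (64 * J) = 1 / 8 * (H / (8 * J)) := by
      field_simp
      norm_num
    have h2 : ((x + h : ℕ) : ℝ) = x + h := by push_cast; ring
    rw [h2] at r2 s2 s3 q3 ⊢
    nlinarith [r1.1, r1.2, r2.1, r2.2, s2.1, s2.2]
  have s8 : 3 / 4 * (h : ℝ) ≤
      (((Ioc x (x + h)).filter Nat.Prime).card : ℝ) * (3 / 2 * Real.log H) :=
    s7.trans (mul_le_mul_of_nonneg_left s6 (by positivity))
  rw [mul_div_assoc', div_le_iff₀ hLH]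
  linarith

end Pool.LGC
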