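import Pool.Agent.Work.MP_b0c12c_chain.Interface

/-! # Block PR2: the mean of the singular series over pairs of primes (helper74) -/

set_option autoImplicit false

namespace Pool.LGC

open Finset Filter
open Pool.LGP

/-- Trivial count of a residue class. -/
theorem PR2_count (x h d v : ℕ) (hd : 0 < d) (hdh : d ≤ h) :
    (((Ioc x (x + h)).filter (fun q => q ≡ v [MOD d])).card : ℝ) ≤ 2 * ((h : ℝ) / d) := by
  have h0 : (((Ioc x (x + h)).filter (fun q => q ≡ v [MOD d])).card : ℤ) ≤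
      ⌊(h : ℚ) / d⌋ + 1 := by
    rw [Nat.Ioc_filter_modEq_card _ _ hd v]
    apply max_le
    · push_cast
      have e : ((x : ℚ) + h - v) / d = (x - v) / d + h / d := by ring
      rw [e]
      have h1 := Int.le_floor_add_floor ((x - v) / d : ℚ) (h / d : ℚ)
      linarith
    · have : 0 ≤ ⌊(h : ℚ) / d⌋ := Int.floor_nonneg.mpr (by positivity)
      linarith
  have h1 : ((((Ioc x (x + h)).filter (fun q => q ≡ v [MOD d])).card : ℤ) : ℚ) ≤
      (h : ℚ) / d + 1 := by
    have h2 : ((((Ioc x (x + h)).filter (fun q => q ≡ v [MOD d])).card : ℤ) : ℚ) ≤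
        ((⌊(h : ℚ) / d⌋ + 1 : ℤ) : ℚ) := by exact_mod_cast h0
    have h3 := Int.floor_le ((h : ℚ) / d)
    push_cast at h2 ⊢
    linarith
  have h4 : (((Ioc x (x + h)).filter (fun q => q ≡ v [MOD d])).card : ℝ) ≤ (h : ℝ) / d + 1 := by
    have h5 : ((((Ioc x (x + h)).filter (fun q => q ≡ v [MOD d])).card : ℚ) : ℝ) ≤
        (((h : ℚ) / d + 1 : ℚ) : ℝ) := by exact_mod_cast h1
    push_cast at h5
    exact h5
  have hd' : (0 : ℝ) < d := by exact_mod_cast hd
  have h6 : (1 : ℝ) ≤ (h : ℝ) / d := by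
    rw [le_div_iff₀ hd', one_mul]
    exact_mod_cast hdh
  linarith

/-- The product over `R` is bounded by a sum over squarefree moduli. -/
theorem PR2_prod (h1 : Stmt_NPH) (x h : ℕ) (R : Finset ℕ) (hR : ∀ p ∈ R, p.Prime) (q q' : ℕ)
    (hq : q ∈ Ioc x (x + h)) (hq' : q' ∈ Ioc x (x + h)) (hne : q' ≠ q) :
    ∏ p ∈ R, (if q ≡ q' [MOD p] then (1 - 1 / (p : ℝ))⁻¹ else 1) ≤
      2 * ∑ d ∈ (Ioc 0 h).filter Squarefree, (if q' ≡ q [MOD d] then 1 / (d : ℝ) else 0) := by
  have key : ∀ p : ℕ, (q ≡ q' [MOD p]) ↔ p ∣ Nat.dist q q' := by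
    intro p
    rcases le_total q q' with hle | hle
    · rw [Nat.modEq_iff_dvd' hle, Nat.dist_eq_sub_of_le hle]
    · rw [Nat.ModEq.comm, Nat.modEq_iff_dvd' hle, Nat.dist_eq_sub_of_le_right hle]
  have hpos : 0 < Nat.dist q q' := Nat.dist_pos_of_ne (Ne.symm hne)
  have hleh : Nat.dist q q' ≤ h := by
    rw [mem_Ioc] at hq hq'
    rcases le_total q q' with hle | hle
    · rw [Nat.dist_eq_sub_of_le hle]; omega
    · rw [Nat.dist_eq_sub_of_le_right hle]; omega
  have hn := h1 R hR (Nat.dist q q') hpos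
  have e1 : ∏ p ∈ R, (if q ≡ q' [MOD p] then (1 - 1 / (p : ℝ))⁻¹ else 1) =
      ∏ p ∈ R, (if p ∣ Nat.dist q q' then (1 - 1 / (p : ℝ))⁻¹ else 1) := by
    refine Finset.prod_congr rfl (fun p _ => ?_)
    simp only [key]
  rw [e1]
  refine hn.trans ?_
  refine mul_le_mul_of_nonneg_left ?_ (by norm_num)
  rw [← Finset.sum_filter]
  refine Finset.sum_le_sum_of_subset_of_nonneg ?_ (fun d _ _ => by positivity)
  intro d hd
  rw [mem_filter, Nat.mem_divisors] at hd
  rw [mem_filter, mem_filter, mem_Ioc]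
  refine ⟨⟨⟨Nat.pos_of_dvd_of_pos hd.1.1 hpos, (Nat.le_of_dvd hpos hd.1.1).trans hleh⟩, hd.2⟩, ?_⟩
  exact ((key d).mpr hd.1.1).symm

theorem p_PR2 (h1 : Stmt_NPH) (h2 : Stmt_SQS) (h3 : Stmt_BTQ) : Stmt_PR2 := by
  obtain ⟨C, hC, hB⟩ := h3
  refine ⟨6 * C + 16, by positivity, ?_⟩
  intro x h R hh hR
  have hh' : (2 : ℝ) ≤ h := by exact_mod_cast hh
  have hlog : 0 < Real.log h := Real.log_pos (by linarith)
  set A := (Ioc x (x + h)).filter Nat.Prime with hA
  set D := Nat.sqrt h with hD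
  set b : ℕ → ℝ := fun d => C * (h / Real.log h) * (1 / ((d : ℝ) * d.totient)) +
    (if d ∈ Ioo D (h + 1) then 2 * (h : ℝ) * ((d : ℝ) ^ 2)⁻¹ else 0) with hb
  -- the count for each modulus
  have hcount : ∀ q, ∀ d ∈ (Ioc 0 h).filter Squarefree,
      (1 / (d : ℝ)) * (((A.erase q).filter (fun q' => q' ≡ q [MOD d])).card : ℝ) ≤ b d := by
    intro q d hd
    rw [mem_filter, mem_Ioc] at hd
    have hd0 : (0 : ℝ) < d := by exact_mod_cast hd.1.1
    have hφ : 0 < d.totient := Nat.totient_pos.mpr hd.1.1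
    have hφ' : (0 : ℝ) < d.totient := by exact_mod_cast hφ
    by_cases hdd : d ^ 2 ≤ h
    · have hc : (((A.erase q).filter (fun q' => q' ≡ q [MOD d])).card : ℝ) ≤
          C * (h / (d.totient * Real.log h)) := by
        refine le_trans ?_ (hB d x h q hd.1.1 hdd hh)
        have : ((A.erase q).filter (fun q' => q' ≡ q [MOD d])) ⊆
            (Ioc x (x + h)).filter (fun q' => q'.Prime ∧ q' ≡ q [MOD d]) := by
          intro y hy
          rw [mem_filter, mem_erase, hA, mem_filter] at hy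
          rw [mem_filter]
          exact ⟨hy.1.2.1, hy.1.2.2, hy.2⟩
        exact_mod_cast Finset.card_le_card this
      have h5 : (1 / (d : ℝ)) * (((A.erase q).filter (fun q' => q' ≡ q [MOD d])).card : ℝ) ≤
          (1 / (d : ℝ)) * (C * (h / (d.totient * Real.log h))) :=
        mul_le_mul_of_nonneg_left hc (by positivity)
      have h6 : (1 / (d : ℝ)) * (C * (h / (d.totient * Real.log h))) =
          C * (h / Real.log h) * (1 / ((d : ℝ) * d.totient)) := by
        field_simp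
      have h7 : (0 : ℝ) ≤ (if d ∈ Ioo D (h + 1) then 2 * (h : ℝ) * ((d : ℝ) ^ 2)⁻¹ else 0) := by
        split_ifs <;> positivity
      rw [hb]
      simp only
      linarith
    · have hmem : d ∈ Ioo D (h + 1) := by
        rw [mem_Ioo]
        refine ⟨?_, by omega⟩
        rw [hD, Nat.sqrt_lt']
        omega
      have hc : (((A.erase q).filter (fun q' => q' ≡ q [MOD d])).card : ℝ) ≤
          2 * ((h : ℝ) / d) := by
        refine le_trans ?_ (PR2_count x h d q hd.1.1 hd.1.2)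
        have : ((A.erase q).filter (fun q' => q' ≡ q [MOD d])) ⊆
            (Ioc x (x + h)).filter (fun q' => q' ≡ q [MOD d]) := by
          intro y hy
          rw [mem_filter, mem_erase, hA, mem_filter] at hy
          rw [mem_filter]
          exact ⟨hy.1.2.1, hy.2⟩
        exact_mod_cast Finset.card_le_card this
      have h5 : (1 / (d : ℝ)) * (((A.erase q).filter (fun q' => q' ≡ q [MOD d])).card : ℝ) ≤
          (1 / (d : ℝ)) * (2 * ((h : ℝ) / d)) :=
        mul_le_mul_of_nonneg_left hc (by positivity)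
      have h6 : (1 / (d : ℝ)) * (2 * ((h : ℝ) / d)) = 2 * (h : ℝ) * ((d : ℝ) ^ 2)⁻¹ := by
        field_simp
      have h7 : 0 ≤ C * (h / Real.log h) * (1 / ((d : ℝ) * d.totient)) := by positivity
      rw [hb]
      simp only [hmem, if_true]
      linarith
  -- the sum of the bounds
  have hbsum : ∑ d ∈ (Ioc 0 h).filter Squarefree, b d ≤ (3 * C + 8) * (h / Real.log h) := by
    have e1 : ∑ d ∈ (Ioc 0 h).filter Squarefree, b d =
        C * (h / Real.log h) * (∑ d ∈ (Ioc 0 h).filter Squarefree,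
          1 / ((d : ℝ) * d.totient)) +
        ∑ d ∈ (Ioc 0 h).filter Squarefree,
          (if d ∈ Ioo D (h + 1) then 2 * (h : ℝ) * ((d : ℝ) ^ 2)⁻¹ else 0) := by
      rw [hb, Finset.sum_add_distrib, ← Finset.mul_sum]
    have e2 : ∑ d ∈ (Ioc 0 h).filter Squarefree,
        (if d ∈ Ioo D (h + 1) then 2 * (h : ℝ) * ((d : ℝ) ^ 2)⁻¹ else 0) ≤
        ∑ d ∈ Ioo D (h + 1), 2 * (h : ℝ) * ((d : ℝ) ^ 2)⁻¹ := by
      rw [← Finset.sum_filter]
      refine Finset.sum_le_sum_of_subset_of_nonneg ?_ (fun d _ _ => by positivity)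
      intro d hd
      exact (mem_filter.mp hd).2
    have e3 : ∑ d ∈ Ioo D (h + 1), 2 * (h : ℝ) * ((d : ℝ) ^ 2)⁻¹ ≤
        2 * (h : ℝ) * (2 / ((D : ℝ) + 1)) := by
      rw [← Finset.mul_sum]
      exact mul_le_mul_of_nonneg_left (sum_Ioo_inv_sq_le D (h + 1)) (by positivity)
    have e4 : √(h : ℝ) ≤ (D : ℝ) + 1 := by
      have h9 := Nat.lt_succ_sqrt' h
      rw [← hD] at h9
      rw [Real.sqrt_le_left (by positivity)]
      have : (h : ℝ) ≤ ((D.succ ^ 2 : ℕ) : ℝ) := by exact_mod_cast h9.le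
      push_cast at this
      exact this
    have hsq : 0 < √(h : ℝ) := Real.sqrt_pos.mpr (by linarith)
    have hsqsq : √(h : ℝ) * √(h : ℝ) = h := Real.mul_self_sqrt (by linarith)
    have e5 : (h : ℝ) * (2 / ((D : ℝ) + 1)) ≤ 2 * √(h : ℝ) := by
      rw [mul_div_assoc', div_le_iff₀ (by positivity)]
      nlinarith
    have e6 : √(h : ℝ) ≤ 2 * (h / Real.log h) := by
      have h10 : Real.log h ≤ 2 * √(h : ℝ) := by
        have := Real.log_le_sub_one_of_pos hsq
        have h11 : Real.log (√(h : ℝ)) = Real.log h / 2 := Real.log_sqrt (by linarith)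
        rw [h11] at this
        linarith
      rw [mul_div_assoc', le_div_iff₀ hlog]
      nlinarith
    have e7 : C * (h / Real.log h) * (∑ d ∈ (Ioc 0 h).filter Squarefree,
        1 / ((d : ℝ) * d.totient)) ≤ C * (h / Real.log h) * 3 :=
      mul_le_mul_of_nonneg_left (h2 h) (by positivity)
    rw [e1]
    nlinarith
  -- the inner sum
  have hinner : ∀ q ∈ A, ∑ q' ∈ A.erase q,
      ∏ p ∈ R, (if q ≡ q' [MOD p] then (1 - 1 / (p : ℝ))⁻¹ else 1) ≤
      (6 * C + 16) * (h / Real.log h) := by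
    intro q hq
    calc ∑ q' ∈ A.erase q, ∏ p ∈ R, (if q ≡ q' [MOD p] then (1 - 1 / (p : ℝ))⁻¹ else 1)
        ≤ ∑ q' ∈ A.erase q, 2 * ∑ d ∈ (Ioc 0 h).filter Squarefree,
          (if q' ≡ q [MOD d] then 1 / (d : ℝ) else 0) := by
          refine Finset.sum_le_sum (fun q' hq' => ?_)
          rw [mem_erase] at hq'
          exact PR2_prod h1 x h R hR q q' (mem_filter.mp hq).1 (mem_filter.mp hq'.2).1 hq'.1
      _ = 2 * ∑ d ∈ (Ioc 0 h).filter Squarefree, (1 / (d : ℝ)) *
          (((A.erase q).filter (fun q' => q' ≡ q [MOD d])).card : ℝ) := by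
          rw [← Finset.mul_sum, Finset.sum_comm]
          congr 1
          refine Finset.sum_congr rfl (fun d _ => ?_)
          rw [← Finset.sum_filter, Finset.sum_const, nsmul_eq_mul, mul_comm]
      _ ≤ 2 * ∑ d ∈ (Ioc 0 h).filter Squarefree, b d :=
          mul_le_mul_of_nonneg_left (Finset.sum_le_sum (hcount q)) (by norm_num)
      _ ≤ (6 * C + 16) * (h / Real.log h) := by linarith
  calc ∑ q ∈ A, ∑ q' ∈ A.erase q,
        ∏ p ∈ R, (if q ≡ q' [MOD p] then (1 - 1 / (p : ℝ))⁻¹ else 1)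
      ≤ ∑ q ∈ A, (6 * C + 16) * (h / Real.log h) := Finset.sum_le_sum hinner
    _ = (6 * C + 16) * (A.card * (h / Real.log h)) := by
        rw [Finset.sum_const, nsmul_eq_mul]
        ring

end Pool.LGC
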