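import Pool.Agent.Work.MP_b0c12c_chain.Interface

/-! # Block PRB: products of the local row bounds (helper68) -/

set_option autoImplicit false

namespace Pool.LGC

open Finset Filter
open Pool.LGP

theorem p_PRB : Stmt_PRB := by
  intro π ι _ S k z ρ hz hpr hact hprod R hR0 hRn hRs
  have hz0 : 0 < z := by linarith
  have hk0 : (0 : ℝ) ≤ k := Nat.cast_nonneg k
  obtain ⟨t, ht⟩ : ∃ t : ℝ, t = 6 * ((k : ℝ) + 1) / z := ⟨_, rfl⟩
  have ht0 : 0 ≤ t := by rw [ht]; positivity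
  have hf1 : ∀ x, 1 ≤ 1 + (k : ℝ) / (((S.pr x : ℝ) - 1) * √(S.pr x)) := by
    intro x
    have h1 : (0 : ℝ) ≤ (S.pr x : ℝ) - 1 := by linarith [hpr x]
    have h2 : 0 ≤ (k : ℝ) / (((S.pr x : ℝ) - 1) * √(S.pr x)) := by positivity
    linarith
  have hkey : ∀ x, R x (ρ x) ≤ (1 + (k : ℝ) / (((S.pr x : ℝ) - 1) * √(S.pr x))) *
      ((1 + t) ^ (al (ρ x)) * (S.zl x (ρ x) : ℝ)) := by
    intro x
    cases h : ρ x with
    | none =>
      simpa [al, Sys.zl] using hRn x
    | some j =>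
      have hp : (0 : ℝ) < S.pr x := by linarith [hpr x]
      have h3 : (S.pr x : ℝ) + 6 * ((k : ℝ) + 1) ≤ (1 + t) * S.pr x := by
        have h4 : 6 * ((k : ℝ) + 1) ≤ t * S.pr x := by
          rw [ht, div_mul_eq_mul_div, le_div_iff₀ hz0]
          have := hpr x
          have h5 : (0 : ℝ) ≤ 6 * ((k : ℝ) + 1) := by positivity
          exact mul_le_mul_of_nonneg_left this h5
        linarith
      have h6 : (0 : ℝ) ≤ (1 + t) * S.pr x := by positivity
      calc R x (some j) ≤ (S.pr x : ℝ) + 6 * ((k : ℝ) + 1) := hRs x j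
        _ ≤ (1 + t) * S.pr x := h3
        _ = 1 * ((1 + t) * S.pr x) := by ring
        _ ≤ (1 + (k : ℝ) / (((S.pr x : ℝ) - 1) * √(S.pr x))) * ((1 + t) * S.pr x) :=
            mul_le_mul_of_nonneg_right (hf1 x) h6
        _ = _ := by simp [al, Sys.zl]
  have hpow : (1 + t) ^ (act ρ) ≤ 10 / 9 := by
    have h1 : (act ρ : ℝ) * t ≤ 6 / 64 := by
      rw [ht, mul_div_assoc', div_le_iff₀ hz0]
      nlinarith [hact]
    calc (1 + t) ^ (act ρ) ≤ (Real.exp t) ^ (act ρ) := by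
          apply pow_le_pow_left₀ (by linarith)
          linarith [Real.add_one_le_exp t]
      _ = Real.exp ((act ρ : ℝ) * t) := by rw [← Real.exp_nat_mul]
      _ ≤ Real.exp (6 / 64) := Real.exp_le_exp.mpr h1
      _ ≤ 10 / 9 := by
          have h2 : (1 : ℝ) - 6 / 64 ≤ Real.exp (-(6 / 64)) := by
            have := Real.add_one_le_exp (-(6 / 64 : ℝ))
            linarith
          have h3 : Real.exp (6 / 64) * Real.exp (-(6 / 64)) = 1 := by
            rw [← Real.exp_add]; simp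
          have h4 : 0 < Real.exp (6 / 64 : ℝ) := Real.exp_pos _
          nlinarith
  have hs0 : (0 : ℝ) ≤ (S.szn ρ : ℝ) := Nat.cast_nonneg _
  have hp0 : 0 ≤ ∏ x, (1 + (k : ℝ) / (((S.pr x : ℝ) - 1) * √(S.pr x))) :=
    Finset.prod_nonneg fun x _ => by linarith [hf1 x]
  calc ∏ x, R x (ρ x) ≤ ∏ x, ((1 + (k : ℝ) / (((S.pr x : ℝ) - 1) * √(S.pr x))) *
        ((1 + t) ^ (al (ρ x)) * (S.zl x (ρ x) : ℝ))) :=
        Finset.prod_le_prod (fun x _ => hR0 _ _) (fun x _ => hkey x)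
    _ = (∏ x, (1 + (k : ℝ) / (((S.pr x : ℝ) - 1) * √(S.pr x)))) *
        ((1 + t) ^ (act ρ) * (S.szn ρ : ℝ)) := by
        rw [Finset.prod_mul_distrib, Finset.prod_mul_distrib, Finset.prod_pow_eq_pow_sum]
        simp [act, Sys.szn]
    _ ≤ 9 / 8 * (10 / 9 * (S.szn ρ : ℝ)) := by
        apply mul_le_mul hprod _ _ (by norm_num)
        · exact mul_le_mul_of_nonneg_right hpow hs0
        · positivity
    _ = 5 / 4 * S.szn ρ := by ring

end Pool.LGC
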