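import Pool.Agent.Work.MP_b0c12c_chain.Interface

/-! # Block PZL: Paley-Zygmund with the second factorial moment (helper7) -/

set_option autoImplicit false

namespace Pool.LGC

open Finset Filter
open Pool.LGP

theorem p_PZL : Stmt_PZL := by
  intro A f N k μ T P hf hk hP hμ hT h1 h2 h3
  have hg0 : ∀ y, 0 ≤ (if k + 1 ≤ N y then f y else 0) := by
    intro y
    split_ifs
    · exact hf y
    · exact le_refl _
  have hU : μ / 2 ≤ ∑ y ∈ A, (if k + 1 ≤ N y then f y else 0) * (N y : ℝ) := by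
    have h4 : ∑ y ∈ A, f y * N y ≤
        ∑ y ∈ A, (k * f y + (if k + 1 ≤ N y then f y else 0) * (N y : ℝ)) := by
      apply Finset.sum_le_sum
      intro y _
      split_ifs with h
      · have := mul_nonneg (Nat.cast_nonneg (α := ℝ) k) (hf y)
        linarith
      · have h5 : (N y : ℝ) ≤ k := by
          exact_mod_cast (by omega : N y ≤ k)
        have := mul_le_mul_of_nonneg_left h5 (hf y)
        nlinarith
    rw [Finset.sum_add_distrib, ← Finset.mul_sum] at h4
    have h6 : (k : ℝ) * ∑ y ∈ A, f y ≤ k * T :=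
      mul_le_mul_of_nonneg_left hT (Nat.cast_nonneg k)
    linarith
  have hCS : (∑ y ∈ A, (if k + 1 ≤ N y then f y else 0) * (N y : ℝ)) ^ 2 ≤
      (∑ y ∈ A, if k + 1 ≤ N y then f y else 0) *
        ∑ y ∈ A, (if k + 1 ≤ N y then f y else 0) * (N y : ℝ) ^ 2 := by
    apply Finset.sum_sq_le_sum_mul_sum_of_sq_le_mul A (fun y _ => hg0 y)
      (fun y _ => mul_nonneg (hg0 y) (sq_nonneg _))
    intro y _
    exact le_of_eq (by ring)
  have hP2 : ∑ y ∈ A, (if k + 1 ≤ N y then f y else 0) * (N y : ℝ) ^ 2 ≤ 2 * P := by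
    have h7 : ∑ y ∈ A, (if k + 1 ≤ N y then f y else 0) * (N y : ℝ) ^ 2 ≤
        ∑ y ∈ A, 2 * (f y * ((N y : ℝ) * ((N y : ℝ) - 1))) := by
      apply Finset.sum_le_sum
      intro y _
      split_ifs with h
      · have h8 : (2 : ℝ) ≤ N y := by exact_mod_cast (by omega : 2 ≤ N y)
        have h9 : (N y : ℝ) ^ 2 ≤ 2 * ((N y : ℝ) * ((N y : ℝ) - 1)) := by nlinarith
        have := mul_le_mul_of_nonneg_left h9 (hf y)
        linarith
      · have h10 : 0 ≤ (N y : ℝ) * ((N y : ℝ) - 1) := by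
          rcases Nat.eq_zero_or_pos (N y) with h0 | h0
          · rw [h0]; simp
          · have : (1 : ℝ) ≤ N y := by exact_mod_cast h0
            nlinarith
        have := mul_nonneg (hf y) h10
        linarith
    rw [← Finset.mul_sum] at h7
    linarith
  set V := ∑ y ∈ A, (if k + 1 ≤ N y then f y else 0) with hV
  have hV0 : 0 ≤ V := Finset.sum_nonneg (fun y _ => hg0 y)
  have h11 : (μ / 2) ^ 2 ≤ V * (2 * P) := by
    calc (μ / 2) ^ 2 ≤ (∑ y ∈ A, (if k + 1 ≤ N y then f y else 0) * (N y : ℝ)) ^ 2 :=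
          pow_le_pow_left₀ (by linarith) hU 2
      _ ≤ _ := hCS
      _ ≤ V * (2 * P) := mul_le_mul_of_nonneg_left hP2 hV0
  rw [div_le_iff₀ (by linarith)]
  nlinarith

end Pool.LGC
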