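import Pool.Agent.Work.MP_b0c12c_chain.Interface

/-! # Block PZX: many residues have many surviving primes (helper41) -/

set_option autoImplicit false

namespace Pool.LGC

open Finset Filter
open Pool.LGP

theorem p_PZX (h1 : Stmt_FM1) (h2 : Stmt_SM2) : Stmt_PZX := by
  intro c₀ hc₀
  obtain ⟨C, hC, hS⟩ := h2
  refine ⟨1 / (4 * (1 + C / c₀)), by positivity, ?_⟩
  intro x h R hh hR hA hm
  set A : Finset ℕ := (Ioc x (x + h)).filter Nat.Prime with hAdef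
  set N : ℕ := ∏ p ∈ R, p with hNdef
  have hNpos : 0 < N := Finset.prod_pos fun p hp => (hR p hp).pos
  have hNR : (0 : ℝ) < (N : ℝ) := by exact_mod_cast hNpos
  set m : ℝ := Pi' R * (A.card : ℝ) with hmdef
  have hfm : ∑ v ∈ range N, (Xv R A v : ℝ) = (N : ℝ) * m := h1 R A hR
  have hsm := hS x h R hh hR
  rw [← hAdef, ← hNdef] at hsm
  have hlog : 0 < Real.log (h : ℝ) := Real.log_pos (by exact_mod_cast (show 1 < h by omega))
  have hAc : (h : ℝ) / Real.log h ≤ (A.card : ℝ) / c₀ := by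
    rw [le_div_iff₀ hc₀]; linarith [mul_comm c₀ ((h : ℝ) / Real.log h)]
  have hm0 : 0 < m := by linarith
  have hbd : Pi' R * (A.card : ℝ) + C * (Pi' R ^ 2 * ((A.card : ℝ) * (h / Real.log h))) ≤
      m ^ 2 * (1 + C / c₀) := by
    have e1 : Pi' R ^ 2 * ((A.card : ℝ) * (h / Real.log h)) ≤ m ^ 2 / c₀ := by
      have : Pi' R ^ 2 * ((A.card : ℝ) * (h / Real.log h)) ≤
          Pi' R ^ 2 * ((A.card : ℝ) * ((A.card : ℝ) / c₀)) := by
        gcongr
      refine this.trans (le_of_eq ?_)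
      rw [hmdef]; ring
    have e2 : m ≤ m ^ 2 := by nlinarith
    have e3 : C * (Pi' R ^ 2 * ((A.card : ℝ) * (h / Real.log h))) ≤ C * (m ^ 2 / c₀) :=
      mul_le_mul_of_nonneg_left e1 hC.le
    calc Pi' R * (A.card : ℝ) + C * (Pi' R ^ 2 * ((A.card : ℝ) * (h / Real.log h)))
        ≤ m ^ 2 + C * (m ^ 2 / c₀) := by rw [← hmdef]; linarith
      _ = m ^ 2 * (1 + C / c₀) := by ring
  have hsm' : ∑ v ∈ range N, (Xv R A v : ℝ) ^ 2 ≤ (N : ℝ) * (m ^ 2 * (1 + C / c₀)) :=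
    hsm.trans (mul_le_mul_of_nonneg_left hbd hNR.le)
  set G : Finset ℕ := (range N).filter (fun v => m / 2 ≤ (Xv R A v : ℝ)) with hG
  have hsplit : ∑ v ∈ range N, (Xv R A v : ℝ) ≤ ∑ v ∈ G, (Xv R A v : ℝ) + (N : ℝ) * (m / 2) := by
    rw [← Finset.sum_filter_add_sum_filter_not (range N) (fun v => m / 2 ≤ (Xv R A v : ℝ))]
    refine add_le_add le_rfl ?_
    calc ∑ v ∈ (range N).filter (fun v => ¬ m / 2 ≤ (Xv R A v : ℝ)), (Xv R A v : ℝ)
        ≤ ∑ v ∈ (range N).filter (fun v => ¬ m / 2 ≤ (Xv R A v : ℝ)), m / 2 := by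
          refine Finset.sum_le_sum fun v hv => ?_
          have := (Finset.mem_filter.mp hv).2
          exact (not_le.mp this).le
      _ = (((range N).filter (fun v => ¬ m / 2 ≤ (Xv R A v : ℝ))).card : ℝ) * (m / 2) := by
          rw [Finset.sum_const, nsmul_eq_mul]
      _ ≤ (N : ℝ) * (m / 2) := by
          refine mul_le_mul_of_nonneg_right ?_ (by positivity)
          have := Finset.card_filter_le (range N) (fun v => ¬ m / 2 ≤ (Xv R A v : ℝ))
          rw [Finset.card_range] at this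
          exact_mod_cast this
  have hlow : (N : ℝ) * m / 2 ≤ ∑ v ∈ G, (Xv R A v : ℝ) := by
    rw [hfm] at hsplit; linarith
  have hcs : (∑ v ∈ G, (Xv R A v : ℝ)) ^ 2 ≤ (G.card : ℝ) * ∑ v ∈ G, (Xv R A v : ℝ) ^ 2 :=
    sq_sum_le_card_mul_sum_sq
  have hsub : ∑ v ∈ G, (Xv R A v : ℝ) ^ 2 ≤ ∑ v ∈ range N, (Xv R A v : ℝ) ^ 2 :=
    Finset.sum_le_sum_of_subset_of_nonneg (Finset.filter_subset _ _) fun v _ _ => by positivity
  have hfin : ((N : ℝ) * m / 2) ^ 2 ≤ (G.card : ℝ) * ((N : ℝ) * (m ^ 2 * (1 + C / c₀))) := by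
    calc ((N : ℝ) * m / 2) ^ 2 ≤ (∑ v ∈ G, (Xv R A v : ℝ)) ^ 2 := by
          gcongr
      _ ≤ (G.card : ℝ) * ∑ v ∈ G, (Xv R A v : ℝ) ^ 2 := hcs
      _ ≤ (G.card : ℝ) * ((N : ℝ) * (m ^ 2 * (1 + C / c₀))) :=
          mul_le_mul_of_nonneg_left (hsub.trans hsm') (by positivity)
  have hK : (0 : ℝ) < 1 + C / c₀ := by positivity
  have hfin2 : (N : ℝ) ≤ 4 * (1 + C / c₀) * (G.card : ℝ) := by
    have hNm : 0 < (N : ℝ) * m ^ 2 := by positivity
    have : (N : ℝ) * m ^ 2 * (N : ℝ) ≤ (N : ℝ) * m ^ 2 * (4 * (1 + C / c₀) * (G.card : ℝ)) := by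
      nlinarith [hfin]
    exact le_of_mul_le_mul_left this hNm
  rw [one_div, inv_mul_le_iff₀ (by positivity)]
  exact hfin2

end Pool.LGC
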