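import Pool.Agent.Work.MP_b0c12c_chain.Interface

/-! # Block RES: the residue and the clusters (helper96) -/

set_option autoImplicit false

namespace Pool.LGC

open Finset Filter Topology
open Pool.LGP

private lemma alg1 {cM H L1 L2 L3 J : ℝ} (h1 : L1 ≠ 0) (h3 : L3 ≠ 0) (hJ : J ≠ 0) :
    cM / 4 * (H * L2 / (J * (L1 ^ 2 * L3))) =
      8 * cM * (L2 / (L1 * L3)) * (1 / 32 * (H / (J * L1))) := by
  field_simp
  ring

private lemma alg2 {H L1 J : ℝ} (h1 : L1 ≠ 0) (hJ : J ≠ 0) :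
    1 / 32 * (H / (J * L1)) = 1 / 2 * (H / (8 * J) / (2 * L1)) := by
  field_simp
  ring

private lemma alg3 {cM H L1 L2 L3 J B : ℝ} (h1 : L1 ≠ 0) (h3 : L3 ≠ 0) (hJ : J ≠ 0)
    (hB : B ≠ 0) : cM / (8 * B) / J * (H * L2 / (L1 ^ 2 * L3)) =
        cM / 8 * (H * L2 / (L1 ^ 2 * L3)) / (B * J) := by
  field_simp

private lemma alg4 {cM H L1 L2 L3 J : ℝ} (h1 : L1 ≠ 0) (h3 : L3 ≠ 0) (hJ : J ≠ 0) :
    cM / 4 * (H * L2 / (J * (L1 ^ 2 * L3))) / 2 =
        cM / 8 * (H * L2 / (L1 ^ 2 * L3)) / J := by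
  field_simp
  ring

private lemma alg5 {c₁ CM CS H L1 L2 L3 : ℝ} (h1 : L1 ≠ 0) (h3 : L3 ≠ 0) (hc : c₁ ≠ 0) :
    2 / c₁ * (8 * CM * (L2 / (L1 * L3)) * (CS * (H * L2 / L1))) =
      2 / c₁ * (8 * CM * CS) * (H * L2 ^ 2 / (L1 ^ 2 * L3)) := by
  field_simp

theorem p_RES (h1 : Stmt_FM1) (h2 : Stmt_PZX) (h3 : Stmt_PIN) (h4 : Stmt_MEL)
    (h5 : Pool.LGP.Stmt_SRV) (h6 : Stmt_ASL) (h7 : Stmt_CRV) : Stmt_RES := by
  classical
  obtain ⟨c₁, hc₁, hPZ⟩ := h2 (1 / 4) (by norm_num)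
  obtain ⟨cM, CM, hcM, hCM, hM⟩ := h4
  obtain ⟨CS, hCS, hS⟩ := h5
  have hB0 : (0 : ℝ) < 2 / c₁ := by positivity
  obtain ⟨B, hB⟩ : ∃ B : ℝ, B = 2 / c₁ + 1 := ⟨_, rfl⟩
  have hB1 : 1 ≤ B := by rw [hB]; linarith
  have hBp : 0 < B := by linarith
  have hm0 : 0 < min 1 cM := lt_min one_pos hcM
  refine ⟨2 / c₁ * (8 * CM * CS), min 1 cM / (8 * B), by positivity, by positivity, ?_⟩
  intro J hJ
  have hJr : (1 : ℝ) ≤ J := by exact_mod_cast hJ
  obtain ⟨J', hJ'⟩ : ∃ J' : ℕ, J' = ⌈2 * (J : ℝ) / c₁⌉₊ := ⟨_, rfl⟩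
  have hJ'1 : 2 * (J : ℝ) / c₁ ≤ J' := by rw [hJ']; exact Nat.le_ceil _
  have hJ'2 : (J' : ℝ) ≤ B * J := by
    have h8 : (J' : ℝ) < 2 * (J : ℝ) / c₁ + 1 := by
      rw [hJ']; exact Nat.ceil_lt_add_one (by positivity)
    have h9 : 2 * (J : ℝ) / c₁ = 2 / c₁ * J := by ring
    rw [h9] at h8
    rw [hB]
    nlinarith
  have hJ'0 : 0 < J' := by
    have h8 : (0 : ℝ) < J' := lt_of_lt_of_le (by positivity) hJ'1
    exact_mod_cast h8
  have hJ'r : (1 : ℝ) ≤ J' := by exact_mod_cast hJ'0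
  obtain ⟨H₀, hP⟩ := h3 J' hJ'0
  have t1 : Tendsto (fun w : ℕ => Real.log w) atTop atTop :=
    Real.tendsto_log_atTop.comp tendsto_natCast_atTop_atTop
  have t2 : Tendsto (fun w : ℕ => Real.log (Real.log w)) atTop atTop :=
    Real.tendsto_log_atTop.comp t1
  have t3 : Tendsto (fun w : ℕ => Real.log (Real.log (Real.log w))) atTop atTop :=
    Real.tendsto_log_atTop.comp t2
  have t4 : ∀ᶠ w : ℕ in atTop, (J' : ℝ) * Real.log w ^ 2 ≤ cM * w := by
    have h8 : (fun x : ℝ => Real.log x ^ 2) =o[atTop] (id : ℝ → ℝ) :=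
      Real.isLittleO_pow_log_id_atTop
    have h9 := (h8.bound (show 0 < cM / J' by positivity))
    have h10 := (tendsto_natCast_atTop_atTop (R := ℝ)).eventually h9
    filter_upwards [h10] with w hw
    simp only [id, Real.norm_eq_abs, abs_pow, sq_abs, Nat.abs_cast] at hw
    have h11 : cM / J' * (w : ℝ) * J' = cM * w := by field_simp
    nlinarith
  have t5 : ∀ᶠ w : ℕ in atTop, 8 * Real.log (Real.log w) ≤ Real.log w := by
    have h8 : (fun x : ℝ => Real.log x) =o[atTop] (id : ℝ → ℝ) := Real.isLittleO_log_id_atTop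
    have h9 := (h8.bound (show (0 : ℝ) < 1 / 8 by norm_num))
    have h10 := t1.eventually h9
    filter_upwards [h10, t1.eventually_ge_atTop 1] with w hw hw1
    simp only [id, Real.norm_eq_abs] at hw
    have h11 := le_abs_self (Real.log (Real.log w))
    rw [abs_of_nonneg (by linarith : (0 : ℝ) ≤ Real.log w)] at hw
    linarith
  filter_upwards [hS, t1.eventually_ge_atTop 1, t2.eventually_ge_atTop 1,
    t3.eventually_ge_atTop 1, t4, t5, eventually_ge_atTop (H₀ + 64 * J' ^ 2 + 2)]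
    with w hSw hL1 hL2 hL3 hJw h8L hwl H hwH hHw
  set L1 := Real.log w with hL1d
  set L2 := Real.log L1 with hL2d
  set L3 := Real.log L2 with hL3d
  have hL10 : 0 < L1 := by linarith
  have hL20 : 0 < L2 := by linarith
  have hL30 : 0 < L3 := by linarith
  have hL32 : L3 ≤ L2 := by
    have := Real.log_le_sub_one_of_pos hL20
    linarith
  have hw0 : (0 : ℝ) < w := by
    have : 0 < w := by omega
    exact_mod_cast this
  -- sizes
  obtain ⟨h, hh⟩ : ∃ h : ℕ, h = H / (4 * J') := ⟨_, rfl⟩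
  have hHJ : 64 * J' ^ 2 ≤ H := by omega
  have hJJ : J' ≤ J' ^ 2 := by nlinarith
  have h4J : 8 * J' ≤ H := by omega
  have hh2 : 2 ≤ h := by
    rw [hh, Nat.le_div_iff_mul_le (by omega)]
    omega
  have hup : 4 * J' * h ≤ H := by rw [hh]; exact Nat.mul_div_le H (4 * J')
  have hlow : H ≤ 8 * J' * h := by
    have h8 := Nat.div_add_mod H (4 * J')
    have h9 := Nat.mod_lt H (show 4 * J' > 0 by omega)
    rw [← hh] at h8
    nlinarith
  have hHh : H ≤ h ^ 2 := by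
    by_contra hcon
    push Not at hcon
    have h8 : 64 * J' ^ 2 * h ^ 2 < H * H := by
      have h9 : 0 < h ^ 2 := by positivity
      calc 64 * J' ^ 2 * h ^ 2 ≤ H * h ^ 2 := Nat.mul_le_mul_right _ hHJ
        _ < H * H := (Nat.mul_lt_mul_left (by omega)).2 hcon
    have h9 : H * H ≤ (8 * J' * h) * (8 * J' * h) := Nat.mul_le_mul hlow hlow
    nlinarith
  have hHr : (0 : ℝ) < H := by
    have : 0 < H := by omega
    exact_mod_cast this
  have hhr : (0 : ℝ) < h := by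
    have : 0 < h := by omega
    exact_mod_cast this
  have hHr2 : (2 : ℝ) ≤ H := by
    have : 2 ≤ H := by omega
    exact_mod_cast this
  have hlH : 0 < Real.log H := Real.log_pos (by linarith)
  have hlh : Real.log H ≤ 2 * Real.log h := by
    have h8 : (H : ℝ) ≤ (h : ℝ) ^ 2 := by exact_mod_cast hHh
    have h9 := Real.log_le_log hHr h8
    rw [Real.log_pow] at h9
    push_cast at h9
    exact h9
  have hlH2 : Real.log H ≤ 2 * L1 := by
    have h8 := Real.log_le_log hHr hHw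
    rw [Real.log_mul hw0.ne' (by positivity), Real.log_pow] at h8
    push_cast at h8
    linarith
  have hlowr : (H : ℝ) ≤ 8 * J' * h := by exact_mod_cast hlow
  -- the sieving primes
  set R := (Icc 1 ⌊yy w⌋₊).filter Nat.Prime with hR
  have hRp : ∀ p ∈ R, p.Prime := fun p hp => (mem_filter.1 hp).2
  have hyy : 1 ≤ L1 * L3 / (8 * L2) := by
    rw [le_div_iff₀ (by positivity)]
    nlinarith
  have hyy0 : 0 ≤ yy w := (Real.exp_pos _).le
  have hyyd : yy w = Real.exp (L1 * L3 / (8 * L2)) := rfl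
  have hyy2 : 2 ≤ yy w := by
    rw [hyyd]
    have h8 := Real.add_one_le_exp (L1 * L3 / (8 * L2))
    linarith
  have hyyl : Real.log (yy w) = L1 * L3 / (8 * L2) := by rw [hyyd, Real.log_exp]
  have hyyw : yy w ≤ w := by
    rw [hyyd, ← Real.exp_log hw0]
    apply Real.exp_le_exp.2
    rw [div_le_iff₀ (by positivity)]
    have h8 : L1 * L3 ≤ L1 * L2 := mul_le_mul_of_nonneg_left hL32 hL10.le
    nlinarith
  obtain ⟨hM1, hM2⟩ := hM (yy w) hyy2
  rw [← hR] at hM1 hM2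
  have hM1' : 8 * cM * (L2 / (L1 * L3)) ≤ Pi' R := by
    refine le_trans (le_of_eq ?_) hM1
    rw [hyyl]; field_simp
  have hM2' : Pi' R ≤ 8 * CM * (L2 / (L1 * L3)) := by
    refine le_trans hM2 (le_of_eq ?_)
    rw [hyyl]; field_simp
  have hPi0 : 0 ≤ Pi' R := le_trans (by positivity) hM1'
  have hN0 : 0 < ∏ p ∈ R, p := Finset.prod_pos fun p hp => (hRp p hp).pos
  -- the integers without prime factor in `(yy w, w]`
  set T1 := (Icc 1 H).filter
    (fun n => ∀ p : ℕ, p.Prime → yy w < p → p ≤ w → ¬ p ∣ n) with hT1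
  have hT1c : (T1.card : ℝ) ≤ CS * (H * L2 / L1) := by
    refine hSw H T1 (by omega) ?_ (filter_subset _ _) fun n hn => (mem_filter.1 hn).2
    refine hHw.trans (mul_le_mul_of_nonneg_left ?_ hw0.le)
    exact pow_le_pow_right₀ hL1 (by norm_num)
  -- the intervals
  set x : ℕ → ℕ := fun i => (H + 1) / 2 + 2 * i * h with hx
  have hxd : ∀ i, x i = (H + 1) / 2 + 2 * i * h := fun _ => rfl
  have hx2 : ∀ i, H ≤ 2 * x i := by
    intro i
    rw [hxd]
    have : 0 ≤ 2 * i * h := Nat.zero_le _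
    omega
  have hxh : ∀ i < J', x i + h ≤ H := by
    intro i hi
    rw [hxd]
    have h8 : 2 * (2 * i * h + h) + 2 * h ≤ H := by
      refine le_trans (le_trans (le_of_eq ?_) (Nat.mul_le_mul_right h
        (show 4 * (i + 1) ≤ 4 * J' by omega))) hup
      ring
    omega
  set A : ℕ → Finset ℕ := fun i => (Ioc (x i) (x i + h)).filter Nat.Prime with hA
  have hAd : ∀ i, A i = (Ioc (x i) (x i + h)).filter Nat.Prime := fun _ => rfl
  have hAc : ∀ i < J', 1 / 2 * ((h : ℝ) / Real.log H) ≤ ((A i).card : ℝ) := by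
    intro i hi
    have h8 := hP H (x i) (by omega) (hx2 i) (by have := hxh i hi; omega)
    rw [← hh] at h8
    exact h8
  have hAc' : ∀ i < J', 1 / 32 * ((H : ℝ) / (J' * L1)) ≤ ((A i).card : ℝ) := by
    intro i hi
    refine le_trans ?_ (hAc i hi)
    have h8 : (H : ℝ) / (8 * J') / (2 * L1) ≤ (h : ℝ) / Real.log H := by
      apply div_le_div₀ hhr.le _ hlH hlH2
      rw [div_le_iff₀ (by positivity)]
      linarith [mul_comm (8 * (J' : ℝ)) h]
    rw [alg2 hL10.ne' (by positivity : (J' : ℝ) ≠ 0)]; linarith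
  have hlog32 : ∀ i < J', cM / 4 * (H * L2 / (J' * (L1 ^ 2 * L3))) ≤
      Pi' R * ((A i).card : ℝ) := by
    intro i hi
    have h8 := mul_le_mul hM1' (hAc' i hi) (by positivity) hPi0
    exact le_trans (le_of_eq (alg1 hL10.ne' hL30.ne' (by positivity : (J' : ℝ) ≠ 0))) h8
  have hbig : 1 ≤ cM / 4 * ((H : ℝ) * L2 / (J' * (L1 ^ 2 * L3))) := by
    have h8 : (4 : ℝ) * w ≤ H := by exact_mod_cast hwH
    have h9 : J' * (L1 ^ 2 * L3) ≤ cM / 4 * (H * L2) := by
      calc J' * (L1 ^ 2 * L3) = (J' * L1 ^ 2) * L3 := by ring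
        _ ≤ (cM * w) * L2 := mul_le_mul hJw hL32 hL30.le (by positivity)
        _ = cM / 4 * ((4 * w) * L2) := by ring
        _ ≤ cM / 4 * (H * L2) := by gcongr
    rw [← mul_div_assoc, le_div_iff₀ (by positivity)]
    linarith
  -- the averaging
  obtain ⟨v₀, hv₀, hgood, htot⟩ := h6 (∏ p ∈ R, p) J'
    (fun i v => Pi' R * ((A i).card : ℝ) / 2 ≤ (Xv R (A i) v : ℝ))
    (fun v => (Xv R T1 v : ℝ)) (Pi' R * T1.card) c₁ hN0 hJ'0 hc₁ (by positivity)
    (fun v => Nat.cast_nonneg _) (le_of_eq (h1 R T1 hRp)) (by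
      intro i hi
      have h8 := hPZ (x i) h R hh2 hRp (by
        refine le_trans ?_ (hAc i hi)
        have h9 : (h : ℝ) / Real.log h ≤ 2 * ((h : ℝ) / Real.log H) := by
          rw [← mul_div_assoc, div_le_div_iff₀ (by linarith) hlH]
          nlinarith
        linarith) (hbig.trans (hlog32 i hi))
      convert h8 using 3)
  -- the choice of the clusters
  have hJc : J ≤ ((range J').filter
      (fun i => Pi' R * ((A i).card : ℝ) / 2 ≤ (Xv R (A i) v₀ : ℝ))).card := by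
    have h8 : (J : ℝ) ≤ c₁ / 2 * J' := by
      have h9 : c₁ / 2 * (2 * (J : ℝ) / c₁) = J := by field_simp
      calc (J : ℝ) = c₁ / 2 * (2 * (J : ℝ) / c₁) := h9.symm
        _ ≤ c₁ / 2 * J' := by gcongr
    exact_mod_cast h8.trans hgood
  obtain ⟨s, hs, hsc⟩ := Finset.exists_subset_card_eq hJc
  have hg : ∀ i : Fin J, s.orderEmbOfFin hsc i < J' ∧ Pi' R *
      ((A (s.orderEmbOfFin hsc i)).card : ℝ) / 2 ≤ (Xv R (A (s.orderEmbOfFin hsc i)) v₀ : ℝ) := by
    intro i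
    have h8 := hs (s.orderEmbOfFin_mem hsc i)
    rw [mem_filter, mem_range] at h8
    exact h8
  obtain ⟨v, hv, hva, hvb⟩ := h7 w (yy w) v₀
  have hmemR : ∀ p : ℕ, p.Prime → (p : ℝ) ≤ yy w → p ∈ R := by
    intro p hp hpy
    rw [hR, mem_filter, mem_Icc]
    exact ⟨⟨hp.one_lt.le, Nat.le_floor hpy⟩, hp⟩
  have hRle : ∀ p ∈ R, (p : ℝ) ≤ yy w := by
    intro p hp
    rw [hR, mem_filter, mem_Icc] at hp
    exact (Nat.le_floor_iff hyy0).1 hp.1.2
  have hRw : ∀ p ∈ R, p ≤ w := by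
    intro p hp
    exact_mod_cast (hRle p hp).trans hyyw
  have hcop : ∀ n : ℕ, (n.Coprime (primorial w)) ↔ ∀ p : ℕ, p.Prime → p ≤ w → ¬ p ∣ n := by
    intro n
    constructor
    · intro hc p hp hpw hpn
      have h8 : p ∣ primorial w := (hp.dvd_primorial_iff).2 hpw
      have h9 := Nat.dvd_gcd hpn h8
      rw [hc] at h9
      exact hp.one_lt.ne' (Nat.dvd_one.1 h9)
    · intro hc
      refine Nat.coprime_of_dvd fun p hp hpn hpw => hc p hp ((hp.dvd_primorial_iff).1 hpw) hpn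
  refine ⟨v, hv, fun i => (A (s.orderEmbOfFin hsc i)).filter
    (fun q => ∀ p ∈ R, ¬ p ∣ v₀ + q), ?_, ?_, ?_, ?_, ?_⟩
  · intro i n hn
    rw [mem_filter, hAd, mem_filter, mem_Ioc] at hn
    have h8 := hxh _ (hg i).1
    rw [mem_Icc]
    omega
  · intro i n hn
    rw [mem_filter, hAd, mem_filter, mem_Ioc] at hn
    obtain ⟨⟨⟨hn1, hn2⟩, hnp⟩, hn3⟩ := hn
    rw [hcop]
    intro p hp hpw hpn
    by_cases hpy : (p : ℝ) ≤ yy w
    · have h8 := hva p hp hpw hpy
      refine hn3 p (hmemR p hp hpy) ?_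
      exact (Nat.modEq_zero_iff_dvd).1
        (((h8.add_right n).symm).trans ((Nat.modEq_zero_iff_dvd).2 hpn))
    · have h8 := hvb p hp hpw (not_le.1 hpy)
      have h9 : p ∣ n := (Nat.dvd_add_right h8).1 hpn
      have h10 := (Nat.prime_dvd_prime_iff_eq hp hnp).1 h9
      have h11 := hx2 (s.orderEmbOfFin hsc i)
      omega
  · intro i j hij n hn n' hn'
    rw [mem_filter, hAd, mem_filter, mem_Ioc] at hn hn'
    have hne : s.orderEmbOfFin hsc i ≠ s.orderEmbOfFin hsc j := by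
      intro hcon
      exact hij ((s.orderEmbOfFin hsc).injective hcon)
    have key : ∀ a b : ℕ, a < b → ∀ m m' : ℕ, m ≤ x a + h → x b < m' → h + m ≤ m' := by
      intro a b hab m m' hm hm'
      rw [hxd] at hm hm'
      have h8 : 2 * (a + 1) * h ≤ 2 * b * h := Nat.mul_le_mul_right h (by omega)
      have h9 : 2 * (a + 1) * h = 2 * a * h + 2 * h := by ring
      omega
    have hfin : (h : ℝ) ≤ |(n : ℝ) - n'| := by
      rcases lt_or_gt_of_ne hne with hlt | hlt
      · have h8 := key _ _ hlt n n' hn.1.1.2 hn'.1.1.1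
        have h9 : (h : ℝ) + n ≤ n' := by exact_mod_cast h8
        rw [abs_sub_comm]
        exact (by linarith : (h : ℝ) ≤ n' - n).trans (le_abs_self _)
      · have h8 := key _ _ hlt n' n hn'.1.1.2 hn.1.1.1
        have h9 : (h : ℝ) + n' ≤ n := by exact_mod_cast h8
        exact (by linarith : (h : ℝ) ≤ n - n').trans (le_abs_self _)
    refine le_trans ?_ hfin
    have h8 : min 1 cM / (8 * B) / J * H ≤ 1 / (8 * B) / J * H := by
      gcongr
      exact min_le_left _ _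
    refine h8.trans ?_
    rw [div_div, div_mul_eq_mul_div, div_le_iff₀ (by positivity)]
    nlinarith [mul_le_mul_of_nonneg_right hJ'2 hhr.le]
  · intro i
    have h8 := (hg i).2
    have h9 := hlog32 _ (hg i).1
    have h10 : (Xv R (A (s.orderEmbOfFin hsc i)) v₀ : ℝ) =
        (((A (s.orderEmbOfFin hsc i)).filter (fun q => ∀ p ∈ R, ¬ p ∣ v₀ + q)).card : ℝ) := by
      unfold Xv
      congr!
    rw [← h10]
    refine le_trans ?_ h8
    have h11 : min 1 cM / (8 * B) / J * (H * L2 / (L1 ^ 2 * L3)) ≤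
        cM / (8 * B) / J * (H * L2 / (L1 ^ 2 * L3)) := by
      gcongr
      exact min_le_right _ _
    refine h11.trans ?_
    have h12 := alg3 (cM := cM) (H := H) (L2 := L2) hL10.ne' hL30.ne'
      (by positivity : (J : ℝ) ≠ 0) hBp.ne'
    have h13 := alg4 (cM := cM) (H := H) (L2 := L2) hL10.ne' hL30.ne'
      (by positivity : (J' : ℝ) ≠ 0)
    calc cM / (8 * B) / J * (H * L2 / (L1 ^ 2 * L3))
        = cM / 8 * (H * L2 / (L1 ^ 2 * L3)) / (B * J) := h12
      _ ≤ cM / 8 * (H * L2 / (L1 ^ 2 * L3)) / J' := by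
          apply div_le_div_of_nonneg_left (by positivity) (by positivity) hJ'2
      _ = cM / 4 * (H * L2 / (J' * (L1 ^ 2 * L3))) / 2 := h13.symm
      _ ≤ _ := by linarith
  · have hsub : (Icc 1 H).filter (fun h => (v + h).Coprime (primorial w)) ⊆
        T1.filter (fun q => ∀ p ∈ R, ¬ p ∣ v₀ + q) := by
      intro n hn
      rw [mem_filter] at hn
      have h8 := (hcop _).1 hn.2
      rw [mem_filter, hT1, mem_filter]
      refine ⟨⟨hn.1, fun p hp hpy hpw hpn => ?_⟩, fun p hp hpn => ?_⟩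
      · exact h8 p hp hpw (Dvd.dvd.add (hvb p hp hpw hpy) hpn)
      · have h9 := hva p (hRp p hp) (hRw p hp) (hRle p hp)
        refine h8 p (hRp p hp) (hRw p hp) ?_
        exact (Nat.modEq_zero_iff_dvd).1
          ((h9.add_right n).trans ((Nat.modEq_zero_iff_dvd).2 hpn))
    have h8 : (((Icc 1 H).filter (fun h => (v + h).Coprime (primorial w))).card : ℝ) ≤
        (Xv R T1 v₀ : ℝ) := by
      have h9 := Finset.card_le_card hsub
      unfold Xv
      refine (Nat.cast_le.2 h9).trans (le_of_eq ?_)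
      congr!
    refine h8.trans ?_
    have h10 : (Xv R T1 v₀ : ℝ) ≤ 2 / c₁ * (Pi' R * T1.card) := by
      have h11 : (Xv R T1 v₀ : ℝ) = 2 / c₁ * (c₁ / 2 * Xv R T1 v₀) := by field_simp
      rw [h11]
      exact mul_le_mul_of_nonneg_left htot hB0.le
    refine h10.trans ?_
    have h12 : Pi' R * (T1.card : ℝ) ≤ 8 * CM * (L2 / (L1 * L3)) * (CS * (H * L2 / L1)) :=
      mul_le_mul hM2' hT1c (Nat.cast_nonneg _) (by positivity)
    calc 2 / c₁ * (Pi' R * (T1.card : ℝ))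
        ≤ 2 / c₁ * (8 * CM * (L2 / (L1 * L3)) * (CS * (H * L2 / L1))) :=
          mul_le_mul_of_nonneg_left h12 hB0.le
      _ = _ := alg5 hL10.ne' hL30.ne' hc₁.ne'

end Pool.LGC
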