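import Pool.Agent.Work.MP_b0c12c_chain.InterfaceX

/-! # Block RESE: the residue and the clusters with prescribed sign of a real character

helper38, modification of `B_RES.lean` (helper96). -/

set_option autoImplicit false

namespace Pool.LGC

open Finset Filter Topology
open Pool.LGP

private lemma rese_alg1 {cM H L1 L2 L3 J : ℝ} (h1 : L1 ≠ 0) (h3 : L3 ≠ 0) (hJ : J ≠ 0) :
    cM / 4 * (H * L2 / (J * (L1 ^ 2 * L3))) =
      8 * cM * (L2 / (L1 * L3)) * (1 / 32 * (H / (J * L1))) := by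
  field_simp
  ring

private lemma rese_alg2 {H L1 J : ℝ} (h1 : L1 ≠ 0) (hJ : J ≠ 0) :
    1 / 32 * (H / (J * L1)) = 1 / 2 * (H / (8 * J) / (2 * L1)) := by
  field_simp
  ring

private lemma rese_alg3 {cM H L1 L2 L3 J B : ℝ} (h1 : L1 ≠ 0) (h3 : L3 ≠ 0) (hJ : J ≠ 0)
    (hB : B ≠ 0) : cM / (16 * B) / J * (H * L2 / (L1 ^ 2 * L3)) =
        cM / 16 * (H * L2 / (L1 ^ 2 * L3)) / (B * J) := by
  field_simp

private lemma rese_alg4 {cM H L1 L2 L3 J : ℝ} (h1 : L1 ≠ 0) (h3 : L3 ≠ 0) (hJ : J ≠ 0) :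
    cM / 4 * (H * L2 / (J * (L1 ^ 2 * L3))) / 4 =
        cM / 16 * (H * L2 / (L1 ^ 2 * L3)) / J := by
  field_simp
  ring

private lemma rese_alg5 {c₁ CM CS H L1 L2 L3 : ℝ} (h1 : L1 ≠ 0) (h3 : L3 ≠ 0) (hc : c₁ ≠ 0) :
    2 / c₁ * (8 * CM * (L2 / (L1 * L3)) * (CS * (H * L2 / L1))) =
      2 / c₁ * (8 * CM * CS) * (H * L2 ^ 2 / (L1 ^ 2 * L3)) := by
  field_simp


theorem rese_pz (N : ℕ) (Y : ℕ → ℝ) (m D : ℝ) (hY : ∀ v, 0 ≤ Y v) (hm : 0 < m) (hD : 0 < D)
    (h1 : ∑ v ∈ range N, Y v = N * (m / 2)) (h2 : ∑ v ∈ range N, Y v ^ 2 ≤ N * (D * m ^ 2))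
    (G : Finset ℕ) (hG : ∀ v, v ∈ G ↔ v ∈ range N ∧ m / 4 ≤ Y v) :
    1 / (16 * D) * N ≤ (G.card : ℝ) := by
  classical
  have hGs : G ⊆ range N := fun v hv => ((hG v).1 hv).1
  have e1 : ∑ v ∈ range N \ G, Y v ≤ N * (m / 4) := by
    calc ∑ v ∈ range N \ G, Y v ≤ ∑ v ∈ range N \ G, m / 4 := by
          apply Finset.sum_le_sum
          intro v hv
          rw [Finset.mem_sdiff, hG] at hv
          by_contra hcon
          push Not at hcon
          exact hv.2 ⟨hv.1, hcon.le⟩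
      _ = ((range N \ G).card : ℝ) * (m / 4) := by rw [Finset.sum_const, nsmul_eq_mul]
      _ ≤ N * (m / 4) := by
          apply mul_le_mul_of_nonneg_right _ (by positivity)
          have : (range N \ G).card ≤ (range N).card := Finset.card_le_card Finset.sdiff_subset
          rw [Finset.card_range] at this
          exact_mod_cast this
  have e2 : ∑ v ∈ range N \ G, Y v + ∑ v ∈ G, Y v = ∑ v ∈ range N, Y v :=
    Finset.sum_sdiff hGs
  have e3 : N * (m / 4) ≤ ∑ v ∈ G, Y v := by linarith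
  have e4 : (∑ v ∈ G, Y v) ^ 2 ≤ G.card * ∑ v ∈ G, Y v ^ 2 := sq_sum_le_card_mul_sum_sq
  have e5 : ∑ v ∈ G, Y v ^ 2 ≤ ∑ v ∈ range N, Y v ^ 2 :=
    Finset.sum_le_sum_of_subset_of_nonneg hGs fun v _ _ => sq_nonneg _
  rcases Nat.eq_zero_or_pos N with hN | hN
  · rw [hN]
    simp
  have hNr : (0 : ℝ) < N := by exact_mod_cast hN
  have e6 : (N * (m / 4)) ^ 2 ≤ G.card * (N * (D * m ^ 2)) := by
    calc (N * (m / 4)) ^ 2 ≤ (∑ v ∈ G, Y v) ^ 2 := pow_le_pow_left₀ (by positivity) e3 2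
      _ ≤ G.card * ∑ v ∈ G, Y v ^ 2 := e4
      _ ≤ G.card * (N * (D * m ^ 2)) :=
          mul_le_mul_of_nonneg_left (e5.trans h2) (Nat.cast_nonneg _)
  have e7 : (1 / (16 * D) * N) * (N * (D * m ^ 2)) ≤ G.card * (N * (D * m ^ 2)) := by
    refine le_trans (le_of_eq ?_) e6
    field_simp
    ring
  exact le_of_mul_le_mul_right e7 (by positivity)

/-- Lifting of the residue for a general set of primes. -/
theorem rese_lift (w : ℕ) (R : Finset ℕ) (hR : ∀ p ∈ R, p.Prime ∧ p ≤ w) (v₀ : ℕ) :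
    ∃ v < primorial w, (∀ p ∈ R, v ≡ v₀ [MOD p]) ∧
      ∀ p : ℕ, p.Prime → p ≤ w → p ∉ R → p ∣ v := by
  classical
  obtain ⟨A, hA⟩ : ∃ A : Finset ℕ, A = (range (w + 1)).filter Nat.Prime := ⟨_, rfl⟩
  have hRA : R ⊆ A := by
    intro p hp
    rw [hA, Finset.mem_filter, Finset.mem_range]
    exact ⟨by have := (hR p hp).2; omega, (hR p hp).1⟩
  have hAp : ∀ p ∈ A, p.Prime := by
    intro p hp
    rw [hA, Finset.mem_filter] at hp
    exact hp.2
  obtain ⟨m, hm⟩ : ∃ m : ℕ, m = ∏ p ∈ R, p := ⟨_, rfl⟩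
  obtain ⟨n, hn⟩ : ∃ n : ℕ, n = ∏ p ∈ A \ R, p := ⟨_, rfl⟩
  have hmn : m * n = primorial w := by
    rw [hm, hn, mul_comm, Finset.prod_sdiff hRA, hA]
    rfl
  have hcop : m.Coprime n := by
    rw [hm, hn]
    apply Nat.Coprime.prod_left
    intro p hp
    apply Nat.Coprime.prod_right
    intro q hq
    rw [Finset.mem_sdiff] at hq
    rw [Nat.coprime_primes (hR p hp).1 (hAp q hq.1)]
    rintro rfl
    exact hq.2 hp
  have hm0 : m ≠ 0 := by
    rw [hm]
    exact (Finset.prod_pos fun p hp => (hR p hp).1.pos).ne'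
  have hn0 : n ≠ 0 := by
    rw [hn]
    exact (Finset.prod_pos fun p hp => (hAp p (Finset.mem_sdiff.mp hp).1).pos).ne'
  obtain ⟨h1, h2⟩ := (Nat.chineseRemainder hcop v₀ 0).2
  refine ⟨(Nat.chineseRemainder hcop v₀ 0 : ℕ), ?_, ?_, ?_⟩
  · rw [← hmn]
    exact Nat.chineseRemainder_lt_mul hcop v₀ 0 hm0 hn0
  · intro p hp
    exact h1.of_dvd (by rw [hm]; exact Finset.dvd_prod_of_mem _ hp)
  · intro p hp hpw hpR
    have : p ∣ n := by
      rw [hn]
      apply Finset.dvd_prod_of_mem (fun p => p)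
      rw [Finset.mem_sdiff, hA, Finset.mem_filter, Finset.mem_range]
      exact ⟨⟨by omega, hp⟩, hpR⟩
    exact (Nat.modEq_zero_iff_dvd).1 (h2.of_dvd this)

theorem rese_main (h1 : Stmt_FM1) (h2 : Stmt_SM2) (h3 : Stmt_PIN) (h4 : Stmt_MEL)
    (h5 : Pool.LGP.Stmt_SRV) (h6 : Stmt_ASL) (h9 : Stmt_SGN) :
    ∃ C c : ℝ, 0 < C ∧ 0 < c ∧ ∀ J : ℕ, 0 < J → ∀ᶠ w : ℕ in atTop, ∀ H : ℕ, 4 * w ≤ H →
    (H : ℝ) ≤ w * Real.log w ^ 2 → ∀ χ : DirichletCharacter ℂ (primorial w), χ ^ 2 = 1 → χ ≠ 1 →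
    ∃ v < primorial w, ∃ E : Fin J → Finset ℕ, (∀ i, E i ⊆ Icc 1 H) ∧
      (∀ i, ∀ h ∈ E i, (v + h).Coprime (primorial w)) ∧
      (∀ i, ∀ h ∈ E i, χ ((v + h : ℕ) : ZMod (primorial w)) = -1) ∧
      (∀ i j, i ≠ j → ∀ h ∈ E i, ∀ h' ∈ E j, c / J * H ≤ |(h : ℝ) - h'|) ∧
      (∀ i, c / J * (H * Real.log (Real.log w) /
        (Real.log w ^ 2 * Real.log (Real.log (Real.log w)))) ≤ ((E i).card : ℝ)) ∧
      (((Icc 1 H).filter (fun h => (v + h).Coprime (primorial w))).card : ℝ) ≤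
        C * (H * Real.log (Real.log w) ^ 2 /
          (Real.log w ^ 2 * Real.log (Real.log (Real.log w)))) := by
  classical
  obtain ⟨C₂, hC₂, hSM⟩ := h2
  obtain ⟨c₁, hc₁d⟩ : ∃ c₁ : ℝ, c₁ = 1 / (16 * (1 + 4 * C₂)) := ⟨_, rfl⟩
  have hc₁ : 0 < c₁ := by rw [hc₁d]; positivity
  obtain ⟨cM', CM, hcM', hCM, hM⟩ := h4
  obtain ⟨cM, hcMd⟩ : ∃ cM : ℝ, cM = cM' / 2 := ⟨_, rfl⟩
  have hcM : 0 < cM := by rw [hcMd]; positivity
  obtain ⟨CS', hCS', hS⟩ := h5
  obtain ⟨CS, hCSd⟩ : ∃ CS : ℝ, CS = CS' + 1 := ⟨_, rfl⟩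
  have hCS : 0 < CS := by rw [hCSd]; positivity
  have hB0 : (0 : ℝ) < 2 / c₁ := by positivity
  obtain ⟨B, hB⟩ : ∃ B : ℝ, B = 2 / c₁ + 1 := ⟨_, rfl⟩
  have hB1 : 1 ≤ B := by rw [hB]; linarith
  have hBp : 0 < B := by linarith
  have hm0 : 0 < min 1 cM := lt_min one_pos hcM
  refine ⟨2 / c₁ * (8 * CM * CS), min 1 cM / (16 * B), by positivity, by positivity, ?_⟩
  intro J hJ
  have hJr : (1 : ℝ) ≤ J := by exact_mod_cast hJ
  obtain ⟨J', hJ'⟩ : ∃ J' : ℕ, J' = ⌈2 * (J : ℝ) / c₁⌉₊ := ⟨_, rfl⟩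
  have hJ'1 : 2 * (J : ℝ) / c₁ ≤ J' := by rw [hJ']; exact Nat.le_ceil _
  have hJ'2 : (J' : ℝ) ≤ B * J := by
    have h8 : (J' : ℝ) < 2 * (J : ℝ) / c₁ + 1 := by
      rw [hJ']; exact Nat.ceil_lt_add_one (by positivity)
    have h9 : 2 * (J : ℝ) / c₁ = 2 / c₁ * J := by ring
    rw [h9] at h8
    rw [hB]
    nlinarith
  have hJ'0 : 0 < J' := by
    have h8 : (0 : ℝ) < J' := lt_of_lt_of_le (by positivity) hJ'1
    exact_mod_cast h8
  have hJ'r : (1 : ℝ) ≤ J' := by exact_mod_cast hJ'0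
  obtain ⟨H₀, hP⟩ := h3 J' hJ'0
  have t1 : Tendsto (fun w : ℕ => Real.log w) atTop atTop :=
    Real.tendsto_log_atTop.comp tendsto_natCast_atTop_atTop
  have t2 : Tendsto (fun w : ℕ => Real.log (Real.log w)) atTop atTop :=
    Real.tendsto_log_atTop.comp t1
  have t3 : Tendsto (fun w : ℕ => Real.log (Real.log (Real.log w))) atTop atTop :=
    Real.tendsto_log_atTop.comp t2
  have t4 : ∀ᶠ w : ℕ in atTop, (J' : ℝ) * Real.log w ^ 2 ≤ cM * w := by
    have h8 : (fun x : ℝ => Real.log x ^ 2) =o[atTop] (id : ℝ → ℝ) :=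
      Real.isLittleO_pow_log_id_atTop
    have h9 := (h8.bound (show 0 < cM / J' by positivity))
    have h10 := (tendsto_natCast_atTop_atTop (R := ℝ)).eventually h9
    filter_upwards [h10] with w hw
    simp only [id, Real.norm_eq_abs, abs_pow, sq_abs, Nat.abs_cast] at hw
    have h11 : cM / J' * (w : ℝ) * J' = cM * w := by field_simp
    nlinarith
  have t5 : ∀ᶠ w : ℕ in atTop, 8 * Real.log (Real.log w) ≤ Real.log w := by
    have h8 : (fun x : ℝ => Real.log x) =o[atTop] (id : ℝ → ℝ) := Real.isLittleO_log_id_atTop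
    have h9 := (h8.bound (show (0 : ℝ) < 1 / 8 by norm_num))
    have h10 := t1.eventually h9
    filter_upwards [h10, t1.eventually_ge_atTop 1] with w hw hw1
    simp only [id, Real.norm_eq_abs] at hw
    have h11 := le_abs_self (Real.log (Real.log w))
    rw [abs_of_nonneg (by linarith : (0 : ℝ) ≤ Real.log w)] at hw
    linarith
  have t6 : ∀ᶠ w : ℕ in atTop, 8 * Real.log (Real.log w) ^ 2 ≤ Real.log w := by
    have h8 : (fun x : ℝ => Real.log x ^ 2) =o[atTop] (id : ℝ → ℝ) :=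
      Real.isLittleO_pow_log_id_atTop
    have h9 := (h8.bound (show (0 : ℝ) < 1 / 8 by norm_num))
    have h10 := t1.eventually h9
    filter_upwards [h10, t1.eventually_ge_atTop 1] with w hw hw1
    simp only [id, Real.norm_eq_abs, abs_pow, sq_abs] at hw
    rw [abs_of_nonneg (by linarith : (0 : ℝ) ≤ Real.log w)] at hw
    linarith
  filter_upwards [hS, t1.eventually_ge_atTop 1, t2.eventually_ge_atTop 1,
    t3.eventually_ge_atTop 1, t4, t5, t6, eventually_ge_atTop (H₀ + 64 * J' ^ 2 + 2)]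
    with w hSw hL1 hL2 hL3 hJw h8L h8L2 hwl H hwH hHw χ hχ2 hχ1
  set L1 := Real.log w with hL1d
  set L2 := Real.log L1 with hL2d
  set L3 := Real.log L2 with hL3d
  have hL10 : 0 < L1 := by linarith
  have hL20 : 0 < L2 := by linarith
  have hL30 : 0 < L3 := by linarith
  have hL32 : L3 ≤ L2 := by
    have := Real.log_le_sub_one_of_pos hL20
    linarith
  have hw0 : (0 : ℝ) < w := by
    have : 0 < w := by omega
    exact_mod_cast this
  -- sizes
  obtain ⟨h, hh⟩ : ∃ h : ℕ, h = H / (4 * J') := ⟨_, rfl⟩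
  have hHJ : 64 * J' ^ 2 ≤ H := by omega
  have hJJ : J' ≤ J' ^ 2 := by nlinarith
  have h4J : 8 * J' ≤ H := by omega
  have hh2 : 2 ≤ h := by
    rw [hh, Nat.le_div_iff_mul_le (by omega)]
    omega
  have hup : 4 * J' * h ≤ H := by rw [hh]; exact Nat.mul_div_le H (4 * J')
  have hlow : H ≤ 8 * J' * h := by
    have h8 := Nat.div_add_mod H (4 * J')
    have h9 := Nat.mod_lt H (show 4 * J' > 0 by omega)
    rw [← hh] at h8
    nlinarith
  have hHh : H ≤ h ^ 2 := by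
    by_contra hcon
    push Not at hcon
    have h8 : 64 * J' ^ 2 * h ^ 2 < H * H := by
      have h9 : 0 < h ^ 2 := by positivity
      calc 64 * J' ^ 2 * h ^ 2 ≤ H * h ^ 2 := Nat.mul_le_mul_right _ hHJ
        _ < H * H := (Nat.mul_lt_mul_left (by omega)).2 hcon
    have h9 : H * H ≤ (8 * J' * h) * (8 * J' * h) := Nat.mul_le_mul hlow hlow
    nlinarith
  have hHr : (0 : ℝ) < H := by
    have : 0 < H := by omega
    exact_mod_cast this
  have hhr : (0 : ℝ) < h := by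
    have : 0 < h := by omega
    exact_mod_cast this
  have hHr2 : (2 : ℝ) ≤ H := by
    have : 2 ≤ H := by omega
    exact_mod_cast this
  have hlH : 0 < Real.log H := Real.log_pos (by linarith)
  have hlh : Real.log H ≤ 2 * Real.log h := by
    have h8 : (H : ℝ) ≤ (h : ℝ) ^ 2 := by exact_mod_cast hHh
    have h9 := Real.log_le_log hHr h8
    rw [Real.log_pow] at h9
    push_cast at h9
    exact h9
  have hlH2 : Real.log H ≤ 2 * L1 := by
    have h8 := Real.log_le_log hHr hHw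
    rw [Real.log_mul hw0.ne' (by positivity), Real.log_pow] at h8
    push_cast at h8
    linarith
  have hlowr : (H : ℝ) ≤ 8 * J' * h := by exact_mod_cast hlow
  -- the sieving primes
  obtain ⟨p₁, hp₁, hp₁w, hsgn⟩ := h9 w χ hχ2 hχ1
  set R₀ := (Icc 1 ⌊yy w⌋₊).filter Nat.Prime with hR₀
  set R := insert p₁ R₀ with hR
  have hRp : ∀ p ∈ R, p.Prime := by
    intro p hp
    rw [hR, mem_insert] at hp
    rcases hp with rfl | hp
    · exact hp₁
    · exact (mem_filter.1 hp).2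
  have hyy : 1 ≤ L1 * L3 / (8 * L2) := by
    rw [le_div_iff₀ (by positivity)]
    nlinarith
  have hyy0 : 0 ≤ yy w := (Real.exp_pos _).le
  have hyyd : yy w = Real.exp (L1 * L3 / (8 * L2)) := rfl
  have hyy2 : 2 ≤ yy w := by
    rw [hyyd]
    have h8 := Real.add_one_le_exp (L1 * L3 / (8 * L2))
    linarith
  have hyyl : Real.log (yy w) = L1 * L3 / (8 * L2) := by rw [hyyd, Real.log_exp]
  have hyyw : yy w ≤ w := by
    rw [hyyd, ← Real.exp_log hw0]
    apply Real.exp_le_exp.2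
    rw [div_le_iff₀ (by positivity)]
    have h8 : L1 * L3 ≤ L1 * L2 := mul_le_mul_of_nonneg_left hL32 hL10.le
    nlinarith
  obtain ⟨hM1, hM2⟩ := hM (yy w) hyy2
  rw [← hR₀] at hM1 hM2
  have hM10 : 8 * cM' * (L2 / (L1 * L3)) ≤ Pi' R₀ := by
    refine le_trans (le_of_eq ?_) hM1
    rw [hyyl]; field_simp
  have hM20 : Pi' R₀ ≤ 8 * CM * (L2 / (L1 * L3)) := by
    refine le_trans hM2 (le_of_eq ?_)
    rw [hyyl]; field_simp
  have hPi00 : 0 ≤ Pi' R₀ := le_trans (by positivity) hM10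
  have hPiR : Pi' R₀ / 2 ≤ Pi' R ∧ Pi' R ≤ Pi' R₀ := by
    by_cases hmem : p₁ ∈ R₀
    · rw [hR, insert_eq_of_mem hmem]
      constructor <;> linarith
    · have e1 : Pi' R = (1 - 1 / (p₁ : ℝ)) * Pi' R₀ := by
        unfold Pi'
        rw [hR, prod_insert hmem]
      have e2 : (2 : ℝ) ≤ p₁ := by exact_mod_cast hp₁.two_le
      have e3 : 1 / (p₁ : ℝ) ≤ 1 / 2 := one_div_le_one_div_of_le (by norm_num) e2
      have e4 : 0 ≤ 1 / (p₁ : ℝ) := by positivity
      rw [e1]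
      constructor <;> nlinarith only [e3, e4, hPi00]
  have hM1' : 8 * cM * (L2 / (L1 * L3)) ≤ Pi' R := by
    refine le_trans ?_ hPiR.1
    rw [hcMd]
    linarith
  have hM2' : Pi' R ≤ 8 * CM * (L2 / (L1 * L3)) := hPiR.2.trans hM20
  have hPi0 : 0 ≤ Pi' R := le_trans (by positivity) hM1'
  have hN0 : 0 < ∏ p ∈ R, p := Finset.prod_pos fun p hp => (hRp p hp).pos
  -- the integers without prime factor in `(yy w, w]`
  set T0 := (Icc 1 H).filter
    (fun n => ∀ p : ℕ, p.Prime → yy w < p → p ≤ w → ¬ p ∣ n) with hT0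
  have hT0c : (T0.card : ℝ) ≤ CS' * (H * L2 / L1) := by
    refine hSw H T0 (by omega) ?_ (filter_subset _ _) fun n hn => (mem_filter.1 hn).2
    refine hHw.trans (mul_le_mul_of_nonneg_left ?_ hw0.le)
    exact pow_le_pow_right₀ hL1 (by norm_num)
  set T1 := (Icc 1 H).filter
    (fun n => ∀ p : ℕ, p.Prime → yy w < p → p ≤ w → p ∉ R → ¬ p ∣ n) with hT1
  have hT1c : (T1.card : ℝ) ≤ CS * (H * L2 / L1) := by
    rcases le_or_gt (p₁ : ℝ) (yy w) with hle | hlt
    · have e1 : T1 ⊆ T0 := by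
        intro n hn
        rw [hT1, mem_filter] at hn
        rw [hT0, mem_filter]
        refine ⟨hn.1, fun p hp hpy hpw => hn.2 p hp hpy hpw ?_⟩
        rw [hR, mem_insert, hR₀, mem_filter, mem_Icc]
        rintro (rfl | ⟨⟨_, h8⟩, _⟩)
        · linarith
        · have := (Nat.le_floor_iff hyy0).1 h8
          linarith
      have e2 : (T1.card : ℝ) ≤ T0.card := by exact_mod_cast card_le_card e1
      have e3 : 0 ≤ (H : ℝ) * L2 / L1 := by positivity
      rw [hCSd]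
      linarith
    · have e1 : T1 ⊆ T0 ∪ (Ioc 0 H).filter (fun n => p₁ ∣ n) := by
        intro n hn
        rw [hT1, mem_filter] at hn
        rw [mem_union, hT0, mem_filter, mem_filter, mem_Ioc]
        by_cases hd : p₁ ∣ n
        · right
          have := hn.1
          rw [mem_Icc] at this
          exact ⟨⟨by omega, this.2⟩, hd⟩
        · left
          refine ⟨hn.1, fun p hp hpy hpw => ?_⟩
          by_cases hpp : p = p₁
          · rw [hpp]
            exact hd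
          · refine hn.2 p hp hpy hpw ?_
            rw [hR, mem_insert, hR₀, mem_filter, mem_Icc]
            rintro (h8 | ⟨⟨_, h8⟩, _⟩)
            · exact hpp h8
            · have := (Nat.le_floor_iff hyy0).1 h8
              linarith
      have e2 := (card_le_card e1).trans (card_union_le _ _)
      have e3 : (((Ioc 0 H).filter (fun n => p₁ ∣ n)).card : ℝ) ≤ H / p₁ := by
        rw [Nat.Ioc_filter_dvd_card_eq_div]
        exact Nat.cast_div_le
      have hyL : L1 ≤ yy w := by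
        rw [hyyd]
        have h8 : L2 ≤ L1 * L3 / (8 * L2) := by
          rw [le_div_iff₀ (by positivity)]
          nlinarith only [h8L2, hL3, hL10]
        have h9 : L1 = Real.exp L2 := by rw [hL2d, Real.exp_log hL10]
        calc L1 = Real.exp L2 := h9
          _ ≤ _ := Real.exp_le_exp.2 h8
      have e4 : (H : ℝ) / p₁ ≤ H * L2 / L1 := by
        have h8 : (0 : ℝ) < p₁ := by exact_mod_cast hp₁.pos
        calc (H : ℝ) / p₁ ≤ H / L1 := div_le_div_of_nonneg_left hHr.le hL10 (by linarith)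
          _ ≤ H * L2 / L1 := by
            apply div_le_div_of_nonneg_right _ hL10.le
            nlinarith only [hHr, hL2]
      have e5 : (T1.card : ℝ) ≤ T0.card + ((Ioc 0 H).filter (fun n => p₁ ∣ n)).card := by
        exact_mod_cast e2
      rw [hCSd]
      linarith
  -- the intervals
  set x : ℕ → ℕ := fun i => (H + 1) / 2 + 2 * i * h with hx
  have hxd : ∀ i, x i = (H + 1) / 2 + 2 * i * h := fun _ => rfl
  have hx2 : ∀ i, H ≤ 2 * x i := by
    intro i
    rw [hxd]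
    have : 0 ≤ 2 * i * h := Nat.zero_le _
    omega
  have hxh : ∀ i < J', x i + h ≤ H := by
    intro i hi
    rw [hxd]
    have h8 : 2 * (2 * i * h + h) + 2 * h ≤ H := by
      refine le_trans (le_trans (le_of_eq ?_) (Nat.mul_le_mul_right h
        (show 4 * (i + 1) ≤ 4 * J' by omega))) hup
      ring
    omega
  set A : ℕ → Finset ℕ := fun i => (Ioc (x i) (x i + h)).filter Nat.Prime with hA
  have hAd : ∀ i, A i = (Ioc (x i) (x i + h)).filter Nat.Prime := fun _ => rfl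
  have hAc : ∀ i < J', 1 / 2 * ((h : ℝ) / Real.log H) ≤ ((A i).card : ℝ) := by
    intro i hi
    have h8 := hP H (x i) (by omega) (hx2 i) (by have := hxh i hi; omega)
    rw [← hh] at h8
    exact h8
  have hAc' : ∀ i < J', 1 / 32 * ((H : ℝ) / (J' * L1)) ≤ ((A i).card : ℝ) := by
    intro i hi
    refine le_trans ?_ (hAc i hi)
    have h8 : (H : ℝ) / (8 * J') / (2 * L1) ≤ (h : ℝ) / Real.log H := by
      apply div_le_div₀ hhr.le _ hlH hlH2
      rw [div_le_iff₀ (by positivity)]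
      linarith [mul_comm (8 * (J' : ℝ)) h]
    rw [rese_alg2 hL10.ne' (by positivity : (J' : ℝ) ≠ 0)]; linarith
  have hlog32 : ∀ i < J', cM / 4 * (H * L2 / (J' * (L1 ^ 2 * L3))) ≤
      Pi' R * ((A i).card : ℝ) := by
    intro i hi
    have h8 := mul_le_mul hM1' (hAc' i hi) (by positivity) hPi0
    exact le_trans (le_of_eq (rese_alg1 hL10.ne' hL30.ne' (by positivity : (J' : ℝ) ≠ 0))) h8
  have hbig : 1 ≤ cM / 4 * ((H : ℝ) * L2 / (J' * (L1 ^ 2 * L3))) := by
    have h8 : (4 : ℝ) * w ≤ H := by exact_mod_cast hwH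
    have h9 : J' * (L1 ^ 2 * L3) ≤ cM / 4 * (H * L2) := by
      calc J' * (L1 ^ 2 * L3) = (J' * L1 ^ 2) * L3 := by ring
        _ ≤ (cM * w) * L2 := mul_le_mul hJw hL32 hL30.le (by positivity)
        _ = cM / 4 * ((4 * w) * L2) := by ring
        _ ≤ cM / 4 * (H * L2) := by gcongr
    rw [← mul_div_assoc, le_div_iff₀ (by positivity)]
    linarith
  -- the lift and the sign
  have hRle' : ∀ p ∈ R, p ≤ w := by
    intro p hp
    rw [hR, mem_insert] at hp
    rcases hp with rfl | hp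
    · exact hp₁w
    · rw [hR₀, mem_filter, mem_Icc] at hp
      exact_mod_cast ((Nat.le_floor_iff hyy0).1 hp.1.2).trans hyyw
  choose V hVlt hVR hVn using fun v₀ : ℕ => rese_lift w R (fun p hp => ⟨hRp p hp, hRle' p hp⟩) v₀
  obtain ⟨Yv, hYv⟩ : ∃ Yv : ℕ → ℕ → ℕ, Yv = fun i v => ((A i).filter (fun q =>
    (∀ p ∈ R, ¬ p ∣ v + q) ∧ χ ((V v + q : ℕ) : ZMod (primorial w)) = -1)).card := ⟨_, rfl⟩
  have hYX : ∀ i v, Yv i v ≤ Xv R (A i) v := by
    intro i v
    rw [hYv]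
    unfold Xv
    apply card_le_card
    intro q hq
    rw [mem_filter] at hq ⊢
    exact ⟨hq.1, hq.2.1⟩
  have hAgt : ∀ i, ∀ q ∈ A i, q.Prime ∧ w < q := by
    intro i q hq
    rw [hAd, mem_filter, mem_Ioc] at hq
    have := hx2 i
    exact ⟨hq.2, by omega⟩
  have hYsum : ∀ i, (∑ v ∈ range (∏ p ∈ R, p), (Yv i v : ℝ)) =
      ((∏ p ∈ R, p : ℕ) : ℝ) * (Pi' R * (A i).card / 2) := by
    intro i
    have e1 : ∀ q ∈ A i, (2 : ℝ) * ((((range (∏ p ∈ R, p)).filter (fun v => (∀ p ∈ R, ¬ p ∣ v + q) ∧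
        χ ((V v + q : ℕ) : ZMod (primorial w)) = -1)).card : ℕ) : ℝ) =
        ((((range (∏ p ∈ R, p)).filter (fun v => ∀ p ∈ R, ¬ p ∣ v + q)).card : ℕ) : ℝ) := by
      intro q hq
      obtain ⟨hq1, hq2⟩ := hAgt i q hq
      have := hsgn R V q (mem_insert_self _ _) (fun p hp => ⟨hRp p hp, hRle' p hp⟩)
        (fun v p hp => hVR v p hp) (fun v p hp hpw hpR => hVn v p hp hpw hpR) (by
          intro p hp hpw _ hpq
          have := (Nat.prime_dvd_prime_iff_eq hp hq1).1 hpq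
          omega)
      exact_mod_cast this
    have e2 : (∑ v ∈ range (∏ p ∈ R, p), (Yv i v : ℝ)) =
        ∑ q ∈ A i, ((((range (∏ p ∈ R, p)).filter (fun v => (∀ p ∈ R, ¬ p ∣ v + q) ∧
        χ ((V v + q : ℕ) : ZMod (primorial w)) = -1)).card : ℕ) : ℝ) := by
      rw [hYv]
      simp only [card_filter, Nat.cast_sum]
      exact sum_comm
    have e3 : (∑ v ∈ range (∏ p ∈ R, p), (Xv R (A i) v : ℝ)) =
        ∑ q ∈ A i, ((((range (∏ p ∈ R, p)).filter (fun v => ∀ p ∈ R, ¬ p ∣ v + q)).card : ℕ) : ℝ) := by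
      unfold Xv
      simp only [card_filter, Nat.cast_sum]
      exact sum_comm
    have e4 := h1 R (A i) hRp
    rw [e3, ← sum_congr rfl e1, ← mul_sum, ← e2] at e4
    linarith
  -- the averaging
  obtain ⟨v₀, hv₀, hgood, htot⟩ := h6 (∏ p ∈ R, p) J'
    (fun i v => Pi' R * ((A i).card : ℝ) / 4 ≤ (Yv i v : ℝ))
    (fun v => (Xv R T1 v : ℝ)) (Pi' R * T1.card) c₁ hN0 hJ'0 hc₁ (by positivity)
    (fun v => Nat.cast_nonneg _) (le_of_eq (h1 R T1 hRp)) (by
      intro i hi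
      have hm1 : 1 ≤ Pi' R * ((A i).card : ℝ) := hbig.trans (hlog32 i hi)
      have hlh0 : 0 < Real.log h := by linarith
      have h9 : (h : ℝ) / Real.log h ≤ 4 * ((A i).card : ℝ) := by
        have h10 : (h : ℝ) / Real.log h ≤ 2 * ((h : ℝ) / Real.log H) := by
          rw [← mul_div_assoc, div_le_div_iff₀ hlh0 hlH]
          nlinarith only [hlh, hhr]
        have h11 := hAc i hi
        linarith
      have h10 : ∑ v ∈ range (∏ p ∈ R, p), (Yv i v : ℝ) ^ 2 ≤
          ((∏ p ∈ R, p : ℕ) : ℝ) * ((1 + 4 * C₂) * (Pi' R * ((A i).card : ℝ)) ^ 2) := by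
        have h11 : ∑ v ∈ range (∏ p ∈ R, p), (Yv i v : ℝ) ^ 2 ≤
            ∑ v ∈ range (∏ p ∈ R, p), (Xv R (A i) v : ℝ) ^ 2 := by
          apply sum_le_sum
          intro v _
          have : (Yv i v : ℝ) ≤ Xv R (A i) v := by exact_mod_cast hYX i v
          exact pow_le_pow_left₀ (Nat.cast_nonneg _) this 2
        refine h11.trans ((hSM (x i) h R hh2 hRp).trans ?_)
        apply mul_le_mul_of_nonneg_left _ (Nat.cast_nonneg _)
        have h12 : Pi' R * ((A i).card : ℝ) ≤ (Pi' R * ((A i).card : ℝ)) ^ 2 := by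
          nlinarith only [hm1]
        have h13 : C₂ * (Pi' R ^ 2 * (((A i).card : ℝ) * (h / Real.log h))) ≤
            C₂ * (Pi' R ^ 2 * (((A i).card : ℝ) * (4 * ((A i).card : ℝ)))) := by
          gcongr
        have h14 : C₂ * (Pi' R ^ 2 * (((A i).card : ℝ) * (4 * ((A i).card : ℝ)))) =
            4 * C₂ * (Pi' R * ((A i).card : ℝ)) ^ 2 := by ring
        have h15 : (((Ioc (x i) (x i + h)).filter Nat.Prime).card : ℝ) = ((A i).card : ℝ) := rfl
        rw [h15]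
        linarith
      have h16 := rese_pz (∏ p ∈ R, p) (fun v => (Yv i v : ℝ)) (Pi' R * ((A i).card : ℝ))
        (1 + 4 * C₂) (fun v => Nat.cast_nonneg _) (by linarith) (by positivity) (hYsum i) h10
        ((range (∏ p ∈ R, p)).filter (fun v => Pi' R * ((A i).card : ℝ) / 4 ≤ (Yv i v : ℝ)))
        (fun v => mem_filter)
      rw [hc₁d]
      convert h16 using 3)
  -- the choice of the clusters
  have hJc : J ≤ ((range J').filter
      (fun i => Pi' R * ((A i).card : ℝ) / 4 ≤ (Yv i v₀ : ℝ))).card := by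
    have h8 : (J : ℝ) ≤ c₁ / 2 * J' := by
      have h9 : c₁ / 2 * (2 * (J : ℝ) / c₁) = J := by field_simp
      calc (J : ℝ) = c₁ / 2 * (2 * (J : ℝ) / c₁) := h9.symm
        _ ≤ c₁ / 2 * J' := by gcongr
    exact_mod_cast h8.trans hgood
  obtain ⟨s, hs, hsc⟩ := Finset.exists_subset_card_eq hJc
  have hg : ∀ i : Fin J, s.orderEmbOfFin hsc i < J' ∧ Pi' R *
      ((A (s.orderEmbOfFin hsc i)).card : ℝ) / 4 ≤ (Yv (s.orderEmbOfFin hsc i) v₀ : ℝ) := by
    intro i
    have h8 := hs (s.orderEmbOfFin_mem hsc i)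
    rw [mem_filter, mem_range] at h8
    exact h8
  have hcop : ∀ n : ℕ, (n.Coprime (primorial w)) ↔ ∀ p : ℕ, p.Prime → p ≤ w → ¬ p ∣ n := by
    intro n
    constructor
    · intro hc p hp hpw hpn
      have h8 : p ∣ primorial w := (hp.dvd_primorial_iff).2 hpw
      have h9 := Nat.dvd_gcd hpn h8
      rw [hc] at h9
      exact hp.one_lt.ne' (Nat.dvd_one.1 h9)
    · intro hc
      refine Nat.coprime_of_dvd fun p hp hpn hpw => hc p hp ((hp.dvd_primorial_iff).1 hpw) hpn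
  refine ⟨V v₀, hVlt v₀, fun i => (A (s.orderEmbOfFin hsc i)).filter
    (fun q => (∀ p ∈ R, ¬ p ∣ v₀ + q) ∧ χ ((V v₀ + q : ℕ) : ZMod (primorial w)) = -1),
    ?_, ?_, ?_, ?_, ?_, ?_⟩
  · intro i n hn
    rw [mem_filter, hAd, mem_filter, mem_Ioc] at hn
    have h8 := hxh _ (hg i).1
    rw [mem_Icc]
    omega
  · intro i n hn
    rw [mem_filter, hAd, mem_filter, mem_Ioc] at hn
    obtain ⟨⟨⟨hn1, hn2⟩, hnp⟩, hn3, _⟩ := hn
    rw [hcop]
    intro p hp hpw hpn
    by_cases hpR : p ∈ R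
    · have h8 := hVR v₀ p hpR
      refine hn3 p hpR ?_
      exact (Nat.modEq_zero_iff_dvd).1
        (((h8.add_right n).symm).trans ((Nat.modEq_zero_iff_dvd).2 hpn))
    · have h8 := hVn v₀ p hp hpw hpR
      have h9 : p ∣ n := (Nat.dvd_add_right h8).1 hpn
      have h10 := (Nat.prime_dvd_prime_iff_eq hp hnp).1 h9
      have h11 := hx2 (s.orderEmbOfFin hsc i)
      omega
  · intro i n hn
    rw [mem_filter] at hn
    exact hn.2.2
  · intro i j hij n hn n' hn'
    rw [mem_filter, hAd, mem_filter, mem_Ioc] at hn hn'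
    have hne : s.orderEmbOfFin hsc i ≠ s.orderEmbOfFin hsc j := by
      intro hcon
      exact hij ((s.orderEmbOfFin hsc).injective hcon)
    have key : ∀ a b : ℕ, a < b → ∀ m m' : ℕ, m ≤ x a + h → x b < m' → h + m ≤ m' := by
      intro a b hab m m' hm hm'
      rw [hxd] at hm hm'
      have h8 : 2 * (a + 1) * h ≤ 2 * b * h := Nat.mul_le_mul_right h (by omega)
      have h9 : 2 * (a + 1) * h = 2 * a * h + 2 * h := by ring
      omega
    have hfin : (h : ℝ) ≤ |(n : ℝ) - n'| := by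
      rcases lt_or_gt_of_ne hne with hlt | hlt
      · have h8 := key _ _ hlt n n' hn.1.1.2 hn'.1.1.1
        have h9 : (h : ℝ) + n ≤ n' := by exact_mod_cast h8
        rw [abs_sub_comm]
        exact (by linarith : (h : ℝ) ≤ n' - n).trans (le_abs_self _)
      · have h8 := key _ _ hlt n' n hn'.1.1.2 hn.1.1.1
        have h9 : (h : ℝ) + n' ≤ n := by exact_mod_cast h8
        exact (by linarith : (h : ℝ) ≤ n - n').trans (le_abs_self _)
    refine le_trans ?_ hfin
    have h8 : min 1 cM / (16 * B) / J * H ≤ 1 / (8 * B) / J * H := by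
      gcongr
      · exact min_le_left _ _
      · norm_num
    refine h8.trans ?_
    rw [div_div, div_mul_eq_mul_div, div_le_iff₀ (by positivity)]
    nlinarith [mul_le_mul_of_nonneg_right hJ'2 hhr.le]
  · intro i
    have h8 := (hg i).2
    have h9 := hlog32 _ (hg i).1
    have h10 : (Yv (s.orderEmbOfFin hsc i) v₀ : ℝ) =
        (((A (s.orderEmbOfFin hsc i)).filter (fun q => (∀ p ∈ R, ¬ p ∣ v₀ + q) ∧
          χ ((V v₀ + q : ℕ) : ZMod (primorial w)) = -1)).card : ℝ) := by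
      rw [hYv]
    rw [← h10]
    refine le_trans ?_ h8
    have h11 : min 1 cM / (16 * B) / J * (H * L2 / (L1 ^ 2 * L3)) ≤
        cM / (16 * B) / J * (H * L2 / (L1 ^ 2 * L3)) := by
      gcongr
      exact min_le_right _ _
    refine h11.trans ?_
    have h12 := rese_alg3 (cM := cM) (H := H) (L2 := L2) hL10.ne' hL30.ne'
      (by positivity : (J : ℝ) ≠ 0) hBp.ne'
    have h13 := rese_alg4 (cM := cM) (H := H) (L2 := L2) hL10.ne' hL30.ne'
      (by positivity : (J' : ℝ) ≠ 0)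
    calc cM / (16 * B) / J * (H * L2 / (L1 ^ 2 * L3))
        = cM / 16 * (H * L2 / (L1 ^ 2 * L3)) / (B * J) := h12
      _ ≤ cM / 16 * (H * L2 / (L1 ^ 2 * L3)) / J' := by
          apply div_le_div_of_nonneg_left (by positivity) (by positivity) hJ'2
      _ = cM / 4 * (H * L2 / (J' * (L1 ^ 2 * L3))) / 4 := h13.symm
      _ ≤ _ := by linarith
  · have hsub : (Icc 1 H).filter (fun h => (V v₀ + h).Coprime (primorial w)) ⊆
        T1.filter (fun q => ∀ p ∈ R, ¬ p ∣ v₀ + q) := by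
      intro n hn
      rw [mem_filter] at hn
      have h8 := (hcop _).1 hn.2
      rw [mem_filter, hT1, mem_filter]
      refine ⟨⟨hn.1, fun p hp hpy hpw hpR hpn => ?_⟩, fun p hp hpn => ?_⟩
      · exact h8 p hp hpw (Dvd.dvd.add (hVn v₀ p hp hpw hpR) hpn)
      · have h9 := hVR v₀ p hp
        refine h8 p (hRp p hp) (hRle' p hp) ?_
        exact (Nat.modEq_zero_iff_dvd).1
          ((h9.add_right n).trans ((Nat.modEq_zero_iff_dvd).2 hpn))
    have h8 : (((Icc 1 H).filter (fun h => (V v₀ + h).Coprime (primorial w))).card : ℝ) ≤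
        (Xv R T1 v₀ : ℝ) := by
      have h9 := Finset.card_le_card hsub
      unfold Xv
      refine (Nat.cast_le.2 h9).trans (le_of_eq ?_)
      congr!
    refine h8.trans ?_
    have h10 : (Xv R T1 v₀ : ℝ) ≤ 2 / c₁ * (Pi' R * T1.card) := by
      have h11 : (Xv R T1 v₀ : ℝ) = 2 / c₁ * (c₁ / 2 * Xv R T1 v₀) := by field_simp
      rw [h11]
      exact mul_le_mul_of_nonneg_left htot hB0.le
    refine h10.trans ?_
    have h12 : Pi' R * (T1.card : ℝ) ≤ 8 * CM * (L2 / (L1 * L3)) * (CS * (H * L2 / L1)) :=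
      mul_le_mul hM2' hT1c (Nat.cast_nonneg _) (by positivity)
    calc 2 / c₁ * (Pi' R * (T1.card : ℝ))
        ≤ 2 / c₁ * (8 * CM * (L2 / (L1 * L3)) * (CS * (H * L2 / L1))) :=
          mul_le_mul_of_nonneg_left h12 hB0.le
      _ = _ := rese_alg5 hL10.ne' hL30.ne' hc₁.ne'

theorem p_RESE (h0 : Stmt_RES) (h1 : Stmt_FM1) (h2 : Stmt_SM2) (h3 : Stmt_PIN) (h4 : Stmt_MEL)
    (h5 : Pool.LGP.Stmt_SRV) (h6 : Stmt_ASL) (_h7 : Stmt_CRV) (h9 : Stmt_SGN) : Stmt_RESE := by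
  obtain ⟨C, c, hC, hc, h⟩ := h0
  obtain ⟨C', c', hC', hc', h'⟩ := rese_main h1 h2 h3 h4 h5 h6 h9
  refine ⟨max C C', min c c', by positivity, by positivity, ?_⟩
  intro J hJ
  have t1 : Tendsto (fun w : ℕ => Real.log w) atTop atTop :=
    Real.tendsto_log_atTop.comp tendsto_natCast_atTop_atTop
  have t2 : Tendsto (fun w : ℕ => Real.log (Real.log w)) atTop atTop :=
    Real.tendsto_log_atTop.comp t1
  have t3 : Tendsto (fun w : ℕ => Real.log (Real.log (Real.log w))) atTop atTop :=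
    Real.tendsto_log_atTop.comp t2
  filter_upwards [h J hJ, h' J hJ, t1.eventually_ge_atTop 1, t2.eventually_ge_atTop 1,
    t3.eventually_ge_atTop 1] with w hw hw' e1 e2 e3 H hH1 hH2 χ hχ
  have hJr : (0 : ℝ) < J := by exact_mod_cast hJ
  have f1 : 0 ≤ (H : ℝ) * Real.log (Real.log w) /
      (Real.log w ^ 2 * Real.log (Real.log (Real.log w))) := by positivity
  have f2 : 0 ≤ (H : ℝ) * Real.log (Real.log w) ^ 2 /
      (Real.log w ^ 2 * Real.log (Real.log (Real.log w))) := by positivity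
  have f3 : (0 : ℝ) ≤ H := Nat.cast_nonneg _
  by_cases hχ1 : χ = 1
  · obtain ⟨v, hv, E, g1, g2, g3, g4, g5⟩ := hw H hH1 hH2
    refine ⟨v, hv, E, g1, g2, fun h => absurd hχ1 h, ?_, ?_, ?_⟩
    · intro i j hij a ha b hb
      refine le_trans ?_ (g3 i j hij a ha b hb)
      apply mul_le_mul_of_nonneg_right _ f3
      exact div_le_div_of_nonneg_right (min_le_left _ _) hJr.le
    · intro i
      refine le_trans ?_ (g4 i)
      apply mul_le_mul_of_nonneg_right _ f1
      exact div_le_div_of_nonneg_right (min_le_left _ _) hJr.le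
    · exact g5.trans (mul_le_mul_of_nonneg_right (le_max_left _ _) f2)
  · obtain ⟨v, hv, E, g1, g2, g6, g3, g4, g5⟩ := hw' H hH1 hH2 χ hχ hχ1
    refine ⟨v, hv, E, g1, g2, fun _ => g6, ?_, ?_, ?_⟩
    · intro i j hij a ha b hb
      refine le_trans ?_ (g3 i j hij a ha b hb)
      apply mul_le_mul_of_nonneg_right _ f3
      exact div_le_div_of_nonneg_right (min_le_right _ _) hJr.le
    · intro i
      refine le_trans ?_ (g4 i)
      apply mul_le_mul_of_nonneg_right _ f1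
      exact div_le_div_of_nonneg_right (min_le_right _ _) hJr.le
    · exact g5.trans (mul_le_mul_of_nonneg_right (le_max_right _ _) f2)

end Pool.LGC
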