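import Pool.Agent.Work.MP_b0c12c_chain.B_RESPb

/-! # Block RESP: residues with many surviving primes in prescribed intervals (helper41) -/

set_option autoImplicit false

namespace Pool.LGC

open Finset Filter
open Pool.LGP

/-- Numerical part: the first moments are large. -/
theorem resp_num {cM δ H L1 L2 L3 P A ly : ℝ} (hcM : 0 < cM) (hδ : 0 < δ) (hH : 0 < H)
    (hL1 : 0 < L1) (hL2 : 0 < L2) (hL3 : 0 < L3) (hly : ly = L1 * L3 / (8 * L2))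
    (hP : cM / ly ≤ P) (hA : δ * H / (8 * L1) ≤ A) :
    cM * δ * (H * L2 / (L1 ^ 2 * L3)) ≤ P * A := by
  have h1 : cM * δ * (H * L2 / (L1 ^ 2 * L3)) = cM / ly * (δ * H / (8 * L1)) := by
    rw [hly]; field_simp
  have hly0 : 0 < ly := by rw [hly]; positivity
  rw [h1]
  exact mul_le_mul hP hA (by positivity) ((by positivity : (0 : ℝ) ≤ cM / ly).trans hP)

/-- Facts about the length. -/
theorem resp_H (δ : ℝ) (hδ : 0 < δ) (H₀ h₀ : ℕ) : ∀ᶠ H : ℕ in atTop, H₀ ≤ H ∧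
    h₀ ≤ ⌊δ * H⌋₊ ∧ δ * H / 2 ≤ (⌊δ * H⌋₊ : ℝ) ∧ (H : ℝ) ≤ (⌊δ * H⌋₊ : ℝ) ^ 2 ∧
    2 ≤ ⌊δ * H⌋₊ := by
  have t0 : Tendsto (fun H : ℕ => (H : ℝ)) atTop atTop := tendsto_natCast_atTop_atTop
  have t1 : Tendsto (fun H : ℕ => δ * (H : ℝ)) atTop atTop := t0.const_mul_atTop hδ
  filter_upwards [eventually_ge_atTop H₀, t1.eventually_ge_atTop (2 : ℝ),
    t1.eventually_ge_atTop (2 + h₀ : ℝ), t0.eventually_ge_atTop (4 / δ ^ 2),
    t1.eventually_ge_atTop (3 : ℝ)] with H a1 a2 a3 a4 a5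
  have hfl : δ * H - 1 < (⌊δ * H⌋₊ : ℝ) := by
    have := Nat.lt_floor_add_one (δ * (H : ℝ)); linarith
  have b1 : δ * H / 2 ≤ (⌊δ * H⌋₊ : ℝ) := by linarith
  refine ⟨a1, ?_, b1, ?_, ?_⟩
  · apply Nat.le_floor; linarith
  · have hH0 : (0 : ℝ) ≤ H := Nat.cast_nonneg H
    have b2 : (δ * H / 2) ^ 2 ≤ (⌊δ * H⌋₊ : ℝ) ^ 2 := by gcongr
    have b3 : (H : ℝ) ≤ (δ * H / 2) ^ 2 := by
      have : 4 ≤ (H : ℝ) * δ ^ 2 := by
        rw [div_le_iff₀ (by positivity)] at a4; exact a4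
      nlinarith
    linarith
  · apply Nat.le_floor; push_cast; linarith

/-- Facts about the smoothness bound. -/
theorem resp_y (w : ℕ) (hw : 2 ≤ w) {L1 L2 L3 : ℝ} (h1 : L1 = Real.log w)
    (h2 : L2 = Real.log L1) (h3 : L3 = Real.log L2) (hL3 : 1 ≤ L3) (hL23 : L3 ≤ L2)
    (hL12 : 8 * L2 ≤ L1) :
    Real.log (yy w) = L1 * L3 / (8 * L2) ∧ yy w ≤ w ∧ 2 ≤ yy w := by
  have hwR : (0 : ℝ) < w := by exact_mod_cast (show 0 < w by omega)
  have e : yy w = Real.exp (L1 * L3 / (8 * L2)) := by rw [h3, h2, h1]; rfl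
  have hL2 : 0 < L2 := by linarith
  refine ⟨by rw [e, Real.log_exp], ?_, ?_⟩
  · rw [e, ← Real.le_log_iff_exp_le hwR, ← h1, div_le_iff₀ (by positivity)]
    nlinarith
  · have h4 : 1 ≤ L1 * L3 / (8 * L2) := by
      rw [le_div_iff₀ (by positivity)]
      nlinarith
    have h9 := Real.add_one_le_exp (L1 * L3 / (8 * L2))
    rw [e]; linarith

/-- The bad set of one interval. -/
theorem resp_bad {C z J : ℝ} (hC : 0 < C) (hz : 0 < z) (hJ : 0 < J) (hzJ : 128 * C * J ≤ z)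
    (N : ℕ) (X : ℕ → ℝ) (P a q : ℝ) (hP : 0 < P) (ha : 0 ≤ a) (hq : q ≤ 4 * a)
    (hm : 32 * J ≤ P * a) (h1 : ∑ v ∈ range N, X v = N * (P * a))
    (h2 : ∑ v ∈ range N, X v ^ 2 ≤ N * (P * a + P ^ 2 * (a ^ 2 + C / z * (a * q)))) :
    (((range N).filter (fun v => X v < P * a / 2)).card : ℝ) ≤ N * (1 / (4 * J)) := by
  have hm0 : 0 < P * a := by
    have : 0 < 32 * J := by positivity
    linarith
  have hs3 : ∑ v ∈ range N, X v ^ 2 ≤
      N * ((P * a) ^ 2 + (P * a + 4 * C / z * (P * a) ^ 2)) := by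
    refine h2.trans (mul_le_mul_of_nonneg_left ?_ (Nat.cast_nonneg N))
    have e1 : P ^ 2 * (C / z * (a * q)) ≤ 4 * C / z * (P * a) ^ 2 := by
      calc P ^ 2 * (C / z * (a * q)) ≤ P ^ 2 * (C / z * (a * (4 * a))) := by gcongr
        _ = 4 * C / z * (P * a) ^ 2 := by ring
    calc P * a + P ^ 2 * (a ^ 2 + C / z * (a * q))
        = (P * a) ^ 2 + (P * a + P ^ 2 * (C / z * (a * q))) := by ring
      _ ≤ (P * a) ^ 2 + (P * a + 4 * C / z * (P * a) ^ 2) := by linarith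
  refine (resp_cheb N X (P * a) _ hm0 h1 hs3).trans
    (mul_le_mul_of_nonneg_left ?_ (Nat.cast_nonneg N))
  generalize P * a = m at hm hm0
  have e1 : 4 * (m + 4 * C / z * m ^ 2) / m ^ 2 = 4 / m + 16 * C / z := by
    field_simp; ring
  rw [e1]
  have e2 : 4 / m ≤ 1 / (8 * J) := by
    rw [div_le_div_iff₀ hm0 (by positivity)]; linarith
  have e3 : 16 * C / z ≤ 1 / (8 * J) := by
    rw [div_le_div_iff₀ hz (by positivity)]; linarith
  have e4 : (1 : ℝ) / (4 * J) = 1 / (8 * J) + 1 / (8 * J) := by field_simp; norm_num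
  linarith

/-- Sizes for one interval. -/
theorem resp_size {δ H h L1 a lH lh : ℝ} (hh : 0 < h)
    (hlh : 0 < lh) (hlH0 : 0 < lH) (hlH : lH ≤ 2 * L1) (hlHh : lH ≤ 2 * lh)
    (hhH : δ * H / 2 ≤ h) (ha : 1 / 2 * (h / lH) ≤ a) :
    δ * H / (8 * L1) ≤ a ∧ h / lh ≤ 4 * a := by
  constructor
  · refine le_trans ?_ ha
    calc δ * H / (8 * L1) = 1 / 2 * ((δ * H / 2) / (2 * L1)) := by ring
      _ ≤ 1 / 2 * (h / lH) := by
        refine mul_le_mul_of_nonneg_left ?_ (by norm_num)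
        exact div_le_div₀ hh.le hhH hlH0 hlH
  · have e1 : 1 / 2 * (h / (2 * lh)) ≤ 1 / 2 * (h / lH) := by
      refine mul_le_mul_of_nonneg_left ?_ (by norm_num)
      exact div_le_div_of_nonneg_left hh.le hlH0 hlHh
    have e2 := e1.trans ha
    have e3 : 1 / 2 * (h / (2 * lh)) = 1 / 4 * (h / lh) := by
      field_simp; norm_num
    rw [e3] at e2
    linarith

/-- The moments are at least `32 J`. -/
theorem resp_m32 {J cM δ L1 L2 L3 w H : ℝ} (hcM : 0 < cM) (hδ : 0 < δ) (hL1 : 0 < L1)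
    (hL3 : 0 < L3) (hL23 : L3 ≤ L2) (hw : 0 ≤ w) (hwH : w ≤ H)
    (hM : 32 * J / (cM * δ) * L1 ^ 2 ≤ w) :
    32 * J ≤ cM * δ * (H * L2 / (L1 ^ 2 * L3)) := by
  have hL2 : 0 < L2 := by linarith
  have hH : 0 ≤ H := by linarith
  have e2 : w / L1 ^ 2 ≤ H * L2 / (L1 ^ 2 * L3) := by
    rw [div_le_div_iff₀ (by positivity) (by positivity)]
    calc w * (L1 ^ 2 * L3) ≤ H * (L1 ^ 2 * L2) := by gcongr
      _ = H * L2 * L1 ^ 2 := by ring
  have e3 : 32 * J / (cM * δ) ≤ w / L1 ^ 2 := by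
    rw [le_div_iff₀ (by positivity)]; exact hM
  have e4 := e3.trans e2
  rw [div_le_iff₀ (by positivity)] at e4
  linarith

/-- The final upper bound. -/
theorem resp_fin {P T CM CS Pz ly L1 L2 L3 H : ℝ} (hL1 : 0 < L1) (hL2 : 0 < L2) (hL3 : 0 < L3)
    (hly : ly = L1 * L3 / (8 * L2)) (hP0 : 0 ≤ P) (hP : P ≤ CM / ly / Pz) (hPz : 0 < Pz)
    (hT0 : 0 ≤ T) (hT : T ≤ CS * (H * L2 / L1)) :
    4 * (P * T) ≤ 32 * CM * CS / Pz * (H * L2 ^ 2 / (L1 ^ 2 * L3)) := by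
  calc 4 * (P * T) ≤ 4 * (CM / ly / Pz * (CS * (H * L2 / L1))) := by
        have h1 : 0 ≤ CM / ly / Pz := hP0.trans hP
        have h2 := mul_le_mul hP hT hT0 h1
        linarith
    _ = 32 * CM * CS / Pz * (H * L2 ^ 2 / (L1 ^ 2 * L3)) := by
        rw [hly]; field_simp; ring

theorem p_RESP (h1 : Stmt_PIG) (h2 : Stmt_BTQ) (h3 : Stmt_TAB) (h4 : Stmt_MEL)
    (h5 : Pool.LGP.Stmt_SRV) (h6 : Stmt_FM1) (h7 : Stmt_CRV) (h8 : Stmt_AVG) : Stmt_RESP := by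
  classical
  intro J hJ
  obtain ⟨C, hC, hsm⟩ := resp_sm3 h8 h2 h3
  obtain ⟨cM, CM, hcM, hCM, hMEL⟩ := h4
  obtain ⟨CS, hCS, hSRV⟩ := h5
  obtain ⟨z, hzdef⟩ : ∃ z : ℕ, z = max 4 ⌈128 * C * J⌉₊ := ⟨_, rfl⟩
  have hz4 : 4 ≤ z := by rw [hzdef]; exact le_max_left _ _
  have hzJ : 128 * C * J ≤ z := by
    rw [hzdef]; exact (Nat.le_ceil _).trans (by exact_mod_cast le_max_right _ _)
  have hJR : (0 : ℝ) < J := by exact_mod_cast hJ
  have hz0 : (0 : ℝ) < z := by exact_mod_cast (show 0 < z by omega)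
  obtain ⟨Pz, hPz⟩ : ∃ Pz : ℝ, Pz = Pi' ((Icc 1 z).filter Nat.Prime) := ⟨_, rfl⟩
  have hPz0 : 0 < Pz := by
    rw [hPz]; exact resp_pi_pos _ (fun p hp => (Finset.mem_filter.mp hp).2)
  refine ⟨32 * CM * CS / Pz, by positivity, fun δ hδ => ⟨cM * δ / 2, by positivity, ?_⟩⟩
  obtain ⟨H₀, hPIG⟩ := h1 δ hδ
  obtain ⟨h₀, hh₀⟩ := eventually_atTop.mp (hsm z hz4)
  obtain ⟨H₁, hH₁⟩ := eventually_atTop.mp (resp_H δ hδ H₀ h₀)
  have hM := resp_asy (32 * J / (cM * δ)) H₁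
  clear hzdef
  filter_upwards [hM, hSRV] with w hw hSRVw
  clear hM hSRV hsm h1 h2 h3
  obtain ⟨hwH₁, hw2, hL3, hL23, hL12, hLsq, hLM⟩ := hw
  intro H hH4 hHle x hx
  obtain ⟨k1, k2, k3, k4, k5⟩ := hH₁ H (by omega)
  clear hH₁
  obtain ⟨L1, hL1d⟩ : ∃ L1 : ℝ, L1 = Real.log w := ⟨_, rfl⟩
  obtain ⟨L2, hL2d⟩ : ∃ L2 : ℝ, L2 = Real.log L1 := ⟨_, rfl⟩
  obtain ⟨L3, hL3d⟩ : ∃ L3 : ℝ, L3 = Real.log L2 := ⟨_, rfl⟩
  rw [← hL1d] at hLM hLsq hL12 hL23 hL3 hHle hSRVw ⊢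
  rw [← hL2d] at hL12 hL23 hL3 hSRVw ⊢
  rw [← hL3d] at hL23 hL3 ⊢
  have hL3p : 0 < L3 := lt_of_lt_of_le one_pos hL3
  have hL2p : 1 ≤ L2 := hL3.trans hL23
  have hL2q : 0 < L2 := lt_of_lt_of_le one_pos hL2p
  have hL1p : 8 ≤ L1 := by linarith only [hL12, hL2p]
  have hL1q : 0 < L1 := by linarith only [hL1p]
  have hwR : (0 : ℝ) < w := by exact_mod_cast (show 0 < w by omega)
  have hwH : w ≤ H := by omega
  have hHR : (0 : ℝ) < H := by exact_mod_cast (show 0 < H by omega)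
  have hwHR : (w : ℝ) ≤ H := by exact_mod_cast hwH
  obtain ⟨hh, hhd⟩ : ∃ hh : ℕ, hh = ⌊δ * H⌋₊ := ⟨_, rfl⟩
  rw [← hhd] at k2 k3 k4 k5 hx ⊢
  have hhR : (0 : ℝ) < hh := by exact_mod_cast (show 0 < hh by omega)
  have hhlog : 0 < Real.log (hh : ℝ) := Real.log_pos (by exact_mod_cast (show 1 < hh by omega))
  -- the smoothness bound
  obtain ⟨hlogy, hyw, hy2⟩ := resp_y w hw2 hL1d hL2d hL3d hL3 hL23 hL12
  obtain ⟨y, hyd⟩ : ∃ y : ℝ, y = yy w := ⟨_, rfl⟩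
  rw [← hyd] at hlogy hyw hy2 hSRVw
  -- the set of primes
  obtain ⟨U, hU⟩ : ∃ U : Finset ℕ, U = (Icc 1 ⌊y⌋₊).filter Nat.Prime := ⟨_, rfl⟩
  have hUp : ∀ p ∈ U, p.Prime := fun p hp => by
    rw [hU] at hp; exact (Finset.mem_filter.mp hp).2
  obtain ⟨R, hR⟩ : ∃ R : Finset ℕ, R = U.filter (fun p => z < p) := ⟨_, rfl⟩
  have hRU : R ⊆ U := by rw [hR]; exact Finset.filter_subset _ _
  have hRp : ∀ p ∈ R, p.Prime := fun p hp => hUp p (hRU hp)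
  have hRmem : ∀ p : ℕ, p ∈ R ↔ p.Prime ∧ z < p ∧ (p : ℝ) ≤ y := by
    intro p
    rw [hR, Finset.mem_filter, hU, Finset.mem_filter, Finset.mem_Icc,
      Nat.le_floor_iff (le_trans (by norm_num) hy2)]
    constructor
    · rintro ⟨⟨⟨_, a⟩, b⟩, c⟩; exact ⟨b, c, a⟩
    · rintro ⟨a, b, c⟩; exact ⟨⟨⟨a.one_le, c⟩, a⟩, b⟩
  have hRw : ∀ p ∈ R, p ≤ w := by
    intro p hp
    have := ((hRmem p).mp hp).2.2
    exact_mod_cast this.trans hyw
  have hMy := hMEL y hy2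
  rw [← hU] at hMy
  have hPlow : cM / Real.log y ≤ Pi' R := hMy.1.trans (resp_pi_mono R U hRU hUp)
  have hPup : Pi' R ≤ CM / Real.log y / Pz := by
    have := resp_pi_up U z hUp
    rw [← hPz, ← hR] at this
    exact this.trans (div_le_div_of_nonneg_right hMy.2 hPz0.le)
  have hPpos : 0 < Pi' R := resp_pi_pos R hRp
  obtain ⟨N, hN⟩ : ∃ N : ℕ, N = ∏ p ∈ R, p := ⟨_, rfl⟩
  have hNpos : 0 < N := by rw [hN]; exact Finset.prod_pos fun p hp => (hRp p hp).pos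
  -- the primes of the intervals
  obtain ⟨A, hA⟩ : ∃ A : Fin J → Finset ℕ, ∀ i, A i = (Ioc (x i) (x i + hh)).filter Nat.Prime :=
    ⟨_, fun i => rfl⟩
  have hxH : ∀ i, x i ≤ H := fun i => by have := (hx i).2; omega
  have hlogH : Real.log (H : ℝ) ≤ 2 * L1 := by
    have e1 : (H : ℝ) ≤ (w : ℝ) ^ 2 := by
      calc (H : ℝ) ≤ w * L1 ^ 2 := hHle
        _ ≤ w * w := mul_le_mul_of_nonneg_left hLsq hwR.le
        _ = (w : ℝ) ^ 2 := (sq _).symm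
    calc Real.log (H : ℝ) ≤ Real.log ((w : ℝ) ^ 2) := Real.log_le_log hHR e1
      _ = 2 * L1 := by rw [Real.log_pow, hL1d]; norm_num
  have hlogH0 : 0 < Real.log (H : ℝ) :=
    lt_of_lt_of_le hL1q (by rw [hL1d]; exact Real.log_le_log hwR hwHR)
  have hlogHh : Real.log (H : ℝ) ≤ 2 * Real.log hh := by
    calc Real.log (H : ℝ) ≤ Real.log ((hh : ℝ) ^ 2) := Real.log_le_log hHR k4
      _ = 2 * Real.log hh := by rw [Real.log_pow]; norm_num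
  have hAlow : ∀ i, 1 / 2 * ((hh : ℝ) / Real.log H) ≤ ((A i).card : ℝ) := by
    intro i
    have := hPIG H (x i) k1 (hxH i)
    rw [← hhd, ← hA i] at this
    exact this
  have hAs := fun i => resp_size hhR hhlog hlogH0 hlogH hlogHh k3 (hAlow i)
  obtain ⟨F, hF⟩ : ∃ F : ℝ, F = H * L2 / (L1 ^ 2 * L3) := ⟨_, rfl⟩
  have hmlow : ∀ i, cM * δ * F ≤ Pi' R * ((A i).card : ℝ) := fun i => by
    rw [hF]; exact resp_num hcM hδ hHR hL1q hL2q hL3p hlogy hPlow (hAs i).1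
  have hF32 : 32 * J ≤ cM * δ * F := by
    rw [hF]; exact resp_m32 hcM hδ hL1q hL3p hL23 hwR.le hwHR hLM
  -- the bad sets
  obtain ⟨B, hB⟩ : ∃ B : Fin J → Finset ℕ, ∀ i, B i =
    (range N).filter (fun v => (Xv R (A i) v : ℝ) < Pi' R * ((A i).card : ℝ) / 2) :=
    ⟨_, fun i => rfl⟩
  have hBc : ∀ i, ((B i).card : ℝ) ≤ N * (1 / (4 * J)) := by
    intro i
    have hs1 := h6 R (A i) hRp
    have hs2 := hh₀ hh k2 (x i) R (fun p hp => ⟨((hRmem p).mp hp).1, ((hRmem p).mp hp).2.1⟩)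
    rw [← hN] at hs1
    rw [← hA i, ← hN] at hs2
    rw [hB i]
    exact resp_bad hC hz0 hJR hzJ N (fun v => (Xv R (A i) v : ℝ)) (Pi' R) ((A i).card : ℝ)
      ((hh : ℝ) / Real.log hh) hPpos (Nat.cast_nonneg _) (hAs i).2 (hF32.trans (hmlow i)) hs1 hs2
  -- the total
  obtain ⟨T₁, hT₁⟩ : ∃ T₁ : Finset ℕ, T₁ = (Icc 1 H).filter
    (fun n => ∀ p : ℕ, p.Prime → y < p → p ≤ w → ¬ p ∣ n) := ⟨_, rfl⟩
  have hT1c : (T₁.card : ℝ) ≤ CS * (H * L2 / L1) := by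
    refine hSRVw H T₁ hwH ?_ ?_ ?_
    · refine hHle.trans (mul_le_mul_of_nonneg_left ?_ hwR.le)
      exact pow_le_pow_right₀ (by linarith only [hL1p]) (by norm_num)
    · rw [hT₁]; exact Finset.filter_subset _ _
    · intro n hn p hp hyp hpw
      rw [hT₁] at hn
      exact (Finset.mem_filter.mp hn).2 p hp hyp hpw
  have h1T : 1 ∈ T₁ := by
    rw [hT₁, Finset.mem_filter]
    refine ⟨Finset.mem_Icc.mpr ⟨le_rfl, by omega⟩, fun p hp _ _ hdvd => ?_⟩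
    exact hp.one_lt.ne' (Nat.dvd_one.mp hdvd)
  have hT1p : (0 : ℝ) < (T₁.card : ℝ) := by
    exact_mod_cast Finset.card_pos.mpr ⟨1, h1T⟩
  obtain ⟨μ, hμ⟩ : ∃ μ : ℝ, μ = Pi' R * (T₁.card : ℝ) := ⟨_, rfl⟩
  have hμ0 : 0 < μ := by rw [hμ]; exact mul_pos hPpos hT1p
  have hs3 := h6 R T₁ hRp
  rw [← hN, ← hμ] at hs3
  have hB0 := resp_mark N (fun v => (Xv R T₁ v : ℝ)) μ hμ0 (fun v => Nat.cast_nonneg _) hs3
  obtain ⟨v₀, hv₀N, hv₀B, hv₀⟩ := resp_sel N J hNpos B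
    ((range N).filter (fun v => 4 * μ < (Xv R T₁ v : ℝ))) hB0 hBc
  obtain ⟨v, hv, hva, hvb⟩ := resp_lift h7 w z y v₀ R hRmem hRw
  refine ⟨v, hv, ?_, ?_⟩
  · intro i
    have e1 : Pi' R * ((A i).card : ℝ) / 2 ≤ (Xv R (A i) v₀ : ℝ) := by
      by_contra hc
      apply hv₀ i
      rw [hB i]
      exact Finset.mem_filter.mpr ⟨Finset.mem_range.mpr hv₀N, not_le.mp hc⟩
    have e2 : (Xv R (A i) v₀ : ℝ) ≤ (((Ioc (x i) (x i + hh)).filter
          (fun h => (v + h).Coprime (primorial w))).card : ℝ) := by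
      unfold Xv
      refine Nat.cast_le.mpr (Finset.card_le_card ?_)
      intro q hq
      rw [Finset.mem_filter, hA i] at hq
      have hq1 := Finset.mem_filter.mp hq.1
      rw [Finset.mem_filter]
      refine ⟨hq1.1, hva q hq1.2 ?_ hq.2⟩
      have := (Finset.mem_Ioc.mp hq1.1).1
      have := (hx i).1
      omega
    have e3 := hmlow i
    rw [← hF]
    have e4 : cM * δ / 2 * F = cM * δ * F / 2 := by ring
    rw [e4]
    exact le_trans (by linarith only [e3]) (e1.trans e2)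
  · have e1 : (((Icc 1 H).filter (fun h => (v + h).Coprime (primorial w))).card : ℝ) ≤
        (Xv R T₁ v₀ : ℝ) := by
      unfold Xv
      refine Nat.cast_le.mpr (Finset.card_le_card ?_)
      intro n hn
      rw [Finset.mem_filter] at hn
      have := hvb n hn.2
      rw [Finset.mem_filter, hT₁, Finset.mem_filter]
      exact ⟨⟨hn.1, this.2⟩, this.1⟩
    have e2 : (Xv R T₁ v₀ : ℝ) ≤ 4 * μ := by
      by_contra hc
      exact hv₀B (Finset.mem_filter.mpr ⟨Finset.mem_range.mpr hv₀N, not_le.mp hc⟩)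
    refine e1.trans (e2.trans ?_)
    rw [hμ]
    exact resp_fin hL1q hL2q hL3p hlogy hPpos.le hPup hPz0 hT1p.le hT1c

end Pool.LGC
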