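import Pool.Agent.Work.MP_b0c12c_chain.InterfaceL

/-! # Block RESP, part a: second moments with large primes (helper41) -/

set_option autoImplicit false

namespace Pool.LGC

open Finset Filter
open Pool.LGP

theorem resp_loc {p : ℕ} (hp : p.Prime) (P : Prop) [Decidable P] :
    ((p - (if P then 1 else 2) : ℕ) : ℝ) ≤
      (p : ℝ) * (1 - 1 / (p : ℝ)) ^ 2 * (1 + if P then 1 / ((p : ℝ) - 1) else 0) := by
  have h2 : (2 : ℝ) ≤ p := by exact_mod_cast hp.two_le
  have hp0 : (0 : ℝ) < p := by linarith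
  have hp1 : (p : ℝ) - 1 ≠ 0 := by linarith
  split_ifs with h
  · rw [Nat.cast_sub hp.one_le]
    apply le_of_eq
    push_cast
    field_simp
    ring
  · rw [Nat.cast_sub hp.two_le]
    have e : (p : ℝ) * (1 - 1 / (p : ℝ)) ^ 2 * (1 + 0) = (p : ℝ) - 2 + 1 / p := by
      field_simp; ring
    rw [e]
    have : (0 : ℝ) ≤ 1 / p := by positivity
    push_cast
    linarith

/-- The weight of a pair. -/
noncomputable def rw2 (R : Finset ℕ) (q q' : ℕ) : ℝ :=
  ∑ T ∈ R.powerset, if (∀ p ∈ T, q ≡ q' [MOD p]) then ∏ p ∈ T, (1 / ((p : ℝ) - 1)) else 0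

theorem resp_pair (R : Finset ℕ) (hR : ∀ p ∈ R, p.Prime) (q q' : ℕ) :
    ((∏ p ∈ R, (p - if q ≡ q' [MOD p] then 1 else 2) : ℕ) : ℝ) ≤
      ((∏ p ∈ R, p : ℕ) : ℝ) * Pi' R ^ 2 * rw2 R q q' := by
  have e : ((∏ p ∈ R, p : ℕ) : ℝ) * Pi' R ^ 2 * rw2 R q q' =
      ∏ p ∈ R, ((p : ℝ) * (1 - 1 / (p : ℝ)) ^ 2 *
        (1 + if q ≡ q' [MOD p] then 1 / ((p : ℝ) - 1) else 0)) := by
    rw [Finset.prod_mul_distrib, Finset.prod_mul_distrib, Finset.prod_pow, prod_one_add]
    unfold rw2 Pi'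
    push_cast
    congr 1
    exact Finset.sum_congr rfl fun T _ => prod_ite_zero.symm
  rw [e]
  push_cast
  exact Finset.prod_le_prod (fun p _ => by positivity) fun p hp => resp_loc (hR p hp) _

theorem resp_sq (hA : Stmt_AVG) (R A : Finset ℕ) (hR : ∀ p ∈ R, p.Prime) :
    ∑ v ∈ range (∏ p ∈ R, p), (Xv R A v : ℝ) ^ 2 ≤
      ((∏ p ∈ R, p : ℕ) : ℝ) * (Pi' R * A.card + Pi' R ^ 2 *
        ∑ q ∈ A, ∑ q' ∈ A.erase q, rw2 R q q') := by
  classical
  have e1 : ∀ v, (Xv R A v : ℝ) ^ 2 = ∑ q ∈ A, ∑ q' ∈ A,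
      (if (∀ p ∈ R, ¬ p ∣ v + q) ∧ (∀ p ∈ R, ¬ p ∣ v + q') then (1 : ℝ) else 0) := by
    intro v
    unfold Xv
    rw [Finset.card_filter]
    push_cast
    rw [sq, Finset.sum_mul_sum]
    refine Finset.sum_congr rfl fun q _ => Finset.sum_congr rfl fun q' _ => ?_
    by_cases h1 : ∀ p ∈ R, ¬ p ∣ v + q
    · by_cases h2 : ∀ p ∈ R, ¬ p ∣ v + q'
      · rw [if_pos h1, if_pos h2, if_pos ⟨h1, h2⟩, one_mul]
      · rw [if_neg h2, mul_zero]
        exact (if_neg (show ¬((∀ p ∈ R, ¬ p ∣ v + q) ∧ (∀ p ∈ R, ¬ p ∣ v + q')) from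
          fun h => h2 h.2)).symm
    · rw [if_neg h1, zero_mul]
      exact (if_neg (show ¬((∀ p ∈ R, ¬ p ∣ v + q) ∧ (∀ p ∈ R, ¬ p ∣ v + q')) from
        fun h => h1 h.1)).symm
  simp only [e1]
  rw [Finset.sum_comm]
  have e2 : ∀ q ∈ A, ∑ v ∈ range (∏ p ∈ R, p), ∑ q' ∈ A,
      (if (∀ p ∈ R, ¬ p ∣ v + q) ∧ (∀ p ∈ R, ¬ p ∣ v + q') then (1 : ℝ) else 0) ≤
      ((∏ p ∈ R, p : ℕ) : ℝ) * (Pi' R + Pi' R ^ 2 * ∑ q' ∈ A.erase q, rw2 R q q') := by
    intro q hq
    rw [Finset.sum_comm, ← Finset.add_sum_erase A _ hq, mul_add, Finset.mul_sum, Finset.mul_sum]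
    refine add_le_add ?_ (Finset.sum_le_sum fun q' _ => ?_)
    · have h1 := (hA R hR q q).1
      have h3 : ∑ v ∈ range (∏ p ∈ R, p),
          (if (∀ p ∈ R, ¬ p ∣ v + q) ∧ (∀ p ∈ R, ¬ p ∣ v + q) then (1 : ℝ) else 0) =
          ((∏ p ∈ R, (p - 1) : ℕ) : ℝ) := by
        rw [← h1, Finset.card_filter]
        push_cast
        refine Finset.sum_congr rfl fun v _ => ?_
        simp only [and_self]
      rw [h3]
      unfold Pi'
      push_cast
      rw [← Finset.prod_mul_distrib]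
      refine le_of_eq (Finset.prod_congr rfl fun p hp => ?_)
      have hp' := hR p hp
      rw [Nat.cast_sub hp'.one_le]
      have : (p : ℝ) ≠ 0 := by exact_mod_cast hp'.ne_zero
      push_cast
      field_simp
    · have h1 := (hA R hR q q').2
      have h3 : ∑ v ∈ range (∏ p ∈ R, p),
          (if (∀ p ∈ R, ¬ p ∣ v + q) ∧ (∀ p ∈ R, ¬ p ∣ v + q') then (1 : ℝ) else 0) =
          ((∏ p ∈ R, (p - if q ≡ q' [MOD p] then 1 else 2) : ℕ) : ℝ) := by
        rw [← h1, Finset.card_filter]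
        push_cast
        rfl
      rw [h3, ← mul_assoc]
      exact resp_pair R hR q q'
  refine (Finset.sum_le_sum e2).trans (le_of_eq ?_)
  rw [← Finset.mul_sum, Finset.sum_add_distrib, Finset.sum_const, ← Finset.mul_sum, nsmul_eq_mul]
  ring

/-- Simultaneous congruences. -/
theorem resp_modEq (T : Finset ℕ) (hT : ∀ p ∈ T, p.Prime) (q q' : ℕ)
    (h : ∀ p ∈ T, q ≡ q' [MOD p]) : q ≡ q' [MOD ∏ p ∈ T, p] := by
  wlog hle : q ≤ q' generalizing q q' with H
  · exact (H q' q (fun p hp => (h p hp).symm) (le_of_not_ge hle)).symm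
  rw [Nat.modEq_iff_dvd' hle]
  exact Finset.prod_primes_dvd _ (fun p hp => (hT p hp).prime)
    fun p hp => (Nat.modEq_iff_dvd' hle).mp (h p hp)

theorem resp_totient (T : Finset ℕ) (hT : ∀ p ∈ T, p.Prime) :
    (((∏ p ∈ T, p).totient : ℕ) : ℝ) = ∏ p ∈ T, ((p : ℝ) - 1) := by
  classical
  induction T using Finset.induction_on with
  | empty => simp
  | insert a T ha ih =>
    have hT' : ∀ p ∈ T, p.Prime := fun p hp => hT p (Finset.mem_insert_of_mem hp)
    have haP : a.Prime := hT a (Finset.mem_insert_self a T)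
    rw [Finset.prod_insert ha, Finset.prod_insert ha, Nat.totient_mul, Nat.totient_prime haP]
    · rw [Nat.cast_mul, ih hT', Nat.cast_sub haP.one_le]; push_cast; ring
    · refine Nat.Coprime.prod_right fun p hp => ?_
      exact (Nat.coprime_primes haP (hT' p hp)).mpr (fun h => ha (h ▸ hp))

/-- Counting the other primes of an interval in the residue class of one of them. -/
theorem resp_count {C : ℝ} (hB : ∀ d x h c : ℕ, 0 < d → d ^ 2 ≤ h → 2 ≤ h →
    (((Ioc x (x + h)).filter (fun q => q.Prime ∧ q ≡ c [MOD d])).card : ℝ) ≤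
      C * (h / (d.totient * Real.log h))) (hC : 0 < C) (x h : ℕ) (h2 : 2 ≤ h) (T : Finset ℕ)
    (hT : ∀ p ∈ T, p.Prime) (q : ℕ) (hq : q ∈ (Ioc x (x + h)).filter Nat.Prime) :
    (((((Ioc x (x + h)).filter Nat.Prime).erase q).filter
      (fun q' => ∀ p ∈ T, q ≡ q' [MOD p])).card : ℝ) ≤
      C * (h / Real.log h) * (∏ p ∈ T, (1 / ((p : ℝ) - 1))) +
        (h : ℝ) ^ (3 / 4 : ℝ) * ∏ p ∈ T, (1 / √(p : ℝ)) := by
  classical
  have hT1 : ∀ p ∈ T, (0 : ℝ) < (p : ℝ) - 1 := fun p hp => by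
    have : (2 : ℝ) ≤ p := by exact_mod_cast (hT p hp).two_le
    linarith
  have hT0 : ∀ p ∈ T, (0 : ℝ) < (p : ℝ) := fun p hp => by
    exact_mod_cast (hT p hp).pos
  set d : ℕ := ∏ p ∈ T, p with hd
  have hd0 : 0 < d := Finset.prod_pos fun p hp => (hT p hp).pos
  have hlog : 0 < Real.log (h : ℝ) := Real.log_pos (by exact_mod_cast (show 1 < h by omega))
  have hh0 : (0 : ℝ) < h := by exact_mod_cast (show 0 < h by omega)
  have hsub : (((Ioc x (x + h)).filter Nat.Prime).erase q).filter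
      (fun q' => ∀ p ∈ T, q ≡ q' [MOD p]) ⊆
      ((Ioc x (x + h)).filter (fun n => n.Prime ∧ n ≡ q [MOD d])).erase q := by
    intro n hn
    rw [Finset.mem_filter, Finset.mem_erase, Finset.mem_filter] at hn
    rw [Finset.mem_erase, Finset.mem_filter]
    exact ⟨hn.1.1, hn.1.2.1, hn.1.2.2, (resp_modEq T hT q n hn.2).symm⟩
  have hp1 : 0 ≤ ∏ p ∈ T, (1 / ((p : ℝ) - 1)) :=
    Finset.prod_nonneg fun p hp => (by have := hT1 p hp; positivity)
  have hp2 : 0 ≤ ∏ p ∈ T, (1 / √(p : ℝ)) := Finset.prod_nonneg fun p _ => by positivity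
  by_cases hdh : d ^ 2 ≤ h
  · have h1 : (((((Ioc x (x + h)).filter Nat.Prime).erase q).filter
      (fun q' => ∀ p ∈ T, q ≡ q' [MOD p])).card : ℝ) ≤
        C * (h / Real.log h) * (∏ p ∈ T, (1 / ((p : ℝ) - 1))) := by
      have := hB d x h q hd0 hdh h2
      rw [hd, resp_totient T hT, ← hd] at this
      have h3 := Finset.card_le_card (hsub.trans (Finset.erase_subset _ _))
      have h3' : (((((Ioc x (x + h)).filter Nat.Prime).erase q).filter
        (fun q' => ∀ p ∈ T, q ≡ q' [MOD p])).card : ℝ) ≤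
          (((Ioc x (x + h)).filter (fun n => n.Prime ∧ n ≡ q [MOD d])).card : ℝ) := by
        exact_mod_cast h3
      refine h3'.trans (this.trans (le_of_eq ?_))
      have : ∏ p ∈ T, (1 / ((p : ℝ) - 1)) = (∏ p ∈ T, ((p : ℝ) - 1))⁻¹ := by
        rw [← Finset.prod_inv_distrib]; simp
      rw [this]
      have hne : (∏ p ∈ T, ((p : ℝ) - 1)) ≠ 0 := (Finset.prod_pos hT1).ne'
      field_simp
    have : (0 : ℝ) ≤ (h : ℝ) ^ (3 / 4 : ℝ) * ∏ p ∈ T, (1 / √(p : ℝ)) := by positivity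
    linarith
  · push Not at hdh
    have hdR : (0 : ℝ) < (d : ℝ) := by exact_mod_cast hd0
    have h1 : (((((Ioc x (x + h)).filter Nat.Prime).erase q).filter
      (fun q' => ∀ p ∈ T, q ≡ q' [MOD p])).card : ℝ) ≤ h / d := by
      have hqm := Finset.mem_filter.mp hq
      have hsub2 : (((Ioc x (x + h)).filter Nat.Prime).erase q).filter
          (fun q' => ∀ p ∈ T, q ≡ q' [MOD p]) ⊆
          ((Ioc x (x + h)).filter (fun n => n ≡ q [MOD d])).erase q := by
        refine hsub.trans (Finset.erase_subset_erase q ?_)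
        intro n hn
        rw [Finset.mem_filter] at hn ⊢
        exact ⟨hn.1, hn.2.2⟩
      have hqmem : q ∈ (Ioc x (x + h)).filter (fun n => n ≡ q [MOD d]) :=
        Finset.mem_filter.mpr ⟨hqm.1, Nat.ModEq.refl q⟩
      have h3 := Finset.card_le_card hsub2
      rw [Finset.card_erase_of_mem hqmem] at h3
      have h4 := Nat.Ioc_filter_modEq_card x (x + h) hd0 q
      have h5 : (((Ioc x (x + h)).filter (fun n => n ≡ q [MOD d])).card : ℝ) ≤ h / d + 1 := by
        have h6 : ((((Ioc x (x + h)).filter (fun n => n ≡ q [MOD d])).card : ℤ) : ℝ) ≤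
            h / d + 1 := by
          rw [h4]
          push_cast
          refine max_le ?_ (by positivity)
          have a1 := Int.floor_le ((((x + h : ℕ) : ℚ) - q) / d)
          have a2 := Int.lt_floor_add_one (((x : ℚ) - q) / d)
          have a3 : ((⌊(((x + h : ℕ) : ℚ) - q) / d⌋ : ℤ) : ℚ) - (⌊((x : ℚ) - q) / d⌋ : ℤ) ≤
              (h : ℚ) / d + 1 := by
            have : ((((x + h : ℕ) : ℚ) - q) / d) - (((x : ℚ) - q) / d) = h / d := by
              push_cast; ring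
            linarith
          push_cast at a3
          have a4 := (Rat.cast_le (K := ℝ)).mpr a3
          push_cast at a4
          exact a4
        exact_mod_cast h6
      have hpos : 1 ≤ ((Ioc x (x + h)).filter (fun n => n ≡ q [MOD d])).card :=
        Finset.card_pos.mpr ⟨q, hqmem⟩
      have h7 : (((((Ioc x (x + h)).filter Nat.Prime).erase q).filter
        (fun q' => ∀ p ∈ T, q ≡ q' [MOD p])).card : ℝ) ≤
          ((((Ioc x (x + h)).filter (fun n => n ≡ q [MOD d])).card - 1 : ℕ) : ℝ) := by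
        exact_mod_cast h3
      rw [Nat.cast_sub hpos] at h7
      push_cast at h7
      linarith
    have h8 : (h : ℝ) / d ≤ (h : ℝ) ^ (3 / 4 : ℝ) * ∏ p ∈ T, (1 / √(p : ℝ)) := by
      have e1 : ∏ p ∈ T, (1 / √(p : ℝ)) = (d : ℝ) ^ (-(1 / 2) : ℝ) := by
        rw [hd]
        push_cast
        rw [← Real.finsetProd_rpow _ _ (fun p hp => (hT0 p hp).le)]
        refine Finset.prod_congr rfl fun p hp => ?_
        rw [Real.rpow_neg (hT0 p hp).le, Real.sqrt_eq_rpow, one_div]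
      rw [e1, div_le_iff₀ hdR, mul_assoc]
      have e2 : (d : ℝ) ^ (-(1 / 2) : ℝ) * d = (d : ℝ) ^ (1 / 2 : ℝ) := by
        nth_rewrite 2 [← Real.rpow_one (d : ℝ)]
        rw [← Real.rpow_add hdR]; norm_num
      have e3 : (h : ℝ) = (h : ℝ) ^ (3 / 4 : ℝ) * (h : ℝ) ^ (1 / 4 : ℝ) := by
        rw [← Real.rpow_add hh0]; norm_num
      have e4 : (h : ℝ) ^ (1 / 4 : ℝ) ≤ (d : ℝ) ^ (1 / 2 : ℝ) := by
        have : (d : ℝ) ^ (1 / 2 : ℝ) = ((d : ℝ) ^ 2) ^ (1 / 4 : ℝ) := by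
          rw [← Real.rpow_natCast, ← Real.rpow_mul hdR.le]; norm_num
        rw [this]
        refine Real.rpow_le_rpow hh0.le ?_ (by norm_num)
        exact_mod_cast hdh.le
      rw [e2]
      nth_rewrite 1 [e3]
      exact mul_le_mul_of_nonneg_left e4 (by positivity)
    have : (0 : ℝ) ≤ C * (h / Real.log h) * (∏ p ∈ T, (1 / ((p : ℝ) - 1))) := by positivity
    linarith

/-- Products over large primes. -/
theorem resp_prod (hTAB : Stmt_TAB) (z : ℕ) (hz : 4 ≤ z) (R : Finset ℕ)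
    (hR : ∀ p ∈ R, p.Prime ∧ z < p) :
    ∑ T ∈ R.powerset, ∏ p ∈ T, (1 / ((p : ℝ) - 1)) ^ 2 ≤ (1 : ℝ) + 8 / (z : ℝ) ∧
    ∑ T ∈ R.powerset, ∏ p ∈ T, (1 / ((p : ℝ) - 1) * (1 / √(p : ℝ))) ≤ Real.exp 8 := by
  have hz0 : (4 : ℝ) ≤ z := by exact_mod_cast hz
  have h1 := hTAB R z 1 (by omega) (by norm_num) (fun p hp => (hR p hp).2)
  have hp2 : ∀ p ∈ R, (2 : ℝ) ≤ p := fun p hp => by exact_mod_cast (hR p hp).1.two_le
  rw [← prod_one_add, ← prod_one_add]
  constructor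
  · have e1 : ∏ p ∈ R, (1 + (1 / ((p : ℝ) - 1)) ^ 2) ≤ Real.exp (4 / z) := by
      calc ∏ p ∈ R, (1 + (1 / ((p : ℝ) - 1)) ^ 2)
          ≤ ∏ p ∈ R, Real.exp (4 * (1 / (p : ℝ) ^ 2)) := by
            refine Finset.prod_le_prod (fun p _ => by positivity) fun p hp => ?_
            have h2 := hp2 p hp
            have h3 : (1 / ((p : ℝ) - 1)) ^ 2 ≤ 4 * (1 / (p : ℝ) ^ 2) := by
              rw [div_pow, one_pow, mul_one_div, div_le_div_iff₀ (by nlinarith) (by positivity)]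
              nlinarith
            calc 1 + (1 / ((p : ℝ) - 1)) ^ 2 ≤ 4 * (1 / (p : ℝ) ^ 2) + 1 := by linarith
              _ ≤ Real.exp (4 * (1 / (p : ℝ) ^ 2)) := Real.add_one_le_exp _
        _ = Real.exp (4 * ∑ p ∈ R, 1 / (p : ℝ) ^ 2) := by
            rw [← Real.exp_sum, Finset.mul_sum]
        _ ≤ Real.exp (4 / z) := by
            apply Real.exp_le_exp.mpr
            have := h1.2
            calc 4 * ∑ p ∈ R, 1 / (p : ℝ) ^ 2 ≤ 4 * (1 / (z : ℝ)) := by gcongr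
              _ = 4 / (z : ℝ) := by ring
    have e2 : |Real.exp (4 / z) - 1| ≤ 2 * |(4 : ℝ) / z| := by
      apply Real.abs_exp_sub_one_le
      rw [abs_of_nonneg (by positivity), div_le_one (by linarith)]
      exact hz0
    rw [abs_of_nonneg (show (0 : ℝ) ≤ 4 / z by positivity)] at e2
    have e3 := (abs_le.mp e2).2
    have e4 : 2 * ((4 : ℝ) / z) = 8 / z := by ring
    linarith
  · have e1 : ∏ p ∈ R, (1 + 1 / ((p : ℝ) - 1) * (1 / √(p : ℝ))) =
        ∏ p ∈ R, (1 + 1 / (((p : ℝ) - 1) * √(p : ℝ))) := by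
      refine Finset.prod_congr rfl fun p _ => ?_
      rw [one_div_mul_one_div]
    rw [e1]
    refine h1.1.trans (Real.exp_le_exp.mpr ?_)
    rw [mul_one, div_le_iff₀ (Real.sqrt_pos.mpr (by linarith))]
    have : (1 : ℝ) ≤ √(z : ℝ) := by
      rw [Real.one_le_sqrt]; linarith
    linarith

/-- The pair sum. -/
theorem resp_pairs {C : ℝ} (hB : ∀ d x h c : ℕ, 0 < d → d ^ 2 ≤ h → 2 ≤ h →
    (((Ioc x (x + h)).filter (fun q => q.Prime ∧ q ≡ c [MOD d])).card : ℝ) ≤
      C * (h / (d.totient * Real.log h))) (hC : 0 < C) (hTAB : Stmt_TAB) (z : ℕ) (hz : 4 ≤ z)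
    (R : Finset ℕ) (hR : ∀ p ∈ R, p.Prime ∧ z < p) (x h : ℕ) (h2 : 2 ≤ h) :
    ∑ q ∈ (Ioc x (x + h)).filter Nat.Prime, ∑ q' ∈ ((Ioc x (x + h)).filter Nat.Prime).erase q,
      rw2 R q q' ≤ (((Ioc x (x + h)).filter Nat.Prime).card : ℝ) ^ 2 +
        (((Ioc x (x + h)).filter Nat.Prime).card : ℝ) * (C * (h / Real.log h) * (8 / z) +
          (h : ℝ) ^ (3 / 4 : ℝ) * Real.exp 8) := by
  classical
  set A := (Ioc x (x + h)).filter Nat.Prime with hA
  have hlog : 0 < Real.log (h : ℝ) := Real.log_pos (by exact_mod_cast (show 1 < h by omega))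
  have hpr := resp_prod hTAB z hz R hR
  have key : ∀ q ∈ A, ∑ q' ∈ A.erase q, rw2 R q q' ≤ (A.card : ℝ) +
      (C * (h / Real.log h) * (8 / z) + (h : ℝ) ^ (3 / 4 : ℝ) * Real.exp 8) := by
    intro q hq
    unfold rw2
    rw [Finset.sum_comm]
    have e1 : ∀ T ∈ R.powerset, ∑ q' ∈ A.erase q,
        (if (∀ p ∈ T, q ≡ q' [MOD p]) then ∏ p ∈ T, (1 / ((p : ℝ) - 1)) else 0) ≤
        (if T = ∅ then (A.card : ℝ) - C * (h / Real.log h) else 0) +
          (C * (h / Real.log h) * ∏ p ∈ T, (1 / ((p : ℝ) - 1)) ^ 2 +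
            (h : ℝ) ^ (3 / 4 : ℝ) * ∏ p ∈ T, (1 / ((p : ℝ) - 1) * (1 / √(p : ℝ)))) := by
      intro T hT
      have hTR := Finset.mem_powerset.mp hT
      have hT' : ∀ p ∈ T, p.Prime := fun p hp => (hR p (hTR hp)).1
      have hT1 : ∀ p ∈ T, (0 : ℝ) < (p : ℝ) - 1 := fun p hp => by
        have : (2 : ℝ) ≤ p := by exact_mod_cast (hT' p hp).two_le
        linarith
      have hw : 0 ≤ ∏ p ∈ T, (1 / ((p : ℝ) - 1)) :=
        Finset.prod_nonneg fun p hp => (by have := hT1 p hp; positivity)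
      have hw2 : 0 ≤ ∏ p ∈ T, (1 / √(p : ℝ)) := Finset.prod_nonneg fun p _ => by positivity
      rw [← Finset.sum_filter, Finset.sum_const, nsmul_eq_mul]
      by_cases hTe : T = ∅
      · subst hTe
        have : (((A.erase q).filter (fun q' => ∀ p ∈ (∅ : Finset ℕ), q ≡ q' [MOD p])).card : ℝ) ≤
            (A.card : ℝ) := by
          exact_mod_cast Finset.card_le_card
            ((Finset.filter_subset _ _).trans (Finset.erase_subset _ _))
        have h3 : (0 : ℝ) ≤ (h : ℝ) ^ (3 / 4 : ℝ) := by positivity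
        simp only [Finset.prod_empty, mul_one, if_true]
        linarith
      · rw [if_neg hTe, zero_add]
        have hc := resp_count hB hC x h h2 T hT' q hq
        rw [← hA] at hc
        calc (((A.erase q).filter (fun q' => ∀ p ∈ T, q ≡ q' [MOD p])).card : ℝ) *
            ∏ p ∈ T, (1 / ((p : ℝ) - 1))
            ≤ (C * (h / Real.log h) * (∏ p ∈ T, (1 / ((p : ℝ) - 1))) +
              (h : ℝ) ^ (3 / 4 : ℝ) * ∏ p ∈ T, (1 / √(p : ℝ))) *
                ∏ p ∈ T, (1 / ((p : ℝ) - 1)) := mul_le_mul_of_nonneg_right hc hw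
          _ = _ := by
            rw [Finset.prod_pow, Finset.prod_mul_distrib]; ring
    refine (Finset.sum_le_sum e1).trans ?_
    rw [Finset.sum_add_distrib, Finset.sum_add_distrib, ← Finset.mul_sum, ← Finset.mul_sum,
      Finset.sum_ite_eq' , if_pos (Finset.empty_mem_powerset R)]
    have f1 : C * (h / Real.log h) * ∑ T ∈ R.powerset, ∏ p ∈ T, (1 / ((p : ℝ) - 1)) ^ 2 ≤
        C * (h / Real.log h) * (1 + 8 / z) := mul_le_mul_of_nonneg_left hpr.1 (by positivity)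
    have f2 : (h : ℝ) ^ (3 / 4 : ℝ) *
        ∑ T ∈ R.powerset, ∏ p ∈ T, (1 / ((p : ℝ) - 1) * (1 / √(p : ℝ))) ≤
        (h : ℝ) ^ (3 / 4 : ℝ) * Real.exp 8 := mul_le_mul_of_nonneg_left hpr.2 (by positivity)
    linarith
  refine (Finset.sum_le_sum key).trans (le_of_eq ?_)
  rw [Finset.sum_const, nsmul_eq_mul]
  ring

/-- Second moment with primes larger than `z`. -/
theorem resp_sm3 (hAVG : Stmt_AVG) (hBTQ : Stmt_BTQ) (hTAB : Stmt_TAB) :
    ∃ C : ℝ, 0 < C ∧ ∀ z : ℕ, 4 ≤ z → ∀ᶠ h : ℕ in atTop, ∀ (x : ℕ) (R : Finset ℕ),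
      (∀ p ∈ R, p.Prime ∧ z < p) →
      ∑ v ∈ range (∏ p ∈ R, p), (Xv R ((Ioc x (x + h)).filter Nat.Prime) v : ℝ) ^ 2 ≤
        ((∏ p ∈ R, p : ℕ) : ℝ) * (Pi' R * ((Ioc x (x + h)).filter Nat.Prime).card +
          Pi' R ^ 2 * ((((Ioc x (x + h)).filter Nat.Prime).card : ℝ) ^ 2 +
            C / z * (((Ioc x (x + h)).filter Nat.Prime).card * (h / Real.log h)))) := by
  obtain ⟨C, hC, hB⟩ := hBTQ
  refine ⟨8 * C + 1, by positivity, fun z hz => ?_⟩
  have hz0 : (4 : ℝ) ≤ z := by exact_mod_cast hz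
  have hlo := (isLittleO_log_rpow_atTop (show (0 : ℝ) < 1 / 4 by norm_num)).bound
    (show (0 : ℝ) < 1 / (Real.exp 8 * z) by positivity)
  have hlo' := tendsto_natCast_atTop_atTop (R := ℝ) |>.eventually hlo
  filter_upwards [hlo', eventually_ge_atTop 2] with h hh h2 x R hR
  have hlog : 0 < Real.log (h : ℝ) := Real.log_pos (by exact_mod_cast (show 1 < h by omega))
  have hh0 : (0 : ℝ) < h := by exact_mod_cast (show 0 < h by omega)
  refine (resp_sq hAVG R _ (fun p hp => (hR p hp).1)).trans ?_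
  refine mul_le_mul_of_nonneg_left (add_le_add le_rfl (mul_le_mul_of_nonneg_left ?_ (by
    positivity))) (by positivity)
  refine (resp_pairs hB hC hTAB z hz R hR x h h2).trans (add_le_add le_rfl ?_)
  have e1 : (h : ℝ) ^ (3 / 4 : ℝ) * Real.exp 8 ≤ 1 / z * (h / Real.log h) := by
    rw [Real.norm_eq_abs, Real.norm_eq_abs, abs_of_pos hlog, abs_of_nonneg (by positivity)] at hh
    have e3 : (h : ℝ) = (h : ℝ) ^ (3 / 4 : ℝ) * (h : ℝ) ^ (1 / 4 : ℝ) := by
      rw [← Real.rpow_add hh0]; norm_num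
    have e4 : Real.exp 8 * z * Real.log h ≤ (h : ℝ) ^ (1 / 4 : ℝ) := by
      rw [one_div, inv_mul_eq_div, le_div_iff₀ (by positivity)] at hh
      linarith
    rw [one_div, inv_mul_eq_div, div_div, le_div_iff₀ (by positivity)]
    calc (h : ℝ) ^ (3 / 4 : ℝ) * Real.exp 8 * (Real.log h * z)
        = (h : ℝ) ^ (3 / 4 : ℝ) * (Real.exp 8 * z * Real.log h) := by ring
      _ ≤ (h : ℝ) ^ (3 / 4 : ℝ) * (h : ℝ) ^ (1 / 4 : ℝ) := by gcongr
      _ = h := e3.symm
  calc (((Ioc x (x + h)).filter Nat.Prime).card : ℝ) * (C * (h / Real.log h) * (8 / z) +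
          (h : ℝ) ^ (3 / 4 : ℝ) * Real.exp 8)
      ≤ (((Ioc x (x + h)).filter Nat.Prime).card : ℝ) * (C * (h / Real.log h) * (8 / z) +
          1 / z * (h / Real.log h)) := by gcongr
    _ = (8 * C + 1) / z * (((Ioc x (x + h)).filter Nat.Prime).card * (h / Real.log h)) := by ring

/-- Chebyshev. -/
theorem resp_cheb (N : ℕ) (X : ℕ → ℝ) (m V : ℝ) (hm : 0 < m)
    (h1 : ∑ v ∈ range N, X v = N * m) (h2 : ∑ v ∈ range N, X v ^ 2 ≤ N * (m ^ 2 + V)) :
    (((range N).filter (fun v => X v < m / 2)).card : ℝ) ≤ N * (4 * V / m ^ 2) := by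
  have e1 : ∑ v ∈ range N, (X v - m) ^ 2 ≤ N * V := by
    have : ∑ v ∈ range N, (X v - m) ^ 2 =
        ∑ v ∈ range N, X v ^ 2 - 2 * m * ∑ v ∈ range N, X v + N * m ^ 2 := by
      rw [Finset.mul_sum, ← Finset.sum_sub_distrib]
      have : (N : ℝ) * m ^ 2 = ∑ v ∈ range N, m ^ 2 := by
        rw [Finset.sum_const, Finset.card_range, nsmul_eq_mul]
      rw [this, ← Finset.sum_add_distrib]
      refine Finset.sum_congr rfl fun v _ => by ring
    rw [this, h1]
    nlinarith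
  have e2 : (((range N).filter (fun v => X v < m / 2)).card : ℝ) * (m ^ 2 / 4) ≤
      ∑ v ∈ range N, (X v - m) ^ 2 := by
    calc (((range N).filter (fun v => X v < m / 2)).card : ℝ) * (m ^ 2 / 4)
        = ∑ v ∈ (range N).filter (fun v => X v < m / 2), m ^ 2 / 4 := by
          rw [Finset.sum_const, nsmul_eq_mul]
      _ ≤ ∑ v ∈ (range N).filter (fun v => X v < m / 2), (X v - m) ^ 2 := by
          refine Finset.sum_le_sum fun v hv => ?_
          have := (Finset.mem_filter.mp hv).2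
          nlinarith
      _ ≤ _ := Finset.sum_le_sum_of_subset_of_nonneg (Finset.filter_subset _ _)
          fun v _ _ => by positivity
  have hm2 : 0 < m ^ 2 := by positivity
  rw [mul_div_assoc', le_div_iff₀ hm2]
  nlinarith

/-- Markov. -/
theorem resp_mark (N : ℕ) (X : ℕ → ℝ) (μ : ℝ) (hμ : 0 < μ) (h0 : ∀ v, 0 ≤ X v)
    (h1 : ∑ v ∈ range N, X v = N * μ) :
    (((range N).filter (fun v => 4 * μ < X v)).card : ℝ) ≤ N / 4 := by
  have e2 : (((range N).filter (fun v => 4 * μ < X v)).card : ℝ) * (4 * μ) ≤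
      ∑ v ∈ range N, X v := by
    calc (((range N).filter (fun v => 4 * μ < X v)).card : ℝ) * (4 * μ)
        = ∑ v ∈ (range N).filter (fun v => 4 * μ < X v), 4 * μ := by
          rw [Finset.sum_const, nsmul_eq_mul]
      _ ≤ ∑ v ∈ (range N).filter (fun v => 4 * μ < X v), X v :=
          Finset.sum_le_sum fun v hv => (Finset.mem_filter.mp hv).2.le
      _ ≤ _ := Finset.sum_le_sum_of_subset_of_nonneg (Finset.filter_subset _ _)
          fun v _ _ => h0 v
  rw [h1] at e2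
  have : (((range N).filter (fun v => 4 * μ < X v)).card : ℝ) * 4 ≤ N := by
    have h3 : ((((range N).filter (fun v => 4 * μ < X v)).card : ℝ) * 4) * μ ≤ N * μ := by
      linarith
    exact le_of_mul_le_mul_right h3 hμ
  linarith

/-- Selection of a good residue. -/
theorem resp_sel (N J : ℕ) (hN : 0 < N) (B : Fin J → Finset ℕ) (B₀ : Finset ℕ)
    (h0 : (B₀.card : ℝ) ≤ N / 4) (h : ∀ i, ((B i).card : ℝ) ≤ N * (1 / (4 * J))) :
    ∃ v < N, v ∉ B₀ ∧ ∀ i, v ∉ B i := by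
  classical
  have hlt : (B₀ ∪ univ.biUnion B).card < (range N).card := by
    have h1 : (((B₀ ∪ univ.biUnion B).card : ℕ) : ℝ) ≤ N / 4 + N / 4 := by
      have h2 : (((B₀ ∪ univ.biUnion B).card : ℕ) : ℝ) ≤ (B₀.card : ℝ) +
          ((univ.biUnion B).card : ℝ) := by
        exact_mod_cast Finset.card_union_le _ _
      have h3 : ((univ.biUnion B).card : ℝ) ≤ ∑ i, ((B i).card : ℝ) := by
        exact_mod_cast Finset.card_biUnion_le (s := univ) (t := B)
      have h4 : ∑ i, ((B i).card : ℝ) ≤ N / 4 := by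
        refine (Finset.sum_le_sum fun i _ => h i).trans ?_
        rw [Finset.sum_const, Finset.card_univ, Fintype.card_fin, nsmul_eq_mul]
        rcases Nat.eq_zero_or_pos J with hJ | hJ
        · subst hJ; simp; positivity
        · have : (J : ℝ) ≠ 0 := by exact_mod_cast hJ.ne'
          apply le_of_eq; field_simp
      linarith
    have h5 : (0 : ℝ) < N := by exact_mod_cast hN
    have h6 : (((B₀ ∪ univ.biUnion B).card : ℕ) : ℝ) < ((range N).card : ℝ) := by
      rw [Finset.card_range]; linarith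
    exact_mod_cast h6
  obtain ⟨v, hv, hv'⟩ := Finset.exists_mem_notMem_of_card_lt_card hlt
  rw [Finset.mem_union, not_or] at hv'
  refine ⟨v, Finset.mem_range.mp hv, hv'.1, fun i hi => hv'.2 ?_⟩
  exact Finset.mem_biUnion.mpr ⟨i, Finset.mem_univ i, hi⟩

end Pool.LGC
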