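import Pool.Agent.Work.MP_b0c12c_chain.B_RESPa

/-! # Block RESP, part b: deterministic lemmas (helper41) -/

set_option autoImplicit false

namespace Pool.LGC

open Finset Filter
open Pool.LGP

theorem resp_fac {p : ℕ} (hp : p.Prime) : 0 < 1 - 1 / (p : ℝ) ∧ 1 - 1 / (p : ℝ) ≤ 1 := by
  have h2 : (2 : ℝ) ≤ p := by exact_mod_cast hp.two_le
  have h1 : 1 / (p : ℝ) ≤ 1 / 2 := one_div_le_one_div_of_le (by norm_num) h2
  have h0 : 0 ≤ 1 / (p : ℝ) := by positivity
  constructor <;> linarith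

theorem resp_pi_pos (R : Finset ℕ) (hR : ∀ p ∈ R, p.Prime) : 0 < Pi' R :=
  Finset.prod_pos fun p hp => (resp_fac (hR p hp)).1

theorem resp_pi_le_one (R : Finset ℕ) (hR : ∀ p ∈ R, p.Prime) : Pi' R ≤ 1 :=
  Finset.prod_le_one (fun p hp => (resp_fac (hR p hp)).1.le) fun p hp => (resp_fac (hR p hp)).2

theorem resp_pi_mono (R S : Finset ℕ) (hRS : R ⊆ S) (hS : ∀ p ∈ S, p.Prime) :
    Pi' S ≤ Pi' R := by
  classical
  have e : Pi' (S \ R) * Pi' R = Pi' S := Finset.prod_sdiff hRS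
  have h1 := resp_pi_le_one (S \ R) (fun p hp => hS p (Finset.mem_sdiff.mp hp).1)
  have h2 := resp_pi_pos R (fun p hp => hS p (hRS hp))
  rw [← e]
  nlinarith

theorem resp_pi_up (S : Finset ℕ) (z : ℕ) (hS : ∀ p ∈ S, p.Prime) :
    Pi' (S.filter (fun p => z < p)) ≤ Pi' S / Pi' ((Icc 1 z).filter Nat.Prime) := by
  have hz : 0 < Pi' ((Icc 1 z).filter Nat.Prime) :=
    resp_pi_pos _ (fun p hp => (Finset.mem_filter.mp hp).2)
  rw [le_div_iff₀ hz]
  have e : Pi' (S.filter (fun p => z < p)) * Pi' (S.filter (fun p => ¬ z < p)) = Pi' S :=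
    Finset.prod_filter_mul_prod_filter_not S (fun p => z < p) _
  rw [← e]
  refine mul_le_mul_of_nonneg_left ?_
    (resp_pi_pos _ (fun p hp => hS p (Finset.mem_filter.mp hp).1)).le
  refine resp_pi_mono _ _ ?_ (fun p hp => (Finset.mem_filter.mp hp).2)
  intro p hp
  rw [Finset.mem_filter] at hp ⊢
  have := hS p hp.1
  exact ⟨Finset.mem_Icc.mpr ⟨this.one_le, not_lt.mp hp.2⟩, this⟩

theorem resp_cop (w n : ℕ) : n.Coprime (primorial w) ↔ ∀ p, p.Prime → p ≤ w → ¬ p ∣ n := by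
  unfold primorial
  rw [Nat.coprime_prod_right_iff]
  constructor
  · intro h p hp hpw
    have := h p (Finset.mem_filter.mpr ⟨Finset.mem_range.mpr (by omega), hp⟩)
    exact (hp.coprime_iff_not_dvd).mp this.symm
  · intro h p hp
    rw [Finset.mem_filter, Finset.mem_range] at hp
    exact ((hp.2.coprime_iff_not_dvd).mpr (h p hp.2 (by omega))).symm

/-- Lifting of a good residue. -/
theorem resp_lift (hCRV : Stmt_CRV) (w z : ℕ) (y : ℝ) (v₀ : ℕ) (R : Finset ℕ)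
    (hR : ∀ p : ℕ, p ∈ R ↔ p.Prime ∧ z < p ∧ (p : ℝ) ≤ y) (hRw : ∀ p ∈ R, p ≤ w) :
    ∃ v < primorial w,
      (∀ q : ℕ, q.Prime → w < q → (∀ p ∈ R, ¬ p ∣ v₀ + q) → (v + q).Coprime (primorial w)) ∧
      (∀ n : ℕ, (v + n).Coprime (primorial w) → (∀ p ∈ R, ¬ p ∣ v₀ + n) ∧
        ∀ p : ℕ, p.Prime → y < p → p ≤ w → ¬ p ∣ n) := by
  have hcop : (∏ p ∈ R, p).Coprime (primorial z) := by
    rw [resp_cop]
    intro p hp hpz hdvd
    rw [hp.prime.dvd_finsetProd_iff] at hdvd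
    obtain ⟨r, hr, hpr⟩ := hdvd
    have hr' := (hR r).mp hr
    have := (Nat.prime_dvd_prime_iff_eq hp hr'.1).mp hpr
    omega
  obtain ⟨v₁, hv1, hv2⟩ := Nat.chineseRemainder hcop v₀ 0
  obtain ⟨v, hv, hva, hvb⟩ := hCRV w y v₁
  have hR1 : ∀ p ∈ R, v ≡ v₀ [MOD p] := by
    intro p hp
    have hp' := (hR p).mp hp
    have h1 := hva p hp'.1 (hRw p hp) hp'.2.2
    exact h1.trans (hv1.of_dvd (Finset.dvd_prod_of_mem _ hp))
  have hz1 : ∀ p : ℕ, p.Prime → p ≤ w → p ∉ R → p ∣ v := by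
    intro p hp hpw hpR
    by_cases hpy : (p : ℝ) ≤ y
    · have hpz : p ≤ z := by
        by_contra hc
        exact hpR ((hR p).mpr ⟨hp, by omega, hpy⟩)
      have h1 := hva p hp hpw hpy
      have h2 : v₁ ≡ 0 [MOD p] := hv2.of_dvd ((hp.dvd_primorial_iff).mpr hpz)
      exact (Nat.modEq_zero_iff_dvd).mp (h1.trans h2)
    · exact hvb p hp hpw (not_le.mp hpy)
  refine ⟨v, hv, ?_, ?_⟩
  · intro q hq hwq hqR
    rw [resp_cop]
    intro p hp hpw hdvd
    by_cases hpR : p ∈ R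
    · have h1 : v + q ≡ v₀ + q [MOD p] := Nat.ModEq.add_right q (hR1 p hpR)
      exact hqR p hpR ((Nat.modEq_zero_iff_dvd).mp (h1.symm.trans
        ((Nat.modEq_zero_iff_dvd).mpr hdvd)))
    · have h1 := hz1 p hp hpw hpR
      have h2 : p ∣ q := (Nat.dvd_add_right h1).mp hdvd
      have := (Nat.prime_dvd_prime_iff_eq hp hq).mp h2
      omega
  · intro n hn
    rw [resp_cop] at hn
    constructor
    · intro p hp hdvd
      have hp' := (hR p).mp hp
      have h1 : v + n ≡ v₀ + n [MOD p] := Nat.ModEq.add_right n (hR1 p hp)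
      exact hn p hp'.1 (hRw p hp) ((Nat.modEq_zero_iff_dvd).mp (h1.trans
        ((Nat.modEq_zero_iff_dvd).mpr hdvd)))
    · intro p hp hyp hpw hdvd
      exact hn p hp hpw (Dvd.dvd.add (hvb p hp hpw hyp) hdvd)

/-- Asymptotic facts. -/
theorem resp_asy (M : ℝ) (H₁ : ℕ) : ∀ᶠ w : ℕ in atTop, H₁ ≤ w ∧ 2 ≤ w ∧
    1 ≤ Real.log (Real.log (Real.log w)) ∧
    Real.log (Real.log (Real.log w)) ≤ Real.log (Real.log w) ∧
    8 * Real.log (Real.log w) ≤ Real.log w ∧
    Real.log w ^ 2 ≤ w ∧ M * Real.log w ^ 2 ≤ w := by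
  have t0 : Tendsto (fun w : ℕ => (w : ℝ)) atTop atTop := tendsto_natCast_atTop_atTop
  have t1 : Tendsto (fun w : ℕ => Real.log (w : ℝ)) atTop atTop := Real.tendsto_log_atTop.comp t0
  have t2 : Tendsto (fun w : ℕ => Real.log (Real.log (w : ℝ))) atTop atTop :=
    Real.tendsto_log_atTop.comp t1
  have t3 : Tendsto (fun w : ℕ => Real.log (Real.log (Real.log (w : ℝ)))) atTop atTop :=
    Real.tendsto_log_atTop.comp t2
  have l1 := t1.eventually (Real.isLittleO_log_id_atTop.bound (show (0 : ℝ) < 1 / 8 by norm_num))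
  have l2 := t0.eventually ((Real.isLittleO_pow_log_id_atTop (n := 2)).bound
    (show (0 : ℝ) < 1 / (|M| + 1) by positivity))
  filter_upwards [eventually_ge_atTop H₁, eventually_ge_atTop 2, t3.eventually_ge_atTop 1,
    t2.eventually_ge_atTop 1, t1.eventually_ge_atTop 1, l1, l2] with w h1 h2 h3 h4 h5 h6 h7
  have hw0 : (0 : ℝ) < w := by exact_mod_cast (show 0 < w by omega)
  rw [Real.norm_eq_abs, Real.norm_eq_abs, id, abs_of_pos (by linarith), abs_of_pos (by linarith)]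
    at h6
  rw [Real.norm_eq_abs, Real.norm_eq_abs, id, abs_of_nonneg (by positivity), abs_of_pos hw0] at h7
  have h8 : (|M| + 1) * Real.log w ^ 2 ≤ w := by
    rw [one_div, inv_mul_eq_div, le_div_iff₀ (by positivity)] at h7
    linarith
  have hM := le_abs_self M
  have hM0 := abs_nonneg M
  have hsq : 0 ≤ Real.log (w : ℝ) ^ 2 := by positivity
  refine ⟨h1, h2, h3, ?_, by linarith, by nlinarith, by nlinarith⟩
  exact (Real.log_le_sub_one_of_pos (by linarith)).trans (by linarith)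

end Pool.LGC
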