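import Pool.Agent.Work.MP_b0c12c_chain.B_RESQd

/-! # Block RESQ: prescribed intervals, sign of a real character, uniform constant (helper41) -/

set_option autoImplicit false

namespace Pool.LGC

open Finset Filter
open Pool.LGP

theorem p_RESQ (h1 : Stmt_PIG) (h2 : Stmt_BTQ) (h3 : Stmt_TAB) (h4 : Stmt_MEL)
    (h5 : Stmt_SRD) (h6 : Stmt_FM1) (_h7 : Stmt_CRV) (h8 : Stmt_AVG) : Stmt_RESQ := by
  classical
  obtain ⟨Cs, hCs, hsm⟩ := resp_sm3 h8 h2 h3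
  obtain ⟨CB, hCB, hB⟩ := h2
  obtain ⟨cM, CM, hcM, hCM, hMEL⟩ := h4
  obtain ⟨CS, hCS, hSRD⟩ := h5
  refine ⟨32 * (CM / cM) * (CS + 1), by positivity, fun J hJ => ?_⟩
  obtain ⟨z, hzdef⟩ : ∃ z : ℕ, z = max 4 ⌈(256 * Cs + 4096 * (6 * CB + 1)) * J⌉₊ := ⟨_, rfl⟩
  have hz4 : 4 ≤ z := by rw [hzdef]; exact le_max_left _ _
  have hzJ : (256 * Cs + 4096 * (6 * CB + 1)) * J ≤ z := by
    rw [hzdef]; exact (Nat.le_ceil _).trans (by exact_mod_cast le_max_right _ _)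
  clear hzdef
  have hJR : (0 : ℝ) < J := by exact_mod_cast hJ
  have hz2 : (2 : ℝ) ≤ z := by exact_mod_cast (show 2 ≤ z by omega)
  have hlz : 0 < Real.log (z : ℝ) := Real.log_pos (by linarith only [hz2])
  have hMz := (hMEL z hz2).1
  rw [Nat.floor_natCast] at hMz
  refine ⟨primorial z + 1, fun δ hδ => ⟨cM * δ / 16, by positivity, ?_⟩⟩
  obtain ⟨P₀, hP₀z, hP₀⟩ := Nat.exists_infinite_primes (z + 1)
  obtain ⟨H₀, hPIG⟩ := h1 δ hδ
  obtain ⟨h₀, hh₀⟩ := eventually_atTop.mp ((hsm z hz4).and (resq_h34 z hz4))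
  obtain ⟨H₁, hH₁⟩ := eventually_atTop.mp (resp_H δ hδ H₀ h₀)
  have hM := resp_asy (32 * (16 * J) / (cM / 2 * δ)) (max H₁ P₀)
  filter_upwards [hM, hSRD z (by omega), resq_asy (Real.log (Real.log z))] with w hw hSRDw hKw
  clear hM hSRD hsm h1
  obtain ⟨hwH₁', hw2, hL3, hL23, hL12, hLsq, hLM⟩ := hw
  intro H hH4 hHle χ hχ hcond x hx
  have hwH₁ : H₁ ≤ w := (le_max_left _ _).trans hwH₁'
  have hwP₀ : P₀ ≤ w := (le_max_right _ _).trans hwH₁'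
  obtain ⟨k1, k2, k3, k4, k5⟩ := hH₁ H (by omega)
  clear hH₁
  obtain ⟨L1, hL1d⟩ : ∃ L1 : ℝ, L1 = Real.log w := ⟨_, rfl⟩
  obtain ⟨L2, hL2d⟩ : ∃ L2 : ℝ, L2 = Real.log L1 := ⟨_, rfl⟩
  obtain ⟨L3, hL3d⟩ : ∃ L3 : ℝ, L3 = Real.log L2 := ⟨_, rfl⟩
  rw [← hL1d] at hLM hLsq hL12 hL23 hL3 hHle hSRDw hKw ⊢
  rw [← hL2d] at hL12 hL23 hL3 hSRDw hKw ⊢
  rw [← hL3d] at hL23 hL3 ⊢
  have hL3p : 0 < L3 := lt_of_lt_of_le one_pos hL3
  have hL2p : 1 ≤ L2 := hL3.trans hL23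
  have hL2q : 0 < L2 := lt_of_lt_of_le one_pos hL2p
  have hL1p : 8 ≤ L1 := by linarith only [hL12, hL2p]
  have hL1q : 0 < L1 := by linarith only [hL1p]
  have hwR : (0 : ℝ) < w := by exact_mod_cast (show 0 < w by omega)
  have hwH : w ≤ H := by omega
  have hHR : (0 : ℝ) < H := by exact_mod_cast (show 0 < H by omega)
  have hwHR : (w : ℝ) ≤ H := by exact_mod_cast hwH
  obtain ⟨hh, hhd⟩ : ∃ hh : ℕ, hh = ⌊δ * H⌋₊ := ⟨_, rfl⟩
  rw [← hhd] at k2 k3 k4 k5 hx ⊢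
  obtain ⟨hh1, hh2⟩ := hh₀ hh k2
  clear hh₀
  have hhR : (0 : ℝ) < hh := by exact_mod_cast (show 0 < hh by omega)
  have hhlog : 0 < Real.log (hh : ℝ) := Real.log_pos (by exact_mod_cast (show 1 < hh by omega))
  -- the prime `p₁`
  obtain ⟨p₁, hp₁, hzp, hp₁w, hG⟩ : ∃ p₁ : ℕ, p₁.Prime ∧ z < p₁ ∧ p₁ ≤ w ∧ (χ ≠ 1 →
      ∃ G : ℕ, χ (G : ZMod (primorial w)) = -1 ∧
        ∀ p : ℕ, p.Prime → p ≤ w → p ≠ p₁ → G ≡ 1 [MOD p]) := by
    rcases hcond with h | h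
    · exact ⟨P₀, hP₀, by omega, hwP₀, fun h' => absurd h h'⟩
    · obtain ⟨p₁, i1, i2, i3, i4⟩ := resq_p1 w z χ hχ (by omega) (by omega)
      exact ⟨p₁, i1, i2, i3, fun _ => i4⟩
  -- the smoothness bound
  obtain ⟨hlogy, hyw, hy2⟩ := resp_y w hw2 hL1d hL2d hL3d hL3 hL23 hL12
  obtain ⟨y, hyd⟩ : ∃ y : ℝ, y = yy w := ⟨_, rfl⟩
  rw [← hyd] at hlogy hyw hy2 hSRDw
  have hy0 : 0 < y := by linarith only [hy2]
  -- the set of primes
  obtain ⟨U, hU⟩ : ∃ U : Finset ℕ, U = (Icc 1 ⌊y⌋₊).filter Nat.Prime := ⟨_, rfl⟩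
  have hUp : ∀ p ∈ U, p.Prime := fun p hp => by
    rw [hU] at hp; exact (Finset.mem_filter.mp hp).2
  obtain ⟨R, hR⟩ : ∃ R : Finset ℕ, R = insert p₁ (U.filter (fun p => z < p)) := ⟨_, rfl⟩
  have hRmem : ∀ p : ℕ, p ∈ R ↔ p = p₁ ∨ (p.Prime ∧ z < p ∧ (p : ℝ) ≤ y) := by
    intro p
    rw [hR, Finset.mem_insert, Finset.mem_filter, hU, Finset.mem_filter, Finset.mem_Icc,
      Nat.le_floor_iff hy0.le]
    constructor
    · rintro (h | ⟨⟨⟨_, a⟩, b⟩, c⟩)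
      · exact Or.inl h
      · exact Or.inr ⟨b, c, a⟩
    · rintro (h | ⟨a, b, c⟩)
      · exact Or.inl h
      · exact Or.inr ⟨⟨⟨a.one_le, c⟩, a⟩, b⟩
  have hRp : ∀ p ∈ R, p.Prime ∧ z < p ∧ p ≤ w := by
    intro p hp
    rcases (hRmem p).mp hp with h | h
    · rw [h]; exact ⟨hp₁, hzp, hp₁w⟩
    · exact ⟨h.1, h.2.1, by exact_mod_cast h.2.2.trans hyw⟩
  have hpR : p₁ ∈ R := (hRmem p₁).mpr (Or.inl rfl)
  have hMy := hMEL y hy2
  rw [← hU] at hMy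
  obtain ⟨hPlow, hPup, hPpos, hP1, hP2⟩ := resq_prods hcM hlz z p₁ hp₁ U R hUp hR hMy.1 hMy.2 hMz
  obtain ⟨N, hN⟩ : ∃ N : ℕ, N = ∏ p ∈ R, p := ⟨_, rfl⟩
  have hNpos : 0 < N := by rw [hN]; exact Finset.prod_pos fun p hp => (hRp p hp).1.pos
  -- the primes of the intervals
  obtain ⟨A, hA⟩ : ∃ A : Fin J → Finset ℕ, ∀ i, A i = (Ioc (x i) (x i + hh)).filter Nat.Prime :=
    ⟨_, fun i => rfl⟩
  have hxH : ∀ i, x i ≤ H := fun i => by have := (hx i).2; omega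
  have hlogH : Real.log (H : ℝ) ≤ 2 * L1 := by
    have e1 : (H : ℝ) ≤ (w : ℝ) ^ 2 := by
      calc (H : ℝ) ≤ w * L1 ^ 2 := hHle
        _ ≤ w * w := mul_le_mul_of_nonneg_left hLsq hwR.le
        _ = (w : ℝ) ^ 2 := (sq _).symm
    calc Real.log (H : ℝ) ≤ Real.log ((w : ℝ) ^ 2) := Real.log_le_log hHR e1
      _ = 2 * L1 := by rw [Real.log_pow, hL1d]; norm_num
  have hlogH0 : 0 < Real.log (H : ℝ) :=
    lt_of_lt_of_le hL1q (by rw [hL1d]; exact Real.log_le_log hwR hwHR)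
  have hlogHh : Real.log (H : ℝ) ≤ 2 * Real.log hh := by
    calc Real.log (H : ℝ) ≤ Real.log ((hh : ℝ) ^ 2) := Real.log_le_log hHR k4
      _ = 2 * Real.log hh := by rw [Real.log_pow]; norm_num
  have hAlow : ∀ i, 1 / 2 * ((hh : ℝ) / Real.log H) ≤ ((A i).card : ℝ) := by
    intro i
    have := hPIG H (x i) k1 (hxH i)
    rw [← hhd, ← hA i] at this
    exact this
  have hAs := fun i => resp_size hhR hhlog hlogH0 hlogH hlogHh k3 (hAlow i)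
  obtain ⟨F, hF⟩ : ∃ F : ℝ, F = H * L2 / (L1 ^ 2 * L3) := ⟨_, rfl⟩
  have hmlow : ∀ i, cM / 2 * δ * F ≤ Pi' R * ((A i).card : ℝ) := fun i => by
    rw [hF]; exact resp_num (half_pos hcM) hδ hHR hL1q hL2q hL3p hlogy hPlow (hAs i).1
  have hF32 : 32 * (16 * J) ≤ cM / 2 * δ * F := by
    rw [hF]; exact resp_m32 (half_pos hcM) hδ hL1q hL3p hL23 hwR.le hwHR hLM
  have hm512 : ∀ i, 512 * (J : ℝ) ≤ Pi' R * ((A i).card : ℝ) := fun i => by
    have h := hF32.trans (hmlow i)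
    linarith only [h]
  -- the lift and the bad sets
  obtain ⟨V, hVlt, hV, hV0⟩ := resq_V w R (fun p hp => ⟨(hRp p hp).1, (hRp p hp).2.2⟩)
  obtain ⟨B, hBd⟩ : ∃ B : Fin J → Finset ℕ, ∀ i, B i =
    (range N).filter (fun v => ((Yc w χ R V (A i) v).card : ℝ) <
      Pi' R * ((A i).card : ℝ) / 8) := ⟨_, fun i => rfl⟩
  have hBc : ∀ i, ((B i).card : ℝ) ≤ N * (1 / (4 * J)) := by
    intro i
    have hs1 := h6 R (A i) (fun p hp => (hRp p hp).1)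
    have hs2 := hh1 (x i) R (fun p hp => ⟨(hRp p hp).1, (hRp p hp).2.1⟩)
    rw [hBd i, hN, hA i]
    rw [hA i] at hs1
    refine resq_int h8 h3 hB hCB hCs z J hz4 hJ hzJ w χ hχ p₁ hp₁ hp₁w hzp hG R hRp hpR V hV hV0
      (x i) hh k5 (hx i).1 hh2 hPpos hP1 hP2 ?_ ?_ hs1 hs2
    · rw [← hA i]; exact (hAs i).2
    · rw [← hA i]; exact hm512 i
  -- the total
  obtain ⟨T₁, hT₁⟩ : ∃ T₁ : Finset ℕ, T₁ = (Icc 1 H).filter
    (fun n => ∀ p : ℕ, p.Prime → p ≤ w → p ∉ R → ¬ p ∣ n) := ⟨_, rfl⟩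
  have hT1s : T₁ ⊆ Icc 1 H := by rw [hT₁]; exact Finset.filter_subset _ _
  have hA1c : (((T₁.filter (fun n => ¬ (y < p₁ ∧ p₁ ∣ n))).card : ℕ) : ℝ) ≤
      CS * (H * L2 / (L1 * Real.log z)) := by
    refine hSRDw H _ hwH ?_ ((Finset.filter_subset _ _).trans hT1s) ?_ ?_
    · refine hHle.trans (mul_le_mul_of_nonneg_left ?_ hwR.le)
      exact pow_le_pow_right₀ (by linarith only [hL1p]) (by norm_num)
    · intro n hn p hp hpz
      rw [Finset.mem_filter, hT₁, Finset.mem_filter] at hn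
      refine hn.1.2 p hp (by omega) (fun h => ?_)
      have := (hRp p h).2.1
      omega
    · intro n hn p hp hyp hpw hpn
      rw [Finset.mem_filter, hT₁, Finset.mem_filter] at hn
      by_cases hpp : p = p₁
      · exact hn.2 ⟨by rw [← hpp]; exact hyp, by rw [← hpp]; exact hpn⟩
      · refine hn.1.2 p hp hpw (fun h => ?_) hpn
        rcases (hRmem p).mp h with h' | h'
        · exact hpp h'
        · exact absurd h'.2.2 (not_le.mpr hyp)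
  have hybig : (H : ℝ) / y ≤ H * L2 / (L1 * Real.log z) := by
    refine resq_ybig hHR.le hL1q hL2q hL3 hlz hy0 hlogy ?_ hL2p
    rw [← hL2d]; exact hKw
  have hT1c : (T₁.card : ℝ) ≤ (CS + 1) * (H * L2 / (L1 * Real.log z)) :=
    resq_T p₁ H rfl hy0 hybig T₁ _ hT1s rfl hA1c
  have h1T : 1 ∈ T₁ := by
    rw [hT₁, Finset.mem_filter]
    refine ⟨Finset.mem_Icc.mpr ⟨le_rfl, by omega⟩, fun p hp _ _ hdvd => ?_⟩
    exact hp.one_lt.ne' (Nat.dvd_one.mp hdvd)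
  have hT1p : (0 : ℝ) < (T₁.card : ℝ) := by
    exact_mod_cast Finset.card_pos.mpr ⟨1, h1T⟩
  obtain ⟨μ, hμ⟩ : ∃ μ : ℝ, μ = Pi' R * (T₁.card : ℝ) := ⟨_, rfl⟩
  have hμ0 : 0 < μ := by rw [hμ]; exact mul_pos hPpos hT1p
  have hs3 := h6 R T₁ (fun p hp => (hRp p hp).1)
  rw [← hN, ← hμ] at hs3
  have hB0 := resp_mark N (fun v => (Xv R T₁ v : ℝ)) μ hμ0 (fun v => Nat.cast_nonneg _) hs3
  obtain ⟨v₀, hv₀N, hv₀B, hv₀⟩ := resp_sel N J hNpos B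
    ((range N).filter (fun v => 4 * μ < (Xv R T₁ v : ℝ))) hB0 hBc
  refine ⟨V v₀, hVlt v₀, fun i => Yc w χ R V (A i) v₀, ?_, ?_, ?_, ?_, ?_⟩
  · intro i q hq
    unfold Yc at hq
    rw [Finset.mem_filter, hA i, Finset.mem_filter] at hq
    exact hq.1.1
  · intro i q hq
    unfold Yc at hq
    rw [Finset.mem_filter, hA i, Finset.mem_filter] at hq
    apply SGN_cop
    intro p hp hpw hd
    by_cases hpR' : p ∈ R
    · exact hq.2.1 p hpR' ((((hV v₀ p hpR').add_right q).dvd_iff (dvd_refl p)).1 hd)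
    · have h3 : p ∣ q := (Nat.dvd_add_right (hV0 v₀ p hp hpw hpR')).1 hd
      have h4 := (Nat.prime_dvd_prime_iff_eq hp hq.1.2).1 h3
      have h5 := (Finset.mem_Ioc.mp hq.1.1).1
      have h6 := (hx i).1
      omega
  · intro hne i q hq
    unfold Yc at hq
    rw [Finset.mem_filter] at hq
    exact hq.2.2 hne
  · intro i
    have e1 : Pi' R * ((A i).card : ℝ) / 8 ≤ ((Yc w χ R V (A i) v₀).card : ℝ) := by
      by_contra hc
      apply hv₀ i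
      rw [hBd i]
      exact Finset.mem_filter.mpr ⟨Finset.mem_range.mpr hv₀N, not_le.mp hc⟩
    have e3 := hmlow i
    rw [← hF]
    have e4 : cM * δ / 16 * F = cM / 2 * δ * F / 8 := by ring
    rw [e4]
    exact le_trans (by linarith only [e3]) e1
  · have e1 : (((Icc 1 H).filter (fun h => (V v₀ + h).Coprime (primorial w))).card : ℝ) ≤
        (Xv R T₁ v₀ : ℝ) := by
      unfold Xv
      refine Nat.cast_le.mpr (Finset.card_le_card ?_)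
      intro n hn
      rw [Finset.mem_filter] at hn
      have hn2 := (resp_cop w (V v₀ + n)).mp hn.2
      rw [Finset.mem_filter, hT₁, Finset.mem_filter]
      refine ⟨⟨hn.1, fun p hp hpw hpR' hd => ?_⟩, fun p hp hd => ?_⟩
      · exact hn2 p hp hpw (Dvd.dvd.add (hV0 v₀ p hp hpw hpR') hd)
      · exact hn2 p (hRp p hp).1 (hRp p hp).2.2
          ((((hV v₀ p hp).add_right n).dvd_iff (dvd_refl p)).2 hd)
    have e2 : (Xv R T₁ v₀ : ℝ) ≤ 4 * μ := by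
      by_contra hc
      exact hv₀B (Finset.mem_filter.mpr ⟨Finset.mem_range.mpr hv₀N, not_le.mp hc⟩)
    refine e1.trans (e2.trans ?_)
    rw [hμ]
    exact resq_fin hL1q hL2q hL3p hlogy hPpos.le hPup hcM hlz hT1p.le hT1c

end Pool.LGC
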