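import Pool.Agent.Work.MP_b0c12c_chain.InterfaceX

/-! # Chains of large gaps below every large `X`: block SGN (helper5) -/

set_option autoImplicit false

namespace Pool.LGC

open Finset Filter
open Pool.LGP

/-- Congruence modulo the primorial follows from the congruences modulo its primes. -/
theorem SGN_modEq (w a b : ℕ) (h : ∀ p : ℕ, p.Prime → p ≤ w → a ≡ b [MOD p]) :
    a ≡ b [MOD primorial w] := by
  rw [Nat.modEq_iff_dvd, primorial, Nat.cast_prod]
  apply Finset.prod_dvd_of_coprime
  · intro p hp q hq hpq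
    have hp' := (Finset.mem_filter.1 (Finset.mem_coe.1 hp)).2
    have hq' := (Finset.mem_filter.1 (Finset.mem_coe.1 hq)).2
    exact Nat.isCoprime_iff_coprime.2 ((Nat.coprime_primes hp' hq').2 hpq)
  · intro p hp
    rw [Finset.mem_filter, Finset.mem_range] at hp
    exact Nat.modEq_iff_dvd.1 (h p hp.2 (by omega))

theorem SGN_cop (w a : ℕ) (h : ∀ p : ℕ, p.Prime → p ≤ w → ¬ p ∣ a) :
    a.Coprime (primorial w) := by
  rw [primorial]
  apply Nat.Coprime.prod_right
  intro p hp
  rw [Finset.mem_filter, Finset.mem_range] at hp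
  exact ((Nat.Prime.coprime_iff_not_dvd hp.2).2 (h p hp.2 (by omega))).symm

theorem SGN_ndvd (w a p : ℕ) (hp : p.Prime) (hpw : p ≤ w) (h : a.Coprime (primorial w)) :
    ¬ p ∣ a := by
  intro hd
  have h1 : p ∣ primorial w := hp.dvd_primorial_iff.2 hpw
  exact Nat.not_coprime_of_dvd_of_dvd hp.one_lt hd h1 h

/-- A generator of the sign, congruent to `1` modulo all primes but one. -/
theorem SGN_gen (w : ℕ) (χ : DirichletCharacter ℂ (primorial w))
    (h2 : ∀ n : ℕ, n.Coprime (primorial w) → χ (n : ZMod (primorial w)) = 1 ∨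
      χ (n : ZMod (primorial w)) = -1) (T : Finset ℕ) :
    ∀ G : ℕ, G.Coprime (primorial w) → χ (G : ZMod (primorial w)) = -1 →
      (∀ p : ℕ, p.Prime → p ≤ w → p ∉ T → G ≡ 1 [MOD p]) →
      ∃ p₁ G₁ : ℕ, p₁.Prime ∧ p₁ ≤ w ∧ G₁.Coprime (primorial w) ∧
        χ (G₁ : ZMod (primorial w)) = -1 ∧
        ∀ p : ℕ, p.Prime → p ≤ w → p ≠ p₁ → G₁ ≡ 1 [MOD p] := by
  induction T using Finset.induction_on with
  | empty =>
    intro G hG hχ h
    exfalso
    have h1 : G ≡ 1 [MOD primorial w] := SGN_modEq w G 1 fun p hp hpw => h p hp hpw (by simp)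
    have h3 : (G : ZMod (primorial w)) = ((1 : ℕ) : ZMod (primorial w)) :=
      (ZMod.natCast_eq_natCast_iff _ _ _).2 h1
    rw [h3, Nat.cast_one, map_one] at hχ
    norm_num at hχ
  | insert p T hpT ih =>
    intro G hG hχ h
    by_cases hp : p.Prime ∧ p ≤ w
    · obtain ⟨hp1, hp2⟩ := hp
      obtain ⟨m, hm⟩ : p ∣ primorial w := hp1.dvd_primorial_iff.2 hp2
      have hcop : Nat.Coprime p m := by
        have hsq := squarefree_primorial w
        rw [hm] at hsq
        exact Nat.coprime_of_squarefree_mul hsq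
      obtain ⟨a, ha1, ha2⟩ := Nat.chineseRemainder hcop G 1
      obtain ⟨b, hb1, hb2⟩ := Nat.chineseRemainder hcop 1 G
      have hGp : G.Coprime p := Nat.Coprime.coprime_dvd_right ⟨m, hm⟩ hG
      have hGm : G.Coprime m := Nat.Coprime.coprime_dvd_right ⟨p, by rw [hm, mul_comm]⟩ hG
      have hac : a.Coprime (primorial w) := by
        rw [hm]
        refine Nat.Coprime.mul_right ?_ ?_
        · exact (ha1.gcd_eq.trans hGp)
        · exact (ha2.gcd_eq.trans (Nat.gcd_one_left m))
      have hbc : b.Coprime (primorial w) := by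
        rw [hm]
        refine Nat.Coprime.mul_right ?_ ?_
        · exact (hb1.gcd_eq.trans (Nat.gcd_one_left p))
        · exact (hb2.gcd_eq.trans hGm)
      have hab : a * b ≡ G [MOD primorial w] := by
        rw [hm]
        refine (Nat.modEq_and_modEq_iff_modEq_mul hcop).1 ⟨?_, ?_⟩
        · simpa using ha1.mul hb1
        · simpa using ha2.mul hb2
      have hχab : χ (a : ZMod (primorial w)) * χ (b : ZMod (primorial w)) = -1 := by
        rw [← map_mul, ← Nat.cast_mul, (ZMod.natCast_eq_natCast_iff _ _ _).2 hab, hχ]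
      have hdvd : ∀ q : ℕ, q.Prime → q ≤ w → q ≠ p → q ∣ m := by
        intro q hq hqw hqp
        have h1 : q ∣ p * m := by
          rw [← hm]
          exact hq.dvd_primorial_iff.2 hqw
        rcases (Nat.Prime.dvd_mul hq).1 h1 with h3 | h3
        · exact absurd ((Nat.prime_dvd_prime_iff_eq hq hp1).1 h3) hqp
        · exact h3
      rcases h2 a hac with h5 | h5
      · rw [h5, one_mul] at hχab
        apply ih b hbc hχab
        intro q hq hqw hqT
        by_cases hqp : q = p
        · rw [hqp]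
          exact hb1
        · exact (hb2.of_dvd (hdvd q hq hqw hqp)).trans
            (h q hq hqw (by simp [hqp, hqT]))
      · exact ⟨p, a, hp1, hp2, hac, h5, fun q hq hqw hqp => ha2.of_dvd (hdvd q hq hqw hqp)⟩
    · apply ih G hG hχ
      intro q hq hqw hqT
      apply h q hq hqw
      rw [Finset.mem_insert, not_or]
      refine ⟨?_, hqT⟩
      rintro rfl
      exact hp ⟨hq, hqw⟩

theorem p_SGN : Stmt_SGN := by
  intro w χ hsq hne
  have hW : NeZero (primorial w) := ⟨primorial_ne_zero w⟩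
  have hval : ∀ n : ℕ, n.Coprime (primorial w) → χ (n : ZMod (primorial w)) = 1 ∨
      χ (n : ZMod (primorial w)) = -1 := by
    intro n hn
    have hu : IsUnit (n : ZMod (primorial w)) := (ZMod.isUnit_iff_coprime n (primorial w)).2 hn
    have h1 : χ (n : ZMod (primorial w)) ^ 2 = 1 := by
      rw [← MulChar.pow_apply' χ two_ne_zero, hsq]
      exact MulChar.one_apply hu
    have h3 : (χ (n : ZMod (primorial w)) - 1) * (χ (n : ZMod (primorial w)) + 1) = 0 := by
      linear_combination h1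
    rcases mul_eq_zero.1 h3 with h4 | h4
    · exact Or.inl (sub_eq_zero.1 h4)
    · exact Or.inr (eq_neg_of_add_eq_zero_left h4)
  obtain ⟨u, hu⟩ := MulChar.ne_one_iff.1 hne
  have hG0 : ((u : ZMod (primorial w)).val).Coprime (primorial w) := ZMod.val_coe_unit_coprime u
  have hG1 : (((u : ZMod (primorial w)).val : ℕ) : ZMod (primorial w)) = u :=
    ZMod.natCast_zmod_val _
  have hG2 : χ (((u : ZMod (primorial w)).val : ℕ) : ZMod (primorial w)) = -1 := by
    rcases hval _ hG0 with h | h
    · rw [hG1] at h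
      exact absurd h hu
    · exact h
  obtain ⟨p₁, G, hp₁, hp₁w, hGc, hGχ, hG⟩ := SGN_gen w χ hval (Finset.range (w + 1))
    ((u : ZMod (primorial w)).val) hG0 hG2 (fun p hp hpw hpT => absurd
      (Finset.mem_range.2 (by omega)) hpT)
  refine ⟨p₁, hp₁, hp₁w, ?_⟩
  intro R V q hpR hR hV hV0 hq
  set P : ℕ := ∏ p ∈ R, p with hP
  have hPpos : 0 < P := Finset.prod_pos fun p hp => (hR p hp).1.pos
  have hpP : ∀ p ∈ R, p ∣ P := fun p hp => Finset.dvd_prod_of_mem _ hp
  have hGP : Nat.Coprime P G := by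
    rw [hP]
    apply Nat.Coprime.prod_left
    intro p hp
    exact (Nat.Prime.coprime_iff_not_dvd (hR p hp).1).2
      (SGN_ndvd w G p (hR p hp).1 (hR p hp).2 hGc)
  set f : ℕ → ℕ := fun v => (G * (v + q) + (P - q % P)) % P with hfdef
  have hf : ∀ v, f v + q ≡ G * (v + q) [MOD P] := by
    intro v
    have h1 : f v ≡ G * (v + q) + (P - q % P) [MOD P] := Nat.mod_modEq _ _
    have h2 : f v + q ≡ G * (v + q) + (P - q % P) + q [MOD P] := h1.add_right q
    refine h2.trans ?_
    have h3 : P - q % P + q = P * (1 + q / P) := by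
      have h4 := Nat.div_add_mod q P
      have h5 := Nat.mod_lt q hPpos
      have h6 : P * (1 + q / P) = P + P * (q / P) := by ring
      rw [h6]
      omega
    rw [add_assoc, h3]
    have h7 : P * (1 + q / P) ≡ 0 [MOD P] :=
      (Nat.modEq_zero_iff_dvd).2 (Dvd.intro _ rfl)
    exact (Nat.ModEq.refl (G * (v + q))).add h7
  have hfp : ∀ v, ∀ p ∈ R, f v + q ≡ G * (v + q) [MOD p] :=
    fun v p hp => (hf v).of_dvd (hpP p hp)
  have hdv : ∀ v, (∀ p ∈ R, ¬ p ∣ v + q) → ∀ p ∈ R, ¬ p ∣ f v + q := by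
    intro v hv p hp hd
    have h1 : p ∣ G * (v + q) := ((hfp v p hp).dvd_iff (dvd_refl p)).1 hd
    rcases (Nat.Prime.dvd_mul (hR p hp).1).1 h1 with h2 | h2
    · exact SGN_ndvd w G p (hR p hp).1 (hR p hp).2 hGc h2
    · exact hv p hp h2
  have hcop : ∀ v, (∀ p ∈ R, ¬ p ∣ v + q) → (V v + q).Coprime (primorial w) := by
    intro v hv
    apply SGN_cop
    intro p hp hpw hd
    by_cases hpR' : p ∈ R
    · exact hv p hpR' ((((hV v p hpR').add_right q).dvd_iff (dvd_refl p)).1 hd)
    · exact hq p hp hpw hpR' ((Nat.dvd_add_right (hV0 v p hp hpw hpR')).1 hd)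
  have hmod : ∀ v, V (f v) + q ≡ G * (V v + q) [MOD primorial w] := by
    intro v
    apply SGN_modEq
    intro p hp hpw
    by_cases hpR' : p ∈ R
    · have h1 := (hV (f v) p hpR').add_right q
      have h2 := hfp v p hpR'
      have h3 : G * (V v + q) ≡ G * (v + q) [MOD p] := ((hV v p hpR').add_right q).mul_left G
      exact (h1.trans h2).trans h3.symm
    · have h1 : V (f v) ≡ 0 [MOD p] := (Nat.modEq_zero_iff_dvd).2 (hV0 (f v) p hp hpw hpR')
      have h2 : V v ≡ 0 [MOD p] := (Nat.modEq_zero_iff_dvd).2 (hV0 v p hp hpw hpR')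
      have h3 : G ≡ 1 [MOD p] := hG p hp hpw (by rintro rfl; exact hpR' hpR)
      have h4 := h1.add_right q
      have h5 := h3.mul (h2.add_right q)
      rw [one_mul] at h5
      exact h4.trans h5.symm
  have hχ : ∀ v, χ ((V (f v) + q : ℕ) : ZMod (primorial w)) =
      -χ ((V v + q : ℕ) : ZMod (primorial w)) := by
    intro v
    rw [(ZMod.natCast_eq_natCast_iff _ _ _).2 (hmod v), Nat.cast_mul, map_mul, hGχ, neg_one_mul]
  have hinj : Set.InjOn f (Set.Iio P) := by
    intro v hv v' hv' h
    have h1 : G * (v + q) ≡ G * (v' + q) [MOD P] := by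
      have h2 := hf v
      rw [h] at h2
      exact h2.symm.trans (hf v')
    have h3 : v + q ≡ v' + q [MOD P] := Nat.ModEq.cancel_left_of_coprime hGP h1
    have h4 : v ≡ v' [MOD P] := Nat.ModEq.add_right_cancel' q h3
    exact Nat.ModEq.eq_of_lt_of_lt h4 hv hv'
  have hfr : ∀ v, f v < P := fun v => Nat.mod_lt _ hPpos
  set A := (range P).filter (fun v => (∀ p ∈ R, ¬ p ∣ v + q) ∧
        χ ((V v + q : ℕ) : ZMod (primorial w)) = -1) with hA
  set B := (range P).filter (fun v => (∀ p ∈ R, ¬ p ∣ v + q) ∧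
        χ ((V v + q : ℕ) : ZMod (primorial w)) = 1) with hB
  have hAB : A.card ≤ B.card := by
    apply Finset.card_le_card_of_injOn f
    · intro v hv
      rw [Finset.mem_coe, hA, Finset.mem_filter, Finset.mem_range] at hv
      rw [Finset.mem_coe, hB, Finset.mem_filter, Finset.mem_range]
      refine ⟨hfr v, hdv v hv.2.1, ?_⟩
      rw [hχ, hv.2.2, neg_neg]
    · intro v hv v' hv' h
      rw [Finset.mem_coe, hA, Finset.mem_filter, Finset.mem_range] at hv hv'
      exact hinj hv.1 hv'.1 h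
  have hBA : B.card ≤ A.card := by
    apply Finset.card_le_card_of_injOn f
    · intro v hv
      rw [Finset.mem_coe, hB, Finset.mem_filter, Finset.mem_range] at hv
      rw [Finset.mem_coe, hA, Finset.mem_filter, Finset.mem_range]
      refine ⟨hfr v, hdv v hv.2.1, ?_⟩
      rw [hχ, hv.2.2]
    · intro v hv v' hv' h
      rw [Finset.mem_coe, hB, Finset.mem_filter, Finset.mem_range] at hv hv'
      exact hinj hv.1 hv'.1 h
  have hun : (range P).filter (fun v => ∀ p ∈ R, ¬ p ∣ v + q) = A ∪ B := by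
    ext v
    rw [Finset.mem_union, hA, hB, Finset.mem_filter, Finset.mem_filter, Finset.mem_filter]
    constructor
    · rintro ⟨h1, h2⟩
      rcases hval _ (hcop v h2) with h3 | h3
      · exact Or.inr ⟨h1, h2, h3⟩
      · exact Or.inl ⟨h1, h2, h3⟩
    · rintro (⟨h1, h2, -⟩ | ⟨h1, h2, -⟩)
      · exact ⟨h1, h2⟩
      · exact ⟨h1, h2⟩
  have hdis : Disjoint A B := by
    rw [Finset.disjoint_left]
    intro v hv hv'
    rw [hA, Finset.mem_filter] at hv
    rw [hB, Finset.mem_filter] at hv'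
    have h1 := hv.2.2.symm.trans hv'.2.2
    norm_num at h1
  rw [hun, Finset.card_union_of_disjoint hdis]
  omega

end Pool.LGC
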