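import Pool.Agent.Work.MP_b0c12c_chain.InterfaceY
import Pool.Agent.Work.MP_b0c12c_chain.B_SGN
import Pool.Agent.Work.MP_b0c12c_chain.B_RESPb

/-! # Block RESQ, part a: real characters (helper41) -/

set_option autoImplicit false

namespace Pool.LGC

open Finset Filter
open Pool.LGP

theorem resq_split (W p m : ℕ) (hW : W = p * m) (hc : p.Coprime m) (χ : DirichletCharacter ℂ W) :
    ∃ (χ₁ : DirichletCharacter ℂ p) (χ₂ : DirichletCharacter ℂ m),
      ∀ n : ℕ, χ (n : ZMod W) = χ₁ (n : ZMod p) * χ₂ (n : ZMod m) := by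
  subst hW
  let e := ZMod.chineseRemainder hc
  let χ₁ : DirichletCharacter ℂ p :=
    { toFun := fun r => χ (e.symm (r, 1))
      map_one' := by
        show χ (e.symm (1, 1)) = 1
        rw [show ((1 : ZMod p), (1 : ZMod m)) = 1 from rfl, map_one, map_one]
      map_mul' := fun r s => by
        show χ (e.symm (r * s, 1)) = χ (e.symm (r, 1)) * χ (e.symm (s, 1))
        rw [← map_mul, ← map_mul, Prod.mk_mul_mk, one_mul]
      map_nonunit' := fun r hr => by
        show χ (e.symm (r, 1)) = 0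
        apply χ.map_nonunit
        intro hu
        apply hr
        have h1 := hu.map e
        rw [RingEquiv.apply_symm_apply] at h1
        exact (Prod.isUnit_iff.mp h1).1 }
  let χ₂ : DirichletCharacter ℂ m :=
    { toFun := fun r => χ (e.symm (1, r))
      map_one' := by
        show χ (e.symm (1, 1)) = 1
        rw [show ((1 : ZMod p), (1 : ZMod m)) = 1 from rfl, map_one, map_one]
      map_mul' := fun r s => by
        show χ (e.symm (1, r * s)) = χ (e.symm (1, r)) * χ (e.symm (1, s))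
        rw [← map_mul, ← map_mul, Prod.mk_mul_mk, one_mul]
      map_nonunit' := fun r hr => by
        show χ (e.symm (1, r)) = 0
        apply χ.map_nonunit
        intro hu
        apply hr
        have h1 := hu.map e
        rw [RingEquiv.apply_symm_apply] at h1
        exact (Prod.isUnit_iff.mp h1).2 }
  refine ⟨χ₁, χ₂, fun n => ?_⟩
  show χ (n : ZMod (p * m)) = χ (e.symm ((n : ZMod p), 1)) * χ (e.symm (1, (n : ZMod m)))
  rw [← map_mul, ← map_mul, Prod.mk_mul_mk, one_mul, mul_one]
  congr 1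
  rw [RingEquiv.eq_symm_apply, map_natCast]
  rfl

/-- Values of real characters. -/
theorem resq_val {N : ℕ} (χ : DirichletCharacter ℂ N) (h : χ ^ 2 = 1) (x : ZMod N) :
    χ x = 0 ∨ χ x = 1 ∨ χ x = -1 := by
  by_cases hx : IsUnit x
  · right
    have h1 : χ x ^ 2 = 1 := by
      rw [← MulChar.pow_apply' χ two_ne_zero, h]
      exact MulChar.one_apply hx
    have h3 : (χ x - 1) * (χ x + 1) = 0 := by linear_combination h1
    rcases mul_eq_zero.1 h3 with h4 | h4
    · exact Or.inl (sub_eq_zero.1 h4)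
    · exact Or.inr (eq_neg_of_add_eq_zero_left h4)
  · left; exact χ.map_nonunit hx

theorem resq_re {N : ℕ} (χ : DirichletCharacter ℂ N) (h : χ ^ 2 = 1) (x : ZMod N) :
    (((χ x).re : ℝ) : ℂ) = χ x ∧ |(χ x).re| ≤ 1 := by
  rcases resq_val χ h x with h1 | h1 | h1 <;> rw [h1] <;> norm_num

/-- Gram matrix of the translates of a real character modulo a prime. -/
theorem resq_gram {p : ℕ} (hp : p.Prime) (χ : DirichletCharacter ℂ p) (h : χ ^ 2 = 1)
    (h1 : χ ≠ 1) (c c' : ZMod p) :
    haveI := Fact.mk hp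
    ∑ r : ZMod p, (χ (r + c)).re * (χ (r + c')).re = (if c = c' then (p : ℝ) else 0) - 1 := by
  have := Fact.mk hp
  have hinv : χ⁻¹ = χ := by
    have : χ * χ = 1 := by rw [← sq]; exact h
    exact (eq_inv_of_mul_eq_one_left this).symm
  have key : ∑ r : ZMod p, χ (r + c) * χ (r + c') = (if c = c' then (p : ℂ) else 0) - 1 := by
    by_cases hcc : c = c'
    · subst hcc
      rw [if_pos rfl]
      have e1 : ∑ r : ZMod p, χ (r + c) * χ (r + c) = ∑ r : ZMod p, χ r * χ r :=
        (Function.Bijective.sum_comp (e := fun r : ZMod p => r + c) (Equiv.addRight c).bijective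
          (fun r => χ r * χ r))
      rw [e1, ← Finset.add_sum_erase _ _ (Finset.mem_univ (0 : ZMod p))]
      have e2 : χ (0 : ZMod p) = 0 := MulChar.map_zero χ
      rw [e2, zero_mul, zero_add]
      have e3 : ∀ r ∈ (Finset.univ : Finset (ZMod p)).erase 0, χ r * χ r = 1 := by
        intro r hr
        have hr0 := (Finset.mem_erase.mp hr).1
        rw [← sq, ← MulChar.pow_apply' χ two_ne_zero, h]
        exact MulChar.one_apply (isUnit_iff_ne_zero.mpr hr0)
      rw [Finset.sum_congr rfl e3, Finset.sum_const, Finset.card_erase_of_mem (Finset.mem_univ _),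
        Finset.card_univ, ZMod.card, nsmul_eq_mul, mul_one, Nat.cast_sub hp.one_le]
      norm_num
    · rw [if_neg hcc]
      have hh : c' - c ≠ 0 := sub_ne_zero.mpr (Ne.symm hcc)
      have e1 : ∑ r : ZMod p, χ (r + c) * χ (r + c') =
          ∑ x : ZMod p, χ ((-(c' - c) * x - c) + c) * χ ((-(c' - c) * x - c) + c') := by
        symm
        apply Function.Bijective.sum_comp (e := fun x : ZMod p => -(c' - c) * x - c)
          (g := fun r => χ (r + c) * χ (r + c'))
        have hinj : Function.Injective (fun x : ZMod p => -(c' - c) * x - c) := by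
          intro x y hxy
          have h2 : -(c' - c) * x = -(c' - c) * y := sub_left_inj.mp hxy
          exact mul_left_cancel₀ (neg_ne_zero.mpr hh) h2
        exact Finite.injective_iff_bijective.mp hinj
      rw [e1]
      have e2 : ∀ x : ZMod p, χ ((-(c' - c) * x - c) + c) * χ ((-(c' - c) * x - c) + c') =
          χ (-1) * (χ x * χ⁻¹ (1 - x)) := by
        intro x
        rw [hinv]
        have a1 : (-(c' - c) * x - c) + c = (-1) * ((c' - c) * x) := by ring
        have a2 : (-(c' - c) * x - c) + c' = (c' - c) * (1 - x) := by ring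
        rw [a1, a2, map_mul, map_mul, map_mul]
        have a3 : χ (c' - c) * χ (c' - c) = 1 := by
          rw [← sq, ← MulChar.pow_apply' χ two_ne_zero, h]
          exact MulChar.one_apply (isUnit_iff_ne_zero.mpr hh)
        linear_combination (χ (-1) * χ x * χ (1 - x)) * a3
      simp_rw [e2]
      rw [← Finset.mul_sum]
      have e3 := jacobiSum_nontrivial_inv h1
      unfold jacobiSum at e3
      rw [e3]
      have a4 : χ (-1) * χ (-1) = 1 := by
        rw [← sq, ← MulChar.pow_apply' χ two_ne_zero, h]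
        exact MulChar.one_apply (isUnit_iff_ne_zero.mpr (neg_ne_zero.mpr one_ne_zero))
      linear_combination -a4
  have e4 : ((∑ r : ZMod p, (χ (r + c)).re * (χ (r + c')).re : ℝ) : ℂ) =
      ∑ r : ZMod p, χ (r + c) * χ (r + c') := by
    push_cast
    refine Finset.sum_congr rfl fun r _ => ?_
    rw [(resq_re χ h _).1, (resq_re χ h _).1]
  rw [key] at e4
  by_cases hcc : c = c'
  · rw [if_pos hcc] at e4 ⊢
    exact_mod_cast e4
  · rw [if_neg hcc] at e4 ⊢
    exact_mod_cast e4

/-- The quadratic form. -/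
theorem resq_quad {p : ℕ} (hp : p.Prime) (χ : DirichletCharacter ℂ p) (h : χ ^ 2 = 1)
    (h1 : χ ≠ 1) (T : Finset ℕ) (ε : ℕ → ℝ) (hε : ∀ q, |ε q| ≤ 1) :
    haveI := Fact.mk hp
    ∑ r : ZMod p, (∑ q ∈ T, ε q * (χ (r + (q : ZMod p))).re) ^ 2 ≤
      p * ∑ q ∈ T, ∑ q' ∈ T, (if q ≡ q' [MOD p] then (1 : ℝ) else 0) := by
  have := Fact.mk hp
  have e1 : ∑ r : ZMod p, (∑ q ∈ T, ε q * (χ (r + (q : ZMod p))).re) ^ 2 =
      ∑ q ∈ T, ∑ q' ∈ T, ε q * ε q' *
        ((if (q : ZMod p) = (q' : ZMod p) then (p : ℝ) else 0) - 1) := by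
    simp_rw [sq, Finset.sum_mul_sum]
    rw [Finset.sum_comm]
    refine Finset.sum_congr rfl fun q _ => ?_
    rw [Finset.sum_comm]
    refine Finset.sum_congr rfl fun q' _ => ?_
    rw [← resq_gram hp χ h h1, Finset.mul_sum]
    refine Finset.sum_congr rfl fun r _ => by ring
  have e2 : ∑ q ∈ T, ∑ q' ∈ T, ε q * ε q' *
        ((if (q : ZMod p) = (q' : ZMod p) then (p : ℝ) else 0) - 1) =
      ∑ q ∈ T, ∑ q' ∈ T, ε q * ε q' *
        (if (q : ZMod p) = (q' : ZMod p) then (p : ℝ) else 0) - (∑ q ∈ T, ε q) ^ 2 := by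
    rw [sq, Finset.sum_mul_sum, ← Finset.sum_sub_distrib]
    refine Finset.sum_congr rfl fun q _ => ?_
    rw [← Finset.sum_sub_distrib]
    refine Finset.sum_congr rfl fun q' _ => by ring
  rw [e1, e2]
  have e3 : ∑ q ∈ T, ∑ q' ∈ T, ε q * ε q' *
        (if (q : ZMod p) = (q' : ZMod p) then (p : ℝ) else 0) ≤
      p * ∑ q ∈ T, ∑ q' ∈ T, (if q ≡ q' [MOD p] then (1 : ℝ) else 0) := by
    rw [Finset.mul_sum]
    refine Finset.sum_le_sum fun q _ => ?_
    rw [Finset.mul_sum]
    refine Finset.sum_le_sum fun q' _ => ?_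
    by_cases hqq : q ≡ q' [MOD p]
    · rw [if_pos ((ZMod.natCast_eq_natCast_iff _ _ _).mpr hqq), if_pos hqq, mul_one]
      have h3 : ε q * ε q' ≤ 1 := by
        calc ε q * ε q' ≤ |ε q * ε q'| := le_abs_self _
          _ = |ε q| * |ε q'| := abs_mul _ _
          _ ≤ 1 * 1 := mul_le_mul (hε q) (hε q') (abs_nonneg _) zero_le_one
          _ = 1 := one_mul 1
      have h4 : (0 : ℝ) ≤ p := Nat.cast_nonneg p
      nlinarith
    · rw [if_neg (fun h => hqq ((ZMod.natCast_eq_natCast_iff _ _ _).mp h)), if_neg hqq]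
      simp
  have e4 : 0 ≤ (∑ q ∈ T, ε q) ^ 2 := sq_nonneg _
  linarith

/-- Splitting a range. -/
theorem resq_range (N p : ℕ) (hN : 0 < N) (G : ℕ → ℝ) :
    ∑ v ∈ range (N * p), G v = ∑ a ∈ range N, ∑ t ∈ range p, G (a + N * t) := by
  rw [← Finset.sum_product']
  symm
  refine Finset.sum_nbij' (fun z => z.1 + N * z.2) (fun v => (v % N, v / N)) ?_ ?_ ?_ ?_ ?_
  · intro z hz
    rw [Finset.mem_product, Finset.mem_range, Finset.mem_range] at hz
    rw [Finset.mem_range]
    calc z.1 + N * z.2 < N + N * z.2 := by omega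
      _ = N * (z.2 + 1) := by ring
      _ ≤ N * p := Nat.mul_le_mul_left N hz.2
  · intro v hv
    rw [Finset.mem_range] at hv
    rw [Finset.mem_product, Finset.mem_range, Finset.mem_range]
    exact ⟨Nat.mod_lt _ hN, Nat.div_lt_of_lt_mul hv⟩
  · intro z hz
    rw [Finset.mem_product, Finset.mem_range, Finset.mem_range] at hz
    ext
    · simp [Nat.add_mul_mod_self_left, Nat.mod_eq_of_lt hz.1]
    · simp [Nat.add_mul_div_left _ _ hN, Nat.div_eq_of_lt hz.1]
  · intro v _
    exact Nat.mod_add_div v N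
  · intro z _
    rfl

/-- Sum over the shifts by multiples of a unit. -/
theorem resq_shift {p : ℕ} (hp : p.Prime) (N a : ℕ) (hN : N.Coprime p) (F : ZMod p → ℝ) :
    haveI := Fact.mk hp
    ∑ t ∈ range p, F ((a + N * t : ℕ) : ZMod p) = ∑ r : ZMod p, F r := by
  have := Fact.mk hp
  have e1 : ∑ t ∈ range p, F ((a + N * t : ℕ) : ZMod p) =
      ∑ x : ZMod p, F ((a : ZMod p) + (N : ZMod p) * x) := by
    refine Finset.sum_nbij' (fun t => (t : ZMod p)) (fun x => x.val) ?_ ?_ ?_ ?_ ?_
    · intro t _; exact Finset.mem_univ _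
    · intro x _; exact Finset.mem_range.mpr (ZMod.val_lt x)
    · intro t ht; exact ZMod.val_cast_of_lt (Finset.mem_range.mp ht)
    · intro x _; exact ZMod.natCast_zmod_val x
    · intro t _; push_cast; rfl
  rw [e1]
  apply Function.Bijective.sum_comp (e := fun x : ZMod p => (a : ZMod p) + (N : ZMod p) * x)
    (g := F)
  have hinj : Function.Injective (fun x : ZMod p => (a : ZMod p) + (N : ZMod p) * x) := by
    intro x y hxy
    have h2 : (N : ZMod p) * x = (N : ZMod p) * y := add_left_cancel hxy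
    refine mul_left_cancel₀ ?_ h2
    intro h0
    rw [ZMod.natCast_eq_zero_iff] at h0
    exact (hp.coprime_iff_not_dvd.mp hN.symm) h0
  exact Finite.injective_iff_bijective.mp hinj

end Pool.LGC
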