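import Pool.Agent.Work.MP_b0c12c_chain.B_RESQa

/-! # Block RESQ, part b: second moment of the signed sums (helper41) -/

set_option autoImplicit false

namespace Pool.LGC

open Finset Filter
open Pool.LGP

theorem resq_sq {W p m : ℕ} (hp : 0 < p) (hW : W = p * m) (hc : p.Coprime m)
    (χ : DirichletCharacter ℂ W) (hχ : χ ^ 2 = 1) (χ₁ : DirichletCharacter ℂ p)
    (χ₂ : DirichletCharacter ℂ m)
    (h : ∀ n : ℕ, χ (n : ZMod W) = χ₁ (n : ZMod p) * χ₂ (n : ZMod m)) : χ₁ ^ 2 = 1 := by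
  have : NeZero p := ⟨hp.ne'⟩
  apply MulChar.ext
  intro a
  obtain ⟨n, hn1, hn2⟩ := Nat.chineseRemainder hc (a : ZMod p).val 1
  have e1 : (n : ZMod p) = (a : ZMod p) := by
    rw [(ZMod.natCast_eq_natCast_iff _ _ _).2 hn1, ZMod.natCast_zmod_val]
  have e2 : (n : ZMod m) = 1 := by
    rw [(ZMod.natCast_eq_natCast_iff _ _ _).2 hn2, Nat.cast_one]
  have hu : IsUnit (n : ZMod W) := by
    rw [ZMod.isUnit_iff_coprime, hW]
    refine Nat.Coprime.mul_right ?_ ?_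
    · have := ZMod.val_coe_unit_coprime a
      exact hn1.gcd_eq.trans this
    · exact hn2.gcd_eq.trans (Nat.gcd_one_left m)
  have e3 := h n
  rw [e1, e2, map_one, mul_one] at e3
  rw [MulChar.pow_apply' χ₁ two_ne_zero, ← e3, ← MulChar.pow_apply' χ two_ne_zero, hχ,
    MulChar.one_apply hu, MulChar.one_apply a.isUnit]

theorem resq_Z (W p m : ℕ) (hp : p.Prime) (hm : 0 < m) (hW : W = p * m) (hc : p.Coprime m)
    (χ : DirichletCharacter ℂ W) (hχ : χ ^ 2 = 1) (G : ℕ) (hG1 : G ≡ 1 [MOD m])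
    (hGχ : χ (G : ZMod W) = -1) (R' : Finset ℕ) (hR' : ∀ q ∈ R', q.Prime ∧ q ≠ p)
    (A : Finset ℕ) (V : ℕ → ℕ) (hVp : ∀ v, V v ≡ v [MOD p])
    (hVm : ∀ a t, V (a + (∏ q ∈ R', q) * t) ≡ V a [MOD m]) :
    ∑ v ∈ range ((∏ q ∈ R', q) * p), (∑ q ∈ A,
      if (∀ r ∈ R', ¬ r ∣ v + q) then (χ ((V v + q : ℕ) : ZMod W)).re else 0) ^ 2 ≤
      p * ∑ a ∈ range (∏ q ∈ R', q), ∑ q ∈ A, ∑ q' ∈ A,
        (if ((∀ r ∈ R', ¬ r ∣ a + q) ∧ (∀ r ∈ R', ¬ r ∣ a + q')) ∧ q ≡ q' [MOD p]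
          then (1 : ℝ) else 0) := by
  classical
  have := Fact.mk hp
  obtain ⟨χ₁, χ₂, hs⟩ := resq_split W p m hW hc χ
  have hχ₁ : χ₁ ^ 2 = 1 := resq_sq hp.pos hW hc χ hχ χ₁ χ₂ hs
  have hχ₂ : χ₂ ^ 2 = 1 := resq_sq hm (by rw [hW, mul_comm]) hc.symm χ hχ χ₂ χ₁
    (fun n => by rw [hs n, mul_comm])
  have hne : χ₁ ≠ 1 := by
    intro h1
    have e1 := hs G
    have e2 : (G : ZMod m) = 1 := by
      rw [(ZMod.natCast_eq_natCast_iff _ _ _).2 hG1, Nat.cast_one]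
    rw [hGχ, e2, map_one, mul_one, h1] at e1
    by_cases hu : IsUnit (G : ZMod p)
    · rw [MulChar.one_apply hu] at e1; norm_num at e1
    · rw [MulChar.map_nonunit _ hu] at e1; norm_num at e1
  set N : ℕ := ∏ q ∈ R', q with hN
  have hN0 : 0 < N := Finset.prod_pos fun q hq => (hR' q hq).1.pos
  have hNp : N.Coprime p := by
    rw [hN]
    apply Nat.Coprime.prod_left
    intro q hq
    exact (Nat.coprime_primes (hR' q hq).1 hp).2 (hR' q hq).2
  rw [resq_range N p hN0, Finset.mul_sum]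
  refine Finset.sum_le_sum fun a _ => ?_
  have hcond : ∀ t q, (∀ r ∈ R', ¬ r ∣ a + N * t + q) ↔ ∀ r ∈ R', ¬ r ∣ a + q := by
    intro t q
    refine forall₂_congr fun r hr => not_congr ?_
    have h1 : r ∣ N * t := (Finset.dvd_prod_of_mem _ hr).mul_right t
    rw [show a + N * t + q = N * t + (a + q) by ring]
    exact Nat.dvd_add_right h1
  set T : Finset ℕ := A.filter (fun q => ∀ r ∈ R', ¬ r ∣ a + q) with hT
  have e1 : ∀ t ∈ range p, (∑ q ∈ A, if (∀ r ∈ R', ¬ r ∣ a + N * t + q)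
      then (χ ((V (a + N * t) + q : ℕ) : ZMod W)).re else 0) ^ 2 =
      (fun r : ZMod p => (∑ q ∈ T, (χ₂ ((V a + q : ℕ) : ZMod m)).re *
        (χ₁ (r + (q : ZMod p))).re) ^ 2) ((a + N * t : ℕ) : ZMod p) := by
    intro t _
    show _ = (∑ q ∈ T, (χ₂ ((V a + q : ℕ) : ZMod m)).re *
        (χ₁ (((a + N * t : ℕ) : ZMod p) + (q : ZMod p))).re) ^ 2
    rw [hT, Finset.sum_filter]
    congr 1
    refine Finset.sum_congr rfl fun q _ => ?_
    by_cases hcq : ∀ r ∈ R', ¬ r ∣ a + q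
    · rw [if_pos ((hcond t q).2 hcq), if_pos hcq, hs]
      have f1 : ((V (a + N * t) + q : ℕ) : ZMod p) = ((a + N * t : ℕ) : ZMod p) + (q : ZMod p) := by
        rw [Nat.cast_add, (ZMod.natCast_eq_natCast_iff _ _ _).2 (hVp (a + N * t))]
      have f2 : ((V (a + N * t) + q : ℕ) : ZMod m) = ((V a + q : ℕ) : ZMod m) :=
        (ZMod.natCast_eq_natCast_iff _ _ _).2 ((hVm a t).add_right q)
      rw [f1, f2]
      have g1 := (resq_re χ₁ hχ₁ (((a + N * t : ℕ) : ZMod p) + (q : ZMod p))).1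
      have g2 := (resq_re χ₂ hχ₂ ((V a + q : ℕ) : ZMod m)).1
      rw [← g1, ← g2, ← Complex.ofReal_mul, Complex.ofReal_re, Complex.ofReal_re,
        Complex.ofReal_re, mul_comm]
    · rw [if_neg (fun h => hcq ((hcond t q).1 h)), if_neg hcq]
  have e5 := resq_shift hp N a hNp (fun r : ZMod p => (∑ q ∈ T,
    (χ₂ ((V a + q : ℕ) : ZMod m)).re * (χ₁ (r + (q : ZMod p))).re) ^ 2)
  refine ((Finset.sum_congr rfl e1).trans e5).trans_le ?_
  refine (resq_quad hp χ₁ hχ₁ hne T (fun q => (χ₂ ((V a + q : ℕ) : ZMod m)).re)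
    (fun q => (resq_re χ₂ hχ₂ _).2)).trans (le_of_eq ?_)
  congr 1
  rw [hT, Finset.sum_filter]
  refine Finset.sum_congr rfl fun q _ => ?_
  by_cases hcq : ∀ r ∈ R', ¬ r ∣ a + q
  · rw [if_pos hcq, Finset.sum_filter]
    refine Finset.sum_congr rfl fun q' _ => ?_
    by_cases hcq' : ∀ r ∈ R', ¬ r ∣ a + q'
    · rw [if_pos hcq']
      by_cases hqq : q ≡ q' [MOD p]
      · rw [if_pos hqq, if_pos ⟨⟨hcq, hcq'⟩, hqq⟩]
      · rw [if_neg hqq, if_neg (fun h => hqq h.2)]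
    · rw [if_neg hcq', if_neg (fun h => hcq' h.1.2)]
  · rw [if_neg hcq]
    symm
    exact Finset.sum_eq_zero fun q' _ => if_neg (fun h => hcq h.1.1)

theorem resq_mom2 (hA : Stmt_AVG) (p : ℕ) (R A : Finset ℕ) (hR : ∀ p ∈ R, p.Prime) :
    ∑ a ∈ range (∏ q ∈ R, q), ∑ q ∈ A, ∑ q' ∈ A,
        (if ((∀ r ∈ R, ¬ r ∣ a + q) ∧ (∀ r ∈ R, ¬ r ∣ a + q')) ∧ q ≡ q' [MOD p]
          then (1 : ℝ) else 0) ≤
      ((∏ p ∈ R, p : ℕ) : ℝ) * (Pi' R * A.card + Pi' R ^ 2 *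
        ∑ q ∈ A, ∑ q' ∈ (A.erase q).filter (fun q' => q ≡ q' [MOD p]), rw2 R q q') := by
  classical
  rw [Finset.sum_comm]
  have e2 : ∀ q ∈ A, ∑ v ∈ range (∏ p ∈ R, p), ∑ q' ∈ A,
      (if ((∀ r ∈ R, ¬ r ∣ v + q) ∧ (∀ r ∈ R, ¬ r ∣ v + q')) ∧ q ≡ q' [MOD p]
          then (1 : ℝ) else 0) ≤
      ((∏ p ∈ R, p : ℕ) : ℝ) * (Pi' R + Pi' R ^ 2 *
        ∑ q' ∈ (A.erase q).filter (fun q' => q ≡ q' [MOD p]), rw2 R q q') := by
    intro q hq
    rw [Finset.sum_comm, ← Finset.add_sum_erase A _ hq, mul_add, Finset.mul_sum, Finset.mul_sum,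
      Finset.sum_filter]
    refine add_le_add ?_ (Finset.sum_le_sum fun q' _ => ?_)
    · have h1 := (hA R hR q q).1
      have h3 : ∑ v ∈ range (∏ p ∈ R, p),
          (if ((∀ r ∈ R, ¬ r ∣ v + q) ∧ (∀ r ∈ R, ¬ r ∣ v + q)) ∧ q ≡ q [MOD p]
            then (1 : ℝ) else 0) = ((∏ p ∈ R, (p - 1) : ℕ) : ℝ) := by
        rw [← h1, Finset.card_filter]
        push_cast
        refine Finset.sum_congr rfl fun v _ => ?_
        have : q ≡ q [MOD p] := Nat.ModEq.refl q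
        simp only [and_self, this, and_true]
      rw [h3]
      unfold Pi'
      push_cast
      rw [← Finset.prod_mul_distrib]
      refine le_of_eq (Finset.prod_congr rfl fun p hp => ?_)
      have hp' := hR p hp
      rw [Nat.cast_sub hp'.one_le]
      have : (p : ℝ) ≠ 0 := by exact_mod_cast hp'.ne_zero
      push_cast
      field_simp
    · by_cases hqq : q ≡ q' [MOD p]
      · rw [if_pos hqq]
        have h1 := (hA R hR q q').2
        have h3 : ∑ v ∈ range (∏ p ∈ R, p),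
            (if ((∀ r ∈ R, ¬ r ∣ v + q) ∧ (∀ r ∈ R, ¬ r ∣ v + q')) ∧ q ≡ q' [MOD p]
              then (1 : ℝ) else 0) =
            ((∏ p ∈ R, (p - if q ≡ q' [MOD p] then 1 else 2) : ℕ) : ℝ) := by
          rw [← h1, Finset.card_filter]
          push_cast
          refine Finset.sum_congr rfl fun v _ => ?_
          simp only [hqq, and_true]
        rw [h3, ← mul_assoc]
        exact resp_pair R hR q q'
      · rw [if_neg hqq]
        exact le_of_eq (Finset.sum_eq_zero fun v _ => if_neg (fun h => hqq h.2))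
  refine (Finset.sum_le_sum e2).trans (le_of_eq ?_)
  rw [← Finset.mul_sum, Finset.sum_add_distrib, Finset.sum_const, ← Finset.mul_sum, nsmul_eq_mul]
  ring

/-- The pair sum over the pairs which are congruent modulo `p`. -/
theorem resq_pairs {C : ℝ} (hB : ∀ d x h c : ℕ, 0 < d → d ^ 2 ≤ h → 2 ≤ h →
    (((Ioc x (x + h)).filter (fun q => q.Prime ∧ q ≡ c [MOD d])).card : ℝ) ≤
      C * (h / (d.totient * Real.log h))) (hC : 0 < C) (hTAB : Stmt_TAB) (z : ℕ) (hz : 4 ≤ z)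
    (R : Finset ℕ) (hR : ∀ p ∈ R, p.Prime ∧ z < p) (p : ℕ) (hp : p.Prime) (hzp : z < p)
    (hpR : p ∉ R) (x h : ℕ) (h2 : 2 ≤ h) :
    ∑ q ∈ (Ioc x (x + h)).filter Nat.Prime,
      ∑ q' ∈ (((Ioc x (x + h)).filter Nat.Prime).erase q).filter (fun q' => q ≡ q' [MOD p]),
      rw2 R q q' ≤ (((Ioc x (x + h)).filter Nat.Prime).card : ℝ) *
        (C * (h / Real.log h) * (6 / z) + (h : ℝ) ^ (3 / 4 : ℝ) * Real.exp 8) := by
  classical
  set A := (Ioc x (x + h)).filter Nat.Prime with hA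
  have hlog : 0 < Real.log (h : ℝ) := Real.log_pos (by exact_mod_cast (show 1 < h by omega))
  have hz0 : (4 : ℝ) ≤ z := by exact_mod_cast hz
  have hpz : (z : ℝ) + 1 ≤ p := by exact_mod_cast hzp
  have hpr := resp_prod hTAB z hz R hR
  have key : ∀ q ∈ A, ∑ q' ∈ (A.erase q).filter (fun q' => q ≡ q' [MOD p]), rw2 R q q' ≤
      (C * (h / Real.log h) * (6 / z) + (h : ℝ) ^ (3 / 4 : ℝ) * Real.exp 8) := by
    intro q hq
    unfold rw2
    rw [Finset.sum_comm]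
    have e1 : ∀ T ∈ R.powerset, ∑ q' ∈ (A.erase q).filter (fun q' => q ≡ q' [MOD p]),
        (if (∀ p ∈ T, q ≡ q' [MOD p]) then ∏ p ∈ T, (1 / ((p : ℝ) - 1)) else 0) ≤
          (C * (h / Real.log h) * (1 / z) * ∏ p ∈ T, (1 / ((p : ℝ) - 1)) ^ 2 +
            (h : ℝ) ^ (3 / 4 : ℝ) * ∏ p ∈ T, (1 / ((p : ℝ) - 1) * (1 / √(p : ℝ)))) := by
      intro T hT
      have hTR := Finset.mem_powerset.mp hT
      have hT' : ∀ p ∈ T, p.Prime := fun p hp => (hR p (hTR hp)).1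
      have hT1 : ∀ p ∈ T, (0 : ℝ) < (p : ℝ) - 1 := fun p hp => by
        have : (2 : ℝ) ≤ p := by exact_mod_cast (hT' p hp).two_le
        linarith
      have hw : 0 ≤ ∏ p ∈ T, (1 / ((p : ℝ) - 1)) :=
        Finset.prod_nonneg fun p hp => (by have := hT1 p hp; positivity)
      have hw2 : 0 ≤ ∏ p ∈ T, (1 / √(p : ℝ)) := Finset.prod_nonneg fun p _ => by positivity
      have hpT : p ∉ T := fun h => hpR (hTR h)
      have hins : ∀ r ∈ insert p T, r.Prime := by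
        intro r hr
        rcases Finset.mem_insert.mp hr with h1 | h1
        · rw [h1]; exact hp
        · exact hT' r h1
      rw [← Finset.sum_filter, Finset.sum_const, nsmul_eq_mul, Finset.filter_filter]
      have hc := resp_count hB hC x h h2 (insert p T) hins q hq
      rw [← hA, Finset.prod_insert hpT, Finset.prod_insert hpT] at hc
      have hset : (A.erase q).filter (fun q' => q ≡ q' [MOD p] ∧ ∀ r ∈ T, q ≡ q' [MOD r]) =
          (A.erase q).filter (fun q' => ∀ r ∈ insert p T, q ≡ q' [MOD r]) := by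
        apply Finset.filter_congr
        intro q' _
        rw [Finset.forall_mem_insert]
      rw [hset]
      have hpz1 : 1 / ((p : ℝ) - 1) ≤ 1 / z :=
        one_div_le_one_div_of_le (by linarith) (by linarith)
      have hsp : 1 / √(p : ℝ) ≤ 1 := by
        rw [div_le_one (Real.sqrt_pos.mpr (by linarith)), Real.one_le_sqrt]; linarith
      calc (((A.erase q).filter (fun q' => ∀ r ∈ insert p T, q ≡ q' [MOD r])).card : ℝ) *
          ∏ p ∈ T, (1 / ((p : ℝ) - 1))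
          ≤ (C * (h / Real.log h) * (1 / ((p : ℝ) - 1) * ∏ p ∈ T, (1 / ((p : ℝ) - 1))) +
            (h : ℝ) ^ (3 / 4 : ℝ) * (1 / √(p : ℝ) * ∏ p ∈ T, (1 / √(p : ℝ)))) *
              ∏ p ∈ T, (1 / ((p : ℝ) - 1)) := mul_le_mul_of_nonneg_right hc hw
        _ ≤ (C * (h / Real.log h) * (1 / z * ∏ p ∈ T, (1 / ((p : ℝ) - 1))) +
            (h : ℝ) ^ (3 / 4 : ℝ) * (1 * ∏ p ∈ T, (1 / √(p : ℝ)))) *
              ∏ p ∈ T, (1 / ((p : ℝ) - 1)) := by gcongr
        _ = _ := by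
          rw [Finset.prod_pow, Finset.prod_mul_distrib]; ring
    refine (Finset.sum_le_sum e1).trans ?_
    rw [Finset.sum_add_distrib, ← Finset.mul_sum, ← Finset.mul_sum]
    have f1 : C * (h / Real.log h) * (1 / z) *
        ∑ T ∈ R.powerset, ∏ p ∈ T, (1 / ((p : ℝ) - 1)) ^ 2 ≤
        C * (h / Real.log h) * (1 / z) * (1 + 8 / z) :=
      mul_le_mul_of_nonneg_left hpr.1 (by positivity)
    have f2 : (h : ℝ) ^ (3 / 4 : ℝ) *
        ∑ T ∈ R.powerset, ∏ p ∈ T, (1 / ((p : ℝ) - 1) * (1 / √(p : ℝ))) ≤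
        (h : ℝ) ^ (3 / 4 : ℝ) * Real.exp 8 := mul_le_mul_of_nonneg_left hpr.2 (by positivity)
    have f3 : (1 : ℝ) + 8 / z ≤ 6 := by
      have : (8 : ℝ) / z ≤ 2 := by rw [div_le_iff₀ (by linarith)]; linarith
      linarith
    have f4 : C * (h / Real.log h) * (1 / z) * (1 + 8 / z) ≤ C * (h / Real.log h) * (6 / z) := by
      calc C * (h / Real.log h) * (1 / z) * (1 + 8 / z) ≤ C * (h / Real.log h) * (1 / z) * 6 :=
            mul_le_mul_of_nonneg_left f3 (by positivity)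
        _ = C * (h / Real.log h) * (6 / z) := by ring
    linarith
  refine (Finset.sum_le_sum key).trans (le_of_eq ?_)
  rw [Finset.sum_const, nsmul_eq_mul]

end Pool.LGC
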