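import Pool.Agent.Work.MP_b0c12c_chain.B_RESQb

/-! # Block RESQ, part c: the prime of the conductor, the lift, the bad residues (helper41) -/

set_option autoImplicit false

namespace Pool.LGC

open Finset Filter
open Pool.LGP

/-- A generator of the sign, congruent to `1` modulo all primes but one prime of `T`. -/
theorem resq_gen (w : ℕ) (χ : DirichletCharacter ℂ (primorial w))
    (h2 : ∀ n : ℕ, n.Coprime (primorial w) → χ (n : ZMod (primorial w)) = 1 ∨
      χ (n : ZMod (primorial w)) = -1) (T : Finset ℕ) :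
    ∀ G : ℕ, G.Coprime (primorial w) → χ (G : ZMod (primorial w)) = -1 →
      (∀ p : ℕ, p.Prime → p ≤ w → p ∉ T → G ≡ 1 [MOD p]) →
      ∃ p₁ G₁ : ℕ, p₁ ∈ T ∧ p₁.Prime ∧ p₁ ≤ w ∧
        χ (G₁ : ZMod (primorial w)) = -1 ∧
        ∀ p : ℕ, p.Prime → p ≤ w → p ≠ p₁ → G₁ ≡ 1 [MOD p] := by
  induction T using Finset.induction_on with
  | empty =>
    intro G hG hχ h
    exfalso
    have h1 : G ≡ 1 [MOD primorial w] := SGN_modEq w G 1 fun p hp hpw => h p hp hpw (by simp)
    have h3 : (G : ZMod (primorial w)) = ((1 : ℕ) : ZMod (primorial w)) :=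
      (ZMod.natCast_eq_natCast_iff _ _ _).2 h1
    rw [h3, Nat.cast_one, map_one] at hχ
    norm_num at hχ
  | insert p T hpT ih =>
    intro G hG hχ h
    by_cases hp : p.Prime ∧ p ≤ w
    · obtain ⟨hp1, hp2⟩ := hp
      obtain ⟨m, hm⟩ : p ∣ primorial w := hp1.dvd_primorial_iff.2 hp2
      have hcop : Nat.Coprime p m := by
        have hsq := squarefree_primorial w
        rw [hm] at hsq
        exact Nat.coprime_of_squarefree_mul hsq
      obtain ⟨a, ha1, ha2⟩ := Nat.chineseRemainder hcop G 1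
      obtain ⟨b, hb1, hb2⟩ := Nat.chineseRemainder hcop 1 G
      have hGp : G.Coprime p := Nat.Coprime.coprime_dvd_right ⟨m, hm⟩ hG
      have hGm : G.Coprime m := Nat.Coprime.coprime_dvd_right ⟨p, by rw [hm, mul_comm]⟩ hG
      have hac : a.Coprime (primorial w) := by
        rw [hm]
        refine Nat.Coprime.mul_right ?_ ?_
        · exact (ha1.gcd_eq.trans hGp)
        · exact (ha2.gcd_eq.trans (Nat.gcd_one_left m))
      have hbc : b.Coprime (primorial w) := by
        rw [hm]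
        refine Nat.Coprime.mul_right ?_ ?_
        · exact (hb1.gcd_eq.trans (Nat.gcd_one_left p))
        · exact (hb2.gcd_eq.trans hGm)
      have hab : a * b ≡ G [MOD primorial w] := by
        rw [hm]
        refine (Nat.modEq_and_modEq_iff_modEq_mul hcop).1 ⟨?_, ?_⟩
        · simpa using ha1.mul hb1
        · simpa using ha2.mul hb2
      have hχab : χ (a : ZMod (primorial w)) * χ (b : ZMod (primorial w)) = -1 := by
        rw [← map_mul, ← Nat.cast_mul, (ZMod.natCast_eq_natCast_iff _ _ _).2 hab, hχ]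
      have hdvd : ∀ q : ℕ, q.Prime → q ≤ w → q ≠ p → q ∣ m := by
        intro q hq hqw hqp
        have h1 : q ∣ p * m := by
          rw [← hm]
          exact hq.dvd_primorial_iff.2 hqw
        rcases (Nat.Prime.dvd_mul hq).1 h1 with h3 | h3
        · exact absurd ((Nat.prime_dvd_prime_iff_eq hq hp1).1 h3) hqp
        · exact h3
      rcases h2 a hac with h5 | h5
      · rw [h5, one_mul] at hχab
        obtain ⟨p₁, G₁, i1, i2⟩ := ih b hbc hχab (by
          intro q hq hqw hqT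
          by_cases hqp : q = p
          · rw [hqp]
            exact hb1
          · exact (hb2.of_dvd (hdvd q hq hqw hqp)).trans
              (h q hq hqw (by simp [hqp, hqT])))
        exact ⟨p₁, G₁, Finset.mem_insert_of_mem i1, i2⟩
      · exact ⟨p, a, Finset.mem_insert_self p T, hp1, hp2, h5,
          fun q hq hqw hqp => ha2.of_dvd (hdvd q hq hqw hqp)⟩
    · obtain ⟨p₁, G₁, i1, i2⟩ := ih G hG hχ (by
        intro q hq hqw hqT
        apply h q hq hqw
        rw [Finset.mem_insert, not_or]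
        refine ⟨?_, hqT⟩
        rintro rfl
        exact hp ⟨hq, hqw⟩)
      exact ⟨p₁, G₁, Finset.mem_insert_of_mem i1, i2⟩

/-- A prime larger than `z` of the conductor. -/
theorem resq_p1 (w z : ℕ) (χ : DirichletCharacter ℂ (primorial w)) (hχ : χ ^ 2 = 1)
    (hzw : z ≤ w) (hc : primorial z < χ.conductor) :
    ∃ p₁ : ℕ, p₁.Prime ∧ z < p₁ ∧ p₁ ≤ w ∧ ∃ G : ℕ, χ (G : ZMod (primorial w)) = -1 ∧
      ∀ p : ℕ, p.Prime → p ≤ w → p ≠ p₁ → G ≡ 1 [MOD p] := by
  have hW : NeZero (primorial w) := ⟨primorial_ne_zero w⟩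
  have hval : ∀ n : ℕ, n.Coprime (primorial w) → χ (n : ZMod (primorial w)) = 1 ∨
      χ (n : ZMod (primorial w)) = -1 := by
    intro n hn
    have hu : IsUnit (n : ZMod (primorial w)) := (ZMod.isUnit_iff_coprime n (primorial w)).2 hn
    rcases resq_val χ hχ (n : ZMod (primorial w)) with h | h | h
    · exact absurd h (hu.map χ).ne_zero
    · exact Or.inl h
    · exact Or.inr h
  have hd : primorial z ∣ primorial w := by
    unfold primorial
    apply Finset.prod_dvd_prod_of_subset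
    apply Finset.filter_subset_filter
    exact Finset.range_subset_range.2 (by omega)
  have hnf : ¬ χ.FactorsThrough (primorial z) := by
    intro hf
    exact absurd (Nat.sInf_le hf) (not_le.2 hc)
  rw [DirichletCharacter.factorsThrough_iff_ker_unitsMap hd] at hnf
  obtain ⟨u, hu1, hu2⟩ := SetLike.not_le_iff_exists.1 hnf
  have hG0 : ((u : ZMod (primorial w)).val).Coprime (primorial w) := ZMod.val_coe_unit_coprime u
  have hG1 : (((u : ZMod (primorial w)).val : ℕ) : ZMod (primorial w)) = u :=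
    ZMod.natCast_zmod_val _
  have hχu : χ (u : ZMod (primorial w)) ≠ 1 := by
    intro h
    apply hu2
    rw [MonoidHom.mem_ker]
    ext
    rw [MulChar.coe_toUnitHom, h, Units.val_one]
  have hG2 : χ (((u : ZMod (primorial w)).val : ℕ) : ZMod (primorial w)) = -1 := by
    rcases hval _ hG0 with h | h
    · rw [hG1] at h
      exact absurd h hχu
    · exact h
  have hmod : (u : ZMod (primorial w)).val ≡ 1 [MOD primorial z] := by
    rw [← ZMod.natCast_eq_natCast_iff]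
    rw [MonoidHom.mem_ker] at hu1
    have h3 := congrArg (fun t : (ZMod (primorial z))ˣ => (t : ZMod (primorial z))) hu1
    simp only [ZMod.unitsMap_def, Units.coe_map, Units.val_one] at h3
    rw [Nat.cast_one, ← h3]
    have h4 := map_natCast (ZMod.castHom hd (ZMod (primorial z)))
      ((u : ZMod (primorial w)).val)
    rw [hG1] at h4
    rw [← h4]
    rfl
  obtain ⟨p₁, G, i1, i2, i3, i4, i5⟩ := resq_gen w χ hval (Finset.Ioc z w)
    ((u : ZMod (primorial w)).val) hG0 hG2 (fun p hp hpw hpT => by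
      have hpz : p ≤ z := by
        by_contra hcon
        exact hpT (Finset.mem_Ioc.2 ⟨by omega, hpw⟩)
      exact hmod.of_dvd (hp.dvd_primorial_iff.2 hpz))
  exact ⟨p₁, i2, (Finset.mem_Ioc.1 i1).1, i3, G, i4, i5⟩

/-- The lift of the residues. -/
theorem resq_V (w : ℕ) (R : Finset ℕ) (hR : ∀ p ∈ R, p.Prime ∧ p ≤ w) :
    ∃ V : ℕ → ℕ, (∀ v, V v < primorial w) ∧ (∀ v, ∀ p ∈ R, V v ≡ v [MOD p]) ∧
      (∀ v, ∀ p : ℕ, p.Prime → p ≤ w → p ∉ R → p ∣ V v) := by
  classical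
  set S : Finset ℕ := (range (w + 1)).filter Nat.Prime with hS
  have hcop : (∏ p ∈ R, p).Coprime (∏ p ∈ S \ R, p) := by
    apply Nat.Coprime.prod_left
    intro p hp
    apply Nat.Coprime.prod_right
    intro q hq
    rw [Finset.mem_sdiff, hS, Finset.mem_filter] at hq
    exact (Nat.coprime_primes (hR p hp).1 hq.1.2).2 (fun h => hq.2 (h ▸ hp))
  refine ⟨fun v => (Nat.chineseRemainder hcop v 0 : ℕ) % primorial w,
    fun v => Nat.mod_lt _ (primorial_pos w), fun v p hp => ?_, fun v p hp hpw hpR => ?_⟩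
  · have h1 : (Nat.chineseRemainder hcop v 0 : ℕ) % primorial w ≡
        (Nat.chineseRemainder hcop v 0 : ℕ) [MOD p] :=
      (Nat.mod_modEq _ _).of_dvd ((hR p hp).1.dvd_primorial_iff.2 (hR p hp).2)
    exact h1.trans ((Nat.chineseRemainder hcop v 0).2.1.of_dvd (Finset.dvd_prod_of_mem _ hp))
  · have h1 : (Nat.chineseRemainder hcop v 0 : ℕ) % primorial w ≡
        (Nat.chineseRemainder hcop v 0 : ℕ) [MOD p] :=
      (Nat.mod_modEq _ _).of_dvd (hp.dvd_primorial_iff.2 hpw)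
    have h2 : p ∈ S \ R := Finset.mem_sdiff.2 ⟨Finset.mem_filter.2
      ⟨Finset.mem_range.2 (by omega), hp⟩, hpR⟩
    exact (Nat.modEq_zero_iff_dvd).1 (h1.trans
      ((Nat.chineseRemainder hcop v 0).2.2.of_dvd (Finset.dvd_prod_of_mem _ h2)))

/-- Second moment of the signed sum, in terms of the primorial. -/
theorem resq_Zm (hAVG : Stmt_AVG) (w : ℕ) (χ : DirichletCharacter ℂ (primorial w))
    (hχ : χ ^ 2 = 1) (p₁ G : ℕ) (hp₁ : p₁.Prime) (hp₁w : p₁ ≤ w)
    (hGχ : χ (G : ZMod (primorial w)) = -1)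
    (hG : ∀ p : ℕ, p.Prime → p ≤ w → p ≠ p₁ → G ≡ 1 [MOD p]) (R : Finset ℕ)
    (hR : ∀ p ∈ R, p.Prime ∧ p ≤ w) (hpR : p₁ ∈ R) (V : ℕ → ℕ)
    (hV : ∀ v, ∀ p ∈ R, V v ≡ v [MOD p])
    (hV0 : ∀ v, ∀ p : ℕ, p.Prime → p ≤ w → p ∉ R → p ∣ V v) (A : Finset ℕ) :
    ∑ v ∈ range (∏ p ∈ R, p), (∑ q ∈ A, if (∀ r ∈ R.erase p₁, ¬ r ∣ v + q)
        then (χ ((V v + q : ℕ) : ZMod (primorial w))).re else 0) ^ 2 ≤
      ((∏ p ∈ R, p : ℕ) : ℝ) * (Pi' (R.erase p₁) * A.card + Pi' (R.erase p₁) ^ 2 *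
        ∑ q ∈ A, ∑ q' ∈ (A.erase q).filter (fun q' => q ≡ q' [MOD p₁]),
          rw2 (R.erase p₁) q q') := by
  classical
  set S : Finset ℕ := (range (w + 1)).filter Nat.Prime with hS
  set m : ℕ := ∏ p ∈ S.erase p₁, p with hm
  have hp₁S : p₁ ∈ S := Finset.mem_filter.2 ⟨Finset.mem_range.2 (by omega), hp₁⟩
  have hW : primorial w = p₁ * m := by
    rw [hm, Finset.mul_prod_erase S (fun p => p) hp₁S]; rfl
  have hSp : ∀ r ∈ S.erase p₁, r.Prime ∧ r ≤ w ∧ r ≠ p₁ := by
    intro r hr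
    rw [Finset.mem_erase, hS, Finset.mem_filter, Finset.mem_range] at hr
    exact ⟨hr.2.2, by omega, hr.1⟩
  have hm0 : 0 < m := Finset.prod_pos fun r hr => (hSp r hr).1.pos
  have hc : p₁.Coprime m := by
    rw [hm]
    apply Nat.Coprime.prod_right
    intro r hr
    exact (Nat.coprime_primes hp₁ (hSp r hr).1).2 (hSp r hr).2.2.symm
  have hG1 : G ≡ 1 [MOD m] := resp_modEq _ (fun r hr => (hSp r hr).1) _ _
    (fun r hr => hG r (hSp r hr).1 (hSp r hr).2.1 (hSp r hr).2.2)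
  have hR' : ∀ q ∈ R.erase p₁, q.Prime ∧ q ≠ p₁ := by
    intro q hq
    rw [Finset.mem_erase] at hq
    exact ⟨(hR q hq.2).1, hq.1⟩
  have hVm : ∀ a t, V (a + (∏ q ∈ R.erase p₁, q) * t) ≡ V a [MOD m] := by
    intro a t
    apply resp_modEq _ (fun r hr => (hSp r hr).1)
    intro r hr
    obtain ⟨hr1, hr2, hr3⟩ := hSp r hr
    by_cases hrR : r ∈ R
    · have h1 := hV (a + (∏ q ∈ R.erase p₁, q) * t) r hrR
      have h2 := hV a r hrR
      have h3 : r ∣ (∏ q ∈ R.erase p₁, q) * t :=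
        (Finset.dvd_prod_of_mem _ (Finset.mem_erase.2 ⟨hr3, hrR⟩)).mul_right t
      have h4 : a + (∏ q ∈ R.erase p₁, q) * t ≡ a + 0 [MOD r] :=
        (Nat.modEq_zero_iff_dvd.2 h3).add_left a
      rw [add_zero] at h4
      exact h1.trans (h4.trans h2.symm)
    · exact (Nat.modEq_zero_iff_dvd.2 (hV0 _ r hr1 hr2 hrR)).trans
        (Nat.modEq_zero_iff_dvd.2 (hV0 _ r hr1 hr2 hrR)).symm
  have hprod : ∏ p ∈ R, p = (∏ p ∈ R.erase p₁, p) * p₁ := by
    rw [mul_comm, Finset.mul_prod_erase R (fun p => p) hpR]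
  have h1 := resq_Z (primorial w) p₁ m hp₁ hm0 hW hc χ hχ G hG1 hGχ (R.erase p₁) hR' A V
    (fun v => hV v p₁ hpR) hVm
  have h2 := resq_mom2 hAVG p₁ (R.erase p₁) A (fun p hp => (hR' p hp).1)
  rw [hprod]
  refine h1.trans ?_
  refine (mul_le_mul_of_nonneg_left h2 (Nat.cast_nonneg p₁)).trans (le_of_eq ?_)
  push_cast
  ring

/-- The number of surviving primes with sign `-1`. -/
theorem resq_count (w : ℕ) (χ : DirichletCharacter ℂ (primorial w))
    (hχ : χ ^ 2 = 1) (p₁ : ℕ) (hp₁ : p₁.Prime) (hp₁w : p₁ ≤ w) (R : Finset ℕ)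
    (hpR : p₁ ∈ R) (V : ℕ → ℕ)
    (hV : ∀ v, ∀ p ∈ R, V v ≡ v [MOD p])
    (hV0 : ∀ v, ∀ p : ℕ, p.Prime → p ≤ w → p ∉ R → p ∣ V v) (A : Finset ℕ)
    (hA : ∀ q ∈ A, q.Prime ∧ w < q) (v : ℕ) :
    (Xv R A v : ℝ) - (∑ q ∈ A, if (∀ r ∈ R.erase p₁, ¬ r ∣ v + q)
        then (χ ((V v + q : ℕ) : ZMod (primorial w))).re else 0) =
      2 * ((A.filter (fun q => (∀ r ∈ R, ¬ r ∣ v + q) ∧
        χ ((V v + q : ℕ) : ZMod (primorial w)) = -1)).card : ℝ) := by
  classical
  unfold Xv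
  rw [Finset.card_filter, Finset.card_filter]
  simp only [Nat.cast_sum, Nat.cast_ite, Nat.cast_one, Nat.cast_zero]
  rw [Finset.mul_sum, ← Finset.sum_sub_distrib]
  refine Finset.sum_congr rfl fun q hq => ?_
  by_cases h1 : ∀ r ∈ R, ¬ r ∣ v + q
  · have h2 : ∀ r ∈ R.erase p₁, ¬ r ∣ v + q := fun r hr => h1 r (Finset.mem_of_mem_erase hr)
    have hcop : (V v + q).Coprime (primorial w) := by
      apply SGN_cop
      intro p hp hpw hd
      by_cases hpR' : p ∈ R
      · exact h1 p hpR' ((((hV v p hpR').add_right q).dvd_iff (dvd_refl p)).1 hd)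
      · have h3 : p ∣ q := (Nat.dvd_add_right (hV0 v p hp hpw hpR')).1 hd
        have h4 := (Nat.prime_dvd_prime_iff_eq hp (hA q hq).1).1 h3
        have h5 := (hA q hq).2
        omega
    have hu : IsUnit ((V v + q : ℕ) : ZMod (primorial w)) := (ZMod.isUnit_iff_coprime _ _).2 hcop
    rw [if_pos h1, if_pos h2]
    rcases resq_val χ hχ ((V v + q : ℕ) : ZMod (primorial w)) with h | h | h
    · exact absurd h (hu.map χ).ne_zero
    · rw [h, if_neg (show ¬((∀ r ∈ R, ¬ r ∣ v + q) ∧ (1 : ℂ) = -1) from fun hh => by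
        have := hh.2; norm_num at this)]
      norm_num
    · rw [h, if_pos (show (∀ r ∈ R, ¬ r ∣ v + q) ∧ (-1 : ℂ) = -1 from ⟨h1, rfl⟩)]
      norm_num
  · by_cases h2 : ∀ r ∈ R.erase p₁, ¬ r ∣ v + q
    · have h3 : p₁ ∣ v + q := by
        by_contra hc
        apply h1
        intro r hr
        by_cases hrp : r = p₁
        · rw [hrp]; exact hc
        · exact h2 r (Finset.mem_erase.2 ⟨hrp, hr⟩)
      have h4 : p₁ ∣ V v + q := (((hV v p₁ hpR).add_right q).dvd_iff (dvd_refl p₁)).2 h3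
      have h5 : ¬ IsUnit ((V v + q : ℕ) : ZMod (primorial w)) := by
        rw [ZMod.isUnit_iff_coprime]
        exact fun h => SGN_ndvd w (V v + q) p₁ hp₁ hp₁w h h4
      rw [χ.map_nonunit h5, if_neg h1, if_pos h2,
        if_neg (show ¬((∀ r ∈ R, ¬ r ∣ v + q) ∧ (0 : ℂ) = -1) from fun hh => h1 hh.1)]
      norm_num
    · rw [if_neg h1, if_neg h2, if_neg (show ¬((∀ r ∈ R, ¬ r ∣ v + q) ∧
        χ ((V v + q : ℕ) : ZMod (primorial w)) = -1) from fun hh => h1 hh.1)]
      norm_num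

end Pool.LGC
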