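import Pool.Agent.Work.MP_b0c12c_chain.B_RESQc
import Pool.Agent.Work.MP_b0c12c_chain.B_RESP

/-! # Block RESQ, part d: bad residues of one interval (helper41) -/

set_option autoImplicit false

namespace Pool.LGC

open Finset Filter
open Pool.LGP

/-- The bad set of the signed sum. -/
theorem resq_badZ {C z J P P' a q S m : ℝ} (hC : 0 < C) (hz : 0 < z) (hJ : 0 < J)
    (hzJ : 4096 * (6 * C + 1) * J ≤ z) (N : ℕ) (Z : ℕ → ℝ) (hP'0 : 0 ≤ P')
    (hP' : P' ≤ 2 * P) (ha : 0 ≤ a) (hq : q ≤ 4 * a)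
    (hS : S ≤ a * (C * q * (6 / z) + 1 / z * q)) (hm : m = P * a) (hmJ : 512 * J ≤ m)
    (h : ∑ v ∈ range N, Z v ^ 2 ≤ N * (P' * a + P' ^ 2 * S)) :
    (((range N).filter (fun v => m / 4 < |Z v|)).card : ℝ) ≤ N * (1 / (8 * J)) := by
  have hm0 : 0 < m := by
    have : 0 < 512 * J := by positivity
    linarith
  have e1 : P' * a + P' ^ 2 * S ≤ 2 * m + 16 * (6 * C + 1) / z * m ^ 2 := by
    have f1 : P' * a ≤ 2 * m := by
      calc P' * a ≤ 2 * P * a := mul_le_mul_of_nonneg_right hP' ha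
        _ = 2 * m := by rw [hm]; ring
    have f2 : S ≤ 4 * (6 * C + 1) / z * a ^ 2 := by
      calc S ≤ a * (C * q * (6 / z) + 1 / z * q) := hS
        _ = (6 * C + 1) / z * (a * q) := by ring
        _ ≤ (6 * C + 1) / z * (a * (4 * a)) := by gcongr
        _ = 4 * (6 * C + 1) / z * a ^ 2 := by ring
    have f3 : P' ^ 2 * S ≤ P' ^ 2 * (4 * (6 * C + 1) / z * a ^ 2) :=
      mul_le_mul_of_nonneg_left f2 (by positivity)
    have f4 : P' ^ 2 ≤ (2 * P) ^ 2 := by gcongr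
    have f5 : P' ^ 2 * (4 * (6 * C + 1) / z * a ^ 2) ≤
        (2 * P) ^ 2 * (4 * (6 * C + 1) / z * a ^ 2) :=
      mul_le_mul_of_nonneg_right f4 (by positivity)
    have f6 : (2 * P) ^ 2 * (4 * (6 * C + 1) / z * a ^ 2) = 16 * (6 * C + 1) / z * m ^ 2 := by
      rw [hm]; ring
    linarith
  have e2 : (((range N).filter (fun v => m / 4 < |Z v|)).card : ℝ) * (m / 4) ^ 2 ≤
      N * (2 * m + 16 * (6 * C + 1) / z * m ^ 2) := by
    calc (((range N).filter (fun v => m / 4 < |Z v|)).card : ℝ) * (m / 4) ^ 2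
        = ∑ v ∈ (range N).filter (fun v => m / 4 < |Z v|), (m / 4) ^ 2 := by
          rw [Finset.sum_const, nsmul_eq_mul]
      _ ≤ ∑ v ∈ (range N).filter (fun v => m / 4 < |Z v|), Z v ^ 2 := by
          refine Finset.sum_le_sum fun v hv => ?_
          have := (Finset.mem_filter.mp hv).2
          rw [← sq_abs (Z v)]
          gcongr
      _ ≤ ∑ v ∈ range N, Z v ^ 2 :=
          Finset.sum_le_sum_of_subset_of_nonneg (Finset.filter_subset _ _)
            fun v _ _ => by positivity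
      _ ≤ _ := h.trans (mul_le_mul_of_nonneg_left e1 (Nat.cast_nonneg N))
  have e3 : (((range N).filter (fun v => m / 4 < |Z v|)).card : ℝ) ≤
      N * (32 / m + 256 * (6 * C + 1) / z) := by
    have g1 : (N : ℝ) * (2 * m + 16 * (6 * C + 1) / z * m ^ 2) =
        (N * (32 / m + 256 * (6 * C + 1) / z)) * (m / 4) ^ 2 := by
      field_simp; ring
    rw [g1] at e2
    exact le_of_mul_le_mul_right e2 (by positivity)
  refine e3.trans (mul_le_mul_of_nonneg_left ?_ (Nat.cast_nonneg N))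
  have e4 : 32 / m ≤ 1 / (16 * J) := by
    rw [div_le_div_iff₀ hm0 (by positivity)]; linarith
  have e5 : 256 * (6 * C + 1) / z ≤ 1 / (16 * J) := by
    rw [div_le_div_iff₀ hz (by positivity)]; linarith
  have e6 : (1 : ℝ) / (8 * J) = 1 / (16 * J) + 1 / (16 * J) := by field_simp; norm_num
  linarith

/-- The bad set of the number of surviving primes with sign `-1`. -/
theorem resq_badY {J m : ℝ} (hJ : 0 < J) (hm : 0 < m) (N : ℕ) (X Z Y : ℕ → ℝ)
    (hX : (((range N).filter (fun v => X v < m / 2)).card : ℝ) ≤ N * (1 / (8 * J)))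
    (hZ : (∀ v, Y v = X v) ∨ ((((range N).filter (fun v => m / 4 < |Z v|)).card : ℝ) ≤
      N * (1 / (8 * J)) ∧ ∀ v, X v - Z v = 2 * Y v)) :
    (((range N).filter (fun v => Y v < m / 8)).card : ℝ) ≤ N * (1 / (4 * J)) := by
  classical
  have e0 : (N : ℝ) * (1 / (4 * J)) = N * (1 / (8 * J)) + N * (1 / (8 * J)) := by
    field_simp; ring
  have e1 : 0 ≤ (N : ℝ) * (1 / (8 * J)) := by positivity
  rcases hZ with h | ⟨h1, h2⟩
  · have h3 : (range N).filter (fun v => Y v < m / 8) ⊆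
        (range N).filter (fun v => X v < m / 2) := by
      intro v hv
      rw [Finset.mem_filter] at hv ⊢
      rw [h v] at hv
      exact ⟨hv.1, by linarith [hv.2]⟩
    have h4 : (((range N).filter (fun v => Y v < m / 8)).card : ℝ) ≤
        (((range N).filter (fun v => X v < m / 2)).card : ℝ) := by
      exact_mod_cast Finset.card_le_card h3
    linarith
  · have h3 : (range N).filter (fun v => Y v < m / 8) ⊆
        (range N).filter (fun v => X v < m / 2) ∪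
          (range N).filter (fun v => m / 4 < |Z v|) := by
      intro v hv
      rw [Finset.mem_union, Finset.mem_filter, Finset.mem_filter]
      rw [Finset.mem_filter] at hv
      by_contra hcon
      rw [not_or] at hcon
      have g1 : ¬ X v < m / 2 := fun h => hcon.1 ⟨hv.1, h⟩
      have g2 : ¬ m / 4 < |Z v| := fun h => hcon.2 ⟨hv.1, h⟩
      rw [not_lt] at g1 g2
      have g3 := (abs_le.mp g2).2
      have g4 := h2 v
      have g5 := hv.2
      linarith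
    have h4 : (((range N).filter (fun v => Y v < m / 8)).card : ℝ) ≤
        (((range N).filter (fun v => X v < m / 2)).card : ℝ) +
          (((range N).filter (fun v => m / 4 < |Z v|)).card : ℝ) := by
      exact_mod_cast (Finset.card_le_card h3).trans (Finset.card_union_le _ _)
    linarith

/-- The products over the set of primes. -/
theorem resq_prods {cM CM lz ly : ℝ} (hcM : 0 < cM) (hlz : 0 < lz) (z p₁ : ℕ)
    (hp₁ : p₁.Prime) (U R : Finset ℕ) (hU : ∀ p ∈ U, p.Prime)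
    (hR : R = insert p₁ (U.filter (fun p => z < p))) (h1 : cM / ly ≤ Pi' U)
    (h2 : Pi' U ≤ CM / ly) (h3 : cM / lz ≤ Pi' ((Icc 1 z).filter Nat.Prime)) :
    cM / 2 / ly ≤ Pi' R ∧ Pi' R ≤ CM / ly / (cM / lz) ∧ 0 < Pi' R ∧
      0 ≤ Pi' (R.erase p₁) ∧ Pi' (R.erase p₁) ≤ 2 * Pi' R := by
  classical
  have hRp : ∀ p ∈ R, p.Prime := by
    intro p hp
    rw [hR, Finset.mem_insert, Finset.mem_filter] at hp
    rcases hp with h | h
    · rw [h]; exact hp₁
    · exact hU p h.1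
  have hUp : ∀ p ∈ insert p₁ U, p.Prime := by
    intro p hp
    rw [Finset.mem_insert] at hp
    rcases hp with h | h
    · rw [h]; exact hp₁
    · exact hU p h
  have hp₁R : p₁ ∈ R := by rw [hR]; exact Finset.mem_insert_self _ _
  have hhalf : ∀ T : Finset ℕ, (∀ p ∈ T, p.Prime) → Pi' T ≤ 2 * Pi' (insert p₁ T) := by
    intro T hT
    have hT0 := resp_pi_pos T hT
    by_cases hp : p₁ ∈ T
    · rw [Finset.insert_eq_self.2 hp]; linarith
    · have e : Pi' (insert p₁ T) = (1 - 1 / (p₁ : ℝ)) * Pi' T := Finset.prod_insert hp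
      have h4 : (1 : ℝ) / 2 ≤ 1 - 1 / (p₁ : ℝ) := by
        have h5 : (2 : ℝ) ≤ p₁ := by exact_mod_cast hp₁.two_le
        have h6 : 1 / (p₁ : ℝ) ≤ 1 / 2 := one_div_le_one_div_of_le (by norm_num) h5
        linarith
      rw [e]
      nlinarith
  refine ⟨?_, ?_, resp_pi_pos R hRp, ?_, ?_⟩
  · have h4 : Pi' (insert p₁ U) ≤ Pi' R := by
      refine resp_pi_mono R (insert p₁ U) ?_ hUp
      rw [hR]
      exact Finset.insert_subset_insert _ (Finset.filter_subset _ _)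
    have h5 := hhalf U hU
    have h6 : cM / 2 / ly = cM / ly / 2 := by ring
    rw [h6]
    linarith
  · have h4 : Pi' R ≤ Pi' (U.filter (fun p => z < p)) := by
      refine resp_pi_mono _ R ?_ hRp
      rw [hR]
      exact Finset.subset_insert _ _
    have h5 := resp_pi_up U z hU
    have h6 : 0 < cM / lz := by positivity
    have h7 := resp_pi_pos U hU
    refine h4.trans (h5.trans ?_)
    exact div_le_div₀ (h7.le.trans h2) h2 h6 h3
  · exact (resp_pi_pos _ (fun p hp => hRp p (Finset.mem_of_mem_erase hp))).le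
  · have h4 := hhalf (R.erase p₁) (fun p hp => hRp p (Finset.mem_of_mem_erase hp))
    rw [Finset.insert_erase hp₁R] at h4
    exact h4

/-- The survivors of the first step. -/
theorem resq_T {C H L1 L2 y lz : ℝ} (p₁ Hn : ℕ) (hH : H = Hn) (hy : 0 < y)
    (hyL : H / y ≤ H * L2 / (L1 * lz)) (T A₁ : Finset ℕ)
    (hT : T ⊆ Icc 1 Hn) (hA₁ : A₁ = T.filter (fun n => ¬ (y < p₁ ∧ p₁ ∣ n)))
    (hC : (A₁.card : ℝ) ≤ C * (H * L2 / (L1 * lz))) :
    (T.card : ℝ) ≤ (C + 1) * (H * L2 / (L1 * lz)) := by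
  classical
  have h1 : (T.card : ℝ) = (A₁.card : ℝ) +
      ((T.filter (fun n => ¬ ¬ (y < p₁ ∧ p₁ ∣ n))).card : ℝ) := by
    rw [hA₁]
    exact_mod_cast (Finset.card_filter_add_card_filter_not (fun n => ¬ (y < p₁ ∧ p₁ ∣ n))).symm
  have h2 : ((T.filter (fun n => ¬ ¬ (y < p₁ ∧ p₁ ∣ n))).card : ℝ) ≤ H / y := by
    by_cases hyp : y < p₁
    · have h3 : T.filter (fun n => ¬ ¬ (y < p₁ ∧ p₁ ∣ n)) ⊆
          (Ioc 0 Hn).filter (fun n => p₁ ∣ n) := by
        intro n hn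
        rw [Finset.mem_filter, not_not] at hn
        have h4 := Finset.mem_Icc.1 (hT hn.1)
        rw [Finset.mem_filter, Finset.mem_Ioc]
        exact ⟨⟨by omega, h4.2⟩, hn.2.2⟩
      have h4 : (((Ioc 0 Hn).filter (fun n => p₁ ∣ n)).card : ℝ) ≤ H / p₁ := by
        rw [Nat.Ioc_filter_dvd_card_eq_div, hH]
        exact Nat.cast_div_le
      have h5 : ((T.filter (fun n => ¬ ¬ (y < p₁ ∧ p₁ ∣ n))).card : ℝ) ≤
          (((Ioc 0 Hn).filter (fun n => p₁ ∣ n)).card : ℝ) := by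
        exact_mod_cast Finset.card_le_card h3
      have h6 : H / p₁ ≤ H / y := by
        refine div_le_div_of_nonneg_left ?_ hy hyp.le
        rw [hH]; exact Nat.cast_nonneg _
      linarith
    · have h3 : T.filter (fun n => ¬ ¬ (y < p₁ ∧ p₁ ∣ n)) = ∅ := by
        apply Finset.filter_eq_empty_iff.2
        intro n _ h
        rw [not_not] at h
        exact hyp h.1
      rw [h3, Finset.card_empty, Nat.cast_zero]
      have : 0 ≤ H := by rw [hH]; exact Nat.cast_nonneg _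
      positivity
  rw [add_mul, one_mul]
  linarith

/-- The final upper bound. -/
theorem resq_fin {P T CM CS cM lz ly L1 L2 L3 H : ℝ} (hL1 : 0 < L1) (hL2 : 0 < L2)
    (hL3 : 0 < L3) (hly : ly = L1 * L3 / (8 * L2)) (hP0 : 0 ≤ P)
    (hP : P ≤ CM / ly / (cM / lz)) (hcM : 0 < cM) (hlz : 0 < lz)
    (hT0 : 0 ≤ T) (hT : T ≤ (CS + 1) * (H * L2 / (L1 * lz))) :
    4 * (P * T) ≤ 32 * (CM / cM) * (CS + 1) * (H * L2 ^ 2 / (L1 ^ 2 * L3)) := by
  calc 4 * (P * T) ≤ 4 * (CM / ly / (cM / lz) * ((CS + 1) * (H * L2 / (L1 * lz)))) := by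
        have h1 : 0 ≤ CM / ly / (cM / lz) := hP0.trans hP
        have h2 := mul_le_mul hP hT hT0 h1
        linarith
    _ = 32 * (CM / cM) * (CS + 1) * (H * L2 ^ 2 / (L1 ^ 2 * L3)) := by
        rw [hly]; field_simp; ring

/-- `y` is large. -/
theorem resq_ybig {H L1 L2 L3 y lz : ℝ} (hH : 0 ≤ H) (hL1 : 0 < L1) (hL2 : 0 < L2)
    (hL3 : 1 ≤ L3) (hlz : 0 < lz) (hy0 : 0 < y) (hly : Real.log y = L1 * L3 / (8 * L2))
    (h1 : 8 * L2 * (Real.log L1 + Real.log lz) ≤ L1) (hL22 : 1 ≤ L2) : H / y ≤ H * L2 / (L1 * lz) := by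
  have e1 : Real.log (L1 * lz) ≤ Real.log y := by
    rw [Real.log_mul hL1.ne' hlz.ne', hly, le_div_iff₀ (by positivity)]
    nlinarith
  have e2 : L1 * lz ≤ y := (Real.log_le_log_iff (by positivity) hy0).1 e1
  rw [div_le_div_iff₀ hy0 (by positivity)]
  calc H * (L1 * lz) ≤ H * y := mul_le_mul_of_nonneg_left e2 hH
    _ = H * 1 * y := by ring
    _ ≤ H * L2 * y := by gcongr

theorem resq_h34 (z : ℕ) (hz : 4 ≤ z) : ∀ᶠ h : ℕ in atTop,
    (h : ℝ) ^ (3 / 4 : ℝ) * Real.exp 8 ≤ 1 / z * (h / Real.log h) := by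
  have hz0 : (4 : ℝ) ≤ z := by exact_mod_cast hz
  have hlo := (isLittleO_log_rpow_atTop (show (0 : ℝ) < 1 / 4 by norm_num)).bound
    (show (0 : ℝ) < 1 / (Real.exp 8 * z) by positivity)
  have hlo' := tendsto_natCast_atTop_atTop (R := ℝ) |>.eventually hlo
  filter_upwards [hlo', eventually_ge_atTop 2] with h hh h2
  have hlog : 0 < Real.log (h : ℝ) := Real.log_pos (by exact_mod_cast (show 1 < h by omega))
  have hh0 : (0 : ℝ) < h := by exact_mod_cast (show 0 < h by omega)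
  rw [Real.norm_eq_abs, Real.norm_eq_abs, abs_of_pos hlog, abs_of_nonneg (by positivity)] at hh
  have e3 : (h : ℝ) = (h : ℝ) ^ (3 / 4 : ℝ) * (h : ℝ) ^ (1 / 4 : ℝ) := by
    rw [← Real.rpow_add hh0]; norm_num
  have e4 : Real.exp 8 * z * Real.log h ≤ (h : ℝ) ^ (1 / 4 : ℝ) := by
    rw [one_div, inv_mul_eq_div, le_div_iff₀ (by positivity)] at hh
    linarith
  rw [one_div, inv_mul_eq_div, div_div, le_div_iff₀ (by positivity)]
  calc (h : ℝ) ^ (3 / 4 : ℝ) * Real.exp 8 * (Real.log h * z)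
      = (h : ℝ) ^ (3 / 4 : ℝ) * (Real.exp 8 * z * Real.log h) := by ring
    _ ≤ (h : ℝ) ^ (3 / 4 : ℝ) * (h : ℝ) ^ (1 / 4 : ℝ) := by gcongr
    _ = h := e3.symm

theorem resq_asy (K : ℝ) : ∀ᶠ w : ℕ in atTop,
    8 * Real.log (Real.log w) * (Real.log (Real.log w) + K) ≤ Real.log w := by
  have t1 : Tendsto (fun w : ℕ => Real.log (w : ℝ)) atTop atTop :=
    Real.tendsto_log_atTop.comp tendsto_natCast_atTop_atTop
  refine t1.eventually (p := fun t : ℝ => 8 * Real.log t * (Real.log t + K) ≤ t) ?_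
  have h := (Real.isLittleO_pow_log_id_atTop (n := 2)).bound
    (show (0 : ℝ) < 1 / 16 by norm_num)
  filter_upwards [h, eventually_ge_atTop (1 : ℝ),
    Real.tendsto_log_atTop.eventually_ge_atTop |K|] with t a1 a2 a3
  simp only [id, Real.norm_eq_abs, abs_of_nonneg (by linarith : (0:ℝ) ≤ t)] at a1
  have a4 : Real.log t ^ 2 ≤ 1 / 16 * t := (le_abs_self _).trans a1
  have a5 := le_abs_self K
  have a6 := abs_nonneg K
  nlinarith

/-- The number of surviving elements with sign `-1`. -/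
noncomputable def Yc (w : ℕ) (χ : DirichletCharacter ℂ (primorial w)) (R : Finset ℕ)
    (V : ℕ → ℕ) (A : Finset ℕ) (v : ℕ) : Finset ℕ :=
  open Classical in A.filter (fun q => (∀ r ∈ R, ¬ r ∣ v + q) ∧
    (χ ≠ 1 → χ ((V v + q : ℕ) : ZMod (primorial w)) = -1))

/-- The bad set of one interval. -/
theorem resq_int (hAVG : Stmt_AVG) (hTAB : Stmt_TAB) {CB : ℝ}
    (hB : ∀ d x h c : ℕ, 0 < d → d ^ 2 ≤ h → 2 ≤ h →
    (((Ioc x (x + h)).filter (fun q => q.Prime ∧ q ≡ c [MOD d])).card : ℝ) ≤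
      CB * (h / (d.totient * Real.log h))) (hCB : 0 < CB) {Cs : ℝ} (hCs : 0 < Cs)
    (z J : ℕ) (hz : 4 ≤ z) (hJ : 0 < J)
    (hzJ : (256 * Cs + 4096 * (6 * CB + 1)) * J ≤ z) (w : ℕ)
    (χ : DirichletCharacter ℂ (primorial w))
    (hχ : χ ^ 2 = 1) (p₁ : ℕ) (hp₁ : p₁.Prime) (hp₁w : p₁ ≤ w) (hzp : z < p₁)
    (hG : χ ≠ 1 → ∃ G : ℕ, χ (G : ZMod (primorial w)) = -1 ∧
      ∀ p : ℕ, p.Prime → p ≤ w → p ≠ p₁ → G ≡ 1 [MOD p]) (R : Finset ℕ)
    (hR : ∀ p ∈ R, p.Prime ∧ z < p ∧ p ≤ w) (hpR : p₁ ∈ R) (V : ℕ → ℕ)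
    (hV : ∀ v, ∀ p ∈ R, V v ≡ v [MOD p])
    (hV0 : ∀ v, ∀ p : ℕ, p.Prime → p ≤ w → p ∉ R → p ∣ V v) (x h : ℕ) (h2 : 2 ≤ h)
    (hwx : w ≤ x)
    (h34 : (h : ℝ) ^ (3 / 4 : ℝ) * Real.exp 8 ≤ 1 / z * (h / Real.log h))
    (hP0 : 0 < Pi' R) (hP1 : 0 ≤ Pi' (R.erase p₁)) (hP2 : Pi' (R.erase p₁) ≤ 2 * Pi' R)
    (hq : (h : ℝ) / Real.log h ≤ 4 * (((Ioc x (x + h)).filter Nat.Prime).card : ℝ))
    (hm : 512 * J ≤ Pi' R * (((Ioc x (x + h)).filter Nat.Prime).card : ℝ))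
    (hs1 : ∑ v ∈ range (∏ p ∈ R, p), (Xv R ((Ioc x (x + h)).filter Nat.Prime) v : ℝ) =
      ((∏ p ∈ R, p : ℕ) : ℝ) * (Pi' R * ((Ioc x (x + h)).filter Nat.Prime).card))
    (hs2 : ∑ v ∈ range (∏ p ∈ R, p), (Xv R ((Ioc x (x + h)).filter Nat.Prime) v : ℝ) ^ 2 ≤
        ((∏ p ∈ R, p : ℕ) : ℝ) * (Pi' R * ((Ioc x (x + h)).filter Nat.Prime).card +
          Pi' R ^ 2 * ((((Ioc x (x + h)).filter Nat.Prime).card : ℝ) ^ 2 +
            Cs / z * (((Ioc x (x + h)).filter Nat.Prime).card * (h / Real.log h))))) :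
    (((range (∏ p ∈ R, p)).filter (fun v =>
      ((Yc w χ R V ((Ioc x (x + h)).filter Nat.Prime) v).card : ℝ) <
      Pi' R * (((Ioc x (x + h)).filter Nat.Prime).card : ℝ) / 8)).card : ℝ) ≤
      ((∏ p ∈ R, p : ℕ) : ℝ) * (1 / (4 * J)) := by
  classical
  have hJR : (0 : ℝ) < J := by exact_mod_cast hJ
  have hz0 : (0 : ℝ) < z := by exact_mod_cast (show 0 < z by omega)
  obtain ⟨A, hA⟩ : ∃ A : Finset ℕ, A = (Ioc x (x + h)).filter Nat.Prime := ⟨_, rfl⟩
  obtain ⟨N, hN⟩ : ∃ N : ℕ, N = ∏ p ∈ R, p := ⟨_, rfl⟩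
  have hAw : ∀ q ∈ A, q.Prime ∧ w < q := by
    intro q hq
    rw [hA, Finset.mem_filter, Finset.mem_Ioc] at hq
    exact ⟨hq.2, by omega⟩
  have hpairs := resq_pairs hB hCB hTAB z hz (R.erase p₁)
    (fun p hp => by
      have := hR p (Finset.mem_of_mem_erase hp)
      exact ⟨this.1, this.2.1⟩) p₁ hp₁ hzp (Finset.notMem_erase p₁ R) x h h2
  have hZm := fun G hGχ hG' => resq_Zm hAVG w χ hχ p₁ G hp₁ hp₁w hGχ hG' R
    (fun p hp => ⟨(hR p hp).1, (hR p hp).2.2⟩) hpR V hV hV0 A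
  have hcnt := resq_count w χ hχ p₁ hp₁ hp₁w R hpR V hV hV0 A hAw
  rw [← hA] at hq hm hs1 hs2 hpairs ⊢
  rw [← hN] at hs1 hs2 ⊢
  rw [← hN] at hZm
  have hm0 : 0 < Pi' R * (A.card : ℝ) := by
    have : (0 : ℝ) < 512 * J := by positivity
    linarith
  have hk1 : 0 ≤ Cs * J := by positivity
  have hk2 : 0 ≤ (6 * CB + 1) * J := by positivity
  have hX : (((range N).filter (fun v => (Xv R A v : ℝ) < Pi' R * (A.card : ℝ) / 2)).card : ℝ) ≤
      N * (1 / (8 * J)) := by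
    have := resp_bad (J := 2 * J) hCs hz0 (by positivity) (by nlinarith) N
      (fun v => (Xv R A v : ℝ)) (Pi' R) (A.card : ℝ) ((h : ℝ) / Real.log h) hP0
      (Nat.cast_nonneg _) hq (by linarith) hs1 hs2
    rw [show (4 : ℝ) * (2 * J) = 8 * J by ring] at this
    exact this
  refine resq_badY hJR hm0 N (fun v => (Xv R A v : ℝ))
    (fun v => ∑ q ∈ A, if (∀ r ∈ R.erase p₁, ¬ r ∣ v + q)
        then (χ ((V v + q : ℕ) : ZMod (primorial w))).re else 0)
    (fun v => ((Yc w χ R V A v).card : ℝ)) hX ?_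
  by_cases hχ1 : χ = 1
  · left
    intro v
    show ((Yc w χ R V A v).card : ℝ) = (Xv R A v : ℝ)
    unfold Xv Yc
    refine congrArg (fun S : Finset ℕ => (S.card : ℝ)) (Finset.ext fun q => ?_)
    rw [Finset.mem_filter, Finset.mem_filter]
    constructor
    · exact fun h => ⟨h.1, h.2.1⟩
    · exact fun h => ⟨h.1, h.2, fun h' => absurd hχ1 h'⟩
  · right
    obtain ⟨G, hGχ, hG'⟩ := hG hχ1
    refine ⟨?_, fun v => ?_⟩
    · refine resq_badZ hCB hz0 hJR (by nlinarith) N _ hP1 hP2 (Nat.cast_nonneg _) hq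
        (hpairs.trans (mul_le_mul_of_nonneg_left (by linarith) (Nat.cast_nonneg _))) rfl hm
        (hZm G hGχ hG')
    · have h5 := hcnt v
      refine h5.trans (congrArg (fun S : Finset ℕ => 2 * (S.card : ℝ)) (Finset.ext fun q => ?_))
      unfold Yc
      rw [Finset.mem_filter, Finset.mem_filter]
      constructor
      · exact fun h => ⟨h.1, h.2.1, fun _ => h.2.2⟩
      · exact fun h => ⟨h.1, h.2.1, h.2.2 hχ1⟩

end Pool.LGC
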