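import Pool.Agent.Work.MP_b0c12c_chain.InterfaceX
import Pool.Agent.Work.MP_b0c12c_chain.B_SCK
import Pool.Agent.Work.MP_b0c12c_chain.B_CHX

/-! # Block SCKE: chains of primes at every large scale (helper43, after helper38) -/

set_option autoImplicit false

namespace Pool.LGC

open Finset Filter
open Pool.LGP

/-- agreement at the integers coprime to `W` and to finitely many primes implies agreement at all
integers coprime to `W * y` -/
theorem SCKE_agree (P : Finset ℕ) (hP : ∀ p ∈ P, p.Prime) (W : ℕ) (hW : 0 < W) (y : Ch)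
    (hy : 0 < y.1) (χ : DirichletCharacter ℂ W)
    (h : ∀ n : ℕ, n.Coprime W → (∀ p ∈ P, n.Coprime p) → y.2 (n : ZMod y.1) = χ (n : ZMod W)) :
    ∀ n : ℕ, n.Coprime (W * y.1) → y.2 (n : ZMod y.1) = χ (n : ZMod W) := by
  intro n hn
  have hM : 0 < ∏ p ∈ P, p := Finset.prod_pos (fun p hp => (hP p hp).pos)
  have hm : 0 < W * y.1 * ∏ p ∈ P, p := Nat.mul_pos (Nat.mul_pos hW hy) hM
  have hdvd : W * y.1 ∣ W * y.1 * ∏ p ∈ P, p := Nat.dvd_mul_right _ _
  obtain ⟨n', hn', hnn⟩ := CHX_rep hdvd hm (ZMod.unitOfCoprime n hn)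
  rw [ZMod.coe_unitOfCoprime] at hnn
  have hmod : n' ≡ n [MOD W * y.1] := (ZMod.natCast_eq_natCast_iff _ _ _).1 hnn
  have hW1 : ((n' : ℕ) : ZMod W) = (n : ZMod W) :=
    (ZMod.natCast_eq_natCast_iff _ _ _).2 (hmod.of_dvd (Nat.dvd_mul_right _ _))
  have hy1 : ((n' : ℕ) : ZMod y.1) = (n : ZMod y.1) :=
    (ZMod.natCast_eq_natCast_iff _ _ _).2 (hmod.of_dvd (Nat.dvd_mul_left _ _))
  rw [← hW1, ← hy1]
  apply h
  · exact Nat.Coprime.coprime_dvd_right ((Nat.dvd_mul_right _ _).trans hdvd) hn'
  · intro p hp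
    exact Nat.Coprime.coprime_dvd_right
      ((Finset.dvd_prod_of_mem (fun p : ℕ => p) hp).trans (Nat.dvd_mul_left _ _)) hn'

theorem p_SCKE (h1 : Stmt_MIDE) (h2 : Stmt_DATE) (h3 : Stmt_WPH) : Stmt_SCKE := by
  classical
  intro κA hκA
  obtain ⟨κ₀, κ, η, C₂, hκ₀, hκ₀8, hκ, hη, hη2, hC₂, hdat⟩ := h2 κA hκA
  obtain ⟨cw, hcw, hwph⟩ := h3
  obtain ⟨c', hc'⟩ : ∃ c' : ℝ, c' = cw / 32 := ⟨_, rfl⟩
  have hc'0 : 0 < c' := by rw [hc']; positivity
  obtain ⟨c3, hc3⟩ : ∃ c3 : ℝ, c3 = c' ^ 2 / (72 * C₂ ^ 2) := ⟨_, rfl⟩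
  have hc30 : 0 < c3 := by rw [hc3]; positivity
  obtain ⟨L₀, hL₀⟩ := hdat (c3 / 4) (by positivity)
  refine ⟨κ₀, κ, 2592 * C₂ ^ 2 / (c' ^ 2 * c3), hκ₀, hκ, by positivity, ?_⟩
  intro k J hk hJ
  have hk0 : (0 : ℝ) < k := by exact_mod_cast hk
  refine ⟨6 * k / c', Real.exp (max (max L₀ 4) ((2 / κ₀) ^ 2)), by positivity, ?_⟩
  intro X hX y₁ hy₁ hgood w v H n E hw hv hH hE hcop hdisj hcard hlo hhi hsurv hsgn
  have hX0 : 0 < X := lt_of_lt_of_le (Real.exp_pos _) hX
  obtain ⟨L, hL⟩ : ∃ L : ℝ, L = Real.log X := ⟨_, rfl⟩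
  have hXL : X = Real.exp L := by rw [hL, Real.exp_log hX0]
  have hLmax : max (max L₀ 4) ((2 / κ₀) ^ 2) ≤ L := by
    rw [hXL] at hX
    exact Real.exp_le_exp.mp hX
  have hLL₀ : L₀ ≤ L := (le_max_left _ _).trans ((le_max_left _ _).trans hLmax)
  have hL4 : 4 ≤ L := (le_max_right _ _).trans ((le_max_left _ _).trans hLmax)
  have hLκ : (2 / κ₀) ^ 2 ≤ L := (le_max_right _ _).trans hLmax
  rw [← hL] at hw hH hlo hhi hsurv
  have hL0 : 0 < L := by linarith
  have hlogL : 0 < Real.log L := Real.log_pos (by linarith)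
  -- the modulus
  have hW : (primorial w : ℝ) ≤ Real.exp (L / 4) := by
    rw [hw]
    exact sck_W L κ₀ hL0.le hκ₀.le hκ₀8
  have hWpos : 0 < primorial w := sck_primorial_pos w
  have hWr : (0 : ℝ) < (primorial w : ℝ) := by exact_mod_cast hWpos
  have hwle : (w : ℝ) ≤ L / 8 := by
    rw [hw]
    refine (Nat.floor_le (by positivity)).trans ?_
    nlinarith
  have hnum := sck_num L hL4
  -- the number Y
  obtain ⟨Y, hY⟩ : ∃ Y : ℕ, Y = ⌊X / (primorial w : ℝ)⌋₊ + 1 := ⟨_, rfl⟩
  have hY1 : X < (primorial w : ℝ) * Y := by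
    have := Nat.lt_floor_add_one (X / (primorial w : ℝ))
    rw [div_lt_iff₀ hWr] at this
    rw [hY]
    push_cast
    linarith
  have hY2 : (primorial w : ℝ) * Y ≤ X + primorial w := by
    have := Nat.floor_le (a := X / (primorial w : ℝ)) (by positivity)
    rw [le_div_iff₀ hWr] at this
    rw [hY]
    push_cast
    linarith
  have hY3 : Real.exp (L / 2) ≤ Y := by
    have e1 : Real.exp (L / 2) * (primorial w : ℝ) ≤ X := by
      calc Real.exp (L / 2) * (primorial w : ℝ) ≤ Real.exp (L / 2) * Real.exp (L / 4) :=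
            mul_le_mul_of_nonneg_left hW (Real.exp_pos _).le
        _ = Real.exp (3 * L / 4) := by rw [← Real.exp_add]; ring_nf
        _ ≤ X := by
          rw [hXL]
          apply Real.exp_le_exp.mpr
          linarith
    by_contra hcon
    push Not at hcon
    have : (primorial w : ℝ) * Y < (primorial w : ℝ) * Real.exp (L / 2) :=
      mul_lt_mul_of_pos_left hcon hWr
    linarith
  -- the level
  obtain ⟨Q, hQ⟩ : ∃ Q : ℕ, Q = ⌊X ^ κA⌋₊ := ⟨_, rfl⟩
  have hQ1 : (Q : ℝ) ≤ X ^ κA := by
    rw [hQ]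
    exact Nat.floor_le (by positivity)
  have hQ2 : Real.exp (κA * L) ≤ Q + 1 := by
    have e1 : Real.exp (κA * L) = X ^ κA := by
      rw [hXL, ← Real.exp_mul]
      ring_nf
    rw [e1, hQ]
    exact (Nat.lt_floor_add_one _).le
  -- the primes
  obtain ⟨P, hP⟩ : ∃ P : Finset ℕ, ∀ p : ℕ, p ∈ P ↔ p.Prime ∧ ⌈L ^ 3⌉₊ < p ∧
      (p : ℝ) ≤ Real.exp (η * L) := by
    refine ⟨(Icc 0 ⌊Real.exp (η * L)⌋₊).filter
      (fun p => p.Prime ∧ ⌈L ^ 3⌉₊ < p ∧ (p : ℝ) ≤ Real.exp (η * L)), ?_⟩
    intro p
    rw [Finset.mem_filter, Finset.mem_Icc]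
    refine ⟨fun h => h.2, fun h => ⟨⟨Nat.zero_le _, ?_⟩, h⟩⟩
    exact Nat.le_floor h.2.2
  have hP3 : ∀ p ∈ P, L ^ 3 < (p : ℝ) := by
    intro p hp
    have := ((hP p).1 hp).2.1
    exact (Nat.le_ceil _).trans_lt (by exact_mod_cast this)
  have hPH : ∀ p ∈ P, H < p := by
    intro p hp
    have e1 := hP3 p hp
    have e2 : L ^ 2 ≤ L ^ 3 := pow_le_pow_right₀ (by linarith) (by norm_num)
    have : (H : ℝ) < p := by linarith
    exact_mod_cast this
  have hPw : ∀ p ∈ P, w < p := by
    intro p hp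
    have e1 := hP3 p hp
    have e2 : L ≤ L ^ 3 := by
      calc L = L ^ 1 := (pow_one L).symm
        _ ≤ L ^ 3 := pow_le_pow_right₀ (by linarith) (by norm_num)
    have : (w : ℝ) < p := by linarith
    exact_mod_cast this
  have hLX : L ≤ X := by
    rw [hXL]
    have := Real.add_one_le_exp L
    linarith
  -- the labels
  obtain ⟨T, hT⟩ : ∃ T : Finset ℕ, T = (Icc 1 H).filter
      (fun h => (v + h).Coprime (primorial w) ∧ ∀ i, h ∉ E i) := ⟨_, rfl⟩
  have hTmem : ∀ h, h ∈ T ↔ (1 ≤ h ∧ h ≤ H) ∧ (v + h).Coprime (primorial w) ∧ ∀ i, h ∉ E i := by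
    intro h
    rw [hT, Finset.mem_filter, Finset.mem_Icc]
  let S : Sys P T := ⟨fun x => (x : ℕ), primorial w, fun h => v + (h : ℕ)⟩
  have hSinj : Function.Injective S.v := by
    intro a b hab
    apply Subtype.ext
    have : v + (a : ℕ) = v + (b : ℕ) := hab
    omega
  have hTH : ∀ h : T, 1 ≤ (h : ℕ) ∧ (h : ℕ) ≤ H := fun h => ((hTmem h).1 h.2).1
  have hS : S.Good := by
    refine ⟨fun x => ((hP x).1 x.2).1, fun a b hab => Subtype.ext hab,
      fun x => sck_coprime ((hP x).1 x.2).1 (hPw x x.2), ?_⟩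
    apply sck_excl S H hSinj
    · intro h h'
      show v + (h : ℕ) ≤ v + (h' : ℕ) + H
      have := (hTH h).2
      omega
    · intro x
      exact hPH x x.2
  have hEH : ∀ i, ∀ h ∈ E i, 1 ≤ h ∧ h ≤ H := by
    intro i h hh
    have := hE i hh
    rwa [Finset.mem_Icc] at this
  have hcardι : (Fintype.card T : ℝ) ≤ κ * L := by
    rw [Fintype.card_coe]
    refine le_trans ?_ hsurv
    have : T ⊆ (Icc 1 H).filter (fun h => (v + h).Coprime (primorial w)) := by
      intro h hh
      have := (hTmem h).1 hh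
      rw [Finset.mem_filter, Finset.mem_Icc]
      exact ⟨this.1, this.2.1⟩
    exact_mod_cast Finset.card_le_card this
  obtain ⟨u, g, a, b, C, K, D, z, s, hDat, hτ, hδ⟩ := hL₀ L hLL₀ P hP T S (fun x => rfl) hS
    (by show primorial w = _; rw [hw]) hcardι Y Q hY3 hQ2
  -- MID
  have hGpos : 0 < C₂ * (Real.log L / L) := by positivity
  have hcpos : 0 < c' * (Real.log L / L) := by positivity
  have hΛ : 0 < 2 * L := by positivity
  have hw2 : Real.sqrt L ≤ w := by
    have e1 : κ₀ * L - 1 < w := by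
      have := Nat.lt_floor_add_one (κ₀ * L)
      rw [hw]
      linarith
    have e2 : 2 / κ₀ ≤ Real.sqrt L := Real.le_sqrt_of_sq_le hLκ
    have e3 : Real.sqrt L * Real.sqrt L = L := Real.mul_self_sqrt hL0.le
    have e4 : 2 ≤ κ₀ * Real.sqrt L := by
      have := mul_le_mul_of_nonneg_left e2 hκ₀.le
      rwa [mul_div_cancel₀ _ hκ₀.ne'] at this
    have e5 : 1 ≤ Real.sqrt L := by
      rw [Real.one_le_sqrt]
      linarith
    have e6 : 2 * Real.sqrt L ≤ κ₀ * L := by
      have := mul_le_mul_of_nonneg_right e4 (Real.sqrt_nonneg L)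
      rw [mul_assoc, e3] at this
      exact this
    linarith
  have hw2' : 2 ≤ w := by
    have e1 : (2 : ℝ) ≤ Real.sqrt L := by
      apply Real.le_sqrt_of_sq_le
      linarith
    exact_mod_cast e1.trans hw2
  have hlogw : Real.log L / 2 ≤ Real.log w := by
    rw [← Real.log_sqrt hL0.le]
    exact Real.log_le_log (Real.sqrt_pos.mpr hL0) hw2
  have hφ : (0 : ℝ) < ((primorial w).totient : ℝ) := by
    exact_mod_cast Nat.totient_pos.mpr hWpos
  have hc : c' * (Real.log L / L) ≤ (S.W : ℝ) / (S.W.totient : ℝ) / (8 * (2 * L)) := by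
    show c' * (Real.log L / L) ≤ (primorial w : ℝ) / ((primorial w).totient : ℝ) / (8 * (2 * L))
    rw [le_div_iff₀ (by positivity)]
    have e1 := hwph w hw2'
    refine le_trans ?_ e1
    have e2 : c' * (Real.log L / L) * (8 * (2 * L)) = cw * (Real.log L / 2) := by
      rw [hc']
      field_simp
      ring
    rw [e2]
    exact mul_le_mul_of_nonneg_left hlogw hcw.le
  have hvW : (v : ℝ) ≤ primorial w := by exact_mod_cast hv.le
  have hext : ∀ i, ∀ e ∈ (E i).image (fun h => v + h), Ext S e := by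
    intro i e he x h
    rw [Finset.mem_image] at he
    obtain ⟨h', hh', rfl⟩ := he
    have hne : (h : ℕ) ≠ h' := by
      intro h0
      have := ((hTmem h).1 h.2).2.2 i
      rw [h0] at this
      exact this hh'
    unfold cl
    intro h0
    rw [sub_eq_zero] at h0
    have h0' : ((v + h' : ℕ) : ZMod (x : ℕ)) = ((v + (h : ℕ) : ℕ) : ZMod (x : ℕ)) := h0
    rw [ZMod.natCast_eq_natCast_iff] at h0'
    have h1' : h' ≡ (h : ℕ) [MOD (x : ℕ)] := Nat.ModEq.add_left_cancel' v h0'
    have b1 := hPH x x.2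
    have b2 := (hEH i h' hh').2
    have b3 := (hTH h).2
    have := Nat.ModEq.eq_of_lt_of_lt h1' (by omega) (by omega)
    exact hne this.symm
  have hmid := h1 P T S u g a b C K D z s (C₂ * (Real.log L / L)) (2 * L)
    (c' * (Real.log L / L)) Y Q k J n (fun i => (E i).image (fun h => v + h)) y₁ hDat hGpos hΛ
    hcpos hc hτ ?_ ?_ ?_ ?_ ?_ ?_ hk ?_ ?_
  · obtain ⟨y, hy, hcomp, hone, hmany⟩ := hmid
    rw [Finset.mem_Ioc] at hy
    have hyY : (Y : ℝ) ≤ y := by exact_mod_cast hy.1.le
    have hy2Y : (y : ℝ) ≤ 2 * Y := by exact_mod_cast hy.2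
    have hWy1 : (primorial w : ℝ) * Y ≤ (primorial w : ℝ) * y :=
      mul_le_mul_of_nonneg_left hyY hWr.le
    have hWy2 : (primorial w : ℝ) * y ≤ 2 * ((primorial w : ℝ) * Y) := by
      have := mul_le_mul_of_nonneg_left hy2Y hWr.le
      linarith
    have hinj : Function.Injective (fun h : ℕ => v + h) := fun a b hab => by
      simpa using hab
    have hfil : ∀ A : Finset ℕ, ((A.image (fun h => v + h)).filter
        (fun e => (S.W * y + e).Prime)).card =
        (A.filter (fun h => (primorial w * y + v + h).Prime)).card := by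
      intro A
      rw [Finset.filter_image, Finset.card_image_of_injective _ hinj]
      congr 1
      apply Finset.filter_congr
      intro h _
      show (primorial w * y + (v + h)).Prime ↔ _
      rw [add_assoc]
    refine ⟨primorial w * y + v, ?_, ?_, ?_, ?_, ?_⟩
    · push_cast
      have : (0 : ℝ) ≤ v := Nat.cast_nonneg _
      linarith
    · push_cast
      rw [hXL] at hY2 ⊢
      linarith
    · intro m hm hmp
      rw [Finset.mem_Ioc] at hm
      obtain ⟨h, rfl⟩ : ∃ h, m = primorial w * y + v + h := ⟨m - (primorial w * y + v), by omega⟩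
      have hh1 : 1 ≤ h := by omega
      have hh2 : h ≤ H := by omega
      by_contra hcon
      push Not at hcon
      have hwm : w < primorial w * y + v + h := by
        have e1 : (w : ℝ) < ((primorial w * y + v + h : ℕ) : ℝ) := by
          push_cast
          have : (0 : ℝ) ≤ v := Nat.cast_nonneg _
          have h' : (0 : ℝ) ≤ h := Nat.cast_nonneg _
          linarith
        exact_mod_cast e1
      have hcpm := sck_coprime hmp hwm
      have hcp : (v + h).Coprime (primorial w) := by
        rw [add_assoc, Nat.coprime_mul_left_add_left] at hcpm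
        exact hcpm
      have hTm : h ∈ T := (hTmem h).2 ⟨⟨hh1, hh2⟩, hcp, fun i hi => hcon i h hi rfl⟩
      apply hcomp ⟨h, hTm⟩
      show (primorial w * y + (v + h)).Prime
      rwa [← add_assoc]
    · intro i
      have := hone i
      rw [hfil] at this
      exact this
    · have e1 : (univ.biUnion (fun i => (E i).image (fun h => v + h))) =
          (univ.biUnion E).image (fun h => v + h) := by
        rw [Finset.biUnion_image]
      rw [e1, hfil] at hmany
      exact hmany
  · intro i j hij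
    rw [Finset.disjoint_image (fun a b hab => by simpa using hab)]
    exact hdisj i j hij
  · intro i
    show ((E i).image (fun h => v + h)).card = n
    rw [Finset.card_image_of_injective _ (fun a b hab => by simpa using hab), hcard i]
  · intro i e he
    refine ⟨hext i e he, ?_⟩
    simp only [Finset.mem_image] at he
    obtain ⟨h, hh, rfl⟩ := he
    have hhH : (h : ℝ) ≤ H := by exact_mod_cast (hEH i h hh).2
    have hup : ((2 * (S.W * Y) + (v + h) : ℕ) : ℝ) ≤ 4 * X := by
      show ((2 * (primorial w * Y) + (v + h) : ℕ) : ℝ) ≤ 4 * X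
      push_cast
      rw [hXL] at hY2 ⊢
      linarith
    refine ⟨hcop i h hh, ?_, ?_⟩
    · obtain ⟨R, hR0, hR1, hR2⟩ := hgood (S.W * Y + (v + h)) (2 * (S.W * Y) + (v + h)) (by
          show X ≤ ((primorial w * Y + (v + h) : ℕ) : ℝ)
          push_cast
          have e1 : (0 : ℝ) ≤ v := Nat.cast_nonneg _
          have e2 : (0 : ℝ) ≤ h := Nat.cast_nonneg _
          linarith) (by omega) hup
      refine ⟨R, hR0, ?_, ?_⟩
      · refine hR1.trans (le_of_eq ?_)
        push_cast
        ring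
      · refine (hR2 Q hQ1).trans ?_
        show 1 / 8 * X ≤ (primorial w : ℝ) * Y / 8
        linarith
    · have hpos : (0 : ℝ) < ((2 * (S.W * Y) + (v + h) : ℕ) : ℝ) := by
        show (0 : ℝ) < ((2 * (primorial w * Y) + (v + h) : ℕ) : ℝ)
        push_cast
        have e1 : (0 : ℝ) ≤ v := Nat.cast_nonneg _
        have e2 : (0 : ℝ) ≤ h := Nat.cast_nonneg _
        linarith
      have hX4 : 4 ≤ X := by linarith
      have : ((2 * (S.W * Y) + (v + h) : ℕ) : ℝ) ≤ Real.exp (2 * L) := by
        refine hup.trans ?_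
        rw [two_mul, Real.exp_add, ← hXL]
        exact mul_le_mul_of_nonneg_right hX4 hX0.le
      calc Real.log ((2 * (S.W * Y) + (v + h) : ℕ) : ℝ) ≤ Real.log (Real.exp (2 * L)) :=
            Real.log_le_log hpos this
        _ = 2 * L := Real.log_exp _
  · intro hne χ hχ i e he
    simp only [Finset.mem_image] at he
    obtain ⟨h, hh, rfl⟩ := he
    exact hsgn hne χ (SCKE_agree P (fun p hp => ((hP p).1 hp).1) (primorial w) hWpos y₁ hy₁ χ
      (fun m hm hm' => hχ m hm (fun x => hm' x x.2))) i h hh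
  · intro i e he j e' he' hne
    have hx1 := hext i e he
    have hx2 := hext j e' he'
    simp only [Finset.mem_image] at he he'
    obtain ⟨h, hh, rfl⟩ := he
    obtain ⟨h', hh', rfl⟩ := he'
    refine ⟨hS.prime, hS.inj, hS.cop, ?_⟩
    apply sck_excl (ext2 S (v + h) (v + h')) H
    · intro o o' hoo
      have hne' : h ≠ h' := fun h0 => hne (by rw [h0])
      have ht : ∀ t : T, (t : ℕ) ≠ h := by
        intro t h0
        have := ((hTmem t).1 t.2).2.2 i
        rw [h0] at this
        exact this hh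
      have ht' : ∀ t : T, (t : ℕ) ≠ h' := by
        intro t h0
        have := ((hTmem t).1 t.2).2.2 j
        rw [h0] at this
        exact this hh'
      rcases o with _ | _ | t <;> rcases o' with _ | _ | t'
      · rfl
      · exfalso
        have : v + h = v + h' := hoo
        omega
      · exfalso
        have h0 : v + h = v + (t' : ℕ) := hoo
        have := ht t'
        omega
      · exfalso
        have : v + h' = v + h := hoo
        omega
      · rfl
      · exfalso
        have h0 : v + h' = v + (t' : ℕ) := hoo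
        have := ht' t'
        omega
      · exfalso
        have h0 : v + (t : ℕ) = v + h := hoo
        have := ht t
        omega
      · exfalso
        have h0 : v + (t : ℕ) = v + h' := hoo
        have := ht' t
        omega
      · have h0 : v + (t : ℕ) = v + (t' : ℕ) := hoo
        have : t = t' := Subtype.ext (by omega)
        rw [this]
    · have hb1 := (hEH i h hh).2
      have hb2 := (hEH j h' hh').2
      have hall : ∀ o, v ≤ (ext2 S (v + h) (v + h')).v o ∧
          (ext2 S (v + h) (v + h')).v o ≤ v + H := by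
        intro o
        rcases o with _ | _ | t
        · show v ≤ v + h ∧ v + h ≤ v + H
          omega
        · show v ≤ v + h' ∧ v + h' ≤ v + H
          omega
        · show v ≤ v + (t : ℕ) ∧ v + (t : ℕ) ≤ v + H
          have := (hTH t).2
          omega
      intro o o'
      have b1 := hall o
      have b2 := hall o'
      omega
    · intro x
      exact hPH x x.2
  · intro m hm hmW
    have hmX : X < m := by
      have : ((primorial w * Y : ℕ) : ℝ) < m := by exact_mod_cast hmW
      push_cast at this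
      linarith
    have hwm : w < m := by
      have : (w : ℝ) < m := by linarith
      exact_mod_cast this
    refine ⟨sck_coprime hm hwm, ?_⟩
    intro x
    have e1 := ((hP x).1 x.2).2.2
    have e2 : Real.exp (η * L) ≤ X := by
      rw [hXL]
      apply Real.exp_le_exp.mpr
      nlinarith
    have : ((x : ℕ) : ℝ) < m := by linarith
    exact_mod_cast this
  · -- 6 k ≤ c J n
    have e1 : c' * (Real.log L / L) * (6 * k / c' * (L / Real.log L)) = 6 * k := by
      field_simp
    rw [← e1]
    exact mul_le_mul_of_nonneg_left hlo hcpos.le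
  · -- the final inequality
    have hT0 : 0 < L / Real.log L := by positivity
    have hJpos : (0 : ℝ) < J := by
      have e1 : 0 < 2592 * C₂ ^ 2 / (c' ^ 2 * c3) * (k : ℝ) ^ 2 := by positivity
      linarith
    have hGT : C₂ * (Real.log L / L) * (L / Real.log L) = C₂ := by
      field_simp
    have hrat : (c' * (Real.log L / L)) ^ 2 / (72 * (C₂ * (Real.log L / L)) ^ 2) = c3 := by
      rw [hc3]
      field_simp
    rw [hrat]
    have hmain : (J : ℝ) * n ^ 2 * (9 * (C₂ * (Real.log L / L)) ^ 2) ≤ c3 / 2 := by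
      have hJn : 0 ≤ (J : ℝ) * n := by positivity
      have e1 : ((J : ℝ) * n) * (C₂ * (Real.log L / L)) ≤ 12 * k / c' * C₂ := by
        have := mul_le_mul_of_nonneg_right hhi hGpos.le
        refine this.trans (le_of_eq ?_)
        field_simp
        ring
      have e2 : 0 ≤ ((J : ℝ) * n) * (C₂ * (Real.log L / L)) := by positivity
      have e3 : (((J : ℝ) * n) * (C₂ * (Real.log L / L))) ^ 2 ≤ (12 * k / c' * C₂) ^ 2 :=
        pow_le_pow_left₀ e2 e1 2
      have e4 : 9 * (12 * k / c' * C₂) ^ 2 ≤ (J : ℝ) * (c3 / 2) := by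
        have e5 := mul_le_mul_of_nonneg_right hJ (show 0 ≤ c3 / 2 by positivity)
        refine le_trans (le_of_eq ?_) e5
        field_simp
        ring
      have e6 : (J : ℝ) * ((J : ℝ) * n ^ 2 * (9 * (C₂ * (Real.log L / L)) ^ 2)) ≤
          (J : ℝ) * (c3 / 2) := by
        calc (J : ℝ) * ((J : ℝ) * n ^ 2 * (9 * (C₂ * (Real.log L / L)) ^ 2)) =
            9 * (((J : ℝ) * n) * (C₂ * (Real.log L / L))) ^ 2 := by ring
          _ ≤ 9 * (12 * k / c' * C₂) ^ 2 := by linarith
          _ ≤ _ := e4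
      exact le_of_mul_le_mul_left e6 hJpos
    linarith

end Pool.LGC
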