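import Pool.Agent.Work.MP_b0c12c_chain.Interface

/-! # Block SCP: weighted Schur test for product kernels (helper40) -/

set_option autoImplicit false

namespace Pool.LGC

open Finset

theorem p_SCP : Stmt_SCP := by
  intro π β _ _ _ K t a hK0 hKs ht
  set T : (π → β) → ℝ := fun ρ => ∏ x, t x (ρ x) with hTd
  set KK : (π → β) → (π → β) → ℝ := fun ρ σ => ∏ x, K x (ρ x) (σ x) with hKd
  have hT : ∀ ρ, 0 < T ρ := fun ρ => Finset.prod_pos fun x _ => ht x _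
  have hKK0 : ∀ ρ σ, 0 ≤ KK ρ σ := fun ρ σ => Finset.prod_nonneg fun x _ => hK0 x _ _
  have hKKs : ∀ ρ σ, KK ρ σ = KK σ ρ := fun ρ σ => Finset.prod_congr rfl fun x _ => hKs x _ _
  have h1 : ∀ ρ, a ρ ^ 2 * ∏ x, ∑ c, K x (ρ x) c * t x c / t x (ρ x) =
      ∑ σ, a ρ ^ 2 * (KK ρ σ * T σ / T ρ) := by
    intro ρ
    rw [Finset.prod_univ_sum, Finset.mul_sum, Fintype.piFinset_univ]
    refine Finset.sum_congr rfl fun σ _ => ?_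
    rw [Finset.prod_div_distrib, Finset.prod_mul_distrib]
  have h2 : ∀ ρ σ, |a ρ| * |a σ| * KK ρ σ ≤ 1 / 2 * (a ρ ^ 2 * (KK ρ σ * T σ / T ρ)) +
      1 / 2 * (a σ ^ 2 * (KK σ ρ * T ρ / T σ)) := by
    intro ρ σ
    rw [hKKs σ ρ]
    have ha := hT ρ
    have hb := hT σ
    have h3 : |a ρ| * |a σ| ≤ 1 / 2 * (a ρ ^ 2 * (T σ / T ρ)) + 1 / 2 * (a σ ^ 2 * (T ρ / T σ)) := by
      rw [← sq_abs (a ρ), ← sq_abs (a σ)]
      have h4 : 1 / 2 * (|a ρ| ^ 2 * (T σ / T ρ)) + 1 / 2 * (|a σ| ^ 2 * (T ρ / T σ)) -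
          |a ρ| * |a σ| = (|a ρ| * T σ - |a σ| * T ρ) ^ 2 / (2 * (T ρ * T σ)) := by
        field_simp
        ring
      have h5 : 0 ≤ (|a ρ| * T σ - |a σ| * T ρ) ^ 2 / (2 * (T ρ * T σ)) := by positivity
      linarith
    calc |a ρ| * |a σ| * KK ρ σ ≤
        (1 / 2 * (a ρ ^ 2 * (T σ / T ρ)) + 1 / 2 * (a σ ^ 2 * (T ρ / T σ))) * KK ρ σ :=
          mul_le_mul_of_nonneg_right h3 (hKK0 ρ σ)
      _ = _ := by ring
  calc ∑ ρ : π → β, ∑ σ : π → β, |a ρ| * |a σ| * ∏ x, K x (ρ x) (σ x)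
      ≤ ∑ ρ : π → β, ∑ σ : π → β, (1 / 2 * (a ρ ^ 2 * (KK ρ σ * T σ / T ρ)) +
      1 / 2 * (a σ ^ 2 * (KK σ ρ * T ρ / T σ))) :=
        Finset.sum_le_sum fun ρ _ => Finset.sum_le_sum fun σ _ => h2 ρ σ
    _ = 1 / 2 * ∑ ρ : π → β, ∑ σ : π → β, a ρ ^ 2 * (KK ρ σ * T σ / T ρ) +
        1 / 2 * ∑ ρ : π → β, ∑ σ : π → β, a σ ^ 2 * (KK σ ρ * T ρ / T σ) := by
        simp only [Finset.sum_add_distrib, ← Finset.mul_sum]
    _ = ∑ ρ : π → β, ∑ σ : π → β, a ρ ^ 2 * (KK ρ σ * T σ / T ρ) := by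
        rw [Finset.sum_comm (f := fun ρ σ => a σ ^ 2 * (KK σ ρ * T ρ / T σ))]
        ring
    _ = _ := Finset.sum_congr rfl fun ρ _ => (h1 ρ).symm

end Pool.LGC
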