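import Pool.Agent.Work.MP_b0c12c_chain.Interface

/-!
# Block SEL: selection of `y`
-/

set_option autoImplicit false

namespace Pool.LGC

open Finset

theorem p_SEL (h1 : Stmt_PZL) : Stmt_SEL := by
  intro Y k J n f E S₀ P _ c p₂ p₀ A hk hA hc hp2 hp0 hf hdis hcard htot hlow hpair hS hk6 hfin
  classical
  set U : Finset ℕ := univ.biUnion E with hU
  have hUcard : U.card = J * n := by
    rw [hU, Finset.card_biUnion (fun i _ j _ hij => hdis i j hij)]
    simp [hcard]
  have hJn : (0 : ℝ) < (J : ℝ) * n := by
    have h6 : (0 : ℝ) < 6 * k := by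
      have : (1 : ℝ) ≤ k := by exact_mod_cast hk
      linarith
    have h7 : 0 < c * (J * n) := lt_of_lt_of_le h6 hk6
    exact (mul_pos_iff_of_pos_left hc).1 h7
  have hmem : ∀ e, e ∈ U ↔ ∃ i, e ∈ E i := by
    intro e
    simp [hU]
  set N : ℕ → ℕ := fun y => (U.filter (fun e => P e y)).card with hN
  -- the first moment
  have hNe : ∀ y, (N y : ℝ) = ∑ e ∈ U, (if P e y then (1 : ℝ) else 0) := by
    intro y
    rw [hN]
    simp
  have hmu : c * A * (J * n) ≤ ∑ y ∈ Ioc Y (2 * Y), f y * N y := by
    have e1 : ∑ y ∈ Ioc Y (2 * Y), f y * N y =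
        ∑ e ∈ U, ∑ y ∈ Ioc Y (2 * Y), (if P e y then f y else 0) := by
      rw [Finset.sum_comm]
      apply Finset.sum_congr rfl
      intro y _
      rw [hNe, Finset.mul_sum]
      apply Finset.sum_congr rfl
      intro e _
      split_ifs <;> ring
    rw [e1]
    calc c * A * (J * n) = ∑ e ∈ U, c * A := by
          rw [Finset.sum_const, hUcard, nsmul_eq_mul]
          push_cast
          ring
      _ ≤ _ := by
          apply Finset.sum_le_sum
          intro e he
          obtain ⟨i, hi⟩ := (hmem e).1 he
          exact hlow i e hi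
  -- the second factorial moment
  have hsq : ∀ y, (N y : ℝ) * ((N y : ℝ) - 1) =
      ∑ e ∈ U, ∑ e' ∈ U, (if e ≠ e' ∧ P e y ∧ P e' y then (1 : ℝ) else 0) := by
    intro y
    have e2 : (N y : ℝ) * ((N y : ℝ) - 1) = (N y : ℝ) * N y - N y := by ring
    rw [e2, hNe, Finset.sum_mul_sum, ← Finset.sum_sub_distrib]
    apply Finset.sum_congr rfl
    intro e he
    have e3 : ∑ e' ∈ U, (if P e y then (1 : ℝ) else 0) * (if P e' y then (1 : ℝ) else 0) =
        ∑ e' ∈ U, (if e ≠ e' ∧ P e y ∧ P e' y then (1 : ℝ) else 0) +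
          ∑ e' ∈ U, (if e = e' then (if P e y then (1 : ℝ) else 0) else 0) := by
      rw [← Finset.sum_add_distrib]
      apply Finset.sum_congr rfl
      intro e' _
      by_cases h3 : e = e'
      · subst h3
        by_cases h4 : P e y <;> simp [h4]
      · by_cases h4 : P e y <;> by_cases h5 : P e' y <;> simp [h3, h4, h5]
    rw [e3, Finset.sum_ite_eq U e, if_pos he]
    ring
  have hsec : ∑ y ∈ Ioc Y (2 * Y), f y * ((N y : ℝ) * ((N y : ℝ) - 1)) ≤
      ((J : ℝ) * n) ^ 2 * p₂ * A := by
    have e4 : ∑ y ∈ Ioc Y (2 * Y), f y * ((N y : ℝ) * ((N y : ℝ) - 1)) =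
        ∑ e ∈ U, ∑ e' ∈ U, ∑ y ∈ Ioc Y (2 * Y),
          (if e ≠ e' ∧ P e y ∧ P e' y then f y else 0) := by
      calc _ = ∑ y ∈ Ioc Y (2 * Y), ∑ e ∈ U, ∑ e' ∈ U,
          (if e ≠ e' ∧ P e y ∧ P e' y then f y else 0) := by
            apply Finset.sum_congr rfl
            intro y _
            rw [hsq, Finset.mul_sum]
            apply Finset.sum_congr rfl
            intro e _
            rw [Finset.mul_sum]
            apply Finset.sum_congr rfl
            intro e' _
            split_ifs <;> ring
        _ = _ := by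
            rw [Finset.sum_comm]
            apply Finset.sum_congr rfl
            intro e _
            rw [Finset.sum_comm]
    rw [e4]
    calc _ ≤ ∑ e ∈ U, ∑ e' ∈ U, p₂ * A := by
          apply Finset.sum_le_sum
          intro e he
          apply Finset.sum_le_sum
          intro e' he'
          by_cases h3 : e = e'
          · subst h3
            simp only [ne_eq, not_true_eq_false, false_and, if_false, Finset.sum_const_zero]
            positivity
          · obtain ⟨i, hi⟩ := (hmem e).1 he
            obtain ⟨j, hj⟩ := (hmem e').1 he'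
            have h4 := hpair i e hi j e' hj h3
            refine le_trans (le_of_eq ?_) h4
            apply Finset.sum_congr rfl
            intro y _
            by_cases h5 : P e y ∧ P e' y
            · rw [if_pos ⟨h3, h5⟩, if_pos h5]
            · rw [if_neg (fun h => h5 h.2), if_neg h5]
      _ = ((J : ℝ) * n) ^ 2 * p₂ * A := by
          simp only [Finset.sum_const, nsmul_eq_mul, hUcard]
          push_cast
          ring
  have hP : 0 < ((J : ℝ) * n) ^ 2 * p₂ * A := by positivity
  have hpz := h1 (Ioc Y (2 * Y)) f N k (c * A * (J * n)) (3 * A) (((J : ℝ) * n) ^ 2 * p₂ * A) hf hk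
    hP (by positivity) htot hmu hsec (by nlinarith [mul_le_mul_of_nonneg_left hk6 hA.le])
  have hval : (c * A * (J * n)) ^ 2 / (8 * (((J : ℝ) * n) ^ 2 * p₂ * A)) =
      c ^ 2 / (8 * p₂) * A := by
    have h0 := hJn.ne'
    generalize (J : ℝ) * n = X at h0
    field_simp
  rw [hval] at hpz
  by_contra hcon
  push Not at hcon
  -- the bad `y`
  have hbad : ∀ y ∈ Ioc Y (2 * Y), (if k + 1 ≤ N y then f y else 0) ≤
      ∑ h ∈ S₀, (if P h y then f y else 0) +
      ∑ i, ∑ e ∈ E i, ∑ e' ∈ E i, (if e ≠ e' ∧ P e y ∧ P e' y then f y else 0) := by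
    intro y hy
    have hfy := hf y
    have hnn1 : 0 ≤ ∑ h ∈ S₀, (if P h y then f y else 0) :=
      Finset.sum_nonneg (fun h _ => by split_ifs <;> simp [hfy])
    have hnn2 : ∀ i, 0 ≤ ∑ e ∈ E i, ∑ e' ∈ E i, (if e ≠ e' ∧ P e y ∧ P e' y then f y else 0) :=
      fun i => Finset.sum_nonneg (fun e _ => Finset.sum_nonneg (fun e' _ => by
        split_ifs <;> simp [hfy]))
    have hnn3 : 0 ≤ ∑ i, ∑ e ∈ E i, ∑ e' ∈ E i,
        (if e ≠ e' ∧ P e y ∧ P e' y then f y else 0) := Finset.sum_nonneg (fun i _ => hnn2 i)
    by_cases h3 : k + 1 ≤ N y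
    · rw [if_pos h3]
      by_cases h4 : ∀ h ∈ S₀, ¬ P h y
      · by_cases h5 : ∀ i, ((E i).filter (fun e => P e y)).card ≤ 1
        · exact absurd h3 (not_le.2 (hcon y hy h4 h5))
        · push Not at h5
          obtain ⟨i, hi⟩ := h5
          obtain ⟨e, he, e', he', hne⟩ := Finset.one_lt_card.1 hi
          rw [mem_filter] at he he'
          have h7 : f y ≤ ∑ e ∈ E i, ∑ e' ∈ E i,
              (if e ≠ e' ∧ P e y ∧ P e' y then f y else 0) := by
            have h8 : (if e ≠ e' ∧ P e y ∧ P e' y then f y else 0) ≤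
                ∑ e' ∈ E i, (if e ≠ e' ∧ P e y ∧ P e' y then f y else 0) :=
              Finset.single_le_sum (f := fun e' => if e ≠ e' ∧ P e y ∧ P e' y then f y else 0)
                (fun e'' _ => by split_ifs <;> simp [hfy]) he'.1
            have h9 : ∑ e' ∈ E i, (if e ≠ e' ∧ P e y ∧ P e' y then f y else 0) ≤
                ∑ e ∈ E i, ∑ e' ∈ E i, (if e ≠ e' ∧ P e y ∧ P e' y then f y else 0) :=
              Finset.single_le_sum
                (f := fun e => ∑ e' ∈ E i, if e ≠ e' ∧ P e y ∧ P e' y then f y else 0)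
                (fun e'' _ => Finset.sum_nonneg (fun e3 _ => by split_ifs <;> simp [hfy])) he.1
            rw [if_pos ⟨hne, he.2, he'.2⟩] at h8
            linarith
          have h10 := Finset.single_le_sum
            (f := fun i => ∑ e ∈ E i, ∑ e' ∈ E i, if e ≠ e' ∧ P e y ∧ P e' y then f y else 0)
            (fun i _ => hnn2 i) (mem_univ i)
          linarith
      · push Not at h4
        obtain ⟨h, hh, hPh⟩ := h4
        have h7 := Finset.single_le_sum (f := fun h => if P h y then f y else 0)
          (fun h _ => by split_ifs <;> simp [hfy]) hh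
        simp only [if_pos hPh] at h7
        linarith
    · rw [if_neg h3]
      linarith
  have hsum := Finset.sum_le_sum hbad
  rw [Finset.sum_add_distrib] at hsum
  have hs1 : ∑ y ∈ Ioc Y (2 * Y), ∑ h ∈ S₀, (if P h y then f y else 0) ≤ S₀.card * p₀ * A := by
    rw [Finset.sum_comm]
    calc _ ≤ ∑ h ∈ S₀, p₀ * A := Finset.sum_le_sum (fun h hh => hS h hh)
      _ = S₀.card * p₀ * A := by
          rw [Finset.sum_const, nsmul_eq_mul]
          ring
  have hs2 : ∑ y ∈ Ioc Y (2 * Y), ∑ i, ∑ e ∈ E i, ∑ e' ∈ E i,
      (if e ≠ e' ∧ P e y ∧ P e' y then f y else 0) ≤ (J : ℝ) * n ^ 2 * p₂ * A := by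
    rw [Finset.sum_comm]
    calc _ ≤ ∑ i : Fin J, (n : ℝ) ^ 2 * (p₂ * A) := by
          apply Finset.sum_le_sum
          intro i _
          calc _ = ∑ e ∈ E i, ∑ e' ∈ E i, ∑ y ∈ Ioc Y (2 * Y),
                (if e ≠ e' ∧ P e y ∧ P e' y then f y else 0) := by
                rw [Finset.sum_comm]
                apply Finset.sum_congr rfl
                intro e _
                rw [Finset.sum_comm]
            _ ≤ ∑ e ∈ E i, ∑ e' ∈ E i, p₂ * A := by
                apply Finset.sum_le_sum
                intro e he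
                apply Finset.sum_le_sum
                intro e' he'
                by_cases h3 : e = e'
                · subst h3
                  simp only [ne_eq, not_true_eq_false, false_and, if_false,
                    Finset.sum_const_zero]
                  positivity
                · have h4 := hpair i e he i e' he' h3
                  refine le_trans (le_of_eq ?_) h4
                  apply Finset.sum_congr rfl
                  intro y _
                  by_cases h5 : P e y ∧ P e' y
                  · rw [if_pos ⟨h3, h5⟩, if_pos h5]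
                  · rw [if_neg (fun h => h5 h.2), if_neg h5]
            _ = (n : ℝ) ^ 2 * (p₂ * A) := by
                simp only [Finset.sum_const, nsmul_eq_mul, hcard]
                ring
      _ = (J : ℝ) * n ^ 2 * p₂ * A := by
          rw [Finset.sum_const, nsmul_eq_mul, Finset.card_univ, Fintype.card_fin]
          ring
  have hlt := mul_lt_mul_of_pos_right hfin hA
  have e5 : ((J : ℝ) * n ^ 2 * p₂ + S₀.card * p₀) * A =
      (J : ℝ) * n ^ 2 * p₂ * A + S₀.card * p₀ * A := by ring
  rw [e5] at hlt
  linarith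

end Pool.LGC
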