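import Pool.Agent.Work.MP_b0c12c_chain.InterfaceL

set_option autoImplicit false

namespace Pool.LGC

open Finset Filter
open Pool.LGP

theorem slv_step {u u' η : ℝ} (hu : Real.exp 1 ≤ u) (h1 : u ≤ u') (h2 : u' ≤ u * (1 + η))
    (hη : 0 ≤ η) : Real.log u ≤ Real.log u' ∧ Real.log u' ≤ Real.log u * (1 + η) := by
  have hu0 : 0 < u := (Real.exp_pos 1).trans_le hu
  have hl : 1 ≤ Real.log u := by
    rw [← Real.log_exp 1]
    exact Real.log_le_log (Real.exp_pos 1) hu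
  refine ⟨Real.log_le_log hu0 h1, ?_⟩
  have h3 : Real.log u' ≤ Real.log (u * (1 + η)) := Real.log_le_log (hu0.trans_le h1) h2
  rw [Real.log_mul hu0.ne' (by linarith)] at h3
  have h4 : Real.log (1 + η) ≤ η := by
    have := Real.log_le_sub_one_of_pos (show 0 < 1 + η by linarith)
    linarith
  nlinarith

theorem p_SLV : Stmt_SLV := by
  intro ε hε
  have t1 : Tendsto Real.log atTop atTop := Real.tendsto_log_atTop
  have t2 : Tendsto (fun X : ℝ => Real.log (Real.log X)) atTop atTop := t1.comp t1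
  have t3 : Tendsto (fun X : ℝ => Real.log (Real.log (Real.log X))) atTop atTop := t1.comp t2
  obtain ⟨X₀, h₀⟩ := eventually_atTop.1 ((eventually_ge_atTop (1 : ℝ)).and
    ((t1.eventually_ge_atTop (max (Real.exp 1) (max (Real.log 4) (15 * Real.log 4 / ε)))).and
    ((t2.eventually_ge_atTop (Real.exp 1)).and (t3.eventually_ge_atTop (Real.exp 1)))))
  refine ⟨X₀, fun X hX => ?_⟩
  obtain ⟨hX1, hL1, hL2, hL3⟩ := h₀ X hX
  have hL1e : Real.exp 1 ≤ Real.log X := (le_max_left _ _).trans hL1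
  have hL14 : Real.log 4 ≤ Real.log X :=
    ((le_max_left _ _).trans (le_max_right _ _)).trans hL1
  have hL1ε : 15 * Real.log 4 / ε ≤ Real.log X :=
    ((le_max_right _ _).trans (le_max_right _ _)).trans hL1
  have he : (0 : ℝ) < Real.exp 1 := Real.exp_pos 1
  have p1 : 0 < Real.log X := he.trans_le hL1e
  have p2 : 0 < Real.log (Real.log X) := he.trans_le hL2
  have p3 : 0 < Real.log (Real.log (Real.log X)) := he.trans_le hL3
  have p4 : 0 < Real.log (Real.log (Real.log (Real.log X))) := by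
    have : Real.log (Real.exp 1) ≤ Real.log (Real.log (Real.log (Real.log X))) :=
      Real.log_le_log he hL3
    rw [Real.log_exp] at this
    linarith
  have l4 : 0 < Real.log 4 := Real.log_pos (by norm_num)
  have hff : 0 < ff X := by
    unfold ff
    positivity
  refine ⟨hff, fun p hp1 hp2 => ?_⟩
  have hη0 : 0 ≤ Real.log 4 / Real.log X := by positivity
  have hη1 : Real.log 4 / Real.log X ≤ 1 := by
    rw [div_le_one p1]
    exact hL14
  have hηε : 15 * (Real.log 4 / Real.log X) ≤ ε := by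
    rw [div_le_iff₀ hε] at hL1ε
    rw [mul_div_assoc', div_le_iff₀ p1]
    linarith
  have a1 : Real.log X ≤ Real.log p := Real.log_le_log (by linarith) hp1
  have b1 : Real.log p ≤ Real.log X * (1 + Real.log 4 / Real.log X) := by
    have h1 : Real.log p ≤ Real.log (4 * X) := Real.log_le_log (by linarith) hp2
    rw [Real.log_mul (by norm_num) (by linarith)] at h1
    rw [mul_add, mul_one, mul_div_cancel₀ _ p1.ne']
    linarith
  set η : ℝ := Real.log 4 / Real.log X with hη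
  obtain ⟨a2, b2⟩ := slv_step hL1e a1 b1 hη0
  obtain ⟨a3, b3⟩ := slv_step hL2 a2 b2 hη0
  obtain ⟨a4, b4⟩ := slv_step hL3 a3 b3 hη0
  unfold ff at hff ⊢
  generalize Real.log X = x1 at *
  generalize Real.log p = y1 at *
  generalize Real.log x1 = x2 at *
  generalize Real.log y1 = y2 at *
  generalize Real.log x2 = x3 at *
  generalize Real.log y2 = y3 at *
  generalize Real.log x3 = x4 at *
  generalize Real.log y3 = y4 at *
  have q1 : 0 < y1 := p1.trans_le a1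
  have q2 : 0 < y2 := p2.trans_le a2
  have q3 : 0 < y3 := p3.trans_le a3
  have q4 : 0 < y4 := p4.trans_le a4
  have up : y1 * y2 ^ 2 * y4 / y3 ^ 2 ≤ (1 + η) ^ 4 * (x1 * x2 ^ 2 * x4 / x3 ^ 2) := by
    calc y1 * y2 ^ 2 * y4 / y3 ^ 2
        ≤ (x1 * (1 + η)) * (x2 * (1 + η)) ^ 2 * (x4 * (1 + η)) / x3 ^ 2 := by gcongr
      _ = (1 + η) ^ 4 * (x1 * x2 ^ 2 * x4 / x3 ^ 2) := by ring
  have lo : x1 * x2 ^ 2 * x4 / x3 ^ 2 ≤ (1 + η) ^ 2 * (y1 * y2 ^ 2 * y4 / y3 ^ 2) := by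
    have h1 : x1 * x2 ^ 2 * x4 / x3 ^ 2 ≤ y1 * y2 ^ 2 * y4 / x3 ^ 2 := by gcongr
    refine h1.trans ?_
    rw [div_le_iff₀ (by positivity)]
    have h2 : y3 ^ 2 ≤ (1 + η) ^ 2 * x3 ^ 2 := by
      rw [← mul_pow]
      exact pow_le_pow_left₀ q3.le (by linarith) 2
    have h3 : y1 * y2 ^ 2 * y4 = (y1 * y2 ^ 2 * y4 / y3 ^ 2) * y3 ^ 2 := by
      field_simp
    calc y1 * y2 ^ 2 * y4 = (y1 * y2 ^ 2 * y4 / y3 ^ 2) * y3 ^ 2 := h3
      _ ≤ (y1 * y2 ^ 2 * y4 / y3 ^ 2) * ((1 + η) ^ 2 * x3 ^ 2) := by gcongr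
      _ = (1 + η) ^ 2 * (y1 * y2 ^ 2 * y4 / y3 ^ 2) * x3 ^ 2 := by ring
  have m2 : η ^ 2 ≤ η := by nlinarith
  have m3 : η ^ 3 ≤ η := by nlinarith [mul_nonneg hη0 (sub_nonneg.2 m2)]
  have m4 : η ^ 4 ≤ η := by nlinarith [mul_nonneg hη0 (sub_nonneg.2 m3)]
  have e4 : (1 + η) ^ 4 ≤ 1 + ε := by nlinarith
  have e2 : (1 + η) ^ 2 ≤ 1 + ε := by nlinarith [mul_le_mul_of_nonneg_left hη1 hη0]
  generalize x1 * x2 ^ 2 * x4 / x3 ^ 2 = A at *
  have hB : 0 < y1 * y2 ^ 2 * y4 / y3 ^ 2 := by positivity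
  generalize y1 * y2 ^ 2 * y4 / y3 ^ 2 = B at *
  rw [abs_le]
  constructor
  · -- `A ≤ (1 + η)^2 B`, so `A - B ≤ ε A`
    have h1 : A ≤ (1 + ε) * B := lo.trans (mul_le_mul_of_nonneg_right e2 hB.le)
    by_cases hBA : B ≤ A
    · have : ε * B ≤ ε * A := mul_le_mul_of_nonneg_left hBA hε.le
      linarith
    · push Not at hBA
      have : 0 < ε * A := mul_pos hε hff
      linarith
  · have h1 : B ≤ (1 + ε) * A := up.trans (mul_le_mul_of_nonneg_right e4 hff.le)
    linarith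

end Pool.LGC
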