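import Pool.Agent.Work.MP_b0c12c_chain.Interface

/-! # Chains of large gaps, block SM2: the second moment of the number of survivors (helper33) -/

set_option autoImplicit false

namespace Pool.LGC

open Finset Filter
open Pool.LGP

namespace SM2

/-- `Xv` as a sum of indicators. -/
theorem Xv_eq (R A : Finset ℕ) (v : ℕ) :
    (Xv R A v : ℝ) = ∑ q ∈ A, if (∀ p ∈ R, ¬ p ∣ v + q) then (1 : ℝ) else 0 := by
  unfold Xv
  rw [card_filter]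
  push_cast
  rfl

/-- The square of `Xv` as a sum over pairs. -/
theorem Xv_sq (R A : Finset ℕ) (v : ℕ) :
    (Xv R A v : ℝ) ^ 2 = ∑ q ∈ A, ∑ q' ∈ A,
      if ((∀ p ∈ R, ¬ p ∣ v + q) ∧ ∀ p ∈ R, ¬ p ∣ v + q') then (1 : ℝ) else 0 := by
  rw [sq, Xv_eq, sum_mul_sum]
  refine sum_congr rfl fun q _ => sum_congr rfl fun q' _ => ?_
  by_cases h1 : ∀ p ∈ R, ¬ p ∣ v + q
  · by_cases h2 : ∀ p ∈ R, ¬ p ∣ v + q'
    · rw [if_pos h1, if_pos h2, if_pos ⟨h1, h2⟩, mul_one]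
    · rw [if_neg h2, if_neg (show ¬ ((∀ p ∈ R, ¬ p ∣ v + q) ∧ ∀ p ∈ R, ¬ p ∣ v + q')
        from fun h => h2 h.2), mul_zero]
  · rw [if_neg h1, if_neg (show ¬ ((∀ p ∈ R, ¬ p ∣ v + q) ∧ ∀ p ∈ R, ¬ p ∣ v + q')
        from fun h => h1 h.1), zero_mul]

/-- Diagonal terms. -/
theorem diag_eq (h1 : Stmt_AVG) (R : Finset ℕ) (hR : ∀ p ∈ R, p.Prime) (q : ℕ) :
    ∑ v ∈ range (∏ p ∈ R, p),
      (if ((∀ p ∈ R, ¬ p ∣ v + q) ∧ ∀ p ∈ R, ¬ p ∣ v + q) then (1 : ℝ) else 0) =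
      ((∏ p ∈ R, p : ℕ) : ℝ) * Pi' R := by
  have h := (h1 R hR q q).1
  have e : ∑ v ∈ range (∏ p ∈ R, p),
      (if ((∀ p ∈ R, ¬ p ∣ v + q) ∧ ∀ p ∈ R, ¬ p ∣ v + q) then (1 : ℝ) else 0) =
      (((range (∏ p ∈ R, p)).filter (fun v => ∀ p ∈ R, ¬ p ∣ v + q)).card : ℝ) := by
    rw [card_filter]
    push_cast
    refine sum_congr rfl fun v _ => ?_
    by_cases h1 : ∀ p ∈ R, ¬ p ∣ v + q <;> simp [h1]
  rw [e, h]
  unfold Pi'
  push_cast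
  rw [← prod_mul_distrib]
  refine prod_congr rfl fun p hp => ?_
  have hp1 : 1 ≤ p := (hR p hp).one_lt.le
  have hp0 : (p : ℝ) ≠ 0 := by positivity
  rw [Nat.cast_sub hp1]
  field_simp
  push_cast
  ring

/-- Off-diagonal terms. -/
theorem off_le (h1 : Stmt_AVG) (R : Finset ℕ) (hR : ∀ p ∈ R, p.Prime) (q q' : ℕ) :
    ∑ v ∈ range (∏ p ∈ R, p),
      (if ((∀ p ∈ R, ¬ p ∣ v + q) ∧ ∀ p ∈ R, ¬ p ∣ v + q') then (1 : ℝ) else 0) ≤
      ((∏ p ∈ R, p : ℕ) : ℝ) * (Pi' R ^ 2 *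
        ∏ p ∈ R, (if q ≡ q' [MOD p] then (1 - 1 / (p : ℝ))⁻¹ else 1)) := by
  have h := (h1 R hR q q').2
  have e : ∑ v ∈ range (∏ p ∈ R, p),
      (if ((∀ p ∈ R, ¬ p ∣ v + q) ∧ ∀ p ∈ R, ¬ p ∣ v + q') then (1 : ℝ) else 0) =
      (((range (∏ p ∈ R, p)).filter (fun v => (∀ p ∈ R, ¬ p ∣ v + q) ∧
        ∀ p ∈ R, ¬ p ∣ v + q')).card : ℝ) := by
    rw [card_filter]
    push_cast
    rfl
  rw [e, h]
  unfold Pi'
  push_cast
  rw [← prod_pow, ← prod_mul_distrib, ← prod_mul_distrib]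
  refine prod_le_prod (fun p hp => ?_) fun p hp => ?_
  · positivity
  · have hp2 : 2 ≤ p := (hR p hp).two_le
    have hpr : (2 : ℝ) ≤ p := by exact_mod_cast hp2
    have hp0 : (p : ℝ) ≠ 0 := by positivity
    split_ifs with hc
    · rw [Nat.cast_sub (by omega)]
      have h3 : (1 - 1 / (p : ℝ)) ≠ 0 := by
        have : 1 / (p : ℝ) ≤ 1 / 2 := one_div_le_one_div_of_le (by norm_num) hpr
        linarith
      have h4 : (1 - 1 / (p : ℝ)) ^ 2 * (1 - 1 / (p : ℝ))⁻¹ = 1 - 1 / (p : ℝ) := by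
        field_simp
      rw [h4]
      apply le_of_eq
      field_simp
      push_cast
      ring
    · rw [Nat.cast_sub hp2]
      have h5 : (p : ℝ) * ((1 - 1 / (p : ℝ)) ^ 2 * 1) = p - 2 + 1 / p := by
        field_simp
        ring
      rw [h5]
      have : 0 ≤ 1 / (p : ℝ) := by positivity
      push_cast
      linarith

end SM2

open SM2 in
theorem p_SM2 (h1 : Stmt_AVG) (h2 : Stmt_PR2) : Stmt_SM2 := by
  obtain ⟨C, hC, hPR⟩ := h2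
  refine ⟨C, hC, fun x h R hh hR => ?_⟩
  set A := (Ioc x (x + h)).filter Nat.Prime with hA
  set P := ∏ p ∈ R, p with hP
  have hPR' := hPR x h R hh hR
  rw [← hA] at hPR'
  have hP0 : (0 : ℝ) ≤ (P : ℝ) := by positivity
  calc ∑ v ∈ range P, (Xv R A v : ℝ) ^ 2
      = ∑ v ∈ range P, ∑ q ∈ A, ∑ q' ∈ A,
          (if ((∀ p ∈ R, ¬ p ∣ v + q) ∧ ∀ p ∈ R, ¬ p ∣ v + q') then (1 : ℝ) else 0) :=
        sum_congr rfl fun v _ => Xv_sq R A v
    _ = ∑ q ∈ A, ∑ q' ∈ A, ∑ v ∈ range P,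
          (if ((∀ p ∈ R, ¬ p ∣ v + q) ∧ ∀ p ∈ R, ¬ p ∣ v + q') then (1 : ℝ) else 0) := by
        rw [sum_comm]
        refine sum_congr rfl fun q _ => ?_
        rw [sum_comm]
    _ ≤ ∑ q ∈ A, ((P : ℝ) * Pi' R + ∑ q' ∈ A.erase q, (P : ℝ) * (Pi' R ^ 2 *
          ∏ p ∈ R, (if q ≡ q' [MOD p] then (1 - 1 / (p : ℝ))⁻¹ else 1))) := by
        refine sum_le_sum fun q hq => ?_
        rw [← add_sum_erase A _ hq]
        refine add_le_add (le_of_eq (diag_eq h1 R hR q)) (sum_le_sum fun q' _ => ?_)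
        exact off_le h1 R hR q q'
    _ = (P : ℝ) * (Pi' R * A.card + Pi' R ^ 2 * ∑ q ∈ A, ∑ q' ∈ A.erase q,
          ∏ p ∈ R, (if q ≡ q' [MOD p] then (1 - 1 / (p : ℝ))⁻¹ else 1)) := by
        rw [sum_add_distrib, sum_const, nsmul_eq_mul, mul_add, mul_sum, mul_sum]
        congr 1
        · ring
        · refine sum_congr rfl fun q _ => ?_
          rw [mul_sum, mul_sum]
    _ ≤ (P : ℝ) * (Pi' R * A.card + C * (Pi' R ^ 2 * (A.card * (h / Real.log h)))) := by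
        refine mul_le_mul_of_nonneg_left (add_le_add le_rfl ?_) hP0
        calc Pi' R ^ 2 * ∑ q ∈ A, ∑ q' ∈ A.erase q,
              ∏ p ∈ R, (if q ≡ q' [MOD p] then (1 - 1 / (p : ℝ))⁻¹ else 1)
            ≤ Pi' R ^ 2 * (C * (A.card * (h / Real.log h))) :=
              mul_le_mul_of_nonneg_left hPR' (by positivity)
          _ = C * (Pi' R ^ 2 * (A.card * (h / Real.log h))) := by ring

end Pool.LGC
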