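import Pool.Agent.Work.MP_b0c12c_chain.Interface

/-! # Chains of large gaps between primes: block SPT (helper60) -/

set_option autoImplicit false

namespace Pool.LGC

open Finset Filter
open Pool.LGP

theorem p_SPT : Stmt_SPT := by
  intro π ι _ _ _ S hS a D e hD ha X hX
  classical
  -- some pair of configurations contributes
  unfold cX at hX
  obtain ⟨ρ, -, hρ⟩ := Finset.exists_ne_zero_of_sum_ne_zero hX
  obtain ⟨σ, -, hσ⟩ := Finset.exists_ne_zero_of_sum_ne_zero hρ
  have h1 : (a ρ : ℂ) ≠ 0 := fun h => hσ (by rw [h]; ring)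
  have h2 : (a σ : ℂ) ≠ 0 := fun h => hσ (by rw [h]; ring)
  have h3 : ∏ x, hat (cl S e x) (X x) (ρ x) (σ x) ≠ 0 := fun h => hσ (by rw [h]; ring)
  have ha1 := ha ρ (by exact_mod_cast h1)
  have ha2 := ha σ (by exact_mod_cast h2)
  have hloc : ∀ x, (if X x = 1 then 1 else S.pr x) ≤ S.zl x (ρ x) * S.zl x (σ x) := by
    intro x
    have hx : hat (cl S e x) (X x) (ρ x) (σ x) ≠ 0 := by
      intro h
      exact h3 (Finset.prod_eq_zero (Finset.mem_univ x) h)
    have hp : 1 ≤ S.pr x := (hS.prime x).one_lt.le
    by_cases hX1 : X x = 1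
    · rw [if_pos hX1]
      have e1 : ∀ o, 1 ≤ S.zl x o := by
        intro o
        cases o with
        | none => exact le_rfl
        | some h => exact hp
      exact Nat.mul_pos (e1 _) (e1 _)
    · rw [if_neg hX1]
      cases hr : ρ x with
      | none =>
        cases hs : σ x with
        | none =>
          exfalso
          rw [hr, hs] at hx
          simp only [hat] at hx
          rw [if_neg hX1] at hx
          exact hx rfl
        | some j =>
          simp [Sys.zl]
      | some i =>
        cases hs : σ x with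
        | none => simp [Sys.zl]
        | some j =>
          simp only [Sys.zl]
          exact Nat.le_mul_of_pos_right _ hp
  have h4 : (∏ x, (if X x = 1 then 1 else S.pr x)) ≤ S.szn ρ * S.szn σ := by
    unfold Sys.szn
    rw [← Finset.prod_mul_distrib]
    exact Finset.prod_le_prod' (fun x _ => hloc x)
  have h5 : ((∏ x, (if X x = 1 then 1 else S.pr x) : ℕ) : ℝ) ≤ (S.szn ρ : ℝ) * S.szn σ := by
    exact_mod_cast h4
  refine le_trans (le_trans (le_of_eq ?_) h5) ?_
  · congr!
  · calc (S.szn ρ : ℝ) * S.szn σ ≤ D * D :=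
          mul_le_mul ha1 ha2 (Nat.cast_nonneg _) hD
      _ = D ^ 2 := by ring

end Pool.LGC
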