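import Pool.Agent.Work.MP_b0c12c_chain.Interface

set_option autoImplicit false

namespace Pool.LGC

open Finset Filter
open Pool.LGP

theorem SQS_term (d : ℕ) (hd : Squarefree d) :
    1 / ((d : ℝ) * d.totient) = ∏ p ∈ d.primeFactors, 1 / ((p : ℝ) * (p - 1)) := by
  have hd0 : d ≠ 0 := hd.ne_zero
  have e1 : (∏ p ∈ d.primeFactors, p) = d := Nat.prod_primeFactors_of_squarefree hd
  have e2 := Nat.totient_mul_prod_primeFactors d
  rw [e1, mul_comm] at e2
  have e3 : d.totient = ∏ p ∈ d.primeFactors, (p - 1) :=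
    Nat.eq_of_mul_eq_mul_left (Nat.pos_of_ne_zero hd0) e2
  have e4 : (d.totient : ℝ) = ∏ p ∈ d.primeFactors, ((p : ℝ) - 1) := by
    rw [e3, Nat.cast_prod]
    refine Finset.prod_congr rfl (fun p hp => ?_)
    rw [Nat.cast_sub (Nat.prime_of_mem_primeFactors hp).one_lt.le, Nat.cast_one]
  have e5 : ∏ p ∈ d.primeFactors, (p : ℝ) = d := by
    rw [← Nat.cast_prod, e1]
  calc 1 / ((d : ℝ) * d.totient)
      = 1 / ((∏ p ∈ d.primeFactors, (p : ℝ)) * ∏ p ∈ d.primeFactors, ((p : ℝ) - 1)) := by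
        rw [e5, e4]
    _ = ∏ p ∈ d.primeFactors, 1 / ((p : ℝ) * (p - 1)) := by
        rw [← Finset.prod_mul_distrib, Finset.prod_div_distrib, Finset.prod_const_one]

theorem SQS_prod (D : ℕ) (hD : 2 ≤ D) :
    ∏ n ∈ Ioc 1 D, (1 + 1 / ((n : ℝ) * (n - 1))) ≤ 3 * ((D : ℝ) - 1) / D := by
  induction D, hD using Nat.le_induction with
  | base =>
    rw [show Ioc 1 2 = {2} from rfl, Finset.prod_singleton]
    norm_num
  | succ D hD ih =>
    rw [Finset.prod_Ioc_succ_top (by omega)]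
    have hD2 : (2 : ℝ) ≤ D := by exact_mod_cast hD
    have h0 : (0 : ℝ) < D := by linarith
    refine (mul_le_mul_of_nonneg_right ih ?_).trans ?_
    · push_cast
      have : (0 : ℝ) ≤ 1 / (((D : ℝ) + 1) * (D + 1 - 1)) := by
        apply one_div_nonneg.mpr
        nlinarith
      linarith
    · push_cast
      have e : 3 * ((D : ℝ) - 1) / D * (1 + 1 / (((D : ℝ) + 1) * (D + 1 - 1))) =
          3 * ((D : ℝ) ^ 3 - 1) / (D ^ 2 * (D + 1)) := by
        have : (D : ℝ) + 1 - 1 = D := by ring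
        rw [this]
        field_simp
        ring
      rw [e, div_le_div_iff₀ (by positivity) (by positivity)]
      have : (0 : ℝ) < D + 1 := by linarith
      nlinarith

theorem p_SQS : Stmt_SQS := by
  intro D
  have h1 : ∑ d ∈ (Ioc 0 D).filter Squarefree, 1 / ((d : ℝ) * d.totient) =
      ∑ d ∈ (Ioc 0 D).filter Squarefree, ∏ p ∈ d.primeFactors, 1 / ((p : ℝ) * (p - 1)) :=
    Finset.sum_congr rfl (fun d hd => SQS_term d (Finset.mem_filter.1 hd).2)
  rw [h1]
  have h2 : ∑ d ∈ (Ioc 0 D).filter Squarefree, ∏ p ∈ d.primeFactors, 1 / ((p : ℝ) * (p - 1)) =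
      ∑ T ∈ ((Ioc 0 D).filter Squarefree).image Nat.primeFactors,
        ∏ p ∈ T, 1 / ((p : ℝ) * (p - 1)) := by
    rw [Finset.sum_image]
    intro d hd d' hd' h
    have s1 := (Finset.mem_filter.1 hd).2
    have s2 := (Finset.mem_filter.1 hd').2
    rw [← Nat.prod_primeFactors_of_squarefree s1, ← Nat.prod_primeFactors_of_squarefree s2, h]
  rw [h2]
  have h3 : ∑ T ∈ ((Ioc 0 D).filter Squarefree).image Nat.primeFactors,
        ∏ p ∈ T, 1 / ((p : ℝ) * (p - 1)) ≤
      ∑ T ∈ (Ioc 1 D).powerset, ∏ p ∈ T, 1 / ((p : ℝ) * (p - 1)) := by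
    apply Finset.sum_le_sum_of_subset_of_nonneg
    · intro T hT
      rw [Finset.mem_image] at hT
      obtain ⟨d, hd, rfl⟩ := hT
      rw [Finset.mem_filter, Finset.mem_Ioc] at hd
      rw [Finset.mem_powerset]
      intro p hp
      have hpp := Nat.prime_of_mem_primeFactors hp
      have hle := Nat.le_of_dvd hd.1.1 (Nat.dvd_of_mem_primeFactors hp)
      rw [Finset.mem_Ioc]
      exact ⟨hpp.one_lt, hle.trans hd.1.2⟩
    · intro T hT _
      rw [Finset.mem_powerset] at hT
      refine Finset.prod_nonneg (fun p hp => ?_)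
      have h := (Finset.mem_Ioc.1 (hT hp)).1
      have h' : (1 : ℝ) ≤ p := by exact_mod_cast h.le
      apply one_div_nonneg.mpr
      nlinarith
  refine h3.trans ?_
  rw [← Finset.prod_one_add]
  by_cases hD : 2 ≤ D
  · refine (SQS_prod D hD).trans ?_
    have h0 : (0 : ℝ) < D := by
      have : (2 : ℝ) ≤ D := by exact_mod_cast hD
      linarith
    rw [div_le_iff₀ h0]
    linarith
  · rw [Finset.Ioc_eq_empty_of_le (by omega), Finset.prod_empty]
    norm_num

end Pool.LGC
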