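import Pool.Agent.Work.MP_b0c12c_chain.Interface

set_option autoImplicit false

namespace Pool.LGC

open Finset
open Pool.LGP

theorem SQX_cl_inj {π ι : Type} (S : Sys π ι) (hS : S.Good) (e : ℕ) (x : π) :
    Function.Injective (cl S e x) := by
  intro h h' hh
  by_contra hne
  have hp : (S.pr x).Prime := hS.prime x
  have : Fact (S.pr x).Prime := ⟨hp⟩
  have hv : (S.v h : ZMod (S.pr x)) = (S.v h' : ZMod (S.pr x)) := by
    unfold cl at hh
    exact sub_right_injective hh
  have hW : (S.W : ZMod (S.pr x)) ≠ 0 := by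
    intro h0
    rw [ZMod.natCast_eq_zero_iff] at h0
    have h1 := hS.cop x
    rw [Nat.Prime.coprime_iff_not_dvd hp] at h1
    exact h1 h0
  -- choose y
  set y : ℕ := (-(S.v h : ZMod (S.pr x)) * (S.W : ZMod (S.pr x))⁻¹).val with hy
  have hyc : ((y : ℕ) : ZMod (S.pr x)) = -(S.v h : ZMod (S.pr x)) * (S.W : ZMod (S.pr x))⁻¹ := by
    rw [hy, ZMod.natCast_val, ZMod.cast_id]
  have key : ∀ k, (S.v h : ZMod (S.pr x)) = (S.v k : ZMod (S.pr x)) → S.pr x ∣ S.N k y := by
    intro k hk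
    rw [← ZMod.natCast_eq_zero_iff]
    unfold Sys.N
    push_cast
    rw [hyc, ← hk]
    field_simp
    ring
  exact hS.excl x h h' y hne (key h rfl) (key h' hv)

theorem SQX_loc {π ι : Type} (S : Sys π ι) (e y : ℕ) (x : π) (o : Option ι) :
    S.loc x o y = lm (cl S e x) o ((S.W * y + e : ℕ) : ZMod (S.pr x)) := by
  cases o with
  | none => rfl
  | some h =>
    have hiff : S.pr x ∣ S.N h y ↔ ((S.W * y + e : ℕ) : ZMod (S.pr x)) = cl S e x h := by
      rw [← ZMod.natCast_eq_zero_iff]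
      unfold Sys.N cl
      push_cast
      constructor
      · intro h1
        rw [eq_sub_iff_add_eq]
        linear_combination h1
      · intro h1
        rw [eq_sub_iff_add_eq] at h1
        linear_combination h1
    by_cases hd : S.pr x ∣ S.N h y
    · simp only [Sys.loc, lm, if_pos hd, if_pos (hiff.1 hd)]
    · have hd' : ¬ ((S.W * y + e : ℕ) : ZMod (S.pr x)) = cl S e x h := fun h1 => hd (hiff.2 h1)
      simp only [Sys.loc, lm, if_neg hd, if_neg hd']

theorem p_SQX (h1 : Stmt_LOC) : Stmt_SQX := by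
  intro π ι _ _ _ S hS a e y hE hc
  have hu : ∀ x, IsUnit ((S.W * y + e : ℕ) : ZMod (S.pr x)) := fun x =>
    (ZMod.isUnit_iff_coprime _ _).2 (hc x)
  have hFF : ((FF S a y ^ 2 : ℝ) : ℂ) = ∑ ρ : π → Option ι, ∑ σ : π → Option ι,
      (a ρ : ℂ) * (a σ : ℂ) * ∏ x, (((S.loc x (ρ x) y * S.loc x (σ x) y : ℝ)) : ℂ) := by
    unfold FF Sys.psi
    rw [sq, Finset.sum_mul_sum]
    push_cast
    refine Finset.sum_congr rfl fun ρ _ => Finset.sum_congr rfl fun σ _ => ?_
    rw [Finset.prod_mul_distrib]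
    ring
  rw [hFF]
  have hterm : ∀ ρ σ : π → Option ι,
      ∏ x, (((S.loc x (ρ x) y * S.loc x (σ x) y : ℝ)) : ℂ) =
      ∑ X : (∀ x : π, DirichletCharacter ℂ (S.pr x)),
        (∏ x, hat (cl S e x) (X x) (ρ x) (σ x)) * ∏ x, X x ((S.W * y + e : ℕ) : ZMod (S.pr x)) := by
    intro ρ σ
    have hx : ∀ x, (((S.loc x (ρ x) y * S.loc x (σ x) y : ℝ)) : ℂ) =
        ∑ χ : DirichletCharacter ℂ (S.pr x), hat (cl S e x) χ (ρ x) (σ x) *
          χ ((S.W * y + e : ℕ) : ZMod (S.pr x)) := by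
      intro x
      rw [SQX_loc S e y x (ρ x), SQX_loc S e y x (σ x)]
      exact h1 ι (S.pr x) (cl S e x) (hS.prime x) (hE x) (SQX_cl_inj S hS e x) (ρ x) (σ x) _ (hu x)
    rw [Finset.prod_congr rfl fun x _ => hx x, Finset.prod_univ_sum, Fintype.piFinset_univ]
    refine Finset.sum_congr rfl fun X _ => ?_
    rw [Finset.prod_mul_distrib]
  simp_rw [hterm, cX, Finset.sum_mul, Finset.mul_sum]
  -- left: sum rho, sum sigma, sum X; right: sum X, sum rho, sum sigma
  symm
  rw [Finset.sum_comm]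
  refine Finset.sum_congr rfl fun ρ _ => ?_
  rw [Finset.sum_comm]
  refine Finset.sum_congr rfl fun σ _ => ?_
  refine Finset.sum_congr rfl fun X _ => ?_
  ring

end Pool.LGC
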