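import Pool.Agent.Work.MP_b0c12c_chain.InterfaceY
import Pool.Agent.Work.MP_b0c12c_gaps.B_RNK
import Pool.Agent.Work.MP_b0c12c_gaps.FSc

/-! # Block SRD: integers without prime factor in `[1, D]` and in `(yy w, w]` (helper63) -/

set_option autoImplicit false

namespace Pool.LGC

open Finset Filter Topology
open Pool.LGP

open Classical in
/-- `1 / n` on the integers without prime factor `≤ D` -/
noncomputable def SRD_f (D : ℕ) : ℕ →* ℝ where
  toFun n := if (∀ p : ℕ, p.Prime → p ≤ D → ¬ p ∣ n) then (n : ℝ)⁻¹ else 0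
  map_one' := by
    rw [if_pos (fun p hp _ h => hp.one_lt.ne' (Nat.dvd_one.1 h))]
    simp
  map_mul' a b := by
    by_cases ha : ∀ p : ℕ, p.Prime → p ≤ D → ¬ p ∣ a
    · by_cases hb : ∀ p : ℕ, p.Prime → p ≤ D → ¬ p ∣ b
      · rw [if_pos ha, if_pos hb, if_pos, Nat.cast_mul, mul_inv]
        intro p hp hpD h
        rcases hp.dvd_mul.1 h with h | h
        · exact ha p hp hpD h
        · exact hb p hp hpD h
      · rw [if_neg hb, mul_zero, if_neg]
        intro hab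
        exact hb fun p hp hpD h => hab p hp hpD (h.mul_left a)
    · rw [if_neg ha, zero_mul, if_neg]
      intro hab
      exact ha fun p hp hpD h => hab p hp hpD (h.mul_right b)

theorem SRD_f_pos (D n : ℕ) (h : ∀ p : ℕ, p.Prime → p ≤ D → ¬ p ∣ n) :
    SRD_f D n = (n : ℝ)⁻¹ := by
  classical exact if_pos h

theorem SRD_f_neg (D n : ℕ) (h : ¬ ∀ p : ℕ, p.Prime → p ≤ D → ¬ p ∣ n) : SRD_f D n = 0 := by
  classical exact if_neg h

theorem SRD_f_nonneg (D n : ℕ) : 0 ≤ SRD_f D n := by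
  by_cases h : ∀ p : ℕ, p.Prime → p ≤ D → ¬ p ∣ n
  · rw [SRD_f_pos D n h]; positivity
  · rw [SRD_f_neg D n h]

theorem SRD_f_lt (D : ℕ) {p : ℕ} (hp : p.Prime) : ‖SRD_f D p‖ < 1 := by
  have h1 : (1 : ℝ) < p := by exact_mod_cast hp.one_lt
  rw [Real.norm_of_nonneg (SRD_f_nonneg D p)]
  by_cases h : ∀ q : ℕ, q.Prime → q ≤ D → ¬ q ∣ p
  · rw [SRD_f_pos D p h]
    exact inv_lt_one_of_one_lt₀ h1
  · rw [SRD_f_neg D p h]; norm_num

/-- values at the primes -/
theorem SRD_f_prime (D : ℕ) {p : ℕ} (hp : p.Prime) :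
    SRD_f D p = if p ≤ D then 0 else 1 / (p : ℝ) := by
  by_cases h : p ≤ D
  · rw [if_pos h, SRD_f_neg]
    intro hc
    exact hc p hp h dvd_rfl
  · rw [if_neg h, SRD_f_pos, one_div]
    intro q hq hqD hqp
    rw [(Nat.prime_dvd_prime_iff_eq hq hp).1 hqp] at hqD
    exact h hqD

theorem SRD_sum0 (D M : ℕ) (S : Finset ℕ) (hS : S ⊆ Icc 1 M)
    (hr : ∀ n ∈ S, ∀ p : ℕ, p.Prime → p ≤ D → ¬ p ∣ n) :
    ∑ n ∈ S, 1 / (n : ℝ) ≤ ∏ p ∈ Nat.primesBelow (M + 1), (1 - SRD_f D p)⁻¹ := by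
  classical
  have hlt : ∀ {p : ℕ}, p.Prime → ‖(SRD_f D) p‖ < 1 := fun {p} hp => SRD_f_lt D hp
  have hsum := (EulerProduct.summable_and_hasSum_smoothNumbers_prod_primesBelow_geometric
    (f := SRD_f D) hlt (M + 1)).2
  have h2 : ∑ m ∈ S.subtype (· ∈ Nat.smoothNumbers (M + 1)), SRD_f D m ≤
      ∏ p ∈ Nat.primesBelow (M + 1), (1 - SRD_f D p)⁻¹ :=
    sum_le_hasSum _ (fun m _ => SRD_f_nonneg D m) hsum
  have h3 := Finset.sum_subtype_of_mem (fun n : ℕ => SRD_f D n)
    (s := S) (p := (· ∈ Nat.smoothNumbers (M + 1))) (fun n hn => by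
      have hn' := mem_Icc.1 (hS hn)
      rw [Nat.mem_smoothNumbers']
      intro p hp hpn
      have := Nat.le_of_dvd (by omega) hpn
      omega)
  rw [h3] at h2
  refine le_trans (le_of_eq (Finset.sum_congr rfl fun n hn => ?_)) h2
  rw [SRD_f_pos D n (hr n hn), one_div]

theorem SRD_prod (D M : ℕ) (hDM : D ≤ M) :
    ∏ p ∈ Nat.primesBelow (M + 1), (1 - SRD_f D p)⁻¹ =
      Pi' ((Icc 1 D).filter Nat.Prime) / Pi' ((Icc 1 M).filter Nat.Prime) := by
  have hset : Nat.primesBelow (M + 1) = (Icc 1 M).filter Nat.Prime := by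
    ext p
    simp only [Nat.mem_primesBelow, mem_filter, mem_Icc]
    constructor
    · rintro ⟨a, b⟩; exact ⟨⟨b.one_lt.le, by omega⟩, b⟩
    · rintro ⟨⟨a, b⟩, c⟩; exact ⟨by omega, c⟩
  rw [hset]
  have hne : ∀ p ∈ (Icc 1 M).filter Nat.Prime, (1 - 1 / (p : ℝ)) ≠ 0 := by
    intro p hp
    have h1 : (1 : ℝ) < p := by exact_mod_cast (mem_filter.1 hp).2.one_lt
    have : 1 / (p : ℝ) < 1 := by rw [div_lt_one (by linarith)]; exact h1
    linarith
  have hD : Pi' ((Icc 1 D).filter Nat.Prime) =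
      ∏ p ∈ (Icc 1 M).filter Nat.Prime, (if p ≤ D then (1 - 1 / (p : ℝ)) else 1) := by
    unfold Pi'
    rw [← Finset.prod_filter]
    refine Finset.prod_congr ?_ fun _ _ => rfl
    ext p
    simp only [mem_filter, mem_Icc]
    constructor
    · rintro ⟨⟨h1, h2⟩, h3⟩; exact ⟨⟨⟨h1, h2.trans hDM⟩, h3⟩, h2⟩
    · rintro ⟨⟨⟨h1, h2⟩, h3⟩, h4⟩; exact ⟨⟨h1, h4⟩, h3⟩
  rw [hD]
  unfold Pi'
  rw [← Finset.prod_div_distrib]
  refine Finset.prod_congr rfl fun p hp => ?_
  rw [SRD_f_prime D (mem_filter.1 hp).2]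
  have h0 := hne p hp
  by_cases h : p ≤ D
  · rw [if_pos h, if_pos h, sub_zero, inv_one, div_self h0]
  · rw [if_neg h, if_neg h, one_div]
    rw [one_div] at h0
    rw [one_div]

/-- the count -/
theorem SRD_count (D w H M : ℕ) (hw : 2 ≤ w) (hM : H / w ≤ M) (y : ℕ) (A : Finset ℕ)
    (hA : A ⊆ Icc 1 H) (hD : ∀ n ∈ A, ∀ p : ℕ, p.Prime → p ≤ D → ¬ p ∣ n)
    (hfree : ∀ n ∈ A, ∀ p ∈ (Ioc y w).filter Nat.Prime, ¬ p ∣ n) :
    (A.card : ℝ) ≤
      (((Icc 1 H).filter fun n => n ∈ Nat.smoothNumbers (y + 1)).card : ℝ) +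
        5 * H / Real.log w * ∏ p ∈ Nat.primesBelow (M + 1), (1 - SRD_f D p)⁻¹ := by
  classical
  have hwl : 0 < Real.log w := Real.log_pos (by exact_mod_cast (by omega : 1 < w))
  set S := (Icc 1 H).filter fun n => n ∈ Nat.smoothNumbers (y + 1) with hS
  set R := (Icc 1 (H / w)).filter fun m => ∀ p : ℕ, p.Prime → p ≤ D → ¬ p ∣ m with hR
  have hsub : A ⊆ S ∪ R.biUnion fun m =>
      ((Icc 1 (H / m)).filter Nat.Prime).image fun q => m * q := by
    intro h hh
    have hI := mem_Icc.1 (hA hh)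
    rw [mem_union]
    by_cases hsm : h ∈ Nat.smoothNumbers (y + 1)
    · left
      rw [hS, mem_filter, mem_Icc]
      exact ⟨hI, hsm⟩
    · right
      rw [Nat.mem_smoothNumbers'] at hsm
      push Not at hsm
      obtain ⟨q, hq, hqh, hqy⟩ := hsm
      have hqw : w < q := by
        by_contra hcon
        exact hfree h hh q (by rw [mem_filter, mem_Ioc]; exact ⟨⟨by omega, by omega⟩, hq⟩) hqh
      obtain ⟨m, hm⟩ := hqh
      have hm0 : 0 < m := by
        rcases Nat.eq_zero_or_pos m with h0 | h0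
        · subst h0; omega
        · exact h0
      have hq0 : 0 < q := hq.pos
      rw [mem_biUnion]
      refine ⟨m, ?_, ?_⟩
      · rw [hR, mem_filter, mem_Icc]
        refine ⟨⟨hm0, ?_⟩, fun p hp hpD hpm => hD h hh p hp hpD (hm ▸ hpm.mul_left q)⟩
        rw [Nat.le_div_iff_mul_le (by omega)]
        calc m * w ≤ m * q := Nat.mul_le_mul_left _ hqw.le
          _ = h := by rw [hm]; ring
          _ ≤ H := hI.2
      · rw [mem_image]
        refine ⟨q, ?_, by rw [hm]; ring⟩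
        rw [mem_filter, mem_Icc]
        refine ⟨⟨hq0, ?_⟩, hq⟩
        rw [Nat.le_div_iff_mul_le hm0]
        rw [← hm]; exact hI.2
  have hcard : (A.card : ℝ) ≤ S.card + ∑ m ∈ R, (Nat.primeCounting (H / m) : ℝ) := by
    have h1 : A.card ≤ S.card + ∑ m ∈ R, Nat.primeCounting (H / m) := by
      calc A.card ≤ _ := Finset.card_le_card hsub
        _ ≤ _ := Finset.card_union_le _ _
        _ ≤ _ := by
          refine Nat.add_le_add_left ?_ _
          refine Finset.card_biUnion_le.trans (Finset.sum_le_sum fun m _ => ?_)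
          refine Finset.card_image_le.trans ?_
          rw [Nat.primeCounting, Nat.primeCounting', Nat.count_eq_card_filter_range]
          refine Finset.card_le_card fun p hp => ?_
          rw [mem_filter, mem_Icc] at hp
          rw [mem_filter, mem_range]
          exact ⟨by omega, hp.2⟩
    exact_mod_cast h1
  have hsum : ∑ m ∈ R, (Nat.primeCounting (H / m) : ℝ) ≤
      5 * H / Real.log w * ∏ p ∈ Nat.primesBelow (M + 1), (1 - SRD_f D p)⁻¹ := by
    have h1 : ∀ m ∈ R, (Nat.primeCounting (H / m) : ℝ) ≤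
        5 * H / Real.log w * (1 / (m : ℝ)) := by
      intro m hm
      rw [hR, mem_filter, mem_Icc] at hm
      replace hm := hm.1
      have hm0 : (0 : ℝ) < m := by exact_mod_cast hm.1
      have hmw : w ≤ H / m := by
        rw [Nat.le_div_iff_mul_le hm.1]
        have := (Nat.le_div_iff_mul_le (by omega : 0 < w)).1 hm.2
        linarith [Nat.mul_comm w m]
      have h2 := Pool.Agent.Work.MP_b0c12c_gaps.FS.cheb (H / m) (by omega)
      have h3 : Real.log w ≤ Real.log ((H / m : ℕ) : ℝ) :=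
        Real.log_le_log (by exact_mod_cast (by omega : 0 < w)) (by exact_mod_cast hmw)
      have h4 : ((H / m : ℕ) : ℝ) ≤ H / m := Nat.cast_div_le
      calc (Nat.primeCounting (H / m) : ℝ) ≤ 5 * ((H / m : ℕ) : ℝ) / Real.log ((H / m : ℕ) : ℝ) := h2
        _ ≤ 5 * ((H / m : ℕ) : ℝ) / Real.log w :=
            div_le_div_of_nonneg_left (by positivity) hwl h3
        _ ≤ 5 * ((H : ℝ) / m) / Real.log w := by gcongr
        _ = _ := by ring
    calc _ ≤ ∑ m ∈ R, 5 * H / Real.log w * (1 / (m : ℝ)) := Finset.sum_le_sum h1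
      _ = 5 * H / Real.log w * ∑ m ∈ R, 1 / (m : ℝ) := by rw [Finset.mul_sum]
      _ ≤ _ := mul_le_mul_of_nonneg_left (SRD_sum0 D M R (fun m hm => by
          rw [hR, mem_filter, mem_Icc] at hm
          rw [mem_Icc]
          exact ⟨hm.1.1, hm.1.2.trans hM⟩) (fun m hm => (mem_filter.1 hm).2)) (by positivity)
  linarith

theorem p_SRD (h1 : Stmt_MEL) : Stmt_SRD := by
  classical
  obtain ⟨c, C, hc, hC, hM⟩ := h1
  have t1 : Tendsto (fun w : ℕ => Real.log w) atTop atTop :=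
    Real.tendsto_log_atTop.comp tendsto_natCast_atTop_atTop
  have t2 : Tendsto (fun w : ℕ => Real.log (Real.log w)) atTop atTop :=
    Real.tendsto_log_atTop.comp t1
  refine ⟨1 + 15 * (C / c), by positivity, fun D hD2 => ?_⟩
  filter_upwards [Pool.LGP.p_RNK, eventually_ge_atTop 2, t1.eventually_ge_atTop 1,
    t2.eventually_ge_atTop 1, t1.eventually_ge_atTop ((D : ℝ) + 1),
    t1.eventually_ge_atTop (Real.log D)] with w hR hw2 hL1 hL2 hLD hLlD H A hwH hH hA hrough hfree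
  have hw0 : (0 : ℝ) < w := by exact_mod_cast (by omega : 0 < w)
  have hH0 : (0 : ℝ) < H := by
    have : 0 < H := by omega
    exact_mod_cast this
  have hD2' : (2 : ℝ) ≤ D := by exact_mod_cast hD2
  have hlD : 0 < Real.log D := Real.log_pos (by linarith)
  set L1 := Real.log w with hL1d
  set L2 := Real.log L1 with hL2d
  have hL10 : 0 < L1 := by linarith
  set y := ⌊yy w⌋₊ with hy
  have hyy0 : 0 ≤ yy w := (Real.exp_pos _).le
  have hyle : (y : ℝ) ≤ yy w := Nat.floor_le hyy0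
  have hL13 : L1 ≤ L1 ^ 3 := by nlinarith [mul_pos hL10 hL10]
  have hDL : (D : ℝ) ≤ L1 ^ 3 := by linarith
  set M := ⌊L1 ^ 3⌋₊ with hMd
  have hDM : D ≤ M := Nat.le_floor hDL
  have hHM : H / w ≤ M := by
    refine Nat.le_floor ?_
    have h6 : ((H / w : ℕ) : ℝ) ≤ (H : ℝ) / w := Nat.cast_div_le
    have h7 : (H : ℝ) / w ≤ L1 ^ 3 := by
      rw [div_le_iff₀ hw0]; linarith [mul_comm (w : ℝ) (L1 ^ 3)]
    linarith
  have h1 := SRD_count D w H M hw2 hHM y A hA hrough (fun n hn p hp => by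
    rw [mem_filter, mem_Ioc] at hp
    exact hfree n hn p hp.2 ((Nat.floor_lt hyy0).1 hp.1.1) hp.1.2)
  rw [SRD_prod D M hDM] at h1
  have h3 : (((Icc 1 H).filter fun n => n ∈ Nat.smoothNumbers (y + 1)).card : ℝ) ≤
      H / L1 ^ 3 := by
    refine hR H _ hwH (filter_subset _ _) fun n hn p hp hpn => ?_
    rw [mem_filter, Nat.mem_smoothNumbers'] at hn
    have h4 : p ≤ y := Nat.lt_succ_iff.1 (hn.2 p hp hpn)
    have h5 : (p : ℝ) ≤ y := by exact_mod_cast h4
    exact h5.trans hyle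
  -- Mertens
  have hm1 := (hM D hD2').2
  rw [Nat.floor_natCast] at hm1
  have hm2 := (hM (L1 ^ 3) (by linarith)).1
  rw [← hMd, Real.log_pow] at hm2
  push_cast at hm2
  rw [← hL2d] at hm2
  have hpos : 0 < Pi' ((Icc 1 M).filter Nat.Prime) := lt_of_lt_of_le (by positivity) hm2
  have hq : Pi' ((Icc 1 D).filter Nat.Prime) / Pi' ((Icc 1 M).filter Nat.Prime) ≤
      3 * (C / c) * (L2 / Real.log D) := by
    rw [div_le_iff₀ hpos]
    have h8 : 3 * (C / c) * (L2 / Real.log D) * (c / (3 * L2)) ≤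
        3 * (C / c) * (L2 / Real.log D) * Pi' ((Icc 1 M).filter Nat.Prime) :=
      mul_le_mul_of_nonneg_left hm2 (by positivity)
    have h9 : 3 * (C / c) * (L2 / Real.log D) * (c / (3 * L2)) = C / Real.log D := by
      have : L2 ≠ 0 := by linarith
      field_simp
    linarith
  have h5 : 5 * (H : ℝ) / L1 * (Pi' ((Icc 1 D).filter Nat.Prime) /
      Pi' ((Icc 1 M).filter Nat.Prime)) ≤ 5 * H / L1 * (3 * (C / c) * (L2 / Real.log D)) :=
    mul_le_mul_of_nonneg_left hq (by positivity)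
  have h6 : (H : ℝ) / L1 ^ 3 ≤ H * L2 / (L1 * Real.log D) := by
    rw [div_le_div_iff₀ (by positivity) (by positivity)]
    have h7 : L1 * Real.log D ≤ L1 ^ 3 := by
      have : L1 * Real.log D ≤ L1 * L1 := mul_le_mul_of_nonneg_left hLlD hL10.le
      nlinarith [mul_pos hL10 hL10]
    have h8 : (H : ℝ) * (L1 * Real.log D) ≤ H * L1 ^ 3 := mul_le_mul_of_nonneg_left h7 hH0.le
    have h9 : (H : ℝ) * L1 ^ 3 ≤ H * L1 ^ 3 * L2 :=
      le_mul_of_one_le_right (by positivity) hL2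
    nlinarith
  have h7 : 5 * (H : ℝ) / L1 * (3 * (C / c) * (L2 / Real.log D)) =
      15 * (C / c) * (H * L2 / (L1 * Real.log D)) := by
    field_simp
    ring
  calc (A.card : ℝ) ≤ _ := h1
    _ ≤ H * L2 / (L1 * Real.log D) + 15 * (C / c) * (H * L2 / (L1 * Real.log D)) := by linarith
    _ = (1 + 15 * (C / c)) * (H * L2 / (L1 * Real.log D)) := by ring

end Pool.LGC
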