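import Pool.Agent.Work.MP_b0c12c_chain.Interface
import Pool.Agent.Work.MP_b0c12c_gaps.B_RNK
import Pool.Agent.Work.MP_b0c12c_gaps.FSc

/-! # Block SRV: integers without prime factor in `(yy w, w]` (helper86) -/

set_option autoImplicit false

namespace Pool.LGC

open Finset Filter Topology
open Pool.LGP

theorem p_SRV : Pool.LGP.Stmt_SRV := by
  classical
  have t1 : Tendsto (fun w : ℕ => Real.log w) atTop atTop :=
    Real.tendsto_log_atTop.comp tendsto_natCast_atTop_atTop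
  have t2 : Tendsto (fun w : ℕ => Real.log (Real.log w)) atTop atTop :=
    Real.tendsto_log_atTop.comp t1
  refine ⟨21, by norm_num, ?_⟩
  filter_upwards [Pool.LGP.p_RNK, eventually_ge_atTop 2, t1.eventually_ge_atTop 1,
    t2.eventually_ge_atTop 1] with w hR hw2 hL1 hL2 H A hwH hH hA hfree
  have hw0 : (0 : ℝ) < w := by exact_mod_cast (by omega : 0 < w)
  have hH0 : (0 : ℝ) < H := by
    have : 0 < H := by omega
    exact_mod_cast this
  set L1 := Real.log w with hL1d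
  set L2 := Real.log L1 with hL2d
  have hL10 : 0 < L1 := by linarith
  set y := ⌊yy w⌋₊ with hy
  have hyy0 : 0 ≤ yy w := (Real.exp_pos _).le
  have hyle : (y : ℝ) ≤ yy w := Nat.floor_le hyy0
  have h1 := Pool.Agent.Work.MP_b0c12c_gaps.FS.count_T y w H hw2
  have hsub : A ⊆ (Icc 1 H).filter fun h => ∀ p ∈ (Ioc y w).filter Nat.Prime, ¬ p ∣ h := by
    intro n hn
    rw [mem_filter]
    refine ⟨hA hn, fun p hp => ?_⟩
    rw [mem_filter, mem_Ioc] at hp
    exact hfree n hn p hp.2 ((Nat.floor_lt hyy0).1 hp.1.1) hp.1.2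
  have h2 : (A.card : ℝ) ≤
      ((Icc 1 H).filter fun h => ∀ p ∈ (Ioc y w).filter Nat.Prime, ¬ p ∣ h).card := by
    exact_mod_cast Finset.card_le_card hsub
  have h3 : (((Icc 1 H).filter fun n => n ∈ Nat.smoothNumbers (y + 1)).card : ℝ) ≤
      H / L1 ^ 3 := by
    refine hR H _ hwH (filter_subset _ _) fun n hn p hp hpn => ?_
    rw [mem_filter, Nat.mem_smoothNumbers'] at hn
    have h4 : p ≤ y := Nat.lt_succ_iff.1 (hn.2 p hp hpn)
    have h5 : (p : ℝ) ≤ y := by exact_mod_cast h4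
    exact h5.trans hyle
  have h4 : Real.log ((H / w : ℕ) : ℝ) ≤ 3 * L2 := by
    have h5 : ((H / w : ℕ) : ℝ) ≤ L1 ^ 3 := by
      have h6 : ((H / w : ℕ) : ℝ) ≤ (H : ℝ) / w := Nat.cast_div_le
      have h7 : (H : ℝ) / w ≤ L1 ^ 3 := by
        rw [div_le_iff₀ hw0]; linarith [mul_comm (w : ℝ) (L1 ^ 3)]
      linarith
    have h6 : 0 < H / w := Nat.div_pos hwH (by omega)
    have h7 := Real.log_le_log (by exact_mod_cast h6) h5
    rw [Real.log_pow] at h7
    push_cast at h7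
    exact h7
  have h5 : 5 * (H : ℝ) / L1 * (1 + Real.log ((H / w : ℕ) : ℝ)) ≤ 5 * H / L1 * (4 * L2) :=
    mul_le_mul_of_nonneg_left (by linarith) (by positivity)
  have h6 : (H : ℝ) / L1 ^ 3 ≤ H * L2 / L1 := by
    rw [div_le_div_iff₀ (by positivity) hL10]
    have h7 : L1 ≤ L1 ^ 3 := by nlinarith [mul_pos hL10 hL10]
    have h8 : (H : ℝ) * L1 ≤ H * L1 ^ 3 := mul_le_mul_of_nonneg_left h7 hH0.le
    have h9 : (H : ℝ) * L1 ^ 3 ≤ H * L1 ^ 3 * L2 :=
      le_mul_of_one_le_right (by positivity) hL2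
    nlinarith
  have h7 : 5 * (H : ℝ) / L1 * (4 * L2) = 20 * (H * L2 / L1) := by ring
  calc (A.card : ℝ) ≤ _ := h2
    _ ≤ _ := h1
    _ ≤ H * L2 / L1 + 20 * (H * L2 / L1) := by linarith
    _ = 21 * (H * L2 / L1) := by ring

end Pool.LGC
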