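import Pool.Agent.Work.MP_b0c12c_chain.Interface

/-! # Block SUP: uniform bound for the global coefficients (helper40) -/

set_option autoImplicit false

namespace Pool.LGC

open Finset
open Pool.LGP

theorem SUP_hat_symm {ι : Type} {p : ℕ} (c : ι → ZMod p) (χ : DirichletCharacter ℂ p)
    (o o' : Option ι) : hat c χ o o' = hat c χ o' o := by
  rcases o with _ | i <;> rcases o' with _ | j
  · rfl
  · rfl
  · rfl
  · simp only [hat]
    by_cases h : i = j
    · subst h; rfl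
    · have h2 : ¬ j = i := fun h' => h h'.symm
      simp only [if_neg h, if_neg h2]
      rw [add_comm ((χ (c i))⁻¹)]

theorem p_SUP (hSCP : Stmt_SCP) (hHRW : Stmt_HRW) (hPRB : Stmt_PRB) : Stmt_SUP := by
  intro π ι _ _ _ S hS a z e hz3 hz hE ha hprod X
  classical
  have hp3 : ∀ x, 3 ≤ S.pr x := fun x => by
    have h : (3 : ℝ) ≤ S.pr x := le_trans hz3 (hz x)
    exact_mod_cast h
  choose t ht0 ht1 ht2 using fun x => hHRW ι (S.pr x) (cl S e x) (X x) (hS.prime x) (hp3 x) (hE x)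
  have h1 : ‖cX S e a X‖ ≤ ∑ ρ : π → Option ι, ∑ σ : π → Option ι,
      |a ρ| * |a σ| * ∏ x, ‖hat (cl S e x) (X x) (ρ x) (σ x)‖ := by
    unfold cX
    refine (norm_sum_le _ _).trans (Finset.sum_le_sum fun ρ _ => (norm_sum_le _ _).trans
      (Finset.sum_le_sum fun σ _ => le_of_eq ?_))
    rw [norm_mul, norm_mul, norm_prod, Complex.norm_real, Complex.norm_real, Real.norm_eq_abs,
      Real.norm_eq_abs]
  have h2 := hSCP π (Option ι) (fun x b c => ‖hat (cl S e x) (X x) b c‖) t a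
    (fun _ _ _ => norm_nonneg _) (fun x b c => by rw [SUP_hat_symm]) ht0
  have h3 : ∑ ρ : π → Option ι, a ρ ^ 2 * ∏ x, ∑ c, ‖hat (cl S e x) (X x) (ρ x) c‖ * t x c /
      t x (ρ x) ≤ ∑ ρ : π → Option ι, a ρ ^ 2 * (5 / 4 * S.szn ρ) := by
    refine Finset.sum_le_sum fun ρ _ => ?_
    by_cases h0 : a ρ = 0
    · simp [h0]
    · refine mul_le_mul_of_nonneg_left ?_ (sq_nonneg _)
      refine hPRB π ι S (Fintype.card ι) z ρ hz3 hz (ha ρ h0) hprod
        (fun x o => ∑ c, ‖hat (cl S e x) (X x) o c‖ * t x c / t x o) ?_ ht1 ht2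
      intro x o
      exact Finset.sum_nonneg fun c _ => div_nonneg (mul_nonneg (norm_nonneg _) (ht0 x c).le)
        (ht0 x o).le
  have h4 : ∑ ρ : π → Option ι, a ρ ^ 2 * (5 / 4 * S.szn ρ) = 5 / 4 * MM S a := by
    unfold MM
    rw [Finset.mul_sum]
    exact Finset.sum_congr rfl fun ρ _ => by ring
  have h5 : 0 ≤ MM S a := Finset.sum_nonneg fun ρ _ => by positivity
  calc ‖cX S e a X‖ ≤ _ := h1
    _ ≤ _ := h2
    _ ≤ _ := h3
    _ = 5 / 4 * MM S a := h4
    _ ≤ 2 * MM S a := by linarith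

end Pool.LGC
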