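import Pool.Agent.Work.MP_b0c12c_chain.Interface

/-! # Block TAB: sums over distinct integers larger than `z` (helper75) -/

set_option autoImplicit false

namespace Pool.LGC

open Finset Filter

namespace TAB

theorem tele (f g : ℕ → ℝ) (z : ℕ) (h : ∀ n, z ≤ n → f (n + 1) ≤ g n - g (n + 1))
    (hf : ∀ n, z < n → 0 ≤ f n) (hg : ∀ n, 0 ≤ g n) (P : Finset ℕ) (hP : ∀ p ∈ P, z < p) :
    ∑ p ∈ P, f p ≤ g z := by
  have h1 : ∀ N : ℕ, ∑ p ∈ Ioc z (z + N), f p ≤ g z - g (z + N) := by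
    intro N
    induction N with
    | zero => simp
    | succ N ih =>
      have e : Ioc z (z + (N + 1)) = insert (z + N + 1) (Ioc z (z + N)) := by
        ext x
        simp only [mem_Ioc, mem_insert]
        omega
      rw [e, sum_insert (by simp)]
      have := h (z + N) (by omega)
      have e2 : z + (N + 1) = z + N + 1 := by omega
      rw [e2]
      linarith
  have h2 : P ⊆ Ioc z (z + P.sup id) := by
    intro p hp
    rw [mem_Ioc]
    refine ⟨hP p hp, ?_⟩
    have : p ≤ P.sup id := Finset.le_sup (f := id) hp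
    omega
  calc ∑ p ∈ P, f p ≤ ∑ p ∈ Ioc z (z + P.sup id), f p :=
        sum_le_sum_of_subset_of_nonneg h2 (fun i hi _ => hf i (mem_Ioc.1 hi).1)
    _ ≤ g z - g (z + P.sup id) := h1 _
    _ ≤ g z := by have := hg (z + P.sup id); linarith

end TAB

theorem p_TAB : Stmt_TAB := by
  intro P z k hz hk hP
  constructor
  · have h1 : ∏ p ∈ P, (1 + k / (((p : ℝ) - 1) * √p)) ≤
        ∏ p ∈ P, Real.exp (k / (((p : ℝ) - 1) * √p)) := by
      refine prod_le_prod (fun p hp => ?_) (fun p hp => ?_)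
      · have h2 : (1 : ℝ) ≤ p := by
          have := hP p hp
          exact_mod_cast (by omega : 1 ≤ p)
        have : 0 ≤ k / (((p : ℝ) - 1) * √p) := div_nonneg hk
          (mul_nonneg (by linarith) (Real.sqrt_nonneg _))
        linarith
      · have := Real.add_one_le_exp (k / (((p : ℝ) - 1) * √p))
        linarith
    refine h1.trans ?_
    rw [← Real.exp_sum]
    refine Real.exp_le_exp.2 ?_
    refine TAB.tele (fun p => k / (((p : ℝ) - 1) * √p)) (fun n => 8 * k / √n) z ?_ ?_ ?_ P hP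
    · intro n hn
      have hn2 : (2 : ℝ) ≤ n := by exact_mod_cast (by omega : 2 ≤ n)
      have ha : 0 < √(n : ℝ) := Real.sqrt_pos.2 (by linarith)
      have hb : 0 < √((n : ℝ) + 1) := Real.sqrt_pos.2 (by linarith)
      have ha2 : √(n : ℝ) ^ 2 = n := Real.sq_sqrt (by linarith)
      have hb2 : √((n : ℝ) + 1) ^ 2 = n + 1 := Real.sq_sqrt (by linarith)
      have hba : √((n : ℝ) + 1) ≤ 2 * √(n : ℝ) := by
        have : √((n : ℝ) + 1) ≤ √((2 * √(n : ℝ)) ^ 2) := by
          refine Real.sqrt_le_sqrt ?_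
          nlinarith
        rwa [Real.sqrt_sq (by positivity)] at this
      have hab : √(n : ℝ) ≤ √((n : ℝ) + 1) := Real.sqrt_le_sqrt (by linarith)
      simp only [Nat.cast_add, Nat.cast_one, add_sub_cancel_right]
      have e1 : 8 * k / √(n : ℝ) - 8 * k / √((n : ℝ) + 1) =
          8 * k / (√(n : ℝ) * √((n : ℝ) + 1) * (√(n : ℝ) + √((n : ℝ) + 1))) := by
        rw [div_sub_div _ _ ha.ne' hb.ne', div_eq_div_iff (by positivity) (by positivity)]
        have : (√((n : ℝ) + 1) - √(n : ℝ)) * (√(n : ℝ) + √((n : ℝ) + 1)) = 1 := by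
          nlinarith
        calc (8 * k * √((n : ℝ) + 1) - √(n : ℝ) * (8 * k)) *
              (√(n : ℝ) * √((n : ℝ) + 1) * (√(n : ℝ) + √((n : ℝ) + 1)))
            = 8 * k * ((√((n : ℝ) + 1) - √(n : ℝ)) * (√(n : ℝ) + √((n : ℝ) + 1))) *
              (√(n : ℝ) * √((n : ℝ) + 1)) := by ring
          _ = 8 * k * (√(n : ℝ) * √((n : ℝ) + 1)) := by rw [this]; ring
      rw [e1, div_le_div_iff₀ (by positivity) (by positivity)]
      have e2 : (n : ℝ) * √((n : ℝ) + 1) = √(n : ℝ) ^ 2 * √((n : ℝ) + 1) := by rw [ha2]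
      rw [e2]
      have e3 : √(n : ℝ) * √((n : ℝ) + 1) * (√(n : ℝ) + √((n : ℝ) + 1)) ≤
          8 * (√(n : ℝ) ^ 2 * √((n : ℝ) + 1)) := by
        have : √(n : ℝ) + √((n : ℝ) + 1) ≤ 8 * √(n : ℝ) := by linarith
        calc √(n : ℝ) * √((n : ℝ) + 1) * (√(n : ℝ) + √((n : ℝ) + 1))
            ≤ √(n : ℝ) * √((n : ℝ) + 1) * (8 * √(n : ℝ)) :=
              mul_le_mul_of_nonneg_left this (by positivity)
          _ = 8 * (√(n : ℝ) ^ 2 * √((n : ℝ) + 1)) := by ring
      calc k * (√(n : ℝ) * √((n : ℝ) + 1) * (√(n : ℝ) + √((n : ℝ) + 1)))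
          ≤ k * (8 * (√(n : ℝ) ^ 2 * √((n : ℝ) + 1))) := mul_le_mul_of_nonneg_left e3 hk
        _ = 8 * k * (√(n : ℝ) ^ 2 * √((n : ℝ) + 1)) := by ring
    · intro n hn
      have h2 : (1 : ℝ) ≤ n := by exact_mod_cast (by omega : 1 ≤ n)
      exact div_nonneg hk (mul_nonneg (by linarith) (Real.sqrt_nonneg _))
    · intro n
      exact div_nonneg (by linarith) (Real.sqrt_nonneg _)
  · refine TAB.tele (fun p => 1 / (p : ℝ) ^ 2) (fun n => 1 / (n : ℝ)) z ?_ ?_ ?_ P hP
    · intro n hn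
      have hn2 : (2 : ℝ) ≤ n := by exact_mod_cast (by omega : 2 ≤ n)
      simp only [Nat.cast_add, Nat.cast_one]
      rw [div_sub_div _ _ (by positivity) (by positivity), div_le_div_iff₀ (by positivity)
        (by positivity)]
      nlinarith
    · intro n _
      positivity
    · intro n
      positivity

end Pool.LGC
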