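import Pool.Agent.Work.MP_b0c12c_chain.Interface

/-! UEP: the soft weight on the larger set of primes (helper85). -/

set_option autoImplicit false

namespace Pool.LGC

open Finset Filter
open Pool.LGP

private lemma sum_restrict {P P₀ : Finset ℕ} (h : P₀ ⊆ P) (f : Finset ℕ → ℝ) :
    ∑ T ∈ P.powerset, (if T ⊆ P₀ then f T else 0) = ∑ T ∈ P₀.powerset, f T := by
  rw [← Finset.sum_filter]
  apply Finset.sum_congr
  · ext T
    simp only [Finset.mem_filter, Finset.mem_powerset]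
    exact ⟨fun h1 => h1.2, fun h1 => ⟨h1.trans h, h1⟩⟩
  · intro T _; rfl

theorem p_UEP (h1 : Pool.LGP.Stmt_UEXM) (h2 : Pool.LGP.Stmt_TRF) : Stmt_UEP := by
  intro M η hM hη
  obtain ⟨C, K, L₀, hC, hK, H⟩ := h1 M hM
  refine ⟨C, K, max L₀ (Real.exp (1 / (M * η)) + 1), hC, hK, ?_⟩
  intro L hL P hP ι S hS
  have hL1 : L₀ ≤ L := le_trans (le_max_left _ _) hL
  have hL2 : Real.exp (1 / (M * η)) + 1 ≤ L := le_trans (le_max_right _ _) hL
  have hMη : 0 < M * η := by positivity
  have hLpos : 0 < L := by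
    have := Real.exp_pos (1 / (M * η)); linarith
  have hlog : 1 / (M * η) ≤ Real.log L := by
    rw [Real.le_log_iff_exp_le hLpos]; linarith
  have hlogpos : 0 < Real.log L := lt_of_lt_of_le (by positivity) hlog
  have hb : L / (M * Real.log L) ≤ η * L := by
    rw [div_le_iff₀ (by positivity)]
    rw [div_le_iff₀ hMη] at hlog
    nlinarith
  classical
  set P₀ : Finset ℕ := P.filter (fun p => (p : ℝ) ≤ Real.exp (L / (M * Real.log L))) with hP₀
  have hsub : P₀ ⊆ P := Finset.filter_subset _ _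
  have hP0 : ∀ p : ℕ, p ∈ P₀ ↔
      p.Prime ∧ ⌈L ^ 3⌉₊ < p ∧ (p : ℝ) ≤ Real.exp (L / (M * Real.log L)) := by
    intro p
    rw [hP₀, Finset.mem_filter, hP]
    constructor
    · rintro ⟨⟨a, b, _⟩, c⟩; exact ⟨a, b, c⟩
    · rintro ⟨a, b, c⟩
      exact ⟨⟨a, b, c.trans (Real.exp_le_exp.mpr hb)⟩, c⟩
  obtain ⟨u, u0, ue, um, ulo, uhi, u1, uc, ud⟩ := H L hL1 P₀ hP0
  set u' : Finset ℕ → ℝ := fun T => if T ⊆ P₀ then u T else 0 with hu'
  have hsupp : ∀ T, u' T ≠ 0 → T ∈ P₀.powerset ∧ u T ≠ 0 := by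
    intro T hT
    simp only [hu'] at hT
    split_ifs at hT with h
    · exact ⟨Finset.mem_powerset.mpr h, hT⟩
    · exact absurd rfl hT
  refine ⟨_, h2 P ι S hS u' _ _ C K ?_ ?_ ?_ ?_ ?_ ?_ ?_ ?_⟩
  · intro T; simp only [hu']; split_ifs
    · exact u0 T
    · exact le_rfl
  · simp [hu', ue]
  · rw [← um]; exact sum_restrict hsub u
  · intro T _ hT
    exact ulo T (hsupp T hT).1 (hsupp T hT).2
  · intro T _ hT
    exact uhi T (hsupp T hT).1 (hsupp T hT).2
  · intro T _
    simp only [hu']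
    split_ifs with h
    · exact u1 T (Finset.mem_powerset.mpr h)
    · simp
  · have e : ∀ T ∈ P.powerset, u' T ^ 2 * (∏ p ∈ T, (p : ℝ)) * Real.log (∏ p ∈ T, (p : ℝ)) =
        (if T ⊆ P₀ then u T ^ 2 * (∏ p ∈ T, (p : ℝ)) * Real.log (∏ p ∈ T, (p : ℝ)) else 0) := by
      intro T _; simp only [hu']; split_ifs <;> simp
    rw [Finset.sum_congr rfl e, sum_restrict hsub]
    exact uc
  · intro x hx
    have e : ∀ T ∈ P.powerset, (if x ∈ T then u' T else 0) =
        (if T ⊆ P₀ then (if x ∈ T then u T else 0) else 0) := by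
      intro T _; simp only [hu']; split_ifs <;> simp
    rw [Finset.sum_congr rfl e, sum_restrict hsub]
    by_cases hx0 : x ∈ P₀
    · exact ud x hx0
    · have : ∑ T ∈ P₀.powerset, (if x ∈ T then u T else 0) = 0 := by
        apply Finset.sum_eq_zero
        intro T hT
        rw [if_neg]
        intro h
        exact hx0 (Finset.mem_powerset.mp hT h)
      rw [this]
      positivity

end Pool.LGC
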