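import Pool.Agent.Work.MP_b0c12c_chain.Interface

set_option autoImplicit false

namespace Pool.LGC

open Finset

theorem p_WOR : Stmt_WOR := by
  intro W e Y f hW he hf
  have : NeZero W := ⟨hW.ne'⟩
  have hu : IsUnit (e : ZMod W) := (ZMod.isUnit_iff_coprime e W).2 he
  -- orthogonality
  have horth : ∀ n : ℕ, ∑ χ : DirichletCharacter ℂ W, (χ (e : ZMod W))⁻¹ * χ (n : ZMod W) =
      if (e : ZMod W) = (n : ZMod W) then (W.totient : ℂ) else 0 := by
    intro n
    rw [← DirichletCharacter.sum_char_inv_mul_char_eq ℂ hu (n : ZMod W)]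
    refine Finset.sum_congr rfl fun χ _ => ?_
    congr 1
    have h1 : χ (e : ZMod W) * χ ((e : ZMod W)⁻¹) = 1 := by
      rw [← map_mul, ZMod.mul_inv_of_unit _ hu, map_one]
    exact inv_eq_of_mul_eq_one_right h1
  -- swap the sums
  have hswap : ∑ χ : DirichletCharacter ℂ W, (χ (e : ZMod W))⁻¹ *
        ∑ n ∈ Ioc (W * Y + e) (2 * (W * Y) + e), f n * χ (n : ZMod W) =
      ∑ n ∈ Ioc (W * Y + e) (2 * (W * Y) + e),
        f n * (if (e : ZMod W) = (n : ZMod W) then (W.totient : ℂ) else 0) := by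
    simp_rw [Finset.mul_sum]
    rw [Finset.sum_comm]
    refine Finset.sum_congr rfl fun n _ => ?_
    rw [← horth n, Finset.mul_sum]
    refine Finset.sum_congr rfl fun χ _ => ?_
    ring
  rw [hswap, Finset.mul_sum]
  simp_rw [mul_ite, mul_zero]
  rw [← Finset.sum_filter]
  refine Finset.sum_bij (fun y _ => W * y + e) ?_ ?_ ?_ ?_
  · intro y hy
    rw [Finset.mem_Ioc] at hy
    rw [Finset.mem_filter, Finset.mem_Ioc]
    refine ⟨⟨?_, ?_⟩, ?_⟩
    · have := Nat.mul_lt_mul_of_pos_left hy.1 hW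
      omega
    · have := Nat.mul_le_mul_left W hy.2
      have h2 : W * (2 * Y) = 2 * (W * Y) := by ring
      omega
    · push_cast
      simp
  · intro y₁ _ y₂ _ h
    have h' : W * y₁ = W * y₂ := by
      simpa using h
    exact Nat.eq_of_mul_eq_mul_left hW h'
  · intro n hn
    rw [Finset.mem_filter, Finset.mem_Ioc] at hn
    obtain ⟨⟨h1, h2⟩, h3⟩ := hn
    have h4 : e ≡ n [MOD W] := (ZMod.natCast_eq_natCast_iff _ _ _).1 h3
    have h5 : e ≤ n := by omega
    obtain ⟨y, hy⟩ := (Nat.modEq_iff_dvd' h5).1 h4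
    have h6 : n = W * y + e := by omega
    refine ⟨y, ?_, h6.symm⟩
    rw [Finset.mem_Ioc]
    constructor
    · by_contra hcon
      have := Nat.mul_le_mul_left W (not_lt.1 hcon)
      omega
    · by_contra hcon
      have := Nat.mul_lt_mul_of_pos_left (not_le.1 hcon) hW
      have h7 : W * (2 * Y) = 2 * (W * Y) := by ring
      omega
  · intro y _
    ring

end Pool.LGC
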