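import Pool.Agent.Work.MP_b0c12c_chain.B_MEL

/-! # Chains of large gaps between primes: block WPH (helper60) -/

set_option autoImplicit false

namespace Pool.LGC

open Finset Filter
open Pool.LGP

theorem p_WPH : Stmt_WPH := by
  obtain ⟨c, C, hc, hC, h⟩ := p_MEL
  refine ⟨1 / C, by positivity, ?_⟩
  intro w hw
  have hw2 : (2 : ℝ) ≤ w := by exact_mod_cast hw
  have hlog : 0 < Real.log w := Real.log_pos (by linarith)
  have h1 := (h w hw2).2
  have h0 := (h w hw2).1
  rw [Nat.floor_natCast] at h1 h0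
  have hset : (Icc 1 w).filter Nat.Prime = (primorial w).primeFactors := by
    rw [primeFactors_primorial]
    ext p
    rw [Finset.mem_filter, Finset.mem_Icc, Nat.mem_primesLE]
    constructor
    · rintro ⟨⟨-, a2⟩, a3⟩
      exact ⟨a2, a3⟩
    · rintro ⟨a2, a3⟩
      exact ⟨⟨a3.one_lt.le, a2⟩, a3⟩
  have htot : ((primorial w).totient : ℝ) =
      (primorial w : ℝ) * Pi' ((Icc 1 w).filter Nat.Prime) := by
    have e1 := Nat.totient_eq_mul_prod_factors (primorial w)
    have e2 : ((primorial w).totient : ℝ) = (((primorial w).totient : ℚ) : ℝ) := by push_cast; rfl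
    rw [e2, e1]
    unfold Pi'
    rw [hset]
    push_cast
    congr 1
    apply Finset.prod_congr rfl
    intro p _
    rw [one_div]
  have hPpos : 0 < Pi' ((Icc 1 w).filter Nat.Prime) :=
    lt_of_lt_of_le (div_pos hc hlog) h0
  have hprim : (0 : ℝ) < primorial w := by exact_mod_cast primorial_pos w
  rw [htot, le_div_iff₀ (by positivity)]
  have e3 : Pi' ((Icc 1 w).filter Nat.Prime) * Real.log w ≤ C := by
    rwa [le_div_iff₀ hlog] at h1
  have e4 : 1 / C * Real.log w * ((primorial w : ℝ) * Pi' ((Icc 1 w).filter Nat.Prime)) =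
      (primorial w : ℝ) * (Pi' ((Icc 1 w).filter Nat.Prime) * Real.log w / C) := by
    field_simp
  rw [e4]
  have e5 : Pi' ((Icc 1 w).filter Nat.Prime) * Real.log w / C ≤ 1 := by
    rw [div_le_one hC]
    exact e3
  calc (primorial w : ℝ) * (Pi' ((Icc 1 w).filter Nat.Prime) * Real.log w / C)
      ≤ (primorial w : ℝ) * 1 := mul_le_mul_of_nonneg_left e5 hprim.le
    _ = primorial w := mul_one _

end Pool.LGC
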