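import Pool.Agent.Work.MP_b0c12c_gaps.InterfaceC

/-! # Chains of large gaps between primes: definitions (helper73, note 2752)

`Fam Q`      primitive Dirichlet characters of modulus at most `Q`
`Mom Q u v`  first moment of the prime sums over `(u, v]`
`GoodX`      a scale where the first moment is small
`lm`, `hat`  local factor modulo `p` and the coefficients of its products
`cX`         global coefficients
`ext2`       the system with two further labels -/

set_option autoImplicit false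

namespace Pool.LGC

open Finset Filter
open Pool.LGP

/-- Pairs (modulus, Dirichlet character). -/
abbrev Ch := Σ q : ℕ, DirichletCharacter ℂ q

/-- The primitive characters of modulus at most `Q`. -/
noncomputable def Fam (Q : ℕ) : Finset Ch :=
  open Classical in
  (Ioc 0 Q).sigma fun r => (univ : Finset (DirichletCharacter ℂ r)).filter fun χ => χ.IsPrimitive

/-- `log n` at the primes, `0` elsewhere. -/
noncomputable def th (n : ℕ) : ℝ := if n.Prime then Real.log n else 0

/-- First moment of the characters of modulus at most `Q` over the primes in `(u, v]`. -/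
noncomputable def Mom (Q u v : ℕ) : ℝ :=
  ∑ x ∈ Fam Q, ‖∑ n ∈ Ioc u v, (th n : ℂ) * x.2 (n : ZMod x.1) -
    (open Classical in if x.2 = 1 then ((v : ℂ) - u) else 0)‖

/-- The scale `X` is good. -/
def GoodX (ε κ X : ℝ) : Prop :=
  ∀ Q u v : ℕ, (Q : ℝ) ≤ X ^ κ → X ≤ u → u ≤ v → (v : ℝ) ≤ 4 * X → Mom Q u v ≤ ε * X

variable {π ι : Type}

/-- Local factor as a function modulo `p`. -/
noncomputable def lm {p : ℕ} (c : ι → ZMod p) : Option ι → ZMod p → ℝ
  | none, _ => 1
  | some h, n => open Classical in if n = c h then 1 - (p : ℝ) else 1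

/-- Coefficients of a product of two local factors on the units modulo `p`. -/
noncomputable def hat {p : ℕ} (c : ι → ZMod p) (χ : DirichletCharacter ℂ p) :
    Option ι → Option ι → ℂ
  | none, none => open Classical in if χ = 1 then 1 else 0
  | none, some j => (open Classical in if χ = 1 then 1 else 0) -
      (p : ℂ) / ((p : ℂ) - 1) * (χ (c j))⁻¹
  | some j, none => (open Classical in if χ = 1 then 1 else 0) -
      (p : ℂ) / ((p : ℂ) - 1) * (χ (c j))⁻¹
  | some i, some j => (open Classical in if χ = 1 then 1 else 0) +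
      open Classical in if i = j then ((p : ℂ) ^ 2 - 2 * p) / ((p : ℂ) - 1) * (χ (c j))⁻¹
        else -((p : ℂ) / ((p : ℂ) - 1) * ((χ (c i))⁻¹ + (χ (c j))⁻¹))

/-- If `n = W * y + e` then `pr x ∣ N h y` if and only if `n = cl S e x h` modulo `pr x`. -/
def cl (S : Sys π ι) (e : ℕ) (x : π) (h : ι) : ZMod (S.pr x) :=
  (e : ZMod (S.pr x)) - (S.v h : ZMod (S.pr x))

/-- The value `e` is different from all `v h` modulo all `pr x`. -/
def Ext (S : Sys π ι) (e : ℕ) : Prop := ∀ x h, cl S e x h ≠ 0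

section

variable [Fintype π] [DecidableEq π] [Fintype ι]

/-- The function with coefficients `a`. -/
noncomputable def FF (S : Sys π ι) (a : (π → Option ι) → ℝ) (y : ℕ) : ℝ :=
  ∑ ρ, a ρ * S.psi ρ y

/-- The diagonal quadratic form. -/
noncomputable def MM (S : Sys π ι) (a : (π → Option ι) → ℝ) : ℝ := ∑ ρ, a ρ ^ 2 * S.szn ρ

/-- The error weight. -/
noncomputable def EE (S : Sys π ι) (a : (π → Option ι) → ℝ) : ℝ := ∑ ρ, |a ρ| * S.ez ρ

/-- Global coefficients of `F ^ 2`. -/
noncomputable def cX (S : Sys π ι) (e : ℕ) (a : (π → Option ι) → ℝ)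
    (X : ∀ x : π, DirichletCharacter ℂ (S.pr x)) : ℂ :=
  ∑ ρ : π → Option ι, ∑ σ : π → Option ι,
    (a ρ : ℂ) * (a σ : ℂ) * ∏ x, hat (cl S e x) (X x) (ρ x) (σ x)

end

/-- The system with two further labels. -/
def ext2 (S : Sys π ι) (e₁ e₂ : ℕ) : Sys π (Option (Option ι)) where
  pr := S.pr
  W := S.W
  v := fun o => match o with
    | none => e₁
    | some none => e₂
    | some (some h) => S.v h

/-- Forget the two further labels. -/
def drop (ρ : π → Option (Option (Option ι))) : π → Option ι := fun x => (ρ x).join.join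

section

variable [Fintype π] [DecidableEq π] [Fintype ι] [DecidableEq ι]

/-- Coefficients with the sieve weight `g` on the two further labels. -/
def at2 (g : Finset π → ℝ) (a : (π → Option ι) → ℝ) (ρ : π → Option (Option (Option ι))) : ℝ :=
  a (drop ρ) * (g (fib ρ none) * g (fib ρ (some none)))

/-- The mass of the weights compatible with `σ`. -/
noncomputable def cs (g : Finset π → ℝ) (σ : π → Option ι) : ℝ :=
  ∑ ρ : π → Option (Option (Option ι)),
    open Classical in if drop ρ = σ then g (fib ρ none) * g (fib ρ (some none)) else 0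

/-- Data of the construction (`u` the soft weight, `g` the sieve weight). -/
structure Dat (S : Sys π ι) (u g : Finset π → ℝ) (a b C K D z s G : ℝ) (Y Q : ℕ) : Prop where
  good : S.Good
  W_pos : 0 < S.W
  uok : Uok S u a b C K
  z3 : 3 ≤ z
  z_le : ∀ x, z ≤ S.pr x
  K0 : 0 ≤ K
  C0 : 0 ≤ C
  s0 : 0 < s
  a1 : 1 ≤ a
  b1 : 1 < b
  bD : b ≤ D
  h64 : 192 * Real.log D * (Fintype.card ι + 3) ≤ z
  hK : 16 * (Fintype.card ι : ℝ) ^ 2 * K ^ 2 ≤ z
  hC : (Fintype.card ι : ℝ) * Real.exp 2 * C ≤ Real.log (D / b) / 2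
  heta : (Real.log D * K / z) ^ 2 + Real.exp (-(Real.log (D / b) / Real.log b)) ≤ 1 / 32
  hs : (Fintype.card ι : ℝ) ≤ a ^ s
  tau : ∏ x, (1 + (Fintype.card ι : ℝ) / (((S.pr x : ℝ) - 1) * √(S.pr x))) ≤ 9 / 8
  tau2 : ∑ x, 1 / (S.pr x : ℝ) ^ 2 ≤ 2 / z
  hQ : S.W * D ^ 2 ≤ Q
  g0 : ∀ T, 0 ≤ g T
  g1 : ∑ T, g T = 1
  gG : ∑ T, g T ^ 2 * S.wt T ≤ G
  G1 : G ≤ 1
  gK : ∀ x, ∑ T, (if x ∈ T then g T else 0) ≤ K / S.pr x
  gD : ∀ T, g T ≠ 0 → S.wt T ≤ D
  gE : ∑ T, g T * ∏ x ∈ T, ((S.pr x : ℝ) + 1) ≤ D ^ 2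
  hd : 2 * Real.log D * K / z + 2 * K ^ 2 / z ≤ G
  hY : 8 * (2 * Real.exp 1 * D ^ (1 + s)) ^ 2 * D ^ 8 ≤ G ^ 2 * Y

end

/-- `log x (log log x)^2 log_4 x / (log_3 x)^2`. -/
noncomputable def ff (x : ℝ) : ℝ :=
  Real.log x * Real.log (Real.log x) ^ 2 * Real.log (Real.log (Real.log (Real.log x))) /
    Real.log (Real.log (Real.log x)) ^ 2

end Pool.LGC
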