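import Pool.Agent.Work.MP_b0c12c_chain.Interface
import Pool.Agent.Work.PS.Interface

/-! # Chains of large gaps between primes: the analytic blocks (helper73, note 2752)

These statements use the objects of `Work/PS`; the theorems `main_zs`, `main_ef` and the block
`stmt_ZSPEC` are in `Work/PS/Main.lean`. -/

set_option autoImplicit false

namespace Pool.LGC

open Finset Filter

/-- GSC: arbitrarily large scales where the sum over the zeros is small. -/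
def Stmt_GSC : Prop :=
  ∀ ε : ℝ, 0 < ε → ∃ κ : ℝ, 0 < κ ∧ κ ≤ 1 / 1000 ∧ ∀ X₀ : ℝ, ∃ X : ℝ, X₀ ≤ X ∧ 1 ≤ X ∧
    ∑ x ∈ Pool.Agent.PS.Fam ⌊X ^ κ⌋₊,
      Pool.Agent.PS.zs (Pool.Agent.PS.zl x ⌊X ^ κ⌋₊) X ≤ ε

/-- EFT: the explicit formula for one character and the weight `th`. -/
def Stmt_EFT : Prop :=
  ∃ C : ℝ, 1 ≤ C ∧ ∀ Z : ℕ, C ≤ Z → ∀ x ∈ Pool.Agent.PS.Fam Z, ∀ (X : ℝ) (u v : ℕ), 1 ≤ X →
    X ≤ u → u ≤ v → (v : ℝ) ≤ 4 * X → 4 * X ≤ Real.exp (Real.log Z ^ 2) →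
    ‖∑ n ∈ Ioc u v, (th n : ℂ) * x.2 (n : ZMod x.1) -
      (open Classical in if x.2 = 1 then ((v : ℂ) - u) else 0)‖ ≤
    6 * X * Pool.Agent.PS.zs (Pool.Agent.PS.zl x Z) X +
      C * (X * (Z : ℝ) ^ (-(1 / 3) : ℝ) + (Z : ℝ) ^ 5 * X ^ (19 / 20 : ℝ))

end Pool.LGC
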