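import Pool.Agent.Work.MP_b0c12c_chain.Interface

/-! # Chains of large gaps: prescribed clusters and joint limit points (helper41, helper73)

Upgrade of note 2752: note 2784 (helper41). -/

set_option autoImplicit false

namespace Pool.LGC

open Finset Filter
open Pool.LGP

/-- PIG: primes in intervals. -/
def Stmt_PIG : Prop :=
  ∀ δ : ℝ, 0 < δ → ∃ H₀ : ℕ, ∀ H x : ℕ, H₀ ≤ H → x ≤ H →
    1 / 2 * ((⌊δ * H⌋₊ : ℝ) / Real.log H) ≤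
      (((Ioc x (x + ⌊δ * H⌋₊)).filter Nat.Prime).card : ℝ)

/-- RESP: the residue `v` for prescribed intervals. -/
def Stmt_RESP : Prop :=
  ∀ J : ℕ, 0 < J → ∃ C : ℝ, 0 < C ∧ ∀ δ : ℝ, 0 < δ → ∃ c : ℝ, 0 < c ∧ ∀ᶠ w : ℕ in atTop,
    ∀ H : ℕ, 4 * w ≤ H → (H : ℝ) ≤ w * Real.log w ^ 2 → ∀ x : Fin J → ℕ,
    (∀ i, w ≤ x i ∧ x i + ⌊δ * H⌋₊ ≤ H) →
    ∃ v < primorial w,
      (∀ i, c * (H * Real.log (Real.log w) /
        (Real.log w ^ 2 * Real.log (Real.log (Real.log w)))) ≤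
        (((Ioc (x i) (x i + ⌊δ * H⌋₊)).filter
          (fun h => (v + h).Coprime (primorial w))).card : ℝ)) ∧
      (((Icc 1 H).filter (fun h => (v + h).Coprime (primorial w))).card : ℝ) ≤
        C * (H * Real.log (Real.log w) ^ 2 /
          (Real.log w ^ 2 * Real.log (Real.log (Real.log w))))

/-- SLV: slow variation of `ff`. -/
def Stmt_SLV : Prop :=
  ∀ ε : ℝ, 0 < ε → ∃ X₀ : ℝ, ∀ X : ℝ, X₀ ≤ X → 0 < ff X ∧ ∀ p : ℝ, X ≤ p → p ≤ 4 * X →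
    |ff p - ff X| ≤ ε * ff X

/-- NUG: upper bound for the length. -/
def Stmt_NUG : Prop :=
  ∀ κ₀ κ' : ℝ, 0 < κ₀ → 0 < κ' → ∃ C X₀ : ℝ, 0 < C ∧ ∀ X : ℝ, X₀ ≤ X →
    (HH κ' ⌊κ₀ * Real.log X⌋₊ : ℝ) ≤ C * ff X

/-- CHL: consecutive primes and the indices of their clusters. -/
def Stmt_CHL : Prop :=
  ∀ (a H k J d : ℕ) (x : Fin J → ℕ) (E : Fin J → Finset ℕ),
    (∀ i, E i ⊆ Ioc (x i) (x i + d)) → (∀ i j : Fin J, i < j → x i + d < x j) →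
    (∀ i, x i + d ≤ H) →
    (∀ m ∈ Ioc a (a + H), m.Prime → ∃ i, ∃ h ∈ E i, m = a + h) →
    (∀ i, ((E i).filter (fun h => (a + h).Prime)).card ≤ 1) →
    k + 1 ≤ ((univ.biUnion E).filter (fun h => (a + h).Prime)).card →
    ∃ (n : ℕ) (i : Fin (k + 1) → Fin J), StrictMono i ∧ a < Nat.nth Nat.Prime n ∧
      Nat.nth Nat.Prime (n + k) ≤ a + H ∧
      ∀ j : Fin (k + 1), a + x (i j) < Nat.nth Nat.Prime (n + j) ∧
        Nat.nth Nat.Prime (n + j) ≤ a + x (i j) + d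

/-- LIM: joint limit points at the scale `ff`. -/
def Stmt_LIM : Prop :=
  ∀ k : ℕ, 1 ≤ k → ∃ (κ : ℝ) (J : ℕ), 0 < κ ∧ k < J ∧ ∀ b : Fin J → ℝ, StrictMono b →
    (∀ i, 0 ≤ b i ∧ b i ≤ κ) → ∃ i : Fin (k + 1) → Fin J, StrictMono i ∧
      ∀ ε : ℝ, 0 < ε → ∃ᶠ n in atTop, ∀ j : Fin k,
        |((Nat.nth Nat.Prime (n + j + 1) : ℝ) - Nat.nth Nat.Prime (n + j)) -
          (b (i j.succ) - b (i j.castSucc)) * ff (Nat.nth Nat.Prime n)| ≤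
            ε * ff (Nat.nth Nat.Prime n)

/-- The set of limit points of `(p (n + 1) - p n) / ff (p n)`. -/
def Lam : Set ℝ :=
  {t | ∀ ε : ℝ, 0 < ε → ∃ᶠ n in atTop,
    |((Nat.nth Nat.Prime (n + 1) : ℝ) - Nat.nth Nat.Prime n) / ff (Nat.nth Nat.Prime n) - t| ≤ ε}

/-- MEG: a set that contains a difference of any `J` points of `[0, κ]` is large. -/
def Stmt_MEG : Prop :=
  ∀ (A : Set ℝ) (J : ℕ) (κ : ℝ), 2 ≤ J → 0 < κ →
    (∀ b : Fin J → ℝ, StrictMono b → (∀ i, 0 ≤ b i ∧ b i ≤ κ) →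
      ∃ i j : Fin J, i < j ∧ b j - b i ∈ A) →
    ∀ T : ℝ, 0 < T → T ≤ κ →
      ENNReal.ofReal (T / J ^ 2) ≤ MeasureTheory.volume (A ∩ Set.Icc 0 T)

/-- LAM: the limit points have positive lower density at zero. -/
def Stmt_LAM : Prop :=
  ∃ κ c : ℝ, 0 < κ ∧ 0 < c ∧ ∀ T : ℝ, 0 < T → T ≤ κ →
    ENNReal.ofReal (c * T) ≤ MeasureTheory.volume (Lam ∩ Set.Icc 0 T)

end Pool.LGC
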