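import Pool.Agent.Work.MP_b0c12c_gaps.FinalC
import Pool.Agent.Work.PS.Main
import Pool.Agent.Work.MP_b0c12c_chain.InterfaceL
import Pool.Agent.Work.MP_b0c12c_chain.InterfaceAN
import Pool.Agent.Work.MP_b0c12c_chain.B_AN
import Pool.Agent.Work.MP_b0c12c_chain.B_ASL
import Pool.Agent.Work.MP_b0c12c_chain.B_AVG
import Pool.Agent.Work.MP_b0c12c_chain.B_BTQ
import Pool.Agent.Work.MP_b0c12c_chain.B_CDT
import Pool.Agent.Work.MP_b0c12c_chain.B_CHL
import Pool.Agent.Work.MP_b0c12c_chain.B_CHN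
import Pool.Agent.Work.MP_b0c12c_chain.B_CON
import Pool.Agent.Work.MP_b0c12c_chain.B_CRV
import Pool.Agent.Work.MP_b0c12c_chain.B_DATX
import Pool.Agent.Work.MP_b0c12c_chain.B_E2C
import Pool.Agent.Work.MP_b0c12c_chain.B_E2I
import Pool.Agent.Work.MP_b0c12c_chain.B_E2R
import Pool.Agent.Work.MP_b0c12c_chain.B_E2S
import Pool.Agent.Work.MP_b0c12c_chain.B_EFT0
import Pool.Agent.Work.MP_b0c12c_chain.B_FINK
import Pool.Agent.Work.MP_b0c12c_chain.B_FM1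
import Pool.Agent.Work.MP_b0c12c_chain.B_GEX
import Pool.Agent.Work.MP_b0c12c_chain.B_GLX
import Pool.Agent.Work.MP_b0c12c_chain.B_GSC0
import Pool.Agent.Work.MP_b0c12c_chain.B_HRW
import Pool.Agent.Work.MP_b0c12c_chain.B_IND
import Pool.Agent.Work.MP_b0c12c_chain.B_LAM
import Pool.Agent.Work.MP_b0c12c_chain.B_LOC
import Pool.Agent.Work.MP_b0c12c_chain.B_MEG
import Pool.Agent.Work.MP_b0c12c_chain.B_MEL
import Pool.Agent.Work.MP_b0c12c_chain.B_MID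
import Pool.Agent.Work.MP_b0c12c_chain.B_NPH
import Pool.Agent.Work.MP_b0c12c_chain.B_NUF
import Pool.Agent.Work.MP_b0c12c_chain.B_NUG
import Pool.Agent.Work.MP_b0c12c_chain.B_P1
import Pool.Agent.Work.MP_b0c12c_chain.B_P2
import Pool.Agent.Work.MP_b0c12c_chain.B_PIN
import Pool.Agent.Work.MP_b0c12c_chain.B_PR2
import Pool.Agent.Work.MP_b0c12c_chain.B_PRB
import Pool.Agent.Work.MP_b0c12c_chain.B_PZL
import Pool.Agent.Work.MP_b0c12c_chain.B_PZX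
import Pool.Agent.Work.MP_b0c12c_chain.B_RES
import Pool.Agent.Work.MP_b0c12c_chain.B_SCK
import Pool.Agent.Work.MP_b0c12c_chain.B_SCP
import Pool.Agent.Work.MP_b0c12c_chain.B_SEL
import Pool.Agent.Work.MP_b0c12c_chain.B_SM2
import Pool.Agent.Work.MP_b0c12c_chain.B_SPT
import Pool.Agent.Work.MP_b0c12c_chain.B_SQS
import Pool.Agent.Work.MP_b0c12c_chain.B_SQX
import Pool.Agent.Work.MP_b0c12c_chain.B_SRV
import Pool.Agent.Work.MP_b0c12c_chain.B_SUP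
import Pool.Agent.Work.MP_b0c12c_chain.B_TAB
import Pool.Agent.Work.MP_b0c12c_chain.B_UEP
import Pool.Agent.Work.MP_b0c12c_chain.B_WOR
import Pool.Agent.Work.MP_b0c12c_chain.B_WPH

/-!
# Chains of large gaps between primes: assembly (helper73)
-/

set_option autoImplicit false

namespace Pool.LGC

open Pool.LGP (f_TRF f_VLO f_VUP f_UEXM f_L2 f_RGH f_PEZ f_QLO f_BUP f_ERR f_BBD f_ACT f_QSM)

/-! ## The analytic input -/

theorem g_GSC : Stmt_GSC := gsc Pool.Agent.PS.main_zs Pool.Agent.PS.stmt_ZSPEC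

theorem g_EFT : Stmt_EFT := eft Pool.Agent.PS.main_ef Pool.Agent.PS.stmt_ZSPEC

theorem g_AN : Stmt_AN := p_AN g_GSC g_EFT

/-! ## The prime weighted mean -/

theorem g_GLX : Stmt_GLX := p_GLX (p_SQX p_LOC) p_WOR

theorem g_SUP : Stmt_SUP := p_SUP p_SCP p_HRW p_PRB

theorem g_CON : Stmt_CON := p_CON p_SCP p_HRW p_PRB

theorem g_P1 : Stmt_P1 := p_P1 g_GLX p_IND p_SPT g_SUP g_CON

/-! ## Pairs, core data, selection -/

theorem g_P2 : Stmt_P2 := p_P2 p_E2S p_E2I p_E2R p_E2C f_L2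

theorem g_CDT : Stmt_CDT := p_CDT f_L2 f_RGH f_PEZ f_QLO f_BUP f_ERR f_BBD f_ACT f_QSM

theorem g_SEL : Stmt_SEL := p_SEL p_PZL

theorem g_MID : Stmt_MID := p_MID g_P1 g_P2 g_CDT g_SEL f_ACT

theorem g_DATX : Stmt_DATX := p_DATX (p_UEP f_UEXM f_TRF) (p_GEX f_VLO f_VUP) p_TAB

theorem g_SCK : Stmt_SCK := p_SCK g_MID g_DATX p_WPH

/-! ## Residues -/

theorem g_PR2 : Stmt_PR2 := p_PR2 p_NPH p_SQS p_BTQ

theorem g_FM1 : Stmt_FM1 := p_FM1 p_AVG

theorem g_SM2 : Stmt_SM2 := p_SM2 p_AVG g_PR2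

theorem g_PZX : Stmt_PZX := p_PZX g_FM1 g_SM2

theorem g_RES : Stmt_RES := p_RES g_FM1 g_PZX p_PIN p_MEL p_SRV p_ASL p_CRV

/-! ## The final theorem (infinitely many `n`) -/

theorem g_CHAIN : Stmt_CHAIN := p_FINK g_AN g_SCK g_RES p_CHN p_NUF

end Pool.LGC
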