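import Pool.Agent.Work.MP_b0c12c_chain.Interface

/-! # Chains of large gaps below every large `X`: exceptional zeros (helper73)

The exceptional character `y` (if there is one) enters with the main term `-R`. If it is induced
by a character modulo `W` it is made helpful by the choice of the residue `v`; if it is ramified at
a prime `pr x` its coefficient is small. -/

set_option autoImplicit false

namespace Pool.LGC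

open Finset Filter
open Pool.LGP

/-- First moment; the character `y` has the main term `-R`. -/
noncomputable def MomE (y : Ch) (R : ℝ) (Q u v : ℕ) : ℝ :=
  ∑ x ∈ Fam Q, ‖∑ n ∈ Ioc u v, (th n : ℂ) * x.2 (n : ZMod x.1) -
    (open Classical in if x.2 = 1 then ((v : ℂ) - u) else if x = y then -(R : ℂ) else 0)‖

/-- The scale `X` is good apart from the character `y`. -/
def GoodE (ε κ X : ℝ) (y : Ch) : Prop :=
  ∀ u v : ℕ, X ≤ u → u ≤ v → (v : ℝ) ≤ 4 * X → ∃ R : ℝ, 0 ≤ R ∧ R ≤ (v : ℝ) - u ∧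
    ∀ Q : ℕ, (Q : ℝ) ≤ X ^ κ → MomE y R Q u v ≤ ε * X

/-- ANE: every large scale is good apart from one real character. -/
def Stmt_ANE : Prop :=
  ∀ ε : ℝ, 0 < ε → ∃ κ X₀ : ℝ, 0 < κ ∧ ∀ X : ℝ, X₀ ≤ X → ∃ y : Ch, 0 < y.1 ∧ y.2 ^ 2 = 1 ∧
    GoodE ε κ X y

/-- P1E: prime weighted lower bound with an exceptional character. -/
def Stmt_P1E : Prop :=
  ∀ (π ι : Type) [Fintype π] [DecidableEq π] [Fintype ι] (S : Sys π ι), S.Good → 0 < S.W →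
    ∀ (a : (π → Option ι) → ℝ) (z D τ R : ℝ) (e Y Q : ℕ) (y₁ : Ch), 3 ≤ z →
    (∀ x, z ≤ S.pr x) → 0 ≤ D → Ext S e → e.Coprime S.W →
    (∀ ρ, a ρ ≠ 0 → 64 * (act ρ : ℝ) * (Fintype.card ι + 1) ≤ z ∧ (S.szn ρ : ℝ) ≤ D) →
    ∏ x, (1 + (Fintype.card ι : ℝ) / (((S.pr x : ℝ) - 1) * √(S.pr x))) ≤ 9 / 8 →
    S.W * D ^ 2 ≤ Q →
    (∀ n : ℕ, n.Prime → S.W * Y + e < n → n.Coprime S.W ∧ ∀ x, S.pr x < n) →
    0 ≤ τ → 0 ≤ R → R ≤ S.W * Y →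
    (y₁.2 ≠ 1 → ∀ χ : DirichletCharacter ℂ S.W,
      (∀ n : ℕ, n.Coprime S.W → (∀ x, n.Coprime (S.pr x)) →
        y₁.2 (n : ZMod y₁.1) = χ (n : ZMod S.W)) → χ (e : ZMod S.W) = -1) →
    (∀ X : (∀ x : π, DirichletCharacter ℂ (S.pr x)), (∃ x, X x ≠ 1) →
      ‖cX S e a X‖ ≤ τ * MM S a) →
    1 / (S.W.totient : ℝ) * (MM S a / 2 * (S.W * Y) - τ * MM S a * (S.W * Y) -
      2 * MM S a * MomE y₁ R Q (S.W * Y + e) (2 * (S.W * Y) + e)) ≤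
      ∑ y ∈ Ioc Y (2 * Y), FF S a y ^ 2 * th (S.W * y + e)

/-- ACTX: configurations which are active at one prime have small mass. -/
def Stmt_ACTX : Prop :=
  ∀ (π ι : Type) [Fintype π] [DecidableEq π] [Fintype ι] [DecidableEq ι] (S : Sys π ι)
    (u g : Finset π → ℝ) (a b C K D z s G : ℝ) (Y Q : ℕ), Dat S u g a b C K D z s G Y Q →
    ∀ x₀ : π, ∑ ρ : π → Option ι,
      (open Classical in if ρ x₀ = none then 0 else S.aa u D ρ ^ 2 * S.szn ρ) ≤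
      2 * Fintype.card ι * K / S.pr x₀ * MM S (S.aa u D)

/-- COE: coefficients with a ramified prime of the family are small. -/
def Stmt_COE : Prop :=
  ∀ (π ι : Type) [Fintype π] [DecidableEq π] [Fintype ι] [DecidableEq ι] (S : Sys π ι)
    (u g : Finset π → ℝ) (a b C K D z s G : ℝ) (Y Q : ℕ), Dat S u g a b C K D z s G Y Q →
    ∀ (e : ℕ), Ext S e → ∀ X : (∀ x : π, DirichletCharacter ℂ (S.pr x)), (∃ x, X x ≠ 1) →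
      ‖cX S e (S.aa u D) X‖ ≤
        (3 * Fintype.card ι / √z + 10 * Fintype.card ι * K / z) * MM S (S.aa u D)

/-- MIDE: the construction with an exceptional character. -/
def Stmt_MIDE : Prop :=
  ∀ (π ι : Type) [Fintype π] [DecidableEq π] [Fintype ι] [DecidableEq ι] (S : Sys π ι)
    (u g : Finset π → ℝ) (a b C K D z s G Λ c : ℝ) (Y Q k J n : ℕ) (E : Fin J → Finset ℕ)
    (y₁ : Ch), Dat S u g a b C K D z s G Y Q → 0 < G → 0 < Λ → 0 < c →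
    c ≤ (S.W : ℝ) / (S.W.totient : ℝ) / (8 * Λ) →
    3 * Fintype.card ι / √z + 10 * Fintype.card ι * K / z ≤ 1 / 8 →
    (∀ i j, i ≠ j → Disjoint (E i) (E j)) → (∀ i, (E i).card = n) →
    (∀ i, ∀ e ∈ E i, Ext S e ∧ e.Coprime S.W ∧
      (∃ R : ℝ, 0 ≤ R ∧ R ≤ S.W * Y ∧
        MomE y₁ R Q (S.W * Y + e) (2 * (S.W * Y) + e) ≤ (S.W : ℝ) * Y / 8) ∧
      Real.log ((2 * (S.W * Y) + e : ℕ) : ℝ) ≤ Λ) →
    (y₁.2 ≠ 1 → ∀ χ : DirichletCharacter ℂ S.W,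
      (∀ n : ℕ, n.Coprime S.W → (∀ x, n.Coprime (S.pr x)) →
        y₁.2 (n : ZMod y₁.1) = χ (n : ZMod S.W)) →
      ∀ i, ∀ e ∈ E i, χ (e : ZMod S.W) = -1) →
    (∀ i, ∀ e ∈ E i, ∀ j, ∀ e' ∈ E j, e ≠ e' → (ext2 S e e').Good) →
    (∀ n : ℕ, n.Prime → S.W * Y < n → n.Coprime S.W ∧ ∀ x, S.pr x < n) →
    1 ≤ k → 6 * k ≤ c * (J * n) →
    (J : ℝ) * n ^ 2 * (9 * G ^ 2) + Fintype.card ι *
      (8 * ((Real.log D * K / z) ^ 2 + Real.exp (-(Real.log (D / b) / Real.log b))) +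
        2 * (2 * Real.exp 1 * D ^ (1 + s)) ^ 2 / Y) < c ^ 2 / (72 * G ^ 2) →
    ∃ y ∈ Ioc Y (2 * Y), (∀ h : ι, ¬ (S.N h y).Prime) ∧
      (∀ i, ((E i).filter (fun e => (S.W * y + e).Prime)).card ≤ 1) ∧
      k + 1 ≤ ((univ.biUnion E).filter (fun e => (S.W * y + e).Prime)).card

/-- DATE: the data exist, with one more inequality. -/
def Stmt_DATE : Prop :=
  ∀ κA : ℝ, 0 < κA → ∃ κ₀ κ η C₂ : ℝ, 0 < κ₀ ∧ κ₀ ≤ 1 / 8 ∧ 0 < κ ∧ 0 < η ∧ η ≤ 1 / 2 ∧ 0 < C₂ ∧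
    ∀ δ : ℝ, 0 < δ → ∃ L₀ : ℝ, ∀ L : ℝ, L₀ ≤ L → ∀ P : Finset ℕ,
    (∀ p : ℕ, p ∈ P ↔ p.Prime ∧ ⌈L ^ 3⌉₊ < p ∧ (p : ℝ) ≤ Real.exp (η * L)) →
    ∀ (ι : Type) [Fintype ι] [DecidableEq ι] (S : Sys P ι), (∀ x : P, S.pr x = (x : ℕ)) →
    S.Good → S.W = primorial ⌊κ₀ * L⌋₊ → (Fintype.card ι : ℝ) ≤ κ * L →
    ∀ Y Q : ℕ, Real.exp (L / 2) ≤ Y → Real.exp (κA * L) ≤ Q + 1 →
    ∃ (u g : Finset P → ℝ) (a b C K D z s : ℝ),
      Dat S u g a b C K D z s (C₂ * (Real.log L / L)) Y Q ∧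
      3 * Fintype.card ι / √z + 10 * Fintype.card ι * K / z ≤ 1 / 8 ∧
      (Fintype.card ι : ℝ) *
        (8 * ((Real.log D * K / z) ^ 2 + Real.exp (-(Real.log (D / b) / Real.log b))) +
          2 * (2 * Real.exp 1 * D ^ (1 + s)) ^ 2 / Y) ≤ δ

/-- SCKE: chains of primes at every large scale. -/
def Stmt_SCKE : Prop :=
  ∀ κA : ℝ, 0 < κA → ∃ κ₀ κ C₁ : ℝ, 0 < κ₀ ∧ 0 < κ ∧ 0 < C₁ ∧
    ∀ k J : ℕ, 1 ≤ k → C₁ * k ^ 2 ≤ J → ∃ K₁ X₀ : ℝ, 0 < K₁ ∧ ∀ X : ℝ, X₀ ≤ X →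
    ∀ y₁ : Ch, 0 < y₁.1 → GoodE (1 / 8) κA X y₁ →
    ∀ (w v H n : ℕ) (E : Fin J → Finset ℕ), w = ⌊κ₀ * Real.log X⌋₊ →
    v < primorial w → (H : ℝ) ≤ Real.log X ^ 2 → (∀ i, E i ⊆ Icc 1 H) →
    (∀ i, ∀ h ∈ E i, (v + h).Coprime (primorial w)) → (∀ i j, i ≠ j → Disjoint (E i) (E j)) →
    (∀ i, (E i).card = n) → K₁ * (Real.log X / Real.log (Real.log X)) ≤ (J : ℝ) * n →
    (J : ℝ) * n ≤ 2 * K₁ * (Real.log X / Real.log (Real.log X)) →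
    (((Icc 1 H).filter (fun h => (v + h).Coprime (primorial w))).card : ℝ) ≤ κ * Real.log X →
    (y₁.2 ≠ 1 → ∀ χ : DirichletCharacter ℂ (primorial w),
      (∀ n : ℕ, n.Coprime (primorial w * y₁.1) →
        y₁.2 (n : ZMod y₁.1) = χ (n : ZMod (primorial w))) →
      ∀ i, ∀ h ∈ E i, χ ((v + h : ℕ) : ZMod (primorial w)) = -1) →
    ∃ a : ℕ, X ≤ a ∧ ((a + H : ℕ) : ℝ) ≤ 4 * X ∧
      (∀ m ∈ Ioc a (a + H), m.Prime → ∃ i, ∃ h ∈ E i, m = a + h) ∧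
      (∀ i, ((E i).filter (fun h => (a + h).Prime)).card ≤ 1) ∧
      k + 1 ≤ ((univ.biUnion E).filter (fun h => (a + h).Prime)).card

/-- SGN: the sign of a real character is equidistributed over the residues. -/
def Stmt_SGN : Prop :=
  ∀ (w : ℕ) (χ : DirichletCharacter ℂ (primorial w)), χ ^ 2 = 1 → χ ≠ 1 →
    ∃ p₁ : ℕ, p₁.Prime ∧ p₁ ≤ w ∧ ∀ (R : Finset ℕ) (V : ℕ → ℕ) (q : ℕ), p₁ ∈ R →
      (∀ p ∈ R, p.Prime ∧ p ≤ w) → (∀ v, ∀ p ∈ R, V v ≡ v [MOD p]) →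
      (∀ v, ∀ p : ℕ, p.Prime → p ≤ w → p ∉ R → p ∣ V v) →
      (∀ p : ℕ, p.Prime → p ≤ w → p ∉ R → ¬ p ∣ q) →
      2 * ((range (∏ p ∈ R, p)).filter (fun v => (∀ p ∈ R, ¬ p ∣ v + q) ∧
        χ ((V v + q : ℕ) : ZMod (primorial w)) = -1)).card =
      ((range (∏ p ∈ R, p)).filter (fun v => ∀ p ∈ R, ¬ p ∣ v + q)).card

/-- RESE: the residue `v` and the clusters, with prescribed sign of a real character. -/
def Stmt_RESE : Prop :=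
  ∃ C c : ℝ, 0 < C ∧ 0 < c ∧ ∀ J : ℕ, 0 < J → ∀ᶠ w : ℕ in atTop, ∀ H : ℕ, 4 * w ≤ H →
    (H : ℝ) ≤ w * Real.log w ^ 2 → ∀ χ : DirichletCharacter ℂ (primorial w), χ ^ 2 = 1 →
    ∃ v < primorial w, ∃ E : Fin J → Finset ℕ, (∀ i, E i ⊆ Icc 1 H) ∧
      (∀ i, ∀ h ∈ E i, (v + h).Coprime (primorial w)) ∧
      (χ ≠ 1 → ∀ i, ∀ h ∈ E i, χ ((v + h : ℕ) : ZMod (primorial w)) = -1) ∧
      (∀ i j, i ≠ j → ∀ h ∈ E i, ∀ h' ∈ E j, c / J * H ≤ |(h : ℝ) - h'|) ∧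
      (∀ i, c / J * (H * Real.log (Real.log w) /
        (Real.log w ^ 2 * Real.log (Real.log (Real.log w)))) ≤ ((E i).card : ℝ)) ∧
      (((Icc 1 H).filter (fun h => (v + h).Coprime (primorial w))).card : ℝ) ≤
        C * (H * Real.log (Real.log w) ^ 2 /
          (Real.log w ^ 2 * Real.log (Real.log (Real.log w))))

/-- CHX: the character modulo `W` which agrees with `y`. -/
def Stmt_CHX : Prop :=
  ∀ (y : Ch) (W : ℕ), 0 < y.1 → 0 < W → y.2 ^ 2 = 1 → y.2 ≠ 1 → ∀ χ : DirichletCharacter ℂ W,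
    (∀ n : ℕ, n.Coprime (W * y.1) → y.2 (n : ZMod y.1) = χ (n : ZMod W)) →
    χ ^ 2 = 1 ∧ χ ≠ 1 ∧ ∀ χ' : DirichletCharacter ℂ W,
      (∀ n : ℕ, n.Coprime (W * y.1) → y.2 (n : ZMod y.1) = χ' (n : ZMod W)) → χ' = χ

/-- CHAINX: chains of large gaps below every large `X`. -/
def Stmt_CHAINX : Prop :=
  ∃ c : ℝ, 0 < c ∧ ∀ k : ℕ, 1 ≤ k → ∀ᶠ X : ℕ in atTop, ∃ n, Nat.nth Nat.Prime (n + k) ≤ X ∧
    ∀ i < k, c / k ^ 2 * ff X ≤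
      (Nat.nth Nat.Prime (n + i + 1) : ℝ) - Nat.nth Nat.Prime (n + i)

end Pool.LGC
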