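import Pool.Agent.Work.MP_b0c12c_chain.InterfaceAN
import Pool.Agent.Work.MP_b0c12c_chain.InterfaceX

/-! # Chains of large gaps below every large `X`: the explicit formula (helper73) -/

set_option autoImplicit false

namespace Pool.LGC

open Finset Filter

/-- EFE: the explicit formula with the exceptional zero. -/
def Stmt_EFE : Prop :=
  ∃ C : ℝ, 1 ≤ C ∧ ∀ Z : ℕ, C ≤ Z → ∀ (y : Ch) (δ : ℝ), Pool.Agent.PS.Exc Z y δ → δ ≤ 1 / 10 →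
    ∀ (X : ℝ) (u v : ℕ), 1 ≤ X → X ≤ u → u ≤ v → (v : ℝ) ≤ 4 * X →
    4 * X ≤ Real.exp (Real.log Z ^ 2) → ∃ R : ℝ, 0 ≤ R ∧ R ≤ (v : ℝ) - u ∧
    ∀ x ∈ Pool.Agent.PS.Fam Z,
    ‖∑ n ∈ Ioc u v, (th n : ℂ) * x.2 (n : ZMod x.1) -
      (open Classical in if x.2 = 1 then ((v : ℂ) - u) else if x = y then -(R : ℂ) else 0)‖ ≤
    6 * X * Pool.Agent.PS.zs (Pool.Agent.PS.zx Z y δ x) X +
      C * (X * (Z : ℝ) ^ (-(1 / 3) : ℝ) + (Z : ℝ) ^ 5 * X ^ (19 / 20 : ℝ))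

end Pool.LGC
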