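import Pool.Agent.Work.MP_b0c12c_chain.InterfaceX
import Pool.Agent.Work.MP_b0c12c_chain.InterfaceL

/-! # Large gaps at prescribed positions below every large `X` (helper73, helper41)

The final theorem `Stmt_JGX`: among any `J ≥ C k ^ 2` points of `[0, κ]` there are `k + 1` whose
consecutive differences are (nearly) `k` consecutive prime gaps divided by `ff X`. -/

set_option autoImplicit false

namespace Pool.LGC

open Finset Filter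
open Pool.LGP

/-- ANF: every large scale is good apart from one real primitive character of large modulus. -/
def Stmt_ANF : Prop :=
  ∀ ε : ℝ, 0 < ε → ∃ κ : ℝ, 0 < κ ∧ ∀ D : ℕ, ∃ X₀ : ℝ, ∀ X : ℝ, X₀ ≤ X →
    ∃ y : Ch, 0 < y.1 ∧ y.2 ^ 2 = 1 ∧ y.2.IsPrimitive ∧ (y.2 = 1 ∨ D ≤ y.1) ∧ GoodE ε κ X y

/-- CHC: the conductor of the character modulo `W` which agrees with `y`. -/
def Stmt_CHC : Prop :=
  ∀ (y : Ch) (W : ℕ), 0 < y.1 → 0 < W → y.2.IsPrimitive → ∀ χ : DirichletCharacter ℂ W,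
    (∀ n : ℕ, n.Coprime (W * y.1) → y.2 (n : ZMod y.1) = χ (n : ZMod W)) →
    y.1 ≤ χ.conductor

/-- SRD: integers without prime factor in `[1, D]` and in `(yy w, w]`. -/
def Stmt_SRD : Prop :=
  ∃ C : ℝ, 0 < C ∧ ∀ D : ℕ, 2 ≤ D → ∀ᶠ w : ℕ in atTop, ∀ (H : ℕ) (A : Finset ℕ), w ≤ H →
    (H : ℝ) ≤ w * Real.log w ^ 3 → A ⊆ Icc 1 H →
    (∀ n ∈ A, ∀ p : ℕ, p.Prime → p ≤ D → ¬ p ∣ n) →
    (∀ n ∈ A, ∀ p : ℕ, p.Prime → yy w < p → p ≤ w → ¬ p ∣ n) →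
    (A.card : ℝ) ≤ C * (H * Real.log (Real.log w) / (Real.log w * Real.log D))

/-- RESQ: prescribed intervals, sign of a real character of large conductor, uniform constant. -/
def Stmt_RESQ : Prop :=
  ∃ C : ℝ, 0 < C ∧ ∀ J : ℕ, 0 < J → ∃ D₁ : ℕ, ∀ δ : ℝ, 0 < δ → ∃ c : ℝ, 0 < c ∧
    ∀ᶠ w : ℕ in atTop, ∀ H : ℕ, 4 * w ≤ H → (H : ℝ) ≤ w * Real.log w ^ 2 →
    ∀ χ : DirichletCharacter ℂ (primorial w), χ ^ 2 = 1 → (χ = 1 ∨ D₁ ≤ χ.conductor) →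
    ∀ x : Fin J → ℕ, (∀ i, w ≤ x i ∧ x i + ⌊δ * H⌋₊ ≤ H) →
    ∃ v < primorial w, ∃ E : Fin J → Finset ℕ, (∀ i, E i ⊆ Ioc (x i) (x i + ⌊δ * H⌋₊)) ∧
      (∀ i, ∀ h ∈ E i, (v + h).Coprime (primorial w)) ∧
      (χ ≠ 1 → ∀ i, ∀ h ∈ E i, χ ((v + h : ℕ) : ZMod (primorial w)) = -1) ∧
      (∀ i, c * (H * Real.log (Real.log w) /
        (Real.log w ^ 2 * Real.log (Real.log (Real.log w)))) ≤ ((E i).card : ℝ)) ∧
      (((Icc 1 H).filter (fun h => (v + h).Coprime (primorial w))).card : ℝ) ≤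
        C * (H * Real.log (Real.log w) ^ 2 /
          (Real.log w ^ 2 * Real.log (Real.log (Real.log w))))

/-- JGX: the final theorem. -/
def Stmt_JGX : Prop :=
  ∃ C κ : ℝ, 0 < κ ∧ ∀ k J : ℕ, 1 ≤ k → C * k ^ 2 ≤ J → ∀ b : Fin J → ℝ, StrictMono b →
    (∀ i, 0 ≤ b i ∧ b i ≤ κ) → ∀ ε : ℝ, 0 < ε → ∀ᶠ X : ℕ in atTop,
    ∃ (n : ℕ) (i : Fin (k + 1) → Fin J), StrictMono i ∧
      (X : ℝ) / 4 ≤ Nat.nth Nat.Prime n ∧ Nat.nth Nat.Prime (n + k) ≤ X ∧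
      ∀ j : Fin k, |((Nat.nth Nat.Prime (n + j + 1) : ℝ) - Nat.nth Nat.Prime (n + j)) -
        (b (i j.succ) - b (i j.castSucc)) * ff X| ≤ ε * ff X

end Pool.LGC
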