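import Pool.Agent.Work.MP_b0c12c_gaps.FinalC
import Pool.Agent.Work.PS.Main
import Pool.Agent.Work.MP_b0c12c_chain.InterfaceY
import Pool.Agent.Work.MP_b0c12c_chain.InterfaceXA
import Pool.Agent.Work.MP_b0c12c_chain.B_ACTX
import Pool.Agent.Work.MP_b0c12c_chain.B_ANF
import Pool.Agent.Work.MP_b0c12c_chain.B_AVG
import Pool.Agent.Work.MP_b0c12c_chain.B_BTQ
import Pool.Agent.Work.MP_b0c12c_chain.B_CDT
import Pool.Agent.Work.MP_b0c12c_chain.B_CHC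
import Pool.Agent.Work.MP_b0c12c_chain.B_CHL
import Pool.Agent.Work.MP_b0c12c_chain.B_CHX
import Pool.Agent.Work.MP_b0c12c_chain.B_COE
import Pool.Agent.Work.MP_b0c12c_chain.B_CON
import Pool.Agent.Work.MP_b0c12c_chain.B_CRV
import Pool.Agent.Work.MP_b0c12c_chain.B_DATE
import Pool.Agent.Work.MP_b0c12c_chain.B_E2C
import Pool.Agent.Work.MP_b0c12c_chain.B_E2I
import Pool.Agent.Work.MP_b0c12c_chain.B_E2R
import Pool.Agent.Work.MP_b0c12c_chain.B_E2S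
import Pool.Agent.Work.MP_b0c12c_chain.B_EFE0
import Pool.Agent.Work.MP_b0c12c_chain.B_EFT0
import Pool.Agent.Work.MP_b0c12c_chain.B_FINJ
import Pool.Agent.Work.MP_b0c12c_chain.B_FM1
import Pool.Agent.Work.MP_b0c12c_chain.B_GEX
import Pool.Agent.Work.MP_b0c12c_chain.B_GLX
import Pool.Agent.Work.MP_b0c12c_chain.B_HRW
import Pool.Agent.Work.MP_b0c12c_chain.B_IND
import Pool.Agent.Work.MP_b0c12c_chain.B_LOC
import Pool.Agent.Work.MP_b0c12c_chain.B_MEL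
import Pool.Agent.Work.MP_b0c12c_chain.B_MIDE
import Pool.Agent.Work.MP_b0c12c_chain.B_NUF
import Pool.Agent.Work.MP_b0c12c_chain.B_NUG
import Pool.Agent.Work.MP_b0c12c_chain.B_P1E
import Pool.Agent.Work.MP_b0c12c_chain.B_P2
import Pool.Agent.Work.MP_b0c12c_chain.B_PIG
import Pool.Agent.Work.MP_b0c12c_chain.B_PRB
import Pool.Agent.Work.MP_b0c12c_chain.B_PZL
import Pool.Agent.Work.MP_b0c12c_chain.B_RESQ
import Pool.Agent.Work.MP_b0c12c_chain.B_SCKE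
import Pool.Agent.Work.MP_b0c12c_chain.B_SCP
import Pool.Agent.Work.MP_b0c12c_chain.B_SEL
import Pool.Agent.Work.MP_b0c12c_chain.B_SLV
import Pool.Agent.Work.MP_b0c12c_chain.B_SPT
import Pool.Agent.Work.MP_b0c12c_chain.B_SQX
import Pool.Agent.Work.MP_b0c12c_chain.B_SRD
import Pool.Agent.Work.MP_b0c12c_chain.B_SUP
import Pool.Agent.Work.MP_b0c12c_chain.B_TAB
import Pool.Agent.Work.MP_b0c12c_chain.B_UEP
import Pool.Agent.Work.MP_b0c12c_chain.B_WOR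
import Pool.Agent.Work.MP_b0c12c_chain.B_WPH

/-!
# Large gaps at prescribed positions below every large `X`: assembly (helper73)
-/

set_option autoImplicit false

namespace Pool.LGC

open Pool.LGP (f_TRF f_VLO f_VUP f_UEXM f_L2 f_RGH f_PEZ f_QLO f_BUP f_ERR f_BBD f_ACT f_QSM
  f_WTF f_INJ)

/-! ## The analytic input -/

theorem j_EFT : Stmt_EFT := eft Pool.Agent.PS.main_ef Pool.Agent.PS.stmt_ZSPEC

theorem j_EFE : Stmt_EFE := efe Pool.Agent.PS.main_ef Pool.Agent.PS.stmt_ZSPEC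

theorem j_ANF : Stmt_ANF :=
  p_ANF j_EFE j_EFT Pool.Agent.PS.main_zs Pool.Agent.PS.stmt_SIEG

/-! ## The prime weighted mean -/

theorem j_GLX : Stmt_GLX := p_GLX (p_SQX p_LOC) p_WOR

theorem j_SUP : Stmt_SUP := p_SUP p_SCP p_HRW p_PRB

theorem j_CON : Stmt_CON := p_CON p_SCP p_HRW p_PRB

theorem j_P1E : Stmt_P1E := p_P1E j_GLX p_IND p_SPT j_SUP j_CON

theorem j_ACTX : Stmt_ACTX := p_ACTX f_QLO f_QSM f_WTF f_INJ

theorem j_COE : Stmt_COE := p_COE p_SCP p_HRW p_PRB j_ACTX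

/-! ## Pairs, core data, selection -/

theorem j_P2 : Stmt_P2 := p_P2 p_E2S p_E2I p_E2R p_E2C f_L2

theorem j_CDT : Stmt_CDT := p_CDT f_L2 f_RGH f_PEZ f_QLO f_BUP f_ERR f_BBD f_ACT f_QSM

theorem j_SEL : Stmt_SEL := p_SEL p_PZL

theorem j_MIDE : Stmt_MIDE := p_MIDE j_P1E j_P2 j_CDT j_SEL f_ACT j_COE

theorem j_DATE : Stmt_DATE := p_DATE (p_UEP f_UEXM f_TRF) (p_GEX f_VLO f_VUP) p_TAB

theorem j_SCKE : Stmt_SCKE := p_SCKE j_MIDE j_DATE p_WPH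

/-! ## The final theorem -/

theorem j_FM1 : Stmt_FM1 := p_FM1 p_AVG

theorem j_SRD : Stmt_SRD := p_SRD p_MEL

theorem j_RESQ : Stmt_RESQ := p_RESQ p_PIG p_BTQ p_TAB p_MEL j_SRD j_FM1 p_CRV p_AVG

theorem j_JGX : Stmt_JGX :=
  p_FINJ j_ANF j_SCKE j_RESQ p_CHL p_NUF p_NUG p_SLV p_CHX p_CHC

end Pool.LGC
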