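import Pool.Agent.Work.MP_b0c12c_chain.Defs

/-! # Chains of large gaps between primes: statements of the blocks (helper73, note 2752)

Block `X` lives in `B_X.lean` (import this file, namespace `Pool.LGC`) and proves
`theorem p_X : Stmt_X` or `theorem p_X (h1 : Stmt_Y) ... : Stmt_X` with the statements of the
column `uses` as hypotheses, in that order. -/

set_option autoImplicit false

namespace Pool.LGC

open Finset Filter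
open Pool.LGP

/-! ## Part 1: the analytic input (from `Work/PS`) -/

/-- AN: arbitrarily large good scales. -/
def Stmt_AN : Prop :=
  ∀ ε : ℝ, 0 < ε → ∃ κ : ℝ, 0 < κ ∧ ∀ X₀ : ℝ, ∃ X : ℝ, X₀ ≤ X ∧ GoodX ε κ X

/-! ## Part 2: prime weighted mean of `F ^ 2` -/

/-- LOC: expansion of a product of two local factors in characters modulo `p`. -/
def Stmt_LOC : Prop :=
  ∀ (ι : Type) (p : ℕ) (c : ι → ZMod p), p.Prime → (∀ j, c j ≠ 0) → Function.Injective c →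
    ∀ (o o' : Option ι) (n : ZMod p), IsUnit n →
    ((lm c o n * lm c o' n : ℝ) : ℂ) = ∑ χ : DirichletCharacter ℂ p, hat c χ o o' * χ n

/-- SQX: expansion of `F ^ 2`. -/
def Stmt_SQX : Prop :=
  ∀ (π ι : Type) [Fintype π] [DecidableEq π] [Fintype ι] (S : Sys π ι), S.Good →
    ∀ (a : (π → Option ι) → ℝ) (e y : ℕ), Ext S e → (∀ x, (S.W * y + e).Coprime (S.pr x)) →
    ((FF S a y ^ 2 : ℝ) : ℂ) = ∑ X : (∀ x : π, DirichletCharacter ℂ (S.pr x)),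
      cX S e a X * ∏ x, X x ((S.W * y + e : ℕ) : ZMod (S.pr x))

/-- WOR: orthogonality modulo `W`. -/
def Stmt_WOR : Prop :=
  ∀ (W e Y : ℕ) (f : ℕ → ℂ), 0 < W → e.Coprime W → (∀ n, W * Y + e < n → f n ≠ 0 → n.Coprime W) →
    (W.totient : ℂ) * ∑ y ∈ Ioc Y (2 * Y), f (W * y + e) =
      ∑ χ : DirichletCharacter ℂ W, (χ (e : ZMod W))⁻¹ *
        ∑ n ∈ Ioc (W * Y + e) (2 * (W * Y) + e), f n * χ (n : ZMod W)

/-- GLX: global expansion of the prime weighted sum. -/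
def Stmt_GLX : Prop :=
  ∀ (π ι : Type) [Fintype π] [DecidableEq π] [Fintype ι] (S : Sys π ι), S.Good → 0 < S.W →
    ∀ (a : (π → Option ι) → ℝ) (e Y : ℕ), Ext S e → e.Coprime S.W →
    (∀ n : ℕ, n.Prime → S.W * Y + e < n → n.Coprime S.W ∧ ∀ x, S.pr x < n) →
    (S.W.totient : ℂ) * ((∑ y ∈ Ioc Y (2 * Y), FF S a y ^ 2 * th (S.W * y + e) : ℝ) : ℂ) =
      ∑ χ : DirichletCharacter ℂ S.W, ∑ X : (∀ x : π, DirichletCharacter ℂ (S.pr x)),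
        (χ (e : ZMod S.W))⁻¹ * cX S e a X *
          ∑ n ∈ Ioc (S.W * Y + e) (2 * (S.W * Y) + e),
            (th n : ℂ) * (χ (n : ZMod S.W) * ∏ x, X x (n : ZMod (S.pr x)))

/-- IND: the primitive characters inducing the products. -/
def Stmt_IND : Prop :=
  ∀ (π : Type) [Fintype π] [DecidableEq π] (p : π → ℕ) (W : ℕ), 0 < W → (∀ x, (p x).Prime) →
    Function.Injective p → (∀ x, (p x).Coprime W) →
    ∃ f : DirichletCharacter ℂ W × (∀ x : π, DirichletCharacter ℂ (p x)) → Ch,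
      Function.Injective f ∧
      (∀ z : DirichletCharacter ℂ W × (∀ x : π, DirichletCharacter ℂ (p x)),
        f z ∈ Fam (W * ∏ x, (open Classical in if z.2 x = 1 then 1 else p x))) ∧
      (∀ z, (f z).2 = 1 ↔ z = (1, fun _ => 1)) ∧
      ∀ z (n : ℕ), n.Coprime W → (∀ x, n.Coprime (p x)) →
        (f z).2 (n : ZMod (f z).1) = z.1 (n : ZMod W) * ∏ x, z.2 x (n : ZMod (p x))

/-- SPT: support of the global coefficients. -/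
def Stmt_SPT : Prop :=
  ∀ (π ι : Type) [Fintype π] [DecidableEq π] [Fintype ι] (S : Sys π ι), S.Good →
    ∀ (a : (π → Option ι) → ℝ) (D : ℝ) (e : ℕ), 0 ≤ D → (∀ ρ, a ρ ≠ 0 → (S.szn ρ : ℝ) ≤ D) →
    ∀ X : (∀ x : π, DirichletCharacter ℂ (S.pr x)), cX S e a X ≠ 0 →
      ((∏ x, (open Classical in if X x = 1 then 1 else S.pr x) : ℕ) : ℝ) ≤ D ^ 2

/-- SCP: weighted Schur test for product kernels. -/
def Stmt_SCP : Prop :=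
  ∀ (π β : Type) [Fintype π] [DecidableEq π] [Fintype β] (K : π → β → β → ℝ) (t : π → β → ℝ)
    (a : (π → β) → ℝ), (∀ x b c, 0 ≤ K x b c) → (∀ x b c, K x b c = K x c b) →
    (∀ x b, 0 < t x b) →
    ∑ ρ : π → β, ∑ σ : π → β, |a ρ| * |a σ| * ∏ x, K x (ρ x) (σ x) ≤
      ∑ ρ : π → β, a ρ ^ 2 * ∏ x, ∑ c, K x (ρ x) c * t x c / t x (ρ x)

/-- HRW: weighted row sums of the local coefficients. -/
def Stmt_HRW : Prop :=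
  ∀ (ι : Type) [Fintype ι] (p : ℕ) (c : ι → ZMod p) (χ : DirichletCharacter ℂ p), p.Prime →
    3 ≤ p → (∀ j, c j ≠ 0) →
    ∃ t : Option ι → ℝ, (∀ o, 0 < t o) ∧
      ∑ o', ‖hat c χ none o'‖ * t o' / t none ≤
        1 + (Fintype.card ι : ℝ) / (((p : ℝ) - 1) * √p) ∧
      ∀ j, ∑ o', ‖hat c χ (some j) o'‖ * t o' / t (some j) ≤ p + 6 * ((Fintype.card ι : ℝ) + 1)

/-- PRB: products of the local row bounds. -/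
def Stmt_PRB : Prop :=
  ∀ (π ι : Type) [Fintype π] (S : Sys π ι) (k : ℕ) (z : ℝ) (ρ : π → Option ι), 3 ≤ z →
    (∀ x, z ≤ S.pr x) → 64 * (act ρ : ℝ) * (k + 1) ≤ z →
    ∏ x, (1 + (k : ℝ) / (((S.pr x : ℝ) - 1) * √(S.pr x))) ≤ 9 / 8 →
    ∀ R : π → Option ι → ℝ, (∀ x o, 0 ≤ R x o) →
    (∀ x, R x none ≤ 1 + (k : ℝ) / (((S.pr x : ℝ) - 1) * √(S.pr x))) →
    (∀ x j, R x (some j) ≤ S.pr x + 6 * ((k : ℝ) + 1)) →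
    ∏ x, R x (ρ x) ≤ 5 / 4 * S.szn ρ

/-- SUP: uniform bound for the global coefficients. -/
def Stmt_SUP : Prop :=
  ∀ (π ι : Type) [Fintype π] [DecidableEq π] [Fintype ι] (S : Sys π ι), S.Good →
    ∀ (a : (π → Option ι) → ℝ) (z : ℝ) (e : ℕ), 3 ≤ z → (∀ x, z ≤ S.pr x) → Ext S e →
    (∀ ρ, a ρ ≠ 0 → 64 * (act ρ : ℝ) * (Fintype.card ι + 1) ≤ z) →
    ∏ x, (1 + (Fintype.card ι : ℝ) / (((S.pr x : ℝ) - 1) * √(S.pr x))) ≤ 9 / 8 →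
    ∀ X : (∀ x : π, DirichletCharacter ℂ (S.pr x)), ‖cX S e a X‖ ≤ 2 * MM S a

/-- CON: the main coefficient. -/
def Stmt_CON : Prop :=
  ∀ (π ι : Type) [Fintype π] [DecidableEq π] [Fintype ι] (S : Sys π ι), S.Good →
    ∀ (a : (π → Option ι) → ℝ) (z : ℝ) (e : ℕ), 3 ≤ z → (∀ x, z ≤ S.pr x) → Ext S e →
    (∀ ρ, a ρ ≠ 0 → 64 * (act ρ : ℝ) * (Fintype.card ι + 1) ≤ z) →
    ∏ x, (1 + (Fintype.card ι : ℝ) / (((S.pr x : ℝ) - 1) * √(S.pr x))) ≤ 9 / 8 →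
    ∃ r : ℝ, cX S e a (fun _ => 1) = (r : ℂ) ∧ MM S a / 2 ≤ r

/-- P1: prime weighted lower bound. -/
def Stmt_P1 : Prop :=
  ∀ (π ι : Type) [Fintype π] [DecidableEq π] [Fintype ι] (S : Sys π ι), S.Good → 0 < S.W →
    ∀ (a : (π → Option ι) → ℝ) (z D : ℝ) (e Y Q : ℕ), 3 ≤ z → (∀ x, z ≤ S.pr x) → 0 ≤ D →
    Ext S e → e.Coprime S.W →
    (∀ ρ, a ρ ≠ 0 → 64 * (act ρ : ℝ) * (Fintype.card ι + 1) ≤ z ∧ (S.szn ρ : ℝ) ≤ D) →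
    ∏ x, (1 + (Fintype.card ι : ℝ) / (((S.pr x : ℝ) - 1) * √(S.pr x))) ≤ 9 / 8 →
    S.W * D ^ 2 ≤ Q →
    (∀ n : ℕ, n.Prime → S.W * Y + e < n → n.Coprime S.W ∧ ∀ x, S.pr x < n) →
    1 / (S.W.totient : ℝ) * (MM S a / 2 * (S.W * Y) -
      2 * MM S a * Mom Q (S.W * Y + e) (2 * (S.W * Y) + e)) ≤
      ∑ y ∈ Ioc Y (2 * Y), FF S a y ^ 2 * th (S.W * y + e)

/-! ## Part 3: pairs of rough values -/

/-- E2S: sizes for the system with two further labels. -/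
def Stmt_E2S : Prop :=
  ∀ (π ι : Type) [Fintype π] [DecidableEq π] [DecidableEq ι] (S : Sys π ι) (e₁ e₂ : ℕ)
    (ρ : π → Option (Option (Option ι))),
    ((ext2 S e₁ e₂).szn ρ : ℝ) =
      S.szn (drop ρ) * (S.wt (fib ρ none) * S.wt (fib ρ (some none))) ∧
    (ext2 S e₁ e₂).ez ρ = S.ez (drop ρ) * ((∏ x ∈ fib ρ none, ((S.pr x : ℝ) + 1)) *
      ∏ x ∈ fib ρ (some none), ((S.pr x : ℝ) + 1)) ∧
    act ρ = act (drop ρ) + ((fib ρ none).card + (fib ρ (some none)).card)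

/-- E2I: configurations with two further labels are among the triples. -/
def Stmt_E2I : Prop :=
  ∀ (π ι : Type) [Fintype π] [DecidableEq π] [Fintype ι] [DecidableEq ι]
    (f : (π → Option ι) → ℝ) (g₁ g₂ : Finset π → ℝ), (∀ σ, 0 ≤ f σ) → (∀ T, 0 ≤ g₁ T) →
    (∀ T, 0 ≤ g₂ T) →
    ∑ ρ : π → Option (Option (Option ι)), f (drop ρ) * (g₁ (fib ρ none) * g₂ (fib ρ (some none)))
      ≤ (∑ σ, f σ) * ((∑ T, g₁ T) * ∑ T, g₂ T)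

/-- E2R: the function with two further labels at rough values. -/
def Stmt_E2R : Prop :=
  ∀ (π ι : Type) [Fintype π] [DecidableEq π] [Fintype ι] [DecidableEq ι] (S : Sys π ι)
    (e₁ e₂ : ℕ) (a : (π → Option ι) → ℝ) (g : Finset π → ℝ) (y : ℕ),
    (∀ x, ¬ S.pr x ∣ S.W * y + e₁) → (∀ x, ¬ S.pr x ∣ S.W * y + e₂) →
    FF (ext2 S e₁ e₂) (at2 g a) y = ∑ σ, a σ * cs g σ * S.psi σ y

/-- E2C: the defect of the weights compatible with `σ`. -/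
def Stmt_E2C : Prop :=
  ∀ (π ι : Type) [Fintype π] [DecidableEq π] [Fintype ι] [DecidableEq ι] (S : Sys π ι)
    (g : Finset π → ℝ) (K z : ℝ), (∀ T, 0 ≤ g T) → ∑ T, g T = 1 → 0 < z →
    (∀ x, z ≤ S.pr x) → 0 ≤ K →
    (∀ x, ∑ T, (if x ∈ T then g T else 0) ≤ K / S.pr x) → ∑ x, 1 / (S.pr x : ℝ) ^ 2 ≤ 2 / z →
    ∀ σ : π → Option ι, cs g σ ≤ 1 ∧ 1 - cs g σ ≤ 2 * (act σ : ℝ) * K / z + 2 * K ^ 2 / z

/-- P2: pairs of rough values. -/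
def Stmt_P2 : Prop :=
  ∀ (π ι : Type) [Fintype π] [DecidableEq π] [Fintype ι] [DecidableEq ι] (S : Sys π ι), S.Good →
    ∀ (e₁ e₂ : ℕ), (ext2 S e₁ e₂).Good → ∀ (a : (π → Option ι) → ℝ) (g : Finset π → ℝ)
    (z A G K R d : ℝ) (Y : ℕ), 3 ≤ z → (∀ x, z ≤ S.pr x) → 0 ≤ A → 0 ≤ K →
    (∀ ρ, a ρ ≠ 0 → (act ρ : ℝ) ≤ A) → (∀ T, g T ≠ 0 → (T.card : ℝ) ≤ A) →
    24 * A * (Fintype.card ι + 3) ≤ z → (∀ T, 0 ≤ g T) → ∑ T, g T = 1 →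
    ∑ T, g T ^ 2 * S.wt T ≤ G → (∀ x, ∑ T, (if x ∈ T then g T else 0) ≤ K / S.pr x) →
    ∑ x, 1 / (S.pr x : ℝ) ^ 2 ≤ 2 / z → ∑ T, g T * ∏ x ∈ T, ((S.pr x : ℝ) + 1) ≤ R →
    2 * A * K / z + 2 * K ^ 2 / z ≤ d →
    ∑ y ∈ Ioc Y (2 * Y), (if (∀ x, ¬ S.pr x ∣ S.W * y + e₁) ∧ (∀ x, ¬ S.pr x ∣ S.W * y + e₂) then
        FF S a y ^ 2 else 0) ≤
      4 * Y * MM S a * (G ^ 2 + d ^ 2) + 2 * ((EE S a * R ^ 2) ^ 2 + EE S a ^ 2)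

/-! ## Part 4: core data and selection -/

/-- CDT: total mass and mass of the rough values of the labels. -/
def Stmt_CDT : Prop :=
  ∀ (π ι : Type) [Fintype π] [DecidableEq π] [Fintype ι] [DecidableEq ι] (S : Sys π ι), S.Good →
    ∀ (u : Finset π → ℝ) (a b C K D z s : ℝ) (Y : ℕ), Uok S u a b C K → 3 ≤ z →
    (∀ x, z ≤ S.pr x) → 0 ≤ K → 0 ≤ C → 0 < s → 1 ≤ a → 1 < b → b ≤ D →
    8 * Real.log D * (Fintype.card ι + 1) ≤ z →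
    16 * (Fintype.card ι : ℝ) ^ 2 * K ^ 2 ≤ z →
    (Fintype.card ι : ℝ) * Real.exp 2 * C ≤ Real.log (D / b) / 2 →
    (Real.log D * K / z) ^ 2 + Real.exp (-(Real.log (D / b) / Real.log b)) ≤ 1 / 32 →
    (Fintype.card ι : ℝ) ≤ a ^ s →
    1 / 2 ≤ MM S (S.aa u D) ∧ EE S (S.aa u D) ≤ 2 * Real.exp 1 * D ^ (1 + s) ∧
    ∑ y ∈ Ioc Y (2 * Y), FF S (S.aa u D) y ^ 2 ≤
      2 * Y * MM S (S.aa u D) + EE S (S.aa u D) ^ 2 ∧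
    ∀ m : ι, ∑ y ∈ Ioc Y (2 * Y),
      (if ∀ x, ¬ S.pr x ∣ S.N m y then FF S (S.aa u D) y ^ 2 else 0) ≤
      8 * Y * ((Real.log D * K / z) ^ 2 + Real.exp (-(Real.log (D / b) / Real.log b))) *
        MM S (S.aa u D) + EE S (S.aa u D) ^ 2

/-- PZL: Paley-Zygmund with the second factorial moment. -/
def Stmt_PZL : Prop :=
  ∀ (A : Finset ℕ) (f : ℕ → ℝ) (N : ℕ → ℕ) (k : ℕ) (μ T P : ℝ), (∀ y, 0 ≤ f y) → 1 ≤ k →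
    0 < P → 0 ≤ μ → ∑ y ∈ A, f y ≤ T → μ ≤ ∑ y ∈ A, f y * N y →
    ∑ y ∈ A, f y * ((N y : ℝ) * ((N y : ℝ) - 1)) ≤ P → k * T ≤ μ / 2 →
    μ ^ 2 / (8 * P) ≤ ∑ y ∈ A, if k + 1 ≤ N y then f y else 0

/-- SEL: selection of `y`. -/
def Stmt_SEL : Prop :=
  ∀ (Y k J n : ℕ) (f : ℕ → ℝ) (E : Fin J → Finset ℕ) (S₀ : Finset ℕ) (P : ℕ → ℕ → Prop)
    [∀ h y, Decidable (P h y)] (c p₂ p₀ A : ℝ), 1 ≤ k → 0 < A → 0 < c → 0 < p₂ → 0 ≤ p₀ →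
    (∀ y, 0 ≤ f y) → (∀ i j, i ≠ j → Disjoint (E i) (E j)) → (∀ i, (E i).card = n) →
    ∑ y ∈ Ioc Y (2 * Y), f y ≤ 3 * A →
    (∀ i, ∀ e ∈ E i, c * A ≤ ∑ y ∈ Ioc Y (2 * Y), if P e y then f y else 0) →
    (∀ i, ∀ e ∈ E i, ∀ j, ∀ e' ∈ E j, e ≠ e' →
      ∑ y ∈ Ioc Y (2 * Y), (if P e y ∧ P e' y then f y else 0) ≤ p₂ * A) →
    (∀ h ∈ S₀, ∑ y ∈ Ioc Y (2 * Y), (if P h y then f y else 0) ≤ p₀ * A) →
    6 * k ≤ c * (J * n) → (J : ℝ) * n ^ 2 * p₂ + S₀.card * p₀ < c ^ 2 / (8 * p₂) →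
    ∃ y ∈ Ioc Y (2 * Y), (∀ h ∈ S₀, ¬ P h y) ∧
      (∀ i, ((E i).filter (fun e => P e y)).card ≤ 1) ∧
      k + 1 ≤ ((univ.biUnion E).filter (fun e => P e y)).card

/-- MID: the construction, all estimates assumed in the structure `Dat`. -/
def Stmt_MID : Prop :=
  ∀ (π ι : Type) [Fintype π] [DecidableEq π] [Fintype ι] [DecidableEq ι] (S : Sys π ι)
    (u g : Finset π → ℝ) (a b C K D z s G Λ c : ℝ) (Y Q k J n : ℕ) (E : Fin J → Finset ℕ),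
    Dat S u g a b C K D z s G Y Q → 0 < G → 0 < Λ → 0 < c →
    c ≤ (S.W : ℝ) / (S.W.totient : ℝ) / (4 * Λ) →
    (∀ i j, i ≠ j → Disjoint (E i) (E j)) → (∀ i, (E i).card = n) →
    (∀ i, ∀ e ∈ E i, Ext S e ∧ e.Coprime S.W ∧
      Mom Q (S.W * Y + e) (2 * (S.W * Y) + e) ≤ (S.W : ℝ) * Y / 8 ∧
      Real.log ((2 * (S.W * Y) + e : ℕ) : ℝ) ≤ Λ) →
    (∀ i, ∀ e ∈ E i, ∀ j, ∀ e' ∈ E j, e ≠ e' → (ext2 S e e').Good) →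
    (∀ n : ℕ, n.Prime → S.W * Y < n → n.Coprime S.W ∧ ∀ x, S.pr x < n) →
    1 ≤ k → 6 * k ≤ c * (J * n) →
    (J : ℝ) * n ^ 2 * (9 * G ^ 2) + Fintype.card ι *
      (8 * ((Real.log D * K / z) ^ 2 + Real.exp (-(Real.log (D / b) / Real.log b))) +
        2 * (2 * Real.exp 1 * D ^ (1 + s)) ^ 2 / Y) < c ^ 2 / (72 * G ^ 2) →
    ∃ y ∈ Ioc Y (2 * Y), (∀ h : ι, ¬ (S.N h y).Prime) ∧
      (∀ i, ((E i).filter (fun e => (S.W * y + e).Prime)).card ≤ 1) ∧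
      k + 1 ≤ ((univ.biUnion E).filter (fun e => (S.W * y + e).Prime)).card

/-! ## Part 5: existence of the data -/

/-- UEP: the soft weight on the larger set of primes. -/
def Stmt_UEP : Prop :=
  ∀ M η : ℝ, 1 ≤ M → 0 < η → ∃ C K L₀ : ℝ, 0 < C ∧ 1 ≤ K ∧ ∀ L : ℝ, L₀ ≤ L → ∀ P : Finset ℕ,
    (∀ p : ℕ, p ∈ P ↔ p.Prime ∧ ⌈L ^ 3⌉₊ < p ∧ (p : ℝ) ≤ Real.exp (η * L)) →
    ∀ (ι : Type) (S : Sys P ι), (∀ x : P, S.pr x = (x : ℕ)) →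
    ∃ u : Finset P → ℝ,
      Uok S u (Real.exp (√L / K)) (Real.exp (L / (M * Real.log L))) C K

/-- GEX: the sieve weight. -/
def Stmt_GEX : Prop :=
  ∀ η : ℝ, 0 < η → η ≤ 1 → ∃ C K L₀ : ℝ, 0 < C ∧ 1 ≤ K ∧ ∀ L : ℝ, L₀ ≤ L → ∀ P : Finset ℕ,
    (∀ p : ℕ, p ∈ P ↔ p.Prime ∧ ⌈L ^ 3⌉₊ < p ∧ (p : ℝ) ≤ Real.exp (η * L)) →
    ∃ g : Finset P → ℝ, (∀ T, 0 ≤ g T) ∧ ∑ T, g T = 1 ∧
      ∑ T, g T ^ 2 * ∏ x ∈ T, ((x : ℕ) : ℝ) ≤ C * (Real.log L / L) ∧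
      (∀ x : P, ∑ T, (if x ∈ T then g T else 0) ≤ K / ((x : ℕ) : ℝ)) ∧
      (∀ T, g T ≠ 0 → ∏ x ∈ T, ((x : ℕ) : ℝ) ≤ Real.exp (η * L)) ∧
      ∑ T, g T * ∏ x ∈ T, (((x : ℕ) : ℝ) + 1) ≤ Real.exp (2 * (η * L))

/-- TAB: sums over distinct primes larger than `z`. -/
def Stmt_TAB : Prop :=
  ∀ (P : Finset ℕ) (z : ℕ) (k : ℝ), 2 ≤ z → 0 ≤ k → (∀ p ∈ P, z < p) →
    ∏ p ∈ P, (1 + k / (((p : ℝ) - 1) * √p)) ≤ Real.exp (8 * k / √z) ∧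
    ∑ p ∈ P, 1 / (p : ℝ) ^ 2 ≤ 1 / (z : ℝ)

/-- WPH: the primorial divided by its totient. -/
def Stmt_WPH : Prop :=
  ∃ c : ℝ, 0 < c ∧ ∀ w : ℕ, 2 ≤ w → c * Real.log w ≤ (primorial w : ℝ) / (primorial w).totient

/-- DATX: the data exist. -/
def Stmt_DATX : Prop :=
  ∀ κA : ℝ, 0 < κA → ∃ κ₀ κ η C₂ : ℝ, 0 < κ₀ ∧ κ₀ ≤ 1 / 8 ∧ 0 < κ ∧ 0 < η ∧ η ≤ 1 / 2 ∧ 0 < C₂ ∧
    ∀ δ : ℝ, 0 < δ → ∃ L₀ : ℝ, ∀ L : ℝ, L₀ ≤ L → ∀ P : Finset ℕ,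
    (∀ p : ℕ, p ∈ P ↔ p.Prime ∧ ⌈L ^ 3⌉₊ < p ∧ (p : ℝ) ≤ Real.exp (η * L)) →
    ∀ (ι : Type) [Fintype ι] [DecidableEq ι] (S : Sys P ι), (∀ x : P, S.pr x = (x : ℕ)) →
    S.Good → S.W = primorial ⌊κ₀ * L⌋₊ → (Fintype.card ι : ℝ) ≤ κ * L →
    ∀ Y Q : ℕ, Real.exp (L / 2) ≤ Y → Real.exp (κA * L) ≤ Q + 1 →
    ∃ (u g : Finset P → ℝ) (a b C K D z s : ℝ),
      Dat S u g a b C K D z s (C₂ * (Real.log L / L)) Y Q ∧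
      (Fintype.card ι : ℝ) *
        (8 * ((Real.log D * K / z) ^ 2 + Real.exp (-(Real.log (D / b) / Real.log b))) +
          2 * (2 * Real.exp 1 * D ^ (1 + s)) ^ 2 / Y) ≤ δ

/-- SCK: chains of primes at a good scale, other survivors composite. -/
def Stmt_SCK : Prop :=
  ∀ κA : ℝ, 0 < κA → ∃ κ₀ κ C₁ : ℝ, 0 < κ₀ ∧ 0 < κ ∧ 0 < C₁ ∧
    ∀ k J : ℕ, 1 ≤ k → C₁ * k ^ 2 ≤ J → ∃ K₁ X₀ : ℝ, 0 < K₁ ∧ ∀ X : ℝ, X₀ ≤ X →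
    GoodX (1 / 8) κA X → ∀ (w v H n : ℕ) (E : Fin J → Finset ℕ), w = ⌊κ₀ * Real.log X⌋₊ →
    v < primorial w → (H : ℝ) ≤ Real.log X ^ 2 → (∀ i, E i ⊆ Icc 1 H) →
    (∀ i, ∀ h ∈ E i, (v + h).Coprime (primorial w)) → (∀ i j, i ≠ j → Disjoint (E i) (E j)) →
    (∀ i, (E i).card = n) → K₁ * (Real.log X / Real.log (Real.log X)) ≤ (J : ℝ) * n →
    (J : ℝ) * n ≤ 2 * K₁ * (Real.log X / Real.log (Real.log X)) →
    (((Icc 1 H).filter (fun h => (v + h).Coprime (primorial w))).card : ℝ) ≤ κ * Real.log X →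
    ∃ a : ℕ, X ≤ a ∧ ((a + H : ℕ) : ℝ) ≤ 4 * X ∧
      (∀ m ∈ Ioc a (a + H), m.Prime → ∃ i, ∃ h ∈ E i, m = a + h) ∧
      (∀ i, ((E i).filter (fun h => (a + h).Prime)).card ≤ 1) ∧
      k + 1 ≤ ((univ.biUnion E).filter (fun h => (a + h).Prime)).card

/-! ## Part 6: residues with many surviving primes in many clusters -/

/-- The number of elements `q` of `A` such that `v + q` has no prime factor in `R`. -/
def Xv (R A : Finset ℕ) (v : ℕ) : ℕ := (A.filter (fun q => ∀ p ∈ R, ¬ p ∣ v + q)).card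

/-- The sieve product. -/
noncomputable def Pi' (R : Finset ℕ) : ℝ := ∏ p ∈ R, (1 - 1 / (p : ℝ))

/-- AVG: counting residues. -/
def Stmt_AVG : Prop :=
  ∀ (R : Finset ℕ), (∀ p ∈ R, p.Prime) → ∀ n n' : ℕ,
    ((range (∏ p ∈ R, p)).filter (fun v => ∀ p ∈ R, ¬ p ∣ v + n)).card = ∏ p ∈ R, (p - 1) ∧
    ((range (∏ p ∈ R, p)).filter (fun v => (∀ p ∈ R, ¬ p ∣ v + n) ∧
      ∀ p ∈ R, ¬ p ∣ v + n')).card = ∏ p ∈ R, (p - if n ≡ n' [MOD p] then 1 else 2)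

/-- NPH: product over the prime divisors. -/
def Stmt_NPH : Prop :=
  ∀ (R : Finset ℕ), (∀ p ∈ R, p.Prime) → ∀ n : ℕ, 0 < n →
    ∏ p ∈ R, (if p ∣ n then (1 - 1 / (p : ℝ))⁻¹ else 1) ≤
      2 * ∑ d ∈ n.divisors.filter Squarefree, 1 / (d : ℝ)

/-- SQS: a convergent sum. -/
def Stmt_SQS : Prop :=
  ∀ D : ℕ, ∑ d ∈ (Ioc 0 D).filter Squarefree, 1 / ((d : ℝ) * d.totient) ≤ 3

/-- BTQ: Brun-Titchmarsh with small moduli. -/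
def Stmt_BTQ : Prop :=
  ∃ C : ℝ, 0 < C ∧ ∀ d x h c : ℕ, 0 < d → d ^ 2 ≤ h → 2 ≤ h →
    (((Ioc x (x + h)).filter (fun q => q.Prime ∧ q ≡ c [MOD d])).card : ℝ) ≤
      C * (h / (d.totient * Real.log h))

/-- PR2: the mean of the singular series over pairs of primes. -/
def Stmt_PR2 : Prop :=
  ∃ C : ℝ, 0 < C ∧ ∀ (x h : ℕ) (R : Finset ℕ), 2 ≤ h → (∀ p ∈ R, p.Prime) →
    ∑ q ∈ (Ioc x (x + h)).filter Nat.Prime, ∑ q' ∈ ((Ioc x (x + h)).filter Nat.Prime).erase q,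
      ∏ p ∈ R, (if q ≡ q' [MOD p] then (1 - 1 / (p : ℝ))⁻¹ else 1) ≤
    C * (((Ioc x (x + h)).filter Nat.Prime).card * (h / Real.log h))

/-- FM1: first moment. -/
def Stmt_FM1 : Prop :=
  ∀ R A : Finset ℕ, (∀ p ∈ R, p.Prime) →
    ∑ v ∈ range (∏ p ∈ R, p), (Xv R A v : ℝ) = ((∏ p ∈ R, p : ℕ) : ℝ) * (Pi' R * A.card)

/-- SM2: second moment. -/
def Stmt_SM2 : Prop :=
  ∃ C : ℝ, 0 < C ∧ ∀ (x h : ℕ) (R : Finset ℕ), 2 ≤ h → (∀ p ∈ R, p.Prime) →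
    ∑ v ∈ range (∏ p ∈ R, p), (Xv R ((Ioc x (x + h)).filter Nat.Prime) v : ℝ) ^ 2 ≤
      ((∏ p ∈ R, p : ℕ) : ℝ) * (Pi' R * ((Ioc x (x + h)).filter Nat.Prime).card +
        C * (Pi' R ^ 2 * (((Ioc x (x + h)).filter Nat.Prime).card * (h / Real.log h))))

/-- PZX: many residues have many surviving primes. -/
def Stmt_PZX : Prop :=
  ∀ c₀ : ℝ, 0 < c₀ → ∃ c₁ : ℝ, 0 < c₁ ∧ ∀ (x h : ℕ) (R : Finset ℕ), 2 ≤ h →
    (∀ p ∈ R, p.Prime) →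
    c₀ * (h / Real.log h) ≤ (((Ioc x (x + h)).filter Nat.Prime).card : ℝ) →
    1 ≤ Pi' R * ((Ioc x (x + h)).filter Nat.Prime).card →
    c₁ * ((∏ p ∈ R, p : ℕ) : ℝ) ≤ (((range (∏ p ∈ R, p)).filter (fun v =>
      Pi' R * ((Ioc x (x + h)).filter Nat.Prime).card / 2 ≤
        (Xv R ((Ioc x (x + h)).filter Nat.Prime) v : ℝ))).card : ℝ)

/-- PIN: primes in intervals. -/
def Stmt_PIN : Prop :=
  ∀ J : ℕ, 0 < J → ∃ H₀ : ℕ, ∀ H x : ℕ, H₀ ≤ H → H ≤ 2 * x → x ≤ H →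
    1 / 2 * ((H / (4 * J) : ℕ) / Real.log H) ≤
      (((Ioc x (x + H / (4 * J))).filter Nat.Prime).card : ℝ)

/-- MEL: Mertens. -/
def Stmt_MEL : Prop :=
  ∃ c C : ℝ, 0 < c ∧ 0 < C ∧ ∀ y : ℝ, 2 ≤ y →
    c / Real.log y ≤ Pi' ((Icc 1 ⌊y⌋₊).filter Nat.Prime) ∧
    Pi' ((Icc 1 ⌊y⌋₊).filter Nat.Prime) ≤ C / Real.log y

/-- ASL: averaging, many good indices and a small total at the same time. -/
def Stmt_ASL : Prop :=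
  ∀ (N J : ℕ) (good : ℕ → ℕ → Prop) [∀ i v, Decidable (good i v)] (tot : ℕ → ℝ) (T c : ℝ),
    0 < N → 0 < J → 0 < c → 0 ≤ T → (∀ v, 0 ≤ tot v) → ∑ v ∈ range N, tot v ≤ N * T →
    (∀ i < J, c * N ≤ (((range N).filter (fun v => good i v)).card : ℝ)) →
    ∃ v < N, c / 2 * J ≤ (((range J).filter (fun i => good i v)).card : ℝ) ∧
      c / 2 * tot v ≤ T

/-- CRV: lifting of the residue. -/
def Stmt_CRV : Prop :=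
  ∀ (w : ℕ) (y : ℝ) (v₀ : ℕ), ∃ v < primorial w,
    (∀ p : ℕ, p.Prime → p ≤ w → (p : ℝ) ≤ y → v ≡ v₀ [MOD p]) ∧
    (∀ p : ℕ, p.Prime → p ≤ w → y < (p : ℝ) → p ∣ v)

/-- RES: the residue `v` and the clusters. -/
def Stmt_RES : Prop :=
  ∃ C c : ℝ, 0 < C ∧ 0 < c ∧ ∀ J : ℕ, 0 < J → ∀ᶠ w : ℕ in atTop, ∀ H : ℕ, 4 * w ≤ H →
    (H : ℝ) ≤ w * Real.log w ^ 2 →
    ∃ v < primorial w, ∃ E : Fin J → Finset ℕ, (∀ i, E i ⊆ Icc 1 H) ∧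
      (∀ i, ∀ h ∈ E i, (v + h).Coprime (primorial w)) ∧
      (∀ i j, i ≠ j → ∀ h ∈ E i, ∀ h' ∈ E j, c / J * H ≤ |(h : ℝ) - h'|) ∧
      (∀ i, c / J * (H * Real.log (Real.log w) /
        (Real.log w ^ 2 * Real.log (Real.log (Real.log w)))) ≤ ((E i).card : ℝ)) ∧
      (((Icc 1 H).filter (fun h => (v + h).Coprime (primorial w))).card : ℝ) ≤
        C * (H * Real.log (Real.log w) ^ 2 /
          (Real.log w ^ 2 * Real.log (Real.log (Real.log w))))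

/-! ## Part 7: the final theorem -/

/-- CHN: from positions of primes to consecutive primes. -/
def Stmt_CHN : Prop :=
  ∀ (a H k : ℕ) (d : ℝ), k + 1 ≤ ((Ioc a (a + H)).filter Nat.Prime).card →
    (∀ p ∈ (Ioc a (a + H)).filter Nat.Prime, ∀ q ∈ (Ioc a (a + H)).filter Nat.Prime, p < q →
      d ≤ (q : ℝ) - p) →
    ∃ n, a < Nat.nth Nat.Prime n ∧ Nat.nth Nat.Prime (n + k) ≤ a + H ∧
      ∀ i < k, d ≤ (Nat.nth Nat.Prime (n + i + 1) : ℝ) - Nat.nth Nat.Prime (n + i)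

/-- The length of the interval. -/
noncomputable def HH (κ' : ℝ) (w : ℕ) : ℕ :=
  ⌊κ' * (w * (Real.log w ^ 2 * Real.log (Real.log (Real.log w)) /
    Real.log (Real.log w) ^ 2))⌋₊

/-- NUF: comparison of the final function with the length. -/
def Stmt_NUF : Prop :=
  ∀ κ₀ κ' : ℝ, 0 < κ₀ → 0 < κ' → ∃ c X₀ : ℝ, 0 < c ∧ ∀ X : ℝ, X₀ ≤ X → ∀ p : ℝ, X ≤ p →
    p ≤ 4 * X → c * ff p ≤ HH κ' ⌊κ₀ * Real.log X⌋₊

/-- CHAIN: the final theorem. -/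
def Stmt_CHAIN : Prop :=
  ∃ c : ℝ, 0 < c ∧ ∀ k : ℕ, 1 ≤ k → ∃ᶠ n in atTop, ∀ i < k,
    c / k ^ 2 * ff (Nat.nth Nat.Prime n) ≤
      (Nat.nth Nat.Prime (n + i + 1) : ℝ) - Nat.nth Nat.Prime (n + i)

end Pool.LGC
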